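import Pool.Agent.Work.MP_54723a_co.CF.LimitRatio

/-!
# The local form of the limit theorem, every length  (helper7, after helper34 and helper86)

For every colouring without `l`-flash, `∑ v, l ^ (- r v) ≤ κ`, where `r v` is the length of a
longest rainbow path through `v` and `κ = lim f(l,k) / l ^ (k - 1)`.
-/

set_option autoImplicit false

namespace FlashRainbow.Lim

open Filter Topology

/-- no `l`-flash inside `S` -/
def NF (l : ℕ) (S : Finset ℕ) (c : ℕ → ℕ → ℕ) : Prop :=
  ¬ ∃ x : Fin (l + 1) → ℕ, StrictMono x ∧ (∀ i, x i ∈ S) ∧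
    ∃ col : ℕ, ∀ i : Fin l, c (x i.castSucc) (x i.succ) = col

/-- every rainbow path of `S` through `v` has at most `r v` arcs -/
def Thr (S : Finset ℕ) (c : ℕ → ℕ → ℕ) (r : ℕ → ℕ) : Prop :=
  ∀ (m : ℕ) (y : Fin (m + 1) → ℕ), StrictMono y → (∀ i, y i ∈ S) →
    Function.Injective (fun i : Fin m => c (y i.castSucc) (y i.succ)) → ∀ i, m ≤ r (y i)

/-- the new set: vertices with `r v < N` are replaced by `l` vertices -/
def SL (l : ℕ) (S : Finset ℕ) (r : ℕ → ℕ) (N : ℕ) : Finset ℕ :=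
  S.biUnion fun v => if r v < N then (Finset.range l).image (fun j => l * v + j) else {l * v}

def cL (l : ℕ) (c : ℕ → ℕ → ℕ) (a b : ℕ) : ℕ :=
  if a / l = b / l then 0 else c (a / l) (b / l) + 1

def rL (l : ℕ) (r : ℕ → ℕ) (N : ℕ) (a : ℕ) : ℕ :=
  if r (a / l) < N then r (a / l) + 1 else r (a / l)

variable {l : ℕ} {S : Finset ℕ} {c : ℕ → ℕ → ℕ} {r : ℕ → ℕ} {N : ℕ}

theorem div_block (hl : 1 ≤ l) (v j : ℕ) (hj : j < l) : (l * v + j) / l = v := by
  rw [Nat.mul_add_div (by omega), Nat.div_eq_of_lt hj, Nat.add_zero]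

theorem mem_SL (hl : 1 ≤ l) {a : ℕ} (h : a ∈ SL l S r N) :
    a / l ∈ S ∧ (r (a / l) < N ∨ a = l * (a / l)) := by
  obtain ⟨v, hv, ha⟩ := Finset.mem_biUnion.mp h
  split_ifs at ha with hr
  · obtain ⟨j, hj, rfl⟩ := Finset.mem_image.mp ha
    rw [div_block hl v j (Finset.mem_range.mp hj)]
    exact ⟨hv, Or.inl hr⟩
  · rw [Finset.mem_singleton] at ha
    have h1 : a / l = v := by
      rw [ha]
      simpa using div_block hl v 0 (by omega)
    rw [h1]
    exact ⟨hv, Or.inr ha⟩

theorem nfL (hl : 1 ≤ l) (h : NF l S c) : NF l (SL l S r N) (cL l c) := by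
  rintro ⟨x, hx, hmem, col, hcol⟩
  rcases Nat.eq_zero_or_pos col with h0 | hpos
  · have key : ∀ i : Fin l, x i.castSucc / l = x i.succ / l := by
      intro i
      by_contra hne
      have := hcol i
      rw [cL, if_neg hne, h0] at this
      omega
    have h3 : ∀ i : Fin (l + 1), x 0 + i ≤ x i ∧ x i / l = x 0 / l := by
      intro i
      induction i using Fin.induction with
      | zero => exact ⟨by simp, rfl⟩
      | succ i ih =>
        have a1 := key i
        have a2 := hx (Fin.castSucc_lt_succ (i := i))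
        simp only [Fin.val_castSucc, Fin.val_succ] at ih ⊢
        exact ⟨by omega, a1 ▸ ih.2⟩
    obtain ⟨a1, a2⟩ := h3 (Fin.last l)
    rw [Fin.val_last] at a1
    have a3 := Nat.div_le_div_right (c := l) a1
    rw [Nat.add_div_right _ (by omega), a2] at a3
    omega
  · have key : ∀ i : Fin l, x i.castSucc / l ≠ x i.succ / l := by
      intro i he
      have := hcol i
      rw [cL, if_pos he] at this
      omega
    refine h ⟨fun i => x i / l, Fin.strictMono_iff_lt_succ.mpr fun i => ?_,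
      fun i => (mem_SL hl (hmem i)).1, col - 1, fun i => ?_⟩
    · exact lt_of_le_of_ne (Nat.div_le_div_right (hx (Fin.castSucc_lt_succ)).le) (key i)
    · have := hcol i
      rw [cL, if_neg (key i)] at this
      show c (x i.castSucc / l) (x i.succ / l) = col - 1
      omega

theorem thrL (hl : 1 ≤ l) (h : Thr S c r) : Thr (SL l S r N) (cL l c) (rL l r N) := by
  intro m y hy hmem hinj i
  rcases m with _ | k
  · exact Nat.zero_le _
  have hle : ∀ i j : Fin (k + 2), i ≤ j → y i / l ≤ y j / l := by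
    intro i j hij
    exact Nat.div_le_div_right (hy.monotone hij)
  have hcol0 : ∀ i : Fin (k + 1), y i.castSucc / l = y i.succ / l →
      cL l c (y i.castSucc) (y i.succ) = 0 := fun i hi => by rw [cL, if_pos hi]
  have hcol1 : ∀ i : Fin (k + 1), y i.castSucc / l ≠ y i.succ / l →
      cL l c (y i.castSucc) (y i.succ) = c (y i.castSucc / l) (y i.succ / l) + 1 :=
    fun i hi => by rw [cL, if_neg hi]
  by_cases hex : ∃ i₀ : Fin (k + 1), y i₀.castSucc / l = y i₀.succ / l
  · obtain ⟨i₀, hi₀⟩ := hex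
    have hne : ∀ i : Fin (k + 1), i ≠ i₀ → y i.castSucc / l ≠ y i.succ / l := by
      intro i hi he
      exact hi (hinj (by simp only [hcol0 i he, hcol0 i₀ hi₀]))
    have hstep : ∀ i : Fin k,
        y (i₀.succ.succAbove i.castSucc) / l = y (i₀.succAbove i).castSucc / l ∧
        y (i₀.succ.succAbove i.succ) / l = y (i₀.succAbove i).succ / l := by
      intro i
      rcases lt_or_ge i.castSucc i₀ with hlt | hge
      · have e1 : i₀.succAbove i = i.castSucc := Fin.succAbove_of_castSucc_lt _ _ hlt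
        have e2 : i₀.succ.succAbove i.castSucc = i.castSucc.castSucc :=
          Fin.succAbove_of_castSucc_lt _ _ (by
            rw [Fin.lt_def] at hlt ⊢
            simp only [Fin.val_castSucc, Fin.val_succ] at hlt ⊢
            omega)
        have e3 : i₀.succ.succAbove i.succ = i.succ.castSucc :=
          Fin.succAbove_of_castSucc_lt _ _ (by
            rw [Fin.lt_def] at hlt ⊢
            simp only [Fin.val_castSucc, Fin.val_succ] at hlt ⊢
            omega)
        rw [e1, e2, e3]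
        exact ⟨rfl, rfl⟩
      · have e1 : i₀.succAbove i = i.succ := Fin.succAbove_of_le_castSucc _ _ hge
        have e3 : i₀.succ.succAbove i.succ = i.succ.succ :=
          Fin.succAbove_of_le_castSucc _ _ (by
            rw [Fin.le_def] at hge ⊢
            simp only [Fin.val_castSucc, Fin.val_succ] at hge ⊢
            omega)
        rw [e1, e3]
        refine ⟨?_, rfl⟩
        rcases eq_or_lt_of_le hge with heq | hlt
        · have e2 : i₀.succ.succAbove i.castSucc = i.castSucc.castSucc :=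
            Fin.succAbove_of_castSucc_lt _ _ (by
              rw [Fin.lt_def]
              have := congrArg Fin.val heq
              simp only [Fin.val_castSucc, Fin.val_succ] at this ⊢
              omega)
          rw [e2, ← heq, hi₀, heq]
          rfl
        · have e2 : i₀.succ.succAbove i.castSucc = i.castSucc.succ :=
            Fin.succAbove_of_le_castSucc _ _ (by
              rw [Fin.lt_def] at hlt
              rw [Fin.le_def]
              simp only [Fin.val_castSucc, Fin.val_succ] at hlt ⊢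
              omega)
          rw [e2]
          rfl
    have hpath : ∀ j : Fin (k + 1), k ≤ r (y (i₀.succ.succAbove j) / l) := by
      refine h k (fun j => y (i₀.succ.succAbove j) / l)
        (Fin.strictMono_iff_lt_succ.mpr fun i => ?_) (fun j => (mem_SL hl (hmem _)).1) ?_
      · obtain ⟨e1, e2⟩ := hstep i
        show y (i₀.succ.succAbove i.castSucc) / l < y (i₀.succ.succAbove i.succ) / l
        rw [e1, e2]
        exact lt_of_le_of_ne (hle _ _ (Fin.castSucc_lt_succ).le)
          (hne _ (Fin.succAbove_ne _ _))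
      · intro i j hij
        obtain ⟨e1, e2⟩ := hstep i
        obtain ⟨e3, e4⟩ := hstep j
        have hij' : c (y (i₀.succ.succAbove i.castSucc) / l)
            (y (i₀.succ.succAbove i.succ) / l) =
            c (y (i₀.succ.succAbove j.castSucc) / l) (y (i₀.succ.succAbove j.succ) / l) := hij
        rw [e1, e2, e3, e4] at hij'
        refine Fin.succAbove_right_injective (p := i₀) (hinj ?_)
        show cL l c _ _ = cL l c _ _
        rw [hcol1 _ (hne _ (Fin.succAbove_ne _ _)), hcol1 _ (hne _ (Fin.succAbove_ne _ _)), hij']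
    have hall : ∀ i : Fin (k + 2), k ≤ r (y i / l) := by
      intro i
      by_cases hi : i = i₀.succ
      · have e : i₀.succ.succAbove i₀ = i₀.castSucc :=
          Fin.succAbove_of_castSucc_lt _ _ (Fin.castSucc_lt_succ)
        have := hpath i₀
        rw [e, hi₀, ← hi] at this
        exact this
      · obtain ⟨j, hj⟩ := Fin.exists_succAbove_eq hi
        have := hpath j
        rwa [hj] at this
    -- the block of the inner arc has `l` vertices
    have hu : r (y i₀.succ / l) < N := by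
      rcases (mem_SL hl (hmem i₀.succ)).2 with h1 | h1
      · exact h1
      · rcases (mem_SL hl (hmem i₀.castSucc)).2 with h2 | h2
        · rw [hi₀] at h2
          exact h2
        · exfalso
          have h3 := hy (Fin.castSucc_lt_succ (i := i₀))
          rw [hi₀, ← h1] at h2
          exact absurd h3 (by rw [h2]; exact lt_irrefl _)
    have hkN : k + 1 ≤ N := by
      have := hall i₀.succ
      omega
    rw [rL]
    split_ifs with hr
    · have := hall i
      omega
    · omega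
  · push Not at hex
    have hpath : ∀ j : Fin (k + 2), k + 1 ≤ r (y j / l) := by
      refine h (k + 1) (fun j => y j / l) (Fin.strictMono_iff_lt_succ.mpr fun i => ?_)
        (fun j => (mem_SL hl (hmem _)).1) ?_
      · exact lt_of_le_of_ne (hle _ _ (Fin.castSucc_lt_succ).le) (hex i)
      · intro i j hij
        have hij' : c (y i.castSucc / l) (y i.succ / l) =
          c (y j.castSucc / l) (y j.succ / l) := hij
        refine hinj ?_
        show cL l c _ _ = cL l c _ _
        rw [hcol1 _ (hex _), hcol1 _ (hex _), hij']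
    have := hpath i
    rw [rL]
    split_ifs <;> omega

theorem sumL (hl : 1 ≤ l) :
    ∑ a ∈ SL l S r N, l ^ (N - rL l r N a) = ∑ v ∈ S, l ^ (N - r v) := by
  rw [SL, Finset.sum_biUnion]
  · refine Finset.sum_congr rfl fun v hv => ?_
    split_ifs with hr
    · rw [Finset.sum_image (by intro i _ j _ hij; simpa using hij)]
      obtain ⟨d, hd⟩ : ∃ d, N - r v = d + 1 := ⟨N - r v - 1, by omega⟩
      have hd' : N - (r v + 1) = d := by omega
      have h1 : ∀ j ∈ Finset.range l, l ^ (N - rL l r N (l * v + j)) = l ^ d := by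
        intro j hj
        rw [rL, div_block hl v j (Finset.mem_range.mp hj), if_pos hr, hd']
      rw [Finset.sum_congr rfl h1, Finset.sum_const, Finset.card_range, smul_eq_mul, hd, pow_succ]
      ring
    · rw [Finset.sum_singleton]
      have h0 : l * v / l = v := by simpa using div_block hl v 0 (by omega)
      simp only [rL, h0, if_neg hr]
  · intro u _ v _ huv
    rw [Function.onFun, Finset.disjoint_left]
    have key : ∀ (w a : ℕ), a ∈ (if r w < N then (Finset.range l).image (fun j => l * w + j)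
        else ({l * w} : Finset ℕ)) → a / l = w := by
      intro w a ha
      split_ifs at ha
      · obtain ⟨j, hj, rfl⟩ := Finset.mem_image.mp ha
        exact div_block hl w j (Finset.mem_range.mp hj)
      · rw [Finset.mem_singleton] at ha
        rw [ha]
        simpa using div_block hl w 0 (by omega)
    intro a ha hb
    exact huv ((key u a ha).symm.trans (key v a hb))

/-- from a set with all `r v ≤ N` to a good colouring -/
theorem good_of_all {M : ℕ} (hM : S.card = M) (h : NF l S c) (ht : Thr S c r)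
    (hr : ∀ v ∈ S, r v ≤ N) : ¬ Unav l (N + 1) M := by
  let e := S.orderEmbOfFin hM
  intro hU
  rcases hU (fun a b => c (e a) (e b)) with ⟨x, hx, col, hcol⟩ | ⟨y, hy, hinj⟩
  · exact h ⟨fun i => e (x i), fun i j hij => e.strictMono (hx hij),
      fun i => Finset.orderEmbOfFin_mem S hM _, col, hcol⟩
  · have h1 := ht (N + 1) (fun i => e (y i)) (fun i j hij => e.strictMono (hy hij))
      (fun i => Finset.orderEmbOfFin_mem S hM _) hinj 0
    have h2 := hr (e (y 0)) (Finset.orderEmbOfFin_mem S hM _)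
    omega

theorem good_sum (hl : 1 ≤ l) (j : ℕ) : ∀ (S : Finset ℕ) (c : ℕ → ℕ → ℕ) (r : ℕ → ℕ), NF l S c →
    Thr S c r → (∀ v ∈ S, r v ≤ N) → (∀ v ∈ S, N ≤ r v + j) →
    ¬ Unav l (N + 1) (∑ v ∈ S, l ^ (N - r v)) := by
  induction j with
  | zero =>
    intro S c r h ht hr hj
    refine good_of_all ?_ h ht hr
    rw [Finset.card_eq_sum_ones]
    refine Finset.sum_congr rfl fun v hv => ?_
    have h1 := hj v hv
    have h2 : N - r v = 0 := by omega
    rw [h2, pow_zero]
  | succ j ih =>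
    intro S c r h ht hr hj
    rw [← sumL hl]
    refine ih _ _ _ (nfL hl h) (thrL hl ht) ?_ ?_
    · intro a ha
      have h1 := hr _ (mem_SL hl ha).1
      rw [rL]
      split_ifs <;> omega
    · intro a ha
      have h1 := hj _ (mem_SL hl ha).1
      rw [rL]
      split_ifs <;> omega

/-- the local inequality for a colouring on `Fin n` -/
theorem lym_of_good (hl : 1 ≤ l) {κ : ℝ}
    (hB : ∀ N M : ℕ, ¬ Unav l (N + 1) M → (M : ℝ) ≤ κ * l ^ N)
    (n : ℕ) (c : Fin n → Fin n → ℕ) (r : Fin n → ℕ)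
    (hf : ¬ ∃ x : Fin (l + 1) → Fin n, StrictMono x ∧
      ∃ col : ℕ, ∀ i : Fin l, c (x i.castSucc) (x i.succ) = col)
    (hr : ∀ (m : ℕ) (y : Fin (m + 1) → Fin n), StrictMono y →
      Function.Injective (fun i : Fin m => c (y i.castSucc) (y i.succ)) → ∀ i, m ≤ r (y i)) :
    ∑ v, (1 / (l : ℝ)) ^ r v ≤ κ := by
  classical
  set c' : ℕ → ℕ → ℕ := fun a b => if h : a < n ∧ b < n then c ⟨a, h.1⟩ ⟨b, h.2⟩ else 0 with hc'
  set r' : ℕ → ℕ := fun a => if h : a < n then r ⟨a, h⟩ else 0 with hr'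
  set N : ℕ := Finset.univ.sup r with hN
  have hcv : ∀ (a b : ℕ) (ha : a < n) (hb : b < n), c' a b = c ⟨a, ha⟩ ⟨b, hb⟩ := by
    intro a b ha hb
    simp only [hc', dif_pos (And.intro ha hb)]
  have hrv : ∀ (a : ℕ) (ha : a < n), r' a = r ⟨a, ha⟩ := by
    intro a ha
    simp only [hr', dif_pos ha]
  have hNF : NF l (Finset.range n) c' := by
    rintro ⟨x, hx, hmem, col, hcol⟩
    have hlt : ∀ i, x i < n := fun i => Finset.mem_range.mp (hmem i)
    refine hf ⟨fun i => ⟨x i, hlt i⟩, fun i j hij => hx hij, col, fun i => ?_⟩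
    rw [← hcv _ _ (hlt i.castSucc) (hlt i.succ)]
    exact hcol i
  have hThr : Thr (Finset.range n) c' r' := by
    intro m y hy hmem hinj i
    have hlt : ∀ i, y i < n := fun i => Finset.mem_range.mp (hmem i)
    rw [hrv _ (hlt i)]
    refine hr m (fun i => ⟨y i, hlt i⟩) (fun i j hij => hy hij) (fun i j hij => ?_) i
    refine hinj ?_
    show c' (y i.castSucc) (y i.succ) = c' (y j.castSucc) (y j.succ)
    rw [hcv _ _ (hlt _) (hlt _), hcv _ _ (hlt _) (hlt _)]
    exact hij
  have hle : ∀ v ∈ Finset.range n, r' v ≤ N := by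
    intro v hv
    rw [hrv _ (Finset.mem_range.mp hv)]
    exact Finset.le_sup (f := r) (Finset.mem_univ _)
  have hl0 : (0 : ℝ) < l := by exact_mod_cast hl
  have h1 := hB N _ (good_sum hl N (Finset.range n) c' r' hNF hThr hle fun v _ => by omega)
  have h2 : ((∑ v ∈ Finset.range n, l ^ (N - r' v) : ℕ) : ℝ) =
      (l : ℝ) ^ N * ∑ v, (1 / (l : ℝ)) ^ r v := by
    push_cast
    rw [Finset.mul_sum, Finset.sum_range]
    refine Finset.sum_congr rfl fun v _ => ?_
    have h3 : r v ≤ N := Finset.le_sup (f := r) (Finset.mem_univ v)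
    rw [hrv v.val v.isLt, div_pow, one_pow]
    show (l : ℝ) ^ (N - r v) = _
    rw [pow_sub₀ _ hl0.ne' h3]
    ring
  rw [h2] at h1
  have h4 : (0 : ℝ) < (l : ℝ) ^ N := by positivity
  rw [mul_comm κ] at h1
  exact le_of_mul_le_mul_left h1 h4

/-- **limit theorem with the local inequality**, every length -/
theorem lym_final (hl : 1 ≤ l)
    (hK : ∃ C : ℕ, ∀ k n : ℕ, 1 ≤ k → C * l ^ (k - 1) < n → Unav l k n) :
    ∃ κ : ℝ, 1 ≤ κ ∧
      (∀ k : ℕ, 1 ≤ k → (∀ n : ℕ, f l k < n → Unav l k n) ∧ ¬ Unav l k (f l k) ∧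
        l * f l k ≤ f l (k + 1) ∧ (f l k : ℝ) ≤ κ * l ^ (k - 1)) ∧
      Tendsto (fun k : ℕ => (f l k : ℝ) / l ^ (k - 1)) atTop (𝓝 κ) ∧
      (∀ (n : ℕ) (c : Fin n → Fin n → ℕ) (r : Fin n → ℕ),
        (¬ ∃ x : Fin (l + 1) → Fin n, StrictMono x ∧
          ∃ col : ℕ, ∀ i : Fin l, c (x i.castSucc) (x i.succ) = col) →
        (∀ (m : ℕ) (y : Fin (m + 1) → Fin n), StrictMono y →
          Function.Injective (fun i : Fin m => c (y i.castSucc) (y i.succ)) →
            ∀ i, m ≤ r (y i)) →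
        ∑ v, (1 / (l : ℝ)) ^ r v ≤ κ) ∧
      (κ = 1 ↔ ∀ k : ℕ, 1 ≤ k → f l k = l ^ (k - 1)) := by
  obtain ⟨κ, h1, h2, h3, h4⟩ := limit_final hl hK
  refine ⟨κ, h1, fun k hk => ⟨(h2 k hk).1, (h2 k hk).2.1, mul_f_le hl hK hk, (h2 k hk).2.2⟩, h3,
    ?_, h4⟩
  intro n c r hf hr
  refine lym_of_good hl ?_ n c r hf hr
  intro N M hM
  have h5 : M ≤ f l (N + 1) := by
    by_contra hcon
    exact hM ((h2 (N + 1) (by omega)).1 M (not_le.mp hcon))
  have h6 := (h2 (N + 1) (by omega)).2.2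
  rw [Nat.add_sub_cancel] at h6
  have h7 : (M : ℝ) ≤ f l (N + 1) := by exact_mod_cast h5
  exact h7.trans h6

/-- **all lengths at once, no own definitions**: `f l k` is the number `f(l,k)` of the problem and
`L l` is the limit of `f(l,k) / l ^ (k - 1)`. -/
theorem limit_lym_all {l₀ : ℕ} (h₀ : 1 ≤ l₀)
    (hC : ∀ l : ℕ, l₀ ≤ l → ∃ C : ℕ, ∀ k n : ℕ, 1 ≤ k → C * l ^ (k - 1) < n →
      ∀ c : Fin n → Fin n → ℕ,
        (∃ x : Fin (l + 1) → Fin n, StrictMono x ∧
          ∃ col : ℕ, ∀ i : Fin l, c (x i.castSucc) (x i.succ) = col) ∨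
        (∃ y : Fin (k + 1) → Fin n, StrictMono y ∧
          Function.Injective (fun i : Fin k => c (y i.castSucc) (y i.succ)))) :
    ∃ (f : ℕ → ℕ → ℕ) (L : ℕ → ℝ), ∀ l : ℕ, l₀ ≤ l →
      (∀ k : ℕ, 1 ≤ k →
        (∀ n : ℕ, f l k < n → ∀ c : Fin n → Fin n → ℕ,
          (∃ x : Fin (l + 1) → Fin n, StrictMono x ∧
            ∃ col : ℕ, ∀ i : Fin l, c (x i.castSucc) (x i.succ) = col) ∨
          (∃ y : Fin (k + 1) → Fin n, StrictMono y ∧
            Function.Injective (fun i : Fin k => c (y i.castSucc) (y i.succ)))) ∧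
        (∃ c : Fin (f l k) → Fin (f l k) → ℕ,
          (¬ ∃ x : Fin (l + 1) → Fin (f l k), StrictMono x ∧
            ∃ col : ℕ, ∀ i : Fin l, c (x i.castSucc) (x i.succ) = col) ∧
          (¬ ∃ y : Fin (k + 1) → Fin (f l k), StrictMono y ∧
            Function.Injective (fun i : Fin k => c (y i.castSucc) (y i.succ))))) ∧
      (∀ k : ℕ, 1 ≤ k → l * f l k ≤ f l (k + 1)) ∧
      Tendsto (fun k : ℕ => (f l k : ℝ) / l ^ (k - 1)) atTop (𝓝 (L l)) ∧ 1 ≤ L l ∧
      (∀ k : ℕ, 1 ≤ k → (f l k : ℝ) ≤ L l * l ^ (k - 1)) ∧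
      (∀ (n : ℕ) (c : Fin n → Fin n → ℕ) (r : Fin n → ℕ),
        (¬ ∃ x : Fin (l + 1) → Fin n, StrictMono x ∧
          ∃ col : ℕ, ∀ i : Fin l, c (x i.castSucc) (x i.succ) = col) →
        (∀ (m : ℕ) (y : Fin (m + 1) → Fin n), StrictMono y →
          Function.Injective (fun i : Fin m => c (y i.castSucc) (y i.succ)) →
            ∀ i, m ≤ r (y i)) →
        ∑ v, (1 / (l : ℝ)) ^ r v ≤ L l) ∧
      (L l = 1 ↔ ∀ k : ℕ, 1 ≤ k → f l k = l ^ (k - 1)) := by
  classical
  have H : ∀ l : ℕ, ∃ κ : ℝ, l₀ ≤ l → 1 ≤ κ ∧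
      (∀ k : ℕ, 1 ≤ k → (∀ n : ℕ, f l k < n → Unav l k n) ∧ ¬ Unav l k (f l k) ∧
        l * f l k ≤ f l (k + 1) ∧ (f l k : ℝ) ≤ κ * l ^ (k - 1)) ∧
      Tendsto (fun k : ℕ => (f l k : ℝ) / l ^ (k - 1)) atTop (𝓝 κ) ∧
      (∀ (n : ℕ) (c : Fin n → Fin n → ℕ) (r : Fin n → ℕ),
        (¬ ∃ x : Fin (l + 1) → Fin n, StrictMono x ∧
          ∃ col : ℕ, ∀ i : Fin l, c (x i.castSucc) (x i.succ) = col) →
        (∀ (m : ℕ) (y : Fin (m + 1) → Fin n), StrictMono y →
          Function.Injective (fun i : Fin m => c (y i.castSucc) (y i.succ)) →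
            ∀ i, m ≤ r (y i)) →
        ∑ v, (1 / (l : ℝ)) ^ r v ≤ κ) ∧
      (κ = 1 ↔ ∀ k : ℕ, 1 ≤ k → f l k = l ^ (k - 1)) := by
    intro l
    by_cases hl : l₀ ≤ l
    · obtain ⟨κ, hκ⟩ := lym_final (l := l) (h₀.trans hl) (hC l hl)
      exact ⟨κ, fun _ => hκ⟩
    · exact ⟨0, fun h => absurd h hl⟩
  choose L hL using H
  refine ⟨f, L, fun l hl => ?_⟩
  obtain ⟨h1, h2, h3, h4, h5⟩ := hL l hl
  refine ⟨fun k hk => ⟨(h2 k hk).1, ?_⟩, fun k hk => (h2 k hk).2.2.1, h3, h1,
    fun k hk => (h2 k hk).2.2.2, h4, h5⟩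
  have h6 := (h2 k hk).2.1
  unfold Unav at h6
  rw [not_forall] at h6
  obtain ⟨c, hc⟩ := h6
  rw [not_or] at hc
  exact ⟨c, hc⟩

/-- **one length, no own definitions**, the shape of helper34's `limit_lym` -/
theorem limit_lym_one {l : ℕ} (hl : 1 ≤ l) (hC : ∃ C : ℕ, ∀ k n : ℕ, 1 ≤ k →
    C * l ^ (k - 1) < n → ∀ c : Fin n → Fin n → ℕ,
      (∃ x : Fin (l + 1) → Fin n, StrictMono x ∧
        ∃ col : ℕ, ∀ i : Fin l, c (x i.castSucc) (x i.succ) = col) ∨
      (∃ y : Fin (k + 1) → Fin n, StrictMono y ∧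
        Function.Injective (fun i : Fin k => c (y i.castSucc) (y i.succ)))) :
    ∃ (f : ℕ → ℕ) (L : ℝ),
      (∀ k : ℕ, 1 ≤ k →
        (∀ n : ℕ, f k < n → ∀ c : Fin n → Fin n → ℕ,
          (∃ x : Fin (l + 1) → Fin n, StrictMono x ∧
            ∃ col : ℕ, ∀ i : Fin l, c (x i.castSucc) (x i.succ) = col) ∨
          (∃ y : Fin (k + 1) → Fin n, StrictMono y ∧
            Function.Injective (fun i : Fin k => c (y i.castSucc) (y i.succ)))) ∧
        (∃ c : Fin (f k) → Fin (f k) → ℕ,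
          (¬ ∃ x : Fin (l + 1) → Fin (f k), StrictMono x ∧
            ∃ col : ℕ, ∀ i : Fin l, c (x i.castSucc) (x i.succ) = col) ∧
          (¬ ∃ y : Fin (k + 1) → Fin (f k), StrictMono y ∧
            Function.Injective (fun i : Fin k => c (y i.castSucc) (y i.succ))))) ∧
      (∀ k : ℕ, 1 ≤ k → l * f k ≤ f (k + 1)) ∧
      Tendsto (fun k : ℕ => (f k : ℝ) / (l : ℝ) ^ (k - 1)) atTop (𝓝 L) ∧ 1 ≤ L ∧
      (∀ k : ℕ, 1 ≤ k → (f k : ℝ) ≤ L * (l : ℝ) ^ (k - 1)) ∧
      (∀ (n : ℕ) (c : Fin n → Fin n → ℕ) (r : Fin n → ℕ),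
        (¬ ∃ x : Fin (l + 1) → Fin n, StrictMono x ∧
          ∃ col : ℕ, ∀ i : Fin l, c (x i.castSucc) (x i.succ) = col) →
        (∀ (m : ℕ) (y : Fin (m + 1) → Fin n), StrictMono y →
          Function.Injective (fun i : Fin m => c (y i.castSucc) (y i.succ)) →
            ∀ i, m ≤ r (y i)) →
        ∑ v, (1 / (l : ℝ)) ^ r v ≤ L) ∧
      (L = 1 ↔ ∀ k : ℕ, 1 ≤ k → f k = l ^ (k - 1)) := by
  obtain ⟨κ, h1, h2, h3, h4, h5⟩ := lym_final hl hC
  refine ⟨f l, κ, fun k hk => ⟨(h2 k hk).1, ?_⟩, fun k hk => (h2 k hk).2.2.1, h3, h1,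
    fun k hk => (h2 k hk).2.2.2, h4, h5⟩
  have h6 := (h2 k hk).2.1
  unfold Unav at h6
  rw [not_forall] at h6
  obtain ⟨c, hc⟩ := h6
  rw [not_or] at hc
  exact ⟨c, hc⟩

end FlashRainbow.Lim
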