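import Pool.Agent.Work.MP_54723a_co.CF.Extremal

/-!
# The constant factor theorem: from a bound for large ranks to colourings of `Fin n`

It is enough to bound the extremal sets of large rank: `Mx T₀` bounds those of smaller rank.
-/

set_option autoImplicit false

namespace FlashRainbow.CF

open Classical

/-- from large ranks to all ranks -/
theorem all_of_large {K T₀ : ℕ}
    (h : ∀ R, T₀ ≤ R → ∀ (c : ℕ → ℕ → ℕ) (V : Finset ℕ) (lev : ℕ → ℕ → ℕ),
      Lev c V 3 lev → Rk c V R → Ext c V R → V.card ≤ K * 3 ^ R)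
    (c : ℕ → ℕ → ℕ) (V : Finset ℕ) (lev : ℕ → ℕ → ℕ) (R : ℕ)
    (hL : Lev c V 3 lev) (hR : Rk c V R) (hE : Ext c V R) :
    V.card ≤ max K (Mx T₀) * 3 ^ R := by
  rcases le_or_gt T₀ R with h1 | h1
  · exact (h R h1 c V lev hL hR hE).trans (Nat.mul_le_mul_right _ (le_max_left _ _))
  · have h2 := Mx_spec R c V lev hL hR
    have h3 := Mx_mul_pow_le h1.le
    calc V.card ≤ Mx R := h2
      _ ≤ Mx R * 3 ^ (T₀ - R) := Nat.le_mul_of_pos_right _ (by positivity)
      _ ≤ Mx T₀ := h3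
      _ ≤ max K (Mx T₀) := le_max_right _ _
      _ ≤ max K (Mx T₀) * 3 ^ R := Nat.le_mul_of_pos_right _ (by positivity)

/-- **the end of the constant factor theorem** -/
theorem const_of_large
    (h : ∃ K T₀ : ℕ, ∀ R, T₀ ≤ R → ∀ (c : ℕ → ℕ → ℕ) (V : Finset ℕ) (lev : ℕ → ℕ → ℕ),
      Lev c V 3 lev → Rk c V R → Ext c V R → V.card ≤ K * 3 ^ R) :
    ∃ K : ℕ, ∀ k n : ℕ, 1 ≤ k → K * 3 ^ (k - 1) < n → ∀ c : Fin n → Fin n → ℕ,
      (∃ x : Fin 4 → Fin n, StrictMono x ∧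
        ∃ col : ℕ, ∀ i : Fin 3, c (x i.castSucc) (x i.succ) = col) ∨
      (∃ y : Fin (k + 1) → Fin n, StrictMono y ∧
        Function.Injective (fun i : Fin k => c (y i.castSucc) (y i.succ))) := by
  obtain ⟨K, T₀, hK⟩ := h
  exact ⟨max K (Mx T₀), fun k n hk hn c =>
    three_final (fun c V lev R => all_of_large hK c V lev R) k n hk hn c⟩

end FlashRainbow.CF
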