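import Pool.Agent.Work.MP_54723a_co.CF.StageP63
import Pool.Agent.Work.MP_54723a_co.CF.FinalC

/-!
# The constant factor theorem in the form of the hand-in  (helper63)
-/

set_option autoImplicit false

namespace FlashRainbow.CF

theorem cf63 : ∃ K : ℕ, ∀ k n : ℕ, 1 ≤ k → K * 3 ^ (k - 1) < n → ∀ c : Fin n → Fin n → ℕ,
    (∃ x : Fin 4 → Fin n, StrictMono x ∧
      ∃ col : ℕ, ∀ i : Fin 3, c (x i.castSucc) (x i.succ) = col) ∨
    (∃ y : Fin (k + 1) → Fin n, StrictMono y ∧
      Function.Injective (fun i : Fin k => c (y i.castSucc) (y i.succ))) := by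
  obtain ⟨K, hK⟩ := main_bound63
  exact const_of_large ⟨K, 0, fun R _ c V lev hL hR hE => hK c V lev R hL hR hE⟩

end FlashRainbow.CF
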