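import Pool.Agent.Work.MP_54723a_co.LemmaS

/-!
# Constant factor: selection, thin extraction (CHI), private colours (A1)  (helper74)

Source: notes 8524 (helper74), 8563 / 8593 (helper38), 8588 (helper14), 8589 (helper39).
-/

set_option autoImplicit false

namespace FlashRainbow.CF

open Classical

variable {c : ℕ → ℕ → ℕ} {V T W U X Θ : Finset ℕ} {l R r C p d e : ℕ} {lev : ℕ → ℕ → ℕ}

/-- random selection, existence form -/
theorem exists_select (hl : 1 ≤ l) (A : ℕ → Finset ℕ) (q : ℕ) (hA : ∀ v ∈ T, (A v).card ≤ q)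
    (hlt : ∀ γ, ∀ v ∈ T, lev γ v < l) :
    ∃ T' ⊆ T, T.card ≤ l ^ q * T'.card ∧
      ∀ u ∈ T', ∀ v ∈ T', ∀ γ, γ ∈ A u → γ ∈ A v → lev γ u = lev γ v := by
  by_contra hcon
  push Not at hcon
  have hl0 : (0 : ℝ) < l := by exact_mod_cast (by omega : 0 < l)
  have hl1 : (1 : ℝ) / l ≤ 1 := by
    rw [div_le_one hl0]
    exact_mod_cast hl
  set N : ℝ := ((T.card : ℝ) - 1) / ((l : ℝ) ^ q) with hN
  have hpos : (0 : ℝ) < (l : ℝ) ^ q := by positivity
  have hsel := select_one (l := l) hl (fun γ v => γ ∈ A v) T hlt N (T.biUnion A) T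
    (Finset.Subset.refl _) (by
      intro T' hT' hT'2
      have h1 : ¬ (T.card ≤ l ^ q * T'.card) := by
        intro h
        obtain ⟨u, hu, v, hv, γ, h1, h2, h3⟩ := hcon T' hT' h
        obtain ⟨i, hi⟩ := hT'2 γ (Finset.mem_biUnion.mpr ⟨u, hT' hu, h1⟩)
        exact h3 ((hi u hu h1).trans (hi v hv h2).symm)
      rw [hN, le_div_iff₀ hpos]
      have h2 : T'.card * l ^ q + 1 ≤ T.card := by
        rw [Nat.mul_comm]
        omega
      have h3 : ((T'.card * l ^ q + 1 : ℕ) : ℝ) ≤ (T.card : ℝ) := by exact_mod_cast h2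
      push_cast at h3
      linarith)
  have h1 : (T.card : ℝ) * ((1 : ℝ) / l) ^ q ≤ N := by
    refine le_trans ?_ hsel
    rw [← nsmul_eq_mul, ← Finset.sum_const]
    refine Finset.sum_le_sum fun v hv => ?_
    refine pow_le_pow_of_le_one (by positivity) hl1 ?_
    refine le_trans (Finset.card_le_card ?_) (hA v hv)
    intro γ hγ
    simp only [Finset.mem_filter] at hγ
    exact hγ.2
  rw [hN, le_div_iff₀ hpos] at h1
  have h2 : (T.card : ℝ) * ((1 : ℝ) / l) ^ q * (l : ℝ) ^ q = T.card := by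
    rw [div_pow, one_pow]
    field_simp
  rw [h2] at h1
  linarith

/-- a set all of whose 2-flashes have colours in `Θ` -/
theorem card_flash_in_le (hl : 2 ≤ l) (hL : Lev c T l lev) (hr : Rk c T r)
    (h : ∀ a ∈ T, ∀ b ∈ T, ∀ d ∈ T, a < b → b < d → c a b = c b d → c a b ∈ Θ) :
    T.card * 2 ^ Θ.card ≤ 2 ^ r * l ^ Θ.card := by
  have hdeg := degree_core hl hL hr (Θ ∪ (T ×ˢ T).image (fun p => c p.1 p.2)) (by
    intro u hu v hv _
    refine Finset.mem_union_right _ (Finset.mem_image.mpr ⟨(u, v), ?_, rfl⟩)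
    exact Finset.mem_product.mpr ⟨hu, hv⟩)
  have hl0 : (0 : ℝ) < l := by exact_mod_cast (by omega : 0 < l)
  have hx1 : (2 : ℝ) / l ≤ 1 := by
    rw [div_le_one hl0]
    exact_mod_cast hl
  have h1 : (T.card : ℝ) * ((2 : ℝ) / l) ^ Θ.card ≤ 2 ^ r := by
    refine le_trans ?_ hdeg
    rw [← nsmul_eq_mul, ← Finset.sum_const]
    refine Finset.sum_le_sum fun v _ => ?_
    refine pow_le_pow_of_le_one (by positivity) hx1 (Finset.card_le_card ?_)
    intro γ hγ
    obtain ⟨a, ha, b, hb, d, hd, hab, hbd, h1, h2, -⟩ := (Finset.mem_filter.mp hγ).2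
    rw [← h1]
    exact h a ha b hb d hd hab hbd (h1.trans h2.symm)
  have h2 : (T.card : ℝ) * 2 ^ Θ.card ≤ 2 ^ r * (l : ℝ) ^ Θ.card := by
    rw [div_pow, ← mul_div_assoc, div_le_iff₀ (by positivity)] at h1
    exact h1
  exact_mod_cast h2

/-- **CHI**: if all `Θ`-avoiding rainbow paths inside `U` are short, `U` has a large subset all of
whose edges have colours in `Θ`. -/
theorem chi (hl : 1 ≤ l) (hL : Lev c U l lev)
    (hC : ∀ y D, RP c U y D → Disjoint D Θ → D.card ≤ C) :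
    ∃ X ⊆ U, Col c X Θ ∧ U.card ≤ (C + 1) ^ 2 * l ^ (2 * C) * X.card := by
  set pa : ℕ → ℕ → Prop := fun v j => ∃ D, RP c U v D ∧ Disjoint D Θ ∧ D.card = j with hpa
  set pb : ℕ → ℕ → Prop := fun v j => ∃ D, RS c U v D ∧ Disjoint D Θ ∧ D.card = j with hpb
  have hpat : ∀ v j, pa v j → j ≤ C := by
    rintro v j ⟨D, h1, h2, rfl⟩
    exact hC v D h1 h2
  have hpbt : ∀ v j, pb v j → j ≤ C := by
    rintro v j ⟨D, h1, h2, rfl⟩
    obtain ⟨y, hy⟩ := h1.join (Finset.Subset.refl U) ∅ (RP.single h1.mem)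
      (Finset.disjoint_empty_right _)
    rw [Finset.empty_union] at hy
    exact hC y D hy h2
  have hpa0 : ∀ v ∈ U, pa v 0 := fun v hv =>
    ⟨∅, RP.single hv, Finset.disjoint_empty_left _, rfl⟩
  have hpb0 : ∀ v ∈ U, pb v 0 := fun v hv =>
    ⟨∅, RS.single hv, Finset.disjoint_empty_left _, rfl⟩
  set fa : ℕ → ℕ := fun v => Nat.findGreatest (pa v) C with hfa
  set fb : ℕ → ℕ := fun v => Nat.findGreatest (pb v) C with hfb
  have ha : ∀ v ∈ U, pa v (fa v) := fun v hv => Nat.findGreatest_spec (Nat.zero_le _) (hpa0 v hv)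
  have hb : ∀ v ∈ U, pb v (fb v) := fun v hv => Nat.findGreatest_spec (Nat.zero_le _) (hpb0 v hv)
  have ha' : ∀ v ∈ U, ∃ D, RP c U v D ∧ Disjoint D Θ ∧ D.card = fa v := ha
  have hb' : ∀ v ∈ U, ∃ D, RS c U v D ∧ Disjoint D Θ ∧ D.card = fb v := hb
  choose! E hE using ha'
  choose! E' hE' using hb'
  obtain ⟨y, -, hy⟩ := exists_big_fiber U (fun v => (fa v, fb v))
    (Finset.range (C + 1) ×ˢ Finset.range (C + 1)) ⟨(0, 0), by simp⟩ (by
      intro v _
      rw [Finset.mem_product, Finset.mem_range, Finset.mem_range]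
      exact ⟨Nat.lt_succ_of_le (Nat.findGreatest_le _), Nat.lt_succ_of_le (Nat.findGreatest_le _)⟩)
  rw [Finset.card_product, Finset.card_range] at hy
  set Q₁ := U.filter fun v => (fa v, fb v) = y with hQ₁
  have hQ₁Q : Q₁ ⊆ U := Finset.filter_subset _ _
  have hsame : ∀ u ∈ Q₁, ∀ v ∈ Q₁, fa u = fa v ∧ fb u = fb v := by
    intro u hu v hv
    have h1 := (Finset.mem_filter.mp hu).2
    have h2 := (Finset.mem_filter.mp hv).2
    rw [← h2, Prod.mk.injEq] at h1
    exact h1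
  have hmemA : ∀ u ∈ Q₁, ∀ v ∈ Q₁, u < v → c u v ∉ Θ → c u v ∈ E u ∧ c u v ∈ E' v := by
    intro u hu v hv huv hcΘ
    obtain ⟨hfa', hfb'⟩ := hsame u hu v hv
    constructor
    · by_contra hnot
      obtain ⟨h1, h2, h3⟩ := hE u (hQ₁Q hu)
      have h4 := RP.step h1 (hQ₁Q hv) huv hnot
      have h5 : pa v (fa u + 1) := by
        refine ⟨_, h4, ?_, ?_⟩
        · rw [Finset.disjoint_insert_left]; exact ⟨hcΘ, h2⟩
        · rw [Finset.card_insert_of_notMem hnot, h3]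
      have h6 := Nat.le_findGreatest (hpat _ _ h5) h5
      have h7 : fa u + 1 ≤ fa v := h6
      omega
    · by_contra hnot
      obtain ⟨h1, h2, h3⟩ := hE' v (hQ₁Q hv)
      have h4 := RS.step h1 (hQ₁Q hu) huv hnot
      have h5 : pb u (fb v + 1) := by
        refine ⟨_, h4, ?_, ?_⟩
        · rw [Finset.disjoint_insert_left]; exact ⟨hcΘ, h2⟩
        · rw [Finset.card_insert_of_notMem hnot, h3]
      have h6 := Nat.le_findGreatest (hpbt _ _ h5) h5
      have h7 : fb v + 1 ≤ fb u := h6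
      omega
  obtain ⟨X, hX, hXc, hXs⟩ := exists_select (T := Q₁) (lev := lev) hl (fun v => E v ∪ E' v)
    (2 * C) (by
      intro v hv
      have h1 := (hE v (hQ₁Q hv)).2.2
      have h2 := (hE' v (hQ₁Q hv)).2.2
      have h3 : fa v ≤ C := Nat.findGreatest_le _
      have h4 : fb v ≤ C := Nat.findGreatest_le _
      have h5 := Finset.card_union_le (E v) (E' v)
      omega) (fun γ v hv => hL.lt γ v (hQ₁Q hv))
  refine ⟨X, hX.trans hQ₁Q, ?_, ?_⟩
  · intro u hu v hv huv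
    by_contra hnot
    obtain ⟨h1, h2⟩ := hmemA u (hX hu) v (hX hv) huv hnot
    have h3 := hXs u hu v hv (c u v) (Finset.mem_union_left _ h1) (Finset.mem_union_right _ h2)
    have h4 := hL.up u (hQ₁Q (hX hu)) v (hQ₁Q (hX hv)) huv
    omega
  · calc U.card ≤ (C + 1) * (C + 1) * Q₁.card := hy
      _ ≤ (C + 1) * (C + 1) * (l ^ (2 * C) * X.card) := Nat.mul_le_mul_left _ hXc
      _ = (C + 1) ^ 2 * l ^ (2 * C) * X.card := by ring

/-- **A0**: a set in which all `Θ`-avoiding rainbow paths are short is small. -/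
theorem avoid_le (hl : 2 ≤ l) (hL : Lev c U l lev) (hR : Rk c U R)
    (hC : ∀ y D, RP c U y D → Disjoint D Θ → D.card ≤ C) :
    U.card * 2 ^ Θ.card ≤ (C + 1) ^ 2 * l ^ (2 * C) * (2 ^ R * l ^ Θ.card) := by
  obtain ⟨X, hX, hcol, hcard⟩ := chi (by omega) hL hC
  have h1 := card_coloured_le hl (hL.mono hX) hcol (fun y D hD => hR y D (hD.mono hX))
  calc U.card * 2 ^ Θ.card ≤ (C + 1) ^ 2 * l ^ (2 * C) * X.card * 2 ^ Θ.card :=
        Nat.mul_le_mul_right _ hcard
    _ = (C + 1) ^ 2 * l ^ (2 * C) * (X.card * 2 ^ Θ.card) := by ring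
    _ ≤ _ := Nat.mul_le_mul_left _ h1

/-- **A1**: private colours `c a w`, `w ∈ W`. -/
theorem private_le (hL : Lev c V 3 lev) (hR : Rk c W R) {a : ℕ} (ha : a ∈ V) (hW : W ⊆ V)
    (haW : ∀ w ∈ W, a < w)
    (hp : ∀ w ∈ W, ∀ D, RS c W w D → Disjoint D Θ → c a w ∉ D → D.card ≤ p) :
    W.card * 2 ^ Θ.card ≤ (p + 1) * 2 ^ (p + 1) * 3 ^ p * (2 ^ R * 3 ^ Θ.card) := by
  set pb : ℕ → ℕ → Prop := fun w j =>
    ∃ D, RS c W w D ∧ Disjoint D Θ ∧ c a w ∉ D ∧ D.card = j with hpb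
  have hpbt : ∀ w ∈ W, ∀ j, pb w j → j ≤ p := by
    rintro w hw j ⟨D, h1, h2, h3, rfl⟩
    exact hp w hw D h1 h2 h3
  have hpb0 : ∀ w ∈ W, pb w 0 := fun w hw =>
    ⟨∅, RS.single hw, Finset.disjoint_empty_left _, Finset.notMem_empty _, rfl⟩
  set fb : ℕ → ℕ := fun v => Nat.findGreatest (pb v) p with hfb
  have hb' : ∀ w ∈ W, ∃ D, RS c W w D ∧ Disjoint D Θ ∧ c a w ∉ D ∧ D.card = fb w :=
    fun w hw => Nat.findGreatest_spec (P := pb w) (Nat.zero_le _) (hpb0 w hw)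
  choose! Q hQ using hb'
  obtain ⟨y, -, hy⟩ := exists_big_fiber W fb (Finset.range (p + 1)) ⟨0, by simp⟩ (by
      intro v _
      rw [Finset.mem_range]
      exact Nat.lt_succ_of_le (Nat.findGreatest_le _))
  rw [Finset.card_range] at hy
  set W₁ := W.filter fun v => fb v = y with hW₁
  have hW₁W : W₁ ⊆ W := Finset.filter_subset _ _
  -- first selection : the private colours are in no chosen palette
  obtain ⟨W₂, hW₂, hW₂c, hW₂s⟩ := exists_select (T := W₁) (l := 2)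
    (lev := fun γ v => if γ = c a v then 1 else 0) (by omega) (fun v => insert (c a v) (Q v))
    (p + 1) (by
      intro v hv
      have h1 := (hQ v (hW₁W hv)).2.2.2
      have h2 : fb v ≤ p := Nat.findGreatest_le _
      have h3 := Finset.card_insert_le (c a v) (Q v)
      omega) (by
      intro γ v _
      split_ifs <;> omega)
  have hpriv : ∀ u ∈ W₂, ∀ v ∈ W₂, c a u ∉ Q v := by
    intro u hu v hv h
    have h1 := hW₂s u hu v hv (c a u) (Finset.mem_insert_self _ _) (Finset.mem_insert_of_mem h)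
    simp only [if_true] at h1
    split_ifs at h1 with h2
    exact (hQ v (hW₁W (hW₂ hv))).2.2.1 (h2 ▸ h)
  have harc : ∀ u ∈ W₂, ∀ v ∈ W₂, u < v → c u v ∉ Θ → c u v = c a u ∨ c u v ∈ Q v := by
    intro u hu v hv huv hcΘ
    by_contra hnot
    rw [not_or] at hnot
    obtain ⟨h1, h2, h3, h4⟩ := hQ v (hW₁W (hW₂ hv))
    have h5 := RS.step h1 (hW₁W (hW₂ hu)) huv hnot.2
    have h6 : pb u (fb v + 1) := by
      refine ⟨_, h5, ?_, ?_, ?_⟩
      · rw [Finset.disjoint_insert_left]; exact ⟨hcΘ, h2⟩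
      · rw [Finset.mem_insert, not_or]
        exact ⟨fun h => hnot.1 h.symm, hpriv u hu v hv⟩
      · rw [Finset.card_insert_of_notMem hnot.2, h4]
    have h7 := Nat.le_findGreatest (hpbt _ (hW₁W (hW₂ hu)) _ h6) h6
    have h8 : fb v + 1 ≤ fb u := h7
    have h9 := (Finset.mem_filter.mp (hW₂ hu)).2
    have h10 := (Finset.mem_filter.mp (hW₂ hv)).2
    omega
  -- second selection : levels
  obtain ⟨W₃, hW₃, hW₃c, hW₃s⟩ := exists_select (T := W₂) (l := 3) (lev := lev) (by omega) Q p (by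
      intro v hv
      have h1 := (hQ v (hW₁W (hW₂ hv))).2.2.2
      have h2 : fb v ≤ p := Nat.findGreatest_le _
      omega) (fun γ v hv => hL.lt γ v (hW (hW₁W (hW₂ hv))))
  have hW₃V : W₃ ⊆ V := hW₃.trans (hW₂.trans (hW₁W.trans hW))
  have hfin := card_flash_in_le (T := W₃) (Θ := Θ) (by omega) (hL.mono hW₃V)
    (fun y D hD => hR y D (hD.mono (hW₃.trans (hW₂.trans hW₁W)))) (by
      intro x hx y hy z hz hxy hyz heq
      by_contra hnot
      have g1 := hL.up x (hW₃V hx) y (hW₃V hy) hxy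
      have g2 := hL.up y (hW₃V hy) z (hW₃V hz) hyz
      rw [← heq] at g2
      have g4 := hL.lt (c x y) z (hW₃V hz)
      have hyQ : c x y ∈ Q y := by
        rcases harc x (hW₃ hx) y (hW₃ hy) hxy hnot with h | h
        · have g3 := hL.up a ha x (hW₃V hx) (haW x (hW₁W (hW₂ (hW₃ hx))))
          rw [← h] at g3
          omega
        · exact h
      have hzQ : c x y ∈ Q z := by
        rcases harc y (hW₃ hy) z (hW₃ hz) hyz (heq ▸ hnot) with h | h
        · exfalso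
          rw [← heq] at h
          exact (hQ y (hW₁W (hW₂ (hW₃ hy)))).2.2.1 (h ▸ hyQ)
        · rw [← heq] at h
          exact h
      have g5 := hW₃s y hy z hz (c x y) hyQ hzQ
      omega)
  calc W.card * 2 ^ Θ.card ≤ ((p + 1) * W₁.card) * 2 ^ Θ.card := Nat.mul_le_mul_right _ hy
    _ ≤ ((p + 1) * (2 ^ (p + 1) * W₂.card)) * 2 ^ Θ.card := by gcongr
    _ ≤ ((p + 1) * (2 ^ (p + 1) * (3 ^ p * W₃.card))) * 2 ^ Θ.card := by gcongr
    _ = (p + 1) * 2 ^ (p + 1) * 3 ^ p * (W₃.card * 2 ^ Θ.card) := by ring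
    _ ≤ (p + 1) * 2 ^ (p + 1) * 3 ^ p * (2 ^ R * 3 ^ Θ.card) := Nat.mul_le_mul_left _ hfin

end FlashRainbow.CF
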