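import Pool.Agent.Work.MP_54723a_co.CF.HZones

/-!
# The clean part of a zone  (helper50)

`clean_part` : in the zone `G (m+1)` behind a hub `x` whose junction colours `F` come from stages
`s ≥ m + 2` (colours of arcs inside `U s`), the points `v` with `c x v ∉ F` and `F`-mass at most
`1/(4r)` on the next zone `G m` form at least the `1/(4r)` part of the zone, as soon as the
`F`-mass of `x` on `G (m+1)` is at most `1 - 1/(2r)` and the sum of the densities of the (at most
`k` new colours per stage) is at most `1/(16 r^2)`.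
`clean_part_quad` : the same for `q s = Q (s+2)^2`, `Q ≥ 48 r^2`, three colours per stage.
-/

set_option autoImplicit false

namespace FlashRainbow.CF

open Classical

variable {c : ℕ → ℕ → ℕ} {V Z Y F : Finset ℕ} {lev : ℕ → ℕ → ℕ}

/-- double counting of the arcs with a colour of `F` -/
theorem sum_mass_le (hlt : ∀ v ∈ Z, ∀ w ∈ Y, v < w) {S : Finset ℕ} {Φ : ℕ → Finset ℕ}
    (hF : F ⊆ S.biUnion Φ) :
    ∑ v ∈ Z, (Y.filter fun w => c v w ∈ F).card ≤ ∑ s ∈ S, ∑ g ∈ Φ s, prs c Z Y g := by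
  have h1 : ∑ v ∈ Z, (Y.filter fun w => c v w ∈ F).card =
      ((Z ×ˢ Y).filter fun p => c p.1 p.2 ∈ F).card := by
    rw [Finset.card_filter, Finset.sum_product]
    refine Finset.sum_congr rfl fun v _ => ?_
    rw [Finset.card_filter]
  rw [h1]
  have h2 : ((Z ×ˢ Y).filter fun p => c p.1 p.2 ∈ F) ⊆
      S.biUnion fun s => (Φ s).biUnion fun g =>
        (Z ×ˢ Y).filter fun p => p.1 < p.2 ∧ c p.1 p.2 = g := by
    intro p hp
    obtain ⟨hp1, hp2⟩ := Finset.mem_filter.mp hp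
    obtain ⟨hv, hw⟩ := Finset.mem_product.mp hp1
    obtain ⟨s, hs, hg⟩ := Finset.mem_biUnion.mp (hF hp2)
    refine Finset.mem_biUnion.mpr ⟨s, hs, Finset.mem_biUnion.mpr ⟨c p.1 p.2, hg,
      Finset.mem_filter.mpr ⟨hp1, hlt _ hv _ hw, rfl⟩⟩⟩
  refine (Finset.card_le_card h2).trans (Finset.card_biUnion_le.trans
    (Finset.sum_le_sum fun s _ => ?_))
  exact Finset.card_biUnion_le

/-- Markov: few points have large `F`-mass -/
theorem card_bad_le (hlt : ∀ v ∈ Z, ∀ w ∈ Y, v < w) {S : Finset ℕ} {Φ : ℕ → Finset ℕ} {q : ℕ → ℕ}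
    {k r D : ℕ} (hF : F ⊆ S.biUnion Φ) (hΦ : ∀ s ∈ S, (Φ s).card ≤ k)
    (hq : ∀ s ∈ S, 0 < q s)
    (hd : ∀ s ∈ S, ∀ g ∈ Φ s, q s * prs c Z Y g ≤ Z.card * Y.card)
    (hD : (k : ℚ) * ∑ s ∈ S, (1 : ℚ) / q s * D ≤ 1) :
    D * (Z.filter fun v => Y.card < r * (Y.filter fun w => c v w ∈ F).card).card ≤ r * Z.card := by
  set B := Z.filter fun v => Y.card < r * (Y.filter fun w => c v w ∈ F).card with hB
  rcases Nat.eq_zero_or_pos Y.card with hY | hY
  · have : B = ∅ := by
      rw [hB, Finset.filter_eq_empty_iff]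
      intro v _
      have h1 : (Y.filter fun w => c v w ∈ F).card ≤ Y.card := Finset.card_filter_le _ _
      rw [hY] at h1 ⊢
      rw [Nat.le_zero.mp h1]
      simp
    rw [this]
    simp
  have h1 : B.card * Y.card ≤ r * ∑ v ∈ Z, (Y.filter fun w => c v w ∈ F).card := by
    calc B.card * Y.card = ∑ v ∈ B, Y.card := by rw [Finset.sum_const, smul_eq_mul]
      _ ≤ ∑ v ∈ B, r * (Y.filter fun w => c v w ∈ F).card :=
        Finset.sum_le_sum fun v hv => (Finset.mem_filter.mp hv).2.le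
      _ ≤ ∑ v ∈ Z, r * (Y.filter fun w => c v w ∈ F).card :=
        Finset.sum_le_sum_of_subset (Finset.filter_subset _ _)
      _ = _ := by rw [Finset.mul_sum]
  have h2 := (h1.trans (Nat.mul_le_mul_left r (sum_mass_le hlt hF)))
  have h3 : ((∑ s ∈ S, ∑ g ∈ Φ s, prs c Z Y g : ℕ) : ℚ) ≤
      (k : ℚ) * ∑ s ∈ S, (1 : ℚ) / q s * (Z.card * Y.card) := by
    push_cast
    rw [Finset.mul_sum]
    refine Finset.sum_le_sum fun s hs => ?_
    have hqs : (0 : ℚ) < q s := by exact_mod_cast hq s hs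
    calc ∑ g ∈ Φ s, (prs c Z Y g : ℚ) ≤ ∑ g ∈ Φ s, (1 : ℚ) / q s * (Z.card * Y.card) := by
          refine Finset.sum_le_sum fun g hg => ?_
          have h4 : (q s : ℚ) * prs c Z Y g ≤ Z.card * Y.card := by exact_mod_cast hd s hs g hg
          rw [one_div, inv_mul_eq_div, le_div_iff₀ hqs]
          linarith
      _ = (Φ s).card * ((1 : ℚ) / q s * (Z.card * Y.card)) := by
          rw [Finset.sum_const, nsmul_eq_mul]
      _ ≤ k * ((1 : ℚ) / q s * (Z.card * Y.card)) := by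
          refine mul_le_mul_of_nonneg_right ?_ (by positivity)
          exact_mod_cast hΦ s hs
  have h4 : (B.card : ℚ) * Y.card ≤ r * ((k : ℚ) * ∑ s ∈ S, (1 : ℚ) / q s * (Z.card * Y.card)) := by
    have h5 : (B.card : ℚ) * Y.card ≤ r * ((∑ s ∈ S, ∑ g ∈ Φ s, prs c Z Y g : ℕ) : ℚ) := by
      exact_mod_cast h2
    exact h5.trans (mul_le_mul_of_nonneg_left h3 (by positivity))
  have h6 : (D : ℚ) * (B.card * Y.card) ≤ r * Z.card * Y.card := by
    calc (D : ℚ) * (B.card * Y.card)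
        ≤ D * (r * ((k : ℚ) * ∑ s ∈ S, (1 : ℚ) / q s * (Z.card * Y.card))) :=
          mul_le_mul_of_nonneg_left h4 (by positivity)
      _ = ((k : ℚ) * ∑ s ∈ S, (1 : ℚ) / q s * D) * (r * Z.card * Y.card) := by
          rw [← Finset.sum_mul, ← Finset.sum_mul]
          ring
      _ ≤ 1 * (r * Z.card * Y.card) := mul_le_mul_of_nonneg_right hD (by positivity)
      _ = _ := by ring
  have h7 : D * (B.card * Y.card) ≤ r * Z.card * Y.card := by exact_mod_cast h6
  rw [← mul_assoc] at h7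
  exact Nat.le_of_mul_le_mul_right h7 hY

/-- the clean part, without zones -/
theorem clean_card {x r : ℕ} (hr : 1 ≤ r)
    (hinv : 2 * r * (Z.filter fun v => c x v ∈ F).card ≤ (2 * r - 1) * Z.card)
    (hbad : 4 * r * (Z.filter fun v => Y.card < 4 * r * (Y.filter fun w => c v w ∈ F).card).card
      ≤ Z.card) :
    Z.card ≤ 4 * r * (Z.filter fun v => c x v ∉ F ∧
      4 * r * (Y.filter fun w => c v w ∈ F).card ≤ Y.card).card := by
  set Z0 := Z.filter fun v => c x v ∉ F ∧ 4 * r * (Y.filter fun w => c v w ∈ F).card ≤ Y.card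
    with hZ0
  set B := Z.filter fun v => Y.card < 4 * r * (Y.filter fun w => c v w ∈ F).card with hB
  set A := Z.filter fun v => c x v ∈ F with hA
  have h1 : Z ⊆ A ∪ (B ∪ Z0) := by
    intro v hv
    by_cases h2 : c x v ∈ F
    · exact Finset.mem_union_left _ (Finset.mem_filter.mpr ⟨hv, h2⟩)
    · refine Finset.mem_union_right _ ?_
      by_cases h3 : 4 * r * (Y.filter fun w => c v w ∈ F).card ≤ Y.card
      · exact Finset.mem_union_right _ (Finset.mem_filter.mpr ⟨hv, h2, h3⟩)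
      · exact Finset.mem_union_left _ (Finset.mem_filter.mpr ⟨hv, by omega⟩)
  have h2 : Z.card ≤ A.card + (B.card + Z0.card) :=
    (Finset.card_le_card h1).trans ((Finset.card_union_le _ _).trans
      (Nat.add_le_add_left (Finset.card_union_le _ _) _))
  have h3 : 4 * r * Z.card ≤ 4 * r * A.card + (4 * r * B.card + 4 * r * Z0.card) := by
    calc 4 * r * Z.card ≤ 4 * r * (A.card + (B.card + Z0.card)) := Nat.mul_le_mul_left _ h2
      _ = _ := by ring
  have h4 : 4 * r * A.card ≤ 2 * ((2 * r - 1) * Z.card) := by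
    calc 4 * r * A.card = 2 * (2 * r * A.card) := by ring
      _ ≤ _ := Nat.mul_le_mul_left _ hinv
  have h5 : 2 * ((2 * r - 1) * Z.card) + 2 * Z.card = 4 * r * Z.card := by
    obtain ⟨e, rfl⟩ : ∃ e, r = e + 1 := ⟨r - 1, by omega⟩
    rw [show 2 * (e + 1) - 1 = 2 * e + 1 by omega]
    ring
  omega

/-- **CLEAN**: see the header.  `m + 1` is the zone of the next hub, `m` the zone behind it. -/
theorem clean_part {d J : ℕ} {q A : ℕ → ℕ} {U G : ℕ → Finset ℕ} (h : Zones c V d q A J U G) {m r x k : ℕ}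
    (hm : m + 1 < J) (hr : 1 ≤ r) (Φ : ℕ → Finset ℕ)
    (hF : F ⊆ (Finset.Icc (m + 2) J).biUnion Φ)
    (hΦ : ∀ s ∈ Finset.Icc (m + 2) J, (Φ s).card ≤ k)
    (hc : ∀ s ∈ Finset.Icc (m + 2) J, ∀ g ∈ Φ s, ∃ u ∈ U s, ∃ v ∈ U s, u < v ∧ c u v = g)
    (hq : ∀ s ∈ Finset.Icc (m + 2) J, 0 < q s)
    (hsum : (k : ℚ) * ∑ s ∈ Finset.Icc (m + 2) J, (1 : ℚ) / q s ≤ 1 / (16 * r ^ 2))
    (hinv : 2 * r * ((G (m + 1)).filter fun v => c x v ∈ F).card ≤
      (2 * r - 1) * (G (m + 1)).card) :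
    (G (m + 1)).card ≤ 4 * r * ((G (m + 1)).filter fun v => c x v ∉ F ∧
      4 * r * ((G m).filter fun w => c v w ∈ F).card ≤ (G m).card).card := by
  have hlt : ∀ v ∈ G (m + 1), ∀ w ∈ G m, v < w := fun v hv w hw =>
    h.lt m (by omega) v (h.sub (m + 1) hm hv) w hw
  refine clean_card hr hinv ?_
  have hrq : (0 : ℚ) < r := by exact_mod_cast (by omega : 0 < r)
  have h1 := card_bad_le (c := c) (Z := G (m + 1)) (Y := G m) (F := F) (k := k) (r := 4 * r)
    (D := 16 * r ^ 2) hlt hF hΦ hq (by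
      intro s hs g hg
      obtain ⟨u, hu, v, hv, huv, rfl⟩ := hc s hs g hg
      obtain ⟨h2, h3⟩ := Finset.mem_Icc.mp hs
      exact h.unp s h3 u hu v hv huv (m + 1) (by omega) m (by omega)) (by
      rw [← Finset.sum_mul]
      push_cast
      calc (k : ℚ) * ((∑ s ∈ Finset.Icc (m + 2) J, (1 : ℚ) / q s) * (16 * (r : ℚ) ^ 2))
          = (k : ℚ) * (∑ s ∈ Finset.Icc (m + 2) J, (1 : ℚ) / q s) * (16 * (r : ℚ) ^ 2) := by ring
        _ ≤ 1 / (16 * (r : ℚ) ^ 2) * (16 * (r : ℚ) ^ 2) := by gcongr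
        _ = 1 := by field_simp
        _ ≤ 1 := le_refl _)
  set B := (G (m + 1)).filter fun v => (G m).card < 4 * r * ((G m).filter fun w => c v w ∈ F).card
    with hB
  have h2 : 4 * r * (4 * r * B.card) ≤ 4 * r * (G (m + 1)).card := by
    calc 4 * r * (4 * r * B.card) = 16 * r ^ 2 * B.card := by ring
      _ ≤ _ := h1
  exact Nat.le_of_mul_le_mul_left h2 (by omega)

/-- the densities `q s = Q (s+2)^2`: with `a = m + 2` the sum is at most `1 / (Q (m+3))` -/
theorem sum_quad_le {Q : ℕ} (hQ : 0 < Q) (a b : ℕ) :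
    ∑ s ∈ Finset.Icc a b, (1 : ℚ) / ((Q * (s + 2) ^ 2 : ℕ) : ℚ) ≤ 1 / (Q * (a + 1)) := by
  have hQ' : (0 : ℚ) < Q := by exact_mod_cast hQ
  have h1 : ∀ b : ℕ, a ≤ b + 1 → ∑ s ∈ Finset.Icc a b, (1 : ℚ) / ((Q * (s + 2) ^ 2 : ℕ) : ℚ) ≤
      1 / Q * (1 / (a + 1) - 1 / (b + 2)) := by
    intro b
    induction b with
    | zero =>
      intro hab
      rcases Nat.lt_or_ge a 1 with ha | ha
      · obtain rfl : a = 0 := by omega
        simp only [zero_add, Finset.Icc_self, Finset.sum_singleton, Nat.cast_zero]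
        push_cast
        rw [one_div, mul_inv, one_div]
        exact mul_le_mul_of_nonneg_left (by norm_num) (by positivity)
      · rw [Finset.Icc_eq_empty (by omega), Finset.sum_empty]
        obtain rfl : a = 1 := by omega
        norm_num
    | succ b ih =>
      intro hab
      rcases Nat.lt_or_ge (b + 1) a with ha | ha
      · rw [Finset.Icc_eq_empty (by omega), Finset.sum_empty]
        obtain rfl : a = b + 2 := by omega
        push_cast
        apply mul_nonneg (by positivity)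
        rw [sub_nonneg]
        exact le_of_eq (by ring)
      · rw [← Finset.insert_Icc_right_eq_Icc_add_one (by omega), Finset.sum_insert (by simp)]
        have h2 := ih (by omega)
        have h3 : (1 : ℚ) / ((Q * (b + 1 + 2) ^ 2 : ℕ) : ℚ) ≤
            1 / Q * (1 / (b + 2) - 1 / (b + 3)) := by
          push_cast
          rw [one_div, mul_inv, ← one_div, ← one_div]
          refine mul_le_mul_of_nonneg_left ?_ (by positivity)
          rw [div_sub_div _ _ (by positivity) (by positivity), div_le_div_iff₀ (by positivity)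
            (by positivity)]
          nlinarith
        push_cast at h2 h3 ⊢
        have h4 : (1 : ℚ) / Q * (1 / (a + 1) - 1 / (b + 1 + 2)) =
          1 / Q * (1 / (b + 2) - 1 / (b + 3)) + 1 / Q * (1 / (a + 1) - 1 / (b + 2)) := by ring
        rw [h4]
        exact add_le_add h3 h2
  rcases Nat.lt_or_ge (b + 1) a with ha | ha
  · rw [Finset.Icc_eq_empty (by omega), Finset.sum_empty]
    positivity
  · refine (h1 b ha).trans ?_
    rw [one_div_mul_eq_div, div_le_div_iff₀ hQ' (by positivity)]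
    have h2 : (0 : ℚ) < 1 / (b + 2) := by positivity
    have h3 : (0 : ℚ) < a + 1 := by positivity
    have h4 : (1 / ((a : ℚ) + 1) - 1 / (b + 2)) * (a + 1) ≤ 1 := by
      rw [sub_mul, one_div_mul_cancel (ne_of_gt h3)]
      have : 0 < 1 / ((b : ℚ) + 2) * (a + 1) := by positivity
      linarith
    nlinarith

/-- `clean_part` for `q s = Q (s+2)^2`, `Q ≥ 48 r^2`, at most three new colours per stage -/
theorem clean_part_quad {d J Q : ℕ} {q A : ℕ → ℕ} {U G : ℕ → Finset ℕ} (h : Zones c V d q A J U G)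
    (hqQ : ∀ s, q s = Q * (s + 2) ^ 2) {m r x : ℕ} (hm : m + 1 < J) (hr : 1 ≤ r)
    (hQ : 48 * r ^ 2 ≤ Q) (Φ : ℕ → Finset ℕ) (hF : F ⊆ (Finset.Icc (m + 2) J).biUnion Φ)
    (hΦ : ∀ s ∈ Finset.Icc (m + 2) J, (Φ s).card ≤ 3)
    (hc : ∀ s ∈ Finset.Icc (m + 2) J, ∀ g ∈ Φ s, ∃ u ∈ U s, ∃ v ∈ U s, u < v ∧ c u v = g)
    (hinv : 2 * r * ((G (m + 1)).filter fun v => c x v ∈ F).card ≤
      (2 * r - 1) * (G (m + 1)).card) :
    (G (m + 1)).card ≤ 4 * r * ((G (m + 1)).filter fun v => c x v ∉ F ∧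
      4 * r * ((G m).filter fun w => c v w ∈ F).card ≤ (G m).card).card := by
  have hr2 : 0 < r ^ 2 := by positivity
  have hQ0 : 0 < Q := by omega
  refine clean_part h hm hr Φ hF hΦ hc (fun s _ => ?_) ?_ hinv
  · rw [hqQ s]
    positivity
  · have h1 := sum_quad_le hQ0 (m + 2) J
    have h2 : ∑ s ∈ Finset.Icc (m + 2) J, (1 : ℚ) / q s ≤ 1 / (Q * ((m + 2 : ℕ) + 1)) := by
      simpa only [hqQ] using h1
    have hQq : (48 : ℚ) * r ^ 2 ≤ Q := by exact_mod_cast hQ
    have hrq : (0 : ℚ) < r := by exact_mod_cast (by omega : 0 < r)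
    have hQ1 : (0 : ℚ) < Q := by exact_mod_cast hQ0
    have h3 : (1 : ℚ) / (Q * ((m + 2 : ℕ) + 1)) ≤ 1 / (48 * r ^ 2) := by
      apply one_div_le_one_div_of_le (by positivity)
      have h4 : (1 : ℚ) ≤ ((m + 2 : ℕ) + 1) := by
        push_cast
        have : (0 : ℚ) ≤ m := by positivity
        linarith
      nlinarith
    calc ((3 : ℕ) : ℚ) * ∑ s ∈ Finset.Icc (m + 2) J, (1 : ℚ) / q s
        ≤ ((3 : ℕ) : ℚ) * (1 / (48 * r ^ 2)) := by
          refine mul_le_mul_of_nonneg_left (h2.trans h3) (by positivity)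
      _ = 1 / (16 * r ^ 2) := by
          push_cast
          field_simp
          norm_num

end FlashRainbow.CF
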