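import Pool.Agent.Work.MP_54723a_co.CF.Dense

/-!
# Constant factor: Lemma A and the core cover inequality (CC')  (helper96)

Source: notes 8524 (Lemma A), 8609 (helper99), 8619 (helper60).
-/

set_option autoImplicit false

namespace FlashRainbow.CF

open Classical

variable {c : ℕ → ℕ → ℕ} {V T W U X Θ : Finset ℕ} {l R r C p q d e lam N : ℕ}
  {lev : ℕ → ℕ → ℕ}

/-- **Lemma A**: few points `w` have only short rainbow paths out of `w` which avoid `Θ` and a
small set `A w` of further colours. -/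
theorem lemmaA (hL : Lev c W 3 lev) (hR : Rk c W R) (A : ℕ → Finset ℕ)
    (hA : ∀ w ∈ W, (A w).card ≤ q)
    (hp : ∀ w ∈ W, ∀ D, RS c W w D → Disjoint D Θ → Disjoint D (A w) → D.card ≤ p) :
    W.card * 2 ^ Θ.card ≤ (p + 1) * 6 ^ (p + q) * (2 ^ R * 3 ^ Θ.card) := by
  set pb : ℕ → ℕ → Prop := fun w j =>
    ∃ D, RS c W w D ∧ Disjoint D Θ ∧ Disjoint D (A w) ∧ D.card = j with hpb
  have hpbt : ∀ w ∈ W, ∀ j, pb w j → j ≤ p := by
    rintro w hw j ⟨D, h1, h2, h3, rfl⟩
    exact hp w hw D h1 h2 h3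
  have hpb0 : ∀ w ∈ W, pb w 0 := fun w hw =>
    ⟨∅, RS.single hw, Finset.disjoint_empty_left _, Finset.disjoint_empty_left _, rfl⟩
  set fb : ℕ → ℕ := fun v => Nat.findGreatest (pb v) p with hfb
  have hb' : ∀ w ∈ W, ∃ D, RS c W w D ∧ Disjoint D Θ ∧ Disjoint D (A w) ∧ D.card = fb w :=
    fun w hw => Nat.findGreatest_spec (P := pb w) (Nat.zero_le _) (hpb0 w hw)
  choose! Q hQ using hb'
  obtain ⟨y, -, hy⟩ := exists_big_fiber W fb (Finset.range (p + 1)) ⟨0, by simp⟩ (by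
      intro v _
      rw [Finset.mem_range]
      exact Nat.lt_succ_of_le (Nat.findGreatest_le _))
  rw [Finset.card_range] at hy
  set W₁ := W.filter fun v => fb v = y with hW₁
  have hW₁W : W₁ ⊆ W := Finset.filter_subset _ _
  have hAQ : ∀ v ∈ W₁, (A v ∪ Q v).card ≤ p + q := by
    intro v hv
    have h1 := (hQ v (hW₁W hv)).2.2.2
    have h2 : fb v ≤ p := Nat.findGreatest_le _
    have h3 := Finset.card_union_le (A v) (Q v)
    have h4 := hA v (hW₁W hv)
    omega
  -- first selection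
  obtain ⟨W₂, hW₂, hW₂c, hW₂s⟩ := exists_select (T := W₁) (l := 2)
    (lev := fun γ v => if γ ∈ A v then 1 else 0) (by omega) (fun v => A v ∪ Q v)
    (p + q) hAQ (by
      intro γ v _
      split_ifs <;> omega)
  have hpriv : ∀ u ∈ W₂, ∀ v ∈ W₂, Disjoint (Q v) (A u) := by
    intro u hu v hv
    rw [Finset.disjoint_left]
    intro γ h1 h2
    have h3 := hW₂s u hu v hv γ (Finset.mem_union_left _ h2) (Finset.mem_union_right _ h1)
    simp only [if_pos h2] at h3
    split_ifs at h3 with h4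
    exact Finset.disjoint_left.mp (hQ v (hW₁W (hW₂ hv))).2.2.1 h1 h4
  have harc : ∀ u ∈ W₂, ∀ v ∈ W₂, u < v → c u v ∉ Θ → c u v ∈ A u ∨ c u v ∈ Q v := by
    intro u hu v hv huv hcΘ
    by_contra hnot
    rw [not_or] at hnot
    obtain ⟨h1, h2, h3, h4⟩ := hQ v (hW₁W (hW₂ hv))
    have h5 := RS.step h1 (hW₁W (hW₂ hu)) huv hnot.2
    have h6 : pb u (fb v + 1) := by
      refine ⟨_, h5, ?_, ?_, ?_⟩
      · rw [Finset.disjoint_insert_left]; exact ⟨hcΘ, h2⟩
      · rw [Finset.disjoint_insert_left]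
        exact ⟨hnot.1, hpriv u hu v hv⟩
      · rw [Finset.card_insert_of_notMem hnot.2, h4]
    have h7 := Nat.le_findGreatest (hpbt _ (hW₁W (hW₂ hu)) _ h6) h6
    have h8 : fb v + 1 ≤ fb u := h7
    have h9 := (Finset.mem_filter.mp (hW₂ hu)).2
    have h10 := (Finset.mem_filter.mp (hW₂ hv)).2
    omega
  -- second selection : levels
  obtain ⟨W₃, hW₃, hW₃c, hW₃s⟩ := exists_select (T := W₂) (l := 3) (lev := lev) (by omega)
    (fun v => A v ∪ Q v) (p + q) (fun v hv => hAQ v (hW₂ hv))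
    (fun γ v hv => hL.lt γ v (hW₁W (hW₂ hv)))
  have hW₃W : W₃ ⊆ W := hW₃.trans (hW₂.trans hW₁W)
  have hfin := card_flash_in_le (T := W₃) (Θ := Θ) (by omega) (hL.mono hW₃W)
    (fun y D hD => hR y D (hD.mono hW₃W)) (by
      intro x hx y hy z hz hxy hyz heq
      by_contra hnot
      have g1 := hL.up x (hW₃W hx) y (hW₃W hy) hxy
      have g2 := hL.up y (hW₃W hy) z (hW₃W hz) hyz
      rw [← heq] at g2
      rcases harc x (hW₃ hx) y (hW₃ hy) hxy hnot with h1 | h1
      · rcases harc y (hW₃ hy) z (hW₃ hz) hyz (heq ▸ hnot) with h2 | h2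
        · rw [← heq] at h2
          have := hW₃s x hx y hy _ (Finset.mem_union_left _ h1) (Finset.mem_union_left _ h2)
          omega
        · rw [← heq] at h2
          have := hW₃s x hx z hz _ (Finset.mem_union_left _ h1) (Finset.mem_union_right _ h2)
          omega
      · rcases harc y (hW₃ hy) z (hW₃ hz) hyz (heq ▸ hnot) with h2 | h2
        · rw [← heq] at h2
          exact Finset.disjoint_left.mp (hpriv y (hW₃ hy) y (hW₃ hy)) h1 h2
        · rw [← heq] at h2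
          have := hW₃s y hy z hz _ (Finset.mem_union_right _ h1) (Finset.mem_union_right _ h2)
          omega)
  calc W.card * 2 ^ Θ.card ≤ ((p + 1) * W₁.card) * 2 ^ Θ.card := Nat.mul_le_mul_right _ hy
    _ ≤ ((p + 1) * (2 ^ (p + q) * W₂.card)) * 2 ^ Θ.card := by gcongr
    _ ≤ ((p + 1) * (2 ^ (p + q) * (3 ^ (p + q) * W₃.card))) * 2 ^ Θ.card := by gcongr
    _ = (p + 1) * (2 ^ (p + q) * 3 ^ (p + q)) * (W₃.card * 2 ^ Θ.card) := by ring
    _ = (p + 1) * 6 ^ (p + q) * (W₃.card * 2 ^ Θ.card) := by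
      rw [← mul_pow, show 2 * 3 = 6 by norm_num]
    _ ≤ (p + 1) * 6 ^ (p + q) * (2 ^ R * 3 ^ Θ.card) := Nat.mul_le_mul_left _ hfin

/-- Lemma A with at most `R` colours in `Θ` -/
theorem lemmaA' (hL : Lev c W 3 lev) (hR : Rk c W R) (A : ℕ → Finset ℕ)
    (hA : ∀ w ∈ W, (A w).card ≤ q) (hΘ : Θ.card ≤ R)
    (hp : ∀ w ∈ W, ∀ D, RS c W w D → Disjoint D Θ → Disjoint D (A w) → D.card ≤ p) :
    W.card ≤ (p + 1) * 6 ^ (p + q) * 3 ^ R := by
  have h1 := lemmaA hL hR A hA hp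
  have h2 : 2 ^ R * 3 ^ Θ.card ≤ 3 ^ R * 2 ^ Θ.card := by
    obtain ⟨k, hk⟩ := Nat.exists_eq_add_of_le hΘ
    rw [hk, pow_add, pow_add]
    have h3 : (2 : ℕ) ^ k ≤ 3 ^ k := Nat.pow_le_pow_left (by norm_num) k
    calc 2 ^ Θ.card * 2 ^ k * 3 ^ Θ.card ≤ 2 ^ Θ.card * 3 ^ k * 3 ^ Θ.card := by gcongr
      _ = 3 ^ Θ.card * 3 ^ k * 2 ^ Θ.card := by ring
  have h3 : W.card * 2 ^ Θ.card ≤ ((p + 1) * 6 ^ (p + q) * 3 ^ R) * 2 ^ Θ.card := by
    calc W.card * 2 ^ Θ.card ≤ (p + 1) * 6 ^ (p + q) * (2 ^ R * 3 ^ Θ.card) := h1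
      _ ≤ (p + 1) * 6 ^ (p + q) * (3 ^ R * 2 ^ Θ.card) := Nat.mul_le_mul_left _ h2
      _ = _ := by ring
  exact Nat.le_of_mul_le_mul_right h3 (by positivity)

/-- the colour `y` can be avoided by a long path into `w` with at most `C` colours outside `Θ` -/
def FreeP (c : ℕ → ℕ → ℕ) (V : Finset ℕ) (R C : ℕ) (Θ : Finset ℕ) (w y : ℕ) : Prop :=
  ∃ D, RP c V w D ∧ R ≤ D.card + C ∧ y ∉ D ∧ (D \ Θ).card ≤ C

/-- the colour `y` can be avoided by a long path out of `w` with at most `C` colours outside `Θ` -/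
def FreeS (c : ℕ → ℕ → ℕ) (V : Finset ℕ) (R C : ℕ) (Θ : Finset ℕ) (w y : ℕ) : Prop :=
  ∃ D, RS c V w D ∧ R ≤ D.card + C ∧ y ∉ D ∧ (D \ Θ).card ≤ C

/-- the constant of Lemma A in the core cover inequality -/
def KA (C : ℕ) : ℕ := (C + 1) * 6 ^ (C + (C + 1))

/-- (a): the later points whose colour is coherently avoidable -/
theorem free_le (hL : Lev c V 3 lev) (hR : Rk c V R) {a : ℕ} (hΘ : Θ.card ≤ R) :
    (V.filter fun v => a < v ∧ FreeP c V R C Θ a (c a v)).card ≤ KA C * 3 ^ R := by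
  set W := V.filter fun v => a < v ∧ FreeP c V R C Θ a (c a v) with hW
  have hWV : W ⊆ V := Finset.filter_subset _ _
  have h : ∀ v ∈ W, ∃ D, RP c V a D ∧ R ≤ D.card + C ∧ c a v ∉ D ∧ (D \ Θ).card ≤ C :=
    fun v hv => (Finset.mem_filter.mp hv).2.2
  choose! P hP using h
  refine lemmaA' (p := C) (q := C + 1) (hL.mono hWV) (fun y D hD => hR y D (hD.mono hWV))
    (fun v => insert (c a v) (P v \ Θ)) ?_ hΘ ?_
  · intro v hv
    have h1 := Finset.card_insert_le (c a v) (P v \ Θ)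
    have h2 := (hP v hv).2.2.2
    omega
  · intro v hv D hD h1 h2
    obtain ⟨h3, h4, h5, -⟩ := hP v hv
    rw [Finset.disjoint_insert_right] at h2
    have h6 : RP c V v (insert (c a v) (P v)) :=
      RP.step h3 (hWV hv) (Finset.mem_filter.mp hv).2.1 h5
    have h7 : Disjoint D (P v) := by
      rw [Finset.disjoint_left]
      intro γ hγ hγ'
      by_cases hγΘ : γ ∈ Θ
      · exact Finset.disjoint_left.mp h1 hγ hγΘ
      · exact Finset.disjoint_left.mp h2.2 hγ (Finset.mem_sdiff.mpr ⟨hγ', hγΘ⟩)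
    have h8 : Disjoint D (insert (c a v) (P v)) := by
      rw [Finset.disjoint_insert_right]
      exact ⟨h2.1, h7⟩
    obtain ⟨y, hy⟩ := hD.join hWV _ h6 h8
    have h9 := hR _ _ hy
    rw [Finset.card_union_of_disjoint h8.symm, Finset.card_insert_of_notMem h5] at h9
    omega

/-- (b): one colour which can be avoided by one long path -/
theorem one_le (hL : Lev c V 3 lev) (hR : Rk c V R) {a g : ℕ} {D₀ : Finset ℕ}
    (hD₀ : RP c V a D₀) (hD₀c : R ≤ D₀.card + C) (hg : g ∉ D₀) :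
    (V.filter fun v => a < v ∧ c a v = g).card ≤ KA C * 3 ^ R := by
  refine (Finset.card_le_card ?_).trans
    (free_le (a := a) (C := C) hL hR (Θ := D₀) (by exact hR _ _ hD₀))
  intro v hv
  obtain ⟨h1, h2, h3⟩ := Finset.mem_filter.mp hv
  refine Finset.mem_filter.mpr ⟨h1, h2, D₀, hD₀, hD₀c, h3 ▸ hg, ?_⟩
  rw [Finset.sdiff_self, Finset.card_empty]
  omega

/-- all but few of the later points are joined by a colour of the true core -/
theorem side_le (hL : Lev c V 3 lev) (hR : Rk c V R) {a : ℕ} (hΘ : Θ.card ≤ R) (Γ : Finset ℕ)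
    (hΓ : Γ.card ≤ lam) (hΓc : ∀ y, ¬ FreeP c V R C Θ a y → y ∈ Γ) :
    (V.filter fun v => a < v ∧ ∃ D, RP c V a D ∧ R ≤ D.card + C ∧ c a v ∉ D).card ≤
      (lam + 1) * (KA C * 3 ^ R) := by
  set Γ₁ := Γ.filter fun g => ∃ D, RP c V a D ∧ R ≤ D.card + C ∧ g ∉ D with hΓ₁
  have hsub : (V.filter fun v => a < v ∧ ∃ D, RP c V a D ∧ R ≤ D.card + C ∧ c a v ∉ D) ⊆
      (V.filter fun v => a < v ∧ FreeP c V R C Θ a (c a v)) ∪
        Γ₁.biUnion fun g => V.filter fun v => a < v ∧ c a v = g := by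
    intro v hv
    obtain ⟨h1, h2, h3⟩ := Finset.mem_filter.mp hv
    by_cases h4 : FreeP c V R C Θ a (c a v)
    · exact Finset.mem_union_left _ (Finset.mem_filter.mpr ⟨h1, h2, h4⟩)
    · refine Finset.mem_union_right _ (Finset.mem_biUnion.mpr ⟨c a v, ?_, ?_⟩)
      · exact Finset.mem_filter.mpr ⟨hΓc _ h4, h3⟩
      · exact Finset.mem_filter.mpr ⟨h1, h2, rfl⟩
  refine (Finset.card_le_card hsub).trans ((Finset.card_union_le _ _).trans ?_)
  have h1 := free_le (a := a) (C := C) hL hR hΘ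
  have h2 : (Γ₁.biUnion fun g => V.filter fun v => a < v ∧ c a v = g).card ≤
      Γ₁.card * (KA C * 3 ^ R) := by
    refine Finset.card_biUnion_le_card_mul _ _ _ ?_
    intro g hg
    obtain ⟨-, D₀, h3, h4, h5⟩ := Finset.mem_filter.mp hg
    exact one_le hL hR h3 h4 h5
  have h3 : Γ₁.card ≤ lam := (Finset.card_le_card (Finset.filter_subset _ _)).trans hΓ
  calc _ ≤ KA C * 3 ^ R + Γ₁.card * (KA C * 3 ^ R) := Nat.add_le_add h1 h2
    _ ≤ KA C * 3 ^ R + lam * (KA C * 3 ^ R) := by gcongr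
    _ = _ := by ring

theorem RS.toRP_rev' {N : ℕ} (hN : ∀ v ∈ V, v ≤ N) {y : ℕ} {D : Finset ℕ} (h : RS c V y D) :
    RP (revc c N) (rvs V N) (N - y) D := by
  induction h with
  | @single x hx =>
    have := hN x hx
    exact RP.single ((mem_rvs hN).mpr ⟨by omega, by rwa [show N - (N - x) = x by omega]⟩)
  | @step x y E hE hx hlt hc ih =>
    have h2 := hN y hE.mem
    have h3 := hN x hx
    have h4 : revc c N (N - y) (N - x) = c x y := by
      rw [revc_eq, show N - (N - x) = x by omega, show N - (N - y) = y by omega]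
    rw [← h4] at hc ⊢
    exact RP.step ih ((mem_rvs hN).mpr
      ⟨by omega, by rwa [show N - (N - x) = x by omega]⟩) (by omega) hc

theorem Rk.rev {N : ℕ} (hN : ∀ v ∈ V, v ≤ N) (hR : Rk c V R) : Rk (revc c N) (rvs V N) R := by
  intro y D hD
  exact (hD.toRS_rev hN).card_le hR

/-- mirror image of `side_le` -/
theorem side_le_down (hL : Lev c V 3 lev) (hR : Rk c V R) {a : ℕ} (ha : a ∈ V)
    (hΘ : Θ.card ≤ R) (Γ : Finset ℕ)
    (hΓ : Γ.card ≤ lam) (hΓc : ∀ y, ¬ FreeS c V R C Θ a y → y ∈ Γ) :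
    (V.filter fun v => v < a ∧ ∃ D, RS c V a D ∧ R ≤ D.card + C ∧ c v a ∉ D).card ≤
      (lam + 1) * (KA C * 3 ^ R) := by
  obtain ⟨N, hN⟩ : ∃ N, ∀ v ∈ V, v ≤ N := ⟨V.sup id, fun v hv => Finset.le_sup (f := id) hv⟩
  have haN := hN a ha
  have h1 := side_le (c := revc c N) (V := rvs V N) (a := N - a) (C := C) (lam := lam)
    (Lev.rev hN hL) (Rk.rev hN hR) hΘ Γ hΓ (by
      intro y hy
      refine hΓc y fun h => hy ?_
      obtain ⟨D, h1, h2⟩ := h
      exact ⟨D, RS.toRP_rev' hN h1, h2⟩)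
  refine le_trans ?_ h1
  have h2 : ((V.filter fun v => v < a ∧ ∃ D, RS c V a D ∧ R ≤ D.card + C ∧ c v a ∉ D).image
      (fun v => N - v)).card =
      (V.filter fun v => v < a ∧ ∃ D, RS c V a D ∧ R ≤ D.card + C ∧ c v a ∉ D).card := by
    refine Finset.card_image_of_injOn fun u hu v hv h => ?_
    have h1 := hN u (Finset.mem_filter.mp hu).1
    have h2 := hN v (Finset.mem_filter.mp hv).1
    have h3 : N - u = N - v := h
    omega
  rw [← h2]
  refine Finset.card_le_card ?_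
  intro y hy
  obtain ⟨v, hv, rfl⟩ := Finset.mem_image.mp hy
  obtain ⟨hvV, hva, D, h3, h4, h5⟩ := Finset.mem_filter.mp hv
  have hvN := hN v hvV
  refine Finset.mem_filter.mpr ⟨(mem_rvs hN).mpr ⟨by omega, ?_⟩, by omega, D,
    RS.toRP_rev' hN h3, h4, ?_⟩
  · rwa [show N - (N - v) = v by omega]
  · rw [revc_eq, show N - (N - v) = v by omega, show N - (N - a) = a by omega]
    exact h5

/-- (c): the points which cannot avoid the colour `g` -/
theorem forced_le (hL : Lev c V 3 lev) (hN : ∀ U ⊆ V, Rk c U (R - C - 1) → U.card ≤ N)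
    {g : ℕ} : (V.filter fun v => ∀ D, RS c V v D → R ≤ D.card + C → g ∈ D).card ≤ 3 * N := by
  set T := V.filter fun v => ∀ D, RS c V v D → R ≤ D.card + C → g ∈ D with hT
  have hTV : T ⊆ V := Finset.filter_subset _ _
  have hsub : T ⊆ (Finset.range 3).biUnion fun i => T.filter fun v => lev g v = i := by
    intro v hv
    exact Finset.mem_biUnion.mpr ⟨lev g v, Finset.mem_range.mpr (hL.lt g v (hTV hv)),
      Finset.mem_filter.mpr ⟨hv, rfl⟩⟩
  refine (Finset.card_le_card hsub).trans ((Finset.card_biUnion_le_card_mul _ _ N ?_).trans ?_)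
  · intro i _
    refine hN _ ((Finset.filter_subset _ _).trans hTV) ?_
    intro y D hD
    obtain ⟨x, hx⟩ := hD.toRS
    have hxT : x ∈ T := (Finset.mem_filter.mp hx.mem).1
    have hgD : g ∉ D := by
      refine hx.notMem_of_free ?_
      intro u hu v hv huv hcg
      have h1 := Finset.mem_filter.mp hu
      have h2 := Finset.mem_filter.mp hv
      have h3 := hL.up u (hTV h1.1) v (hTV h2.1) huv
      rw [hcg] at h3
      omega
    have h1 := (Finset.mem_filter.mp hxT).2 D (hx.mono ((Finset.filter_subset _ _).trans hTV))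
    by_contra hcon
    exact hgD (h1 (by omega))
  · rw [Finset.card_range]

theorem sum_pairs (W : Finset ℕ) :
    2 * ∑ w ∈ W, (W.filter fun v => w < v).card + W.card = W.card * W.card := by
  have h1 : ∑ w ∈ W, (W.filter fun v => w < v).card = ∑ w ∈ W, (W.filter fun v => v < w).card := by
    simp only [Finset.card_filter]
    exact Finset.sum_comm
  have h2 : ∀ w ∈ W, (W.filter fun v => w < v).card + (W.filter fun v => v < w).card + 1 =
      W.card := by
    intro w hw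
    have h3 : (W.filter fun v => v < w).card + (W.filter fun v => ¬ v < w).card = W.card :=
      Finset.card_filter_add_card_filter_not _
    have h4 : W.filter (fun v => ¬ v < w) = insert w (W.filter fun v => w < v) := by
      ext v
      simp only [Finset.mem_filter, Finset.mem_insert]
      constructor
      · rintro ⟨h5, h6⟩
        rcases Nat.lt_or_ge w v with h | h
        · exact Or.inr ⟨h5, h⟩
        · exact Or.inl (by omega)
      · rintro (rfl | ⟨h5, h6⟩)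
        · exact ⟨hw, by omega⟩
        · exact ⟨h5, by omega⟩
    rw [h4, Finset.card_insert_of_notMem (by simp)] at h3
    omega
  have h3 : ∑ w ∈ W, ((W.filter fun v => w < v).card + (W.filter fun v => v < w).card + 1) =
      ∑ _w ∈ W, W.card := Finset.sum_congr rfl h2
  rw [Finset.sum_add_distrib, Finset.sum_add_distrib, ← h1] at h3
  simp only [Finset.sum_const, smul_eq_mul, mul_one] at h3
  omega

/-- **(CC')**, the core cover inequality: a set `W` of points all of whose left and right coherent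
cores have at most `lam` colours is small. -/
theorem core_cover (hL : Lev c V 3 lev) (hR : Rk c V R) (hW : W ⊆ V) (P S Γ Γ' : ℕ → Finset ℕ)
    (hP : ∀ w ∈ W, (P w).card ≤ R) (hS : ∀ w ∈ W, (S w).card ≤ R)
    (hΓ : ∀ w ∈ W, (Γ w).card ≤ lam) (hΓ' : ∀ w ∈ W, (Γ' w).card ≤ lam)
    (hΓc : ∀ w ∈ W, ∀ y, ¬ FreeP c V R C (P w) w y → y ∈ Γ w)
    (hΓc' : ∀ w ∈ W, ∀ y, ¬ FreeS c V R C (S w) w y → y ∈ Γ' w)
    (hN : ∀ U ⊆ V, Rk c U (R - C - 1) → U.card ≤ N) :
    W.card ≤ 4 * ((lam + 1) * (KA C * 3 ^ R)) + 6 * lam * N + 1 := by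
  set K := (lam + 1) * (KA C * 3 ^ R) with hK
  set B₁ : ℕ → Finset ℕ := fun w =>
    W.filter fun v => w < v ∧ ∃ D, RP c V w D ∧ R ≤ D.card + C ∧ c w v ∉ D with hB₁
  set B₂ : ℕ → Finset ℕ := fun w =>
    W.filter fun v => w < v ∧ ∃ D, RS c V v D ∧ R ≤ D.card + C ∧ c w v ∉ D with hB₂
  set B₃ : ℕ → Finset ℕ := fun w => (Γ w).biUnion fun g =>
    V.filter fun v => ∀ D, RS c V v D → R ≤ D.card + C → g ∈ D with hB₃
  have hcov : ∀ w ∈ W, (W.filter fun v => w < v).card ≤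
      (B₁ w).card + (B₂ w).card + (B₃ w).card := by
    intro w hw
    refine (Finset.card_le_card (t := (B₁ w ∪ B₂ w) ∪ B₃ w) ?_).trans
      ((Finset.card_union_le _ _).trans (Nat.add_le_add_right (Finset.card_union_le _ _) _))
    intro v hv
    obtain ⟨hvW, hwv⟩ := Finset.mem_filter.mp hv
    by_cases h1 : ∃ D, RP c V w D ∧ R ≤ D.card + C ∧ c w v ∉ D
    · exact Finset.mem_union_left _ (Finset.mem_union_left _ (Finset.mem_filter.mpr ⟨hvW, hwv, h1⟩))
    by_cases h2 : ∃ D, RS c V v D ∧ R ≤ D.card + C ∧ c w v ∉ D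
    · exact Finset.mem_union_left _ (Finset.mem_union_right _ (Finset.mem_filter.mpr ⟨hvW, hwv, h2⟩))
    refine Finset.mem_union_right _ (Finset.mem_biUnion.mpr ⟨c w v, ?_, ?_⟩)
    · refine hΓc w hw _ ?_
      rintro ⟨D, h3, h4, h5, -⟩
      exact h1 ⟨D, h3, h4, h5⟩
    · refine Finset.mem_filter.mpr ⟨hW hvW, fun D h3 h4 => ?_⟩
      by_contra h5
      exact h2 ⟨D, h3, h4, h5⟩
  have hb1 : ∀ w ∈ W, (B₁ w).card ≤ K := by
    intro w hw
    refine (Finset.card_le_card ?_).trans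
      (side_le hL hR (hP w hw) (Γ w) (hΓ w hw) (hΓc w hw))
    intro v hv
    obtain ⟨h1, h2⟩ := Finset.mem_filter.mp hv
    exact Finset.mem_filter.mpr ⟨hW h1, h2⟩
  have hb2 : ∑ w ∈ W, (B₂ w).card ≤ W.card * K := by
    have h1 : ∑ w ∈ W, (B₂ w).card = ∑ v ∈ W, (W.filter fun w => w < v ∧
        ∃ D, RS c V v D ∧ R ≤ D.card + C ∧ c w v ∉ D).card := by
      simp only [hB₂, Finset.card_filter]
      exact Finset.sum_comm
    rw [h1, ← smul_eq_mul, ← Finset.sum_const]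
    refine Finset.sum_le_sum fun v hv => ?_
    refine (Finset.card_le_card ?_).trans
      (side_le_down hL hR (hW hv) (hS v hv) (Γ' v) (hΓ' v hv) (hΓc' v hv))
    intro w hw
    obtain ⟨h1, h2⟩ := Finset.mem_filter.mp hw
    exact Finset.mem_filter.mpr ⟨hW h1, h2⟩
  have hb3 : ∀ w ∈ W, (B₃ w).card ≤ lam * (3 * N) := by
    intro w hw
    refine (Finset.card_biUnion_le_card_mul _ _ (3 * N) ?_).trans
      (Nat.mul_le_mul_right _ (hΓ w hw))
    intro g _
    exact forced_le hL hN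
  have hsum : ∑ w ∈ W, (W.filter fun v => w < v).card ≤ W.card * (2 * K + lam * (3 * N)) := by
    calc ∑ w ∈ W, (W.filter fun v => w < v).card
        ≤ ∑ w ∈ W, ((B₁ w).card + (B₂ w).card + (B₃ w).card) := Finset.sum_le_sum hcov
      _ = ∑ w ∈ W, (B₁ w).card + ∑ w ∈ W, (B₂ w).card + ∑ w ∈ W, (B₃ w).card := by
        rw [Finset.sum_add_distrib, Finset.sum_add_distrib]
      _ ≤ ∑ _w ∈ W, K + W.card * K + ∑ _w ∈ W, lam * (3 * N) :=
        Nat.add_le_add (Nat.add_le_add (Finset.sum_le_sum hb1) hb2) (Finset.sum_le_sum hb3)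
      _ = W.card * (2 * K + lam * (3 * N)) := by
        simp only [Finset.sum_const, smul_eq_mul]
        ring
  have h1 := sum_pairs W
  rcases Nat.eq_zero_or_pos W.card with h0 | h0
  · omega
  have h2 : W.card * W.card ≤ W.card * (4 * K + 6 * lam * N + 1) := by
    calc W.card * W.card = 2 * ∑ w ∈ W, (W.filter fun v => w < v).card + W.card := h1.symm
      _ ≤ 2 * (W.card * (2 * K + lam * (3 * N))) + W.card := by gcongr
      _ = W.card * (4 * K + 6 * lam * N + 1) := by ring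
  exact Nat.le_of_mul_le_mul_left h2 h0

end FlashRainbow.CF
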