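import Pool.Agent.Work.MP_54723a_co.CF.PrivLabUp
import Pool.Agent.Work.MP_54723a_co.CF.CorePrime
import Pool.Agent.Work.MP_54723a_co.CF.Rich

/-!
# Thin zones and rich vertices in a plain set, exponential precision

* `thin_of_lab`, `thin_of_lab_up` : a labelled set whose `Θ`- and label-avoiding paths are short
  contains a large `Θ`-coloured subset.
* `thin_zone` : a set `U` of rank at most `t`, all of whose subsets of rank `r` have at most
  `M / 3 ^ (t - r)` points, `3 ^ t ≤ M ≤ 2 ^ q |U|`, `16 (t + 1) 2 ^ q ≤ 3 ^ s`, contains a subset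
  `X` all of whose edges have colours in a set `Θ` of `t` colours, `|U| ≤ 2 ^ (48 s + 91) |X|`.
* `rich_plain` : rich vertices in `U`.
-/

set_option autoImplicit false

namespace FlashRainbow.CF

open Classical

variable {c : ℕ → ℕ → ℕ} {V T W U X Θ : Finset ℕ} {t s q C d N M : ℕ} {lev : ℕ → ℕ → ℕ}

theorem kappa_le (C : ℕ) :
    (C + 1) * 2 ^ (C + 1) * ((C + 1) ^ 2 * 3 ^ (2 * C)) * 3 ≤ 2 ^ (8 * C + 3) := by
  have h2 : C + 1 ≤ 2 ^ C := Nat.lt_two_pow_self
  calc (C + 1) * 2 ^ (C + 1) * ((C + 1) ^ 2 * 3 ^ (2 * C)) * 3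
      ≤ 2 ^ C * 2 ^ (C + 1) * ((2 ^ C) ^ 2 * 4 ^ (2 * C)) * 4 := by
        gcongr <;> norm_num
    _ = 2 ^ (8 * C + 3) := by
      rw [show (4 : ℕ) = 2 ^ 2 by norm_num, ← pow_mul, ← pow_mul, ← pow_add, ← pow_add,
        ← pow_add, ← pow_add]
      congr 1
      ring

theorem thin_of_lab (hL : Lev c U 3 lev) (hR : Rk c U t) (g : ℕ → ℕ) (hΘ : Θ.card = t)
    (hC : ∀ u ∈ U, ∀ D, RP c U u D → Disjoint D Θ → g u ∉ D → D.card ≤ C)
    (hd : 3 ^ t ≤ 2 ^ d * U.card) :
    ∃ X ⊆ U, Col c X Θ ∧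
      U.card ≤ 2 ^ ((8 * C + 3) + (1 + 2 * (2 * (d + (8 * C + 3) + 15)))) * X.card := by
  obtain ⟨W, hWU, hW, hWc⟩ := lab_reduce hL g hC
  have hWc' : U.card ≤ 2 ^ (8 * C + 3) * W.card :=
    hWc.trans (Nat.mul_le_mul_right _ (kappa_le C))
  have hd1 : 3 ^ t ≤ 2 ^ (d + (8 * C + 3)) * W.card := by
    calc 3 ^ t ≤ 2 ^ d * U.card := hd
      _ ≤ 2 ^ d * (2 ^ (8 * C + 3) * W.card) := Nat.mul_le_mul_left _ hWc'
      _ = _ := by rw [pow_add]; ring
  obtain ⟨X, hXW, hcol, hXc⟩ := thin_of_arc (e := 0) (hL.mono hWU)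
    (fun y D hD => hR y D (hD.mono hWU)) g hW (by rw [hΘ, Nat.add_zero]) hd1
  refine ⟨X, hXW.trans hWU, hcol, ?_⟩
  rw [Nat.zero_add] at hXc
  calc U.card ≤ 2 ^ (8 * C + 3) * W.card := hWc'
    _ ≤ 2 ^ (8 * C + 3) * (2 ^ (1 + 2 * (2 * (d + (8 * C + 3) + 15))) * X.card) :=
        Nat.mul_le_mul_left _ hXc
    _ = _ := by rw [pow_add 2 (8 * C + 3)]; ring

theorem thin_of_lab_up (hL : Lev c U 3 lev) (hR : Rk c U t) (g : ℕ → ℕ) (hΘ : Θ.card = t)
    (hC : ∀ u ∈ U, ∀ D, RS c U u D → Disjoint D Θ → g u ∉ D → D.card ≤ C)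
    (hd : 3 ^ t ≤ 2 ^ d * U.card) :
    ∃ X ⊆ U, Col c X Θ ∧
      U.card ≤ 2 ^ ((8 * C + 3) + (1 + 2 * (2 * (d + (8 * C + 3) + 15)))) * X.card := by
  obtain ⟨N, hN⟩ : ∃ N, ∀ v ∈ U, v ≤ N := ⟨U.sup id, fun v hv => Finset.le_sup (f := id) hv⟩
  obtain ⟨X, hX, hcol, hXc⟩ := thin_of_lab (c := revc c N) (U := rvs U N) (Θ := Θ) (C := C)
    (d := d) (t := t) (Lev.rev hN hL) (by
      intro y D hD
      exact (hD.toRS_rev hN).card_le hR) (fun y => g (N - y)) hΘ (by
      intro u hu D hD hdis hg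
      exact hC _ ((mem_rvs hN).mp hu).2 D (hD.toRS_rev hN) hdis hg) (by rwa [card_rvs hN])
  have hXN : ∀ v ∈ X, v ≤ N := fun v hv => ((mem_rvs hN).mp (hX hv)).1
  refine ⟨rvs X N, ?_, ?_, ?_⟩
  · intro y hy
    have h1 := (mem_rvs hXN).mp hy
    have h2 := ((mem_rvs hN).mp (hX h1.2)).2
    rwa [show N - (N - y) = y by omega] at h2
  · intro u hu v hv huv
    have h1 := (mem_rvs hXN).mp hu
    have h2 := (mem_rvs hXN).mp hv
    have h3 := hcol _ h2.2 _ h1.2 (by omega)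
    rwa [revc_eq, show N - (N - u) = u by omega, show N - (N - v) = v by omega] at h3
  · rw [card_rvs hN] at hXc
    rw [card_rvs hXN]
    exact hXc

/-- padding a set of colours -/
theorem exists_pad (hΘ : Θ.card ≤ t) : ∃ Θ', Θ ⊆ Θ' ∧ Θ'.card = t :=
  Infinite.exists_superset_card_eq Θ t hΘ

/-- the vertices all of whose long paths into them contain `g` -/
theorem forced_in_le (hL : Lev c U 3 lev)
    (hM : ∀ W ⊆ U, ∀ r ≤ t, Rk c W r → W.card * 3 ^ (t - r) ≤ M) (hst : s + 1 ≤ t) (g : ℕ) :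
    (U.filter fun v => ∀ D, RP c U v D → t ≤ D.card + s → g ∈ D).card * 3 ^ s ≤ M := by
  set T := U.filter fun v => ∀ D, RP c U v D → t ≤ D.card + s → g ∈ D with hT
  have hTU : T ⊆ U := Finset.filter_subset _ _
  have hmaps : ∀ v ∈ T, lev g v ∈ Finset.range 3 := fun v hv => by
    rw [Finset.mem_range]; exact hL.lt g v (hTU hv)
  have hcl : ∀ i ∈ Finset.range 3, (T.filter fun v => lev g v = i).card * 3 ^ (s + 1) ≤ M := by
    intro i _
    have hsub : (T.filter fun v => lev g v = i) ⊆ U := (Finset.filter_subset _ _).trans hTU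
    have h1 := hM _ hsub (t - s - 1) (by omega) (by
      intro y D hD
      have hyT := (Finset.mem_filter.mp hD.mem).1
      have hgD : g ∉ D := by
        refine hD.notMem_of_free ?_
        intro u hu v hv huv hcg
        have h1 := Finset.mem_filter.mp hu
        have h2 := Finset.mem_filter.mp hv
        have h3 := hL.up u (hTU h1.1) v (hTU h2.1) huv
        rw [hcg] at h3
        omega
      have h1 := (Finset.mem_filter.mp hyT).2 D (hD.mono hsub)
      by_contra hcon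
      exact hgD (h1 (by omega)))
    rwa [show t - (t - s - 1) = s + 1 by omega] at h1
  have h1 : T.card * 3 ^ (s + 1) ≤ 3 * M := by
    rw [Finset.card_eq_sum_card_fiberwise hmaps, Finset.sum_mul]
    calc ∑ i ∈ Finset.range 3, (T.filter fun v => lev g v = i).card * 3 ^ (s + 1)
        ≤ ∑ _i ∈ Finset.range 3, M := Finset.sum_le_sum hcl
      _ = 3 * M := by rw [Finset.sum_const, Finset.card_range, smul_eq_mul]
  rw [pow_succ] at h1
  have h2 : T.card * (3 ^ s * 3) = 3 * (T.card * 3 ^ s) := by ring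
  omega

/-- the vertices without long paths out of them -/
theorem short_out_le (hM : ∀ W ⊆ U, ∀ r ≤ t, Rk c W r → W.card * 3 ^ (t - r) ≤ M)
    (hst : s + 1 ≤ t) :
    (U.filter fun v => ¬ ∃ D, RS c U v D ∧ t ≤ D.card + s).card * 3 ^ s ≤ M := by
  set T := U.filter fun v => ¬ ∃ D, RS c U v D ∧ t ≤ D.card + s with hT
  have hTU : T ⊆ U := Finset.filter_subset _ _
  have h1 := hM T hTU (t - s - 1) (by omega) (by
    intro y D hD
    obtain ⟨x, hx⟩ := hD.toRS
    have h2 := (Finset.mem_filter.mp hx.mem).2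
    by_contra hcon
    exact h2 ⟨D, hx.mono hTU, by omega⟩)
  rw [show t - (t - s - 1) = s + 1 by omega, pow_succ] at h1
  have h2 : T.card * (3 ^ s * 3) = 3 * (T.card * 3 ^ s) := by ring
  omega

/-- **THIN ZONE** -/
theorem thin_zone (hL : Lev c U 3 lev) (hR : Rk c U t)
    (hM : ∀ W ⊆ U, ∀ r ≤ t, Rk c W r → W.card * 3 ^ (t - r) ≤ M) (h3 : 3 ^ t ≤ M)
    (hMU : M ≤ 2 ^ q * U.card) (hst : s + 1 ≤ t) (hs : 16 * (t + 1) * 2 ^ q ≤ 3 ^ s)
    (hU8 : 8 ≤ U.card) :
    ∃ Θ X, X ⊆ U ∧ Θ.card = t ∧ Col c X Θ ∧ U.card ≤ 2 ^ (48 * s + 91) * X.card := by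
  have h3s : (3 : ℕ) ^ s ≤ 2 ^ (2 * s) := by
    rw [pow_mul]
    exact Nat.pow_le_pow_left (by norm_num) s
  have hq : q ≤ 2 * s := by
    have h1 : (2 : ℕ) ^ q ≤ 2 ^ (2 * s) := by
      calc 2 ^ q ≤ 16 * (t + 1) * 2 ^ q := Nat.le_mul_of_pos_left _ (by omega)
        _ ≤ 3 ^ s := hs
        _ ≤ _ := h3s
    exact (Nat.pow_le_pow_iff_right (by norm_num)).mp h1
  have htS : t ≤ 2 ^ (2 * s) := by
    calc t ≤ 16 * (t + 1) * 1 := by omega
      _ ≤ 16 * (t + 1) * 2 ^ q := Nat.mul_le_mul_left _ (Nat.one_le_two_pow)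
      _ ≤ 3 ^ s := hs
      _ ≤ _ := h3s
  -- the constant of the two labelled cases
  have hlabconst : 3 + ((8 * s + 3) + (1 + 2 * (2 * ((q + 3) + (8 * s + 3) + 15)))) ≤
      48 * s + 91 := by omega
  set F : ℕ → Finset ℕ := fun g =>
    U.filter fun v => ∀ D, RP c U v D → t ≤ D.card + s → g ∈ D with hF
  have hFc : ∀ g, (F g).card * 3 ^ s ≤ M := fun g => forced_in_le hL hM hst g
  set InL : ℕ → Prop := fun p => ∃ D, RP c U p D ∧ t ≤ D.card + s with hInL
  set OutL : ℕ → Prop := fun p => ∃ D, RS c U p D ∧ t ≤ D.card + s with hOutL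
  have hexP : ∀ p, ∃ D, InL p → RP c U p D ∧ t ≤ D.card + s := by
    intro p
    by_cases h : InL p
    · obtain ⟨D, hD⟩ := h
      exact ⟨D, fun _ => hD⟩
    · exact ⟨∅, fun h' => absurd h' h⟩
  choose P hP using hexP
  have hexQ : ∀ p, ∃ D, OutL p → RS c U p D ∧ t ≤ D.card + s := by
    intro p
    by_cases h : OutL p
    · obtain ⟨D, hD⟩ := h
      exact ⟨D, fun _ => hD⟩
    · exact ⟨∅, fun h' => absurd h' h⟩
  choose Q hQ using hexQ
  set aα : ℕ → Finset ℕ := fun p => U.filter fun z => p < z ∧ InL p ∧ c p z ∉ P p with haα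
  set aβ : ℕ → Finset ℕ := fun p => U.filter fun z => p < z ∧ p ∉ F (c p z) ∧ c p z ∈ P p with haβ
  set aγ : ℕ → Finset ℕ := fun z => U.filter fun p => p < z ∧ OutL z ∧ c p z ∉ Q z with haγ
  by_cases hα : ∃ p ∈ U, U.card ≤ 8 * (aα p).card
  · -- case (a)
    obtain ⟨p, hp, hpc⟩ := hα
    have hZU : aα p ⊆ U := Finset.filter_subset _ _
    have hne : (aα p).Nonempty := by
      rw [← Finset.card_pos]
      omega
    obtain ⟨z₀, hz₀⟩ := hne
    obtain ⟨-, -, hInp, -⟩ := Finset.mem_filter.mp hz₀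
    obtain ⟨hPp, hPt⟩ := hP p hInp
    obtain ⟨Θ, hΘ, hΘc⟩ := exists_pad (hR _ _ hPp)
    obtain ⟨X, hX, hcol, hXc⟩ := thin_of_lab_up (U := aα p) (Θ := Θ) (C := s) (d := q + 3)
      (hL.mono hZU) (fun y D hD => hR y D (hD.mono hZU)) (fun z => c p z) hΘc (by
        intro z hz D hD hdis hg
        obtain ⟨hzU, hpz, -, hcz⟩ := Finset.mem_filter.mp hz
        have h1 := RP.step hPp hzU hpz hcz
        have h2 : Disjoint D (insert (c p z) (P p)) := by
          rw [Finset.disjoint_insert_right]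
          exact ⟨hg, hdis.mono_right hΘ⟩
        obtain ⟨y, hy⟩ := hD.join hZU _ h1 h2
        have h4 := hR _ _ hy
        rw [Finset.card_union_of_disjoint h2.symm, Finset.card_insert_of_notMem hcz] at h4
        omega) (by
        calc 3 ^ t ≤ 2 ^ q * U.card := h3.trans hMU
          _ ≤ 2 ^ q * (8 * (aα p).card) := Nat.mul_le_mul_left _ hpc
          _ = 2 ^ (q + 3) * (aα p).card := by rw [pow_add]; ring)
    refine ⟨Θ, X, hX.trans hZU, hΘc, hcol, ?_⟩
    calc U.card ≤ 8 * (aα p).card := hpc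
      _ ≤ 8 * (2 ^ ((8 * s + 3) + (1 + 2 * (2 * ((q + 3) + (8 * s + 3) + 15)))) * X.card) :=
          Nat.mul_le_mul_left _ hXc
      _ = 2 ^ (3 + ((8 * s + 3) + (1 + 2 * (2 * ((q + 3) + (8 * s + 3) + 15))))) * X.card := by
          rw [pow_add 2 3]; ring
      _ ≤ 2 ^ (48 * s + 91) * X.card :=
          Nat.mul_le_mul_right _ (Nat.pow_le_pow_right (by norm_num) hlabconst)
  by_cases hγ : ∃ z ∈ U, U.card ≤ 8 * (aγ z).card
  · -- case (c)
    obtain ⟨z, hz, hzc⟩ := hγ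
    have hZU : aγ z ⊆ U := Finset.filter_subset _ _
    have hne : (aγ z).Nonempty := by
      rw [← Finset.card_pos]
      omega
    obtain ⟨p₀, hp₀⟩ := hne
    obtain ⟨-, -, hOz, -⟩ := Finset.mem_filter.mp hp₀
    obtain ⟨hQz, hQt⟩ := hQ z hOz
    obtain ⟨Θ, hΘ, hΘc⟩ := exists_pad (hQz.card_le hR)
    obtain ⟨X, hX, hcol, hXc⟩ := thin_of_lab (U := aγ z) (Θ := Θ) (C := s) (d := q + 3)
      (hL.mono hZU) (fun y D hD => hR y D (hD.mono hZU)) (fun p => c p z) hΘc (by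
        intro p hp D hD hdis hg
        obtain ⟨hpU, hpz, -, hcz⟩ := Finset.mem_filter.mp hp
        have h1 := RP.step (hD.mono hZU) hz hpz hg
        have h2 : Disjoint (Q z) (insert (c p z) D) := by
          rw [Finset.disjoint_insert_right]
          exact ⟨hcz, (hdis.mono_right hΘ).symm⟩
        obtain ⟨y, hy⟩ := hQz.join (Finset.Subset.refl U) _ h1 h2
        have h4 := hR _ _ hy
        rw [Finset.card_union_of_disjoint h2.symm, Finset.card_insert_of_notMem hg] at h4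
        omega) (by
        calc 3 ^ t ≤ 2 ^ q * U.card := h3.trans hMU
          _ ≤ 2 ^ q * (8 * (aγ z).card) := Nat.mul_le_mul_left _ hzc
          _ = 2 ^ (q + 3) * (aγ z).card := by rw [pow_add]; ring)
    refine ⟨Θ, X, hX.trans hZU, hΘc, hcol, ?_⟩
    calc U.card ≤ 8 * (aγ z).card := hzc
      _ ≤ 8 * (2 ^ ((8 * s + 3) + (1 + 2 * (2 * ((q + 3) + (8 * s + 3) + 15)))) * X.card) :=
          Nat.mul_le_mul_left _ hXc
      _ = 2 ^ (3 + ((8 * s + 3) + (1 + 2 * (2 * ((q + 3) + (8 * s + 3) + 15))))) * X.card := by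
          rw [pow_add 2 3]; ring
      _ ≤ 2 ^ (48 * s + 91) * X.card :=
          Nat.mul_le_mul_right _ (Nat.pow_le_pow_right (by norm_num) hlabconst)
  by_cases hβ : ∃ p ∈ U, U.card ≤ 8 * (aβ p).card
  · -- case (b)
    obtain ⟨p, hp, hpc⟩ := hβ
    have hZU : aβ p ⊆ U := Finset.filter_subset _ _
    have hne : (aβ p).Nonempty := by
      rw [← Finset.card_pos]
      omega
    obtain ⟨z₀, hz₀⟩ := hne
    obtain ⟨hz₀U, -, hz₀F, hz₀P⟩ := Finset.mem_filter.mp hz₀
    have hInp : InL p := by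
      by_contra hno
      refine hz₀F (Finset.mem_filter.mpr ⟨hp, fun D hD ht => ?_⟩)
      exact absurd ⟨D, hD, ht⟩ hno
    obtain ⟨hPp, hPt⟩ := hP p hInp
    have hPc : (P p).card ≤ t := hR _ _ hPp
    obtain ⟨g, hgP, hg⟩ := exists_big_fiber (aβ p) (fun z => c p z) (P p) ⟨_, hz₀P⟩
      (fun z hz => (Finset.mem_filter.mp hz).2.2.2)
    set Z := (aβ p).filter fun z => c p z = g with hZ
    have hZU' : Z ⊆ U := (Finset.filter_subset _ _).trans hZU
    have hZne : Z.Nonempty := by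
      rw [← Finset.card_pos]
      rcases Nat.eq_zero_or_pos Z.card with h0 | h0
      · rw [h0, Nat.mul_zero] at hg
        omega
      · exact h0
    obtain ⟨z₁, hz₁⟩ := hZne
    obtain ⟨hz₁a, hz₁c⟩ := Finset.mem_filter.mp hz₁
    obtain ⟨hz₁U, hpz₁, hz₁F, -⟩ := Finset.mem_filter.mp hz₁a
    rw [hz₁c] at hz₁F
    have hex : ∃ D, RP c U p D ∧ t ≤ D.card + s ∧ g ∉ D := by
      by_contra hno
      push Not at hno
      exact hz₁F (Finset.mem_filter.mpr ⟨hp, hno⟩)
    obtain ⟨D₀, hD₀, hD₀t, hgD₀⟩ := hex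
    have hins : (insert g D₀).card ≤ t := by
      have h1 := RP.step hD₀ hz₁U hpz₁ (by rw [hz₁c]; exact hgD₀)
      rw [hz₁c] at h1
      exact hR _ _ h1
    obtain ⟨Θ, hΘ, hΘc⟩ := exists_pad hins
    obtain ⟨X, hX, hcol, hXc⟩ := chi (l := 3) (U := Z) (Θ := Θ) (C := s) (by omega)
      (hL.mono hZU') (by
        intro y D hD hdis
        obtain ⟨x, hx⟩ := hD.toRS
        obtain ⟨hxa, hxc⟩ := Finset.mem_filter.mp hx.mem
        obtain ⟨hxU, hpx, -, -⟩ := Finset.mem_filter.mp hxa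
        have h1 := RP.step hD₀ hxU hpx (by rw [hxc]; exact hgD₀)
        rw [hxc] at h1
        obtain ⟨y', hy'⟩ := hx.join hZU' _ h1 (hdis.mono_right hΘ)
        have h2 := hR _ _ hy'
        rw [Finset.card_union_of_disjoint (hdis.mono_right hΘ).symm,
          Finset.card_insert_of_notMem hgD₀] at h2
        omega)
    refine ⟨Θ, X, hX.trans hZU', hΘc, hcol, ?_⟩
    have h1 : (s + 1) ^ 2 * 3 ^ (2 * s) ≤ 2 ^ (6 * s) := by
      have h2 : s + 1 ≤ 2 ^ s := Nat.lt_two_pow_self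
      calc (s + 1) ^ 2 * 3 ^ (2 * s) ≤ (2 ^ s) ^ 2 * 4 ^ (2 * s) := by
            gcongr
            norm_num
        _ = 2 ^ (6 * s) := by
          rw [show (4 : ℕ) = 2 ^ 2 by norm_num, ← pow_mul, ← pow_mul, ← pow_add]
          congr 1
          ring
    calc U.card ≤ 8 * (aβ p).card := hpc
      _ ≤ 8 * ((P p).card * Z.card) := Nat.mul_le_mul_left _ hg
      _ ≤ 8 * (2 ^ (2 * s) * ((s + 1) ^ 2 * 3 ^ (2 * s) * X.card)) := by
          gcongr
          exact hPc.trans htS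
      _ ≤ 8 * (2 ^ (2 * s) * (2 ^ (6 * s) * X.card)) := by gcongr
      _ = 2 ^ (3 + (2 * s + 6 * s)) * X.card := by
          rw [pow_add 2 3, pow_add 2 (2 * s)]; ring
      _ ≤ 2 ^ (48 * s + 91) * X.card :=
          Nat.mul_le_mul_right _ (Nat.pow_le_pow_right (by norm_num) (by omega))
  -- no case: too few pairs
  exfalso
  push Not at hα hβ hγ
  set g2 : ℕ → Finset ℕ := fun z => U.filter fun p => p < z ∧ p ∈ F (c p z) ∧ c p z ∈ Q z ∧ OutL z
    with hg2
  set S := U.filter fun v => ¬ ∃ D, RS c U v D ∧ t ≤ D.card + s with hS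
  have hSc : S.card * 3 ^ s ≤ M := short_out_le hM hst
  have hg2c : ∀ z ∈ U, (g2 z).card * 3 ^ s ≤ t * M := by
    intro z hz
    by_cases hO : OutL z
    · have h1 : g2 z ⊆ (Q z).biUnion F := by
        intro p hp
        obtain ⟨-, -, h2, h3, -⟩ := Finset.mem_filter.mp hp
        exact Finset.mem_biUnion.mpr ⟨_, h3, h2⟩
      have hQc : (Q z).card ≤ t := ((hQ z hO).1).card_le hR
      calc (g2 z).card * 3 ^ s ≤ (∑ g ∈ Q z, (F g).card) * 3 ^ s :=
            Nat.mul_le_mul_right _ ((Finset.card_le_card h1).trans Finset.card_biUnion_le)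
        _ = ∑ g ∈ Q z, (F g).card * 3 ^ s := Finset.sum_mul _ _ _
        _ ≤ ∑ _g ∈ Q z, M := Finset.sum_le_sum fun g _ => hFc g
        _ = (Q z).card * M := by rw [Finset.sum_const, smul_eq_mul]
        _ ≤ t * M := Nat.mul_le_mul_right _ hQc
    · have h1 : g2 z = ∅ := by
        rw [hg2, Finset.filter_eq_empty_iff]
        rintro p _ ⟨-, -, -, h⟩
        exact hO h
      rw [h1]
      simp
  have hpairs := sum_pairs U
  have hcov : ∑ p ∈ U, (U.filter fun z => p < z).card ≤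
      ∑ p ∈ U, (aα p).card + ∑ p ∈ U, (aβ p).card + (∑ z ∈ U, (aγ z).card +
        ∑ z ∈ U, (g2 z).card + U.card * S.card) := by
    have h1 : ∑ p ∈ U, (U.filter fun z => p < z).card ≤ ∑ p ∈ U, ((aα p).card + (aβ p).card +
        (U.filter fun z => p < z ∧ p ∈ F (c p z)).card) := by
      refine Finset.sum_le_sum fun p hp => ?_
      refine (Finset.card_le_card (t := (aα p ∪ aβ p) ∪
        (U.filter fun z => p < z ∧ p ∈ F (c p z))) ?_).trans
        ((Finset.card_union_le _ _).trans (Nat.add_le_add_right (Finset.card_union_le _ _) _))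
      intro z hz
      obtain ⟨hzU, hpz⟩ := Finset.mem_filter.mp hz
      by_cases h2 : p ∈ F (c p z)
      · exact Finset.mem_union_right _ (Finset.mem_filter.mpr ⟨hzU, hpz, h2⟩)
      · refine Finset.mem_union_left _ ?_
        by_cases h3 : c p z ∈ P p
        · exact Finset.mem_union_right _ (Finset.mem_filter.mpr ⟨hzU, hpz, h2, h3⟩)
        · refine Finset.mem_union_left _ (Finset.mem_filter.mpr ⟨hzU, hpz, ?_, h3⟩)
          by_contra hno
          exact h2 (Finset.mem_filter.mpr ⟨hp, fun D hD ht => absurd ⟨D, hD, ht⟩ hno⟩)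
    have h2 : ∑ p ∈ U, (U.filter fun z => p < z ∧ p ∈ F (c p z)).card =
        ∑ z ∈ U, (U.filter fun p => p < z ∧ p ∈ F (c p z)).card := by
      simp only [Finset.card_filter]
      exact Finset.sum_comm
    have h4 : ∑ z ∈ U, (U.filter fun p => p < z ∧ p ∈ F (c p z)).card ≤
        ∑ z ∈ U, ((aγ z).card + (g2 z).card + if z ∈ S then U.card else 0) := by
      refine Finset.sum_le_sum fun z hz => ?_
      by_cases hzS : z ∈ S
      · rw [if_pos hzS]
        have := Finset.card_filter_le U fun p => p < z ∧ p ∈ F (c p z)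
        omega
      · rw [if_neg hzS, Nat.add_zero]
        have hO : OutL z := by
          by_contra hno
          exact hzS (Finset.mem_filter.mpr ⟨hz, hno⟩)
        refine (Finset.card_le_card (t := aγ z ∪ g2 z) ?_).trans (Finset.card_union_le _ _)
        intro p hp
        obtain ⟨hpU, hpz, hpF⟩ := Finset.mem_filter.mp hp
        by_cases h5 : c p z ∈ Q z
        · exact Finset.mem_union_right _ (Finset.mem_filter.mpr ⟨hpU, hpz, hpF, h5, hO⟩)
        · exact Finset.mem_union_left _ (Finset.mem_filter.mpr ⟨hpU, hpz, hO, h5⟩)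
    have h5 : ∑ z ∈ U, (if z ∈ S then U.card else 0) = U.card * S.card := by
      rw [← Finset.sum_filter, Finset.sum_const, smul_eq_mul, Nat.mul_comm]
      congr 2
      rw [Finset.filter_mem_eq_inter, Finset.inter_eq_right]
      exact Finset.filter_subset _ _
    rw [Finset.sum_add_distrib, Finset.sum_add_distrib] at h1 h4
    rw [h5] at h4
    omega
  set n := U.card with hn
  have e1 : 8 * ∑ p ∈ U, (aα p).card ≤ n * (n - 1) := by
    rw [Finset.mul_sum]
    refine (Finset.sum_le_card_nsmul U _ (n - 1) fun p hp => ?_).trans (by rw [smul_eq_mul])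
    have := hα p hp
    omega
  have e2 : 8 * ∑ p ∈ U, (aβ p).card ≤ n * (n - 1) := by
    rw [Finset.mul_sum]
    refine (Finset.sum_le_card_nsmul U _ (n - 1) fun p hp => ?_).trans (by rw [smul_eq_mul])
    have := hβ p hp
    omega
  have e3 : 8 * ∑ p ∈ U, (aγ p).card ≤ n * (n - 1) := by
    rw [Finset.mul_sum]
    refine (Finset.sum_le_card_nsmul U _ (n - 1) fun p hp => ?_).trans (by rw [smul_eq_mul])
    have := hγ p hp
    omega
  have e4 : 16 * (∑ z ∈ U, (g2 z).card + n * S.card) ≤ n * n := by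
    have h1 : (∑ z ∈ U, (g2 z).card) * 3 ^ s ≤ n * (t * M) := by
      rw [Finset.sum_mul]
      exact (Finset.sum_le_card_nsmul U _ (t * M) hg2c).trans (by rw [smul_eq_mul])
    have h2 : 16 * (∑ z ∈ U, (g2 z).card + n * S.card) * 3 ^ s ≤ n * n * 3 ^ s := by
      calc 16 * (∑ z ∈ U, (g2 z).card + n * S.card) * 3 ^ s
          = 16 * ((∑ z ∈ U, (g2 z).card) * 3 ^ s + n * (S.card * 3 ^ s)) := by ring
        _ ≤ 16 * (n * (t * M) + n * M) := by gcongr
        _ = 16 * (t + 1) * n * M := by ring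
        _ ≤ 16 * (t + 1) * n * (2 ^ q * n) := Nat.mul_le_mul_left _ hMU
        _ = (16 * (t + 1) * 2 ^ q) * (n * n) := by ring
        _ ≤ 3 ^ s * (n * n) := Nat.mul_le_mul_right _ hs
        _ = n * n * 3 ^ s := by ring
    exact Nat.le_of_mul_le_mul_right h2 (by positivity)
  have e5 : n * (n - 1) = n * n - n := by
    rw [Nat.mul_sub, Nat.mul_one]
  have e6 : n * 8 ≤ n * n := Nat.mul_le_mul_left _ hU8
  omega

theorem rich_mono {B E : Finset ℕ} (h : Rich c X B E) (hXU : X ⊆ U) : Rich c U B E :=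
  ⟨h.1.trans hXU, fun y hy E' hE' => by
    obtain ⟨u, hu, hRT⟩ := h.2 y hy E' hE'
    exact ⟨u, hXU hu, hRT.mono hXU⟩⟩

/-- the colours of `E` occur inside `U` -/
theorem rich_colour {B E : Finset ℕ} (h : Rich c U B E) (hB : B.Nonempty) :
    ∀ k ∈ E, ∃ u ∈ U, ∃ v ∈ U, u < v ∧ c u v = k := by
  intro k hk
  obtain ⟨y, hy⟩ := hB
  obtain ⟨u, hu, hRT⟩ := h.2 y hy {k} (Finset.singleton_subset_iff.mpr hk)
  by_contra hno
  push Not at hno
  have h1 := RP.notMem_of_free (γ := k) hRT.toRP fun a ha b hb hab => hno a ha b hb hab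
  exact h1 (Finset.mem_singleton_self k)

/-- **RICH in a plain set**, exponential precision -/
theorem rich_plain (hL : Lev c U 3 lev) (hR : Rk c U t)
    (hM : ∀ W ⊆ U, ∀ r ≤ t, Rk c W r → W.card * 3 ^ (t - r) ≤ M) (h3 : 3 ^ t ≤ M)
    (hMU : M ≤ 2 ^ q * U.card) (hst : s + 1 ≤ t) (hs : 16 * (t + 1) * 2 ^ q ≤ 3 ^ s)
    (hU8 : 8 ≤ U.card) {m : ℕ} (hm : 3 + 2 * (q + (48 * s + 91)) + 7 * m < t) :
    ∃ E : Finset ℕ, E.card = m ∧ ∃ B ⊆ U, U.card ≤ 8 ^ m * 2 ^ (48 * s + 91) * B.card ∧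
      Rich c U B E := by
  obtain ⟨Θ, X, hXU, hΘ, hcol, hXc⟩ := thin_zone hL hR hM h3 hMU hst hs hU8
  have hne : Θ.Nonempty := by
    rw [← Finset.card_pos, hΘ]
    omega
  obtain ⟨k, hk⟩ := hne
  obtain ⟨E, -, -, hEc, B, hBX, hBc, hRich⟩ := rich_thin (Q := 2 ^ (q + (48 * s + 91))) (m := m)
    (hL.mono hXU) hcol hk (by omega) (by
      rw [hΘ]
      calc 3 ^ t ≤ 2 ^ q * U.card := h3.trans hMU
        _ ≤ 2 ^ q * (2 ^ (48 * s + 91) * X.card) := Nat.mul_le_mul_left _ hXc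
        _ = _ := by rw [pow_add 2 q]; ring) (by
      rw [hΘ, ← pow_mul, show (128 : ℕ) = 2 ^ 7 by norm_num, ← pow_mul,
        show (8 : ℕ) = 2 ^ 3 by norm_num, ← pow_add, ← pow_add]
      exact Nat.pow_lt_pow_right (by norm_num) (by omega))
  refine ⟨E, hEc, B, hBX.trans hXU, ?_, rich_mono hRich hXU⟩
  calc U.card ≤ 2 ^ (48 * s + 91) * X.card := hXc
    _ ≤ 2 ^ (48 * s + 91) * (8 ^ m * B.card) := Nat.mul_le_mul_left _ hBc
    _ = _ := by ring

end FlashRainbow.CF
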