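import Pool.Agent.Work.MP_54723a_co.CF.H1
import Pool.Agent.Work.MP_54723a_co.CF.ThinZone

/-!
# Constant factor, measure route: from a junction to the next hub  (helper75)
-/

set_option autoImplicit false

namespace FlashRainbow.CF

open Classical

variable {c : ℕ → ℕ → ℕ} {V X K F Φ : Finset ℕ} {R t q s x M m : ℕ} {lev : ℕ → ℕ → ℕ}

theorem Hub.shrink {K' : Finset ℕ} (h : Hub c V x K F) (h1 : F ⊆ K') (h2 : K' ⊆ K) :
    Hub c V x K' F :=
  ⟨h1, fun L h3 h4 => h.2 L h3 (h4.trans h2)⟩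

/-- **NEXT HUB**: a junction into a thick plain set gives a hub with `m` more colours. -/
theorem hub_next (hL : Lev c V 3 lev) (hR : Rk c V R)
    (hM : ∀ W ⊆ V, ∀ r ≤ R, Rk c W r → W.card * 3 ^ (R - r) ≤ M) (h3 : 3 ^ R ≤ M)
    (hH : Hub c V x K F) (ht : R = K.card + t) (hΦ : Φ.card ≤ 3) (hΦF : Disjoint Φ F)
    (hJ : Jun c V x Φ X) (hX : Fre c X (K ∪ Φ)) (h8 : 8 ≤ X.card)
    (hsize : M ≤ 2 ^ q * (X.card * 3 ^ (R - t)))
    (hst : s + 4 ≤ t) (hs : 16 * (t + 1) * 2 ^ q ≤ 3 ^ s)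
    (hm3 : 3 ≤ m) (hm : 6 + 2 * (q + (48 * s + 91)) + 7 * m < t) :
    ∃ x' ∈ X, ∃ K', Hub c V x' K' (F ∪ Φ) ∧ R = K'.card + (t - m) := by
  have hXV : X ⊆ V := hJ.1
  have hKΦ : (K ∪ Φ).card ≤ K.card + 3 := (Finset.card_union_le _ _).trans (by omega)
  have hKK : K.card ≤ (K ∪ Φ).card := Finset.card_le_card Finset.subset_union_left
  set t1 := R - (K ∪ Φ).card with ht1
  have ht1a : t1 ≤ t := by omega
  have ht1b : t ≤ t1 + 3 := by omega
  have hrk : Rk c X t1 := hH.plain hR hJ hΦF hX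
  have hpos : 0 < 3 ^ (R - t1) := by positivity
  have hM1 : ∀ W ⊆ X, ∀ r ≤ t1, Rk c W r → W.card * 3 ^ (t1 - r) ≤ M / 3 ^ (R - t1) := by
    intro W hW r hr hWr
    rw [Nat.le_div_iff_mul_le hpos]
    have h1 := hM W (hW.trans hXV) r (by omega) hWr
    calc W.card * 3 ^ (t1 - r) * 3 ^ (R - t1) = W.card * 3 ^ (R - r) := by
          rw [mul_assoc, ← pow_add]
          congr 2
          omega
      _ ≤ M := h1
  have h31 : 3 ^ t1 ≤ M / 3 ^ (R - t1) := by
    rw [Nat.le_div_iff_mul_le hpos, ← pow_add]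
    refine le_trans (le_of_eq ?_) h3
    congr 1
    omega
  have hMU : M / 3 ^ (R - t1) ≤ 2 ^ q * X.card := by
    refine Nat.div_le_of_le_mul ?_
    refine hsize.trans ?_
    calc 2 ^ q * (X.card * 3 ^ (R - t)) ≤ 2 ^ q * (X.card * 3 ^ (R - t1)) := by
          refine Nat.mul_le_mul_left _ (Nat.mul_le_mul_left _ (Nat.pow_le_pow_right (by norm_num) ?_))
          omega
      _ = 3 ^ (R - t1) * (2 ^ q * X.card) := by ring
  obtain ⟨E, hE, B, hBX, hBc, hRich⟩ := rich_plain (q := q) (s := s) (m := m) (hL.mono hXV) hrk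
    hM1 h31 hMU (by omega) (le_trans (Nat.mul_le_mul_right _ (Nat.mul_le_mul_left _ (by omega))) hs)
    h8 (by omega)
  have hBne : B.Nonempty := by
    rw [Finset.nonempty_iff_ne_empty]
    rintro rfl
    rw [Finset.card_empty, Nat.mul_zero] at hBc
    omega
  have hEd : Disjoint (K ∪ Φ) E := by
    rw [Finset.disjoint_left]
    intro k hk hkE
    obtain ⟨u, hu, v, hv, huv, hc⟩ := rich_colour hRich hBne k hkE
    exact hX k hk u hu v hv huv hc
  obtain ⟨y, hy⟩ := hBne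
  have hstep : Hub c V y (K ∪ Φ ∪ E) (F ∪ Φ) := by
    refine hH.step hJ hΦF hX ?_
    intro E' hE'
    obtain ⟨u, hu, hRT⟩ := hRich.2 y hy E' hE'
    exact hRT.toRP
  have hcard : (K ∪ Φ ∪ E).card = (K ∪ Φ).card + m := by
    rw [Finset.card_union_of_disjoint hEd, hE]
  have hFΦ : (F ∪ Φ).card ≤ (K ∪ Φ).card :=
    Finset.card_le_card (Finset.union_subset_union_left hH.1)
  obtain ⟨K', h1, h2, h4⟩ := Finset.exists_subsuperset_card_eq (n := K.card + m) hstep.1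
    (by omega) (by omega)
  refine ⟨y, hBX hy, K', hstep.shrink h1 h2, ?_⟩
  rw [h4]
  omega

end FlashRainbow.CF
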