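import Pool.Agent.Work.MP_54723a_co.CF.H1

/-!
# Constant factor, measure route: the newest junction colours  (helper10)

`Hv v` is the set of colours which are heavy for `v` on the next zone.  A selection of the points of
`Z` (factor `2 ^ (q + 1)`) makes every label `c x u` light for every point `v` with another label.
Hence, if there is no junction with at most three colours of which at most one is heavy, then the
selected part of `Z` satisfies the plain `no junction` conditions, without heavy sets.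
-/

set_option autoImplicit false

namespace FlashRainbow.CF

open Classical

variable {c : ℕ → ℕ → ℕ} {V Z T X K F : Finset ℕ} {x q τ : ℕ} {Hv : ℕ → Finset ℕ}
  {lev : ℕ → ℕ → ℕ}

/-- a junction with at most three colours, at most one of them heavy at each point -/
def HasJunH (c : ℕ → ℕ → ℕ) (V Z K F : Finset ℕ) (x τ : ℕ) (Hv : ℕ → Finset ℕ) : Prop :=
  ∃ Φ X : Finset ℕ, Φ.card ≤ 3 ∧ Disjoint Φ F ∧ X ⊆ Z ∧ Jun c V x Φ X ∧ Fre c X (K ∪ Φ) ∧
    τ ≤ X.card ∧ (∀ v ∈ X, ∃ g, ∀ φ ∈ Φ, φ ≠ g → φ ∉ Hv v) ∧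
    ∀ φ ∈ Φ, ∃ u ∈ insert x Z, ∃ v ∈ insert x Z, u < v ∧ c u v = φ

theorem HasJunH.mono {Z' : Finset ℕ} (h : HasJunH c V Z' K F x τ Hv) (hZ : Z' ⊆ Z) :
    HasJunH c V Z K F x τ Hv := by
  obtain ⟨Φ, X, h1, h2, h3, h4, h5, h6, h7, h8⟩ := h
  refine ⟨Φ, X, h1, h2, h3.trans hZ, h4, h5, h6, h7, fun φ hφ => ?_⟩
  obtain ⟨u, hu, v, hv, h9⟩ := h8 φ hφ
  exact ⟨u, Finset.insert_subset_insert _ hZ hu, v, Finset.insert_subset_insert _ hZ hv, h9⟩

/-- the selection -/
theorem pi_select (c : ℕ → ℕ → ℕ) (x : ℕ) (Z : Finset ℕ) (Hv : ℕ → Finset ℕ)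
    (hHv : ∀ v ∈ Z, (Hv v).card ≤ q) :
    ∃ T ⊆ Z, Z.card ≤ 2 ^ (q + 1) * T.card ∧
      ∀ u ∈ T, ∀ v ∈ T, c x u ≠ c x v → c x u ∉ Hv v := by
  obtain ⟨T, hT, hTc, hTs⟩ := exists_select (T := Z) (l := 2)
    (lev := fun γ v => if γ = c x v then 1 else 0) (by omega)
    (fun v => insert (c x v) (Hv v)) (q + 1)
    (fun v hv => (Finset.card_insert_le _ _).trans (Nat.succ_le_succ (hHv v hv)))
    (by
      intro γ v _
      split_ifs <;> omega)
  refine ⟨T, hT, hTc, ?_⟩
  intro u hu v hv hne hmem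
  have h1 := hTs u hu v hv (c x u) (Finset.mem_insert_self _ _) (Finset.mem_insert_of_mem hmem)
  rw [if_pos rfl, if_neg hne] at h1
  omega

/-- from a thick `K`-free set to a junction -/
theorem hasJunH_of {Φ : Finset ℕ} (hL : Lev c V 3 lev) (hZ : Z ⊆ V) (hXZ : X ⊆ Z)
    (hK : Fre c X K) (hJ : Jun c V x Φ X) (h3 : Φ.card ≤ 3) (hΦF : Disjoint Φ F)
    (hcard : 3 ^ Φ.card * τ ≤ X.card) (hg : ∀ v ∈ X, ∃ g, ∀ φ ∈ Φ, φ ≠ g → φ ∉ Hv v)
    (harc : ∀ φ ∈ Φ, ∃ u ∈ insert x Z, ∃ v ∈ insert x Z, u < v ∧ c u v = φ) :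
    HasJunH c V Z K F x τ Hv := by
  obtain ⟨X', h1, h2, h4⟩ := exists_class (hL.mono (hXZ.trans hZ)) Φ
  refine ⟨Φ, X', h3, hΦF, h1.trans hXZ, hJ.mono h1, (hK.mono h1 (Finset.Subset.refl _)).union h4,
    ?_, fun v hv => hg v (h1 hv), harc⟩
  exact Nat.le_of_mul_le_mul_left (hcard.trans h2) (by positivity)

section

variable (hL : Lev c V 3 lev) (hx : x ∈ V) (hZ : Z ⊆ V) (hxZ : ∀ v ∈ Z, x < v)
  (hT : T ⊆ Z) (hτ : 0 < τ)
  (hno : ¬ HasJunH c V Z K F x τ Hv)

include hL hx hZ hxZ hT hτ hno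

theorem pi_one (l : ℕ) (hl : l ∉ F) (hX : X ⊆ T) (hXK : Fre c X K) :
    (X.filter fun v => c x v = l).card < 3 * τ := by
  by_contra hcon
  push Not at hcon
  have hsub : (X.filter fun v => c x v = l) ⊆ Z := (Finset.filter_subset _ _).trans (hX.trans hT)
  refine hno (hasJunH_of (Φ := {l}) (X := X.filter fun v => c x v = l) hL hZ hsub
    (hXK.mono (Finset.filter_subset _ _) (Finset.Subset.refl _))
    (jun_one hx (hsub.trans hZ) fun v hv => ⟨hxZ v (hsub hv), (Finset.mem_filter.mp hv).2⟩)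
    (by simp) (by simpa using hl) (by simpa using hcon) (fun v hv => ⟨l, fun φ hφ hne => ?_⟩) ?_)
  · exact absurd (Finset.mem_singleton.mp hφ) hne
  · intro φ hφ
    obtain ⟨v, hv⟩ := Finset.card_pos.mp (show 0 < (X.filter fun v => c x v = l).card by omega)
    exact ⟨x, Finset.mem_insert_self _ _, v, Finset.mem_insert_of_mem (hsub hv), hxZ v (hsub hv),
      (Finset.mem_filter.mp hv).2.trans (Finset.mem_singleton.mp hφ).symm⟩

variable (hF : ∀ v ∈ Z, c x v ∉ F)
  (hsel : ∀ u ∈ T, ∀ v ∈ T, c x u ≠ c x v → c x u ∉ Hv v)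

include hF hsel

theorem pi_two (u : ℕ) (hu : u ∈ T) (φ : ℕ) (hφ : φ ∉ F) (hne : φ ≠ c x u) (hX : X ⊆ T)
    (hXK : Fre c X K) :
    (X.filter fun v => u < v ∧ c u v = φ).card < 12 * τ := by
  by_contra hcon
  push Not at hcon
  set Y := (X.filter fun v => u < v ∧ c u v = φ).filter fun v => c x v ≠ c x u with hY
  have hYX : Y ⊆ X := (Finset.filter_subset _ _).trans (Finset.filter_subset _ _)
  have hsub : Y ⊆ Z := hYX.trans (hX.trans hT)
  have h1 := pi_one hL hx hZ hxZ hT hτ hno (c x u) (hF u (hT hu)) hX hXK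
  have h2 : (X.filter fun v => u < v ∧ c u v = φ) ⊆ Y ∪ X.filter fun v => c x v = c x u := by
    intro v hv
    by_cases h : c x v = c x u
    · exact Finset.mem_union_right _ (Finset.mem_filter.mpr ⟨(Finset.mem_filter.mp hv).1, h⟩)
    · exact Finset.mem_union_left _ (Finset.mem_filter.mpr ⟨hv, h⟩)
  have h3 := (Finset.card_le_card h2).trans (Finset.card_union_le _ _)
  have hc2 : ({φ, c x u} : Finset ℕ).card = 2 := Finset.card_pair hne
  refine hno (hasJunH_of (Φ := {φ, c x u}) (X := Y) hL hZ hsub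
    (hXK.mono hYX (Finset.Subset.refl _))
    (jun_two hx (hZ (hT hu)) (hxZ u (hT hu)) rfl (fun h => hne h.symm) (hsub.trans hZ)
      fun v hv => (Finset.mem_filter.mp (Finset.mem_filter.mp hv).1).2)
    (by omega) ?_ ?_ (fun v hv => ⟨φ, fun ψ hψ hne' => ?_⟩) ?_)
  · rw [Finset.disjoint_left]
    intro a ha
    rcases Finset.mem_insert.mp ha with rfl | ha
    · exact hφ
    · rw [Finset.mem_singleton.mp ha]
      exact hF u (hT hu)
  · rw [hc2]
    omega
  · rcases Finset.mem_insert.mp hψ with h | h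
    · exact absurd h hne'
    · rw [Finset.mem_singleton.mp h]
      exact hsel u hu v (hX (hYX hv)) fun h' => (Finset.mem_filter.mp hv).2 h'.symm
  · intro ψ hψ
    rcases Finset.mem_insert.mp hψ with rfl | h
    · obtain ⟨v, hv⟩ := Finset.card_pos.mp
        (show 0 < (X.filter fun v => u < v ∧ c u v = ψ).card by omega)
      have h5 := Finset.mem_filter.mp hv
      exact ⟨u, Finset.mem_insert_of_mem (hT hu), v, Finset.mem_insert_of_mem (hT (hX h5.1)),
        h5.2.1, h5.2.2⟩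
    · rw [Finset.mem_singleton.mp h]
      exact ⟨x, Finset.mem_insert_self _ _, u, Finset.mem_insert_of_mem (hT hu), hxZ u (hT hu),
        rfl⟩

theorem pi_three (u s : ℕ) (hu : u ∈ T) (hs : s ∈ T) (hus : u < s) (hlab : c x u ≠ c x s)
    (h1 : c u s ∉ F) (h2 : c u s ≠ c x u) (h3 : c u s ≠ c x s) (hX : X ⊆ T) (hXK : Fre c X K) :
    (X.filter fun v => s < v ∧ c s v = c x s).card < 33 * τ := by
  by_contra hcon
  push Not at hcon
  set Y := (X.filter fun v => s < v ∧ c s v = c x s).filter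
    fun v => c x v ≠ c x u ∧ c x v ≠ c x s with hY
  have hYX : Y ⊆ X := (Finset.filter_subset _ _).trans (Finset.filter_subset _ _)
  have hsub : Y ⊆ Z := hYX.trans (hX.trans hT)
  have h4 := pi_one hL hx hZ hxZ hT hτ hno (c x u) (hF u (hT hu)) hX hXK
  have h5 := pi_one hL hx hZ hxZ hT hτ hno (c x s) (hF s (hT hs)) hX hXK
  have h6 : (X.filter fun v => s < v ∧ c s v = c x s) ⊆
      Y ∪ ((X.filter fun v => c x v = c x u) ∪ X.filter fun v => c x v = c x s) := by
    intro v hv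
    by_cases h : c x v = c x u
    · exact Finset.mem_union_right _ (Finset.mem_union_left _
        (Finset.mem_filter.mpr ⟨(Finset.mem_filter.mp hv).1, h⟩))
    · by_cases h' : c x v = c x s
      · exact Finset.mem_union_right _ (Finset.mem_union_right _
          (Finset.mem_filter.mpr ⟨(Finset.mem_filter.mp hv).1, h'⟩))
      · exact Finset.mem_union_left _ (Finset.mem_filter.mpr ⟨hv, h, h'⟩)
  have h7 := (Finset.card_le_card h6).trans ((Finset.card_union_le _ _).trans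
    (Nat.add_le_add_left (Finset.card_union_le _ _) _))
  have hc3 : ({c x s, c u s, c x u} : Finset ℕ).card = 3 :=
    Finset.card_eq_three.mpr ⟨_, _, _, fun h => h3 h.symm, fun h => hlab h.symm, h2, rfl⟩
  refine hno (hasJunH_of (Φ := {c x s, c u s, c x u}) (X := Y) hL hZ hsub
    (hXK.mono hYX (Finset.Subset.refl _))
    (jun_three hx (hZ (hT hu)) (hZ (hT hs)) (hxZ u (hT hu)) hus rfl rfl (fun h => h2 h.symm) hlab
      h3 (hsub.trans hZ)
      fun v hv => (Finset.mem_filter.mp (Finset.mem_filter.mp hv).1).2)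
    (by omega) ?_ ?_ (fun v hv => ⟨c u s, fun ψ hψ hne' => ?_⟩) ?_)
  · rw [Finset.disjoint_left]
    intro a ha
    simp only [Finset.mem_insert, Finset.mem_singleton] at ha
    rcases ha with rfl | rfl | rfl
    · exact hF s (hT hs)
    · exact h1
    · exact hF u (hT hu)
  · rw [hc3]
    omega
  · have h8 := (Finset.mem_filter.mp hv).2
    simp only [Finset.mem_insert, Finset.mem_singleton] at hψ
    rcases hψ with rfl | rfl | rfl
    · exact hsel s hs v (hX (hYX hv)) fun h' => h8.2 h'.symm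
    · exact absurd rfl hne'
    · exact hsel u hu v (hX (hYX hv)) fun h' => h8.1 h'.symm
  · intro ψ hψ
    simp only [Finset.mem_insert, Finset.mem_singleton] at hψ
    rcases hψ with rfl | rfl | rfl
    · exact ⟨x, Finset.mem_insert_self _ _, s, Finset.mem_insert_of_mem (hT hs), hxZ s (hT hs),
        rfl⟩
    · exact ⟨u, Finset.mem_insert_of_mem (hT hu), s, Finset.mem_insert_of_mem (hT hs), hus, rfl⟩
    · exact ⟨x, Finset.mem_insert_self _ _, u, Finset.mem_insert_of_mem (hT hu), hxZ u (hT hu),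
        rfl⟩

end

end FlashRainbow.CF
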