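import Pool.Agent.Work.MP_54723a_co.CF.NoFar
import Pool.Agent.Work.MP_54723a_co.CF.PiTrick

/-!
# Constant factor, measure route: junctions with at most one heavy colour exist  (helper18)

`far_free` (helper74, helper20's theorem) and the PI-trick (helper10) together.
-/

set_option autoImplicit false

namespace FlashRainbow.CF

open Classical

variable {c : ℕ → ℕ → ℕ} {V Z K F : Finset ℕ} {R t τ x M q : ℕ} {lev : ℕ → ℕ → ℕ}
  {Hv : ℕ → Finset ℕ}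

/-- a part of `Z` without junctions -/
theorem exists_noJun3 (hL : Lev c V 3 lev) (hx : x ∈ V) (hZV : Z ⊆ V) (hxZ : ∀ v ∈ Z, x < v)
    (hxF : ∀ v ∈ Z, c x v ∉ F) (hτ : 0 < τ) (hq : ∀ v ∈ Z, (Hv v).card ≤ q)
    (hno : ¬ HasJunH c V Z K F x τ Hv) :
    ∃ T ⊆ Z, Z.card ≤ 2 ^ (q + 1) * T.card ∧ NoJun3 c T K F x (33 * τ) := by
  obtain ⟨T, hT, hTc, hsel⟩ := pi_select c x Z Hv hq
  refine ⟨T, hT, hTc, ⟨⟨?_, ?_⟩, ?_⟩⟩
  · intro l hl X hX hXK
    have := pi_one hL hx hZV hxZ hT hτ hno l hl hX hXK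
    omega
  · intro u hu φ hφ hne X hX hXK
    have := pi_two hL hx hZV hxZ hT hτ hno hxF hsel u hu φ hφ hne hX hXK
    omega
  · intro u hu s hs hus h1 h2 h3 h4 X hX hXK
    exact pi_three hL hx hZV hxZ hT hτ hno hxF hsel u s hu hs hus h1 h4 h2 h3 hX hXK

/-- **junctions exist**: a set behind a hub without a junction (at most three colours, at most one
of them heavy at each point) is exponentially small. -/
theorem hasJunH_or_small (hL : Lev c V 3 lev) (hR : Rk c V R)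
    (hM : ∀ W ⊆ V, ∀ r ≤ R, Rk c W r → W.card * 3 ^ (R - r) ≤ M)
    (hH : Hub c V x K F) (ht : R ≤ K.card + t) (hZV : Z ⊆ V)
    (hxZ : ∀ v ∈ Z, x < v) (hxF : ∀ v ∈ Z, c x v ∉ F) (hτ : 0 < τ)
    (hq : ∀ v ∈ Z, (Hv v).card ≤ q) (hno : ¬ HasJunH c V Z K F x τ Hv) :
    Z.card * 729 ^ t ≤ 2 ^ (q + 1) * (2 * (t + 1) ^ 2 * 256 ^ t * M +
      729 ^ t * (3 ^ K.card * (bG t (33 * τ) + (8 * t ^ 2 + 1) * (33 * τ)))) := by
  obtain ⟨T, hTZ, hTc, hNJ⟩ := exists_noJun3 hL hH.mem hZV hxZ hxF hτ hq hno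
  have h1 := far_free hL hR hM hH ht (hTZ.trans hZV) (fun v hv => hxZ v (hTZ hv))
    (fun v hv => hxF v (hTZ hv)) (by omega) hNJ
  calc Z.card * 729 ^ t ≤ 2 ^ (q + 1) * T.card * 729 ^ t := Nat.mul_le_mul_right _ hTc
    _ = 2 ^ (q + 1) * (T.card * 729 ^ t) := by ring
    _ ≤ _ := Nat.mul_le_mul_left _ h1

end FlashRainbow.CF
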