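import Pool.Agent.Work.MP_54723a_co.CF.NumRich

/-!
# Constant factor: the numbers for `far_free` and `hub_next`  (helper27; copy with own names by helper74)
-/

set_option autoImplicit false

namespace FlashRainbow.CF

/-- the bound `bG t T + (8 t ^ 2 + 1) T` of `far_free`, written out -/
theorem far_poly_a {t T : ℕ} (hT : 1 ≤ T) :
    (1 + (t + 1) * ((t + 2) * T + 1)) + (8 * t ^ 2 + 1) * T ≤ 10 * (t + 1) ^ 2 * T := by
  have h1 : 1 + (t + 1) ≤ (1 + (t + 1)) * T := Nat.le_mul_of_pos_right _ hT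
  calc (1 + (t + 1) * ((t + 2) * T + 1)) + (8 * t ^ 2 + 1) * T
      = (1 + (t + 1)) + ((t + 1) * (t + 2) + (8 * t ^ 2 + 1)) * T := by ring
    _ ≤ (1 + (t + 1)) * T + ((t + 1) * (t + 2) + (8 * t ^ 2 + 1)) * T :=
        Nat.add_le_add_right h1 _
    _ = ((1 + (t + 1)) + ((t + 1) * (t + 2) + (8 * t ^ 2 + 1))) * T := by ring
    _ ≤ 10 * (t + 1) ^ 2 * T := by
        refine Nat.mul_le_mul_right _ ?_
        nlinarith [Nat.zero_le t]

/-- **NUMBERS FOR `far_free`** with `τ := 33 τ` -/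
theorem far_num_a {t b K R M z : ℕ} (ht : 16384 ≤ t) (hb : 8 * b ≤ t) (hR : R = K + t)
    (h3 : 3 ^ R ≤ M) (hz : M ≤ 2 ^ b * z) :
    ∃ τ, 8 ≤ τ ∧ M ≤ 2 ^ (b + 2 * Nat.log 2 (t + 1) + 13) * (τ * 3 ^ (R - t)) ∧
      2 * (t + 1) ^ 2 * 256 ^ t * M + 729 ^ t * (3 ^ K * ((1 + (t + 1) * ((t + 2) * (33 * τ) + 1)) +
        (8 * t ^ 2 + 1) * (33 * τ))) < z * 729 ^ t := by
  obtain ⟨L, hL⟩ : ∃ L, L = Nat.log 2 (t + 1) := ⟨_, rfl⟩
  have h0 := log_small ht
  rw [← hL] at h0 ⊢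
  have h1 : t + 1 < 2 ^ (L + 1) := by
    rw [hL]
    exact Nat.lt_pow_succ_log_self (by norm_num) _
  have h2 : (t + 1) ^ 2 ≤ 2 ^ (2 * L + 2) := by
    calc (t + 1) ^ 2 ≤ (2 ^ (L + 1)) ^ 2 := Nat.pow_le_pow_left h1.le 2
      _ = 2 ^ (2 * L + 2) := by
          rw [← pow_mul]
          congr 1
          ring
  have hz0 : 0 < z := by
    rcases Nat.eq_zero_or_pos z with h | h
    · rw [h, Nat.mul_zero] at hz
      have : 0 < 3 ^ R := by positivity
      omega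
    · exact h
  have hRt : R - t = K := by omega
  rw [hRt]
  -- the divisor
  obtain ⟨N, hN⟩ : ∃ N, N = 660 * (t + 1) ^ 2 * 3 ^ K := ⟨_, rfl⟩
  have hNpos : 0 < N := by rw [hN]; positivity
  have hN2 : N ≤ 2 ^ (2 * L + 12) * 3 ^ K := by
    rw [hN]
    refine Nat.mul_le_mul_right _ ?_
    calc 660 * (t + 1) ^ 2 ≤ 2 ^ 10 * 2 ^ (2 * L + 2) := Nat.mul_le_mul (by norm_num) h2
      _ = 2 ^ (2 * L + 12) := by
          rw [← pow_add]
          congr 1
          ring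
  obtain ⟨τ, hτ⟩ : ∃ τ, τ = z / N := ⟨_, rfl⟩
  have hτ1 : N * τ ≤ z := by
    rw [hτ]
    exact Nat.mul_div_le z N
  have hτ2 : z < N * (τ + 1) := by
    rw [hτ]
    exact Nat.lt_mul_div_succ z hNpos
  have h8 : 8 ≤ τ := by
    rw [hτ, Nat.le_div_iff_mul_le hNpos]
    have h4 : 2 ^ b * (8 * N) ≤ 2 ^ b * z := by
      calc 2 ^ b * (8 * N) ≤ 2 ^ b * (8 * (2 ^ (2 * L + 12) * 3 ^ K)) :=
            Nat.mul_le_mul_left _ (Nat.mul_le_mul_left _ hN2)
        _ = 2 ^ (b + 2 * L + 15) * 3 ^ K := by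
            rw [show (8 : ℕ) = 2 ^ 3 by norm_num, show b + 2 * L + 15 = b + (3 + (2 * L + 12)) by
              ring, pow_add 2 b, pow_add 2 3]
            ring
        _ ≤ 2 ^ t * 3 ^ K := by
            refine Nat.mul_le_mul_right _ (Nat.pow_le_pow_right (by norm_num) ?_)
            omega
        _ ≤ 3 ^ t * 3 ^ K := Nat.mul_le_mul_right _ (Nat.pow_le_pow_left (by norm_num) t)
        _ = 3 ^ R := by
            rw [← pow_add, hR]
            congr 1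
            ring
        _ ≤ 2 ^ b * z := h3.trans hz
    exact Nat.le_of_mul_le_mul_left h4 (by positivity)
  refine ⟨τ, h8, ?_, ?_⟩
  · calc M ≤ 2 ^ b * z := hz
      _ ≤ 2 ^ b * (N * (2 * τ)) := by
          refine Nat.mul_le_mul_left _ (hτ2.le.trans (Nat.mul_le_mul_left _ (by omega)))
      _ ≤ 2 ^ b * (2 ^ (2 * L + 12) * 3 ^ K * (2 * τ)) :=
          Nat.mul_le_mul_left _ (Nat.mul_le_mul_right _ hN2)
      _ = 2 ^ (b + 2 * L + 13) * (τ * 3 ^ K) := by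
          rw [show b + 2 * L + 13 = b + ((2 * L + 12) + 1) by ring, pow_add 2 b, pow_succ]
          ring
  · have hA : 2 * (2 * (t + 1) ^ 2 * 256 ^ t * M) < z * 729 ^ t := by
      calc 2 * (2 * (t + 1) ^ 2 * 256 ^ t * M)
          ≤ 2 * (2 * 2 ^ (2 * L + 2) * 256 ^ t * (2 ^ b * z)) :=
            Nat.mul_le_mul_left _ (Nat.mul_le_mul (Nat.mul_le_mul_right _
              (Nat.mul_le_mul_left _ h2)) hz)
        _ = 2 ^ (b + 2 * L + 4) * 256 ^ t * z := by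
            rw [show b + 2 * L + 4 = b + ((2 * L + 2) + 2) by ring, pow_add 2 b, pow_add 2 (2 * L + 2)]
            ring
        _ ≤ 2 ^ t * 256 ^ t * z := by
            refine Nat.mul_le_mul_right _ (Nat.mul_le_mul_right _
              (Nat.pow_le_pow_right (by norm_num) ?_))
            omega
        _ = 512 ^ t * z := by
            rw [← Nat.mul_pow]
        _ < 729 ^ t * z := by
            refine Nat.mul_lt_mul_of_pos_right (Nat.pow_lt_pow_left (by norm_num) (by omega)) hz0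
        _ = z * 729 ^ t := Nat.mul_comm _ _
    have hB : 2 * (729 ^ t * (3 ^ K * ((1 + (t + 1) * ((t + 2) * (33 * τ) + 1)) +
        (8 * t ^ 2 + 1) * (33 * τ)))) ≤ z * 729 ^ t := by
      have h5 := far_poly_a (t := t) (T := 33 * τ) (by omega)
      calc 2 * (729 ^ t * (3 ^ K * ((1 + (t + 1) * ((t + 2) * (33 * τ) + 1)) +
            (8 * t ^ 2 + 1) * (33 * τ))))
          ≤ 2 * (729 ^ t * (3 ^ K * (10 * (t + 1) ^ 2 * (33 * τ)))) :=
            Nat.mul_le_mul_left _ (Nat.mul_le_mul_left _ (Nat.mul_le_mul_left _ h5))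
        _ = N * τ * 729 ^ t := by
            rw [hN]
            ring
        _ ≤ z * 729 ^ t := Nat.mul_le_mul_right _ hτ1
    omega

/-- **NUMBERS FOR `hub_next`** -/
theorem hub_num_a {t q m : ℕ} (ht : 16384 ≤ t) (hq : 133 * q + 4000 ≤ t) (hm : 20 * m ≤ t) :
    ∃ s : ℕ, s + 4 ≤ t ∧ 16 * (t + 1) * 2 ^ q ≤ 3 ^ s ∧ 6 + 2 * (q + (48 * s + 91)) + 7 * m < t := by
  obtain ⟨L, hL⟩ : ∃ L, L = Nat.log 2 (t + 1) := ⟨_, rfl⟩
  have h0 := log_small ht
  rw [← hL] at h0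
  have h1 : t + 1 < 2 ^ (L + 1) := by
    rw [hL]
    exact Nat.lt_pow_succ_log_self (by norm_num) _
  obtain ⟨j, hj⟩ : ∃ j, j = (q + L + 5) / 3 + 1 := ⟨_, rfl⟩
  have hj1 : q + L + 5 ≤ 3 * j := by omega
  have hj2 : 3 * j ≤ q + L + 8 := by omega
  refine ⟨2 * j, by omega, ?_, by omega⟩
  calc 16 * (t + 1) * 2 ^ q ≤ 16 * 2 ^ (L + 1) * 2 ^ q :=
        Nat.mul_le_mul_right _ (Nat.mul_le_mul_left _ h1.le)
    _ = 2 ^ (q + L + 5) := by
        rw [show (16 : ℕ) = 2 ^ 4 by norm_num, ← pow_add, ← pow_add]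
        congr 1
        ring
    _ ≤ 2 ^ (3 * j) := Nat.pow_le_pow_right (by norm_num) hj1
    _ = 8 ^ j := by rw [pow_mul]; norm_num
    _ ≤ 9 ^ j := Nat.pow_le_pow_left (by norm_num) j
    _ = 3 ^ (2 * j) := by rw [pow_mul]; norm_num

end FlashRainbow.CF
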