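import Pool.Agent.Work.MP_54723a_co.CF.H1

/-!
# Constant factor, measure route: counting OUT-cliques (helper93)

Block H4 of the split: in a zone `Z` behind a hub `x`, labels `f v = c x v`, if almost all pairs
`u < v` of `Z` are coloured `f u` or `f v` (labels different), then `Z` is small.
-/

set_option autoImplicit false

namespace FlashRainbow.CF

open Classical

variable {c : ℕ → ℕ → ℕ} {V T W U X Z K F Φ E S : Finset ℕ} {l R r C p q d e t τ x : ℕ}
  {lev : ℕ → ℕ → ℕ}

/-- functions with a prescribed set of restrictions -/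
theorem count_fiber {n a : ℕ} (e : Fin a → Fin n) (he : Function.Injective e) (Z : Finset ℕ)
    (H : Finset (Fin a → ℕ)) :
    ((Fintype.piFinset (fun _ : Fin n => Z)).filter (fun g => g ∘ e ∈ H)).card ≤
      H.card * Z.card ^ (n - a) := by
  have h1 : Fintype.card {k : Fin n // k ∉ Set.range e} = n - a := by
    rw [Fintype.card_subtype_compl, Fintype.card_fin]
    congr 1
    have := Set.card_range_of_injective he
    rw [Fintype.card_fin] at this
    convert this
  have h2 : (H ×ˢ Fintype.piFinset (fun _ : {k : Fin n // k ∉ Set.range e} => Z)).card =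
      H.card * Z.card ^ (n - a) := by
    rw [Finset.card_product, Fintype.card_piFinset, Finset.prod_const, Finset.card_univ, h1]
  rw [← h2]
  refine Finset.card_le_card_of_injOn
    (fun g => (g ∘ e, fun k : {k : Fin n // k ∉ Set.range e} => g k.1)) ?_ ?_
  · intro g hg
    have hg' := Finset.mem_filter.mp hg
    refine Finset.mem_product.mpr ⟨hg'.2, ?_⟩
    rw [Fintype.mem_piFinset]
    intro k
    exact (Fintype.mem_piFinset.mp hg'.1) k.1
  · intro g _ g' _ hgg'
    have h3 := (Prod.mk.inj hgg').1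
    have h4 := (Prod.mk.inj hgg').2
    funext k
    by_cases hk : k ∈ Set.range e
    · obtain ⟨i, rfl⟩ := hk
      exact congrFun h3 i
    · exact congrFun h4 ⟨k, hk⟩

/-- `h` is an increasing OUT-clique of `Z` -/
def OutSq (c : ℕ → ℕ → ℕ) (x : ℕ) {a : ℕ} (h : Fin a → ℕ) : Prop :=
  ∀ i j, i < j → h i < h j ∧ c x (h i) ≠ c x (h j) ∧ c (h i) (h j) = c x (h i)

noncomputable def outC (c : ℕ → ℕ → ℕ) (x : ℕ) (Z : Finset ℕ) (a : ℕ) : Finset (Fin a → ℕ) :=
  (Fintype.piFinset (fun _ : Fin a => Z)).filter (fun h => OutSq c x h)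

/-- the common OUT-neighbours of an OUT-clique -/
noncomputable def outN (c : ℕ → ℕ → ℕ) (x : ℕ) (Z : Finset ℕ) {a : ℕ} (h : Fin a → ℕ) : Finset ℕ :=
  Z.filter fun y => ∀ i, h i < y ∧ c x (h i) ≠ c x y ∧ c (h i) y = c x (h i)

theorem outC_succ (a : ℕ) {N : ℕ}
    (hN : ∀ h ∈ outC c x Z a, (outN c x Z h).card ≤ N) :
    (outC c x Z (a + 1)).card ≤ (outC c x Z a).card * N := by
  have h1 : (outC c x Z (a + 1)).card ≤
      ((outC c x Z a).sigma (fun h => outN c x Z h)).card := by
    refine Finset.card_le_card_of_injOn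
      (fun g => (⟨fun i => g i.castSucc, g (Fin.last a)⟩ : (_ : Fin a → ℕ) × ℕ)) ?_ ?_
    · intro g hg
      have hg' := Finset.mem_filter.mp hg
      have hg1 := Fintype.mem_piFinset.mp hg'.1
      refine Finset.mem_sigma.mpr ⟨Finset.mem_filter.mpr ⟨?_, ?_⟩, Finset.mem_filter.mpr ⟨?_, ?_⟩⟩
      · rw [Fintype.mem_piFinset]
        exact fun i => hg1 i.castSucc
      · intro i j hij
        exact hg'.2 i.castSucc j.castSucc (by exact_mod_cast hij)
      · exact hg1 (Fin.last a)
      · intro i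
        exact hg'.2 i.castSucc (Fin.last a) (Fin.castSucc_lt_last i)
    · intro g _ g' _ hgg'
      simp only [Sigma.mk.injEq, heq_eq_eq] at hgg'
      funext k
      refine Fin.lastCases ?_ (fun i => ?_) k
      · exact hgg'.2
      · exact congrFun hgg'.1 i
  refine h1.trans ?_
  rw [Finset.card_sigma]
  refine (Finset.sum_le_card_nsmul _ _ N hN).trans ?_
  rw [smul_eq_mul]

/-- the path through an OUT-clique -/
theorem OutSq.path {a : ℕ} : ∀ (h : Fin a → ℕ) (y : ℕ), (∀ i, h i ∈ V) → y ∈ V → OutSq c x h →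
    (∀ i, h i < y ∧ c (h i) y = c x (h i)) →
    RP c V y (Finset.univ.image (fun i => c x (h i))) := by
  induction a with
  | zero =>
    intro h y _ hy _ _
    have : (Finset.univ.image (fun i : Fin 0 => c x (h i))) = ∅ := by
      rw [Finset.image_eq_empty]
      rfl
    rw [this]
    exact RP.single hy
  | succ a ih =>
    intro h y hV hy hC hN
    have h1 := ih (fun i => h i.castSucc) (h (Fin.last a)) (fun i => hV _) (hV _)
      (fun i j hij => hC i.castSucc j.castSucc (by exact_mod_cast hij))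
      (fun i => ⟨(hC i.castSucc (Fin.last a) (Fin.castSucc_lt_last i)).1,
        (hC i.castSucc (Fin.last a) (Fin.castSucc_lt_last i)).2.2⟩)
    have h2 : c (h (Fin.last a)) y ∉ Finset.univ.image (fun i : Fin a => c x (h i.castSucc)) := by
      rw [(hN (Fin.last a)).2]
      intro hm
      obtain ⟨i, _, hi⟩ := Finset.mem_image.mp hm
      exact (hC i.castSucc (Fin.last a) (Fin.castSucc_lt_last i)).2.1 hi
    have h3 := RP.step h1 hy (hN (Fin.last a)).1 h2
    have h4 : insert (c (h (Fin.last a)) y) (Finset.univ.image (fun i : Fin a => c x (h i.castSucc)))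
        = Finset.univ.image (fun i => c x (h i)) := by
      ext z
      rw [(hN (Fin.last a)).2]
      simp only [Finset.mem_insert, Finset.mem_image, Finset.mem_univ, true_and]
      constructor
      · rintro (rfl | ⟨i, hi⟩)
        · exact ⟨_, rfl⟩
        · exact ⟨_, hi⟩
      · rintro ⟨i, hi⟩
        refine Fin.lastCases (fun hi => Or.inl hi.symm) (fun i hi => Or.inr ⟨i, hi⟩) i hi
    rw [h4] at h3
    exact h3

theorem OutSq.card_labels {a : ℕ} {h : Fin a → ℕ} (hC : OutSq c x h) :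
    (Finset.univ.image (fun i => c x (h i))).card = a := by
  rw [Finset.card_image_of_injective, Finset.card_univ, Fintype.card_fin]
  intro i j hij
  by_contra hne
  rcases lt_or_gt_of_ne hne with h1 | h1
  · exact (hC i j h1).2.1 hij
  · exact (hC j i h1).2.1 hij.symm

/-- the common OUT-neighbours are few -/
theorem outN_le {a M : ℕ} (hL : Lev c V 3 lev) (hR : Rk c V R)
    (hM : ∀ W ⊆ V, ∀ r ≤ R, Rk c W r → W.card * 3 ^ (R - r) ≤ M)
    (hx : x ∈ V) (hZ : Z ⊆ V) (hxZ : ∀ v ∈ Z, x < v) {h : Fin a → ℕ} (hh : h ∈ outC c x Z a) :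
    (outN c x Z h).card * 3 ^ a ≤ M := by
  have hh' := Finset.mem_filter.mp hh
  have hhZ : ∀ i, h i ∈ Z := Fintype.mem_piFinset.mp hh'.1
  have hC := hh'.2
  have hYV : outN c x Z h ⊆ V := (Finset.filter_subset _ _).trans hZ
  have hpath : ∀ y ∈ outN c x Z h, RP c V y (Finset.univ.image (fun i => c x (h i))) := by
    intro y hy
    have hy' := (Finset.mem_filter.mp hy).2
    exact hC.path h y (fun i => hZ (hhZ i)) (hYV hy) (fun i => ⟨(hy' i).1, (hy' i).2.2⟩)
  rcases Finset.eq_empty_or_nonempty (outN c x Z h) with he | ⟨y0, hy0⟩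
  · rw [he, Finset.card_empty, Nat.zero_mul]
    exact Nat.zero_le _
  have haR : a ≤ R := by
    have := hR _ _ (hpath y0 hy0)
    rw [hC.card_labels] at this
    exact this
  have hfree : Fre c (outN c x Z h) (Finset.univ.image (fun i => c x (h i))) := by
    intro γ hγ u hu v hv huv he
    obtain ⟨i, _, rfl⟩ := Finset.mem_image.mp hγ
    have hu' := (Finset.mem_filter.mp hu).2 i
    have h1 := hL.up x hx (h i) (hZ (hhZ i)) (hxZ _ (hhZ i))
    have h2 := hL.up (h i) (hZ (hhZ i)) u (hYV hu) hu'.1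
    have h3 := hL.up u (hYV hu) v (hYV hv) huv
    rw [hu'.2.2] at h2
    rw [he] at h3
    have h4 := hL.lt (c x (h i)) v (hYV hv)
    omega
  have hrk : Rk c (outN c x Z h) (R - a) := by
    intro y D hD
    have h1 := hR _ _ (hD.prepend hYV hpath hfree)
    have h4 : Disjoint D (Finset.univ.image (fun i => c x (h i))) := by
      rw [Finset.disjoint_right]
      intro γ hγ
      exact hD.notMem_of_free (hfree γ hγ)
    rw [Finset.card_union_of_disjoint h4, hC.card_labels] at h1
    omega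
  have h5 := hM _ hYV (R - a) (Nat.sub_le _ _) hrk
  rw [Nat.sub_sub_self haR] at h5
  exact h5

theorem outC_card_le {M : ℕ} (hL : Lev c V 3 lev) (hR : Rk c V R)
    (hM : ∀ W ⊆ V, ∀ r ≤ R, Rk c W r → W.card * 3 ^ (R - r) ≤ M)
    (hx : x ∈ V) (hZ : Z ⊆ V) (hxZ : ∀ v ∈ Z, x < v) (a : ℕ) :
    (outC c x Z a).card * 3 ^ (∑ i ∈ Finset.range a, i) ≤ M ^ a := by
  induction a with
  | zero =>
    have h1 : (outC c x Z 0).card ≤ 1 := by
      refine (Finset.card_filter_le _ _).trans ?_
      rw [Fintype.card_piFinset]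
      simp
    simpa using h1
  | succ a ih =>
    have h1 := outC_succ (c := c) (x := x) (Z := Z) a (N := M / 3 ^ a) (fun h hh => by
      rw [Nat.le_div_iff_mul_le (by positivity)]
      exact outN_le hL hR hM hx hZ hxZ hh)
    rw [Finset.sum_range_succ, pow_add]
    calc (outC c x Z (a + 1)).card * (3 ^ (∑ i ∈ Finset.range a, i) * 3 ^ a)
        ≤ ((outC c x Z a).card * (M / 3 ^ a)) * (3 ^ (∑ i ∈ Finset.range a, i) * 3 ^ a) :=
          Nat.mul_le_mul_right _ h1
      _ = ((outC c x Z a).card * 3 ^ (∑ i ∈ Finset.range a, i)) * (M / 3 ^ a * 3 ^ a) := by ring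
      _ ≤ M ^ a * M := Nat.mul_le_mul ih (Nat.div_mul_le_self _ _)
      _ = M ^ (a + 1) := (pow_succ _ _).symm

/-- a set without bad pairs contains a large OUT-clique -/
theorem exists_out_clique {t B : ℕ} (hR : Rk c V R) (hH : Hub c V x K F) (ht : R ≤ K.card + t)
    (hS : S ⊆ V) (hxS : ∀ v ∈ S, x < v) (hK : ∀ v ∈ S, c x v ∉ K)
    (hgood : ∀ u ∈ S, ∀ v ∈ S, u < v → c x u ≠ c x v ∧ (c u v = c x u ∨ c u v = c x v))
    (hn : 2 * B * t < S.card) :
    ∃ C ⊆ S, C.card = 2 * B + 1 ∧ ∀ u ∈ C, ∀ v ∈ C, u < v → c u v = c x u := by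
  -- paths of IN-arcs
  let IP : ℕ → ℕ → Prop := fun s a => ∃ D, D.card = a ∧ Disjoint D K ∧
    (∀ γ ∈ D, ∃ s' ∈ S, s' ≤ s ∧ γ = c x s') ∧ RP c V s (K ∪ D)
  have hIP1 : ∀ s ∈ S, IP s 1 := by
    intro s hs
    refine ⟨{c x s}, Finset.card_singleton _, Finset.disjoint_singleton_left.mpr (hK s hs), ?_, ?_⟩
    · intro γ hγ
      exact ⟨s, hs, le_refl _, Finset.mem_singleton.mp hγ⟩
    · have := RP.step (hH.2 K hH.1 (le_refl _)) (hS hs) (hxS s hs) (hK s hs)
      rw [Finset.union_comm, ← Finset.insert_eq]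
      exact this
  have hIPt : ∀ s a, IP s a → a ≤ t := by
    rintro s a ⟨D, h1, h2, _, h4⟩
    have := hR _ _ h4
    rw [Finset.card_union_of_disjoint h2.symm] at this
    omega
  have hIPs : ∀ s ∈ S, ∀ s' ∈ S, s < s' → c s s' = c x s' → ∀ a, IP s a → IP s' (a + 1) := by
    rintro s hs s' hs' hlt he a ⟨D, h1, h2, h3, h4⟩
    have h5 : c x s' ∉ D := by
      intro hm
      obtain ⟨s'', hs'', hle, he'⟩ := h3 _ hm
      exact (hgood s'' hs'' s' hs' (lt_of_le_of_lt hle hlt)).1 he'.symm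
    refine ⟨insert (c x s') D, ?_, ?_, ?_, ?_⟩
    · rw [Finset.card_insert_of_notMem h5, h1]
    · rw [Finset.disjoint_insert_left]
      exact ⟨hK s' hs', h2⟩
    · intro γ hγ
      rcases Finset.mem_insert.mp hγ with rfl | hγ
      · exact ⟨s', hs', le_refl _, rfl⟩
      · obtain ⟨s'', hs'', hle, he'⟩ := h3 _ hγ
        exact ⟨s'', hs'', hle.trans hlt.le, he'⟩
    · have h6 := RP.step h4 (hS hs') hlt (by
        rw [he, Finset.mem_union, not_or]
        exact ⟨hK s' hs', h5⟩)
      rw [he, ← Finset.union_insert] at h6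
      exact h6
  let β : ℕ → ℕ := fun s => Nat.findGreatest (fun a => IP s a) t
  have hβ1 : ∀ s ∈ S, IP s (β s) := by
    intro s hs
    have h1 := hIP1 s hs
    exact Nat.findGreatest_spec (P := fun a => IP s a) (hIPt s 1 h1) h1
  have hβ2 : ∀ s ∈ S, β s ∈ Finset.Icc 1 t := by
    intro s hs
    rw [Finset.mem_Icc]
    have h1 := hIP1 s hs
    exact ⟨Nat.le_findGreatest (P := fun a => IP s a) (hIPt s 1 h1) h1,
      Nat.findGreatest_le _⟩
  obtain ⟨b, _, hb⟩ := Finset.exists_lt_card_fiber_of_mul_lt_card_of_maps_to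
    (s := S) (t := Finset.Icc 1 t) (f := β) (n := 2 * B) hβ2 (by
      rw [Nat.card_Icc, Nat.add_sub_cancel, Nat.mul_comm]
      exact hn)
  obtain ⟨C, hC1, hC2⟩ := Finset.exists_subset_card_eq (Nat.succ_le_of_lt hb)
  refine ⟨C, hC1.trans (Finset.filter_subset _ _), hC2, ?_⟩
  intro u hu v hv huv
  have hu' := Finset.mem_filter.mp (hC1 hu)
  have hv' := Finset.mem_filter.mp (hC1 hv)
  rcases (hgood u hu'.1 v hv'.1 huv).2 with h1 | h1
  · exact h1
  · exfalso
    have h2 := hIPs u hu'.1 v hv'.1 huv h1 _ (hβ1 u hu'.1)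
    have h3 : β u + 1 ≤ β v := Nat.le_findGreatest (P := fun a => IP v a) (hIPt _ _ h2) h2
    rw [hu'.2, hv'.2] at h3
    omega

/-- the exceptional pairs: equal labels, or the colour is none of the two labels -/
noncomputable def badP (c : ℕ → ℕ → ℕ) (x : ℕ) (Z : Finset ℕ) : Finset (ℕ × ℕ) :=
  (Z ×ˢ Z).filter fun p => p.1 < p.2 ∧
    (c x p.1 = c x p.2 ∨ (c p.1 p.2 ≠ c x p.1 ∧ c p.1 p.2 ≠ c x p.2))

/-- **H4, counting form**: a zone behind a hub in which few pairs are exceptional is small. -/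
theorem out_count {t B n M : ℕ} (hL : Lev c V 3 lev) (hR : Rk c V R) (hH : Hub c V x K F)
    (ht : R ≤ K.card + t) (ht1 : 1 ≤ t)
    (hM : ∀ W ⊆ V, ∀ r ≤ R, Rk c W r → W.card * 3 ^ (R - r) ≤ M)
    (hZ : Z ⊆ V) (hxZ : ∀ v ∈ Z, x < v) (hK : ∀ v ∈ Z, c x v ∉ K)
    (hn : n = 2 * B * t + 1)
    (hbad : 2 * n ^ 2 * ((badP c x Z).card + Z.card) ≤ Z.card ^ 2) :
    3 ^ B * Z.card ≤ 2 * n * M := by
  rcases Nat.eq_zero_or_pos Z.card with hZ0 | hZ0
  · rw [hZ0]
    simp
  have hAn : 2 * B + 1 ≤ n := by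
    rw [hn]
    have : 2 * B * 1 ≤ 2 * B * t := Nat.mul_le_mul_left _ ht1
    omega
  let P : Finset (Fin n → ℕ) := Fintype.piFinset (fun _ : Fin n => Z)
  have hPc : P.card = Z.card ^ n := by
    rw [Fintype.card_piFinset, Finset.prod_const, Finset.card_univ, Fintype.card_fin]
  let H2 : Finset (Fin 2 → ℕ) := (badP c x Z).image (fun p => ![p.1, p.2]) ∪
    Z.image (fun u => ![u, u])
  have hH2 : H2.card ≤ (badP c x Z).card + Z.card :=
    (Finset.card_union_le _ _).trans (Nat.add_le_add Finset.card_image_le Finset.card_image_le)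
  let G : Finset (Fin n → ℕ) := P.filter fun g => ∀ i j, i ≠ j → g ∘ ![i, j] ∉ H2
  -- few tuples are not good
  have hcov : P ⊆ G ∪ (Finset.univ : Finset (Fin n)).offDiag.biUnion
      (fun ij => P.filter fun g => g ∘ ![ij.1, ij.2] ∈ H2) := by
    intro g hg
    by_cases h1 : ∀ i j, i ≠ j → g ∘ ![i, j] ∉ H2
    · exact Finset.mem_union_left _ (Finset.mem_filter.mpr ⟨hg, h1⟩)
    · push Not at h1
      obtain ⟨i, j, hij, h2⟩ := h1
      refine Finset.mem_union_right _ (Finset.mem_biUnion.mpr ⟨(i, j), ?_, ?_⟩)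
      · rw [Finset.mem_offDiag]
        exact ⟨Finset.mem_univ _, Finset.mem_univ _, hij⟩
      · exact Finset.mem_filter.mpr ⟨hg, h2⟩
  have hX : 2 * ((Finset.univ : Finset (Fin n)).offDiag.biUnion
      (fun ij => P.filter fun g => g ∘ ![ij.1, ij.2] ∈ H2)).card ≤ Z.card ^ n := by
    have h1 : ((Finset.univ : Finset (Fin n)).offDiag.biUnion
        (fun ij => P.filter fun g => g ∘ ![ij.1, ij.2] ∈ H2)).card ≤
        (Finset.univ : Finset (Fin n)).offDiag.card * (H2.card * Z.card ^ (n - 2)) := by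
      refine Finset.card_biUnion_le_card_mul _ _ _ (fun ij hij => ?_)
      rw [Finset.mem_offDiag] at hij
      refine count_fiber (n := n) (a := 2) ![ij.1, ij.2] ?_ Z H2
      intro a b hab
      fin_cases a <;> fin_cases b
      · rfl
      · exact absurd hab hij.2.2
      · exact absurd hab.symm hij.2.2
      · rfl
    rw [Finset.offDiag_card, Finset.card_univ, Fintype.card_fin] at h1
    rcases Nat.lt_or_ge n 2 with h2 | h2
    · have h3 : n = 1 := by omega
      have h4 : n * n - n = 0 := by rw [h3]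
      rw [h4, Nat.zero_mul] at h1
      omega
    · calc 2 * ((Finset.univ : Finset (Fin n)).offDiag.biUnion
            (fun ij => P.filter fun g => g ∘ ![ij.1, ij.2] ∈ H2)).card
          ≤ 2 * ((n * n - n) * (H2.card * Z.card ^ (n - 2))) := Nat.mul_le_mul_left _ h1
        _ ≤ 2 * (n ^ 2 * (((badP c x Z).card + Z.card) * Z.card ^ (n - 2))) := by
            refine Nat.mul_le_mul_left _ (Nat.mul_le_mul ?_ (Nat.mul_le_mul_right _ hH2))
            rw [sq]
            exact Nat.sub_le _ _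
        _ = (2 * n ^ 2 * ((badP c x Z).card + Z.card)) * Z.card ^ (n - 2) := by ring
        _ ≤ Z.card ^ 2 * Z.card ^ (n - 2) := Nat.mul_le_mul_right _ hbad
        _ = Z.card ^ n := by rw [← pow_add]; congr 1; omega
  have hG1 : Z.card ^ n ≤ 2 * G.card := by
    have h1 := (Finset.card_le_card hcov).trans (Finset.card_union_le _ _)
    rw [hPc] at h1
    omega
  -- good tuples contain OUT-cliques
  have hG2 : G ⊆ (Finset.univ.filter (fun e : Fin (2 * B + 1) → Fin n =>
      Function.Injective e)).biUnion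
      (fun e => P.filter fun g => g ∘ e ∈ outC c x Z (2 * B + 1)) := by
    intro g hg
    have hg' := Finset.mem_filter.mp hg
    have hgZ : ∀ i, g i ∈ Z := Fintype.mem_piFinset.mp hg'.1
    have hvec : ∀ i j, g ∘ ![i, j] = ![g i, g j] := by
      intro i j
      funext k
      fin_cases k <;> rfl
    have hinj : Function.Injective g := by
      intro i j hij
      by_contra hne
      refine hg'.2 i j hne (Finset.mem_union_right _ (Finset.mem_image.mpr ⟨g i, hgZ i, ?_⟩))
      rw [hvec, ← hij]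
    have hgood : ∀ u ∈ Finset.univ.image g, ∀ v ∈ Finset.univ.image g, u < v →
        c x u ≠ c x v ∧ (c u v = c x u ∨ c u v = c x v) := by
      intro u hu v hv huv
      obtain ⟨i, _, rfl⟩ := Finset.mem_image.mp hu
      obtain ⟨j, _, rfl⟩ := Finset.mem_image.mp hv
      have hij : i ≠ j := by
        rintro rfl
        exact lt_irrefl _ huv
      by_contra hcon
      refine hg'.2 i j hij (Finset.mem_union_left _ (Finset.mem_image.mpr
        ⟨(g i, g j), Finset.mem_filter.mpr ⟨Finset.mem_product.mpr ⟨hgZ i, hgZ j⟩, huv, ?_⟩, ?_⟩))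
      · by_contra h3
        push Not at h3
        refine hcon ⟨h3.1, ?_⟩
        by_cases h4 : c (g i) (g j) = c x (g i)
        · exact Or.inl h4
        · exact Or.inr (h3.2 h4)
      · exact (hvec i j).symm
    have hSZ : Finset.univ.image g ⊆ Z := by
      intro v hv
      obtain ⟨i, _, rfl⟩ := Finset.mem_image.mp hv
      exact hgZ i
    obtain ⟨C, hC1, hC2, hC3⟩ := exists_out_clique (B := B) hR hH ht (hSZ.trans hZ)
      (fun v hv => hxZ v (hSZ hv)) (fun v hv => hK v (hSZ hv)) hgood (by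
        rw [Finset.card_image_of_injective _ hinj, Finset.card_univ, Fintype.card_fin]
        omega)
    let h := C.orderEmbOfFin hC2
    have hhC : ∀ i, h i ∈ C := fun i => C.orderEmbOfFin_mem hC2 i
    have hex : ∀ i, ∃ k, g k = h i := by
      intro i
      obtain ⟨k, _, hk⟩ := Finset.mem_image.mp (hC1 (hhC i))
      exact ⟨k, hk⟩
    choose e he using hex
    refine Finset.mem_biUnion.mpr ⟨e, Finset.mem_filter.mpr ⟨Finset.mem_univ _, ?_⟩,
      Finset.mem_filter.mpr ⟨hg'.1, Finset.mem_filter.mpr ⟨?_, ?_⟩⟩⟩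
    · intro i j hij
      have h1 : h i = h j := by rw [← he i, ← he j, hij]
      exact h.injective h1
    · rw [Fintype.mem_piFinset]
      exact fun i => hgZ (e i)
    · intro i j hij
      have h1 : h i < h j := h.strictMono hij
      have h2 := hgood (h i) (hC1 (hhC i)) (h j) (hC1 (hhC j)) h1
      have h3 := hC3 (h i) (hhC i) (h j) (hhC j) h1
      simp only [Function.comp_apply, he]
      exact ⟨h1, h2.1, h3⟩
  have hG3 : G.card ≤ n ^ (2 * B + 1) * ((outC c x Z (2 * B + 1)).card *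
      Z.card ^ (n - (2 * B + 1))) := by
    refine (Finset.card_le_card hG2).trans ((Finset.card_biUnion_le_card_mul _ _ _
      (fun e he => count_fiber e (Finset.mem_filter.mp he).2 Z _)).trans
      (Nat.mul_le_mul_right _ ?_))
    refine (Finset.card_filter_le _ _).trans ?_
    rw [Finset.card_univ, Fintype.card_fun, Fintype.card_fin, Fintype.card_fin]
  have hO := outC_card_le (c := c) (x := x) hL hR hM hH.mem hZ hxZ (2 * B + 1)
  have hsum : ∑ i ∈ Finset.range (2 * B + 1), i = B * (2 * B + 1) := by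
    have h1 := Finset.sum_range_id_mul_two (2 * B + 1)
    have h2 : (2 * B + 1) * (2 * B + 1 - 1) = B * (2 * B + 1) * 2 := by
      rw [Nat.add_sub_cancel]
      ring
    omega
  rw [hsum] at hO
  have h1 : Z.card ^ (2 * B + 1) * Z.card ^ (n - (2 * B + 1)) ≤
      (2 * n ^ (2 * B + 1) * (outC c x Z (2 * B + 1)).card) * Z.card ^ (n - (2 * B + 1)) := by
    rw [← pow_add, Nat.add_sub_cancel' hAn]
    calc Z.card ^ n ≤ 2 * G.card := hG1
      _ ≤ 2 * (n ^ (2 * B + 1) * ((outC c x Z (2 * B + 1)).card *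
          Z.card ^ (n - (2 * B + 1)))) := Nat.mul_le_mul_left _ hG3
      _ = _ := by ring
  have h2 := Nat.le_of_mul_le_mul_right h1 (pow_pos hZ0 _)
  have h3 : (3 ^ B * Z.card) ^ (2 * B + 1) ≤ (2 * n * M) ^ (2 * B + 1) := by
    calc (3 ^ B * Z.card) ^ (2 * B + 1)
        = 3 ^ (B * (2 * B + 1)) * Z.card ^ (2 * B + 1) := by rw [mul_pow, ← pow_mul]
      _ ≤ 3 ^ (B * (2 * B + 1)) * (2 * n ^ (2 * B + 1) * (outC c x Z (2 * B + 1)).card) :=
          Nat.mul_le_mul_left _ h2
      _ = 2 * n ^ (2 * B + 1) * ((outC c x Z (2 * B + 1)).card * 3 ^ (B * (2 * B + 1))) := by ring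
      _ ≤ 2 * n ^ (2 * B + 1) * M ^ (2 * B + 1) := Nat.mul_le_mul_left _ hO
      _ ≤ 2 ^ (2 * B + 1) * n ^ (2 * B + 1) * M ^ (2 * B + 1) := by
          refine Nat.mul_le_mul_right _ (Nat.mul_le_mul_right _ ?_)
          calc 2 = 2 ^ 1 := rfl
            _ ≤ 2 ^ (2 * B + 1) := Nat.pow_le_pow_right (by omega) (by omega)
      _ = (2 * n * M) ^ (2 * B + 1) := by rw [mul_pow, mul_pow]
  exact (Nat.pow_le_pow_iff_left (by omega)).mp h3

end FlashRainbow.CF
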