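import Pool.Agent.Work.MP_54723a_co.CF.OldHub
import Pool.Agent.Work.MP_54723a_co.CF.OutCount

/-!
# Constant factor, measure route: junctions with at most three colours exist  (helper74)

Source: helper20 (msg 133743).  A zone `Z` behind a hub `x` without junctions of one, two or three
colours is exponentially small.  There is no condition on the edges of `Z` with colours in `F`.
-/

set_option autoImplicit false

namespace FlashRainbow.CF

open Classical

variable {c : ℕ → ℕ → ℕ} {V Z K F : Finset ℕ} {R t τ x M : ℕ} {lev : ℕ → ℕ → ℕ}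

/-- no junction with at most three colours at the hub `x` -/
structure NoJun3 (c : ℕ → ℕ → ℕ) (Z K F : Finset ℕ) (x τ : ℕ) : Prop extends
    NoJun c Z K F x τ where
  three : ∀ u ∈ Z, ∀ s ∈ Z, u < s → c x u ≠ c x s → c u s ≠ c x u → c u s ≠ c x s → c u s ∉ F →
    ∀ X ⊆ Z, Fre c X K → (X.filter fun v => s < v ∧ c s v = c x s).card < τ

/-- (*) in front of a vertex with a thick own out-class -/
theorem NoJun3.star (h : NoJun3 c Z K F x τ) {u s : ℕ} (hu : u ∈ Z) (hs : s ∈ Z) (hus : u < s)
    (hso : SO c Z K x τ s) : c x u = c x s ∨ c u s = c x u ∨ c u s = c x s ∨ c u s ∈ F := by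
  by_contra hcon
  push Not at hcon
  obtain ⟨h1, h2, h3, h4⟩ := hcon
  obtain ⟨Q, hQZ, hQK, hQu, hQc⟩ := hso
  have h5 := h.three u hu s hs hus h1 h2 h3 h4 Q hQZ
    (hQK.mono (Finset.subset_insert _ _) (Finset.Subset.refl _))
  rw [Finset.filter_true_of_mem fun v hv => hQu v hv] at h5
  omega

/-- a clique whose edges have the label of the smaller vertex gives a rainbow path -/
theorem clique_path (f : ℕ → ℕ) (C : Finset ℕ) : ∀ z ∈ V, C ⊆ V → Set.InjOn f C →
    (∀ u ∈ C, ∀ v ∈ C, u < v → c u v = f u) → (∀ u ∈ C, u < z ∧ c u z = f u) →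
    RP c V z (C.image f) := by
  induction C using Finset.induction_on_max with
  | empty =>
    intro z hz _ _ _ _
    rw [Finset.image_empty]
    exact RP.single hz
  | insert m C hm ih =>
    intro z hz hCV hinj hcl hCz
    have hmV : m ∈ V := hCV (Finset.mem_insert_self _ _)
    have h1 := ih m hmV ((Finset.subset_insert _ _).trans hCV)
      (hinj.mono (by
        rw [Finset.coe_insert]
        exact Set.subset_insert _ _))
      (fun u hu v hv => hcl u (Finset.mem_insert_of_mem hu) v (Finset.mem_insert_of_mem hv))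
      (fun u hu => ⟨hm u hu, hcl u (Finset.mem_insert_of_mem hu) m (Finset.mem_insert_self _ _)
        (hm u hu)⟩)
    obtain ⟨h2, h3⟩ := hCz m (Finset.mem_insert_self _ _)
    have h4 : f m ∉ C.image f := by
      intro h
      obtain ⟨u, hu, he⟩ := Finset.mem_image.mp h
      have := hinj (Finset.mem_coe.mpr (Finset.mem_insert_of_mem hu))
        (Finset.mem_coe.mpr (Finset.mem_insert_self _ _)) he
      exact absurd (hm u hu) (by omega)
    have h5 := RP.step h1 hz h2 (by rw [h3]; exact h4)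
    rw [h3] at h5
    rw [Finset.image_insert]
    exact h5

/-- chain vertices -/
def Chn (c : ℕ → ℕ → ℕ) (V K : Finset ℕ) (x e s : ℕ) : Prop :=
  ∃ C : Finset ℕ, C.card = e ∧ c x s ∉ C ∧ Disjoint C K ∧ RP c V s C

/-- in a `K`-free set of vertices with thick own out-classes all but few vertices are ends of
chains -/
theorem not_Chn_free (hR : Rk c V R) (hH : Hub c V x K F) (ht : R ≤ K.card + t) (hZV : Z ⊆ V)
    (hxZ : ∀ v ∈ Z, x < v) (hxF : ∀ v ∈ Z, c x v ∉ F) (hτ : 0 < τ) (hNJ : NoJun3 c Z K F x τ)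
    {X : Finset ℕ} (hX : X ⊆ Z) (hXK : Fre c X K) (hso : ∀ s ∈ X, SO c Z K x τ s)
    (hno : ∀ s ∈ X, ¬ Chn c V K x (8 * t) s) : X.card ≤ (8 * t ^ 2 + 1) * τ := by
  by_contra hcon
  push Not at hcon
  have hlab : ∀ s ∈ X, c x s ∉ K := fun s hs => (hso s hs).notMem hτ
  -- many labels
  have himg : 8 * t ^ 2 + 1 < (X.image (c x)).card := by
    by_contra hle
    push Not at hle
    have h1 : X.card ≤ (X.image (c x)).card * τ := by
      rw [Finset.card_eq_sum_card_image (c x) X, ← smul_eq_mul, ← Finset.sum_const]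
      refine Finset.sum_le_sum fun l hl => ?_
      by_cases hlF : l ∈ F
      · obtain ⟨v, hv, rfl⟩ := Finset.mem_image.mp hl
        exact absurd hlF (hxF v (hX hv))
      · exact (hNJ.one l hlF X hX hXK).le
    have h2 := h1.trans (Nat.mul_le_mul_right τ hle)
    omega
  -- representatives
  have hrep : ∀ l ∈ X.image (c x), ∃ v ∈ X, c x v = l := fun l hl => Finset.mem_image.mp hl
  choose! rep hrep1 hrep2 using hrep
  set S := (X.image (c x)).image rep with hS
  have hSX : S ⊆ X := by
    intro v hv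
    obtain ⟨l, hl, rfl⟩ := Finset.mem_image.mp hv
    exact hrep1 l hl
  have hinj : Set.InjOn (c x) S := by
    intro u hu v hv huv
    obtain ⟨l, hl, rfl⟩ := Finset.mem_image.mp (Finset.mem_coe.mp hu)
    obtain ⟨l', hl', rfl⟩ := Finset.mem_image.mp (Finset.mem_coe.mp hv)
    rw [hrep2 l hl, hrep2 l' hl'] at huv
    rw [huv]
  have hScard : S.card = (X.image (c x)).card := by
    refine Finset.card_image_of_injOn ?_
    intro l hl l' hl' h
    rw [← hrep2 l (Finset.mem_coe.mp hl), ← hrep2 l' (Finset.mem_coe.mp hl'), h]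
  obtain ⟨C, hCS, hCc, hcl⟩ := exists_out_clique (t := t) (B := 4 * t) (S := S) hR hH ht
    (hSX.trans (hX.trans hZV)) (fun v hv => hxZ v (hX (hSX hv))) (fun v hv => hlab v (hSX hv))
    (by
      intro u hu v hv huv
      have hne : c x u ≠ c x v := fun h => by
        have := hinj (Finset.mem_coe.mpr hu) (Finset.mem_coe.mpr hv) h
        omega
      refine ⟨hne, ?_⟩
      have hcK : c u v ∉ K := fun h => hXK _ h u (hSX hu) v (hSX hv) huv rfl
      rcases hNJ.star (hX (hSX hu)) (hX (hSX hv)) huv (hso v (hSX hv)) with h | h | h | h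
      · exact absurd h hne
      · exact Or.inl h
      · exact Or.inr h
      · exact absurd (hH.1 h) hcK)
    (by
      rw [hScard]
      have : 2 * (4 * t) * t = 8 * t ^ 2 := by ring
      omega)
  have hCne : C.Nonempty := Finset.card_pos.mp (by omega)
  set s := C.max' hCne with hs
  have hsC : s ∈ C := Finset.max'_mem _ _
  have hinjC : Set.InjOn (c x) C := hinj.mono (Finset.coe_subset.mpr hCS)
  have hpath := clique_path (c := c) (V := V) (c x) (C.erase s) s (hZV (hX (hSX (hCS hsC))))
    ((Finset.erase_subset _ _).trans (hCS.trans (hSX.trans (hX.trans hZV))))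
    (hinjC.mono (Finset.coe_subset.mpr (Finset.erase_subset _ _)))
    (fun u hu v hv => hcl u (Finset.mem_of_mem_erase hu) v (Finset.mem_of_mem_erase hv))
    (by
      intro u hu
      have hus : u < s := lt_of_le_of_ne (Finset.le_max' _ _ (Finset.mem_of_mem_erase hu))
        (Finset.ne_of_mem_erase hu)
      exact ⟨hus, hcl u (Finset.mem_of_mem_erase hu) s hsC hus⟩)
  refine hno s (hSX (hCS hsC)) ⟨(C.erase s).image (c x), ?_, ?_, ?_, hpath⟩
  · rw [Finset.card_image_of_injOn (hinjC.mono (Finset.coe_subset.mpr (Finset.erase_subset _ _))),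
      Finset.card_erase_of_mem hsC, hCc]
    omega
  · intro h
    obtain ⟨u, hu, he⟩ := Finset.mem_image.mp h
    exact Finset.ne_of_mem_erase hu (hinjC (Finset.mem_coe.mpr (Finset.mem_of_mem_erase hu))
      (Finset.mem_coe.mpr hsC) he)
  · rw [Finset.disjoint_left]
    intro γ hγ hγK
    obtain ⟨u, hu, rfl⟩ := Finset.mem_image.mp hγ
    exact hlab u (hSX (hCS (Finset.mem_of_mem_erase hu))) hγK

/-- **helper20's theorem**: a zone behind a hub without junctions of at most three colours is
exponentially small. -/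
theorem far_free (hL : Lev c V 3 lev) (hR : Rk c V R)
    (hM : ∀ W ⊆ V, ∀ r ≤ R, Rk c W r → W.card * 3 ^ (R - r) ≤ M)
    (hH : Hub c V x K F) (ht : R ≤ K.card + t) (hZV : Z ⊆ V)
    (hxZ : ∀ v ∈ Z, x < v) (hxF : ∀ v ∈ Z, c x v ∉ F) (hτ : 0 < τ) (hNJ : NoJun3 c Z K F x τ) :
    Z.card * 729 ^ t ≤ 2 * (t + 1) ^ 2 * 256 ^ t * M +
      729 ^ t * (3 ^ K.card * (bG t τ + (8 * t ^ 2 + 1) * τ)) := by
  set A := Z.filter fun s => SO c Z K x τ s ∧ Chn c V K x (8 * t) s with hA
  have hAZ : A ⊆ Z := Finset.filter_subset _ _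
  -- few points outside `A`
  have hW1 := not_SO_le hL hR hH ht hZV hxZ hxF hNJ.toNoJun (le_refl τ)
  have hW2 : (Z.filter fun s => SO c Z K x τ s ∧ ¬ Chn c V K x (8 * t) s).card ≤
      3 ^ K.card * ((8 * t ^ 2 + 1) * τ) := by
    obtain ⟨X, h1, h2, h3⟩ := exists_class (c := c)
      (X := Z.filter fun s => SO c Z K x τ s ∧ ¬ Chn c V K x (8 * t) s)
      (hL.mono ((Finset.filter_subset _ _).trans hZV)) K
    refine h2.trans (Nat.mul_le_mul_left _ ?_)
    exact not_Chn_free hR hH ht hZV hxZ hxF hτ hNJ (h1.trans (Finset.filter_subset _ _)) h3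
      (fun s hs => (Finset.mem_filter.mp (h1 hs)).2.1)
      (fun s hs => (Finset.mem_filter.mp (h1 hs)).2.2)
  have hZA : Z.card ≤ A.card + 3 ^ K.card * (bG t τ + (8 * t ^ 2 + 1) * τ) := by
    have hsub : Z ⊆ A ∪ ((Z.filter fun u => ¬ SO c Z K x τ u) ∪
        Z.filter fun s => SO c Z K x τ s ∧ ¬ Chn c V K x (8 * t) s) := by
      intro v hv
      by_cases h1 : SO c Z K x τ v
      · by_cases h2 : Chn c V K x (8 * t) v
        · exact Finset.mem_union_left _ (Finset.mem_filter.mpr ⟨hv, h1, h2⟩)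
        · exact Finset.mem_union_right _ (Finset.mem_union_right _
            (Finset.mem_filter.mpr ⟨hv, h1, h2⟩))
      · exact Finset.mem_union_right _ (Finset.mem_union_left _ (Finset.mem_filter.mpr ⟨hv, h1⟩))
    have h1 := Finset.card_le_card hsub
    have h2 := Finset.card_union_le A ((Z.filter fun u => ¬ SO c Z K x τ u) ∪
        Z.filter fun s => SO c Z K x τ s ∧ ¬ Chn c V K x (8 * t) s)
    have h3 := Finset.card_union_le (Z.filter fun u => ¬ SO c Z K x τ u)
        (Z.filter fun s => SO c Z K x τ s ∧ ¬ Chn c V K x (8 * t) s)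
    rw [Nat.mul_add]
    omega
  -- the chains
  have hch : ∀ s ∈ A, ∃ C : Finset ℕ, C.card = 8 * t ∧ c x s ∉ C ∧ Disjoint C K ∧ RP c V s C :=
    fun s hs => (Finset.mem_filter.mp hs).2.2
  choose! C hC1 hC2 hC3 hC4 using hch
  -- selection of `Y`
  obtain ⟨T, hTA, hTc, hT⟩ := exists_select (l := 2) (T := A) (by norm_num)
    (fun v => insert (c x v) (C v)) (8 * t + 1) (by
      intro v hv
      exact (Finset.card_insert_le _ _).trans (by rw [hC1 v hv]))
    (lev := fun γ v => if γ = c x v then 0 else 1) (by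
      intro γ v _
      split_ifs <;> norm_num)
  have hTZ : T ⊆ Z := hTA.trans hAZ
  have hTV : T ⊆ V := hTZ.trans hZV
  set Y := T.biUnion C with hY
  have hfY : ∀ v ∈ T, c x v ∉ Y := by
    intro v hv h
    obtain ⟨u, hu, huv⟩ := Finset.mem_biUnion.mp h
    have h1 := hT u hu v hv (c x v) (Finset.mem_insert_of_mem huv) (Finset.mem_insert_self _ _)
    rw [if_pos rfl] at h1
    by_cases h2 : c x v = c x u
    · rw [h2] at huv
      exact hC2 u (hTA hu) huv
    · rw [if_neg h2] at h1
      exact absurd h1 (by norm_num)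
  have hYK : Disjoint Y K := by
    rw [Finset.disjoint_left]
    intro γ hγ hγK
    obtain ⟨u, hu, huγ⟩ := Finset.mem_biUnion.mp hγ
    exact Finset.disjoint_left.mp (hC3 u (hTA hu)) huγ hγK
  have hsame : ∀ u ∈ T, ∀ v ∈ T, u < v → c u v ∈ Y → c x u = c x v := by
    intro u hu v hv huv hc
    rcases hNJ.star (hTZ hu) (hTZ hv) huv (Finset.mem_filter.mp (hTA hv)).2.1 with h | h | h | h
    · exact h
    · rw [h] at hc
      exact absurd hc (hfY u hu)
    · rw [h] at hc
      exact absurd hc (hfY v hv)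
    · exact absurd (hH.1 h) (fun h' => Finset.disjoint_left.mp hYK hc h')
  -- `chi`
  set Θ := ((T ×ˢ T).image fun p => c p.1 p.2) \ Y with hΘ
  have hcolT : Col c T ((T ×ˢ T).image fun p => c p.1 p.2) := by
    intro u hu v hv _
    exact Finset.mem_image.mpr ⟨(u, v), Finset.mem_product.mpr ⟨hu, hv⟩, rfl⟩
  have hshort : ∀ y D, RP c T y D → Disjoint D Θ → D.card ≤ t := by
    intro y D hD hdis
    have hDY : D ⊆ Y := by
      intro γ hγ
      by_contra hγY
      refine Finset.disjoint_left.mp hdis hγ (Finset.mem_sdiff.mpr ⟨?_, hγY⟩)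
      exact RP.subset_of_col hD hcolT hγ
    have hstay : ∀ y D, RP c T y D → D ⊆ Y → RP c (T.filter fun v => c x v = c x y) y D := by
      intro y D h
      induction h with
      | @single y hy => intro _; exact RP.single (Finset.mem_filter.mpr ⟨hy, rfl⟩)
      | @step a b D h hb hab hc ih =>
        intro hsub
        have h1 := ih ((Finset.subset_insert _ _).trans hsub)
        have h2 := hsame a h.mem b hb hab (hsub (Finset.mem_insert_self _ _))
        rw [h2] at h1
        exact RP.step h1 (Finset.mem_filter.mpr ⟨hb, rfl⟩) hab hc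
    have h1 := hstay y D hD hDY
    have hyT : y ∈ T := hD.mem
    have hg : c x y ∉ F := hxF y (hTZ hyT)
    have h2 := card_add_le (Θ := insert (c x y) K) (e := K.card) hR h1
      ((Finset.filter_subset _ _).trans hTV) (by
        intro v hv
        obtain ⟨hvT, hvy⟩ := Finset.mem_filter.mp hv
        refine ⟨insert (c x y) (K.erase (c x y)),
          Finset.insert_subset_insert _ (Finset.erase_subset _ _), ?_, ?_⟩
        · rw [Finset.card_insert_of_notMem (Finset.notMem_erase _ _)]
          have := Finset.pred_card_le_card_erase (s := K) (a := c x y)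
          omega
        · have h3 := hH.2 (K.erase (c x y)) (fun z hz => Finset.mem_erase.mpr
            ⟨fun h => hg (h ▸ hz), hH.1 hz⟩) (Finset.erase_subset _ _)
          have h4 := RP.step h3 (hTV hvT) (hxZ v (hTZ hvT)) (by
            rw [hvy]
            exact Finset.notMem_erase _ _)
          rwa [hvy] at h4) (by
        rw [Finset.disjoint_insert_right]
        exact ⟨fun h => hfY y hyT (hDY h), Finset.disjoint_of_subset_left hDY hYK⟩)
    omega
  obtain ⟨X, hXT, hXcol, hXc⟩ := chi (l := 3) (by norm_num) (hL.mono hTV) hshort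
  -- the rank of `X`
  have hrkX : ∀ y D, RP c X y D → D.card + 8 * t ≤ R := by
    intro y D hD
    have hDΘ : D ⊆ Θ := RP.subset_of_col hD hXcol
    refine card_add_le (Θ := Y) hR hD (hXT.trans hTV) ?_ ?_
    · intro v hv
      exact ⟨C v, Finset.subset_biUnion_of_mem C (hXT hv), (hC1 v (hTA (hXT hv))).ge,
        hC4 v (hTA (hXT hv))⟩
    · rw [Finset.disjoint_left]
      intro γ hγ
      exact (Finset.mem_sdiff.mp (hDΘ hγ)).2
  have hXM : X.card * 3 ^ (8 * t) ≤ M := by
    rcases X.eq_empty_or_nonempty with h | ⟨v, hv⟩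
    · rw [h, Finset.card_empty, Nat.zero_mul]
      exact Nat.zero_le _
    · have h1 := hrkX v ∅ (RP.single hv)
      rw [Finset.card_empty, Nat.zero_add] at h1
      have h2 := hM X (hXT.trans hTV) (R - 8 * t) (Nat.sub_le _ _) (by
        intro y D hD
        have := hrkX y D hD
        omega)
      rwa [show R - (R - 8 * t) = 8 * t by omega] at h2
  -- arithmetic
  have hAX : A.card * 729 ^ t ≤ 2 * (t + 1) ^ 2 * 256 ^ t * M := by
    have h1 : A.card * 6561 ^ t ≤ 2 * (t + 1) ^ 2 * 256 ^ t * M * 9 ^ t := by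
      calc A.card * 6561 ^ t ≤ 2 ^ (8 * t + 1) * T.card * 6561 ^ t :=
            Nat.mul_le_mul_right _ hTc
        _ ≤ 2 ^ (8 * t + 1) * ((t + 1) ^ 2 * 3 ^ (2 * t) * X.card) * 6561 ^ t :=
            Nat.mul_le_mul_right _ (Nat.mul_le_mul_left _ hXc)
        _ = 2 * (t + 1) ^ 2 * 256 ^ t * (X.card * 3 ^ (8 * t)) * 9 ^ t := by
            rw [pow_succ, pow_mul, pow_mul, pow_mul]
            norm_num
            ring
        _ ≤ 2 * (t + 1) ^ 2 * 256 ^ t * M * 9 ^ t :=
            Nat.mul_le_mul_right _ (Nat.mul_le_mul_left _ hXM)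
    have h2 : A.card * 729 ^ t * 9 ^ t ≤ 2 * (t + 1) ^ 2 * 256 ^ t * M * 9 ^ t := by
      rw [mul_assoc, ← mul_pow]
      norm_num
      exact h1
    exact Nat.le_of_mul_le_mul_right h2 (by positivity)
  calc Z.card * 729 ^ t
      ≤ (A.card + 3 ^ K.card * (bG t τ + (8 * t ^ 2 + 1) * τ)) * 729 ^ t :=
        Nat.mul_le_mul_right _ hZA
    _ = A.card * 729 ^ t + 729 ^ t * (3 ^ K.card * (bG t τ + (8 * t ^ 2 + 1) * τ)) := by ring
    _ ≤ _ := Nat.add_le_add_right hAX _

end FlashRainbow.CF
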