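import Pool.Agent.Work.MP_54723a_co.CF.HZones
import Pool.Agent.Work.MP_54723a_co.CF.NoFar

/-!
# Constant factor, measure route: junctions with at most one heavy colour  (helper74)

Source: helper10 (message 134196, selection of a set of colours before the stage).
-/

set_option autoImplicit false

namespace FlashRainbow.CF

open Classical

variable {c : ℕ → ℕ → ℕ} {V Z K F Y : Finset ℕ} {R t x M n q τ v g : ℕ} {lev : ℕ → ℕ → ℕ}

/-- heavy colours of `v` on `Y`: measure more than `1 / q` -/
def Hvy (c : ℕ → ℕ → ℕ) (q : ℕ) (Y : Finset ℕ) (v : ℕ) : Finset ℕ :=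
  (Y.image fun w => c v w).filter fun g => Y.card < q * (Y.filter fun w => c v w = g).card

theorem card_Hvy : (Hvy c q Y v).card ≤ q := by
  rcases Y.eq_empty_or_nonempty with h | h
  · rw [Hvy, h]
    simp
  · have h1 : (Hvy c q Y v).card * Y.card ≤ q * Y.card := by
      calc (Hvy c q Y v).card * Y.card = ∑ _g ∈ Hvy c q Y v, Y.card := by simp
        _ ≤ ∑ g ∈ Hvy c q Y v, q * (Y.filter fun w => c v w = g).card :=
            Finset.sum_le_sum fun g hg => (Finset.mem_filter.mp hg).2.le
        _ = q * ∑ g ∈ Hvy c q Y v, (Y.filter fun w => c v w = g).card := by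
            rw [Finset.mul_sum]
        _ ≤ q * Y.card := by
            refine Nat.mul_le_mul_left _ ?_
            rw [← Finset.card_biUnion]
            · refine Finset.card_le_card ?_
              intro w hw
              obtain ⟨g, _, h2⟩ := Finset.mem_biUnion.mp hw
              exact (Finset.mem_filter.mp h2).1
            · intro a _ b _ hab
              rw [Function.onFun, Finset.disjoint_left]
              intro w hw hw'
              exact hab ((Finset.mem_filter.mp hw).2.symm.trans (Finset.mem_filter.mp hw').2)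
    exact Nat.le_of_mul_le_mul_right h1 (Finset.card_pos.mpr h)

theorem of_notMem_Hvy (h : g ∉ Hvy c q Y v) : q * (Y.filter fun w => c v w = g).card ≤ Y.card := by
  by_contra hcon
  push Not at hcon
  refine h (Finset.mem_filter.mpr ⟨?_, hcon⟩)
  have h1 : 0 < (Y.filter fun w => c v w = g).card := by
    rcases Nat.eq_zero_or_pos (Y.filter fun w => c v w = g).card with h0 | h0
    · rw [h0] at hcon
      simp at hcon
    · exact h0
  obtain ⟨w, hw⟩ := Finset.card_pos.mp h1
  obtain ⟨h2, h3⟩ := Finset.mem_filter.mp hw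
  exact Finset.mem_image.mpr ⟨w, h2, h3⟩

/-- a junction with at most three colours, at most one of them heavy -/
def HJun (c : ℕ → ℕ → ℕ) (V Z K F : Finset ℕ) (x τ : ℕ) (Hv : ℕ → Finset ℕ) : Prop :=
  ∃ Φ X : Finset ℕ, Φ.card ≤ 3 ∧ Disjoint Φ F ∧ X ⊆ Z ∧ Jun c V x Φ X ∧ Fre c X (K ∪ Φ) ∧
    τ ≤ X.card ∧ (∀ v ∈ X, ∃ g, ∀ φ ∈ Φ, φ ≠ g → φ ∉ Hv v) ∧
    ∀ φ ∈ Φ, ∃ a ∈ insert x Z, ∃ b ∈ insert x Z, a < b ∧ c a b = φ

/-- **JUNCTION** -/
theorem exists_hjun (hL : Lev c V 3 lev) (hR : Rk c V R)
    (hM : ∀ W ⊆ V, ∀ r ≤ R, Rk c W r → W.card * 3 ^ (R - r) ≤ M)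
    (hH : Hub c V x K F) (ht : R ≤ K.card + t) (hZV : Z ⊆ V)
    (hxZ : ∀ v ∈ Z, x < v) (hxF : ∀ v ∈ Z, c x v ∉ F) {Hv : ℕ → Finset ℕ}
    (hHv : ∀ v ∈ Z, (Hv v).card ≤ n) (hτ : 0 < τ)
    (hbig : 2 ^ (n + 1) * (2 * (t + 1) ^ 2 * 256 ^ t * M +
      729 ^ t * (3 ^ K.card * (bG t (81 * τ) + (8 * t ^ 2 + 1) * (81 * τ)))) < Z.card * 729 ^ t) :
    HJun c V Z K F x τ Hv := by
  by_contra hno
  have hxV : x ∈ V := hH.mem
  -- selection
  obtain ⟨T, hTZ, hTc, hT⟩ := exists_select (l := 2) (T := Z) (by norm_num)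
    (fun v => insert (c x v) (Hv v)) (n + 1) (by
      intro v hv
      exact (Finset.card_insert_le _ _).trans (by have := hHv v hv; omega))
    (lev := fun γ v => if γ = c x v then 1 else 0) (by
      intro γ v _
      split_ifs <;> norm_num)
  have hlight : ∀ u ∈ T, ∀ v ∈ T, c x v ≠ c x u → c x u ∉ Hv v := by
    intro u hu v hv hne hmem
    have h1 := hT u hu v hv (c x u) (Finset.mem_insert_self _ _) (Finset.mem_insert_of_mem hmem)
    simp only [if_true, if_neg (Ne.symm hne)] at h1
    exact absurd h1 (by norm_num)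
  -- a junction into a `K`-free set is small
  have haux : ∀ Φ X : Finset ℕ, X ⊆ T → Fre c X K → Jun c V x Φ X → Φ.card ≤ 3 → Disjoint Φ F →
      (∀ v ∈ X, ∃ g, ∀ φ ∈ Φ, φ ≠ g → φ ∉ Hv v) →
      (∀ v ∈ X, ∀ φ ∈ Φ, ∃ a ∈ insert x Z, ∃ b ∈ insert x Z, a < b ∧ c a b = φ) →
      X.card < 27 * τ := by
    intro Φ X hXT hXK hJ h3 hΦF hhv hcol
    by_contra hge
    push Not at hge
    obtain ⟨X', h1, h2, h4⟩ := exists_class (hL.mono (hXT.trans (hTZ.trans hZV))) Φ
    have h5 : 3 ^ Φ.card ≤ 3 ^ 3 := Nat.pow_le_pow_right (by norm_num) h3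
    have h6 : X.card ≤ 27 * X'.card := h2.trans (Nat.mul_le_mul_right _ (by simpa using h5))
    obtain ⟨v0, hv0⟩ : X.Nonempty := by
      rw [← Finset.card_pos]
      omega
    refine hno ⟨Φ, X', h3, hΦF, (h1.trans hXT).trans hTZ, hJ.mono h1,
      (hXK.mono h1 (le_refl _)).union h4, by omega, fun v hv => hhv v (h1 hv), hcol v0 hv0⟩
  have hone : ∀ l, l ∉ F → ∀ X ⊆ T, Fre c X K → (X.filter fun v => c x v = l).card < 27 * τ := by
    intro l hl X hXT hXK
    refine haux {l} _ ((Finset.filter_subset _ _).trans hXT)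
      (hXK.mono (Finset.filter_subset _ _) (le_refl _)) ?_ (by simp) (by simpa using hl) ?_ ?_
    · exact jun_one hxV (((Finset.filter_subset _ _).trans hXT).trans (hTZ.trans hZV)) (fun v hv =>
        ⟨hxZ v (hTZ (hXT (Finset.mem_filter.mp hv).1)), (Finset.mem_filter.mp hv).2⟩)
    · intro v _
      exact ⟨l, fun φ hφ hne => absurd (Finset.mem_singleton.mp hφ) hne⟩
    · intro v hv φ hφ
      obtain ⟨hvX, hvl⟩ := Finset.mem_filter.mp hv
      rw [Finset.mem_singleton.mp hφ]
      exact ⟨x, Finset.mem_insert_self _ _, v, Finset.mem_insert_of_mem (hTZ (hXT hvX)),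
        hxZ v (hTZ (hXT hvX)), hvl⟩
  have hNJ : NoJun3 c T K F x (81 * τ) := by
    refine ⟨⟨?_, ?_⟩, ?_⟩
    · intro l hl X hXT hXK
      have := hone l hl X hXT hXK
      omega
    · intro u hu φ hφF hφu X hXT hXK
      have h1 := hone (c x u) (hxF u (hTZ hu)) X hXT hXK
      have h2 : (X.filter fun v => (u < v ∧ c u v = φ) ∧ c x v ≠ c x u).card < 27 * τ := by
        refine haux {φ, c x u} _ ((Finset.filter_subset _ _).trans hXT)
          (hXK.mono (Finset.filter_subset _ _) (le_refl _)) ?_
          ((Finset.card_le_two).trans (by norm_num)) ?_ ?_ ?_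
        · exact jun_two hxV (hZV (hTZ hu)) (hxZ u (hTZ hu)) rfl (Ne.symm hφu)
            (((Finset.filter_subset _ _).trans hXT).trans (hTZ.trans hZV)) (fun w hw =>
              (Finset.mem_filter.mp hw).2.1)
        · rw [Finset.disjoint_insert_left, Finset.disjoint_singleton_left]
          exact ⟨hφF, hxF u (hTZ hu)⟩
        · intro v hv
          obtain ⟨hvX, -, hne⟩ := Finset.mem_filter.mp hv
          refine ⟨φ, fun ψ hψ hψφ => ?_⟩
          rcases Finset.mem_insert.mp hψ with h | h
          · exact absurd h hψφ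
          · rw [Finset.mem_singleton.mp h]
            exact hlight u hu v (hXT hvX) hne
        · intro v hv ψ hψ
          obtain ⟨hvX, ⟨huv, hc⟩, -⟩ := Finset.mem_filter.mp hv
          rcases Finset.mem_insert.mp hψ with h | h
          · rw [h]
            exact ⟨u, Finset.mem_insert_of_mem (hTZ hu), v,
              Finset.mem_insert_of_mem (hTZ (hXT hvX)), huv, hc⟩
          · rw [Finset.mem_singleton.mp h]
            exact ⟨x, Finset.mem_insert_self _ _, u, Finset.mem_insert_of_mem (hTZ hu),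
              hxZ u (hTZ hu), rfl⟩
      have h3 : (X.filter fun v => u < v ∧ c u v = φ) ⊆ (X.filter fun v => c x v = c x u) ∪
          (X.filter fun v => (u < v ∧ c u v = φ) ∧ c x v ≠ c x u) := by
        intro v hv
        obtain ⟨hvX, hv2⟩ := Finset.mem_filter.mp hv
        by_cases h : c x v = c x u
        · exact Finset.mem_union_left _ (Finset.mem_filter.mpr ⟨hvX, h⟩)
        · exact Finset.mem_union_right _ (Finset.mem_filter.mpr ⟨hvX, hv2, h⟩)
      have h4 := (Finset.card_le_card h3).trans (Finset.card_union_le _ _)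
      omega
    · intro u hu s hs hus h1 h2 h3 h4 X hXT hXK
      have h5 := hone (c x u) (hxF u (hTZ hu)) X hXT hXK
      have h6 := hone (c x s) (hxF s (hTZ hs)) X hXT hXK
      have h7 : (X.filter fun v => (s < v ∧ c s v = c x s) ∧ c x v ≠ c x u ∧ c x v ≠ c x s).card <
          27 * τ := by
        refine haux {c x s, c u s, c x u} _ ((Finset.filter_subset _ _).trans hXT)
          (hXK.mono (Finset.filter_subset _ _) (le_refl _)) ?_ (Finset.card_le_three) ?_ ?_ ?_
        · exact jun_three hxV (hZV (hTZ hu)) (hZV (hTZ hs)) (hxZ u (hTZ hu)) hus rfl rfl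
            (Ne.symm h2) h1 h3 (((Finset.filter_subset _ _).trans hXT).trans (hTZ.trans hZV))
            (fun w hw => (Finset.mem_filter.mp hw).2.1)
        · rw [Finset.disjoint_insert_left, Finset.disjoint_insert_left,
            Finset.disjoint_singleton_left]
          exact ⟨hxF s (hTZ hs), h4, hxF u (hTZ hu)⟩
        · intro v hv
          obtain ⟨hvX, -, hne1, hne2⟩ := Finset.mem_filter.mp hv
          refine ⟨c u s, fun ψ hψ hψφ => ?_⟩
          rcases Finset.mem_insert.mp hψ with h | h
          · rw [h]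
            exact hlight s hs v (hXT hvX) hne2
          · rcases Finset.mem_insert.mp h with h | h
            · exact absurd h hψφ
            · rw [Finset.mem_singleton.mp h]
              exact hlight u hu v (hXT hvX) hne1
        · intro v hv ψ hψ
          obtain ⟨hvX, ⟨hsv, hc⟩, -⟩ := Finset.mem_filter.mp hv
          rcases Finset.mem_insert.mp hψ with h | h
          · rw [h]
            exact ⟨x, Finset.mem_insert_self _ _, s, Finset.mem_insert_of_mem (hTZ hs),
              hxZ s (hTZ hs), rfl⟩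
          · rcases Finset.mem_insert.mp h with h | h
            · rw [h]
              exact ⟨u, Finset.mem_insert_of_mem (hTZ hu), s, Finset.mem_insert_of_mem (hTZ hs),
                hus, rfl⟩
            · rw [Finset.mem_singleton.mp h]
              exact ⟨x, Finset.mem_insert_self _ _, u, Finset.mem_insert_of_mem (hTZ hu),
                hxZ u (hTZ hu), rfl⟩
      have h8 : (X.filter fun v => s < v ∧ c s v = c x s) ⊆ ((X.filter fun v => c x v = c x u) ∪
          (X.filter fun v => c x v = c x s)) ∪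
          (X.filter fun v => (s < v ∧ c s v = c x s) ∧ c x v ≠ c x u ∧ c x v ≠ c x s) := by
        intro v hv
        obtain ⟨hvX, hv2⟩ := Finset.mem_filter.mp hv
        by_cases h : c x v = c x u
        · exact Finset.mem_union_left _ (Finset.mem_union_left _ (Finset.mem_filter.mpr ⟨hvX, h⟩))
        · by_cases h' : c x v = c x s
          · exact Finset.mem_union_left _ (Finset.mem_union_right _
              (Finset.mem_filter.mpr ⟨hvX, h'⟩))
          · exact Finset.mem_union_right _ (Finset.mem_filter.mpr ⟨hvX, hv2, h, h'⟩)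
      have h9 := (Finset.card_le_card h8).trans (Finset.card_union_le _ _)
      have h10 := Finset.card_union_le (X.filter fun v => c x v = c x u)
        (X.filter fun v => c x v = c x s)
      omega
  have h1 := far_free hL hR hM hH ht (hTZ.trans hZV) (fun v hv => hxZ v (hTZ hv))
    (fun v hv => hxF v (hTZ hv)) (by omega) hNJ
  have h2 : Z.card * 729 ^ t ≤ 2 ^ (n + 1) * (2 * (t + 1) ^ 2 * 256 ^ t * M +
      729 ^ t * (3 ^ K.card * (bG t (81 * τ) + (8 * t ^ 2 + 1) * (81 * τ)))) := by
    calc Z.card * 729 ^ t ≤ 2 ^ (n + 1) * T.card * 729 ^ t := Nat.mul_le_mul_right _ hTc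
      _ = 2 ^ (n + 1) * (T.card * 729 ^ t) := by ring
      _ ≤ _ := Nat.mul_le_mul_left _ h1
  omega

end FlashRainbow.CF
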