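import Pool.Agent.Work.MP_54723a_co.CF.Chi

/-!
# Constant factor: one vertex with one heavy in-class is typical for all colour sets (TYP, PROP)
(helper74; source: helper42, note 8613)
-/

set_option autoImplicit false

namespace FlashRainbow.CF

open Classical

variable {c : ℕ → ℕ → ℕ} {V : Finset ℕ} {R : ℕ} {lev : ℕ → ℕ → ℕ}

/-- `V` is extremal: subsets of rank `r ≤ R` have at most `|V| / 3^(R-r)` points -/
def Ext (c : ℕ → ℕ → ℕ) (V : Finset ℕ) (R : ℕ) : Prop :=
  ∀ T ⊆ V, ∀ r ≤ R, Rk c T r → T.card * 3 ^ (R - r) ≤ V.card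

/-- vertices joined to `x` from below by colour `h` -/
def InC (c : ℕ → ℕ → ℕ) (V : Finset ℕ) (x h : ℕ) : Finset ℕ := V.filter fun u => u < x ∧ c u x = h

theorem typ_card (hL : Lev c V 3 lev) (hE : Ext c V R) {x h L : ℕ} {B : Finset ℕ} (hx : x ∈ V)
    (hB : h ∉ B) (hLx : ∀ D, RP c V x D → Disjoint D B → D.card ≤ L) (hL1 : 1 ≤ L) (hLR : L ≤ R) :
    (InC c V x h).card * 3 ^ (R + 1 - L) ≤ 2 * 3 ^ B.card * V.card := by
  set n : ℕ := V.card / 3 ^ (R + 1 - L) with hn
  have hpart : ∀ b, ((InC c V x h).filter fun u => lev h u = b).card ≤ 3 ^ B.card * n := by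
    intro b
    refine card_le_of_levels hL.lt n B _
      ((Finset.filter_subset _ _).trans (Finset.filter_subset _ _)) ?_
    intro T' hT' hconst
    have hT'V : T' ⊆ V := hT'.trans ((Finset.filter_subset _ _).trans (Finset.filter_subset _ _))
    have hrk : Rk c T' (L - 1) := by
      intro u D hD
      have hu := (Finset.mem_filter.mp (hT' hD.mem))
      have hu2 := (Finset.mem_filter.mp hu.1).2
      have hDB : Disjoint D B := by
        rw [Finset.disjoint_right]
        intro γ hγ
        exact hD.notMem_of_free (hL.free hT'V (hconst γ hγ))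
      have hDh : h ∉ D := by
        refine hD.notMem_of_free (hL.free hT'V ?_)
        intro a ha d hd
        rw [(Finset.mem_filter.mp (hT' ha)).2, (Finset.mem_filter.mp (hT' hd)).2]
      have hcx : c u x ∉ D := by rw [hu2.2]; exact hDh
      have h1 := RP.step (hD.mono hT'V) hx hu2.1 hcx
      have h2 := hLx _ h1 (by
        rw [Finset.disjoint_insert_left]
        exact ⟨by rw [hu2.2]; exact hB, hDB⟩)
      rw [Finset.card_insert_of_notMem hcx] at h2
      omega
    have h3 := hE T' hT'V (L - 1) (by omega) hrk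
    rw [show R - (L - 1) = R + 1 - L by omega] at h3
    rw [hn, Nat.le_div_iff_mul_le (by positivity)]
    exact h3
  have hsum : (InC c V x h).card ≤ 2 * (3 ^ B.card * n) := by
    have hmaps : ∀ v ∈ InC c V x h, lev h v ∈ Finset.range 2 := by
      intro v hv
      have hv' := Finset.mem_filter.mp hv
      have h1 := hL.up v hv'.1 x hx hv'.2.1
      rw [hv'.2.2] at h1
      have h2 := hL.lt h x hx
      rw [Finset.mem_range]
      omega
    rw [Finset.card_eq_sum_card_fiberwise hmaps]
    calc ∑ b ∈ Finset.range 2, ((InC c V x h).filter fun v => lev h v = b).card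
        ≤ ∑ b ∈ Finset.range 2, 3 ^ B.card * n := Finset.sum_le_sum fun b _ => hpart b
      _ = 2 * (3 ^ B.card * n) := by rw [Finset.sum_const, Finset.card_range, smul_eq_mul]
  calc (InC c V x h).card * 3 ^ (R + 1 - L) ≤ 2 * (3 ^ B.card * n) * 3 ^ (R + 1 - L) :=
        Nat.mul_le_mul_right _ hsum
    _ = 2 * 3 ^ B.card * (n * 3 ^ (R + 1 - L)) := by ring
    _ ≤ 2 * 3 ^ B.card * V.card := Nat.mul_le_mul_left _ (Nat.div_mul_le_self _ _)

/-- **TYP**: one heavy in-class `h` at `x` (proportion at least `1/A`) gives, for EVERY colour set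
`B` without `h`, a rainbow path into `x` which avoids `B` and has at least `R - |B| - C` edges. -/
theorem typ (hL : Lev c V 3 lev) (hE : Ext c V R) {x h A C : ℕ} {B : Finset ℕ} (hx : x ∈ V)
    (hA : V.card ≤ A * (InC c V x h).card) (hV : 0 < V.card) (hC : 2 * A < 3 ^ (C + 2))
    (hB : h ∉ B) : ∃ D, RP c V x D ∧ Disjoint D B ∧ R ≤ D.card + B.card + C := by
  by_contra hcon
  push Not at hcon
  have hpos : 0 < (InC c V x h).card := by
    rcases Nat.eq_zero_or_pos (InC c V x h).card with h0 | h0
    · rw [h0, Nat.mul_zero] at hA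
      omega
    · exact h0
  have h0 := hcon ∅ (RP.single hx) (Finset.disjoint_empty_left _)
  rw [Finset.card_empty, Nat.zero_add] at h0
  obtain ⟨u, hu⟩ := Finset.card_pos.mp hpos
  have hu' := Finset.mem_filter.mp hu
  have h1 := hcon {h} (by
    have h2 := RP.step (RP.single (c := c) hu'.1) hx hu'.2.1 (Finset.notMem_empty _)
    rw [hu'.2.2] at h2
    exact h2) (Finset.disjoint_singleton_left.mpr hB)
  rw [Finset.card_singleton] at h1
  have h2 := typ_card hL hE (L := R - B.card - C - 1) hx hB (fun D hD hDB => by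
    have := hcon D hD hDB
    omega) (by omega) (by omega)
  rw [show R + 1 - (R - B.card - C - 1) = B.card + (C + 2) by omega, pow_add] at h2
  have h3 : (InC c V x h).card * (3 ^ B.card * 3 ^ (C + 2)) ≤
      2 * 3 ^ B.card * (A * (InC c V x h).card) := h2.trans (Nat.mul_le_mul_left _ hA)
  have h4 : 3 ^ (C + 2) * ((InC c V x h).card * 3 ^ B.card) ≤
      (2 * A) * ((InC c V x h).card * 3 ^ B.card) := by
    calc 3 ^ (C + 2) * ((InC c V x h).card * 3 ^ B.card)
        = (InC c V x h).card * (3 ^ B.card * 3 ^ (C + 2)) := by ring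
      _ ≤ 2 * 3 ^ B.card * (A * (InC c V x h).card) := h3
      _ = (2 * A) * ((InC c V x h).card * 3 ^ B.card) := by ring
  have h5 := Nat.le_of_mul_le_mul_right h4 (Nat.mul_pos hpos (by positivity))
  omega

/-- **PROP**: behind such an `x` every vertex `w` with `c(x,w) ≠ h` is typical for every colour set
`B` without `h` and `c(x,w)`. -/
theorem prop (hL : Lev c V 3 lev) (hE : Ext c V R) {x w h A C : ℕ} {B : Finset ℕ} (hx : x ∈ V)
    (hw : w ∈ V) (hxw : x < w) (hA : V.card ≤ A * (InC c V x h).card) (hV : 0 < V.card)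
    (hC : 2 * A < 3 ^ (C + 2)) (hB : h ∉ B) (hc : c x w ≠ h) (hcB : c x w ∉ B) :
    ∃ D, RP c V w D ∧ Disjoint D B ∧ R ≤ D.card + B.card + C := by
  obtain ⟨D, h1, h2, h3⟩ := typ hL hE (B := insert (c x w) B) hx hA hV hC (by
    rw [Finset.mem_insert, not_or]
    exact ⟨fun h => hc h.symm, hB⟩)
  rw [Finset.disjoint_insert_right] at h2
  refine ⟨insert (c x w) D, RP.step h1 hw hxw h2.1, ?_, ?_⟩
  · rw [Finset.disjoint_insert_left]
    exact ⟨hcB, h2.2⟩
  · rw [Finset.card_insert_of_notMem h2.1]
    rw [Finset.card_insert_of_notMem hcB] at h3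
    omega

/-- **HL**: at a vertex with a `g`-avoiding path of `m` edges into it the out-class of `g` has at
most `2 * 3^m * K` points, `K` a bound for the sets of rank `R - m - 1`. -/
theorem out_class_le (hL : Lev c V 3 lev) (hR : Rk c V R) {x g m K : ℕ} {D : Finset ℕ}
    (hD : RP c V x D) (hDm : D.card = m) (hg : g ∉ D)
    (hK : ∀ T ⊆ V, Rk c T (R - m - 1) → T.card ≤ K) :
    (V.filter fun w => x < w ∧ c x w = g).card ≤ 2 * (3 ^ m * K) := by
  set W := V.filter fun w => x < w ∧ c x w = g with hW
  have hx : x ∈ V := hD.mem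
  have hmaps : ∀ v ∈ W, lev g v ∈ Finset.Icc 1 2 := by
    intro v hv
    have hv' := Finset.mem_filter.mp hv
    have h1 := hL.up x hx v hv'.1 hv'.2.1
    rw [hv'.2.2] at h1
    have h2 := hL.lt g v hv'.1
    rw [Finset.mem_Icc]
    omega
  rw [Finset.card_eq_sum_card_fiberwise hmaps]
  calc ∑ b ∈ Finset.Icc 1 2, (W.filter fun v => lev g v = b).card
      ≤ ∑ b ∈ Finset.Icc 1 2, 3 ^ m * K := by
        refine Finset.sum_le_sum fun b _ => ?_
        rw [← hDm]
        refine card_le_of_levels hL.lt K D _
          ((Finset.filter_subset _ _).trans (Finset.filter_subset _ _)) ?_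
        intro T' hT' hconst
        have hT'V : T' ⊆ V :=
          hT'.trans ((Finset.filter_subset _ _).trans (Finset.filter_subset _ _))
        refine hK T' hT'V ?_
        intro y E hE
        have hfree : ∀ γ ∈ insert g D, ∀ u ∈ T', ∀ v ∈ T', u < v → c u v ≠ γ := by
          intro γ hγ
          refine hL.free hT'V ?_
          intro u hu v hv
          rcases Finset.mem_insert.mp hγ with rfl | hγ'
          · rw [(Finset.mem_filter.mp (hT' hu)).2, (Finset.mem_filter.mp (hT' hv)).2]
          · exact hconst γ hγ' u hu v hv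
        have hreach : ∀ v ∈ T', RP c V v (insert g D) := by
          intro v hv
          have hv' := (Finset.mem_filter.mp (Finset.mem_filter.mp (hT' hv)).1).2
          have := RP.step hD (hT'V hv) hv'.1 (by rw [hv'.2]; exact hg)
          rwa [hv'.2] at this
        have hbig := hE.prepend hT'V hreach hfree
        have hdisj : Disjoint E (insert g D) := by
          rw [Finset.disjoint_right]
          intro γ hγ
          exact hE.notMem_of_free (hfree γ hγ)
        have := hR _ _ hbig
        rw [Finset.card_union_of_disjoint hdisj, Finset.card_insert_of_notMem hg, hDm] at this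
        omega
    _ = 2 * (3 ^ m * K) := by
        rw [Finset.sum_const, Nat.card_Icc, smul_eq_mul]

end FlashRainbow.CF
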