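import Pool.Agent.Work.MP_54723a_co.CF.Loop
import Pool.Agent.Work.MP_54723a_co.CF.JunH
import Pool.Agent.Work.MP_54723a_co.CF.HubNext
import Pool.Agent.Work.MP_54723a_co.CF.StepJun
import Pool.Agent.Work.MP_54723a_co.CF.StageNum
import Pool.Agent.Work.MP_54723a_co.CF.Typ

/-!
# Constant factor, measure route: the stage lemma `StageP`  (helper74)

`stage_of_num` : `StageP` from numeric hypotheses; `stageP_ok` : `StageP` for all large `t`.
-/

set_option autoImplicit false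

namespace FlashRainbow.CF

open Classical

variable {c : ℕ → ℕ → ℕ} {V Z K F Y Φ : Finset ℕ} {R t t' x M q τ v g b d : ℕ} {lev : ℕ → ℕ → ℕ}

/-- the mass of the old and the new colours -/
theorem mass_le (hd : 0 < d) (hN : NDom c d v Y)
    (hF : 4 * d * (Y.filter fun w => c v w ∈ F).card ≤ Y.card) (h3 : Φ.card ≤ 3)
    (hg : ∃ g, ∀ φ ∈ Φ, φ ≠ g → φ ∉ Hvy c (12 * d) Y v) :
    2 * d * (Y.filter fun w => c v w ∈ F ∪ Φ).card ≤ (2 * d - 1) * Y.card := by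
  obtain ⟨g, hg⟩ := hg
  have h1 := hN g
  set A := Y.filter fun w => c v w ∈ F with hA
  set B := Y.filter fun w => c v w = g with hB
  set D := (Φ.erase g).biUnion fun φ => Y.filter fun w => c v w = φ with hD
  have hsub : (Y.filter fun w => c v w ∈ F ∪ Φ) ⊆ A ∪ (B ∪ D) := by
    intro w hw
    obtain ⟨hwY, hw2⟩ := Finset.mem_filter.mp hw
    rcases Finset.mem_union.mp hw2 with h | h
    · exact Finset.mem_union_left _ (Finset.mem_filter.mpr ⟨hwY, h⟩)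
    · by_cases he : c v w = g
      · exact Finset.mem_union_right _ (Finset.mem_union_left _ (Finset.mem_filter.mpr ⟨hwY, he⟩))
      · exact Finset.mem_union_right _ (Finset.mem_union_right _ (Finset.mem_biUnion.mpr
          ⟨c v w, Finset.mem_erase.mpr ⟨he, h⟩, Finset.mem_filter.mpr ⟨hwY, rfl⟩⟩))
  have h2 := Finset.card_le_card hsub
  have h4 := Finset.card_union_le A (B ∪ D)
  have h5 := Finset.card_union_le B D
  have h6 : 12 * d * D.card ≤ 3 * Y.card := by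
    calc 12 * d * D.card ≤ 12 * d * ∑ φ ∈ Φ.erase g, (Y.filter fun w => c v w = φ).card :=
          Nat.mul_le_mul_left _ Finset.card_biUnion_le
      _ = ∑ φ ∈ Φ.erase g, 12 * d * (Y.filter fun w => c v w = φ).card := by
          rw [Finset.mul_sum]
      _ ≤ ∑ _φ ∈ Φ.erase g, Y.card := by
          refine Finset.sum_le_sum fun φ hφ => ?_
          obtain ⟨hne, hφ2⟩ := Finset.mem_erase.mp hφ
          exact of_notMem_Hvy (hg φ hφ2 hne)
      _ = (Φ.erase g).card * Y.card := by rw [Finset.sum_const, smul_eq_mul]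
      _ ≤ 3 * Y.card := Nat.mul_le_mul_right _ ((Finset.card_erase_le).trans h3)
  obtain ⟨a, ha⟩ : ∃ a, a = A.card := ⟨_, rfl⟩
  obtain ⟨b', hb'⟩ : ∃ b', b' = B.card := ⟨_, rfl⟩
  obtain ⟨e, he⟩ : ∃ e, e = D.card := ⟨_, rfl⟩
  obtain ⟨y, hy⟩ : ∃ y, y = Y.card := ⟨_, rfl⟩
  obtain ⟨n, hn⟩ : ∃ n, n = (Y.filter fun w => c v w ∈ F ∪ Φ).card := ⟨_, rfl⟩
  rw [← ha] at hF h4
  rw [← hb'] at h1 h5
  rw [← he] at h6 h5
  rw [← hy] at hF h1 h6 ⊢
  rw [← hn] at h2 ⊢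
  obtain ⟨d', rfl⟩ : ∃ d', d = d' + 1 := ⟨d - 1, by omega⟩
  have h7 : 2 * (d' + 1) - 1 = 2 * d' + 1 := by omega
  rw [h7]
  rw [Nat.add_sub_cancel] at h1
  have h8 : n ≤ a + b' + e := by omega
  have h9 : 4 * (d' + 1) * n ≤ 4 * (d' + 1) * (a + b' + e) := Nat.mul_le_mul_left _ h8
  nlinarith

/-- **the stage lemma from numeric hypotheses** -/
theorem stage_of_num (hL : Lev c V 3 lev) (hR : Rk c V R)
    (hM : ∀ W ⊆ V, ∀ r ≤ R, Rk c W r → W.card * 3 ^ (R - r) ≤ M) (h3R : 3 ^ R ≤ M)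
    (hd : 0 < d) (ht' : t' + 3 ≤ t)
    (hnum : ∀ z, M ≤ 2 ^ (b + (12 * d + 1)) * z → ∃ τ q s, 8 ≤ τ ∧
      M ≤ 2 ^ q * (τ * 3 ^ (R - t)) ∧ s + 4 ≤ t ∧ 16 * (t + 1) * 2 ^ q ≤ 3 ^ s ∧
      6 + 2 * (q + (48 * s + 91)) + 7 * (t - t') < t ∧
      2 * (t + 1) ^ 2 * 256 ^ t * M + 729 ^ t * (3 ^ (R - t) * (bG t (33 * τ) +
        (8 * t ^ 2 + 1) * (33 * τ))) < z * 729 ^ t) :
    StageP c V R M d t t' b := by
  intro x K F Z Y hH hRt hZV hYV hxZ hZY hxF hMZ hN hFY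
  have hKR : R - t = K.card := by omega
  have hcase : ∃ τ q s, 8 ≤ τ ∧ M ≤ 2 ^ q * (τ * 3 ^ (R - t)) ∧ s + 4 ≤ t ∧
      16 * (t + 1) * 2 ^ q ≤ 3 ^ s ∧ 6 + 2 * (q + (48 * s + 91)) + 7 * (t - t') < t ∧
      HasJunH c V Z K F x τ (Hvy c (12 * d) Y) := by
    obtain ⟨T, hTZ, hTc, hsel⟩ := pi_select c x Z (Hvy c (12 * d) Y) (fun v _ => card_Hvy)
    obtain ⟨τ, q, s, h1, h2, h3, h4, h5, h6⟩ := hnum T.card (by
      calc M ≤ 2 ^ b * Z.card := hMZ
        _ ≤ 2 ^ b * (2 ^ (12 * d + 1) * T.card) := Nat.mul_le_mul_left _ hTc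
        _ = 2 ^ (b + (12 * d + 1)) * T.card := by rw [pow_add]; ring)
    refine ⟨τ, q, s, h1, h2, h3, h4, h5, ?_⟩
    by_contra hno
    have hτ : 0 < τ := by omega
    have hNJ : NoJun3 c T K F x (33 * τ) := by
      refine ⟨⟨?_, ?_⟩, ?_⟩
      · intro l hl X hX hXK
        have := pi_one hL hH.mem hZV hxZ hTZ hτ hno l hl hX hXK
        omega
      · intro u hu φ hφ hne X hX hXK
        have := pi_two hL hH.mem hZV hxZ hTZ hτ hno hxF hsel u hu φ hφ hne hX hXK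
        omega
      · intro u hu s hs hus h1 h2 h3 h4 X hX hXK
        exact pi_three hL hH.mem hZV hxZ hTZ hτ hno hxF hsel u s hu hs hus h1 h4 h2 h3 hX hXK
    have h7 := far_free hL hR hM hH hRt.le (hTZ.trans hZV) (fun v hv => hxZ v (hTZ hv))
      (fun v hv => hxF v (hTZ hv)) (by omega) hNJ
    rw [hKR] at h6
    omega
  obtain ⟨τ, q, s, h8, hMq, hst, hs, hm, Φ, X, h3, hΦF, hXZ, hJ, hXfree, hτX, hheavy, hcol⟩ := hcase
  obtain ⟨x', hx', K', hH', hR'⟩ := hub_next hL hR hM h3R hH hRt h3 hΦF hJ hXfree (h8.trans hτX)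
    (hMq.trans (Nat.mul_le_mul_left _ (Nat.mul_le_mul_right _ hτX))) hst hs (by omega) hm
  refine ⟨x', hXZ hx', K', F ∪ Φ, Φ, hH', ?_, h3, Finset.Subset.refl _, hcol, ?_⟩
  · rw [show t' = t - (t - t') by omega]
    exact hR'
  · exact mass_le hd (hN x' (hXZ hx')) (hFY x' (hXZ hx')) h3 (hheavy x' hx')

/-- **the stage lemma for all large `t`** -/
theorem stageP_ok (hL : Lev c V 3 lev) (hR : Rk c V R) (hE : Ext c V R) (h3R : 3 ^ R ≤ V.card)
    (hd : 0 < d) (ht : 16384 ≤ t) (htR : t ≤ R) (hb : 400 * (b + (12 * d + 40)) ≤ t) :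
    StageP c V R V.card d t (t - t / 20) b := by
  refine stage_of_num hL hR hE h3R hd (by omega) ?_
  intro z hz
  obtain ⟨L, hLt⟩ : ∃ L, L = Nat.log 2 (t + 1) := ⟨_, rfl⟩
  have h0 := log_small ht
  obtain ⟨τ, h8, h1, h2⟩ := far_num_a (K := R - t) (R := R) ht (by omega) (by omega) h3R hz
  rw [← hLt] at h0 h1
  obtain ⟨s, h3, h4, h5⟩ := hub_num_a (q := b + (12 * d + 1) + 2 * L + 13) (m := t / 20) ht
    (by omega) (by omega)
  refine ⟨τ, b + (12 * d + 1) + 2 * L + 13, s, h8, h1, h3, h4, ?_, h2⟩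
  have h6 : t - (t - t / 20) = t / 20 := by omega
  rw [h6]
  exact h5

end FlashRainbow.CF
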