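import Pool.Agent.Work.MP_54723a_co.CF.Main
import Pool.Agent.Work.MP_54723a_co.CF.StageT
import Pool.Agent.Work.MP_54723a_co.CF.FinalC

/-!
# The constant factor theorem  (assembly by helper74)

Zones (helper60), loop and main theorem (helper63), stage lemma (helpers 10, 20, 74, 75, 57),
numbers (helpers 27, 64, 39), transfer (helpers 57, 69, 78).
-/

set_option autoImplicit false

namespace FlashRainbow.CF

open Classical

/-- every extremal set has at most `K * 3 ^ R` points -/
theorem const_ext : ∃ K : ℕ, ∀ (c : ℕ → ℕ → ℕ) (V : Finset ℕ) (lev : ℕ → ℕ → ℕ) (R : ℕ),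
    Lev c V 3 lev → Rk c V R → Ext c V R → V.card ≤ K * 3 ^ R :=
  main_of_stage 1536 13 16384 400 (12 * 1536 + 40) (by norm_num) (by norm_num) (by norm_num)
    (fun _ _ _ _ _ _ hL hR hE h3 ht htR hb =>
      stageP_ok hL hR hE h3 (by norm_num) ht htR hb)

/-- **CONSTANT FACTOR THEOREM** -/
theorem const_final :
    ∃ K : ℕ, ∀ k n : ℕ, 1 ≤ k → K * 3 ^ (k - 1) < n → ∀ c : Fin n → Fin n → ℕ,
      (∃ x : Fin 4 → Fin n, StrictMono x ∧
        ∃ col : ℕ, ∀ i : Fin 3, c (x i.castSucc) (x i.succ) = col) ∨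
      (∃ y : Fin (k + 1) → Fin n, StrictMono y ∧
        Function.Injective (fun i : Fin k => c (y i.castSucc) (y i.succ))) := by
  obtain ⟨K, hK⟩ := const_ext
  exact const_of_large ⟨K, 0, fun R _ c V lev => hK c V lev R⟩

end FlashRainbow.CF
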