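import Pool.Agent.Work.MP_54723a_co.SelfImprove
import Pool.Agent.Work.MP_54723a_co.Final
import Pool.Agent.Work.MP_54723a_co.CF.Typ

/-!
# Constant factor: extremal sets and the transfer to `Fin n`  (helper78)

`Mx R / 3 ^ R` is nondecreasing (`Mx_succ_ge`), so for EVERY `R` a set which attains `Mx R`
satisfies `Ext`.
-/

set_option autoImplicit false

namespace FlashRainbow.CF

open Classical

theorem Mx_mul_pow_le {r R : ℕ} (h : r ≤ R) : Mx r * 3 ^ (R - r) ≤ Mx R := by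
  obtain ⟨n, rfl⟩ := Nat.exists_eq_add_of_le h
  rw [Nat.add_sub_cancel_left]
  clear h
  induction n with
  | zero => simp
  | succ n ih =>
    have h1 := Mx_succ_ge (r + n)
    calc Mx r * 3 ^ (n + 1) = 3 * (Mx r * 3 ^ n) := by ring
      _ ≤ 3 * Mx (r + n) := Nat.mul_le_mul_left _ ih
      _ ≤ Mx (r + (n + 1)) := h1

/-- a set of the largest size is extremal -/
theorem ext_of_card {c : ℕ → ℕ → ℕ} {V : Finset ℕ} {R : ℕ} {lev : ℕ → ℕ → ℕ}
    (hL : Lev c V 3 lev) (hV : V.card = Mx R) : Ext c V R := by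
  intro T hT r hr hrk
  rw [hV]
  refine le_trans (Nat.mul_le_mul_right _ (Mx_spec r c T lev (hL.mono hT) hrk)) ?_
  exact Mx_mul_pow_le hr

theorem attained_ext (R : ℕ) : ∃ (c : ℕ → ℕ → ℕ) (V : Finset ℕ) (lev : ℕ → ℕ → ℕ),
    Lev c V 3 lev ∧ Rk c V R ∧ Ext c V R ∧ V.card = Mx R := by
  obtain ⟨c, V, lev, hL, hR, hV⟩ := Mx_attained R
  exact ⟨c, V, lev, hL, hR, ext_of_card hL hV, hV⟩

/-- it is enough to bound the extremal sets -/
theorem MB_of_ext {B : ℕ → ℕ} (h : ∀ (c : ℕ → ℕ → ℕ) (V : Finset ℕ) (lev : ℕ → ℕ → ℕ) (R : ℕ),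
    Lev c V 3 lev → Rk c V R → Ext c V R → V.card ≤ B R) (R : ℕ) : MB 3 R (B R) := by
  obtain ⟨c, V, lev, hL, hR, hE, hV⟩ := attained_ext R
  have h1 := h c V lev R hL hR hE
  intro c' V' lev' hL' hR'
  have h2 := Mx_spec R c' V' lev' hL' hR'
  omega

/-- translation of a bound for sets without `l`-flash and of rank `k - 1` to colourings of the
pairs of `Fin n` -/
theorem flash_or_rainbow {l k n N : ℕ} (hk : 1 ≤ k) (hN : MB l (k - 1) N) (hn : N < n)
    (c : Fin n → Fin n → ℕ) :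
    (∃ x : Fin (l + 1) → Fin n, StrictMono x ∧
        ∃ col : ℕ, ∀ i : Fin l, c (x i.castSucc) (x i.succ) = col) ∨
      (∃ y : Fin (k + 1) → Fin n, StrictMono y ∧
        Function.Injective (fun i : Fin k => c (y i.castSucc) (y i.succ))) := by
  by_contra hcon
  rw [not_or] at hcon
  obtain ⟨hflash, hrain⟩ := hcon
  set C : ℕ → ℕ → ℕ := fun a b => if h : a < n ∧ b < n then c ⟨a, h.1⟩ ⟨b, h.2⟩ else 0 with hC
  have hCeq : ∀ (a b : ℕ) (ha : a < n) (hb : b < n), C a b = c ⟨a, ha⟩ ⟨b, hb⟩ := by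
    intro a b ha hb
    rw [hC]
    simp only [ha, hb, and_self, dite_true]
  set V := Finset.range n with hV
  have hnoflash : ∀ γ v, ¬ MP C V γ v l := by
    intro γ v hmp
    obtain ⟨y, _, h1, h2, h3⟩ := hmp.toFun
    have h1' : ∀ i ≤ l, y i < n := fun i hi => Finset.mem_range.mp (h1 i hi)
    apply hflash
    refine ⟨_, strictMono_of_lt_succ y h1' h2, γ, fun i => ?_⟩
    have := h3 i i.2
    rw [hCeq _ _ (h1' i (by omega)) (h1' (i + 1) (by omega))] at this
    simpa using this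
  have hR : Rk C V (k - 1) := by
    intro x D hD
    by_contra hlt
    obtain ⟨D', _, hcard, hD'⟩ := hD.suffix k (by omega)
    obtain ⟨y, _, h1, h2, _, h4⟩ := hD'.toFun
    rw [hcard] at h1 h2 h4
    have h1' : ∀ i ≤ k, y i < n := fun i hi => Finset.mem_range.mp (h1 i hi)
    apply hrain
    refine ⟨_, strictMono_of_lt_succ y h1' h2, ?_⟩
    intro i j hij
    apply Fin.ext
    apply h4 i i.2 j j.2
    rw [hCeq _ _ (h1' i (by omega)) (h1' (i + 1) (by omega)),
      hCeq _ _ (h1' j (by omega)) (h1' (j + 1) (by omega))]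
    simpa using hij
  set lev : ℕ → ℕ → ℕ := fun γ v => Nat.findGreatest (fun j => MP C V γ v j) l with hlev
  have hspec : ∀ γ, ∀ v ∈ V, MP C V γ v (lev γ v) := fun γ v hv =>
    Nat.findGreatest_spec (P := fun j => MP C V γ v j) (Nat.zero_le l) (MP.single hv)
  have hlevlt : ∀ γ, ∀ v ∈ V, lev γ v < l := by
    intro γ v hv
    refine lt_of_le_of_ne (Nat.findGreatest_le _) ?_
    intro heq
    have := hspec γ v hv
    rw [heq] at this
    exact hnoflash γ v this
  have hL : Lev C V l lev := by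
    refine ⟨hlevlt, ?_⟩
    intro u hu v hv huv
    have h1 := MP.step (hspec (C u v) u hu) hv huv rfl
    exact Nat.le_findGreatest (hlevlt (C u v) u hu) h1
  have := hN C V lev hL hR
  rw [hV, Finset.card_range] at this
  omega

/-- **The end of the constant factor theorem.** -/
theorem three_final {K : ℕ} (h : ∀ (c : ℕ → ℕ → ℕ) (V : Finset ℕ) (lev : ℕ → ℕ → ℕ) (R : ℕ),
    Lev c V 3 lev → Rk c V R → Ext c V R → V.card ≤ K * 3 ^ R) (k n : ℕ) (hk : 1 ≤ k)
    (hn : K * 3 ^ (k - 1) < n) (c : Fin n → Fin n → ℕ) :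
    (∃ x : Fin (3 + 1) → Fin n, StrictMono x ∧
        ∃ col : ℕ, ∀ i : Fin 3, c (x i.castSucc) (x i.succ) = col) ∨
      (∃ y : Fin (k + 1) → Fin n, StrictMono y ∧
        Function.Injective (fun i : Fin k => c (y i.castSucc) (y i.succ))) :=
  flash_or_rainbow hk (MB_of_ext (B := fun R => K * 3 ^ R) h (k - 1)) hn c

end FlashRainbow.CF
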