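import Pool.Agent.Work.MP_54723a_co.CF.Typ

/-!
# Constant factor: mirror of TYP, PROP, HL and the light zones (helper74; source: note 8613)
-/

set_option autoImplicit false

namespace FlashRainbow.CF

open Classical

variable {c : ℕ → ℕ → ℕ} {V : Finset ℕ} {R : ℕ} {lev : ℕ → ℕ → ℕ}

/-- vertices joined to `x` from above by colour `g` -/
def OutC (c : ℕ → ℕ → ℕ) (V : Finset ℕ) (x g : ℕ) : Finset ℕ := V.filter fun w => x < w ∧ c x w = g

/-- absolute bound for sets of rank `r` -/
def KC (r : ℕ) : ℕ := (r + 1) ^ 2 * 3 ^ (2 * r) * 2 ^ r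

theorem small_rank_le (hL : Lev c V 3 lev) {T : Finset ℕ} (hT : T ⊆ V) {r : ℕ} (hr : Rk c T r) :
    T.card ≤ KC r := by
  have h := avoid_le (U := T) (Θ := ∅) (C := r) (R := r) (by omega) (hL.mono hT) hr
    (fun y D hD _ => hr y D hD)
  simpa [KC] using h

theorem typ_card' (hL : Lev c V 3 lev) (hE : Ext c V R) {x g L : ℕ} {B : Finset ℕ} (hx : x ∈ V)
    (hB : g ∉ B) (hLx : ∀ D, RS c V x D → Disjoint D B → D.card ≤ L) (hL1 : 1 ≤ L) (hLR : L ≤ R) :
    (OutC c V x g).card * 3 ^ (R + 1 - L) ≤ 2 * 3 ^ B.card * V.card := by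
  set n : ℕ := V.card / 3 ^ (R + 1 - L) with hn
  have hpart : ∀ b, ((OutC c V x g).filter fun u => lev g u = b).card ≤ 3 ^ B.card * n := by
    intro b
    refine card_le_of_levels hL.lt n B _
      ((Finset.filter_subset _ _).trans (Finset.filter_subset _ _)) ?_
    intro T' hT' hconst
    have hT'V : T' ⊆ V := hT'.trans ((Finset.filter_subset _ _).trans (Finset.filter_subset _ _))
    have hrk : Rk c T' (L - 1) := by
      intro v D hD
      obtain ⟨u, hDu⟩ := hD.toRS
      have hu := (Finset.mem_filter.mp (hT' hDu.mem))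
      have hu2 := (Finset.mem_filter.mp hu.1).2
      have hDB : Disjoint D B := by
        rw [Finset.disjoint_right]
        intro γ hγ
        exact hD.notMem_of_free (hL.free hT'V (hconst γ hγ))
      have hDg : g ∉ D := by
        refine hD.notMem_of_free (hL.free hT'V ?_)
        intro a ha d hd
        rw [(Finset.mem_filter.mp (hT' ha)).2, (Finset.mem_filter.mp (hT' hd)).2]
      have hcx : c x u ∉ D := by rw [hu2.2]; exact hDg
      have h1 := RS.step (hDu.mono hT'V) hx hu2.1 hcx
      have h2 := hLx _ h1 (by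
        rw [Finset.disjoint_insert_left]
        exact ⟨by rw [hu2.2]; exact hB, hDB⟩)
      rw [Finset.card_insert_of_notMem hcx] at h2
      omega
    have h3 := hE T' hT'V (L - 1) (by omega) hrk
    rw [show R - (L - 1) = R + 1 - L by omega] at h3
    rw [hn, Nat.le_div_iff_mul_le (by positivity)]
    exact h3
  have hsum : (OutC c V x g).card ≤ 2 * (3 ^ B.card * n) := by
    have hmaps : ∀ v ∈ OutC c V x g, lev g v ∈ Finset.Icc 1 2 := by
      intro v hv
      have hv' := Finset.mem_filter.mp hv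
      have h1 := hL.up x hx v hv'.1 hv'.2.1
      rw [hv'.2.2] at h1
      have h2 := hL.lt g v hv'.1
      rw [Finset.mem_Icc]
      omega
    rw [Finset.card_eq_sum_card_fiberwise hmaps]
    calc ∑ b ∈ Finset.Icc 1 2, ((OutC c V x g).filter fun v => lev g v = b).card
        ≤ ∑ b ∈ Finset.Icc 1 2, 3 ^ B.card * n := Finset.sum_le_sum fun b _ => hpart b
      _ = 2 * (3 ^ B.card * n) := by rw [Finset.sum_const, Nat.card_Icc, smul_eq_mul]
  calc (OutC c V x g).card * 3 ^ (R + 1 - L) ≤ 2 * (3 ^ B.card * n) * 3 ^ (R + 1 - L) :=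
        Nat.mul_le_mul_right _ hsum
    _ = 2 * 3 ^ B.card * (n * 3 ^ (R + 1 - L)) := by ring
    _ ≤ 2 * 3 ^ B.card * V.card := Nat.mul_le_mul_left _ (Nat.div_mul_le_self _ _)

/-- mirror of **TYP** -/
theorem typ' (hL : Lev c V 3 lev) (hE : Ext c V R) {x g A C : ℕ} {B : Finset ℕ} (hx : x ∈ V)
    (hA : V.card ≤ A * (OutC c V x g).card) (hV : 0 < V.card) (hC : 2 * A < 3 ^ (C + 2))
    (hB : g ∉ B) : ∃ D, RS c V x D ∧ Disjoint D B ∧ R ≤ D.card + B.card + C := by
  by_contra hcon
  push Not at hcon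
  have hpos : 0 < (OutC c V x g).card := by
    rcases Nat.eq_zero_or_pos (OutC c V x g).card with h0 | h0
    · rw [h0, Nat.mul_zero] at hA
      omega
    · exact h0
  have h0 := hcon ∅ (RS.single hx) (Finset.disjoint_empty_left _)
  rw [Finset.card_empty, Nat.zero_add] at h0
  obtain ⟨u, hu⟩ := Finset.card_pos.mp hpos
  have hu' := Finset.mem_filter.mp hu
  have h1 := hcon {g} (by
    have h2 := RS.step (RS.single (c := c) hu'.1) hx hu'.2.1 (Finset.notMem_empty _)
    rw [hu'.2.2] at h2
    exact h2) (Finset.disjoint_singleton_left.mpr hB)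
  rw [Finset.card_singleton] at h1
  have h2 := typ_card' hL hE (L := R - B.card - C - 1) hx hB (fun D hD hDB => by
    have := hcon D hD hDB
    omega) (by omega) (by omega)
  rw [show R + 1 - (R - B.card - C - 1) = B.card + (C + 2) by omega, pow_add] at h2
  have h3 : (OutC c V x g).card * (3 ^ B.card * 3 ^ (C + 2)) ≤
      2 * 3 ^ B.card * (A * (OutC c V x g).card) := h2.trans (Nat.mul_le_mul_left _ hA)
  have h4 : 3 ^ (C + 2) * ((OutC c V x g).card * 3 ^ B.card) ≤
      (2 * A) * ((OutC c V x g).card * 3 ^ B.card) := by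
    calc 3 ^ (C + 2) * ((OutC c V x g).card * 3 ^ B.card)
        = (OutC c V x g).card * (3 ^ B.card * 3 ^ (C + 2)) := by ring
      _ ≤ 2 * 3 ^ B.card * (A * (OutC c V x g).card) := h3
      _ = (2 * A) * ((OutC c V x g).card * 3 ^ B.card) := by ring
  have h5 := Nat.le_of_mul_le_mul_right h4 (Nat.mul_pos hpos (by positivity))
  omega

/-- mirror of **PROP** -/
theorem prop' (hL : Lev c V 3 lev) (hE : Ext c V R) {x u g A C : ℕ} {B : Finset ℕ} (hx : x ∈ V)
    (hu : u ∈ V) (hux : u < x) (hA : V.card ≤ A * (OutC c V x g).card) (hV : 0 < V.card)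
    (hC : 2 * A < 3 ^ (C + 2)) (hB : g ∉ B) (hc : c u x ≠ g) (hcB : c u x ∉ B) :
    ∃ D, RS c V u D ∧ Disjoint D B ∧ R ≤ D.card + B.card + C := by
  obtain ⟨D, h1, h2, h3⟩ := typ' hL hE (B := insert (c u x) B) hx hA hV hC (by
    rw [Finset.mem_insert, not_or]
    exact ⟨fun h => hc h.symm, hB⟩)
  rw [Finset.disjoint_insert_right] at h2
  refine ⟨insert (c u x) D, RS.step h1 hu hux h2.1, ?_, ?_⟩
  · rw [Finset.disjoint_insert_left]
    exact ⟨hcB, h2.2⟩
  · rw [Finset.card_insert_of_notMem h2.1]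
    rw [Finset.card_insert_of_notMem hcB] at h3
    omega

/-- mirror of `out_class_le` -/
theorem in_class_le (hL : Lev c V 3 lev) (hR : Rk c V R) {x g m K : ℕ} {D : Finset ℕ}
    (hD : RS c V x D) (hDm : D.card = m) (hg : g ∉ D)
    (hK : ∀ T ⊆ V, Rk c T (R - m - 1) → T.card ≤ K) :
    (InC c V x g).card ≤ 2 * (3 ^ m * K) := by
  have hx : x ∈ V := hD.mem
  have hmaps : ∀ v ∈ InC c V x g, lev g v ∈ Finset.range 2 := by
    intro v hv
    have hv' := Finset.mem_filter.mp hv
    have h1 := hL.up v hv'.1 x hx hv'.2.1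
    rw [hv'.2.2] at h1
    have h2 := hL.lt g x hx
    rw [Finset.mem_range]
    omega
  rw [Finset.card_eq_sum_card_fiberwise hmaps]
  calc ∑ b ∈ Finset.range 2, ((InC c V x g).filter fun v => lev g v = b).card
      ≤ ∑ b ∈ Finset.range 2, 3 ^ m * K := by
        refine Finset.sum_le_sum fun b _ => ?_
        rw [← hDm]
        refine card_le_of_levels hL.lt K D _
          ((Finset.filter_subset _ _).trans (Finset.filter_subset _ _)) ?_
        intro T' hT' hconst
        have hT'V : T' ⊆ V :=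
          hT'.trans ((Finset.filter_subset _ _).trans (Finset.filter_subset _ _))
        refine hK T' hT'V ?_
        intro y E hE
        have hyv := Finset.mem_filter.mp (Finset.mem_filter.mp (hT' hE.mem)).1
        have hdis : Disjoint E D := by
          rw [Finset.disjoint_right]
          intro γ hγ
          exact hE.notMem_of_free (hL.free hT'V (hconst γ hγ))
        have hgE : g ∉ E := by
          refine hE.notMem_of_free (hL.free hT'V ?_)
          intro u hu v hv
          rw [(Finset.mem_filter.mp (hT' hu)).2, (Finset.mem_filter.mp (hT' hv)).2]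
        have h1 := RP.step (hE.mono hT'V) hx hyv.2.1 (by rw [hyv.2.2]; exact hgE)
        rw [hyv.2.2] at h1
        have hdis2 : Disjoint (insert g E) D := by
          rw [Finset.disjoint_insert_left]
          exact ⟨hg, hdis⟩
        obtain ⟨z, hz⟩ := hD.join (Finset.Subset.refl V) _ h1 hdis2.symm
        have h2 := hR _ _ hz
        rw [Finset.card_union_of_disjoint hdis2, Finset.card_insert_of_notMem hgE, hDm] at h2
        omega
    _ = 2 * (3 ^ m * K) := by
        rw [Finset.sum_const, Finset.card_range, smul_eq_mul]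

/-- a vertex with a long path into it that avoids `g` has a light out-class of colour `g` -/
theorem out_light_of_path (hL : Lev c V 3 lev) (hR : Rk c V R) {x g C : ℕ} {D : Finset ℕ}
    (hD : RP c V x D) (hg : g ∉ D) (hC : R ≤ D.card + 1 + C) :
    (OutC c V x g).card ≤ 2 * (3 ^ (R - 1 - C) * KC C) := by
  obtain ⟨D', hD', hcard, hRP⟩ := hD.suffix (R - 1 - C) (by omega)
  refine out_class_le hL hR hRP hcard (fun h => hg (hD' h)) ?_
  intro T hT hrk
  exact small_rank_le hL hT (fun y E hE => (hrk y E hE).trans (by omega))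

/-- a vertex with a long path out of it that avoids `g` has a light in-class of colour `g` -/
theorem in_light_of_path (hL : Lev c V 3 lev) (hR : Rk c V R) {x g C : ℕ} {D : Finset ℕ}
    (hD : RS c V x D) (hg : g ∉ D) (hC : R ≤ D.card + 1 + C) :
    (InC c V x g).card ≤ 2 * (3 ^ (R - 1 - C) * KC C) := by
  obtain ⟨D', hD', hcard, hRS⟩ := hD.initial (R - 1 - C) (by omega)
  refine in_class_le hL hR hRS hcard (fun h => hg (hD' h)) ?_
  intro T hT hrk
  exact small_rank_le hL hT (fun y E hE => (hrk y E hE).trans (by omega))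

/-- **HL**: a heavy in-class `h` at `x` makes every out-class of another colour light. -/
theorem hl_out (hL : Lev c V 3 lev) (hR : Rk c V R) (hE : Ext c V R) {x h g A C : ℕ} (hx : x ∈ V)
    (hA : V.card ≤ A * (InC c V x h).card) (hV : 0 < V.card) (hC : 2 * A < 3 ^ (C + 2))
    (hg : g ≠ h) : (OutC c V x g).card ≤ 2 * (3 ^ (R - 1 - C) * KC C) := by
  obtain ⟨D, h1, h2, h3⟩ := typ hL hE (B := {g}) hx hA hV hC (by simpa using fun h' => hg h'.symm)
  rw [Finset.disjoint_singleton_right] at h2
  rw [Finset.card_singleton] at h3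
  exact out_light_of_path hL hR h1 h2 (by omega)

/-- behind an in-heavy vertex all out-classes are light, except the colours `h` and `c(x,w)` -/
theorem zone_out (hL : Lev c V 3 lev) (hR : Rk c V R) (hE : Ext c V R) {x w h g A C : ℕ}
    (hx : x ∈ V) (hw : w ∈ V) (hxw : x < w) (hA : V.card ≤ A * (InC c V x h).card)
    (hV : 0 < V.card) (hC : 2 * A < 3 ^ (C + 2)) (hc : c x w ≠ h) (hg : g ≠ h) (hg' : g ≠ c x w) :
    (OutC c V w g).card ≤ 2 * (3 ^ (R - 1 - C) * KC C) := by
  obtain ⟨D, h1, h2, h3⟩ := prop hL hE (B := {g}) hx hw hxw hA hV hC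
    (by simpa using fun h' => hg h'.symm) hc (by simpa using fun h' => hg' h'.symm)
  rw [Finset.disjoint_singleton_right] at h2
  rw [Finset.card_singleton] at h3
  exact out_light_of_path hL hR h1 h2 (by omega)

/-- mirror of **HL** -/
theorem hl_in (hL : Lev c V 3 lev) (hR : Rk c V R) (hE : Ext c V R) {x h g A C : ℕ} (hx : x ∈ V)
    (hA : V.card ≤ A * (OutC c V x h).card) (hV : 0 < V.card) (hC : 2 * A < 3 ^ (C + 2))
    (hg : g ≠ h) : (InC c V x g).card ≤ 2 * (3 ^ (R - 1 - C) * KC C) := by
  obtain ⟨D, h1, h2, h3⟩ := typ' hL hE (B := {g}) hx hA hV hC (by simpa using fun h' => hg h'.symm)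
  rw [Finset.disjoint_singleton_right] at h2
  rw [Finset.card_singleton] at h3
  exact in_light_of_path hL hR h1 h2 (by omega)

/-- before an out-heavy vertex all in-classes are light, except the colours `h` and `c(u,x)` -/
theorem zone_in (hL : Lev c V 3 lev) (hR : Rk c V R) (hE : Ext c V R) {x u h g A C : ℕ}
    (hx : x ∈ V) (hu : u ∈ V) (hux : u < x) (hA : V.card ≤ A * (OutC c V x h).card)
    (hV : 0 < V.card) (hC : 2 * A < 3 ^ (C + 2)) (hc : c u x ≠ h) (hg : g ≠ h) (hg' : g ≠ c u x) :
    (InC c V u g).card ≤ 2 * (3 ^ (R - 1 - C) * KC C) := by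
  obtain ⟨D, h1, h2, h3⟩ := prop' hL hE (B := {g}) hx hu hux hA hV hC
    (by simpa using fun h' => hg h'.symm) hc (by simpa using fun h' => hg' h'.symm)
  rw [Finset.disjoint_singleton_right] at h2
  rw [Finset.card_singleton] at h3
  exact in_light_of_path hL hR h1 h2 (by omega)

end FlashRainbow.CF
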