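import Pool.Agent.Work.MP_54723a_co.CF.Sched

/-!
# Constant factor: the numbers (helper27)

The schedule of the ranks against the exponents of the zones.
-/

set_option autoImplicit false

namespace FlashRainbow.CF.Sched

/-- the exponents of the zones grow slower than the ranks -/
theorem lam_growth (lam : ℕ → ℕ) (D p : ℕ)
    (hlam : ∀ i, (lam (i + 1) : ℝ) ≤ 65 / 64 * lam i + D * ((i : ℝ) + 1) ^ p) :
    ∃ C : ℕ, ∀ k, 20 ^ k * lam k ≤ C * 21 ^ k := by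
  obtain ⟨C, hC0, hC⟩ := growth p (κ := 65 / 64) (s := 1) (g := 21 / 20) (B := D)
    (by norm_num) (by norm_num) (by norm_num) (by norm_num) (Nat.cast_nonneg D) (lam 0 : ℝ)
  refine ⟨⌈C⌉₊, fun k => ?_⟩
  have h1 := hC (fun i => (lam i : ℝ)) k le_rfl (fun i _ => by simpa using hlam i) k le_rfl
  have h2 : C ≤ (⌈C⌉₊ : ℝ) := Nat.le_ceil C
  have h3 : (lam k : ℝ) ≤ ⌈C⌉₊ * (21 / 20) ^ k :=
    h1.trans (mul_le_mul_of_nonneg_right h2 (by positivity))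
  have h4 : (20 : ℝ) ^ k * lam k ≤ ⌈C⌉₊ * 21 ^ k := by
    calc (20 : ℝ) ^ k * lam k ≤ 20 ^ k * (⌈C⌉₊ * (21 / 20) ^ k) :=
          mul_le_mul_of_nonneg_left h3 (by positivity)
      _ = ⌈C⌉₊ * 21 ^ k := by
          rw [div_pow]
          field_simp
  exact_mod_cast h4

/-- **NUMBERS**, general form: for `R ≥ C` there are `n ≥ 2` and ranks `t 2 < .. < t n = R` with
`t i = t (i+1) - t (i+1) / 20`, all of them at least `t₁` and at least `E (lam (i+4) + c)`. -/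
theorem numbers_real (lam : ℕ → ℕ) (D p : ℕ)
    (hlam : ∀ i, (lam (i + 1) : ℝ) ≤ 65 / 64 * lam i + D * ((i : ℝ) + 1) ^ p) (E c t₁ : ℕ) :
    ∃ C : ℕ, t₁ ≤ C ∧ ∀ R, C ≤ R → ∃ n, 2 ≤ n ∧ ∃ t : ℕ → ℕ, t n = R ∧ t 2 ≤ C ∧
      (∀ i, 2 ≤ i → i ≤ n → t₁ ≤ t i ∧ 400 ≤ t i ∧ ∀ j ≤ i + 4, E * (lam j + c) ≤ t i) ∧
      (∀ i, 2 ≤ i → i < n → t i = t (i + 1) - t (i + 1) / 20 ∧ t i + 3 ≤ t (i + 1) ∧
        20 * (t (i + 1) - t i) ≤ t (i + 1)) := by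
  obtain ⟨C₁, hC₁⟩ := lam_growth lam D p hlam
  -- `lam k ≤ C₁ (21/20)^k`
  set t₀ : ℕ := max (max 400 t₁) (E * (2 * C₁ + c)) with ht₀
  have h400 : 400 ≤ t₀ := (le_max_left _ _).trans (le_max_left _ _)
  have ht1 : t₁ ≤ t₀ := (le_max_right _ _).trans (le_max_left _ _)
  have hE : E * (2 * C₁ + c) ≤ t₀ := le_max_right _ _
  refine ⟨2 * t₀, by omega, fun R hR => ?_⟩
  obtain ⟨n, T, h1, h2, h3, h4, h5⟩ := exists_sched t₀ h400 R (by omega)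
  refine ⟨n + 2, by omega, fun i => T (i - 2), by simpa using h1, by simpa using h2, ?_, ?_⟩
  · intro i hi2 hin
    obtain ⟨k, rfl⟩ : ∃ k, i = k + 2 := ⟨i - 2, by omega⟩
    have hk : k ≤ n := by omega
    simp only [Nat.add_sub_cancel]
    refine ⟨ht1.trans (h3 k hk), h400.trans (h3 k hk), fun j hj => ?_⟩
    -- the bound for `lam j`, `j ≤ k + 6`
    have h6 : 20 ^ k * lam j ≤ 2 * C₁ * 21 ^ k := by
      rcases le_total k j with hkj | hjk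
      · obtain ⟨m, rfl⟩ : ∃ m, j = k + m := ⟨j - k, by omega⟩
        have hm : m ≤ 6 := by omega
        have h7 := hC₁ (k + m)
        have h8 : (20 ^ m * 20 ^ k * lam (k + m)) ≤ C₁ * (21 ^ k * 21 ^ m) := by
          calc 20 ^ m * 20 ^ k * lam (k + m) = 20 ^ (k + m) * lam (k + m) := by
                rw [pow_add]; ring
            _ ≤ C₁ * 21 ^ (k + m) := h7
            _ = C₁ * (21 ^ k * 21 ^ m) := by rw [pow_add]
        have h9 : 21 ^ m ≤ 2 * 20 ^ m := by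
          interval_cases m <;> norm_num
        have h10 : 20 ^ m * (20 ^ k * lam (k + m)) ≤ 20 ^ m * (2 * C₁ * 21 ^ k) := by
          calc 20 ^ m * (20 ^ k * lam (k + m)) = 20 ^ m * 20 ^ k * lam (k + m) := by ring
            _ ≤ C₁ * (21 ^ k * 21 ^ m) := h8
            _ ≤ C₁ * (21 ^ k * (2 * 20 ^ m)) :=
                Nat.mul_le_mul_left _ (Nat.mul_le_mul_left _ h9)
            _ = 20 ^ m * (2 * C₁ * 21 ^ k) := by ring
        exact Nat.le_of_mul_le_mul_left h10 (by positivity)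
      · obtain ⟨m, rfl⟩ : ∃ m, k = j + m := ⟨k - j, by omega⟩
        have h7 := hC₁ j
        calc 20 ^ (j + m) * lam j = 20 ^ m * (20 ^ j * lam j) := by rw [pow_add]; ring
          _ ≤ 20 ^ m * (C₁ * 21 ^ j) := Nat.mul_le_mul_left _ h7
          _ ≤ 21 ^ m * (2 * C₁ * 21 ^ j) := by
              refine Nat.mul_le_mul (Nat.pow_le_pow_left (by norm_num) m) ?_
              refine Nat.mul_le_mul_right _ (by omega)
          _ = 2 * C₁ * 21 ^ (j + m) := by rw [pow_add]; ring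
    have h7 : 20 ^ k * (E * (lam j + c)) ≤ 20 ^ k * T k := by
      calc 20 ^ k * (E * (lam j + c)) = E * (20 ^ k * lam j + 20 ^ k * c) := by ring
        _ ≤ E * (2 * C₁ * 21 ^ k + 21 ^ k * c) := by
            refine Nat.mul_le_mul_left _ (Nat.add_le_add h6 ?_)
            exact Nat.mul_le_mul_right _ (Nat.pow_le_pow_left (by norm_num) k)
        _ = 21 ^ k * (E * (2 * C₁ + c)) := by ring
        _ ≤ 21 ^ k * t₀ := Nat.mul_le_mul_left _ hE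
        _ ≤ 20 ^ k * T k := h5 k hk
    exact Nat.le_of_mul_le_mul_left h7 (by positivity)
  · intro i hi2 hin
    obtain ⟨k, rfl⟩ : ∃ k, i = k + 2 := ⟨i - 2, by omega⟩
    have hk : k < n := by omega
    have hk2 : k + 2 + 1 - 2 = k + 1 := by omega
    simp only [Nat.add_sub_cancel, hk2]
    have h6 := h4 k hk
    have h7 := h3 k hk.le
    refine ⟨h6, by omega, by omega⟩

/-- **NUMBERS**, the form of helper10's loop. -/
theorem numbers (lam : ℕ → ℕ) (D p : ℕ)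
    (hlam : ∀ i, lam (i + 1) ≤ lam i + lam i / 64 + D * (i + 1) ^ p) (E c t₁ : ℕ) :
    ∃ C : ℕ, t₁ ≤ C ∧ ∀ R, C ≤ R → ∃ n, 2 ≤ n ∧ ∃ t : ℕ → ℕ, t n = R ∧ t 2 ≤ C ∧
      (∀ i, 2 ≤ i → i ≤ n → t₁ ≤ t i ∧ 400 ≤ t i ∧ ∀ j ≤ i + 4, E * (lam j + c) ≤ t i) ∧
      (∀ i, 2 ≤ i → i < n → t i = t (i + 1) - t (i + 1) / 20 ∧ t i + 3 ≤ t (i + 1) ∧
        20 * (t (i + 1) - t i) ≤ t (i + 1)) := by
  refine numbers_real lam D p (fun i => ?_) E c t₁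
  have h1 : (lam i / 64 : ℕ) ≤ (lam i : ℝ) / 64 := by
    exact_mod_cast Nat.cast_div_le
  have h2 : (lam (i + 1) : ℝ) ≤ lam i + (lam i / 64 : ℕ) + D * ((i : ℝ) + 1) ^ p := by
    exact_mod_cast hlam i
  linarith

/-- **NUMBERS** for helper60's recursion (`CF/HZones.lean`) with `q k = Q₀ (k + 2) ^ 2`. -/
theorem numbers_zones (A : ℕ → ℕ) (d e Q₀ : ℕ) (hd : 1536 ≤ d)
    (hA : ∀ k, A (k + 1) ≤ A k + ((12 * A k + 4) / (d / 2) + 1) + e +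
      2 * ((k + 1) ^ 2 * (Q₀ * (k + 3) ^ 2))) (E c t₁ : ℕ) :
    ∃ C : ℕ, t₁ ≤ C ∧ ∀ R, C ≤ R → ∃ n, 2 ≤ n ∧ ∃ t : ℕ → ℕ, t n = R ∧ t 2 ≤ C ∧
      (∀ i, 2 ≤ i → i ≤ n → t₁ ≤ t i ∧ 400 ≤ t i ∧ ∀ j ≤ i + 4, E * (A j + c) ≤ t i) ∧
      (∀ i, 2 ≤ i → i < n → t i = t (i + 1) - t (i + 1) / 20 ∧ t i + 3 ≤ t (i + 1) ∧
        20 * (t (i + 1) - t i) ≤ t (i + 1)) := by
  refine numbers_real A (18 * Q₀ + e + 3) 4 (fun k => ?_) E c t₁
  have hd2 : 768 ≤ d / 2 := by omega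
  have h1 : (12 * A k + 4) / (d / 2) ≤ (12 * A k + 4) / 768 := Nat.div_le_div_left hd2 (by norm_num)
  have h2 : 64 * ((12 * A k + 4) / 768) ≤ A k + 1 := by omega
  have h3 : (k + 3) ^ 2 ≤ 9 * (k + 1) ^ 2 := by
    calc (k + 3) ^ 2 ≤ (3 * (k + 1)) ^ 2 := Nat.pow_le_pow_left (by omega) 2
      _ = 9 * (k + 1) ^ 2 := by ring
  have h4 : 2 * ((k + 1) ^ 2 * (Q₀ * (k + 3) ^ 2)) ≤ 18 * Q₀ * (k + 1) ^ 4 := by
    calc 2 * ((k + 1) ^ 2 * (Q₀ * (k + 3) ^ 2)) ≤ 2 * ((k + 1) ^ 2 * (Q₀ * (9 * (k + 1) ^ 2))) := by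
          refine Nat.mul_le_mul_left _ (Nat.mul_le_mul_left _ (Nat.mul_le_mul_left _ h3))
      _ = 18 * Q₀ * (k + 1) ^ 4 := by ring
  have h5 : 1 ≤ (k + 1) ^ 4 := Nat.one_le_pow _ _ (by omega)
  have h6 : 64 * A (k + 1) ≤ 65 * A k + 64 * ((18 * Q₀ + e + 3) * (k + 1) ^ 4) := by
    have h7 := hA k
    have h8 : e + 3 ≤ (e + 3) * (k + 1) ^ 4 := Nat.le_mul_of_pos_right _ (by positivity)
    have h9 : (18 * Q₀ + e + 3) * (k + 1) ^ 4 = 18 * Q₀ * (k + 1) ^ 4 + (e + 3) * (k + 1) ^ 4 := by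
      ring
    rw [h9]
    omega
  have h7 : (64 : ℝ) * A (k + 1) ≤ 65 * A k + 64 * ((18 * Q₀ + e + 3 : ℕ) * ((k : ℝ) + 1) ^ 4) := by
    exact_mod_cast h6
  linarith

/-- the same with the indices of helper63's loop: `T (J - 1) = R`, END at `T 1 ≤ C` -/
theorem numbers_loop (A : ℕ → ℕ) (d e Q₀ : ℕ) (hd : 1536 ≤ d)
    (hA : ∀ k, A (k + 1) ≤ A k + ((12 * A k + 4) / (d / 2) + 1) + e +
      2 * ((k + 1) ^ 2 * (Q₀ * (k + 3) ^ 2))) (E c t₁ : ℕ) :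
    ∃ C : ℕ, t₁ ≤ C ∧ ∀ R, C ≤ R → ∃ J, 2 ≤ J ∧ ∃ T : ℕ → ℕ, T (J - 1) = R ∧ T 1 ≤ C ∧
      (∀ m, 1 ≤ m → m < J → t₁ ≤ T m ∧ 400 ≤ T m ∧ ∀ j ≤ m + 4, E * (A j + c) ≤ T m) ∧
      (∀ m, 1 ≤ m → m + 1 < J → T m = T (m + 1) - T (m + 1) / 20 ∧ T m + 3 ≤ T (m + 1) ∧
        20 * (T (m + 1) - T m) ≤ T (m + 1)) := by
  obtain ⟨C, hC, h⟩ := numbers_zones A d e Q₀ hd hA E c t₁
  refine ⟨C, hC, fun R hR => ?_⟩
  obtain ⟨n, hn, t, h1, h2, h3, h4⟩ := h R hR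
  refine ⟨n, hn, fun m => t (m + 1), ?_, h2, ?_, ?_⟩
  · have : n - 1 + 1 = n := by omega
    simpa [this] using h1
  · intro m hm hmn
    obtain ⟨a, b, c'⟩ := h3 (m + 1) (by omega) (by omega)
    exact ⟨a, b, fun j hj => c' j (by omega)⟩
  · intro m hm hmn
    exact h4 (m + 1) (by omega) (by omega)

/-- the precisions `q l = Q (l + 2) ^ 2` -/
theorem sum_q (Q : ℕ) (J : ℕ) :
    ∑ l ∈ Finset.range J, (1 : ℚ) / ((Q * (l + 2) ^ 2 : ℕ) : ℚ) ≤ 1 / (Q : ℚ) := by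
  rcases Nat.eq_zero_or_pos Q with h | hQ
  · subst h; simp
  have hQ' : (0 : ℚ) < Q := by exact_mod_cast hQ
  have key : ∀ J : ℕ, ∑ l ∈ Finset.range J, (1 : ℚ) / ((Q * (l + 2) ^ 2 : ℕ) : ℚ) ≤
      (1 / (Q : ℚ)) * (1 - 1 / ((J : ℚ) + 1)) := by
    intro J
    induction J with
    | zero => simp
    | succ J ih =>
      rw [Finset.sum_range_succ]
      have h1 : (1 : ℚ) / ((Q * (J + 2) ^ 2 : ℕ) : ℚ) ≤
          (1 / (Q : ℚ)) * (1 / ((J : ℚ) + 1) - 1 / ((J : ℚ) + 2)) := by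
        push_cast
        have h2 : (1 : ℚ) / ((J : ℚ) + 1) - 1 / ((J : ℚ) + 2) = 1 / (((J : ℚ) + 1) * (J + 2)) := by
          field_simp
          ring
        rw [h2, one_div_mul_one_div]
        apply one_div_le_one_div_of_le (by positivity)
        have h3 : (0 : ℚ) ≤ J := Nat.cast_nonneg J
        apply mul_le_mul_of_nonneg_left _ hQ'.le
        nlinarith
      calc _ ≤ (1 / (Q : ℚ)) * (1 - 1 / ((J : ℚ) + 1)) +
            (1 / (Q : ℚ)) * (1 / ((J : ℚ) + 1) - 1 / ((J : ℚ) + 2)) := add_le_add ih h1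
        _ = (1 / (Q : ℚ)) * (1 - 1 / (((J + 1 : ℕ) : ℚ) + 1)) := by
            push_cast
            ring
  refine (key J).trans ?_
  have h4 : (0 : ℚ) ≤ 1 / ((J : ℚ) + 1) := by positivity
  have h5 : (0 : ℚ) ≤ 1 / (Q : ℚ) := by positivity
  nlinarith

end FlashRainbow.CF.Sched
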