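import Mathlib

/-!
# Numbers: the sizes of the zones

`AA d e Q k` is the recursion of the theorem `zones` with `q k = Q (k + 2) ^ 2`.
-/

set_option autoImplicit false

namespace FlashRainbow.CF

/-- the precision -/
def qq (Q k : ℕ) : ℕ := Q * (k + 2) ^ 2

/-- the exponents of the sizes of the zones -/
def AA (d e Q : ℕ) : ℕ → ℕ
  | 0 => 0
  | k + 1 => AA d e Q k + ((12 * AA d e Q k + 4) / (d / 2) + 1) + e +
      2 * ((k + 1) ^ 2 * qq Q (k + 1))

theorem AA_zero (d e Q : ℕ) : AA d e Q 0 = 0 := rfl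

theorem AA_succ (d e Q k : ℕ) : AA d e Q (k + 1) =
    AA d e Q k + ((12 * AA d e Q k + 4) / (d / 2) + 1) + e + 2 * ((k + 1) ^ 2 * qq Q (k + 1)) :=
  rfl

theorem AA_mono (d e Q : ℕ) {i j : ℕ} (h : i ≤ j) : AA d e Q i ≤ AA d e Q j := by
  induction j, h using Nat.le_induction with
  | base => exact le_refl _
  | succ j _ ih =>
    refine ih.trans ?_
    rw [AA_succ, Nat.add_assoc, Nat.add_assoc]
    exact Nat.le_add_right _ _

theorem poly_step (k : ℕ) :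
    3200 * (k + 641) ^ 4 + 40 * (k + 3) ^ 4 ≤ 3280 * (k + 640) ^ 4 := by
  obtain ⟨n, hn⟩ : ∃ n, n = k + 640 := ⟨_, rfl⟩
  have h1 : (k + 3) ^ 4 ≤ n ^ 4 := Nat.pow_le_pow_left (by omega) 4
  have h2 : k + 641 = n + 1 := by omega
  have h3 : 640 ≤ n := by omega
  rw [h2, ← hn]
  have e1 : (n + 1) ^ 4 = n ^ 4 + 4 * n ^ 3 + 6 * n ^ 2 + 4 * n + 1 := by ring
  have e2 : 640 * n ^ 3 ≤ n ^ 4 := by
    calc 640 * n ^ 3 ≤ n * n ^ 3 := Nat.mul_le_mul_right _ h3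
      _ = n ^ 4 := by ring
  have e3 : 640 * n ^ 2 ≤ n ^ 3 := by
    calc 640 * n ^ 2 ≤ n * n ^ 2 := Nat.mul_le_mul_right _ h3
      _ = n ^ 3 := by ring
  have e4 : 640 * n ≤ n ^ 2 := by
    calc 640 * n ≤ n * n := Nat.mul_le_mul_right _ h3
      _ = n ^ 2 := by ring
  rw [e1]
  omega

/-- one step of the recursion -/
theorem A_step {d e Q a a' r : ℕ} (hd : 24000 ≤ d) (k : ℕ) (hr : r ≤ Q * (k + 3) ^ 2)
    (ha : a' ≤ a + ((12 * a + 4) / (d / 2) + 1) + e + 2 * ((k + 1) ^ 2 * r)) :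
    1000 * a' ≤ 1001 * a + 1000 * ((e + 3 + 2 * Q) * (k + 3) ^ 4) := by
  have h1 : (12 * a + 4) / (d / 2) ≤ (12 * a + 4) / 12000 :=
    Nat.div_le_div_left (by omega) (by norm_num)
  have h2 : 12000 * ((12 * a + 4) / 12000) ≤ 12 * a + 4 := Nat.mul_div_le _ _
  have h3 : (k + 1) ^ 2 * r ≤ Q * (k + 3) ^ 4 := by
    calc (k + 1) ^ 2 * r ≤ (k + 3) ^ 2 * (Q * (k + 3) ^ 2) :=
          Nat.mul_le_mul (Nat.pow_le_pow_left (by omega) 2) hr
      _ = Q * (k + 3) ^ 4 := by ring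
  have h4 : 1 ≤ (k + 3) ^ 4 := Nat.one_le_pow _ _ (by omega)
  have h5 : (e + 3 + 2 * Q) * (k + 3) ^ 4 = e * (k + 3) ^ 4 + 3 * (k + 3) ^ 4 +
      2 * (Q * (k + 3) ^ 4) := by ring
  have h6 : e ≤ e * (k + 3) ^ 4 := Nat.le_mul_of_pos_right _ (by omega)
  rw [h5]
  omega

/-- **The sizes of the zones are small against the schedule** (any precision `q` of at most
quadratic growth, any `A` below the recursion of `zones`). -/
theorem A_le (d e Q : ℕ) (hd : 24000 ≤ d) : ∃ C, ∀ (q A T : ℕ → ℕ) (J : ℕ),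
    (∀ k < J, q (k + 1) ≤ Q * (k + 3) ^ 2) → A 0 = 0 →
    (∀ k < J, A (k + 1) ≤ A k + ((12 * A k + 4) / (d / 2) + 1) + e +
      2 * ((k + 1) ^ 2 * q (k + 1))) →
    C ≤ T 0 → (∀ k < J, 41 * T k ≤ 40 * T (k + 1)) → ∀ k ≤ J, 1000 * A k ≤ T k := by
  obtain ⟨B, hB⟩ : ∃ B, B = e + 3 + 2 * Q := ⟨_, rfl⟩
  refine ⟨1000 * (80 * B * 640 ^ 4), fun q A T J hq hA0 hA h0 hT => ?_⟩
  have key : ∀ k ≤ J, 1000 * (A k + 80 * B * (k + 640) ^ 4) ≤ T k := by
    intro k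
    induction k with
    | zero =>
      intro _
      rw [hA0, zero_add, zero_add]
      exact h0
    | succ k ih =>
      intro hk
      have h1 := ih (by omega)
      have h2 := hT k (by omega)
      have h3 := A_step hd k (hq k (by omega)) (hA k (by omega))
      rw [← hB] at h3
      have h4 := Nat.mul_le_mul_left B (poly_step k)
      rw [show k + 1 + 640 = k + 641 by ring]
      have e1 : B * (3200 * (k + 641) ^ 4 + 40 * (k + 3) ^ 4) =
          3200 * (B * (k + 641) ^ 4) + 40 * (B * (k + 3) ^ 4) := by ring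
      have e2 : B * (3280 * (k + 640) ^ 4) = 3280 * (B * (k + 640) ^ 4) := by ring
      have e3 : 80 * B * (k + 640) ^ 4 = 80 * (B * (k + 640) ^ 4) := by ring
      have e4 : 80 * B * (k + 641) ^ 4 = 80 * (B * (k + 641) ^ 4) := by ring
      rw [e1, e2] at h4
      rw [e3] at h1
      rw [e4]
      omega
  intro k hk
  have := key k hk
  omega

/-- the recursion itself -/
theorem AA_le (d e Q : ℕ) (hd : 24000 ≤ d) : ∃ C, ∀ (T : ℕ → ℕ) (J : ℕ), C ≤ T 0 →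
    (∀ k < J, 41 * T k ≤ 40 * T (k + 1)) → ∀ k ≤ J, 1000 * AA d e Q k ≤ T k := by
  obtain ⟨C, hC⟩ := A_le d e Q hd
  refine ⟨C, fun T J h0 hT => hC (qq Q) (AA d e Q) T J (fun k _ => ?_) rfl (fun k _ => ?_) h0 hT⟩
  · unfold qq
    rw [show k + 1 + 2 = k + 3 by ring]
  · rw [AA_succ]

/-- the precisions are large in the sum: telescoping -/
theorem sum_qq (Q : ℕ) (hQ : 0 < Q) (m n : ℕ) :
    ∑ k ∈ Finset.Ico m n, (1 : ℝ) / (qq Q k : ℝ) ≤ 1 / (Q : ℝ) * (1 / (m + 1 : ℝ)) := by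
  have hQ' : (0 : ℝ) < Q := by exact_mod_cast hQ
  have h1 : ∀ k : ℕ, (1 : ℝ) / (qq Q k : ℝ) ≤ 1 / (Q : ℝ) * (1 / (k + 1 : ℝ) - 1 / (k + 2 : ℝ)) := by
    intro k
    have h2 : (0 : ℝ) < (k : ℝ) + 1 := by positivity
    have h3 : (0 : ℝ) < (k : ℝ) + 2 := by positivity
    unfold qq
    push_cast
    rw [div_sub_div _ _ h2.ne' h3.ne', div_mul_div_comm, div_le_div_iff₀ (by positivity)
      (by positivity)]
    nlinarith [mul_pos hQ' h2, mul_pos hQ' h3, mul_pos (mul_pos hQ' h2) h3]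
  rcases Nat.le_total n m with h | h
  · rw [Finset.Ico_eq_empty_of_le h, Finset.sum_empty]
    positivity
  · have key : ∀ n, m ≤ n → ∑ k ∈ Finset.Ico m n, (1 : ℝ) / (qq Q k : ℝ) ≤
        1 / (Q : ℝ) * (1 / (m + 1 : ℝ) - 1 / (n + 1 : ℝ)) := by
      intro n hn
      induction n, hn using Nat.le_induction with
      | base => simp
      | succ n hn ih =>
        rw [Finset.sum_Ico_succ_top hn]
        have h4 := h1 n
        have e1 : ((n + 1 : ℕ) : ℝ) + 1 = (n : ℝ) + 2 := by push_cast; ring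
        rw [e1]
        have : 1 / (Q : ℝ) * (1 / (m + 1 : ℝ) - 1 / ((n : ℝ) + 2)) =
            1 / (Q : ℝ) * (1 / (m + 1 : ℝ) - 1 / ((n : ℝ) + 1)) +
            1 / (Q : ℝ) * (1 / ((n : ℝ) + 1) - 1 / ((n : ℝ) + 2)) := by ring
        rw [this]
        linarith
    refine (key n h).trans ?_
    refine mul_le_mul_of_nonneg_left ?_ (by positivity)
    have : (0 : ℝ) ≤ 1 / ((n : ℝ) + 1) := by positivity
    linarith

end FlashRainbow.CF
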