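import Pool.Agent.Work.MP_54723a_co.CF.Loop
import Pool.Agent.Work.MP_54723a_co.CF.Num
import Pool.Agent.Work.MP_54723a_co.CF.NumA
import Pool.Agent.Work.MP_54723a_co.CF.Light

/-!
# Constant factor, measure route: assembly  (helper63)

The stage lemma `StageP` for all large budgets gives the bound `|V| ≤ K 3^R` for extremal pairs:
zones (helper60), loop (helper63), numbers (helper27, helper64), small ranks.
-/

set_option autoImplicit false

namespace FlashRainbow.CF

open Classical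

theorem rk_singleton (c : ℕ → ℕ → ℕ) (x : ℕ) : Rk c {x} 0 := by
  have key : ∀ y D, RP c {x} y D → D = ∅ := by
    intro y D h
    induction h with
    | single _ => rfl
    | @step u w D h hw hlt _ _ =>
      have h1 := Finset.mem_singleton.mp h.mem
      have h2 := Finset.mem_singleton.mp hw
      omega
  intro y D h
  rw [key y D h, Finset.card_empty]

theorem ext_card' {c : ℕ → ℕ → ℕ} {V : Finset ℕ} {R : ℕ} (hE : Ext c V R) (hne : V.Nonempty) :
    3 ^ R ≤ V.card := by
  obtain ⟨x, hx⟩ := hne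
  have h := hE {x} (Finset.singleton_subset_iff.mpr hx) 0 (Nat.zero_le _) (rk_singleton c x)
  simpa using h

theorem KA_mono {a b : ℕ} (h : a ≤ b) : KA a ≤ KA b := by
  unfold KA
  exact Nat.mul_le_mul (by omega) (Nat.pow_le_pow_right (by norm_num) (by omega))

theorem KC_mono {a b : ℕ} (h : a ≤ b) : KC a ≤ KC b := by
  unfold KC
  exact Nat.mul_le_mul (Nat.mul_le_mul (Nat.pow_le_pow_left (by omega) _)
    (Nat.pow_le_pow_right (by norm_num) (by omega))) (Nat.pow_le_pow_right (by norm_num) h)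

/-- **ASSEMBLY** : the stage lemma for large budgets gives the constant factor. -/
theorem main_of_stage (d e t₁ E c₀ : ℕ) (hd : 1536 ≤ d) (he : 4 * d ≤ 2 ^ e) (hE1 : 1 ≤ E)
    (hS : ∀ (c : ℕ → ℕ → ℕ) (V : Finset ℕ) (R : ℕ) (lev : ℕ → ℕ → ℕ) (t b : ℕ), Lev c V 3 lev →
      Rk c V R → Ext c V R → 3 ^ R ≤ V.card → t₁ ≤ t → t ≤ R → E * (b + c₀) ≤ t →
      StageP c V R V.card d t (t - t / 20) b) :
    ∃ K : ℕ, ∀ (c : ℕ → ℕ → ℕ) (V : Finset ℕ) (lev : ℕ → ℕ → ℕ) (R : ℕ), Lev c V 3 lev →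
      Rk c V R → Ext c V R → V.card ≤ K * 3 ^ R := by
  obtain ⟨Q, hQ⟩ : ∃ Q, Q = 48 * d ^ 2 := ⟨_, rfl⟩
  have hQ0 : 0 < Q := by
    rw [hQ]
    have : 0 < d ^ 2 := pow_pos (by omega) 2
    omega
  obtain ⟨C, -, hC⟩ := Sched.numbers_loop (AA d e Q) d e Q hd (fun k => by
    rw [AA_succ]
    unfold qq
    rw [show k + 1 + 2 = k + 3 by ring]) E (e + c₀) t₁
  refine ⟨max (KC C) (2 ^ AA d e Q 1 * (2 * d * KA (C + 1))), ?_⟩
  intro c V lev R hL hR hE
  rcases V.eq_empty_or_nonempty with rfl | hne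
  · simp
  have h3 := ext_card' hE hne
  rcases Nat.lt_or_ge R C with hRC | hRC
  · calc V.card ≤ KC R := small_rank_le hL (Finset.Subset.refl _) hR
      _ ≤ KC C := KC_mono hRC.le
      _ ≤ KC C * 3 ^ R := Nat.le_mul_of_pos_right _ (by positivity)
      _ ≤ _ := Nat.mul_le_mul_right _ (le_max_left _ _)
  obtain ⟨J, hJ, T, hTR, hT1, hT2, hT3⟩ := hC R hRC
  have hTle : ∀ m, 1 ≤ m → m < J → T m ≤ R := by
    intro m hm hmJ
    have key : ∀ k, m + k < J → T m ≤ T (m + k) := by
      intro k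
      induction k with
      | zero => intro _; exact le_refl _
      | succ k ih =>
        intro hk
        have h1 := ih (by omega)
        have h2 := (hT3 (m + k) (by omega) (by omega)).2.1
        rw [show m + (k + 1) = m + k + 1 by ring]
        omega
    have h1 := key (J - 1 - m) (by omega)
    rw [show m + (J - 1 - m) = J - 1 by omega, hTR] at h1
    exact h1
  have hAJ : 2 ^ AA d e Q J ≤ V.card := by
    have h1 := (hT2 (J - 1) (by omega) (by omega)).2.2 J (by omega)
    rw [hTR] at h1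
    have h2 : AA d e Q J ≤ R := by
      calc AA d e Q J ≤ 1 * (AA d e Q J + (e + c₀)) := by omega
        _ ≤ E * (AA d e Q J + (e + c₀)) := Nat.mul_le_mul_right _ hE1
        _ ≤ R := h1
    calc 2 ^ AA d e Q J ≤ 2 ^ R := Nat.pow_le_pow_right (by norm_num) h2
      _ ≤ 3 ^ R := Nat.pow_le_pow_left (by norm_num) _
      _ ≤ V.card := h3
  obtain ⟨U, G, hZ⟩ := zones hL hR hE (d := d) (e := e) (by omega) he (qq Q) (AA d e Q) rfl J
    (fun k _ => by rw [AA_succ]) hAJ
  have h1 := loop hL hR hZ (by omega) he (fun l => by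
      unfold qq
      exact Nat.mul_pos hQ0 (by positivity)) (by
      have h := Sched.sum_q Q J
      unfold qq
      refine h.trans (le_of_eq ?_)
      rw [hQ]
      push_cast
      ring) hJ hTR (by
      intro m hm hmJ
      have h2 := (hT3 m hm hmJ).1
      rw [h2]
      obtain ⟨h4, -, h5⟩ := hT2 (m + 1) (by omega) (by omega)
      refine hS c V R lev (T (m + 1)) (AA d e Q (m + 1) + e) hL hR hE h3 h4
        (hTle (m + 1) (by omega) (by omega)) ?_
      have h6 := h5 (m + 1) (by omega)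
      rwa [← Nat.add_assoc] at h6)
  calc V.card ≤ 2 ^ AA d e Q 1 * (2 * d * KA (T 1 + 1)) * 3 ^ R := h1
    _ ≤ 2 ^ AA d e Q 1 * (2 * d * KA (C + 1)) * 3 ^ R :=
        Nat.mul_le_mul_right _ (Nat.mul_le_mul_left _ (Nat.mul_le_mul_left _
          (KA_mono (by omega))))
    _ ≤ _ := Nat.mul_le_mul_right _ (le_max_right _ _)

end FlashRainbow.CF
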