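import Mathlib

/-!
# Numbers for `rich_plain`

For `t` large, `133 q + 4000 ≤ t` and `20 m ≤ t` there is an `s` as in `rich_plain`.
-/

namespace FlashRainbow.CF

/-- `t + 1 ≤ 2 ^ (log_2 (t + 1) + 1)` and the logarithm is small -/
theorem log_small {t : ℕ} (ht : 16384 ≤ t) : 64 * Nat.log 2 (t + 1) ≤ t / 16 := by
  obtain ⟨L, hL⟩ : ∃ L, L = Nat.log 2 (t + 1) := ⟨_, rfl⟩
  have h1 : 2 ^ L ≤ t + 1 := by
    rw [hL]
    exact Nat.pow_log_le_self 2 (by omega)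
  have h14 : 14 ≤ L := by
    rw [hL]
    exact Nat.le_log_of_pow_le (by norm_num) (by omega)
  have key : ∀ n : ℕ, 1024 * (n + 14) + 2048 ≤ 2 ^ (n + 14) := by
    intro n
    induction n with
    | zero => norm_num
    | succ n ih =>
      have : 2 ^ (n + 1 + 14) = 2 * 2 ^ (n + 14) := by
        rw [show n + 1 + 14 = (n + 14) + 1 by ring, pow_succ]
        ring
      omega
  obtain ⟨n, hn⟩ := Nat.exists_eq_add_of_le h14
  have h2 := key n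
  rw [show n + 14 = L by omega] at h2
  rw [← hL]
  omega

/-- **The parameter `s` of `rich_plain`.** -/
theorem rich_num {t q m : ℕ} (ht : 16384 ≤ t) (hq : 133 * q + 4000 ≤ t) (hm : 20 * m ≤ t) :
    ∃ s : ℕ, s + 1 ≤ t ∧ 16 * (t + 1) * 2 ^ q ≤ 3 ^ s ∧ 3 + 2 * (q + (48 * s + 91)) + 7 * m < t := by
  obtain ⟨L, hL⟩ : ∃ L, L = Nat.log 2 (t + 1) := ⟨_, rfl⟩
  have h0 := log_small ht
  rw [← hL] at h0
  have h1 : t + 1 < 2 ^ (L + 1) := by
    rw [hL]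
    exact Nat.lt_pow_succ_log_self (by norm_num) _
  -- `s = 2 ⌈(q + L + 5) / 3⌉`
  obtain ⟨j, hj⟩ : ∃ j, j = (q + L + 5) / 3 + 1 := ⟨_, rfl⟩
  have hj1 : q + L + 5 ≤ 3 * j := by omega
  have hj2 : 3 * j ≤ q + L + 8 := by omega
  refine ⟨2 * j, ?_, ?_, ?_⟩
  · omega
  · calc 16 * (t + 1) * 2 ^ q ≤ 16 * 2 ^ (L + 1) * 2 ^ q :=
          Nat.mul_le_mul_right _ (Nat.mul_le_mul_left _ h1.le)
      _ = 2 ^ (q + L + 5) := by
          rw [show (16 : ℕ) = 2 ^ 4 by norm_num, ← pow_add, ← pow_add]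
          congr 1
          ring
      _ ≤ 2 ^ (3 * j) := Nat.pow_le_pow_right (by norm_num) hj1
      _ = 8 ^ j := by rw [pow_mul]; norm_num
      _ ≤ 9 ^ j := Nat.pow_le_pow_left (by norm_num) j
      _ = 3 ^ (2 * j) := by rw [pow_mul]; norm_num
  · omega

/-- **The parameter `s` of `hub_next`.** -/
theorem rich_num6 {t q m : ℕ} (ht : 16384 ≤ t) (hq : 133 * q + 4000 ≤ t) (hm : 20 * m ≤ t) :
    ∃ s : ℕ, s + 4 ≤ t ∧ 16 * (t + 1) * 2 ^ q ≤ 3 ^ s ∧ 6 + 2 * (q + (48 * s + 91)) + 7 * m < t := by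
  obtain ⟨L, hL⟩ : ∃ L, L = Nat.log 2 (t + 1) := ⟨_, rfl⟩
  have h0 := log_small ht
  rw [← hL] at h0
  have h1 : t + 1 < 2 ^ (L + 1) := by
    rw [hL]
    exact Nat.lt_pow_succ_log_self (by norm_num) _
  obtain ⟨j, hj⟩ : ∃ j, j = (q + L + 5) / 3 + 1 := ⟨_, rfl⟩
  have hj1 : q + L + 5 ≤ 3 * j := by omega
  have hj2 : 3 * j ≤ q + L + 8 := by omega
  refine ⟨2 * j, ?_, ?_, ?_⟩
  · omega
  · calc 16 * (t + 1) * 2 ^ q ≤ 16 * 2 ^ (L + 1) * 2 ^ q :=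
          Nat.mul_le_mul_right _ (Nat.mul_le_mul_left _ h1.le)
      _ = 2 ^ (q + L + 5) := by
          rw [show (16 : ℕ) = 2 ^ 4 by norm_num, ← pow_add, ← pow_add]
          congr 1
          ring
      _ ≤ 2 ^ (3 * j) := Nat.pow_le_pow_right (by norm_num) hj1
      _ = 8 ^ j := by rw [pow_mul]; norm_num
      _ ≤ 9 ^ j := Nat.pow_le_pow_left (by norm_num) j
      _ = 3 ^ (2 * j) := by rw [pow_mul]; norm_num
  · omega

end FlashRainbow.CF
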