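import Pool.Agent.Work.MP_54723a_co.CF.OldHub
import Pool.Agent.Work.MP_54723a_co.CF.NumRich

/-!
# Numbers for `far_free`, second version  (helper39)

If the zone is not too thin (`M ≤ 2 ^ a * z` with `200 (a + 100) ≤ t`), there is a threshold `τ` for
which the conclusion of `far_free` (with `33 τ`) fails, and which is large enough for `rich_num`.
-/

set_option autoImplicit false

namespace FlashRainbow.CF

theorem far_num39 {t a M R k z : ℕ} (ht : 200 * (a + 100) ≤ t) (hk : R = k + t) (h3 : 3 ^ R ≤ M)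
    (hz : M ≤ 2 ^ a * z) :
    ∃ τ q : ℕ, 0 < τ ∧ 133 * q + 4000 ≤ t ∧ M ≤ 2 ^ q * (τ * 3 ^ (R - t)) ∧
      2 * (t + 1) ^ 2 * 256 ^ t * M +
        729 ^ t * (3 ^ k * (bG t (33 * τ) + (8 * t ^ 2 + 1) * (33 * τ))) < z * 729 ^ t := by
  have ht1 : 16384 ≤ t := by omega
  obtain ⟨L, hL⟩ : ∃ L, L = Nat.log 2 (t + 1) := ⟨_, rfl⟩
  have h0 := log_small ht1
  rw [← hL] at h0
  have h1 : t + 1 < 2 ^ (L + 1) := by
    rw [hL]
    exact Nat.lt_pow_succ_log_self (by norm_num) _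
  have h2 : t + 2 ≤ 2 ^ (L + 1) := h1
  -- the square
  have hsq : (t + 2) ^ 2 ≤ 2 ^ (2 * L + 2) := by
    calc (t + 2) ^ 2 ≤ (2 ^ (L + 1)) ^ 2 := Nat.pow_le_pow_left h2 2
      _ = 2 ^ (2 * L + 2) := by rw [← pow_mul]; congr 1; ring
  have hA : 600 * (t + 2) ^ 2 ≤ 2 ^ (2 * L + 12) := by
    calc 600 * (t + 2) ^ 2 ≤ 2 ^ 10 * 2 ^ (2 * L + 2) := Nat.mul_le_mul (by norm_num) hsq
      _ = 2 ^ (2 * L + 12) := by rw [← pow_add]; congr 1; ring
  have hB : 2 ^ a * (600 * (t + 2) ^ 2) ≤ 3 ^ t := by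
    calc 2 ^ a * (600 * (t + 2) ^ 2) ≤ 2 ^ a * 2 ^ (2 * L + 12) := Nat.mul_le_mul_left _ hA
      _ = 2 ^ (a + (2 * L + 12)) := by rw [← pow_add]
      _ ≤ 2 ^ t := Nat.pow_le_pow_right (by norm_num) (by omega)
      _ ≤ 3 ^ t := Nat.pow_le_pow_left (by norm_num) t
  obtain ⟨D, hD⟩ : ∃ D, D = 600 * (t + 2) ^ 2 * 3 ^ k := ⟨_, rfl⟩
  have hDpos : 0 < D := by
    rw [hD]
    positivity
  have hC : D ≤ z := by
    refine Nat.le_of_mul_le_mul_left ?_ (show 0 < 2 ^ a by positivity)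
    calc 2 ^ a * D = 2 ^ a * (600 * (t + 2) ^ 2) * 3 ^ k := by rw [hD]; ring
      _ ≤ 3 ^ t * 3 ^ k := Nat.mul_le_mul_right _ hB
      _ = 3 ^ R := by rw [hk, pow_add]; ring
      _ ≤ M := h3
      _ ≤ 2 ^ a * z := hz
  obtain ⟨τ, hτ⟩ : ∃ τ, τ = z / D := ⟨_, rfl⟩
  have hτ0 : 0 < τ := by
    rw [hτ]
    exact Nat.div_pos hC hDpos
  have hτ1 : D * τ ≤ z := by
    rw [hτ]
    exact Nat.mul_div_le z D
  have hτ2 : z ≤ 2 * D * τ := by
    have h5 : z < D * (τ + 1) := by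
      rw [hτ]
      exact Nat.lt_mul_div_succ z hDpos
    have h6 : D * 1 ≤ D * τ := Nat.mul_le_mul_left D hτ0
    nlinarith
  refine ⟨τ, a + 2 * L + 13, hτ0, by omega, ?_, ?_⟩
  · have hRt : R - t = k := by omega
    rw [hRt]
    calc M ≤ 2 ^ a * z := hz
      _ ≤ 2 ^ a * (2 * D * τ) := Nat.mul_le_mul_left _ hτ2
      _ = 2 ^ (a + 1) * (600 * (t + 2) ^ 2) * (τ * 3 ^ k) := by rw [hD, pow_succ]; ring
      _ ≤ 2 ^ (a + 1) * 2 ^ (2 * L + 12) * (τ * 3 ^ k) :=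
          Nat.mul_le_mul_right _ (Nat.mul_le_mul_left _ hA)
      _ = 2 ^ (a + 2 * L + 13) * (τ * 3 ^ k) := by
          rw [← pow_add]
          congr 2
          ring
  · have hG : 2 * (3 ^ k * (bG t (33 * τ) + (8 * t ^ 2 + 1) * (33 * τ))) ≤ z := by
      have h7 : bG t (33 * τ) + (8 * t ^ 2 + 1) * (33 * τ) ≤ 300 * (t + 2) ^ 2 * τ := by
        unfold bG
        have h8 : (t + 2) * 1 ≤ (t + 2) * τ := Nat.mul_le_mul_left _ hτ0
        nlinarith [Nat.zero_le (t * τ), Nat.zero_le (t ^ 2 * τ)]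
      calc 2 * (3 ^ k * (bG t (33 * τ) + (8 * t ^ 2 + 1) * (33 * τ)))
          ≤ 2 * (3 ^ k * (300 * (t + 2) ^ 2 * τ)) :=
            Nat.mul_le_mul_left _ (Nat.mul_le_mul_left _ h7)
        _ = D * τ := by rw [hD]; ring
        _ ≤ z := hτ1
    have hz0 : 0 < z := lt_of_lt_of_le hDpos hC
    have hE : 4 * (t + 1) ^ 2 * 2 ^ a ≤ 2 ^ t := by
      calc 4 * (t + 1) ^ 2 * 2 ^ a ≤ 2 ^ 2 * 2 ^ (2 * L + 2) * 2 ^ a := by
            refine Nat.mul_le_mul_right _ (Nat.mul_le_mul (by norm_num) ?_)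
            exact le_trans (Nat.pow_le_pow_left (by omega) 2) hsq
        _ = 2 ^ (2 + (2 * L + 2) + a) := by rw [← pow_add, ← pow_add]
        _ ≤ 2 ^ t := Nat.pow_le_pow_right (by norm_num) (by omega)
    have hH : 2 * (2 * (t + 1) ^ 2 * 256 ^ t * M) < z * 729 ^ t := by
      calc 2 * (2 * (t + 1) ^ 2 * 256 ^ t * M) ≤ 2 * (2 * (t + 1) ^ 2 * 256 ^ t * (2 ^ a * z)) :=
            Nat.mul_le_mul_left _ (Nat.mul_le_mul_left _ hz)
        _ = 4 * (t + 1) ^ 2 * 2 ^ a * 256 ^ t * z := by ring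
        _ ≤ 2 ^ t * 256 ^ t * z := Nat.mul_le_mul_right _ (Nat.mul_le_mul_right _ hE)
        _ = 512 ^ t * z := by rw [← mul_pow]; norm_num
        _ < 729 ^ t * z := Nat.mul_lt_mul_of_pos_right
            (Nat.pow_lt_pow_left (by norm_num) (by omega)) hz0
        _ = z * 729 ^ t := by ring
    have hI : 2 * (729 ^ t * (3 ^ k * (bG t (33 * τ) + (8 * t ^ 2 + 1) * (33 * τ)))) ≤
        z * 729 ^ t := by
      calc 2 * (729 ^ t * (3 ^ k * (bG t (33 * τ) + (8 * t ^ 2 + 1) * (33 * τ))))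
          = 729 ^ t * (2 * (3 ^ k * (bG t (33 * τ) + (8 * t ^ 2 + 1) * (33 * τ)))) := by ring
        _ ≤ 729 ^ t * z := Nat.mul_le_mul_left _ hG
        _ = z * 729 ^ t := by ring
    omega

end FlashRainbow.CF
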