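import Pool.Agent.Work.MP_54723a_co.CF.Stage96
import Pool.Agent.Work.MP_54723a_co.CF.NumFar39
import Pool.Agent.Work.MP_54723a_co.CF.Main
import Pool.Agent.Work.MP_54723a_co.CF.Extremal

/-!
# Constant factor, measure route: numbers of the stage, and the theorem  (helper96)
-/

set_option autoImplicit false

namespace FlashRainbow.CF

open Classical

theorem rich_num' {t q m : ℕ} (ht : 16384 ≤ t) (hq : 133 * q + 4000 ≤ t) (hm : 20 * m ≤ t) :
    ∃ s : ℕ, s + 4 ≤ t ∧ 16 * (t + 1) * 2 ^ q ≤ 3 ^ s ∧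
      6 + 2 * (q + (48 * s + 91)) + 7 * m < t := by
  obtain ⟨L, hL⟩ : ∃ L, L = Nat.log 2 (t + 1) := ⟨_, rfl⟩
  have h0 := log_small ht
  rw [← hL] at h0
  have h1 : t + 1 < 2 ^ (L + 1) := by
    rw [hL]
    exact Nat.lt_pow_succ_log_self (by norm_num) _
  obtain ⟨j, hj⟩ : ∃ j, j = (q + L + 5) / 3 + 1 := ⟨_, rfl⟩
  have hj1 : q + L + 5 ≤ 3 * j := by omega
  have hj2 : 3 * j ≤ q + L + 8 := by omega
  refine ⟨2 * j, ?_, ?_, ?_⟩
  · omega
  · calc 16 * (t + 1) * 2 ^ q ≤ 16 * 2 ^ (L + 1) * 2 ^ q :=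
          Nat.mul_le_mul_right _ (Nat.mul_le_mul_left _ h1.le)
      _ = 2 ^ (q + L + 5) := by
          rw [show (16 : ℕ) = 2 ^ 4 by norm_num, ← pow_add, ← pow_add]
          congr 1
          ring
      _ ≤ 2 ^ (3 * j) := Nat.pow_le_pow_right (by norm_num) hj1
      _ = 8 ^ j := by rw [pow_mul]; norm_num
      _ ≤ 9 ^ j := Nat.pow_le_pow_left (by norm_num) j
      _ = 3 ^ (2 * j) := by rw [pow_mul]; norm_num
  · omega

/-- the numbers of one stage -/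
theorem stageNum {M R d t b : ℕ} (ht : 200 * (b + (16 * d + 1) + 100) ≤ t) (htR : t ≤ R)
    (h3 : 3 ^ R ≤ M) : StageNum M R d t (t - t / 20) b := by
  intro z hz
  obtain ⟨τ, q, h1, h2, h4, h5⟩ := far_num39 (k := R - t) ht (by omega) h3 hz
  obtain ⟨s, h6, h7, h8⟩ := rich_num' (m := t - (t - t / 20)) (by omega) h2 (by omega)
  refine ⟨τ, q, s, ?_, h4, h6, h7, h8, h5⟩
  by_contra hcon
  push Not at hcon
  have h9 : 3 ^ t * 3 ^ (R - t) ≤ (2 ^ q * τ) * 3 ^ (R - t) := by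
    calc 3 ^ t * 3 ^ (R - t) = 3 ^ R := by rw [← pow_add]; congr 1; omega
      _ ≤ 2 ^ q * (τ * 3 ^ (R - t)) := h3.trans h4
      _ = (2 ^ q * τ) * 3 ^ (R - t) := by ring
  have h10 : 3 ^ t ≤ 2 ^ q * τ := Nat.le_of_mul_le_mul_right h9 (by positivity)
  have h11 : 2 ^ q * τ < 3 ^ t := by
    calc 2 ^ q * τ < 2 ^ q * 8 := Nat.mul_lt_mul_of_pos_left hcon (by positivity)
      _ = 2 ^ (q + 3) := by rw [pow_add]; norm_num
      _ ≤ 2 ^ t := Nat.pow_le_pow_right (by norm_num) (by omega)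
      _ ≤ 3 ^ t := Nat.pow_le_pow_left (by norm_num) t
  omega

/-- **CONSTANT FACTOR**, extremal pairs -/
theorem cf_main : ∃ K : ℕ, ∀ (c : ℕ → ℕ → ℕ) (V : Finset ℕ) (lev : ℕ → ℕ → ℕ) (R : ℕ),
    Lev c V 3 lev → Rk c V R → Ext c V R → V.card ≤ K * 3 ^ R := by
  refine main_of_stage 1536 13 0 200 (16 * 1536 + 1 + 100) (le_refl _) (by norm_num) (by norm_num)
    ?_
  intro c V R lev t b hL hR hE h3 _ htR ht
  refine stageP hL hR hE h3 (by norm_num) (by omega) (stageNum (by omega) htR h3)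

/-- **CONSTANT FACTOR** -/
theorem constant_factor : ∃ K : ℕ, ∀ k n : ℕ, 1 ≤ k → K * 3 ^ (k - 1) < n →
    ∀ c : Fin n → Fin n → ℕ,
      (∃ x : Fin 4 → Fin n, StrictMono x ∧
        ∃ col : ℕ, ∀ i : Fin 3, c (x i.castSucc) (x i.succ) = col) ∨
      (∃ y : Fin (k + 1) → Fin n, StrictMono y ∧
        Function.Injective (fun i : Fin k => c (y i.castSucc) (y i.succ))) := by
  obtain ⟨K, hK⟩ := cf_main
  exact ⟨K, fun k n hk hn c => three_final hK k n hk hn c⟩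

end FlashRainbow.CF
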