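import Pool.Agent.Work.MP_54723a_co.CF.CorePrime

/-!
# Constant factor: one vertex with a small core, and cores made of in-colours  (helper96)

Source: notes 8609 (helper99), 8619 (helper60), 8668 (helper38, CC'').
-/

set_option autoImplicit false

namespace FlashRainbow.CF

open Classical

variable {c : ℕ → ℕ → ℕ} {V T W U X Θ : Finset ℕ} {l R r C p q d e lam B : ℕ}
  {lev : ℕ → ℕ → ℕ}

/-- (CC)(a), several base palettes `P i`, `i < q`: the later points whose colour is coherently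
avoidable for one of the palettes -/
theorem free_multi_le (hL : Lev c V 3 lev) (hR : Rk c V R) {a : ℕ} (P : ℕ → Finset ℕ)
    (hP : ∀ i < q, (P i).card ≤ R) :
    (V.filter fun v => a < v ∧ ∃ i < q, FreeP c V R C (P i) a (c a v)).card ≤
      q * (KA C * 3 ^ R) := by
  have hsub : (V.filter fun v => a < v ∧ ∃ i < q, FreeP c V R C (P i) a (c a v)) ⊆
      (Finset.range q).biUnion fun i => V.filter fun v => a < v ∧
        FreeP c V R C (P i) a (c a v) := by
    intro v hv
    obtain ⟨h1, h2, i, hi, h3⟩ := Finset.mem_filter.mp hv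
    exact Finset.mem_biUnion.mpr ⟨i, Finset.mem_range.mpr hi, Finset.mem_filter.mpr ⟨h1, h2, h3⟩⟩
  refine (Finset.card_le_card hsub).trans ?_
  have h1 := Finset.card_biUnion_le_card_mul (Finset.range q)
    (fun i => V.filter fun v => a < v ∧ FreeP c V R C (P i) a (c a v)) (KA C * 3 ^ R) (by
      intro i hi
      exact free_le hL hR (hP i (Finset.mem_range.mp hi)))
  rwa [Finset.card_range] at h1

/-- **(CC)(a)**: one vertex `a`, several base palettes; `Γ` contains the common core; every colour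
class of `Γ` behind `a` has at most `B` points. -/
theorem core_up (hL : Lev c V 3 lev) (hR : Rk c V R) {a : ℕ} (P : ℕ → Finset ℕ)
    (hP : ∀ i < q, (P i).card ≤ R) (Γ : Finset ℕ)
    (hΓc : ∀ y, (∀ i < q, ¬ FreeP c V R C (P i) a y) → y ∈ Γ)
    (hB : ∀ g ∈ Γ, (V.filter fun v => a < v ∧ c a v = g).card ≤ B) :
    (V.filter fun v => a < v).card ≤ q * (KA C * 3 ^ R) + Γ.card * B := by
  have hsub : (V.filter fun v => a < v) ⊆
      (V.filter fun v => a < v ∧ ∃ i < q, FreeP c V R C (P i) a (c a v)) ∪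
        Γ.biUnion fun g => V.filter fun v => a < v ∧ c a v = g := by
    intro v hv
    obtain ⟨h1, h2⟩ := Finset.mem_filter.mp hv
    by_cases h4 : ∃ i < q, FreeP c V R C (P i) a (c a v)
    · exact Finset.mem_union_left _ (Finset.mem_filter.mpr ⟨h1, h2, h4⟩)
    · refine Finset.mem_union_right _ (Finset.mem_biUnion.mpr ⟨c a v, hΓc _ ?_,
        Finset.mem_filter.mpr ⟨h1, h2, rfl⟩⟩)
      intro i hi h5
      exact h4 ⟨i, hi, h5⟩
  refine (Finset.card_le_card hsub).trans ((Finset.card_union_le _ _).trans ?_)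
  exact Nat.add_le_add (free_multi_le hL hR P hP) (Finset.card_biUnion_le_card_mul _ _ _ hB)

/-- **out-light + small core**: the conclusion used by the existence route -/
theorem core_light (hL : Lev c V 3 lev) (hR : Rk c V R) {a : ℕ} (P : ℕ → Finset ℕ)
    (hP : ∀ i < q, (P i).card ≤ R) (Γ : Finset ℕ)
    (hΓc : ∀ y, (∀ i < q, ¬ FreeP c V R C (P i) a y) → y ∈ Γ)
    (hB : ∀ g ∈ Γ, (V.filter fun v => a < v ∧ c a v = g).card ≤ B)
    (ha : V.card ≤ 2 * (V.filter fun v => a < v).card) (hlight : 4 * (Γ.card * B) ≤ V.card) :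
    V.card ≤ 4 * (q * (KA C * 3 ^ R)) := by
  have h1 := core_up hL hR P hP Γ hΓc hB
  omega

/-- mirror image of `free_multi_le` -/
theorem free_multi_le_down (hL : Lev c V 3 lev) (hR : Rk c V R) {a : ℕ} (ha : a ∈ V)
    (S : ℕ → Finset ℕ) (hS : ∀ i < q, (S i).card ≤ R) :
    (V.filter fun v => v < a ∧ ∃ i < q, FreeS c V R C (S i) a (c v a)).card ≤
      q * (KA C * 3 ^ R) := by
  obtain ⟨N, hN⟩ : ∃ N, ∀ v ∈ V, v ≤ N := ⟨V.sup id, fun v hv => Finset.le_sup (f := id) hv⟩
  have haN := hN a ha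
  have h1 := free_multi_le (c := revc c N) (V := rvs V N) (a := N - a) (C := C) (q := q)
    (Lev.rev hN hL) (Rk.rev hN hR) S hS
  refine le_trans ?_ h1
  have h2 : ((V.filter fun v => v < a ∧ ∃ i < q, FreeS c V R C (S i) a (c v a)).image
      (fun v => N - v)).card =
      (V.filter fun v => v < a ∧ ∃ i < q, FreeS c V R C (S i) a (c v a)).card := by
    refine Finset.card_image_of_injOn fun u hu v hv h => ?_
    have h1 := hN u (Finset.mem_filter.mp hu).1
    have h2 := hN v (Finset.mem_filter.mp hv).1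
    have h3 : N - u = N - v := h
    omega
  rw [← h2]
  refine Finset.card_le_card ?_
  intro y hy
  obtain ⟨v, hv, rfl⟩ := Finset.mem_image.mp hy
  obtain ⟨hvV, hva, i, hi, D, h3, h4, h5, h6⟩ := Finset.mem_filter.mp hv
  have hvN := hN v hvV
  refine Finset.mem_filter.mpr ⟨(mem_rvs hN).mpr ⟨by omega, ?_⟩, by omega, i, hi, D,
    RS.toRP_rev' hN h3, h4, ?_, h6⟩
  · rwa [show N - (N - v) = v by omega]
  · rw [revc_eq, show N - (N - v) = v by omega, show N - (N - a) = a by omega]
    exact h5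

/-- mirror image of `core_up` -/
theorem core_down (hL : Lev c V 3 lev) (hR : Rk c V R) {a : ℕ} (ha : a ∈ V) (S : ℕ → Finset ℕ)
    (hS : ∀ i < q, (S i).card ≤ R) (Γ : Finset ℕ)
    (hΓc : ∀ y, (∀ i < q, ¬ FreeS c V R C (S i) a y) → y ∈ Γ)
    (hB : ∀ g ∈ Γ, (V.filter fun v => v < a ∧ c v a = g).card ≤ B) :
    (V.filter fun v => v < a).card ≤ q * (KA C * 3 ^ R) + Γ.card * B := by
  have hsub : (V.filter fun v => v < a) ⊆
      (V.filter fun v => v < a ∧ ∃ i < q, FreeS c V R C (S i) a (c v a)) ∪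
        Γ.biUnion fun g => V.filter fun v => v < a ∧ c v a = g := by
    intro v hv
    obtain ⟨h1, h2⟩ := Finset.mem_filter.mp hv
    by_cases h4 : ∃ i < q, FreeS c V R C (S i) a (c v a)
    · exact Finset.mem_union_left _ (Finset.mem_filter.mpr ⟨h1, h2, h4⟩)
    · refine Finset.mem_union_right _ (Finset.mem_biUnion.mpr ⟨c v a, hΓc _ ?_,
        Finset.mem_filter.mpr ⟨h1, h2, rfl⟩⟩)
      intro i hi h5
      exact h4 ⟨i, hi, h5⟩
  refine (Finset.card_le_card hsub).trans ((Finset.card_union_le _ _).trans ?_)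
  exact Nat.add_le_add (free_multi_le_down hL hR ha S hS)
    (Finset.card_biUnion_le_card_mul _ _ _ hB)

/-- **(CC'')** (helper38), with several base palettes: if at all points of `W` the common left core
consists of in-colours and the common right core of out-colours, then `W` is small. -/
theorem core_cover_flash (hL : Lev c V 3 lev) (hR : Rk c V R) (hW : W ⊆ V)
    (P S : ℕ → ℕ → Finset ℕ)
    (hP : ∀ w ∈ W, ∀ i < q, (P w i).card ≤ R) (hS : ∀ w ∈ W, ∀ i < q, (S w i).card ≤ R)
    (hΓ : ∀ w ∈ W, ∀ y, (∀ i < q, ¬ FreeP c V R C (P w i) w y) → ∃ u ∈ V, u < w ∧ c u w = y)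
    (hΓ' : ∀ w ∈ W, ∀ y, (∀ i < q, ¬ FreeS c V R C (S w i) w y) → ∃ z ∈ V, w < z ∧ c w z = y) :
    W.card ≤ 4 * (q * (KA C * 3 ^ R)) + 1 := by
  set K := q * (KA C * 3 ^ R) with hK
  set B₁ : ℕ → Finset ℕ := fun w =>
    W.filter fun v => w < v ∧ ∃ i < q, FreeP c V R C (P w i) w (c w v) with hB₁
  set B₂ : ℕ → Finset ℕ := fun w =>
    W.filter fun v => w < v ∧ ∃ i < q, FreeS c V R C (S v i) v (c w v) with hB₂
  have hcov : ∀ w ∈ W, (W.filter fun v => w < v).card ≤ (B₁ w).card + (B₂ w).card := by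
    intro w hw
    refine (Finset.card_le_card (t := B₁ w ∪ B₂ w) ?_).trans (Finset.card_union_le _ _)
    intro v hv
    obtain ⟨hvW, hwv⟩ := Finset.mem_filter.mp hv
    by_cases h1 : ∃ i < q, FreeP c V R C (P w i) w (c w v)
    · exact Finset.mem_union_left _ (Finset.mem_filter.mpr ⟨hvW, hwv, h1⟩)
    by_cases h2 : ∃ i < q, FreeS c V R C (S v i) v (c w v)
    · exact Finset.mem_union_right _ (Finset.mem_filter.mpr ⟨hvW, hwv, h2⟩)
    exfalso
    obtain ⟨u, hu, huw, h3⟩ := hΓ w hw (c w v) (fun i hi h => h1 ⟨i, hi, h⟩)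
    obtain ⟨z, hz, hvz, h4⟩ := hΓ' v hvW (c w v) (fun i hi h => h2 ⟨i, hi, h⟩)
    have g1 := hL.up u hu w (hW hw) huw
    have g2 := hL.up w (hW hw) v (hW hvW) hwv
    have g3 := hL.up v (hW hvW) z hz hvz
    have g4 := hL.lt (c w v) z hz
    rw [h3] at g1
    rw [h4] at g3
    omega
  have hb1 : ∀ w ∈ W, (B₁ w).card ≤ K := by
    intro w hw
    refine (Finset.card_le_card ?_).trans (free_multi_le (a := w) (C := C) hL hR (P w) (hP w hw))
    intro v hv
    obtain ⟨h1, h2⟩ := Finset.mem_filter.mp hv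
    exact Finset.mem_filter.mpr ⟨hW h1, h2⟩
  have hb2 : ∑ w ∈ W, (B₂ w).card ≤ W.card * K := by
    have h1 : ∑ w ∈ W, (B₂ w).card = ∑ v ∈ W, (W.filter fun w => w < v ∧
        ∃ i < q, FreeS c V R C (S v i) v (c w v)).card := by
      simp only [hB₂, Finset.card_filter]
      exact Finset.sum_comm
    rw [h1, ← smul_eq_mul, ← Finset.sum_const]
    refine Finset.sum_le_sum fun v hv => ?_
    refine (Finset.card_le_card ?_).trans
      (free_multi_le_down (C := C) hL hR (hW hv) (S v) (hS v hv))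
    intro w hw
    obtain ⟨h1, h2⟩ := Finset.mem_filter.mp hw
    exact Finset.mem_filter.mpr ⟨hW h1, h2⟩
  have hsum : ∑ w ∈ W, (W.filter fun v => w < v).card ≤ W.card * (2 * K) := by
    calc ∑ w ∈ W, (W.filter fun v => w < v).card
        ≤ ∑ w ∈ W, ((B₁ w).card + (B₂ w).card) := Finset.sum_le_sum hcov
      _ = ∑ w ∈ W, (B₁ w).card + ∑ w ∈ W, (B₂ w).card := Finset.sum_add_distrib
      _ ≤ ∑ _w ∈ W, K + W.card * K := Nat.add_le_add (Finset.sum_le_sum hb1) hb2
      _ = W.card * (2 * K) := by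
        simp only [Finset.sum_const, smul_eq_mul]
        ring
  have h1 := sum_pairs W
  rcases Nat.eq_zero_or_pos W.card with h0 | h0
  · omega
  have h2 : W.card * W.card ≤ W.card * (4 * K + 1) := by
    calc W.card * W.card = 2 * ∑ w ∈ W, (W.filter fun v => w < v).card + W.card := h1.symm
      _ ≤ 2 * (W.card * (2 * K)) + W.card := by gcongr
      _ = W.card * (4 * K + 1) := by ring
  exact Nat.le_of_mul_le_mul_left h2 h0

end FlashRainbow.CF
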