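import Pool.Agent.Work.MP_54723a_co.CF.Chi
import Pool.Agent.Work.MP_54723a_co.KM.Rev

/-!
# Constant factor: a dense thin set bounds `V`  (helper74)

Source: notes 8563 / 8593 (helper38), 8588 (helper14).
-/

set_option autoImplicit false

namespace FlashRainbow.CF

open Classical

variable {c : ℕ → ℕ → ℕ} {V T W U X Θ : Finset ℕ} {l R r C p d e : ℕ} {lev : ℕ → ℕ → ℕ}

theorem cancel_pow {a K : ℕ} (h : a * 2 ^ (R + e) ≤ K * (2 ^ R * 3 ^ (R + e))) :
    a ≤ K * 3 ^ e * 3 ^ R := by
  have h1 : a * 2 ^ R ≤ a * 2 ^ (R + e) :=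
    Nat.mul_le_mul_left _ (Nat.pow_le_pow_right (by norm_num) (by omega))
  have h2 : K * (2 ^ R * 3 ^ (R + e)) = (K * 3 ^ e * 3 ^ R) * 2 ^ R := by
    rw [pow_add]
    ring
  exact Nat.le_of_mul_le_mul_right (h1.trans (h.trans h2.le)) (by positivity)

theorem RP.subset_of_col {x : ℕ} {D : Finset ℕ} (h : RP c T x D) (hcol : Col c T Θ) : D ⊆ Θ := by
  induction h with
  | single _ => exact Finset.empty_subset _
  | @step x y D h hy hlt hc ih => exact Finset.insert_subset (hcol x h.mem y hy hlt) ih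

/-- the constant of `dense_up` -/
def KD (d e : ℕ) : ℕ :=
  2 * ((d + e + 1) * 2 ^ (d + e + 1) * 3 ^ (d + e) * 3 ^ e) +
    (d + e + 4 + 1) ^ 2 * 3 ^ (2 * (d + e + 4)) * 3 ^ e

theorem arith_a {s : ℕ} (h : s + (d + e) = R) : 2 ^ s * 3 ^ e * 2 ^ d ≤ 2 ^ (R + e) := by
  have h1 : (3 : ℕ) ^ e ≤ 2 ^ (2 * e) := by
    rw [pow_mul]
    exact Nat.pow_le_pow_left (by norm_num) e
  calc 2 ^ s * 3 ^ e * 2 ^ d ≤ 2 ^ s * 2 ^ (2 * e) * 2 ^ d := by gcongr
    _ = 2 ^ (R + e) := by
      rw [← pow_add, ← pow_add]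
      congr 1
      omega

theorem arith_b (e : ℕ) : 3 ^ (e + 1) < 2 ^ (2 * e + 3) := by
  induction e with
  | zero => norm_num
  | succ e ih =>
    calc 3 ^ (e + 1 + 1) = 3 ^ (e + 1) * 3 := pow_succ _ _
      _ < 2 ^ (2 * e + 3) * 4 := by omega
      _ = 2 ^ (2 * (e + 1) + 3) := by ring

/-- **Theorem D**: a dense thin set bounds the number of later points. -/
theorem dense_up (hL : Lev c V 3 lev) (hR : Rk c V R) (hX : X ⊆ V) (hcol : Col c X Θ)
    (hΘ : Θ.card = R + e) (hd : 3 ^ R ≤ 2 ^ d * X.card) :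
    (V.filter (fun w => ∀ x ∈ X, x < w)).card ≤ KD d e * 3 ^ R := by
  set i := d + e with hi
  set s := R - i with hs
  have hXpos : 0 < X.card := by
    rcases Nat.eq_zero_or_pos X.card with h | h
    · rw [h, Nat.mul_zero] at hd
      have : 0 < 3 ^ R := by positivity
      omega
    · exact h
  set Z := X.filter (fun a => ∀ D, RP c X a D → D.card < s) with hZdef
  have hZX : Z ⊆ X := Finset.filter_subset _ _
  -- (a)
  have hZ : 2 * Z.card ≤ X.card := by
    rcases Nat.eq_zero_or_pos s with hs0 | hs0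
    · have : Z = ∅ := by
        rw [hZdef, Finset.filter_eq_empty_iff]
        intro a ha h
        have := h ∅ (RP.single ha)
        omega
      rw [this, Finset.card_empty]
      omega
    · have hrk : Rk c Z (s - 1) := by
        intro y D hD
        have h1 := (Finset.mem_filter.mp hD.mem).2 D (hD.mono hZX)
        omega
      have h1 := card_coloured_le (l := 3) (by omega) (hL.mono (hZX.trans hX))
        (fun u hu v hv => hcol u (hZX hu) v (hZX hv)) hrk
      rw [hΘ] at h1
      have h2 : 2 * Z.card * 2 ^ (R + e) ≤ 2 ^ s * 3 ^ (R + e) := by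
        calc 2 * Z.card * 2 ^ (R + e) = 2 * (Z.card * 2 ^ (R + e)) := by ring
          _ ≤ 2 * (2 ^ (s - 1) * 3 ^ (R + e)) := Nat.mul_le_mul_left _ h1
          _ = 2 ^ s * 3 ^ (R + e) := by
            rw [← mul_assoc, ← pow_succ']
            congr 2
            omega
      have h3 : 2 ^ s * 3 ^ (R + e) ≤ X.card * 2 ^ (R + e) := by
        calc 2 ^ s * 3 ^ (R + e) = 2 ^ s * 3 ^ e * 3 ^ R := by rw [pow_add]; ring
          _ ≤ 2 ^ s * 3 ^ e * (2 ^ d * X.card) := Nat.mul_le_mul_left _ hd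
          _ = (2 ^ s * 3 ^ e * 2 ^ d) * X.card := by ring
          _ ≤ 2 ^ (R + e) * X.card := Nat.mul_le_mul_right _ (arith_a (by omega))
          _ = X.card * 2 ^ (R + e) := by ring
      exact Nat.le_of_mul_le_mul_right (h2.trans h3) (by positivity)
  set X₁ := X.filter (fun a => ¬ ∀ D, RP c X a D → D.card < s) with hX₁def
  have hX₁X : X₁ ⊆ X := Finset.filter_subset _ _
  have hsum : Z.card + X₁.card = X.card := Finset.card_filter_add_card_filter_not _
  have hX₁ : X.card ≤ 2 * X₁.card := by omega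
  set Y := V.filter (fun w => ∀ x ∈ X, x < w) with hY
  have hYV : Y ⊆ V := Finset.filter_subset _ _
  -- (b)
  set B := (i + 1) * 2 ^ (i + 1) * 3 ^ i * 3 ^ e with hB
  have hbad : ∀ a ∈ X₁, (Y.filter (fun w => c a w ∉ Θ)).card ≤ B * 3 ^ R := by
    intro a ha
    obtain ⟨haX, hnot⟩ := Finset.mem_filter.mp ha
    push Not at hnot
    obtain ⟨D, hD, hDs⟩ := hnot
    have hDΘ := RP.subset_of_col hD hcol
    have hWY : Y.filter (fun w => c a w ∉ Θ) ⊆ Y := Finset.filter_subset _ _
    have h1 := private_le (c := c) (V := V) (W := Y.filter (fun w => c a w ∉ Θ)) (Θ := Θ) (R := R)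
      (p := i) hL (fun y D hD => hR y D (hD.mono (hWY.trans hYV))) (hX haX) (hWY.trans hYV)
      (fun w hw => (Finset.mem_filter.mp (hWY hw)).2 a haX) (by
        intro w hw D' hD' hdis hcw
        have hw2 := (Finset.mem_filter.mp hw).2
        have hwY := hWY hw
        have hcD : c a w ∉ D := fun h => hw2 (hDΘ h)
        have h2 : RP c V w (insert (c a w) D) :=
          RP.step (hD.mono hX) (hYV hwY) ((Finset.mem_filter.mp hwY).2 a haX) hcD
        have h3 : Disjoint D' (insert (c a w) D) := by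
          rw [Finset.disjoint_insert_right]
          exact ⟨hcw, hdis.mono_right hDΘ⟩
        obtain ⟨y, hy⟩ := hD'.join (hWY.trans hYV) _ h2 h3
        have h4 := hR _ _ hy
        rw [Finset.card_union_of_disjoint h3.symm, Finset.card_insert_of_notMem hcD] at h4
        omega)
    rw [hΘ] at h1
    exact cancel_pow h1
  -- (c)
  set Y' := Y.filter (fun w => X₁.card < 2 * (X₁.filter (fun a => c a w ∉ Θ)).card) with hY'
  have hcount : Y'.card ≤ 2 * (B * 3 ^ R) := by
    have h1 : Y'.card * X₁.card ≤ 2 * (B * 3 ^ R) * X₁.card := by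
      calc Y'.card * X₁.card = ∑ _w ∈ Y', X₁.card := by rw [Finset.sum_const, smul_eq_mul]
        _ ≤ ∑ w ∈ Y', 2 * (X₁.filter (fun a => c a w ∉ Θ)).card :=
          Finset.sum_le_sum fun w hw => ((Finset.mem_filter.mp hw).2).le
        _ ≤ ∑ w ∈ Y, 2 * (X₁.filter (fun a => c a w ∉ Θ)).card :=
          Finset.sum_le_sum_of_subset (Finset.filter_subset _ _)
        _ = 2 * ∑ w ∈ Y, (X₁.filter (fun a => c a w ∉ Θ)).card := by rw [Finset.mul_sum]
        _ = 2 * ∑ a ∈ X₁, (Y.filter (fun w => c a w ∉ Θ)).card := by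
          congr 1
          simp only [Finset.card_filter]
          exact Finset.sum_comm
        _ ≤ 2 * ∑ _a ∈ X₁, (B * 3 ^ R) :=
          Nat.mul_le_mul_left _ (Finset.sum_le_sum hbad)
        _ = 2 * (B * 3 ^ R) * X₁.card := by
          rw [Finset.sum_const, smul_eq_mul]
          ring
    exact Nat.le_of_mul_le_mul_right h1 (by omega)
  -- (d)
  set U := Y.filter (fun w => ¬ X₁.card < 2 * (X₁.filter (fun a => c a w ∉ Θ)).card) with hU
  have hUY : U ⊆ Y := Finset.filter_subset _ _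
  set s' := R - (i + 4) with hs'
  have hreach : ∀ w ∈ U, ∃ E ⊆ Θ, s' ≤ E.card ∧ RP c V w E := by
    intro w hw
    obtain ⟨hwY, hwn⟩ := Finset.mem_filter.mp hw
    have hwX := (Finset.mem_filter.mp hwY).2
    set Xw := X₁.filter (fun a => ¬ c a w ∉ Θ) with hXw
    have hXwX : Xw ⊆ X := (Finset.filter_subset _ _).trans hX₁X
    have hsplit : (X₁.filter (fun a => c a w ∉ Θ)).card + Xw.card = X₁.card :=
      Finset.card_filter_add_card_filter_not _
    have h4 : X.card ≤ 4 * Xw.card := by omega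
    have hcolw : Col c (insert w Xw) Θ := by
      intro u hu v hv huv
      rcases Finset.mem_insert.mp hu with rfl | hu
      · rcases Finset.mem_insert.mp hv with rfl | hv
        · omega
        · have := hwX v (hXwX hv)
          omega
      · rcases Finset.mem_insert.mp hv with rfl | hv
        · exact not_not.mp (Finset.mem_filter.mp hu).2
        · exact hcol u (hXwX hu) v (hXwX hv) huv
    have hins : insert w Xw ⊆ V :=
      Finset.insert_subset (hYV hwY) (hXwX.trans hX)
    by_contra hcon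
    push Not at hcon
    have hshort : ∀ D, RP c (insert w Xw) w D → D.card < s' := by
      intro D hD
      by_contra h
      exact hcon D (RP.subset_of_col hD hcolw) (by omega) (hD.mono hins)
    have hs'pos : 0 < s' := by
      have := hshort ∅ (RP.single (Finset.mem_insert_self _ _))
      omega
    have h5 := card_anchored_le (l := 3) (r := s' - 1) (by omega) hL (hXwX.trans hX) (hYV hwY)
      (fun v hv => hwX v (hXwX hv)) (fun u hu v hv => hcol u (hXwX hu) v (hXwX hv))
      (fun D hD => by have := hshort D hD; omega)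
    rw [hΘ] at h5
    have h6 : 3 ^ R * 2 ^ (R + e) ≤ 3 ^ R * (2 ^ (d + 1 + s') * 3 ^ (e + 1)) := by
      calc 3 ^ R * 2 ^ (R + e) ≤ (2 ^ d * X.card) * 2 ^ (R + e) := Nat.mul_le_mul_right _ hd
        _ ≤ (2 ^ d * (4 * Xw.card)) * 2 ^ (R + e) := by gcongr
        _ = 2 ^ d * 4 * (Xw.card * 2 ^ (R + e)) := by ring
        _ ≤ 2 ^ d * 4 * (2 ^ (s' - 1) * 3 ^ (R + e + 1)) := Nat.mul_le_mul_left _ h5
        _ = 3 ^ R * (2 ^ (d + 1 + s') * 3 ^ (e + 1)) := by
          rw [show d + 1 + s' = d + 2 + (s' - 1) by omega, show R + e + 1 = R + (e + 1) by omega,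
            pow_add 2 (d + 2), pow_add 2 d, pow_add 3 R]
          ring
    have h7 := Nat.le_of_mul_le_mul_left h6 (by positivity)
    have h8 : 2 ^ (R + e) = 2 ^ (d + 1 + s') * 2 ^ (2 * e + 3) := by
      rw [← pow_add]
      congr 1
      omega
    rw [h8] at h7
    have h9 := Nat.le_of_mul_le_mul_left h7 (by positivity)
    exact absurd h9 (not_le.mpr (arith_b e))
  -- (e)
  have hUc : U.card ≤ (i + 4 + 1) ^ 2 * 3 ^ (2 * (i + 4)) * 3 ^ e * 3 ^ R := by
    have h1 := avoid_le (l := 3) (U := U) (Θ := Θ) (R := R) (C := i + 4) (by omega)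
      (hL.mono (hUY.trans hYV)) (fun y D hD => hR y D (hD.mono (hUY.trans hYV))) (by
        intro y D hD hdis
        have := card_add_le hR hD (hUY.trans hYV) hreach hdis
        omega)
    rw [hΘ] at h1
    exact cancel_pow h1
  have hYsum : Y'.card + U.card = Y.card := Finset.card_filter_add_card_filter_not _
  calc Y.card = Y'.card + U.card := hYsum.symm
    _ ≤ 2 * (B * 3 ^ R) + (i + 4 + 1) ^ 2 * 3 ^ (2 * (i + 4)) * 3 ^ e * 3 ^ R :=
      Nat.add_le_add hcount hUc
    _ = KD d e * 3 ^ R := by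
      rw [KD, hB, hi]
      ring

/-- levels of the reversed colouring -/
theorem Lev.rev {N : ℕ} (hN : ∀ v ∈ V, v ≤ N) (hL : Lev c V 3 lev) :
    Lev (revc c N) (rvs V N) 3 (fun γ v => 2 - lev γ (N - v)) := by
  refine ⟨fun γ v _ => by omega, fun u hu v hv huv => ?_⟩
  have h1 := (mem_rvs hN).mp hu
  have h2 := (mem_rvs hN).mp hv
  have h3 := hL.up _ h2.2 _ h1.2 (by omega)
  have h4 := hL.lt (c (N - v) (N - u)) _ h1.2
  simp only [revc_eq]
  omega

/-- mirror image of `dense_up` -/
theorem dense_down (hL : Lev c V 3 lev) (hR : Rk c V R) (hX : X ⊆ V) (hcol : Col c X Θ)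
    (hΘ : Θ.card = R + e) (hd : 3 ^ R ≤ 2 ^ d * X.card) :
    (V.filter (fun w => ∀ x ∈ X, w < x)).card ≤ KD d e * 3 ^ R := by
  obtain ⟨N, hN⟩ : ∃ N, ∀ v ∈ V, v ≤ N := ⟨V.sup id, fun v hv => Finset.le_sup (f := id) hv⟩
  have hNX : ∀ v ∈ X, v ≤ N := fun v hv => hN v (hX hv)
  have h1 := dense_up (c := revc c N) (V := rvs V N) (X := rvs X N) (R := R) (d := d) (e := e)
    (Lev.rev hN hL) (by
      intro y D hD
      exact (hD.toRS_rev hN).card_le hR) (by
      intro y hy
      have h := (mem_rvs hNX).mp hy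
      exact (mem_rvs hN).mpr ⟨h.1, hX h.2⟩) (by
      intro u hu v hv huv
      have h1 := (mem_rvs hNX).mp hu
      have h2 := (mem_rvs hNX).mp hv
      exact hcol _ h2.2 _ h1.2 (by omega)) hΘ (by rw [card_rvs hNX]; exact hd)
  refine le_trans ?_ h1
  have h2 : ((V.filter (fun w => ∀ x ∈ X, w < x)).image (fun v => N - v)).card =
      (V.filter (fun w => ∀ x ∈ X, w < x)).card := by
    refine Finset.card_image_of_injOn fun u hu v hv h => ?_
    have h1 := hN u (Finset.mem_filter.mp hu).1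
    have h2 := hN v (Finset.mem_filter.mp hv).1
    have h3 : N - u = N - v := h
    omega
  rw [← h2]
  refine Finset.card_le_card ?_
  intro y hy
  obtain ⟨v, hv, rfl⟩ := Finset.mem_image.mp hy
  obtain ⟨hvV, hvX⟩ := Finset.mem_filter.mp hv
  have hvN := hN v hvV
  refine Finset.mem_filter.mpr ⟨(mem_rvs hN).mpr ⟨by omega, ?_⟩, ?_⟩
  · rwa [show N - (N - v) = v by omega]
  · intro x hx
    have h3 := (mem_rvs hNX).mp hx
    have h4 := hvX _ h3.2
    omega

/-- **A dense thin set bounds `V`.** -/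
theorem dense_bound (hL : Lev c V 3 lev) (hR : Rk c V R) (hX : X ⊆ V) (hcol : Col c X Θ)
    (hΘ : Θ.card = R + e) (hd : 3 ^ R ≤ 2 ^ d * X.card) :
    V.card ≤ (2 * KD (d + 1) e + 1) * 3 ^ R := by
  have hXpos : 0 < X.card := by
    rcases Nat.eq_zero_or_pos X.card with h | h
    · rw [h, Nat.mul_zero] at hd
      have : 0 < 3 ^ R := by positivity
      omega
    · exact h
  have hex : ∃ m, X.card ≤ 2 * (X.filter (fun x => x ≤ m)).card := by
    refine ⟨X.sup id, ?_⟩
    have h1 : X.filter (fun x => x ≤ X.sup id) = X :=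
      Finset.filter_true_of_mem (fun x hx => Finset.le_sup (f := id) hx)
    rw [h1]
    omega
  set m := Nat.find hex with hm
  have hm1 : X.card ≤ 2 * (X.filter (fun x => x ≤ m)).card := Nat.find_spec hex
  have hm2 : X.card ≤ 2 * (X.filter (fun x => m ≤ x)).card := by
    have hsplit : (X.filter (fun x => m ≤ x)).card + (X.filter (fun x => ¬ m ≤ x)).card =
        X.card := Finset.card_filter_add_card_filter_not _
    rcases Nat.eq_zero_or_pos m with h0 | h0
    · rw [Finset.filter_true_of_mem (fun x _ => by omega)]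
      omega
    · have h1 := Nat.find_min hex (m := m - 1) (by omega)
      have h2 : X.filter (fun x => ¬ m ≤ x) = X.filter (fun x => x ≤ m - 1) := by
        refine Finset.filter_congr fun x _ => ?_
        omega
      rw [h2] at hsplit
      omega
  have hu := dense_up (X := X.filter (fun x => x ≤ m)) (d := d + 1) hL hR
    ((Finset.filter_subset _ _).trans hX) (fun u hu v hv => hcol u (Finset.mem_of_mem_filter _ hu) v
      (Finset.mem_of_mem_filter _ hv)) hΘ (by
      calc 3 ^ R ≤ 2 ^ d * X.card := hd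
        _ ≤ 2 ^ d * (2 * (X.filter (fun x => x ≤ m)).card) := Nat.mul_le_mul_left _ hm1
        _ = _ := by rw [pow_succ]; ring)
  have hdn := dense_down (X := X.filter (fun x => m ≤ x)) (d := d + 1) hL hR
    ((Finset.filter_subset _ _).trans hX) (fun u hu v hv => hcol u (Finset.mem_of_mem_filter _ hu) v
      (Finset.mem_of_mem_filter _ hv)) hΘ (by
      calc 3 ^ R ≤ 2 ^ d * X.card := hd
        _ ≤ 2 ^ d * (2 * (X.filter (fun x => m ≤ x)).card) := Nat.mul_le_mul_left _ hm2
        _ = _ := by rw [pow_succ]; ring)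
  have hsub : V ⊆ (V.filter (fun w => ∀ x ∈ X.filter (fun x => x ≤ m), x < w) ∪
      V.filter (fun w => ∀ x ∈ X.filter (fun x => m ≤ x), w < x)) ∪ {m} := by
    intro v hv
    rcases lt_trichotomy v m with h | h | h
    · refine Finset.mem_union_left _ (Finset.mem_union_right _ (Finset.mem_filter.mpr ⟨hv, ?_⟩))
      intro x hx
      have := (Finset.mem_filter.mp hx).2
      omega
    · exact Finset.mem_union_right _ (Finset.mem_singleton.mpr h)
    · refine Finset.mem_union_left _ (Finset.mem_union_left _ (Finset.mem_filter.mpr ⟨hv, ?_⟩))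
      intro x hx
      have := (Finset.mem_filter.mp hx).2
      omega
  have h1 := (Finset.card_le_card hsub).trans ((Finset.card_union_le _ _).trans
    (Nat.add_le_add_right (Finset.card_union_le _ _) _))
  rw [Finset.card_singleton] at h1
  have h3 : 1 ≤ 3 ^ R := Nat.one_le_pow _ _ (by norm_num)
  calc V.card ≤ KD (d + 1) e * 3 ^ R + KD (d + 1) e * 3 ^ R + 1 := by omega
    _ ≤ KD (d + 1) e * 3 ^ R + KD (d + 1) e * 3 ^ R + 3 ^ R := by omega
    _ = (2 * KD (d + 1) e + 1) * 3 ^ R := by ring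

/-- **The reduction (D'')**: `U` is large and all rainbow paths inside `U` which avoid the `R + e`
colours of `Θ` have at most `C` edges. -/
theorem dense_avoid_bound (hL : Lev c V 3 lev) (hR : Rk c V R) (hU : U ⊆ V)
    (hΘ : Θ.card = R + e) (hC : ∀ y D, RP c U y D → Disjoint D Θ → D.card ≤ C)
    (hd : 3 ^ R ≤ 2 ^ d * U.card) :
    V.card ≤ (2 * KD (d + 6 * C + 1) e + 1) * 3 ^ R := by
  obtain ⟨X, hX, hcol, hcard⟩ := chi (l := 3) (by omega) (hL.mono hU) hC
  refine dense_bound (d := d + 6 * C) hL hR (hX.trans hU) hcol hΘ ?_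
  have h1 : (C + 1) ^ 2 * 3 ^ (2 * C) ≤ 2 ^ (6 * C) := by
    have h2 : C + 1 ≤ 2 ^ C := Nat.lt_two_pow_self
    calc (C + 1) ^ 2 * 3 ^ (2 * C) ≤ (2 ^ C) ^ 2 * 4 ^ (2 * C) := by
          gcongr
          norm_num
      _ = 2 ^ (6 * C) := by
        rw [show (4 : ℕ) = 2 ^ 2 by norm_num, ← pow_mul, ← pow_mul, ← pow_add]
        congr 1
        ring
  calc 3 ^ R ≤ 2 ^ d * U.card := hd
    _ ≤ 2 ^ d * ((C + 1) ^ 2 * 3 ^ (2 * C) * X.card) := Nat.mul_le_mul_left _ hcard
    _ ≤ 2 ^ d * (2 ^ (6 * C) * X.card) := by gcongr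
    _ = 2 ^ (d + 6 * C) * X.card := by rw [pow_add]; ring

end FlashRainbow.CF
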