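import Pool.Agent.Work.MP_54723a_co.CF.PiTrick
import Pool.Agent.Work.MP_54723a_co.CF.NoFar
import Pool.Agent.Work.MP_54723a_co.CF.NumFar39

/-!
# A junction exists  (helper39; glue of `far_free`, the selection trick and `far_num`)
-/

set_option autoImplicit false

namespace FlashRainbow.CF

open Classical

variable {c : ℕ → ℕ → ℕ} {V Z K F : Finset ℕ} {x t R M a q₀ : ℕ} {Hv : ℕ → Finset ℕ}
  {lev : ℕ → ℕ → ℕ}

/-- **Junctions exist**: behind a hub `x` with `R = |K| + t`, for every part `Z` of the zone on which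
the labels avoid `F` and which is not too thin, there is a junction with at most three colours, at
most one of them heavy at each point, into a large class. -/
theorem exists_jun (hL : Lev c V 3 lev) (hR : Rk c V R)
    (hM : ∀ W ⊆ V, ∀ r ≤ R, Rk c W r → W.card * 3 ^ (R - r) ≤ M) (h3 : 3 ^ R ≤ M)
    (hH : Hub c V x K F) (hk : R = K.card + t) (hZ : Z ⊆ V) (hxZ : ∀ v ∈ Z, x < v)
    (hF : ∀ v ∈ Z, c x v ∉ F) (hHv : ∀ v ∈ Z, (Hv v).card ≤ q₀) (hz : M ≤ 2 ^ a * Z.card)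
    (ht : 200 * (a + q₀ + 101) ≤ t) :
    ∃ τ q : ℕ, 0 < τ ∧ 133 * q + 4000 ≤ t ∧ M ≤ 2 ^ q * (τ * 3 ^ (R - t)) ∧
      HasJunH c V Z K F x τ Hv := by
  obtain ⟨T, hTZ, hTc, hsel⟩ := pi_select c x Z Hv hHv
  have hz' : M ≤ 2 ^ (a + (q₀ + 1)) * T.card := by
    calc M ≤ 2 ^ a * Z.card := hz
      _ ≤ 2 ^ a * (2 ^ (q₀ + 1) * T.card) := Nat.mul_le_mul_left _ hTc
      _ = 2 ^ (a + (q₀ + 1)) * T.card := by rw [pow_add]; ring
  obtain ⟨τ, q, hτ, hq, hMq, hlt⟩ := far_num39 (a := a + (q₀ + 1)) (k := K.card) (by omega) hk h3 hz'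
  refine ⟨τ, q, hτ, hq, hMq, ?_⟩
  by_contra hno
  have hx := hH.mem
  have hNJ : NoJun3 c T K F x (33 * τ) :=
    { one := fun l hl X hX hXK => lt_of_lt_of_le
        (pi_one hL hx hZ hxZ hTZ hτ hno l hl hX hXK) (by omega)
      two := fun u hu φ hφ hne X hX hXK => lt_of_lt_of_le
        (pi_two hL hx hZ hxZ hTZ hτ hno hF hsel u hu φ hφ hne hX hXK) (by omega)
      three := fun u hu s hs hus hlab h2 h3' h1 X hX hXK =>
        pi_three hL hx hZ hxZ hTZ hτ hno hF hsel u s hu hs hus hlab h1 h2 h3' hX hXK }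
  have h := far_free hL hR hM hH (le_of_eq hk) (hTZ.trans hZ) (fun v hv => hxZ v (hTZ hv))
    (fun v hv => hF v (hTZ hv)) (by omega : 0 < 33 * τ) hNJ
  exact absurd (lt_of_le_of_lt h hlt) (lt_irrefl _)

end FlashRainbow.CF
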