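import Pool.Agent.Work.MP_54723a_co.CF.CoreCore

/-!
# Constant factor, measure route: exact hubs, end, step, junctions  (helper96)

Source: helper75 (junction colours made harmless by measure), helper20 (fixed starts),
helper42 (POP), helper96 (semi-O points, three-colour junctions).
-/

set_option autoImplicit false

namespace FlashRainbow.CF

open Classical

variable {c : ℕ → ℕ → ℕ} {V T W U X Z K F Φ E : Finset ℕ} {l R r C p q d e t τ x : ℕ}
  {lev : ℕ → ℕ → ℕ}

/-- `X` is free of the colours of `K` -/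
def Fre (c : ℕ → ℕ → ℕ) (X K : Finset ℕ) : Prop := ∀ γ ∈ K, ∀ u ∈ X, ∀ v ∈ X, u < v → c u v ≠ γ

theorem Fre.mono {X' K' : Finset ℕ} (h : Fre c X K) (hX : X' ⊆ X) (hK : K' ⊆ K) : Fre c X' K' :=
  fun γ hγ u hu v hv huv => h γ (hK hγ) u (hX hu) v (hX hv) huv

theorem Fre.union (h : Fre c X K) (h' : Fre c X F) : Fre c X (K ∪ F) := by
  intro γ hγ
  rcases Finset.mem_union.mp hγ with h1 | h1
  · exact h γ h1
  · exact h' γ h1

/-- the best level class -/
theorem exists_class (hL : Lev c X 3 lev) (Q : Finset ℕ) :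
    ∃ X' ⊆ X, X.card ≤ 3 ^ Q.card * X'.card ∧ Fre c X' Q := by
  obtain ⟨X', h1, h2, h3⟩ := exists_select (T := X) (l := 3) (lev := lev) (by omega) (fun _ => Q)
    Q.card (fun _ _ => le_refl _) (fun γ v hv => hL.lt γ v hv)
  refine ⟨X', h1, h2, ?_⟩
  intro γ hγ u hu v hv huv he
  have h4 := h3 u hu v hv γ hγ hγ
  have h5 := hL.up u (h1 hu) v (h1 hv) huv
  rw [he] at h5
  omega

/-- exact hub -/
def Hub (c : ℕ → ℕ → ℕ) (V : Finset ℕ) (x : ℕ) (K F : Finset ℕ) : Prop :=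
  F ⊆ K ∧ ∀ L, F ⊆ L → L ⊆ K → RP c V x L

theorem Hub.start (hx : x ∈ V) : Hub c V x ∅ ∅ := by
  refine ⟨le_refl _, fun L _ h => ?_⟩
  rw [Finset.subset_empty.mp h]
  exact RP.single hx

theorem Hub.card_le (h : Hub c V x K F) (hR : Rk c V R) : K.card ≤ R :=
  hR _ _ (h.2 K h.1 (le_refl _))

theorem Hub.mem (h : Hub c V x K F) : x ∈ V := (h.2 K h.1 (le_refl _)).mem

/-- **END**: all but few of the points `v` behind `x` have `c x v ∈ F`. -/
theorem Hub.end_le (h : Hub c V x K F) (hL : Lev c V 3 lev) (hR : Rk c V R)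
    (ht : R ≤ K.card + t) (hZ : Z ⊆ V) (hxZ : ∀ v ∈ Z, x < v) :
    Z.card ≤ KA (t + 1) * 3 ^ R + (Z.filter fun v => c x v ∈ F).card := by
  have h1 := free_le (c := c) (V := V) (R := R) (C := t + 1) (Θ := K) (a := x) hL hR
    (h.card_le hR)
  have h2 : Z ⊆ (V.filter fun v => x < v ∧ FreeP c V R (t + 1) K x (c x v)) ∪
      Z.filter fun v => c x v ∈ F := by
    intro v hv
    by_cases hF : c x v ∈ F
    · exact Finset.mem_union_right _ (Finset.mem_filter.mpr ⟨hv, hF⟩)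
    · refine Finset.mem_union_left _ (Finset.mem_filter.mpr ⟨hZ hv, hxZ v hv, K.erase (c x v), ?_,
        ?_, Finset.notMem_erase _ _, ?_⟩)
      · refine h.2 _ (fun y hy => ?_) (Finset.erase_subset _ _)
        refine Finset.mem_erase.mpr ⟨?_, h.1 hy⟩
        rintro rfl
        exact hF hy
      · have := Finset.pred_card_le_card_erase (s := K) (a := c x v)
        omega
      · rw [Finset.sdiff_eq_empty_iff_subset.mpr (Finset.erase_subset _ _), Finset.card_empty]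
        omega
  exact (Finset.card_le_card h2).trans ((Finset.card_union_le _ _).trans
    (Nat.add_le_add_right h1 _))

theorem rp_append {y : ℕ} {D D' : Finset ℕ} (h : RP c V x D) (h' : RQ c V x y D')
    (hd : Disjoint D' D) : RP c V y (D ∪ D') := by
  induction h' with
  | single _ => simpa using h
  | @step y z D' h1 hz hlt hc ih =>
    rw [Finset.disjoint_insert_left] at hd
    rw [Finset.union_insert]
    refine RP.step (ih hd.2) hz hlt ?_
    rw [Finset.mem_union, not_or]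
    exact ⟨hd.1, hc⟩

/-- a junction from `x` into all of `X`, with the colours `Φ` -/
def Jun (c : ℕ → ℕ → ℕ) (V : Finset ℕ) (x : ℕ) (Φ X : Finset ℕ) : Prop :=
  X ⊆ V ∧ ∀ v ∈ X, RQ c V x v Φ

theorem Jun.mono {X' : Finset ℕ} (h : Jun c V x Φ X) (hX : X' ⊆ X) : Jun c V x Φ X' :=
  ⟨hX.trans h.1, fun v hv => h.2 v (hX hv)⟩

/-- every point of `X` is reached with the palette `L ∪ Φ` -/
theorem Hub.reach (h : Hub c V x K F) (hJ : Jun c V x Φ X) {L : Finset ℕ}
    (hFL : F ⊆ L) (hLK : L ⊆ K) (hLΦ : Disjoint Φ L) : ∀ v ∈ X, RP c V v (L ∪ Φ) :=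
  fun v hv => rp_append (h.2 L hFL hLK) (hJ.2 v hv) hLΦ

/-- **PLAIN**: behind a junction every class free of `K ∪ Φ` has rank at most `R - |K ∪ Φ|`. -/
theorem Hub.plain (h : Hub c V x K F) (hR : Rk c V R) (hJ : Jun c V x Φ X) (hΦF : Disjoint Φ F)
    (hX : Fre c X (K ∪ Φ)) : Rk c X (R - (K ∪ Φ).card) := by
  intro y D hD
  have h1 := h.reach hJ (L := K \ Φ) (fun z hz => Finset.mem_sdiff.mpr
    ⟨h.1 hz, fun hz' => Finset.disjoint_left.mp hΦF hz' hz⟩) Finset.sdiff_subset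
    Finset.disjoint_sdiff
  have h2 : K \ Φ ∪ Φ = K ∪ Φ := by
    ext z
    simp only [Finset.mem_union, Finset.mem_sdiff]
    tauto
  rw [h2] at h1
  have h3 := hR _ _ (hD.prepend hJ.1 h1 hX)
  have h4 : Disjoint D (K ∪ Φ) := by
    rw [Finset.disjoint_right]
    intro γ hγ
    exact hD.notMem_of_free (hX γ hγ)
  rw [Finset.card_union_of_disjoint h4] at h3
  omega

/-- **STEP**: composition of hubs. -/
theorem Hub.step {x' : ℕ} (h : Hub c V x K F) (hJ : Jun c V x Φ X) (hΦF : Disjoint Φ F)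
    (hX : Fre c X (K ∪ Φ)) (hE : ∀ E' ⊆ E, RP c X x' E') :
    Hub c V x' (K ∪ Φ ∪ E) (F ∪ Φ) := by
  refine ⟨?_, ?_⟩
  · intro z hz
    rcases Finset.mem_union.mp hz with h1 | h1
    · exact Finset.mem_union_left _ (Finset.mem_union_left _ (h.1 h1))
    · exact Finset.mem_union_left _ (Finset.mem_union_right _ h1)
  · intro L' h1 h2
    have h3 := h.reach hJ (L := (L' ∩ K) \ Φ) (fun z hz => Finset.mem_sdiff.mpr
      ⟨Finset.mem_inter.mpr ⟨h1 (Finset.mem_union_left _ hz), h.1 hz⟩,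
        fun hz' => Finset.disjoint_left.mp hΦF hz' hz⟩)
      (fun z hz => (Finset.mem_inter.mp (Finset.mem_sdiff.mp hz).1).2) Finset.disjoint_sdiff
    have h4 := (hE (L' ∩ E) Finset.inter_subset_right).prepend hJ.1 h3 (by
      intro γ hγ
      refine hX γ ?_
      rcases Finset.mem_union.mp hγ with h5 | h5
      · exact Finset.mem_union_left _ (Finset.mem_inter.mp (Finset.mem_sdiff.mp h5).1).2
      · exact Finset.mem_union_right _ h5)
    have h5 : L' ∩ E ∪ ((L' ∩ K) \ Φ ∪ Φ) = L' := by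
      ext z
      have h6 : z ∈ Φ → z ∈ L' := fun hz => h1 (Finset.mem_union_right _ hz)
      have h7 : z ∈ L' → (z ∈ K ∨ z ∈ Φ) ∨ z ∈ E := fun hz => by
        have := h2 hz
        simpa only [Finset.mem_union] using this
      simp only [Finset.mem_union, Finset.mem_sdiff, Finset.mem_inter]
      tauto
    rwa [h5] at h4

theorem jun_one {a : ℕ} (hx : x ∈ V) (hX : X ⊆ V) (h : ∀ v ∈ X, x < v ∧ c x v = a) :
    Jun c V x {a} X := by
  refine ⟨hX, fun v hv => ?_⟩
  obtain ⟨h1, h2⟩ := h v hv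
  have h3 := RQ.step (RQ.single (c := c) hx) (hX hv) h1 (Finset.notMem_empty _)
  rwa [h2] at h3

theorem jun_two {a b u : ℕ} (hx : x ∈ V) (hu : u ∈ V) (hxu : x < u) (ha : c x u = a) (hab : a ≠ b)
    (hX : X ⊆ V) (h : ∀ v ∈ X, u < v ∧ c u v = b) : Jun c V x {b, a} X := by
  refine ⟨hX, fun v hv => ?_⟩
  obtain ⟨h1, h2⟩ := h v hv
  have h3 := RQ.step (RQ.single (c := c) hx) hu hxu (Finset.notMem_empty _)
  rw [ha] at h3
  have h4 := RQ.step h3 (hX hv) h1 (by
    rw [h2]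
    simpa using fun h => hab h.symm)
  rw [h2] at h4
  exact h4

theorem jun_three {a b d u s : ℕ} (hx : x ∈ V) (hu : u ∈ V) (hs : s ∈ V) (hxu : x < u)
    (hus : u < s) (ha : c x u = a) (hb : c u s = b) (hab : a ≠ b) (had : a ≠ d) (hbd : b ≠ d)
    (hX : X ⊆ V) (h : ∀ v ∈ X, s < v ∧ c s v = d) : Jun c V x {d, b, a} X := by
  refine ⟨hX, fun v hv => ?_⟩
  obtain ⟨h1, h2⟩ := h v hv
  have h3 := RQ.step (RQ.single (c := c) hx) hu hxu (Finset.notMem_empty _)
  rw [ha] at h3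
  have h4 := RQ.step h3 hs hus (by
    rw [hb]
    simpa using fun h => hab h.symm)
  rw [hb] at h4
  have h5 := RQ.step h4 (hX hv) h1 (by
    rw [h2]
    simp only [Finset.mem_insert, Finset.notMem_empty, insert_empty_eq, Finset.mem_singleton,
      not_or]
    exact ⟨fun h => hbd h.symm, fun h => had h.symm⟩)
  rw [h2] at h5
  exact h5

/-- there is a junction into a class of at least `τ` points -/
def HasJun (c : ℕ → ℕ → ℕ) (V Z K F : Finset ℕ) (x τ : ℕ) : Prop :=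
  ∃ Φ X : Finset ℕ, Φ.card ≤ 3 ∧ Disjoint Φ F ∧ X ⊆ Z ∧ Jun c V x Φ X ∧ Fre c X (K ∪ Φ) ∧
    τ ≤ X.card

/-- from a `K`-free set to a junction -/
theorem hasJun_of (hL : Lev c V 3 lev) (hZ : Z ⊆ V) (hXZ : X ⊆ Z) (hK : Fre c X K)
    (hJ : Jun c V x Φ X) (h3 : Φ.card ≤ 3) (hΦF : Disjoint Φ F) (hcard : 27 * τ ≤ X.card) :
    HasJun c V Z K F x τ := by
  obtain ⟨X', h1, h2, h4⟩ := exists_class (hL.mono (hXZ.trans hZ)) Φ
  refine ⟨Φ, X', h3, hΦF, h1.trans hXZ, hJ.mono h1, (hK.mono h1 (le_refl _)).union h4, ?_⟩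
  have h5 : 3 ^ Φ.card ≤ 3 ^ 3 := Nat.pow_le_pow_right (by norm_num) h3
  have h6 : X.card ≤ 27 * X'.card := h2.trans (Nat.mul_le_mul_right _ (by simpa using h5))
  omega

end FlashRainbow.CF
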