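import Pool.Agent.Work.MP_54723a_co.PowBasic

/-!
# Constant factor, measure route: long rainbow paths in thick sets without junctions  (helper53)

Source: helper14 (deterministic form of (1) of the old hub argument). Every set in which all label
classes and all out-classes of other colours than the own label are small contains a long rainbow
path which avoids few given colours: choose points greedily; the arcs coloured by the label of the
tail and the other arcs give a long path of one kind.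
-/

set_option autoImplicit false

namespace FlashRainbow.CF

open Classical

variable {c : ℕ → ℕ → ℕ} {Q S B : Finset ℕ} {f : ℕ → ℕ} {s τ : ℕ}

/-- chains of arcs with the property `P`, with a given start and a given number of arcs -/
inductive Ch (P : ℕ → ℕ → Prop) (S : Finset ℕ) : ℕ → ℕ → Prop
  | zero {v : ℕ} : v ∈ S → Ch P S v 0
  | succ {v w n : ℕ} : v ∈ S → v < w → P v w → Ch P S w n → Ch P S v (n + 1)

theorem Ch.mem {P : ℕ → ℕ → Prop} {v n : ℕ} (h : Ch P S v n) : v ∈ S := by
  cases h with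
  | zero h => exact h
  | succ h _ _ _ => exact h

/-- Two kinds of arcs, more than `s²` points: a chain of one kind with `s` arcs. -/
theorem two_kinds (P : ℕ → ℕ → Prop) (h : s * s < S.card) :
    (∃ v, Ch P S v s) ∨ ∃ v, Ch (fun a b => ¬ P a b) S v s := by
  by_contra hcon
  push Not at hcon
  obtain ⟨h1, h2⟩ := hcon
  have key : ∀ (R : ℕ → ℕ → Prop), (∀ v, ¬ Ch R S v s) → ∀ u ∈ S, ∀ v ∈ S, u < v → R u v →
      Nat.findGreatest (Ch R S v) s < Nat.findGreatest (Ch R S u) s := by
    intro R hR u hu v hv huv hRuv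
    have h3 : Ch R S v (Nat.findGreatest (Ch R S v) s) :=
      Nat.findGreatest_spec (P := Ch R S v) (Nat.zero_le s) (Ch.zero hv)
    have h4 : Nat.findGreatest (Ch R S v) s < s := by
      refine lt_of_le_of_ne (Nat.findGreatest_le s) fun h => ?_
      rw [h] at h3
      exact hR v h3
    exact Nat.le_findGreatest h4 (Ch.succ hu huv hRuv h3)
  have key2 : ∀ (R : ℕ → ℕ → Prop), (∀ v, ¬ Ch R S v s) → ∀ v ∈ S,
      Nat.findGreatest (Ch R S v) s < s := by
    intro R hR v hv
    refine lt_of_le_of_ne (Nat.findGreatest_le s) fun h => ?_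
    have h3 : Ch R S v (Nat.findGreatest (Ch R S v) s) :=
      Nat.findGreatest_spec (P := Ch R S v) (Nat.zero_le s) (Ch.zero hv)
    rw [h] at h3
    exact hR v h3
  have h3 : S.card ≤ (Finset.range s ×ˢ Finset.range s).card := by
    refine Finset.card_le_card_of_injOn (fun v => (Nat.findGreatest (Ch P S v) s,
      Nat.findGreatest (Ch (fun a b => ¬ P a b) S v) s)) (fun v hv => ?_) ?_
    · rw [Finset.mem_coe, Finset.mem_product, Finset.mem_range, Finset.mem_range]
      exact ⟨key2 _ h1 v hv, key2 _ h2 v hv⟩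
    · intro u hu v hv huv
      simp only [Prod.mk.injEq] at huv
      by_contra hne
      rcases lt_or_gt_of_ne hne with hlt | hlt
      · by_cases hP : P u v
        · have := key P h1 u hu v hv hlt hP
          omega
        · have := key _ h2 u hu v hv hlt hP
          omega
      · by_cases hP : P v u
        · have := key P h1 v hv u hu hlt hP
          omega
        · have := key _ h2 v hv u hu hlt hP
          omega
  rw [Finset.card_product, Finset.card_range] at h3
  omega

/-- the points chosen so far -/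
structure Sel (c : ℕ → ℕ → ℕ) (Q : Finset ℕ) (f : ℕ → ℕ) (B S : Finset ℕ) : Prop where
  sub : S ⊆ Q
  lab : ∀ u ∈ S, f u ∉ B
  inj : ∀ u ∈ S, ∀ v ∈ S, f u = f v → u = v
  out : ∀ u ∈ S, ∀ v ∈ S, u < v → c u v ≠ f u → c u v ∉ B
  dif : ∀ u ∈ S, ∀ v ∈ S, u < v → c u v ≠ f u → ∀ a ∈ S, ∀ b ∈ S, a < b → c a b ≠ f a →
    v ≠ b → c u v ≠ c a b

theorem Sel.path_own (hS : Sel c Q f B S) {x n : ℕ} (h : Ch (fun a b => c a b = f a) S x n) :
    ∃ D, RS c Q x D ∧ D.card = n ∧ Disjoint D B ∧ ∀ γ ∈ D, ∃ w ∈ S, x ≤ w ∧ γ = f w := by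
  induction h with
  | zero hv => exact ⟨∅, RS.single (hS.sub hv), by simp, by simp, by simp⟩
  | @succ v w n hv hlt hP h ih =>
    obtain ⟨D, h1, h2, h3, h4⟩ := ih
    have hn : c v w ∉ D := by
      intro hmem
      obtain ⟨w', hw', hle, he⟩ := h4 _ hmem
      have hP' : c v w = f v := hP
      have := hS.inj v hv w' hw' (by rw [← hP', he])
      omega
    refine ⟨insert (c v w) D, RS.step h1 (hS.sub hv) hlt hn, ?_, ?_, ?_⟩
    · rw [Finset.card_insert_of_notMem hn, h2]
    · rw [Finset.disjoint_insert_left]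
      refine ⟨?_, h3⟩
      have hP' : c v w = f v := hP
      rw [hP']
      exact hS.lab v hv
    · intro γ hγ
      rcases Finset.mem_insert.mp hγ with rfl | hγ'
      · exact ⟨v, hv, le_refl _, hP⟩
      · obtain ⟨w', hw', hle, he⟩ := h4 γ hγ'
        exact ⟨w', hw', by omega, he⟩

theorem Sel.path_other (hS : Sel c Q f B S) {x n : ℕ}
    (h : Ch (fun a b => ¬ c a b = f a) S x n) :
    ∃ D, RS c Q x D ∧ D.card = n ∧ Disjoint D B ∧
      ∀ γ ∈ D, ∃ a ∈ S, ∃ b ∈ S, a < b ∧ c a b ≠ f a ∧ x ≤ a ∧ γ = c a b := by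
  induction h with
  | zero hv => exact ⟨∅, RS.single (hS.sub hv), by simp, by simp, by simp⟩
  | @succ v w n hv hlt hP h ih =>
    obtain ⟨D, h1, h2, h3, h4⟩ := ih
    have hw := h.mem
    have hn : c v w ∉ D := by
      intro hmem
      obtain ⟨a, ha, b, hb, hab, hfa, hle, he⟩ := h4 _ hmem
      exact hS.dif v hv w hw hlt hP a ha b hb hab hfa (by omega) he
    refine ⟨insert (c v w) D, RS.step h1 (hS.sub hv) hlt hn, ?_, ?_, ?_⟩
    · rw [Finset.card_insert_of_notMem hn, h2]
    · rw [Finset.disjoint_insert_left]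
      exact ⟨hS.out v hv w hw hlt hP, h3⟩
    · intro γ hγ
      rcases Finset.mem_insert.mp hγ with rfl | hγ'
      · exact ⟨v, hv, w, hw, hlt, hP, le_refl _, rfl⟩
      · obtain ⟨a, ha, b, hb, hab, hfa, hle, he⟩ := h4 γ hγ'
        exact ⟨a, ha, b, hb, hab, hfa, by omega, he⟩

/-- one more point -/
theorem Sel.extend (hS : Sel c Q f B S) {n β : ℕ} (hn : S.card = n)
    (hlab : ∀ l, (Q.filter fun v => f v = l).card ≤ τ)
    (hout : ∀ u ∈ Q, ∀ φ, φ ≠ f u → (Q.filter fun v => u < v ∧ c u v = φ).card ≤ τ)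
    (hβ : (B.card + n + n * (B.card + n * n)) * τ ≤ β)
    (hlow : (Q.filter fun v => ∃ w ∈ S, v ≤ w).card ≤ n * (β + 1))
    (hQ : (n + 1) * (β + 1) ≤ Q.card) :
    ∃ w ∈ Q, w ∉ S ∧ Sel c Q f B (insert w S) ∧
      (Q.filter fun v => ∃ w' ∈ insert w S, v ≤ w').card ≤ (n + 1) * (β + 1) := by
  obtain ⟨Φ, hΦ⟩ : ∃ Φ : Finset ℕ, Φ = B ∪ (S ×ˢ S).image fun p => c p.1 p.2 := ⟨_, rfl⟩
  have hΦc : Φ.card ≤ B.card + n * n := by
    rw [hΦ]
    refine (Finset.card_union_le _ _).trans (Nat.add_le_add_left ?_ _)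
    refine Finset.card_image_le.trans ?_
    rw [Finset.card_product, hn]
  obtain ⟨B1, hB1⟩ : ∃ B1 : Finset ℕ, B1 = B.biUnion fun l => Q.filter fun v => f v = l := ⟨_, rfl⟩
  obtain ⟨B2, hB2⟩ : ∃ B2 : Finset ℕ, B2 = S.biUnion fun u => Q.filter fun v => f v = f u :=
    ⟨_, rfl⟩
  obtain ⟨B3, hB3⟩ : ∃ B3 : Finset ℕ, B3 = S.biUnion fun u => (Φ.erase (f u)).biUnion fun φ =>
    Q.filter fun v => u < v ∧ c u v = φ := ⟨_, rfl⟩
  have hc1 : B1.card ≤ B.card * τ := by
    rw [hB1]
    exact Finset.card_biUnion_le_card_mul _ _ _ fun l _ => hlab l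
  have hc2 : B2.card ≤ n * τ := by
    rw [hB2, ← hn]
    exact Finset.card_biUnion_le_card_mul _ _ _ fun u _ => hlab (f u)
  have hc3 : B3.card ≤ n * ((B.card + n * n) * τ) := by
    rw [hB3, ← hn]
    refine Finset.card_biUnion_le_card_mul _ _ _ fun u hu => ?_
    have h1 : ((Φ.erase (f u)).biUnion fun φ => Q.filter fun v => u < v ∧ c u v = φ).card ≤
        (Φ.erase (f u)).card * τ :=
      Finset.card_biUnion_le_card_mul _ _ _ fun φ hφ =>
        hout u (hS.sub hu) φ (Finset.ne_of_mem_erase hφ)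
    refine h1.trans (Nat.mul_le_mul_right τ ?_)
    rw [hn]
    exact (Finset.card_erase_le).trans hΦc
  obtain ⟨Bad, hBad⟩ : ∃ Bad : Finset ℕ, Bad = B1 ∪ B2 ∪ B3 := ⟨_, rfl⟩
  have hBc : Bad.card ≤ β := by
    rw [hBad]
    refine (Finset.card_union_le _ _).trans ?_
    refine (Nat.add_le_add_right (Finset.card_union_le _ _) _).trans ?_
    have h1 : (B.card + n + n * (B.card + n * n)) * τ =
        B.card * τ + n * τ + n * ((B.card + n * n) * τ) := by ring
    omega
  obtain ⟨L, hL⟩ : ∃ L : Finset ℕ, L = Q.filter fun v => ∃ w ∈ S, v ≤ w := ⟨_, rfl⟩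
  rw [← hL] at hlow
  have hne : ((Q \ L) \ Bad).Nonempty := by
    rw [← Finset.card_pos]
    have h1 : Q.card ≤ L.card + (Q \ L).card := by
      have h2 : Q ⊆ L ∪ (Q \ L) := by
        intro v hv
        by_cases h : v ∈ L
        · exact Finset.mem_union_left _ h
        · exact Finset.mem_union_right _ (Finset.mem_sdiff.mpr ⟨hv, h⟩)
      exact (Finset.card_le_card h2).trans (Finset.card_union_le _ _)
    have h2 : (Q \ L).card ≤ Bad.card + ((Q \ L) \ Bad).card := by
      have h3 : Q \ L ⊆ Bad ∪ ((Q \ L) \ Bad) := by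
        intro v hv
        by_cases h : v ∈ Bad
        · exact Finset.mem_union_left _ h
        · exact Finset.mem_union_right _ (Finset.mem_sdiff.mpr ⟨hv, h⟩)
      exact (Finset.card_le_card h3).trans (Finset.card_union_le _ _)
    have h4 : (n + 1) * (β + 1) = n * (β + 1) + β + 1 := by ring
    omega
  obtain ⟨w, hw⟩ : ∃ w, w = ((Q \ L) \ Bad).min' hne := ⟨_, rfl⟩
  have hwm : w ∈ (Q \ L) \ Bad := by
    rw [hw]
    exact Finset.min'_mem _ _
  rw [Finset.mem_sdiff, Finset.mem_sdiff] at hwm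
  obtain ⟨⟨hwQ, hwL⟩, hwB⟩ := hwm
  have hSw : ∀ u ∈ S, u < w := by
    intro u hu
    by_contra hcon
    push Not at hcon
    refine hwL ?_
    rw [hL]
    exact Finset.mem_filter.mpr ⟨hwQ, u, hu, hcon⟩
  have hwS : w ∉ S := fun h => lt_irrefl _ (hSw w h)
  have hwB1 : f w ∉ B := by
    intro h
    refine hwB ?_
    rw [hBad, hB1]
    exact Finset.mem_union_left _ (Finset.mem_union_left _ (Finset.mem_biUnion.mpr
      ⟨f w, h, Finset.mem_filter.mpr ⟨hwQ, rfl⟩⟩))
  have hwB2 : ∀ u ∈ S, f w ≠ f u := by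
    intro u hu h
    refine hwB ?_
    rw [hBad, hB2]
    exact Finset.mem_union_left _ (Finset.mem_union_right _ (Finset.mem_biUnion.mpr
      ⟨u, hu, Finset.mem_filter.mpr ⟨hwQ, h⟩⟩))
  have hwB3 : ∀ u ∈ S, c u w ≠ f u → c u w ∉ Φ := by
    intro u hu h1 h
    refine hwB ?_
    rw [hBad, hB3]
    exact Finset.mem_union_right _ (Finset.mem_biUnion.mpr ⟨u, hu, Finset.mem_biUnion.mpr
      ⟨c u w, Finset.mem_erase.mpr ⟨h1, h⟩, Finset.mem_filter.mpr ⟨hwQ, hSw u hu, rfl⟩⟩⟩)
  have hBΦ : B ⊆ Φ := by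
    rw [hΦ]
    exact Finset.subset_union_left
  have hSΦ : ∀ a ∈ S, ∀ b ∈ S, c a b ∈ Φ := by
    intro a ha b hb
    rw [hΦ]
    exact Finset.mem_union_right _ (Finset.mem_image.mpr ⟨(a, b), Finset.mem_product.mpr
      ⟨ha, hb⟩, rfl⟩)
  refine ⟨w, hwQ, hwS, ⟨?_, ?_, ?_, ?_, ?_⟩, ?_⟩
  · exact Finset.insert_subset hwQ hS.sub
  · intro u hu
    rcases Finset.mem_insert.mp hu with rfl | hu
    · exact hwB1
    · exact hS.lab u hu
  · intro u hu v hv h
    rcases Finset.mem_insert.mp hu with rfl | hu1 <;> rcases Finset.mem_insert.mp hv with rfl | hv1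
    · rfl
    · exact absurd h (hwB2 v hv1)
    · exact absurd h.symm (hwB2 u hu1)
    · exact hS.inj u hu1 v hv1 h
  · intro u hu v hv huv h
    rcases Finset.mem_insert.mp hu with rfl | hu1 <;> rcases Finset.mem_insert.mp hv with rfl | hv1
    · exact absurd huv (lt_irrefl _)
    · exact absurd huv (not_lt.mpr (hSw v hv1).le)
    · exact fun h' => hwB3 u hu1 h (hBΦ h')
    · exact hS.out u hu1 v hv1 huv h
  · intro u hu v hv huv h a ha b hb hab h' hvb
    have hu' : u ∈ S := by
      rcases Finset.mem_insert.mp hu with rfl | hu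
      · rcases Finset.mem_insert.mp hv with rfl | hv
        · exact absurd huv (lt_irrefl _)
        · exact absurd huv (not_lt.mpr (hSw v hv).le)
      · exact hu
    have ha' : a ∈ S := by
      rcases Finset.mem_insert.mp ha with rfl | ha
      · rcases Finset.mem_insert.mp hb with rfl | hb
        · exact absurd hab (lt_irrefl _)
        · exact absurd hab (not_lt.mpr (hSw b hb).le)
      · exact ha
    rcases Finset.mem_insert.mp hv with rfl | hv1 <;> rcases Finset.mem_insert.mp hb with rfl | hb1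
    · exact absurd rfl hvb
    · intro he
      exact hwB3 u hu' h (he ▸ hSΦ a ha' b hb1)
    · intro he
      exact hwB3 a ha' h' (he ▸ hSΦ u hu' v hv1)
    · exact hS.dif u hu' v hv1 huv h a ha' b hb1 hab h' hvb
  · have h1 : (Q.filter fun v => ∃ w' ∈ insert w S, v ≤ w') ⊆ insert w (L ∪ Bad) := by
      intro v hv
      obtain ⟨hvQ, w', hw', hle⟩ := Finset.mem_filter.mp hv
      by_cases hvL : v ∈ L
      · exact Finset.mem_insert_of_mem (Finset.mem_union_left _ hvL)
      by_cases hvB : v ∈ Bad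
      · exact Finset.mem_insert_of_mem (Finset.mem_union_right _ hvB)
      have h2 : w ≤ v := by
        rw [hw]
        exact Finset.min'_le _ _ (Finset.mem_sdiff.mpr ⟨Finset.mem_sdiff.mpr ⟨hvQ, hvL⟩, hvB⟩)
      have h3 : v ≤ w := by
        rcases Finset.mem_insert.mp hw' with rfl | hw'
        · exact hle
        · exact hle.trans (hSw w' hw').le
      rw [le_antisymm h3 h2]
      exact Finset.mem_insert_self _ _
    refine (Finset.card_le_card h1).trans ?_
    refine (Finset.card_insert_le _ _).trans ?_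
    have h2 := Finset.card_union_le L Bad
    have h4 : (n + 1) * (β + 1) = n * (β + 1) + β + 1 := by ring
    omega

/-- **LONG PATHS.** If all label classes and all out-classes of other colours than the own label
have at most `τ` points, then every set of `(s + 1) ^ 8 (τ + 1)` points has a rainbow path with `s`
arcs which avoids `s` given colours. -/
theorem long_path (hB : B.card ≤ s) (hlab : ∀ l, (Q.filter fun v => f v = l).card ≤ τ)
    (hout : ∀ u ∈ Q, ∀ φ, φ ≠ f u → (Q.filter fun v => u < v ∧ c u v = φ).card ≤ τ)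
    (hQ : (s + 1) ^ 8 * (τ + 1) ≤ Q.card) :
    ∃ x D, RS c Q x D ∧ D.card = s ∧ Disjoint D B := by
  obtain ⟨β, hβ⟩ : ∃ β, β = (s + 1) ^ 6 * τ := ⟨_, rfl⟩
  have hQ' : (s * s + 1) * (β + 1) ≤ Q.card := by
    refine le_trans ?_ hQ
    rw [hβ]
    have h1 : s * s + 1 ≤ (s + 1) ^ 2 := by nlinarith
    have h2 : (s + 1) ^ 6 * τ + 1 ≤ (s + 1) ^ 6 * (τ + 1) := by
      have : 1 ≤ (s + 1) ^ 6 := Nat.one_le_pow _ _ (by omega)
      rw [Nat.mul_add]
      omega
    calc (s * s + 1) * ((s + 1) ^ 6 * τ + 1) ≤ (s + 1) ^ 2 * ((s + 1) ^ 6 * (τ + 1)) :=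
          Nat.mul_le_mul h1 h2
      _ = (s + 1) ^ 8 * (τ + 1) := by ring
  have hsel : ∀ n ≤ s * s + 1, ∃ S, S.card = n ∧ Sel c Q f B S ∧
      (Q.filter fun v => ∃ w ∈ S, v ≤ w).card ≤ n * (β + 1) := by
    intro n
    induction n with
    | zero =>
      intro _
      refine ⟨∅, rfl, ⟨by simp, by simp, by simp, by simp, by simp⟩, ?_⟩
      simp
    | succ n ih =>
      intro hn
      obtain ⟨S, h1, h2, h3⟩ := ih (by omega)
      have h4 : (B.card + n + n * (B.card + n * n)) * τ ≤ β := by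
        rw [hβ]
        refine Nat.mul_le_mul_right τ ?_
        have hn' : n ≤ s * s := by omega
        calc B.card + n + n * (B.card + n * n)
            ≤ s + s * s + s * s * (s + s * s * (s * s)) := by
              refine Nat.add_le_add (Nat.add_le_add hB hn') (Nat.mul_le_mul hn' ?_)
              exact Nat.add_le_add hB (Nat.mul_le_mul hn' hn')
          _ ≤ (s + 1) ^ 6 := by
              have h7 : (s + 1) ^ 6 = s ^ 6 + 6 * s ^ 5 + 15 * s ^ 4 + 20 * s ^ 3 + 15 * s ^ 2 +
                6 * s + 1 := by ring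
              have h8 : s + s * s + s * s * (s + s * s * (s * s)) = s ^ 6 + s ^ 3 + s ^ 2 + s := by
                ring
              rw [h7, h8]
              omega
      obtain ⟨w, hw1, hw2, hw3, hw4⟩ := h2.extend h1 hlab hout h4 h3
        ((Nat.mul_le_mul_right _ hn).trans hQ')
      exact ⟨insert w S, by rw [Finset.card_insert_of_notMem hw2, h1], hw3, hw4⟩
  obtain ⟨S, h1, h2, -⟩ := hsel (s * s + 1) (le_refl _)
  rcases two_kinds (S := S) (s := s) (fun a b => c a b = f a) (by omega) with ⟨x, hx⟩ | ⟨x, hx⟩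
  · obtain ⟨D, h3, h4, h5, -⟩ := h2.path_own hx
    exact ⟨x, D, h3, h4, h5⟩
  · obtain ⟨D, h3, h4, h5, -⟩ := h2.path_other hx
    exact ⟨x, D, h3, h4, h5⟩

end FlashRainbow.CF
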