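import Pool.Agent.Work.MP_54723a_co.CF.Run
import Pool.Agent.Work.MP_54723a_co.CF.H1

/-!
# Zones for the measure route  (helper60)

* `run_good` : run lemma with a constant threshold `1 - 1/d`.
* `Zones`, `zones` : nested sets `U 0 = V ⊇ U 1 ⊇ .. ⊇ U J`, zones `G k ⊆ U k` behind `U (k+1)`, such
  that no point of `U (k+1)` has a colour of measure more than `1 - 1/d` on `G k` (hence on no
  later zone `G b`, `b ≤ k`), and the colours which occur inside `U m` are unpopular
  (density at most `1 / q m`) in all laws `G a × G b`, `b ≤ a < m`.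
-/

set_option autoImplicit false

namespace FlashRainbow.CF

open Classical

variable {c : ℕ → ℕ → ℕ} {V : Finset ℕ} {R : ℕ} {lev : ℕ → ℕ → ℕ}

/-- the first `k` points of `T` -/
theorem exists_first (T : Finset ℕ) : ∀ k ≤ T.card,
    ∃ N ⊆ T, N.card = k ∧ ∀ u ∈ N, ∀ v ∈ T \ N, u < v := by
  intro k
  induction k with
  | zero => intro _; exact ⟨∅, Finset.empty_subset _, rfl, fun u hu => absurd hu (Finset.notMem_empty _)⟩
  | succ k ih =>
    intro hk
    obtain ⟨N, hN, hNc, hlt⟩ := ih (by omega)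
    have hne : (T \ N).Nonempty := by
      rw [← Finset.card_pos, Finset.card_sdiff_of_subset hN]
      omega
    obtain ⟨m, hm, hmin⟩ : ∃ m ∈ T \ N, ∀ v ∈ T \ N, m ≤ v :=
      ⟨(T \ N).min' hne, Finset.min'_mem _ _, fun v hv => Finset.min'_le _ _ hv⟩
    have hm' := Finset.mem_sdiff.mp hm
    refine ⟨insert m N, Finset.insert_subset hm'.1 hN, ?_, ?_⟩
    · rw [Finset.card_insert_of_notMem hm'.2, hNc]
    · intro u hu v hv
      rw [Finset.mem_sdiff, Finset.mem_insert, not_or] at hv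
      have hv' : v ∈ T \ N := Finset.mem_sdiff.mpr ⟨hv.1, hv.2.2⟩
      rcases Finset.mem_insert.mp hu with rfl | hu
      · exact lt_of_le_of_ne (hmin v hv') (fun h => hv.2.1 h.symm)
      · exact hlt u hu v hv'

/-- `x` has no colour of measure more than `1 - 1/d` on `G` -/
def NDom (c : ℕ → ℕ → ℕ) (d x : ℕ) (G : Finset ℕ) : Prop :=
  ∀ g, d * (G.filter fun v => c x v = g).card ≤ (d - 1) * G.card

/-- a good splitting of `T` -/
def GoodSplit (c : ℕ → ℕ → ℕ) (d : ℕ) (T : Finset ℕ) : Prop :=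
  ∃ N ⊆ T, ∃ G ⊆ T, (∀ x ∈ N, ∀ v ∈ G, x < v) ∧ (∀ x ∈ N, NDom c d x G) ∧
    T.card ≤ 4 * d * N.card ∧ T.card ≤ 2 * G.card

theorem good_or {d : ℕ} (hd : 2 ≤ d) {T : Finset ℕ} (hT : d ≤ T.card) : GoodSplit c d T ∨
    ∃ x ∈ T, ∃ g, ∃ T' ⊆ T, (∀ u ∈ T', x < u ∧ c x u = g) ∧
      (d - 1) ^ 2 * T.card ≤ d ^ 2 * T'.card := by
  obtain ⟨N, hN, hNc, hlt⟩ := exists_first T (T.card / d) (Nat.div_le_self _ _)
  have hdm := Nat.div_add_mod T.card d
  have hml := Nat.mod_lt T.card (show 0 < d by omega)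
  have hq : 1 ≤ T.card / d := (Nat.one_le_div_iff (by omega)).mpr hT
  set G := T \ N with hG
  have hGc : G.card = T.card - T.card / d := by
    rw [hG, Finset.card_sdiff_of_subset hN, hNc]
  have hGT : G ⊆ T := Finset.sdiff_subset
  by_cases h : 2 * (N.filter fun x => ¬ NDom c d x G).card ≤ N.card
  · left
    refine ⟨N.filter fun x => NDom c d x G, (Finset.filter_subset _ _).trans hN, G, hGT, ?_, ?_,
      ?_, ?_⟩
    · intro x hx v hv
      exact hlt x (Finset.mem_filter.mp hx).1 v hv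
    · intro x hx
      exact (Finset.mem_filter.mp hx).2
    · have h1 := Finset.card_filter_add_card_filter_not (s := N) (fun x => NDom c d x G)
      have h2 : N.card ≤ 2 * (N.filter fun x => NDom c d x G).card := by omega
      have h3 : T.card ≤ 2 * (d * N.card) := by
        rw [hNc]
        have : d ≤ d * (T.card / d) := Nat.le_mul_of_pos_right _ hq
        omega
      calc T.card ≤ 2 * (d * N.card) := h3
        _ ≤ 2 * (d * (2 * (N.filter fun x => NDom c d x G).card)) := by gcongr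
        _ = 4 * d * (N.filter fun x => NDom c d x G).card := by ring
    · rw [hGc]
      have h1 : 2 * (T.card / d) ≤ d * (T.card / d) := Nat.mul_le_mul_right _ hd
      omega
  · right
    push Not at h
    have hpos : 0 < (N.filter fun x => ¬ NDom c d x G).card := by omega
    obtain ⟨x, hx⟩ := Finset.card_pos.mp hpos
    obtain ⟨hxN, hxD⟩ := Finset.mem_filter.mp hx
    unfold NDom at hxD
    push Not at hxD
    obtain ⟨g, hg⟩ := hxD
    refine ⟨x, hN hxN, g, G.filter fun v => c x v = g, (Finset.filter_subset _ _).trans hGT, ?_, ?_⟩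
    · intro u hu
      obtain ⟨h1, h2⟩ := Finset.mem_filter.mp hu
      exact ⟨hlt x hxN u h1, h2⟩
    · have h1 : (d - 1) * T.card ≤ d * G.card := by
        rw [hGc]
        obtain ⟨e, rfl⟩ : ∃ e, d = e + 1 := ⟨d - 1, by omega⟩
        have h2 : (e + 1) * (T.card / (e + 1)) ≤ T.card := Nat.mul_div_le _ _
        rw [Nat.mul_sub]
        have h3 : e * T.card + T.card = (e + 1) * T.card := by ring
        simp only [Nat.add_sub_cancel]
        omega
      calc (d - 1) ^ 2 * T.card = (d - 1) * ((d - 1) * T.card) := by ring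
        _ ≤ (d - 1) * (d * G.card) := Nat.mul_le_mul_left _ h1
        _ = d * ((d - 1) * G.card) := by ring
        _ ≤ d * (d * (G.filter fun v => c x v = g).card) := Nat.mul_le_mul_left _ hg.le
        _ = d ^ 2 * (G.filter fun v => c x v = g).card := by ring

theorem bern (d r : ℕ) (hr : r ≤ d) : (d - r) * d ^ r ≤ d * (d - 1) ^ r := by
  induction r with
  | zero => simp
  | succ r ih =>
    have h1 := ih (by omega)
    obtain ⟨a, rfl⟩ : ∃ a, d = r + 1 + a := ⟨d - (r + 1), by omega⟩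
    rw [show r + 1 + a - (r + 1) = a by omega]
    rw [show r + 1 + a - r = a + 1 by omega] at h1
    have h2 : a * (r + 1 + a) ≤ (a + 1) * (r + 1 + a - 1) := by
      rw [show r + 1 + a - 1 = r + a by omega]
      nlinarith
    calc a * (r + 1 + a) ^ (r + 1) = a * (r + 1 + a) * (r + 1 + a) ^ r := by ring
      _ ≤ (a + 1) * (r + 1 + a - 1) * (r + 1 + a) ^ r := Nat.mul_le_mul_right _ h2
      _ = (r + 1 + a - 1) * ((a + 1) * (r + 1 + a) ^ r) := by ring
      _ ≤ (r + 1 + a - 1) * ((r + 1 + a) * (r + 1 + a - 1) ^ r) := Nat.mul_le_mul_left _ h1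
      _ = (r + 1 + a) * (r + 1 + a - 1) ^ (r + 1) := by ring

theorem pow_half {d r : ℕ} (hd : 0 < d) (hr : 2 * r ≤ d) : d ^ r ≤ 2 * (d - 1) ^ r := by
  have h1 := bern d r (by omega)
  have h2 : d * d ^ r ≤ d * (2 * (d - 1) ^ r) := by
    calc d * d ^ r ≤ (2 * (d - r)) * d ^ r := Nat.mul_le_mul_right _ (by omega)
      _ = 2 * ((d - r) * d ^ r) := by ring
      _ ≤ 2 * (d * (d - 1) ^ r) := Nat.mul_le_mul_left _ h1
      _ = d * (2 * (d - 1) ^ r) := by ring
  exact Nat.le_of_mul_le_mul_left h2 hd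

theorem pow_loss {d : ℕ} (hd : 2 ≤ d) (k : ℕ) :
    d ^ k ≤ 2 ^ (k / (d / 2) + 1) * (d - 1) ^ k := by
  set e := d / 2 with he
  have he1 : 1 ≤ e := by omega
  have h1 : d ^ e ≤ 2 * (d - 1) ^ e := pow_half (by omega) (by omega)
  have h2 : d ^ (k % e) ≤ 2 * (d - 1) ^ (k % e) := by
    have := Nat.mod_lt k he1
    exact pow_half (by omega) (by omega)
  have hk := Nat.div_add_mod k e
  calc d ^ k = (d ^ e) ^ (k / e) * d ^ (k % e) := by rw [← pow_mul, ← pow_add, hk]
    _ ≤ (2 * (d - 1) ^ e) ^ (k / e) * (2 * (d - 1) ^ (k % e)) :=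
        Nat.mul_le_mul (Nat.pow_le_pow_left h1 _) h2
    _ = 2 ^ (k / e + 1) * (((d - 1) ^ e) ^ (k / e) * (d - 1) ^ (k % e)) := by
        rw [mul_pow]; ring
    _ = 2 ^ (k / e + 1) * (d - 1) ^ k := by rw [← pow_mul, ← pow_add, hk]

/-- numbers: a run of `2 (3 a + 1)` steps is impossible -/
theorem run_num {d a m : ℕ} (hd : 60 ≤ d) (hm : 3 * a + 1 ≤ m)
    (h : (d - 1) ^ (4 * (3 * a + 1)) * 3 ^ m ≤ d ^ (4 * (3 * a + 1)) * (2 ^ m * 2 ^ a)) :
    False := by
  have h1 : 14 * d ^ 4 ≤ 15 * (d - 1) ^ 4 := by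
    obtain ⟨e, rfl⟩ : ∃ e, d = e + 60 := ⟨d - 60, by omega⟩
    rw [show e + 60 - 1 = e + 59 by omega]
    nlinarith [sq_nonneg (e : ℤ), Nat.zero_le e, Nat.zero_le (e ^ 2), Nat.zero_le (e ^ 3),
      Nat.zero_le (e ^ 4)]
  set M := 3 * a + 1 with hM
  obtain ⟨j, rfl⟩ : ∃ j, m = M + j := ⟨m - M, by omega⟩
  have h2 : 14 ^ M * d ^ (4 * M) ≤ 15 ^ M * (d - 1) ^ (4 * M) := by
    rw [pow_mul, pow_mul, ← mul_pow, ← mul_pow]
    exact Nat.pow_le_pow_left h1 _
  have hdpos : 0 < d ^ (4 * M) := by positivity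
  have h3 : d ^ (4 * M) * (14 ^ M * 3 ^ (M + j)) ≤
      d ^ (4 * M) * (15 ^ M * (2 ^ (M + j) * 2 ^ a)) := by
    calc d ^ (4 * M) * (14 ^ M * 3 ^ (M + j)) = 14 ^ M * d ^ (4 * M) * 3 ^ (M + j) := by ring
      _ ≤ 15 ^ M * (d - 1) ^ (4 * M) * 3 ^ (M + j) := Nat.mul_le_mul_right _ h2
      _ = 15 ^ M * ((d - 1) ^ (4 * M) * 3 ^ (M + j)) := by ring
      _ ≤ 15 ^ M * (d ^ (4 * M) * (2 ^ (M + j) * 2 ^ a)) := Nat.mul_le_mul_left _ h
      _ = d ^ (4 * M) * (15 ^ M * (2 ^ (M + j) * 2 ^ a)) := by ring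
  have h4 := Nat.le_of_mul_le_mul_left h3 hdpos
  have h5 : 2 ^ j * 3 ^ M * (14 ^ M) ≤ 2 ^ j * (15 ^ M * 2 ^ M * 2 ^ a) := by
    calc 2 ^ j * 3 ^ M * 14 ^ M ≤ 3 ^ j * 3 ^ M * 14 ^ M := by gcongr; norm_num
      _ = 14 ^ M * 3 ^ (M + j) := by rw [pow_add]; ring
      _ ≤ 15 ^ M * (2 ^ (M + j) * 2 ^ a) := h4
      _ = 2 ^ j * (15 ^ M * 2 ^ M * 2 ^ a) := by rw [pow_add]; ring
  have h6 : 3 ^ M * 14 ^ M ≤ 15 ^ M * 2 ^ M * 2 ^ a := by
    rw [mul_assoc] at h5
    exact Nat.le_of_mul_le_mul_left h5 (by positivity)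
  rw [← mul_pow, ← mul_pow] at h6
  norm_num at h6
  have h7 : (42 : ℕ) ^ M = 6 ^ M * 7 ^ M := by rw [← mul_pow]; norm_num
  have h8 : (30 : ℕ) ^ M = 6 ^ M * 5 ^ M := by rw [← mul_pow]; norm_num
  rw [h7, h8, mul_assoc] at h6
  have h9 : 7 ^ M ≤ 5 ^ M * 2 ^ a := Nat.le_of_mul_le_mul_left h6 (by positivity)
  rw [hM, pow_succ, pow_succ, pow_mul, pow_mul] at h9
  norm_num at h9
  have h10 : (125 : ℕ) ^ a * 5 * 2 ^ a = 5 * 250 ^ a := by
    rw [show (250 : ℕ) = 125 * 2 by norm_num, mul_pow]; ring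
  rw [h10] at h9
  have h11 : (250 : ℕ) ^ a ≤ 343 ^ a := Nat.pow_le_pow_left (by norm_num) _
  have h12 : 0 < (250 : ℕ) ^ a := by positivity
  omega

/-- run lemma with a constant threshold -/
theorem run_good (hL : Lev c V 3 lev) (hR : Rk c V R) (hE : Ext c V R) {d a : ℕ} (hd : 60 ≤ d)
    {S : Finset ℕ} (hS : S ⊆ V) (ha : V.card ≤ 2 ^ a * S.card)
    (hbig : 2 ^ ((12 * a + 4) / (d / 2) + 1) * d ≤ S.card) :
    ∃ T ⊆ S, GoodSplit c d T ∧ S.card ≤ 2 ^ ((12 * a + 4) / (d / 2) + 1) * T.card := by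
  set b := (12 * a + 4) / (d / 2) + 1 with hb
  set n₀ := 2 * (3 * a + 1) with hn₀
  have hloss : ∀ n ≤ n₀, ∀ T : Finset ℕ, (d - 1) ^ (2 * n) * S.card ≤ d ^ (2 * n) * T.card →
      S.card ≤ 2 ^ b * T.card := by
    intro n hn T hT
    have h1 := pow_loss (d := d) (by omega) (2 * n)
    have h2 : 2 ^ (2 * n / (d / 2) + 1) ≤ 2 ^ b := by
      refine Nat.pow_le_pow_right (by norm_num) ?_
      rw [hb]
      have : 2 * n / (d / 2) ≤ (12 * a + 4) / (d / 2) := Nat.div_le_div_right (by omega)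
      omega
    have hpos : 0 < (d - 1) ^ (2 * n) := Nat.pow_pos (by omega)
    have h3 : (d - 1) ^ (2 * n) * S.card ≤ (d - 1) ^ (2 * n) * (2 ^ b * T.card) := by
      calc (d - 1) ^ (2 * n) * S.card ≤ d ^ (2 * n) * T.card := hT
        _ ≤ 2 ^ (2 * n / (d / 2) + 1) * (d - 1) ^ (2 * n) * T.card := Nat.mul_le_mul_right _ h1
        _ ≤ 2 ^ b * (d - 1) ^ (2 * n) * T.card := by gcongr
        _ = (d - 1) ^ (2 * n) * (2 ^ b * T.card) := by ring
    exact Nat.le_of_mul_le_mul_left h3 hpos
  by_contra hcon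
  push Not at hcon
  have key : ∀ n ≤ n₀, ∃ (x g : ℕ → ℕ) (Q : ℕ → Finset ℕ), Run c V n x g Q ∧ Q n ⊆ S ∧
      (d - 1) ^ (2 * n) * S.card ≤ d ^ (2 * n) * (Q n).card := by
    intro n
    induction n with
    | zero =>
      intro _
      exact ⟨fun _ => 0, fun _ => 0, fun _ => S, ⟨hS, fun i hi => absurd hi (by omega),
        fun i hi => absurd hi (by omega), fun i hi => absurd hi (by omega),
        fun i hi => absurd hi (by omega)⟩, Finset.Subset.refl _, by simp⟩
    | succ n ih =>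
      intro hn
      obtain ⟨x, g, Q, hQ, hQS, hc⟩ := ih (by omega)
      have h1 := hloss n (by omega) (Q n) hc
      have h2 : d ≤ (Q n).card := by
        have : 2 ^ b * d ≤ 2 ^ b * (Q n).card := hbig.trans h1
        exact Nat.le_of_mul_le_mul_left this (by positivity)
      rcases good_or (c := c) (by omega) h2 with hg | ⟨y, hy, γ, T', hT', hcol, hcard⟩
      · exact absurd (hcon (Q n) hQS hg) (by omega)
      · refine ⟨Function.update x n y, Function.update g n γ, Function.update Q (n + 1) T',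
          ⟨?_, ?_, ?_, ?_, ?_⟩, ?_, ?_⟩
        · rw [Function.update_of_ne (by omega)]
          exact hQ.base
        · intro i hi
          rw [Function.update_of_ne (show i ≠ n + 1 by omega)]
          rcases Nat.lt_succ_iff_lt_or_eq.mp hi with h3 | rfl
          · rw [Function.update_of_ne (by omega)]
            exact hQ.anti i h3
          · rw [Function.update_self]
            exact hT'
        · intro i hi
          rw [Function.update_of_ne (show i ≠ n + 1 by omega)]
          rcases Nat.lt_succ_iff_lt_or_eq.mp hi with h3 | rfl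
          · rw [Function.update_of_ne (by omega)]
            exact hQ.mem i h3
          · rw [Function.update_self]
            exact hy
        · intro i hi u hu
          rcases Nat.lt_succ_iff_lt_or_eq.mp hi with h3 | rfl
          · rw [Function.update_of_ne (by omega)] at hu
            rw [Function.update_of_ne (by omega)]
            exact hQ.lt i h3 u hu
          · rw [Function.update_self] at hu
            rw [Function.update_self]
            exact (hcol u hu).1
        · intro i hi u hu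
          rcases Nat.lt_succ_iff_lt_or_eq.mp hi with h3 | rfl
          · rw [Function.update_of_ne (by omega)] at hu
            rw [Function.update_of_ne (by omega), Function.update_of_ne (by omega)]
            exact hQ.col i h3 u hu
          · rw [Function.update_self] at hu
            rw [Function.update_self, Function.update_self]
            exact (hcol u hu).2
        · rw [Function.update_self]
          exact hT'.trans hQS
        · rw [Function.update_self]
          calc (d - 1) ^ (2 * (n + 1)) * S.card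
              = (d - 1) ^ 2 * ((d - 1) ^ (2 * n) * S.card) := by ring
            _ ≤ (d - 1) ^ 2 * (d ^ (2 * n) * (Q n).card) := Nat.mul_le_mul_left _ hc
            _ = d ^ (2 * n) * ((d - 1) ^ 2 * (Q n).card) := by ring
            _ ≤ d ^ (2 * n) * (d ^ 2 * T'.card) := Nat.mul_le_mul_left _ hcard
            _ = d ^ (2 * (n + 1)) * T'.card := by ring
  obtain ⟨x, g, Q, hQ, hQS, hc⟩ := key n₀ le_rfl
  obtain ⟨m, hm, hm2⟩ := run_le hL hR hE hQ
  have hSpos : 0 < S.card := lt_of_lt_of_le (by positivity) hbig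
  refine run_num (d := d) (a := a) (m := m) hd (by omega) ?_
  have h1 : S.card * ((d - 1) ^ (4 * (3 * a + 1)) * 3 ^ m) ≤
      S.card * (d ^ (4 * (3 * a + 1)) * (2 ^ m * 2 ^ a)) := by
    rw [show 4 * (3 * a + 1) = 2 * n₀ by omega]
    calc S.card * ((d - 1) ^ (2 * n₀) * 3 ^ m) = (d - 1) ^ (2 * n₀) * S.card * 3 ^ m := by ring
      _ ≤ d ^ (2 * n₀) * (Q n₀).card * 3 ^ m := Nat.mul_le_mul_right _ hc
      _ = d ^ (2 * n₀) * ((Q n₀).card * 3 ^ m) := by ring
      _ ≤ d ^ (2 * n₀) * (2 ^ m * V.card) := Nat.mul_le_mul_left _ hm2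
      _ ≤ d ^ (2 * n₀) * (2 ^ m * (2 ^ a * S.card)) := by gcongr
      _ = S.card * (d ^ (2 * n₀) * (2 ^ m * 2 ^ a)) := by ring
  exact Nat.le_of_mul_le_mul_left h1 hSpos

/-- pairs of `A × B` coloured by `h` -/
def prs (c : ℕ → ℕ → ℕ) (A B : Finset ℕ) (h : ℕ) : ℕ :=
  ((A ×ˢ B).filter fun p => p.1 < p.2 ∧ c p.1 p.2 = h).card

/-- the popular colours of a law -/
theorem exists_pop (c : ℕ → ℕ → ℕ) (A B : Finset ℕ) (q : ℕ) :
    ∃ P : Finset ℕ, P.card ≤ q ∧ ∀ h, h ∉ P → q * prs c A B h ≤ A.card * B.card := by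
  set P := ((A ×ˢ B).image fun p => c p.1 p.2).filter
    fun h => A.card * B.card < q * prs c A B h with hP
  refine ⟨P, ?_, ?_⟩
  · have h1 : ∑ h ∈ P, prs c A B h ≤ A.card * B.card := by
      unfold prs
      rw [← Finset.card_biUnion]
      · refine (Finset.card_le_card ?_).trans (Finset.card_product A B).le
        intro p hp
        obtain ⟨h, _, hp'⟩ := Finset.mem_biUnion.mp hp
        exact (Finset.mem_filter.mp hp').1
      · intro a _ b _ hab
        rw [Function.onFun, Finset.disjoint_left]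
        intro p hp hp'
        exact hab ((Finset.mem_filter.mp hp).2.2.symm.trans (Finset.mem_filter.mp hp').2.2)
    have h2 : P.card * (A.card * B.card + 1) ≤ q * (A.card * B.card) := by
      calc P.card * (A.card * B.card + 1) = ∑ _h ∈ P, (A.card * B.card + 1) := by simp
        _ ≤ ∑ h ∈ P, q * prs c A B h := Finset.sum_le_sum fun h hh => (Finset.mem_filter.mp hh).2
        _ = q * ∑ h ∈ P, prs c A B h := by rw [Finset.mul_sum]
        _ ≤ q * (A.card * B.card) := Nat.mul_le_mul_left _ h1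
    rcases Nat.eq_zero_or_pos (A.card * B.card) with h3 | h3
    · rw [h3] at h2
      omega
    · have h4 : P.card * (A.card * B.card) ≤ q * (A.card * B.card) :=
        (Nat.mul_le_mul_left _ (by omega)).trans h2
      exact Nat.le_of_mul_le_mul_right h4 h3
  · intro h hh
    by_contra hcon
    push Not at hcon
    refine hh (Finset.mem_filter.mpr ⟨?_, hcon⟩)
    have hpos : 0 < prs c A B h := by
      rcases Nat.eq_zero_or_pos (prs c A B h) with h0 | h0
      · rw [h0] at hcon
        simp at hcon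
      · exact h0
    obtain ⟨p, hp⟩ := Finset.card_pos.mp hpos
    obtain ⟨h1, h2, h3⟩ := Finset.mem_filter.mp hp
    exact Finset.mem_image.mpr ⟨p, h1, h3⟩

/-- the zones -/
structure Zones (c : ℕ → ℕ → ℕ) (V : Finset ℕ) (d : ℕ) (q A : ℕ → ℕ) (J : ℕ)
    (U G : ℕ → Finset ℕ) : Prop where
  base : U 0 = V
  anti : ∀ k < J, U (k + 1) ⊆ U k
  sub : ∀ k < J, G k ⊆ U k
  lt : ∀ k < J, ∀ x ∈ U (k + 1), ∀ v ∈ G k, x < v
  ndom : ∀ k < J, ∀ x ∈ U (k + 1), NDom c d x (G k)
  unp : ∀ m ≤ J, ∀ u ∈ U m, ∀ v ∈ U m, u < v → ∀ a < m, ∀ b ≤ a,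
    q m * prs c (G a) (G b) (c u v) ≤ (G a).card * (G b).card
  szU : ∀ k ≤ J, V.card ≤ 2 ^ A k * (U k).card
  szG : ∀ k < J, V.card ≤ 2 ^ A (k + 1) * (G k).card

theorem Zones.subset {d J : ℕ} {q A : ℕ → ℕ} {U G : ℕ → Finset ℕ} (h : Zones c V d q A J U G)
    {i j : ℕ} (hij : i ≤ j) (hj : j ≤ J) : U j ⊆ U i := by
  induction j, hij using Nat.le_induction with
  | base => exact Finset.Subset.refl _
  | succ j hij ih => exact (h.anti j (by omega)).trans (ih (by omega))

/-- **H5** : zones exist -/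
theorem zones (hL : Lev c V 3 lev) (hR : Rk c V R) (hE : Ext c V R) {d e : ℕ} (hd : 60 ≤ d)
    (he : 4 * d ≤ 2 ^ e) (q A : ℕ → ℕ) (hA0 : A 0 = 0) :
    ∀ J, (∀ k < J, A k + ((12 * A k + 4) / (d / 2) + 1) + e + 2 * ((k + 1) ^ 2 * q (k + 1)) ≤
      A (k + 1)) → 2 ^ A J ≤ V.card → ∃ U G, Zones c V d q A J U G := by
  intro J
  induction J with
  | zero =>
    intro _ _
    refine ⟨fun _ => V, fun _ => ∅, rfl, fun k hk => absurd hk (by omega),
      fun k hk => absurd hk (by omega), fun k hk => absurd hk (by omega),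
      fun k hk => absurd hk (by omega), fun m hm u _ v _ _ a ha => absurd ha (by omega), ?_,
      fun k hk => absurd hk (by omega)⟩
    intro k hk
    obtain rfl : k = 0 := by omega
    simp [hA0]
  | succ J ih =>
    intro hA hbig
    have hAJ := hA J (by omega)
    obtain ⟨b, hb⟩ : ∃ b, b = (12 * A J + 4) / (d / 2) + 1 := ⟨_, rfl⟩
    rw [← hb] at hAJ
    have hpow : 2 ^ A J ≤ V.card := (Nat.pow_le_pow_right (by norm_num) (by omega)).trans hbig
    obtain ⟨U, G, hZ⟩ := ih (fun k hk => hA k (by omega)) hpow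
    have hUV : U J ⊆ V := by
      have := hZ.subset (Nat.zero_le J) le_rfl
      rwa [hZ.base] at this
    have hszU := hZ.szU J le_rfl
    have hbig2 : 2 ^ b * d ≤ (U J).card := by
      have h1 : 2 ^ A J * (2 ^ b * d) ≤ 2 ^ A J * (U J).card := by
        calc 2 ^ A J * (2 ^ b * d) ≤ 2 ^ A J * (2 ^ b * 2 ^ e) := by
              gcongr
              omega
          _ = 2 ^ (A J + b + e) := by rw [pow_add, pow_add]; ring
          _ ≤ 2 ^ A (J + 1) := Nat.pow_le_pow_right (by norm_num) (by omega)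
          _ ≤ V.card := hbig
          _ ≤ 2 ^ A J * (U J).card := hszU
      exact Nat.le_of_mul_le_mul_left h1 (by positivity)
    obtain ⟨T, hTU, ⟨N, hNT, G', hGT, hlt, hnd, hNc, hGc⟩, hTc⟩ :=
      run_good hL hR hE hd hUV hszU (by rw [← hb]; exact hbig2)
    rw [← hb] at hTc
    -- popular colours
    set G₁ : ℕ → Finset ℕ := Function.update G J G' with hG₁
    choose P hPc hPu using fun (a b : ℕ) => exists_pop c (G₁ a) (G₁ b) (q (J + 1))
    set PP : Finset ℕ := (Finset.range (J + 1)).biUnion fun a =>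
      (Finset.range (J + 1)).biUnion fun b => P a b with hPP
    have hPPc : PP.card ≤ (J + 1) ^ 2 * q (J + 1) := by
      calc PP.card ≤ (Finset.range (J + 1)).card * ((J + 1) * q (J + 1)) := by
            refine Finset.card_biUnion_le_card_mul _ _ _ fun a _ => ?_
            refine (Finset.card_biUnion_le_card_mul _ _ _ fun b _ => hPc a b).trans ?_
            rw [Finset.card_range]
        _ = (J + 1) ^ 2 * q (J + 1) := by rw [Finset.card_range]; ring
    obtain ⟨X, hXN, hXc, hXF⟩ := exists_class (hL.mono ((hNT.trans hTU).trans hUV)) PP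
    set U₁ : ℕ → Finset ℕ := Function.update U (J + 1) X with hU₁
    have hUlt : ∀ k ≤ J, U₁ k = U k := fun k hk => by
      rw [hU₁, Function.update_of_ne (by omega)]
    have hUtop : U₁ (J + 1) = X := by rw [hU₁, Function.update_self]
    have hGlt : ∀ k < J, G₁ k = G k := fun k hk => by
      rw [hG₁, Function.update_of_ne (by omega)]
    have hGtop : G₁ J = G' := by rw [hG₁, Function.update_self]
    have hXT : X ⊆ T := hXN.trans hNT
    refine ⟨U₁, G₁, ?_, ?_, ?_, ?_, ?_, ?_, ?_, ?_⟩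
    · rw [hUlt 0 (by omega)]
      exact hZ.base
    · intro k hk
      rcases Nat.lt_succ_iff_lt_or_eq.mp hk with h | rfl
      · rw [hUlt (k + 1) (by omega), hUlt k (by omega)]
        exact hZ.anti k h
      · rw [hUtop, hUlt k le_rfl]
        exact hXT.trans hTU
    · intro k hk
      rcases Nat.lt_succ_iff_lt_or_eq.mp hk with h | rfl
      · rw [hUlt k (by omega), hGlt k h]
        exact hZ.sub k h
      · rw [hGtop, hUlt k le_rfl]
        exact hGT.trans hTU
    · intro k hk x hx v hv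
      rcases Nat.lt_succ_iff_lt_or_eq.mp hk with h | rfl
      · rw [hUlt (k + 1) (by omega)] at hx
        rw [hGlt k h] at hv
        exact hZ.lt k h x hx v hv
      · rw [hUtop] at hx
        rw [hGtop] at hv
        exact hlt x (hXN hx) v hv
    · intro k hk x hx
      rcases Nat.lt_succ_iff_lt_or_eq.mp hk with h | rfl
      · rw [hUlt (k + 1) (by omega)] at hx
        rw [hGlt k h]
        exact hZ.ndom k h x hx
      · rw [hUtop] at hx
        rw [hGtop]
        exact hnd x (hXN hx)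
    · intro m hm u hu v hv huv a ha b' hb'
      rcases Nat.lt_or_ge m (J + 1) with h | h
      · rw [hUlt m (by omega)] at hu hv
        rw [hGlt a (by omega), hGlt b' (by omega)]
        exact hZ.unp m (by omega) u hu v hv huv a ha b' hb'
      · obtain rfl : m = J + 1 := by omega
        rw [hUtop] at hu hv
        refine hPu a b' _ ?_
        intro hmem
        refine hXF (c u v) ?_ u hu v hv huv rfl
        rw [hPP]
        exact Finset.mem_biUnion.mpr ⟨a, Finset.mem_range.mpr ha,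
          Finset.mem_biUnion.mpr ⟨b', Finset.mem_range.mpr (by omega), hmem⟩⟩
    · intro k hk
      rcases Nat.lt_or_ge k (J + 1) with h | h
      · rw [hUlt k (by omega)]
        exact hZ.szU k (by omega)
      · obtain rfl : k = J + 1 := by omega
        rw [hUtop]
        have h3 : 3 ^ PP.card ≤ 2 ^ (2 * ((J + 1) ^ 2 * q (J + 1))) := by
          calc 3 ^ PP.card ≤ 4 ^ PP.card := Nat.pow_le_pow_left (by norm_num) _
            _ = 2 ^ (2 * PP.card) := by rw [pow_mul]; norm_num
            _ ≤ _ := Nat.pow_le_pow_right (by norm_num) (by omega)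
        calc V.card ≤ 2 ^ A J * (U J).card := hszU
          _ ≤ 2 ^ A J * (2 ^ b * T.card) := by gcongr
          _ ≤ 2 ^ A J * (2 ^ b * (2 ^ e * N.card)) := by
              gcongr
              exact hNc.trans (Nat.mul_le_mul_right _ he)
          _ ≤ 2 ^ A J * (2 ^ b * (2 ^ e * (2 ^ (2 * ((J + 1) ^ 2 * q (J + 1))) * X.card))) := by
              gcongr
              exact hXc.trans (Nat.mul_le_mul_right _ h3)
          _ = 2 ^ (A J + b + e + 2 * ((J + 1) ^ 2 * q (J + 1))) * X.card := by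
              rw [pow_add, pow_add, pow_add]; ring
          _ ≤ 2 ^ A (J + 1) * X.card :=
              Nat.mul_le_mul_right _ (Nat.pow_le_pow_right (by norm_num) hAJ)
    · intro k hk
      rcases Nat.lt_succ_iff_lt_or_eq.mp hk with h | rfl
      · rw [hGlt k h]
        exact hZ.szG k h
      · rw [hGtop]
        have he1 : 1 ≤ e := by
          rcases Nat.eq_zero_or_pos e with h0 | h0
          · rw [h0] at he
            omega
          · exact h0
        calc V.card ≤ 2 ^ A k * (U k).card := hszU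
          _ ≤ 2 ^ A k * (2 ^ b * T.card) := by gcongr
          _ ≤ 2 ^ A k * (2 ^ b * (2 ^ 1 * G'.card)) := by
              gcongr
              simpa using hGc
          _ = 2 ^ (A k + b + 1) * G'.card := by rw [pow_add, pow_add]; ring
          _ ≤ 2 ^ A (k + 1) * G'.card :=
              Nat.mul_le_mul_right _ (Nat.pow_le_pow_right (by norm_num) (by omega))

end FlashRainbow.CF
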