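import Pool.Agent.Work.MP_54723a_co.CF.OutCount
import Pool.Agent.Work.MP_54723a_co.LemmaS

/-!
# Constant factor, measure route: a zone without junctions is small  (proof: helper20, note 8735)

`x` a hub with palette `K`, `f v = c x v ∉ K` on `Z`, and for `u < s` in `Z` the colour of the pair
is `f u`, `f s` or a colour of `F ⊆ K`, or `f u = f s`.  All label classes in `K`-free subsets of `Z`
have at most `τ` points.  Then `Z` is small.  No condition on the pairs with colours in `F`.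
-/

set_option autoImplicit false

namespace FlashRainbow.CF

open Classical

variable {c : ℕ → ℕ → ℕ} {V T W U X Z K F E S : Finset ℕ} {l R r t τ x : ℕ}
  {lev : ℕ → ℕ → ℕ}

/-- the end of an OUT-chain -/
theorem out_chain {f : ℕ → ℕ} : ∀ (n : ℕ) (C : Finset ℕ), C.card = n → C ⊆ V →
    (∀ u ∈ C, ∀ v ∈ C, f u = f v → u = v) → (∀ u ∈ C, ∀ v ∈ C, u < v → c u v = f u) →
    ∀ a ∈ V, (∀ u ∈ C, u < a) → (∀ u ∈ C, c u a = f u) → RP c V a (C.image f) := by
  intro n
  induction n with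
  | zero =>
    intro C hC _ _ _ a ha _ _
    rw [Finset.card_eq_zero.mp hC, Finset.image_empty]
    exact RP.single ha
  | succ n ih =>
    intro C hC hCV hinj hcl a ha hlt hca
    have hne : C.Nonempty := Finset.card_pos.mp (by omega)
    set m := C.max' hne with hm
    have hmC : m ∈ C := Finset.max'_mem _ _
    have h1 := ih (C.erase m) (by rw [Finset.card_erase_of_mem hmC]; omega)
      ((Finset.erase_subset _ _).trans hCV)
      (fun u hu v hv => hinj u (Finset.mem_of_mem_erase hu) v (Finset.mem_of_mem_erase hv))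
      (fun u hu v hv => hcl u (Finset.mem_of_mem_erase hu) v (Finset.mem_of_mem_erase hv))
      m (hCV hmC)
      (fun u hu => lt_of_le_of_ne (Finset.le_max' _ _ (Finset.mem_of_mem_erase hu))
        (Finset.ne_of_mem_erase hu))
      (fun u hu => hcl u (Finset.mem_of_mem_erase hu) m hmC
        (lt_of_le_of_ne (Finset.le_max' _ _ (Finset.mem_of_mem_erase hu))
        (Finset.ne_of_mem_erase hu)))
    have h2 := RP.step h1 ha (hlt m hmC) (by
      rw [hca m hmC, Finset.mem_image]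
      rintro ⟨u, hu, he⟩
      exact Finset.ne_of_mem_erase hu (hinj u (Finset.mem_of_mem_erase hu) m hmC he))
    rw [hca m hmC] at h2
    have h3 : insert (f m) ((C.erase m).image f) = C.image f := by
      rw [← Finset.image_insert, Finset.insert_erase hmC]
    rwa [h3] at h2

/-- `s` is the end of a rainbow path with `e` arcs whose colours are not in `K` and not `c x s` -/
def Chn (c : ℕ → ℕ → ℕ) (V K : Finset ℕ) (x e s : ℕ) : Prop :=
  ∃ C : Finset ℕ, C.card = e ∧ RP c V s C ∧ Disjoint C K ∧ c x s ∉ C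

theorem exists_repr (f : ℕ → ℕ) (X : Finset ℕ) :
    ∃ S ⊆ X, (∀ u ∈ S, ∀ v ∈ S, f u = f v → u = v) ∧ S.card = (X.image f).card := by
  have h1 : ∀ g : ℕ, ∃ v, g ∈ X.image f → v ∈ X ∧ f v = g := by
    intro g
    by_cases hg : g ∈ X.image f
    · obtain ⟨v, hv, hvg⟩ := Finset.mem_image.mp hg
      exact ⟨v, fun _ => ⟨hv, hvg⟩⟩
    · exact ⟨0, fun h => absurd h hg⟩
  choose w hw using h1
  refine ⟨(X.image f).image w, ?_, ?_, ?_⟩
  · intro v hv
    obtain ⟨g, hg, rfl⟩ := Finset.mem_image.mp hv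
    exact (hw g hg).1
  · intro u hu v hv he
    obtain ⟨g, hg, rfl⟩ := Finset.mem_image.mp hu
    obtain ⟨g', hg', rfl⟩ := Finset.mem_image.mp hv
    rw [(hw g hg).2, (hw g' hg').2] at he
    rw [he]
  · refine Finset.card_image_of_injOn ?_
    intro g hg g' hg' he
    have he' : w g = w g' := he
    have h2 := (hw g hg).2
    rw [he', (hw g' hg').2] at h2
    exact h2.symm

/-- in a `K`-free set all but few points are ends of chains -/
theorem not_chn_free {B : ℕ} (hR : Rk c V R) (hH : Hub c V x K F) (ht : R ≤ K.card + t)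
    (hZV : Z ⊆ V) (hxZ : ∀ v ∈ Z, x < v) (hK : ∀ v ∈ Z, c x v ∉ K)
    (hstar : ∀ u ∈ Z, ∀ s ∈ Z, u < s → c x u = c x s ∨ c u s = c x u ∨ c u s = c x s ∨ c u s ∈ F)
    (hX : X ⊆ Z) (hXK : Fre c X K) (hlab : ∀ g, (X.filter fun v => c x v = g).card ≤ τ)
    (hno : ∀ s ∈ X, ¬ Chn c V K x (2 * B) s) : X.card ≤ 2 * B * t * τ := by
  by_contra hcon
  push Not at hcon
  obtain ⟨S, hSX, hinj, hScard⟩ := exists_repr (fun v => c x v) X
  have h1 : X.card ≤ τ * (X.image fun v => c x v).card :=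
    Finset.card_le_mul_card_image _ _ fun g _ => hlab g
  have h2 : 2 * B * t < S.card := by
    rw [hScard]
    by_contra h3
    push Not at h3
    have h4 : τ * (X.image fun v => c x v).card ≤ τ * (2 * B * t) := Nat.mul_le_mul_left _ h3
    have h5 : τ * (2 * B * t) = 2 * B * t * τ := Nat.mul_comm _ _
    omega
  have hSZ : S ⊆ Z := hSX.trans hX
  obtain ⟨C, hCS, hCc, hC⟩ := exists_out_clique (B := B) hR hH ht (hSZ.trans hZV)
    (fun v hv => hxZ v (hSZ hv)) (fun v hv => hK v (hSZ hv)) (by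
      intro u hu v hv huv
      have h3 : c x u ≠ c x v := fun h => huv.ne (hinj u hu v hv h)
      refine ⟨h3, ?_⟩
      rcases hstar u (hSZ hu) v (hSZ hv) huv with h4 | h4 | h4 | h4
      · exact absurd h4 h3
      · exact Or.inl h4
      · exact Or.inr h4
      · exact absurd rfl (hXK _ (hH.1 h4) u (hSX hu) v (hSX hv) huv)) h2
  have hne : C.Nonempty := Finset.card_pos.mp (by omega)
  set s := C.max' hne with hs
  have hsC : s ∈ C := Finset.max'_mem _ _
  have hlt : ∀ u ∈ C.erase s, u < s := fun u hu =>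
    lt_of_le_of_ne (Finset.le_max' _ _ (Finset.mem_of_mem_erase hu)) (Finset.ne_of_mem_erase hu)
  refine hno s (hSX (hCS hsC)) ⟨(C.erase s).image fun v => c x v, ?_, ?_, ?_, ?_⟩
  · rw [Finset.card_image_of_injOn, Finset.card_erase_of_mem hsC, hCc]
    · rfl
    · intro u hu v hv he
      exact hinj u (hCS (Finset.mem_of_mem_erase hu)) v (hCS (Finset.mem_of_mem_erase hv)) he
  · refine out_chain _ (C.erase s) rfl (((Finset.erase_subset _ _).trans hCS).trans
      (hSZ.trans hZV)) ?_ ?_ s (hZV (hSZ (hCS hsC))) hlt ?_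
    · intro u hu v hv he
      exact hinj u (hCS (Finset.mem_of_mem_erase hu)) v (hCS (Finset.mem_of_mem_erase hv)) he
    · intro u hu v hv huv
      exact hC u (Finset.mem_of_mem_erase hu) v (Finset.mem_of_mem_erase hv) huv
    · intro u hu
      exact hC u (Finset.mem_of_mem_erase hu) s hsC (hlt u hu)
  · rw [Finset.disjoint_left]
    intro g hg
    obtain ⟨u, hu, rfl⟩ := Finset.mem_image.mp hg
    exact hK u (hSZ (hCS (Finset.mem_of_mem_erase hu)))
  · intro hg
    obtain ⟨u, hu, he⟩ := Finset.mem_image.mp hg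
    exact Finset.ne_of_mem_erase hu
      (hinj u (hCS (Finset.mem_of_mem_erase hu)) s (hCS hsC) he)

/-- all but few points are ends of chains -/
theorem not_chn_le {B : ℕ} (hL : Lev c V 3 lev) (hR : Rk c V R) (hH : Hub c V x K F)
    (ht : R ≤ K.card + t) (hZV : Z ⊆ V) (hxZ : ∀ v ∈ Z, x < v) (hK : ∀ v ∈ Z, c x v ∉ K)
    (hstar : ∀ u ∈ Z, ∀ s ∈ Z, u < s → c x u = c x s ∨ c u s = c x u ∨ c u s = c x s ∨ c u s ∈ F)
    (hlab : ∀ X ⊆ Z, Fre c X K → ∀ g, (X.filter fun v => c x v = g).card ≤ τ) :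
    (Z.filter fun s => ¬ Chn c V K x (2 * B) s).card ≤ 3 ^ K.card * (2 * B * t * τ) := by
  obtain ⟨X, h1, h2, h3⟩ := exists_class (c := c)
    (X := Z.filter fun s => ¬ Chn c V K x (2 * B) s)
    (hL.mono ((Finset.filter_subset _ _).trans hZV)) K
  have hXZ : X ⊆ Z := h1.trans (Finset.filter_subset _ _)
  refine h2.trans (Nat.mul_le_mul_left _ ?_)
  exact not_chn_free hR hH ht hZV hxZ hK hstar hXZ h3 (hlab X hXZ h3)
    fun s hs => (Finset.mem_filter.mp (h1 hs)).2

/-- the size of the set of chain ends -/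
theorem chn_le {e M : ℕ} (hL : Lev c V 3 lev) (hR : Rk c V R) (hH : Hub c V x K F)
    (ht : R ≤ K.card + t)
    (hM : ∀ W ⊆ V, ∀ r ≤ R, Rk c W r → W.card * 3 ^ (R - r) ≤ M) (hZV : Z ⊆ V)
    (hxZ : ∀ v ∈ Z, x < v) (hK : ∀ v ∈ Z, c x v ∉ K)
    (hstar : ∀ u ∈ Z, ∀ s ∈ Z, u < s → c x u = c x s ∨ c u s = c x u ∨ c u s = c x s ∨ c u s ∈ F)
    (he : e ≤ R) (hchn : ∀ s ∈ Z, Chn c V K x e s) :
    3 ^ e * Z.card ≤ 2 ^ (e + 1) * (t + 1) ^ 2 * 3 ^ (2 * t) * M := by
  have hx : x ∈ V := hH.mem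
  -- the palettes of the chains
  have hchn' : ∀ s, ∃ C : Finset ℕ, s ∈ Z → C.card = e ∧ RP c V s C ∧ Disjoint C K ∧ c x s ∉ C := by
    intro s
    by_cases hs : s ∈ Z
    · obtain ⟨C, hC⟩ := hchn s hs
      exact ⟨C, fun _ => hC⟩
    · exact ⟨∅, fun h => absurd h hs⟩
  choose C hC using hchn'
  -- selection of the colours
  obtain ⟨A₁, h1, h2, h3⟩ := exists_select (T := Z) (l := 2)
    (lev := fun γ v => if γ ∈ C v then 1 else 0) (by omega) (fun v => insert (c x v) (C v)) (e + 1)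
    (fun v hv => by
      have := Finset.card_insert_le (c x v) (C v)
      have h4 := (hC v hv).1
      omega) (fun γ v _ => by
      show (if γ ∈ C v then 1 else 0) < 2
      split_ifs <;> omega)
  have hsep : ∀ u ∈ A₁, ∀ v ∈ A₁, c x u ∉ C v := by
    intro u hu v hv hmem
    have h4 := h3 u hu v hv (c x u) (Finset.mem_insert_self _ _) (Finset.mem_insert_of_mem hmem)
    simp only [if_pos hmem, if_neg (hC u (h1 hu)).2.2.2] at h4
    exact absurd h4 (by norm_num)
  set Y : Finset ℕ := A₁.biUnion C with hY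
  have hYK : ∀ γ ∈ Y, γ ∉ K := by
    intro γ hγ
    obtain ⟨v, hv, hγv⟩ := Finset.mem_biUnion.mp hγ
    exact fun hk => Finset.disjoint_left.mp (hC v (h1 hv)).2.2.1 hγv hk
  have hYf : ∀ u ∈ A₁, c x u ∉ Y := by
    intro u hu hmem
    obtain ⟨v, hv, hγv⟩ := Finset.mem_biUnion.mp hmem
    exact hsep u hu v hv hγv
  have hsame : ∀ u ∈ A₁, ∀ s ∈ A₁, u < s → c u s ∈ Y → c x u = c x s := by
    intro u hu s hs hus hy
    rcases hstar u (h1 hu) s (h1 hs) hus with h4 | h4 | h4 | h4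
    · exact h4
    · exact absurd (h4 ▸ hy) (hYf u hu)
    · exact absurd (h4 ▸ hy) (hYf s hs)
    · exact absurd (hH.1 h4) (hYK _ hy)
  -- paths inside a label class with colours in `Y`
  let G : ℕ → Finset ℕ := fun g => A₁.filter fun v => c x v = g
  have hGV : ∀ g, G g ⊆ V := fun g => ((Finset.filter_subset _ _).trans h1).trans hZV
  have hreach : ∀ g, ∀ v ∈ G g, RP c V v (insert g K) := by
    intro g v hv
    obtain ⟨hv1, hv2⟩ := Finset.mem_filter.mp hv
    have h4 := RP.step (hH.2 K hH.1 (le_refl _)) (hZV (h1 hv1)) (hxZ v (h1 hv1)) (hK v (h1 hv1))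
    rwa [hv2] at h4
  have hcardK : ∀ v ∈ A₁, (insert (c x v) K).card = K.card + 1 := fun v hv =>
    Finset.card_insert_of_notMem (hK v (h1 hv))
  have hdisY : ∀ v ∈ A₁, ∀ D ⊆ Y, Disjoint D (insert (c x v) K) := by
    intro v hv D hD
    rw [Finset.disjoint_left]
    intro γ hγ hγ'
    rcases Finset.mem_insert.mp hγ' with rfl | h4
    · exact hYf v hv (hD hγ)
    · exact hYK γ (hD hγ) h4
  let PI : ℕ → ℕ → Prop := fun q i => ∃ D, D ⊆ Y ∧ D.card = i ∧ RP c (G (c x q)) q D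
  let PO : ℕ → ℕ → Prop := fun q i => ∃ D, D ⊆ Y ∧ D.card = i ∧ RS c (G (c x q)) q D
  have hmemG : ∀ q ∈ A₁, q ∈ G (c x q) := fun q hq => Finset.mem_filter.mpr ⟨hq, rfl⟩
  have hPI0 : ∀ q ∈ A₁, PI q 0 := fun q hq =>
    ⟨∅, Finset.empty_subset _, rfl, RP.single (hmemG q hq)⟩
  have hPO0 : ∀ q ∈ A₁, PO q 0 := fun q hq =>
    ⟨∅, Finset.empty_subset _, rfl, RS.single (hmemG q hq)⟩
  have hPIt : ∀ q ∈ A₁, ∀ i, PI q i → i ≤ t := by
    rintro q hq i ⟨D, hD1, hD2, hD3⟩
    obtain ⟨E, hE1, hE2, hE3⟩ := hD3.prepend' (Θ := insert (c x q) K) (e := K.card + 1) (hGV _)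
      (fun v hv => ⟨insert (c x q) K, Finset.Subset.refl _, by rw [hcardK q hq],
        hreach _ v hv⟩) (hdisY q hq D hD1)
    have h4 := hR _ _ hE3
    rw [Finset.card_union_of_disjoint ((hdisY q hq D hD1).mono_right hE1)] at h4
    omega
  have hPOt : ∀ q ∈ A₁, ∀ i, PO q i → i ≤ t := by
    rintro q hq i ⟨D, hD1, hD2, hD3⟩
    obtain ⟨y, hy⟩ := hD3.join (hGV _) _ (hreach _ q (hmemG q hq)) (hdisY q hq D hD1)
    have h4 := hR _ _ hy
    rw [Finset.card_union_of_disjoint (hdisY q hq D hD1).symm, hcardK q hq] at h4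
    omega
  let βI : ℕ → ℕ := fun q => Nat.findGreatest (PI q) t
  let βO : ℕ → ℕ := fun q => Nat.findGreatest (PO q) t
  have hβI : ∀ q ∈ A₁, PI q (βI q) := fun q hq =>
    Nat.findGreatest_spec (P := PI q) (Nat.zero_le _) (hPI0 q hq)
  have hβO : ∀ q ∈ A₁, PO q (βO q) := fun q hq =>
    Nat.findGreatest_spec (P := PO q) (Nat.zero_le _) (hPO0 q hq)
  -- the most popular pair of lengths
  have hpop : ∃ A₂ ⊆ A₁, A₁.card ≤ (t + 1) ^ 2 * A₂.card ∧ ∃ i o, ∀ q ∈ A₂, βI q = i ∧ βO q = o := by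
    by_contra hcon
    push Not at hcon
    have h4 : ∀ p ∈ Finset.range (t + 1) ×ˢ Finset.range (t + 1),
        (t + 1) ^ 2 * (A₁.filter fun q => (βI q, βO q) = p).card < A₁.card := by
      rintro ⟨i, o⟩ _
      by_contra h5
      push Not at h5
      obtain ⟨q, hq, hq'⟩ := hcon (A₁.filter fun q => (βI q, βO q) = (i, o))
        (Finset.filter_subset _ _) h5 i o
      have h6 := (Finset.mem_filter.mp hq).2
      exact hq' (Prod.mk.inj h6).1 (Prod.mk.inj h6).2
    have h5 : A₁.card = ∑ p ∈ Finset.range (t + 1) ×ˢ Finset.range (t + 1),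
        (A₁.filter fun q => (βI q, βO q) = p).card := by
      refine Finset.card_eq_sum_card_fiberwise ?_
      intro q _
      simp only [Finset.coe_product, Finset.coe_range, Set.mem_prod, Set.mem_Iio]
      exact ⟨Nat.lt_succ_of_le (Nat.findGreatest_le _), Nat.lt_succ_of_le (Nat.findGreatest_le _)⟩
    have h6 : (Finset.range (t + 1) ×ˢ Finset.range (t + 1)).Nonempty :=
      ⟨(0, 0), by simp⟩
    have h7 := Finset.sum_lt_sum_of_nonempty h6 h4
    rw [← Finset.mul_sum, ← h5, Finset.sum_const, Finset.card_product, Finset.card_range,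
      smul_eq_mul] at h7
    have h8 : (t + 1) ^ 2 * A₁.card = (t + 1) * (t + 1) * A₁.card := by ring
    omega
  obtain ⟨A₂, h4, h5, i, o, hio⟩ := hpop
  -- the palettes
  have hPal : ∀ q, ∃ D D' : Finset ℕ, q ∈ A₂ → D ⊆ Y ∧ D.card = i ∧ RP c (G (c x q)) q D ∧
      D' ⊆ Y ∧ D'.card = o ∧ RS c (G (c x q)) q D' := by
    intro q
    by_cases hq : q ∈ A₂
    · obtain ⟨D, hD1, hD2, hD3⟩ := hβI q (h4 hq)
      obtain ⟨D', hD1', hD2', hD3'⟩ := hβO q (h4 hq)
      exact ⟨D, D', fun _ => ⟨hD1, hD2.trans (hio q hq).1, hD3, hD1', hD2'.trans (hio q hq).2,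
        hD3'⟩⟩
    · exact ⟨∅, ∅, fun h => absurd h hq⟩
  choose P P' hP using hPal
  have hit : ∀ q ∈ A₂, i ≤ t ∧ o ≤ t := by
    intro q hq
    obtain ⟨e1, e2⟩ := hio q hq
    exact ⟨e1 ▸ Nat.findGreatest_le _, e2 ▸ Nat.findGreatest_le _⟩
  obtain ⟨A₃, h6, h7, h8⟩ := exists_select (T := A₂) (l := 3) (lev := lev) (by omega)
    (fun q => P q ∪ P' q) (2 * t)
    (fun q hq => by
      obtain ⟨-, e1, -, -, e2, -⟩ := hP q hq
      have := Finset.card_union_le (P q) (P' q)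
      have := hit q hq
      omega) (fun γ v hv => hL.lt γ v (hZV (h1 (h4 hv))))
  have hfree : ∀ γ ∈ Y, ∀ u ∈ A₃, ∀ v ∈ A₃, u < v → c u v ≠ γ := by
    intro γ hγ u hu v hv huv he
    have hu2 := h6 hu
    have hv2 := h6 hv
    have hyY : c u v ∈ Y := he ▸ hγ
    have heq := hsame u (h4 hu2) v (h4 hv2) huv hyY
    obtain ⟨a1, a2, a3, -, -, -⟩ := hP u hu2
    obtain ⟨-, -, -, b1, b2, b3⟩ := hP v hv2
    have hc1 : c u v ∈ P u := by
      by_contra hn
      have h9 : RP c (G (c x v)) v (insert (c u v) (P u)) := by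
        rw [← heq]
        refine RP.step a3 ?_ huv hn
        rw [heq]
        exact hmemG v (h4 hv2)
      have h10 : PI v (i + 1) := ⟨_, Finset.insert_subset hyY a1,
        by rw [Finset.card_insert_of_notMem hn, a2], h9⟩
      have h11 : i + 1 ≤ βI v := Nat.le_findGreatest (hPIt v (h4 hv2) _ h10) h10
      have h12 := (hio v hv2).1
      omega
    have hc2 : c u v ∈ P' v := by
      by_contra hn
      have h9 : RS c (G (c x u)) u (insert (c u v) (P' v)) := by
        refine RS.step ?_ (hmemG u (h4 hu2)) huv hn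
        rw [heq]
        exact b3
      have h10 : PO u (o + 1) := ⟨_, Finset.insert_subset hyY b1,
        by rw [Finset.card_insert_of_notMem hn, b2], h9⟩
      have h11 : o + 1 ≤ βO u := Nat.le_findGreatest (hPOt u (h4 hu2) _ h10) h10
      have h12 := (hio u hu2).2
      omega
    have h13 := h8 u hu v hv (c u v) (Finset.mem_union_left _ hc1) (Finset.mem_union_right _ hc2)
    have h14 := hL.up u (hZV (h1 (h4 hu2))) v (hZV (h1 (h4 hv2))) huv
    omega
  -- the rank of `A₃`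
  have hrk : Rk c A₃ (R - e) := by
    intro y D hD
    obtain ⟨s, hs⟩ := hD.toRS
    have hsA := hs.mem
    have hs1 : s ∈ A₁ := h4 (h6 hsA)
    obtain ⟨e1, e2, -, -⟩ := hC s (h1 hs1)
    have hdis : Disjoint D (C s) := by
      rw [Finset.disjoint_left]
      intro γ hγ hγ'
      exact hs.notMem_of_free (hfree γ (Finset.mem_biUnion.mpr ⟨s, hs1, hγ'⟩)) hγ
    obtain ⟨z, hz⟩ := hs.join (h6.trans (h4.trans (h1.trans hZV))) _ e2 hdis
    have h9 := hR _ _ hz
    rw [Finset.card_union_of_disjoint hdis.symm] at h9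
    omega
  have h9 := hM A₃ (h6.trans (h4.trans (h1.trans hZV))) (R - e) (Nat.sub_le _ _) hrk
  rw [Nat.sub_sub_self he] at h9
  calc 3 ^ e * Z.card ≤ 3 ^ e * (2 ^ (e + 1) * A₁.card) := Nat.mul_le_mul_left _ h2
    _ ≤ 3 ^ e * (2 ^ (e + 1) * ((t + 1) ^ 2 * A₂.card)) :=
        Nat.mul_le_mul_left _ (Nat.mul_le_mul_left _ h5)
    _ ≤ 3 ^ e * (2 ^ (e + 1) * ((t + 1) ^ 2 * (3 ^ (2 * t) * A₃.card))) :=
        Nat.mul_le_mul_left _ (Nat.mul_le_mul_left _ (Nat.mul_le_mul_left _ h7))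
    _ = 2 ^ (e + 1) * (t + 1) ^ 2 * 3 ^ (2 * t) * (A₃.card * 3 ^ e) := by ring
    _ ≤ 2 ^ (e + 1) * (t + 1) ^ 2 * 3 ^ (2 * t) * M := Nat.mul_le_mul_left _ h9

/-- **A zone without junctions is small** (helper20). -/
theorem j20 {B M : ℕ} (hL : Lev c V 3 lev) (hR : Rk c V R) (hH : Hub c V x K F)
    (ht : R ≤ K.card + t)
    (hM : ∀ W ⊆ V, ∀ r ≤ R, Rk c W r → W.card * 3 ^ (R - r) ≤ M) (hZV : Z ⊆ V)
    (hxZ : ∀ v ∈ Z, x < v) (hK : ∀ v ∈ Z, c x v ∉ K)
    (hstar : ∀ u ∈ Z, ∀ s ∈ Z, u < s → c x u = c x s ∨ c u s = c x u ∨ c u s = c x s ∨ c u s ∈ F)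
    (hlab : ∀ X ⊆ Z, Fre c X K → ∀ g, (X.filter fun v => c x v = g).card ≤ τ)
    (hB : 2 * B ≤ R) :
    3 ^ (2 * B) * Z.card ≤ 3 ^ (2 * B) * (3 ^ K.card * (2 * B * t * τ)) +
      2 ^ (2 * B + 1) * (t + 1) ^ 2 * 3 ^ (2 * t) * M := by
  have h1 := not_chn_le (B := B) hL hR hH ht hZV hxZ hK hstar hlab
  have h2 := chn_le (Z := Z.filter fun s => Chn c V K x (2 * B) s) (e := 2 * B) hL hR hH ht hM
    ((Finset.filter_subset _ _).trans hZV) (fun v hv => hxZ v (Finset.mem_filter.mp hv).1)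
    (fun v hv => hK v (Finset.mem_filter.mp hv).1)
    (fun u hu s hs => hstar u (Finset.mem_filter.mp hu).1 s (Finset.mem_filter.mp hs).1) hB
    (fun s hs => (Finset.mem_filter.mp hs).2)
  have h3 := Finset.card_filter_add_card_filter_not (s := Z) (fun s => Chn c V K x (2 * B) s)
  rw [← h3, Nat.mul_add]
  have h4 := Nat.mul_le_mul_left (3 ^ (2 * B)) h1
  omega

end FlashRainbow.CF
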