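import Pool.Agent.Work.MP_54723a_co.CF.Layer

/-!
# Constant factor, measure route: without a junction nearly all points are good  (helper18)

Input of helper20's theorem `no_star`: if there is no junction (1, 2 or 3 colours) from the hub `x`
into a class of `τ` points of `Z`, then all but `3 ^ |K| * (small)` points `s` of `Z` are ends of
rainbow paths with `e` arcs whose colours avoid `K` and the label of `s`, and any two such points are
joined by one of their labels or a colour of `F` (or have the same label).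
-/

set_option autoImplicit false

namespace FlashRainbow.CF

open Classical

variable {c : ℕ → ℕ → ℕ} {V X Z K F A C D : Finset ℕ} {R t m n τ σ x y s u : ℕ} {f : ℕ → ℕ}
  {lev : ℕ → ℕ → ℕ}

/-- long chains in an almost-star, with control of the end of the chain -/
theorem long_star_end (hstar : ∀ u ∈ C, (C.filter fun v => u < v ∧ c u v ≠ f u).card ≤ σ)
    (hlab : ∀ g, (C.filter fun v => f v = g).card ≤ τ) (ℓ : ℕ) :
    ∀ m n (A : Finset ℕ), A.card ≤ n → ∀ u ∈ C,
      m * (σ + (n + m) * τ + 1) + ℓ < (C.filter fun v => u < v).card →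
      ∃ y ∈ C, ∃ D, RQ c C u y D ∧ D.card = m ∧ ℓ < (C.filter fun v => y < v).card ∧ f y ∉ D ∧
        (y = u ∨ f y ∉ insert (f u) A) ∧ ∀ a ∈ A, a ∈ D → a = f u := by
  intro m
  induction m with
  | zero =>
    intro n A _ u hu hb
    exact ⟨u, hu, ∅, RQ.single hu, rfl, by omega, Finset.notMem_empty _, Or.inl rfl,
      fun a _ h => absurd h (Finset.notMem_empty _)⟩
  | succ m ih =>
    intro n A hA u hu hbig
    set b := m * (σ + (n + 1 + m) * τ + 1) + ℓ with hb
    set W := C.filter fun v => (C.filter fun w => v < w).card ≤ b with hW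
    set B1 := C.filter fun v => u < v ∧ c u v ≠ f u with hB1
    set B2 := (insert (f u) A).biUnion fun g => C.filter fun v => f v = g with hB2
    have hWc : W.card ≤ b + 1 := card_late_le C b
    have hB1c : B1.card ≤ σ := hstar u hu
    have hB2c : B2.card ≤ (n + 1) * τ := by
      refine (Finset.card_biUnion_le_card_mul _ _ τ (fun g _ => hlab g)).trans ?_
      exact Nat.mul_le_mul_right _ ((Finset.card_insert_le _ _).trans (by omega))
    have hex : ∃ v ∈ C.filter fun v => u < v, v ∉ W ∪ (B1 ∪ B2) := by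
      by_contra hno
      push Not at hno
      have h1 := Finset.card_le_card (s := C.filter fun v => u < v) (t := W ∪ (B1 ∪ B2)) hno
      have h2 := Finset.card_union_le W (B1 ∪ B2)
      have h3 := Finset.card_union_le B1 B2
      have h4 : b + 1 + (σ + (n + 1) * τ) ≤ (m + 1) * (σ + (n + (m + 1)) * τ + 1) + ℓ := by
        have h5 : (n + 1) * τ ≤ (n + (m + 1)) * τ := Nat.mul_le_mul_right _ (by omega)
        have h6 : (m + 1) * (σ + (n + (m + 1)) * τ + 1) =
            m * (σ + (n + 1 + m) * τ + 1) + (σ + (n + (m + 1)) * τ + 1) := by ring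
        rw [h6]
        omega
      omega
    obtain ⟨v, hv, hvno⟩ := hex
    obtain ⟨hvC, huv⟩ := Finset.mem_filter.mp hv
    rw [Finset.mem_union, Finset.mem_union, not_or, not_or] at hvno
    obtain ⟨hvW, hvB1, hvB2⟩ := hvno
    have hcuv : c u v = f u := by
      by_contra hne
      exact hvB1 (Finset.mem_filter.mpr ⟨hvC, huv, hne⟩)
    have hfv : f v ∉ insert (f u) A := by
      intro hmem
      exact hvB2 (Finset.mem_biUnion.mpr ⟨f v, hmem, Finset.mem_filter.mpr ⟨hvC, rfl⟩⟩)
    have hvb : b < (C.filter fun w => v < w).card := by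
      by_contra hle
      exact hvW (Finset.mem_filter.mpr ⟨hvC, by omega⟩)
    obtain ⟨y, hyC, D, hD, hDc, hyl, hyD, hyA, hDA⟩ := ih (n + 1) (insert (f u) A)
      ((Finset.card_insert_le _ _).trans (by omega)) v hvC hvb
    have hfuD : f u ∉ D := by
      intro hmem
      have h1 := hDA (f u) (Finset.mem_insert_self _ _) hmem
      exact hfv (h1 ▸ Finset.mem_insert_self _ _)
    have hfy : f y ∉ insert (f u) A := by
      rcases hyA with rfl | h1
      · exact hfv
      · exact fun h2 => h1 (Finset.mem_insert_of_mem h2)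
    refine ⟨y, hyC, insert (f u) D, hD.prepend hu huv hcuv hfuD, ?_, hyl, ?_, Or.inr hfy, ?_⟩
    · rw [Finset.card_insert_of_notMem hfuD, hDc]
    · rw [Finset.mem_insert, not_or]
      exact ⟨fun h => hfy (h ▸ Finset.mem_insert_self _ _), hyD⟩
    · intro a ha haD
      rcases Finset.mem_insert.mp haD with h1 | h1
      · exact h1
      · exfalso
        have h2 := hDA a (Finset.mem_insert_of_mem ha) h1
        exact hfv (h2 ▸ Finset.mem_insert_of_mem ha)

/-- the loss in one class -/
def jb (t e T : ℕ) : ℕ := (t + 1) * (e * ((t + 1) * T + e * T + 1) + ((t + 1) * T + T) + 1)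

/-- **GOOD POINTS** -/
theorem good_points (hL : Lev c V 3 lev) (hR : Rk c V R) (h : Hub c V x K F) (hZV : Z ⊆ V)
    (hxZ : ∀ v ∈ Z, x < v) (hF : ∀ v ∈ Z, c x v ∉ F) (ht : R ≤ K.card + t) (hτ : 0 < τ)
    (hno : ¬ HasJun c V Z K F x τ) (e : ℕ) :
    ∃ A ⊆ Z, Z.card ≤ A.card + 3 ^ K.card * jb t e (27 * τ) ∧
      (∀ s ∈ A, ∃ D, RP c Z s D ∧ D.card = e ∧ Disjoint D K ∧ c x s ∉ D) ∧
      (∀ s ∈ A, c x s ∉ K) ∧
      (∀ u ∈ A, ∀ s ∈ A, u < s →
        c x u = c x s ∨ c u s = c x u ∨ c u s = c x s ∨ c u s ∈ F) := by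
  have hxV : x ∈ V := h.mem
  set T := 27 * τ with hT
  -- the consequences of `hno` in `K`-free sets
  have hlab : ∀ X ⊆ Z, Fre c X K → ∀ g, (X.filter fun v => c x v = g).card ≤ T := by
    intro X hXZ hXK g
    by_contra hlt
    push Not at hlt
    by_cases hg : g ∈ F
    · have h0 : (X.filter fun v => c x v = g) = ∅ := by
        rw [Finset.filter_eq_empty_iff]
        intro v hv hc
        exact hF v (hXZ hv) (hc ▸ hg)
      rw [h0, Finset.card_empty] at hlt
      omega
    · refine hno (hasJun_of (Φ := {g}) (X := X.filter fun v => c x v = g) hL hZV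
        ((Finset.filter_subset _ _).trans hXZ) (hXK.mono (Finset.filter_subset _ _) (le_refl _))
        ?_ (by simp) (by simpa using hg) hlt.le)
      exact jun_one hxV (((Finset.filter_subset _ _).trans hXZ).trans hZV) (fun v hv =>
        ⟨hxZ v (hXZ (Finset.mem_filter.mp hv).1), (Finset.mem_filter.mp hv).2⟩)
  have hout : ∀ X ⊆ Z, Fre c X K → ∀ v ∈ X, ∀ g, g ≠ c x v →
      (X.filter fun w => v < w ∧ c v w = g).card ≤ T := by
    intro X hXZ hXK v hv g hg
    by_contra hlt
    push Not at hlt
    have hgF : g ∉ F := by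
      intro hgF
      have h0 : (X.filter fun w => v < w ∧ c v w = g) = ∅ := by
        rw [Finset.filter_eq_empty_iff]
        rintro w hw ⟨h1, h2⟩
        exact hXK g (h.1 hgF) v hv w hw h1 h2
      rw [h0, Finset.card_empty] at hlt
      omega
    refine hno (hasJun_of (Φ := {g, c x v}) (X := X.filter fun w => v < w ∧ c v w = g) hL hZV
        ((Finset.filter_subset _ _).trans hXZ) (hXK.mono (Finset.filter_subset _ _) (le_refl _))
        ?_ ((Finset.card_le_two).trans (by norm_num)) ?_ hlt.le)
    · exact jun_two hxV (hZV (hXZ hv)) (hxZ v (hXZ hv)) rfl (Ne.symm hg)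
        (((Finset.filter_subset _ _).trans hXZ).trans hZV) (fun w hw =>
          (Finset.mem_filter.mp hw).2)
    · rw [Finset.disjoint_insert_left, Finset.disjoint_singleton_left]
      exact ⟨hgF, hF v (hXZ hv)⟩
  -- the good points
  set G1 : ℕ → Prop := fun s => ∃ D, RP c Z s D ∧ D.card = e ∧ Disjoint D K ∧ c x s ∉ D with hG1
  set G2 : ℕ → Prop := fun s => ∃ X ⊆ Z, Fre c X K ∧ s ∈ X ∧
    T ≤ (X.filter fun w => s < w ∧ c s w = c x s).card with hG2
  set A := Z.filter fun s => G1 s ∧ G2 s with hA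
  refine ⟨A, Finset.filter_subset _ _, ?_, ?_, ?_, ?_⟩
  · -- size
    set B0 := Z.filter fun s => ¬ (G1 s ∧ G2 s) with hB0
    have hsplit : A.card + B0.card = Z.card := Finset.card_filter_add_card_filter_not _
    obtain ⟨X, hXB, hXc, hXK⟩ := exists_class (hL.mono ((Finset.filter_subset _ _).trans hZV) :
      Lev c B0 3 lev) K
    have hXZ : X ⊆ Z := hXB.trans (Finset.filter_subset _ _)
    obtain ⟨C, hCX, hCc, hstar⟩ := h.star hR (hXZ.trans hZV) (fun v hv => hxZ v (hXZ hv)) hXK
      (fun v hv => hF v (hXZ hv)) ht (hout X hXZ hXK)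
    have hlabC : ∀ g, (C.filter fun v => c x v = g).card ≤ T := fun g =>
      (Finset.card_le_card (Finset.filter_subset_filter _ hCX)).trans (hlab X hXZ hXK g)
    have hCb : C.card ≤ e * ((t + 1) * T + e * T + 1) + ((t + 1) * T + T) + 1 := by
      by_contra hlt
      push Not at hlt
      have hCne : C.Nonempty := by
        rw [← Finset.card_pos]
        omega
      set u0 := C.min' hCne with hu0
      have hu0C : u0 ∈ C := Finset.min'_mem _ _
      have h1 : C.erase u0 ⊆ C.filter fun v => u0 < v := by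
        intro v hv
        obtain ⟨hne, hvC⟩ := Finset.mem_erase.mp hv
        exact Finset.mem_filter.mpr ⟨hvC, lt_of_le_of_ne (Finset.min'_le _ _ hvC) (Ne.symm hne)⟩
      have h2 := Finset.card_le_card h1
      rw [Finset.card_erase_of_mem hu0C] at h2
      obtain ⟨y, hyC, D, hD, hDc, hyl, hyD, -, -⟩ := long_star_end (c := c)
        (f := fun v => c x v) (C := C) (σ := (t + 1) * T) (τ := T) hstar hlabC ((t + 1) * T + T)
        e 0 ∅ (by simp) u0 hu0C (by rw [Nat.zero_add]; omega)
      have hyX : y ∈ X := hCX hyC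
      have hyB := Finset.mem_filter.mp (hXB hyX)
      refine hyB.2 ⟨⟨D, (hD.mono (hCX.trans hXZ)).toRP, hDc, ?_, hyD⟩, ⟨X, hXZ, hXK, hyX, ?_⟩⟩
      · rw [Finset.disjoint_right]
        intro γ hγ
        exact (hD.mono hCX).toRP.notMem_of_free (hXK γ hγ)
      · have h3 : (C.filter fun v => y < v) ⊆ (C.filter fun v => y < v ∧ c y v ≠ c x y) ∪
            (X.filter fun w => y < w ∧ c y w = c x y) := by
          intro v hv
          obtain ⟨hvC, hyv⟩ := Finset.mem_filter.mp hv
          rw [Finset.mem_union]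
          by_cases hc : c y v = c x y
          · exact Or.inr (Finset.mem_filter.mpr ⟨hCX hvC, hyv, hc⟩)
          · exact Or.inl (Finset.mem_filter.mpr ⟨hvC, hyv, hc⟩)
        have h4 := (Finset.card_le_card h3).trans (Finset.card_union_le _ _)
        have h5 := hstar y hyC
        omega
    have h6 : X.card ≤ jb t e T := hCc.trans (Nat.mul_le_mul_left _ hCb)
    have h7 : B0.card ≤ 3 ^ K.card * jb t e T := hXc.trans (Nat.mul_le_mul_left _ h6)
    omega
  · intro s hs
    exact (Finset.mem_filter.mp hs).2.1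
  · intro s hs hsK
    obtain ⟨X, hXZ, hXK, hsX, hbig⟩ := (Finset.mem_filter.mp hs).2.2
    have hpos : 0 < (X.filter fun w => s < w ∧ c s w = c x s).card := by omega
    obtain ⟨w, hw⟩ := Finset.card_pos.mp hpos
    obtain ⟨hwX, hsw, hcsw⟩ := Finset.mem_filter.mp hw
    exact hXK _ hsK s hsX w hwX hsw hcsw
  · intro u hu s hs hus
    have huZ : u ∈ Z := (Finset.mem_filter.mp hu).1
    have hsZ : s ∈ Z := (Finset.mem_filter.mp hs).1
    obtain ⟨X, hXZ, hXK, hsX, hbig⟩ := (Finset.mem_filter.mp hs).2.2
    by_contra hne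
    push Not at hne
    obtain ⟨h1, h2, h3, h4⟩ := hne
    refine hno (hasJun_of (Φ := {c x s, c u s, c x u})
      (X := X.filter fun w => s < w ∧ c s w = c x s) hL hZV
      ((Finset.filter_subset _ _).trans hXZ) (hXK.mono (Finset.filter_subset _ _) (le_refl _))
      ?_ (Finset.card_le_three) ?_ hbig)
    · exact jun_three hxV (hZV huZ) (hZV hsZ) (hxZ u huZ) hus rfl rfl (Ne.symm h2) h1 h3
        (((Finset.filter_subset _ _).trans hXZ).trans hZV) (fun w hw =>
          (Finset.mem_filter.mp hw).2)
    · rw [Finset.disjoint_insert_left, Finset.disjoint_insert_left,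
        Finset.disjoint_singleton_left]
      exact ⟨hF s hsZ, h4, hF u huZ⟩

end FlashRainbow.CF
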