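import Pool.Agent.Work.MP_54723a_co.CF.NoStar

/-!
Label preselection: a fixed fraction of the points has the property that the label of a point is
never one of the (few) distinguished colours of another point, unless it is also the label there.
-/

namespace FlashRainbow.CF

theorem presel (Z₀ : Finset ℕ) (f : ℕ → ℕ) (G : ℕ → Finset ℕ) {h : ℕ}
    (hG : ∀ z ∈ Z₀, (G z).card ≤ h) :
    ∃ Z' ⊆ Z₀, Z₀.card ≤ 2 ^ (h + 1) * Z'.card ∧
      ∀ z ∈ Z', ∀ z' ∈ Z', f z ∈ G z' → f z = f z' := by
  obtain ⟨Z', h1, h2, h3⟩ := exists_split Z₀ (fun z => (G z).erase (f z)) f (e := h)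
    (fun s hs => (Finset.card_erase_le).trans (hG s hs)) (fun s _ => Finset.notMem_erase _ _)
  refine ⟨Z', h1, h2, fun z hz z' hz' hm => ?_⟩
  by_contra hne
  exact h3 z hz z' hz' (Finset.mem_erase.mpr ⟨hne, hm⟩)

end FlashRainbow.CF
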