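import Pool.Agent.Work.MP_54723a_co.CF.JunP
import Pool.Agent.Work.MP_54723a_co.CF.Presel

/-!
Existence of a junction with at most three colours such that no point of the target has two of
these colours among its (few) distinguished colours `G y`.
-/

namespace FlashRainbow.CF

variable {c : ℕ → ℕ → ℕ} {lev : ℕ → ℕ → ℕ} {V Z K F : Finset ℕ} {x R t M : ℕ}

theorem jun_good {h τ : ℕ} {G : ℕ → Finset ℕ} (hL : Lev c V 3 lev) (hR : Rk c V R)
    (hH : Hub c V x K F) (ht : R ≤ K.card + t)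
    (hM : ∀ W ⊆ V, ∀ r ≤ R, Rk c W r → W.card * 3 ^ (R - r) ≤ M)
    (hZV : Z ⊆ V) (hxZ : ∀ v ∈ Z, x < v) (hxF : ∀ v ∈ Z, c x v ∉ F) (hτ : 0 < τ)
    (hG : ∀ z ∈ Z, (G z).card ≤ h) (B : ℕ)
    (hbig : 2 ^ (h + 1) * (2 ^ (2 * B + 1) * ((t + 1) ^ 2 * 3 ^ (2 * t)) * M +
      3 ^ (2 * B) * (3 ^ K.card * (bG t (27 * τ) + 27 * τ * (2 * B * t)))) <
      3 ^ (2 * B) * Z.card) :
    ∃ Φ X : Finset ℕ, Φ.card ≤ 3 ∧ Disjoint Φ F ∧ X ⊆ Z ∧ Jun c V x Φ X ∧ Fre c X (K ∪ Φ) ∧
      τ ≤ 6 * X.card ∧ (∀ g ∈ Φ, ∃ u ∈ insert x Z, ∃ v ∈ Z, u < v ∧ c u v = g) ∧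
      ∀ y ∈ X, ∀ g ∈ Φ, ∀ g' ∈ Φ, g ∈ G y → g' ∈ G y → g = g' := by
  obtain ⟨Z', hZ', hcard, hsel⟩ := presel Z (fun z => c x z) G hG
  have hJ : HasJunP c V Z' K F x τ := by
    by_contra hno
    have h1 := hasJunP_or_small hL hR hH ht hM (hZ'.trans hZV) (fun v hv => hxZ v (hZ' hv))
      (fun v hv => hxF v (hZ' hv)) hτ B hno
    have h2 : 3 ^ (2 * B) * Z.card ≤ 2 ^ (h + 1) * (3 ^ (2 * B) * Z'.card) := by
      calc 3 ^ (2 * B) * Z.card ≤ 3 ^ (2 * B) * (2 ^ (h + 1) * Z'.card) :=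
            Nat.mul_le_mul_left _ hcard
        _ = _ := by ring
    have h3 := h2.trans (Nat.mul_le_mul_left _ h1)
    omega
  obtain ⟨Φ, X, b, hΦ3, hΦF, hXZ, hJun, hFre, hτX, hlab, harc⟩ := hJ
  have harc' : ∀ g ∈ Φ, ∃ u ∈ insert x Z, ∃ v ∈ Z, u < v ∧ c u v = g := by
    intro g hg
    obtain ⟨u, hu, v, hv, h1, h2⟩ := harc g hg
    exact ⟨u, Finset.insert_subset_insert _ hZ' hu, v, hZ' hv, h1, h2⟩
  by_cases hcase : X.card ≤ 2 * (X.filter fun y => c x y ∉ Φ).card
  · refine ⟨Φ, X.filter (fun y => c x y ∉ Φ), hΦ3, hΦF,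
      (Finset.filter_subset _ _).trans (hXZ.trans hZ'), hJun.mono (Finset.filter_subset _ _),
      hFre.mono (Finset.filter_subset _ _) (le_refl _), by omega, harc', ?_⟩
    intro y hy g hg g' hg' hgG hg'G
    obtain ⟨hyX, hyΦ⟩ := Finset.mem_filter.mp hy
    have key : ∀ a ∈ Φ, a ∈ G y → a = b := by
      intro a ha haG
      by_contra hne
      obtain ⟨u, hu, hua⟩ := Finset.mem_image.mp (hlab a ha hne)
      have h1 : c x u = c x y := hsel u hu y (hXZ hyX) (by
        show c x u ∈ G y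
        rw [hua]; exact haG)
      exact hyΦ (by rw [← h1, hua]; exact ha)
    rw [key g hg hgG, key g' hg' hg'G]
  · have hsplit : (X.filter fun y => c x y ∈ Φ).card + (X.filter fun y => c x y ∉ Φ).card =
        X.card := Finset.card_filter_add_card_filter_not (s := X) (fun y => c x y ∈ Φ)
    have hX1 : X.card ≤ 2 * (X.filter fun y => c x y ∈ Φ).card := by omega
    -- pigeonhole over the at most three colours
    have hpig : ∃ g ∈ Φ, (X.filter fun y => c x y ∈ Φ).card ≤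
        3 * (X.filter fun y => c x y = g).card := by
      by_contra hno
      push Not at hno
      have hsum : (X.filter fun y => c x y ∈ Φ).card =
          ∑ g ∈ Φ, (X.filter fun y => c x y = g).card := by
        have h0 := Finset.card_eq_sum_card_fiberwise (s := X.filter fun y => c x y ∈ Φ) (t := Φ)
          (f := fun y => c x y)
          (fun y hy => by
            have h := (Finset.mem_filter.mp (Finset.mem_coe.mp hy)).2
            exact Finset.mem_coe.mpr h)
        rw [h0]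
        refine Finset.sum_congr rfl fun g hg => ?_
        congr 1
        ext y
        simp only [Finset.mem_filter]
        constructor
        · rintro ⟨⟨h1, _⟩, h2⟩; exact ⟨h1, h2⟩
        · rintro ⟨h1, h2⟩; exact ⟨⟨h1, by rw [h2]; exact hg⟩, h2⟩
      have hXpos : 0 < (X.filter fun y => c x y ∈ Φ).card := by omega
      obtain ⟨y0, hy0⟩ := Finset.card_pos.mp hXpos
      have hΦne : Φ.Nonempty := ⟨_, (Finset.mem_filter.mp hy0).2⟩
      have h1 : ∑ g ∈ Φ, 3 * (X.filter fun y => c x y = g).card <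
          ∑ _g ∈ Φ, (X.filter fun y => c x y ∈ Φ).card :=
        Finset.sum_lt_sum_of_nonempty hΦne fun g hg => hno g hg
      rw [← Finset.mul_sum, ← hsum, Finset.sum_const, smul_eq_mul] at h1
      have h2 := Nat.mul_le_mul_right (X.filter fun y => c x y ∈ Φ).card hΦ3
      omega
    obtain ⟨g, hg, hgc⟩ := hpig
    have hsub : (X.filter fun y => c x y = g) ⊆ X := Finset.filter_subset _ _
    refine ⟨{g}, X.filter (fun y => c x y = g), by simp,
      Finset.disjoint_singleton_left.mpr (Finset.disjoint_left.mp hΦF hg),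
      hsub.trans (hXZ.trans hZ'), ?_, ?_, by omega, ?_, ?_⟩
    · refine jun_one hH.mem (hsub.trans (hXZ.trans (hZ'.trans hZV))) fun v hv => ?_
      obtain ⟨h1, h2⟩ := Finset.mem_filter.mp hv
      exact ⟨hxZ v (hZ' (hXZ h1)), h2⟩
    · exact hFre.mono hsub (Finset.union_subset_union_right (Finset.singleton_subset_iff.mpr hg))
    · intro a ha
      rw [Finset.mem_singleton] at ha
      subst ha
      exact harc' a hg
    · intro y _ a ha a' ha' _ _
      rw [Finset.mem_singleton] at ha ha'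
      rw [ha, ha']

end FlashRainbow.CF
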