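import Pool.Agent.Work.MP_54723a_co.CF.NoStar

/-!
Existence of a junction with at most three colours, all of them except possibly one labels of
points of the zone, all of them colours of arcs inside the zone with the hub added.
-/

namespace FlashRainbow.CF

variable {c : ℕ → ℕ → ℕ} {lev : ℕ → ℕ → ℕ} {V Z K F : Finset ℕ} {x R t M : ℕ}

/-- a junction with few colours into a class of at least `τ` points; all colours except possibly
one are labels of points of `Z`, all colours are colours of arcs of `insert x Z` -/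
def HasJunP (c : ℕ → ℕ → ℕ) (V Z K F : Finset ℕ) (x τ : ℕ) : Prop :=
  ∃ (Φ X : Finset ℕ) (b : ℕ), Φ.card ≤ 3 ∧ Disjoint Φ F ∧ X ⊆ Z ∧ Jun c V x Φ X ∧
    Fre c X (K ∪ Φ) ∧ τ ≤ X.card ∧ (∀ g ∈ Φ, g ≠ b → g ∈ Z.image (c x)) ∧
    (∀ g ∈ Φ, ∃ u ∈ insert x Z, ∃ v ∈ Z, u < v ∧ c u v = g)

theorem hasJunP_of {Φ X : Finset ℕ} {τ : ℕ} (b : ℕ) (hL : Lev c V 3 lev) (hZ : Z ⊆ V)
    (hXZ : X ⊆ Z) (hK : Fre c X K) (hJ : Jun c V x Φ X) (h3 : Φ.card ≤ 3) (hΦF : Disjoint Φ F)
    (hcard : 27 * τ ≤ X.card) (hb : ∀ g ∈ Φ, g ≠ b → g ∈ Z.image (c x))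
    (ha : ∀ g ∈ Φ, ∃ u ∈ insert x Z, ∃ v ∈ Z, u < v ∧ c u v = g) :
    HasJunP c V Z K F x τ := by
  obtain ⟨X', h1, h2, h4⟩ := exists_class (hL.mono (hXZ.trans hZ)) Φ
  refine ⟨Φ, X', b, h3, hΦF, h1.trans hXZ, hJ.mono h1, (hK.mono h1 (le_refl _)).union h4, ?_,
    hb, ha⟩
  have h5 : 3 ^ Φ.card ≤ 3 ^ 3 := Nat.pow_le_pow_right (by norm_num) h3
  have h6 : X.card ≤ 27 * X'.card := h2.trans (Nat.mul_le_mul_right _ (by simpa using h5))
  omega

theorem noJun_of_not_hasJunP {τ : ℕ} (hL : Lev c V 3 lev) (hH : Hub c V x K F) (hZV : Z ⊆ V)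
    (hxZ : ∀ v ∈ Z, x < v) (hxF : ∀ v ∈ Z, c x v ∉ F) (hτ : 0 < τ)
    (hno : ¬ HasJunP c V Z K F x τ) :
    NoJun c Z K F x (27 * τ) ∧ ∀ u ∈ Z, ∀ s ∈ Z, u < s → SO c Z K x (27 * τ) s →
      c x u = c x s ∨ c u s = c x u ∨ c u s = c x s ∨ c u s ∈ F := by
  refine ⟨⟨?_, ?_⟩, ?_⟩
  · intro l hl X hX hXK
    by_contra hcon
    push Not at hcon
    have hne : (X.filter fun v => c x v = l).Nonempty := by
      rw [← Finset.card_pos]; omega
    obtain ⟨v₀, hv₀⟩ := hne
    obtain ⟨hv₁, hv₂⟩ := Finset.mem_filter.mp hv₀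
    refine hno (hasJunP_of (Φ := {l}) l hL hZV ((Finset.filter_subset _ _).trans hX)
      (hXK.mono (Finset.filter_subset _ _) (le_refl _))
      (jun_one (a := l) hH.mem ((Finset.filter_subset _ _).trans (hX.trans hZV)) ?_) (by simp)
      (Finset.disjoint_singleton_left.mpr hl) hcon ?_ ?_)
    · intro v hv
      obtain ⟨h1, h2⟩ := Finset.mem_filter.mp hv
      exact ⟨hxZ v (hX h1), h2⟩
    · intro g hg hgl
      exact absurd (Finset.mem_singleton.mp hg) hgl
    · intro g hg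
      rw [Finset.mem_singleton] at hg
      subst hg
      exact ⟨x, Finset.mem_insert_self _ _, v₀, hX hv₁, hxZ v₀ (hX hv₁), hv₂⟩
  · intro u hu φ hφ hne X hX hXK
    by_contra hcon
    push Not at hcon
    have hne' : (X.filter fun v => u < v ∧ c u v = φ).Nonempty := by
      rw [← Finset.card_pos]; omega
    obtain ⟨v₀, hv₀⟩ := hne'
    obtain ⟨hv₁, hv₂, hv₃⟩ := Finset.mem_filter.mp hv₀
    refine hno (hasJunP_of (Φ := {φ, c x u}) φ hL hZV ((Finset.filter_subset _ _).trans hX)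
      (hXK.mono (Finset.filter_subset _ _) (le_refl _))
      (jun_two (a := c x u) (b := φ) (u := u) hH.mem (hZV hu) (hxZ u hu) rfl hne.symm
        ((Finset.filter_subset _ _).trans (hX.trans hZV)) ?_)
      (Finset.card_le_two.trans (by norm_num)) ?_ hcon ?_ ?_)
    · intro v hv
      exact (Finset.mem_filter.mp hv).2
    · rw [Finset.disjoint_insert_left]
      exact ⟨hφ, Finset.disjoint_singleton_left.mpr (hxF u hu)⟩
    · intro g hg hgφ
      rcases Finset.mem_insert.mp hg with h | h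
      · exact absurd h hgφ
      · rw [Finset.mem_singleton] at h
        subst h
        exact Finset.mem_image_of_mem _ hu
    · intro g hg
      rcases Finset.mem_insert.mp hg with h | h
      · subst h
        exact ⟨u, Finset.mem_insert_of_mem hu, v₀, hX hv₁, hv₂, hv₃⟩
      · rw [Finset.mem_singleton] at h
        subst h
        exact ⟨x, Finset.mem_insert_self _ _, u, hu, hxZ u hu, rfl⟩
  · intro u hu s hs hus hSO
    by_contra hcon
    push Not at hcon
    obtain ⟨h1, h2, h3, h4⟩ := hcon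
    obtain ⟨Q, hQZ, hQK, hQs, hQc⟩ := hSO
    refine hno (hasJunP_of (Φ := {c x s, c u s, c x u}) (c u s) hL hZV hQZ
      (hQK.mono (Finset.subset_insert _ _) (le_refl _))
      (jun_three (a := c x u) (b := c u s) (d := c x s) (u := u) (s := s) hH.mem (hZV hu) (hZV hs)
        (hxZ u hu) hus rfl rfl h2.symm h1 h3 (hQZ.trans hZV) hQs) Finset.card_le_three ?_ hQc
        ?_ ?_)
    · rw [Finset.disjoint_insert_left, Finset.disjoint_insert_left]
      exact ⟨hxF s hs, h4, Finset.disjoint_singleton_left.mpr (hxF u hu)⟩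
    · intro g hg hgb
      rcases Finset.mem_insert.mp hg with h | h
      · subst h
        exact Finset.mem_image_of_mem _ hs
      rcases Finset.mem_insert.mp h with h | h
      · exact absurd h hgb
      · rw [Finset.mem_singleton] at h
        subst h
        exact Finset.mem_image_of_mem _ hu
    · intro g hg
      rcases Finset.mem_insert.mp hg with h | h
      · subst h
        exact ⟨x, Finset.mem_insert_self _ _, s, hs, hxZ s hs, rfl⟩
      rcases Finset.mem_insert.mp h with h | h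
      · subst h
        exact ⟨u, Finset.mem_insert_of_mem hu, s, hs, hus, rfl⟩
      · rw [Finset.mem_singleton] at h
        subst h
        exact ⟨x, Finset.mem_insert_self _ _, u, hu, hxZ u hu, rfl⟩

/-- **Existence of a junction with at most three colours**, positive form with extra facts. -/
theorem hasJunP_or_small {τ : ℕ} (hL : Lev c V 3 lev) (hR : Rk c V R) (hH : Hub c V x K F)
    (ht : R ≤ K.card + t)
    (hM : ∀ W ⊆ V, ∀ r ≤ R, Rk c W r → W.card * 3 ^ (R - r) ≤ M)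
    (hZV : Z ⊆ V) (hxZ : ∀ v ∈ Z, x < v) (hxF : ∀ v ∈ Z, c x v ∉ F) (hτ : 0 < τ) (B : ℕ)
    (hno : ¬ HasJunP c V Z K F x τ) :
    3 ^ (2 * B) * Z.card ≤ 2 ^ (2 * B + 1) * ((t + 1) ^ 2 * 3 ^ (2 * t)) * M +
      3 ^ (2 * B) * (3 ^ K.card * (bG t (27 * τ) + 27 * τ * (2 * B * t))) := by
  obtain ⟨h1, h2⟩ := noJun_of_not_hasJunP hL hH hZV hxZ hxF hτ hno
  exact noJun_zone hL hR hH ht hM hZV hxZ hxF h1 (by omega) h2 B

end FlashRainbow.CF
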