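import Pool.Agent.Work.MP_54723a_co.CF.OldHub
import Pool.Agent.Work.MP_54723a_co.CF.H3Long

/-!
# Constant factor, measure route: without junctions almost all pairs satisfy (*)  (helper74)

Combination of `old_hub` and `long_path` (helper53), and the number of exceptional pairs.
-/

set_option autoImplicit false

namespace FlashRainbow.CF

open Classical

variable {c : ℕ → ℕ → ℕ} {V Z K F K' F' : Finset ℕ} {R t t' τ₂ s x x' : ℕ} {lev : ℕ → ℕ → ℕ}

/-- the threshold of `long_path` -/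
def tauL (s τ₂ : ℕ) : ℕ := (s + 1) ^ 8 * (τ₂ + 1)

theorem le_tauL (s τ₂ : ℕ) : τ₂ ≤ tauL s τ₂ := by
  unfold tauL
  have h : 1 ≤ (s + 1) ^ 8 := Nat.one_le_pow _ _ (by omega)
  calc τ₂ ≤ τ₂ + 1 := Nat.le_succ _
    _ = 1 * (τ₂ + 1) := (Nat.one_mul _).symm
    _ ≤ (s + 1) ^ 8 * (τ₂ + 1) := Nat.mul_le_mul_right _ h

/-- the threshold of the good points -/
def tauG (t s τ₂ : ℕ) : ℕ := 2 * τ₂ + bG t (tauL s τ₂)

theorem tauG_pos (t s τ₂ : ℕ) : 0 < tauG t s τ₂ := by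
  unfold tauG bG
  omega

theorem le_tauG (t s τ₂ : ℕ) : τ₂ ≤ tauG t s τ₂ := by
  unfold tauG
  omega

/-- long paths in thick `K`-free sets -/
theorem hlong_of_noJun (hH : Hub c V x K F) (hxF : ∀ v ∈ Z, c x v ∉ F)
    (hNJ : NoJun c Z K F x τ₂) :
    ∀ Q ⊆ Z, Fre c Q K → tauL s τ₂ ≤ Q.card → ∀ B : Finset ℕ, B.card ≤ s →
      ∃ y D, RS c Q y D ∧ Disjoint D B ∧ s ≤ D.card := by
  intro Q hQ hQK hQc B hB
  obtain ⟨y, D, h1, h2, h3⟩ := long_path (c := c) (f := fun v => c x v) (τ := τ₂) (s := s) hB (by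
      intro l
      by_cases hl : l ∈ F
      · have h0 : (Q.filter fun v => c x v = l) = ∅ := by
          refine Finset.filter_eq_empty_iff.mpr fun v hv h => ?_
          exact hxF v (hQ hv) (h ▸ hl)
        rw [h0, Finset.card_empty]
        exact Nat.zero_le _
      · exact (hNJ.one l hl Q hQ hQK).le) (by
      intro u hu φ hφ
      by_cases hl : φ ∈ F
      · have h0 : (Q.filter fun v => u < v ∧ c u v = φ) = ∅ := by
          refine Finset.filter_eq_empty_iff.mpr fun v hv h => ?_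
          exact hQK φ (hH.1 hl) u hu v hv h.1 h.2
        rw [h0, Finset.card_empty]
        exact Nat.zero_le _
      · exact (hNJ.two u (hQ hu) φ hl hφ Q hQ hQK).le) hQc
  exact ⟨y, D, h1, h3, h2.ge⟩

/-- the pairs of `Z` whose colour is in `F'` -/
noncomputable def prF (c : ℕ → ℕ → ℕ) (Z F' : Finset ℕ) : Finset (ℕ × ℕ) :=
  (Z ×ˢ Z).filter fun p => p.1 < p.2 ∧ c p.1 p.2 ∈ F'

/-- the exceptional pairs: equal labels, or a colour which is none of the two labels -/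
noncomputable def prB (c : ℕ → ℕ → ℕ) (Z : Finset ℕ) (x : ℕ) : Finset (ℕ × ℕ) :=
  (Z ×ˢ Z).filter fun p => p.1 < p.2 ∧
    (c x p.1 = c x p.2 ∨ (c p.1 p.2 ≠ c x p.1 ∧ c p.1 p.2 ≠ c x p.2))

/-- label classes are small -/
theorem label_class_le (hL : Lev c V 3 lev) (hZV : Z ⊆ V) (hNJ : NoJun c Z K F x τ₂) {l : ℕ}
    (hl : l ∉ F) : (Z.filter fun v => c x v = l).card ≤ 3 ^ K.card * τ₂ := by
  obtain ⟨X, h1, h2, h3⟩ := exists_class (c := c) (X := Z.filter fun v => c x v = l)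
    (hL.mono ((Finset.filter_subset _ _).trans hZV)) K
  refine h2.trans (Nat.mul_le_mul_left _ ?_)
  have h4 := hNJ.one l hl X (h1.trans (Finset.filter_subset _ _)) h3
  have h5 : (X.filter fun v => c x v = l) = X :=
    Finset.filter_true_of_mem fun v hv => (Finset.mem_filter.mp (h1 hv)).2
  rw [h5] at h4
  exact h4.le

/-- **Without junctions almost all pairs satisfy (*)**: number of good points and number of
exceptional pairs. -/
theorem star_of_noJun (hL : Lev c V 3 lev) (hR : Rk c V R) (hH : Hub c V x K F)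
    (hH' : Hub c V x' K' F') (hKK : K' ⊆ K) (hFF : F' ⊆ F) (ht : R ≤ K.card + t)
    (ht' : R ≤ K'.card + t') (hs : t' < s) (hs3 : 3 ≤ s) (hZV : Z ⊆ V) (hxZ : ∀ v ∈ Z, x < v)
    (hxZ' : ∀ v ∈ Z, x' < v) (hxF : ∀ v ∈ Z, c x v ∉ F) (hNJ : NoJun c Z K F x τ₂) :
    ∃ Y ⊆ Z, Z.card ≤ Y.card + 3 ^ K.card * bG t (tauG t s τ₂) +
        (Z.filter fun u => c x' u ∈ F').card ∧
      (∀ u ∈ Y, c x u ∉ K) ∧ (∀ u ∈ Y, lev (c x u) u = 1) ∧
      (prB c Y x).card ≤ Y.card * (3 ^ K.card * τ₂) + (prF c Z F').card := by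
  set Y := Zgood c Z K F' x x' (tauG t s τ₂) with hY
  have hYZ : Y ⊆ Z := Finset.filter_subset _ _
  refine ⟨Y, hYZ, card_Zgood hL hR hH ht hZV hxZ hxF hNJ (le_tauG t s τ₂),
    fun u hu => Zgood_notMem (tauG_pos _ _ _) hu,
    fun u hu => Zgood_level hL hH hZV hxZ (tauG_pos _ _ _) hu, ?_⟩
  have hsub : prB c Y x ⊆ (Y.biUnion fun u => (Y.filter fun v => c x v = c x u).image
      fun v => (u, v)) ∪ prF c Z F' := by
    rintro ⟨u, v⟩ hp
    obtain ⟨hp1, hlt, hp2⟩ := Finset.mem_filter.mp hp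
    obtain ⟨hu, hv⟩ := Finset.mem_product.mp hp1
    simp only at hu hv hlt hp2
    have h1 := old_hub (s := s) (τ₁ := tauL s τ₂) hR hH hH' hKK hFF ht ht' hs hs3 hZV hxZ hxZ' hxF
      hNJ (le_tauL s τ₂) (hlong_of_noJun hH hxF hNJ) hu hv hlt
    rcases h1 with h1 | h1 | h1 | h1
    · refine Finset.mem_union_left _ (Finset.mem_biUnion.mpr ⟨u, hu, ?_⟩)
      exact Finset.mem_image.mpr ⟨v, Finset.mem_filter.mpr ⟨hv, h1.symm⟩, rfl⟩
    · rcases hp2 with h2 | h2
      · refine Finset.mem_union_left _ (Finset.mem_biUnion.mpr ⟨u, hu, ?_⟩)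
        exact Finset.mem_image.mpr ⟨v, Finset.mem_filter.mpr ⟨hv, h2.symm⟩, rfl⟩
      · exact absurd h1 h2.1
    · rcases hp2 with h2 | h2
      · refine Finset.mem_union_left _ (Finset.mem_biUnion.mpr ⟨u, hu, ?_⟩)
        exact Finset.mem_image.mpr ⟨v, Finset.mem_filter.mpr ⟨hv, h2.symm⟩, rfl⟩
      · exact absurd h1 h2.2
    · refine Finset.mem_union_right _ (Finset.mem_filter.mpr ⟨?_, hlt, h1⟩)
      exact Finset.mem_product.mpr ⟨hYZ hu, hYZ hv⟩
  refine (Finset.card_le_card hsub).trans ((Finset.card_union_le _ _).trans ?_)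
  refine Nat.add_le_add_right (Finset.card_biUnion_le.trans ?_) _
  rw [← smul_eq_mul, ← Finset.sum_const]
  refine Finset.sum_le_sum fun u hu => Finset.card_image_le.trans ?_
  refine le_trans (Finset.card_le_card (Finset.filter_subset_filter _ hYZ)) ?_
  exact label_class_le hL hZV hNJ (hxF u (hYZ hu))

end FlashRainbow.CF
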