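import Pool.Agent.Work.MP_54723a_co.CF.H1

/-!
# Constant factor, measure route: the rooted layer lemma  (helper18)

`x` a hub with palette `K`, `X` a `K`-free set behind `x`, `f v = c x v ∉ F`.
A rooted path is a rainbow path of `X` whose start has a label `f s` outside its palette; it has at
most `t = R - |K|` arcs.  The points with the most popular length of a longest rooted path form a
set `C` with at least `|X| / (t + 1)` points, and every point `u` of `C` has at most `t + 1` colours
to the later points of `C`.  If all out-classes of colours different from `f u` are small, then `C`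
is almost a star colouring (`c u v = f u`), and if moreover all label classes are small, then
arbitrarily long paths start in all but few points of `C`.
-/

set_option autoImplicit false

namespace FlashRainbow.CF

open Classical

variable {c : ℕ → ℕ → ℕ} {V X Z K F A C D : Finset ℕ} {R t m n τ σ x y s u : ℕ} {f : ℕ → ℕ}

/-- rooted paths are short -/
theorem Hub.rooted_le (h : Hub c V x K F) (hR : Rk c V R) (hXV : X ⊆ V) (hxX : ∀ v ∈ X, x < v)
    (hXK : Fre c X K) (hF : ∀ v ∈ X, c x v ∉ F) (hq : RQ c X s y D) (hs : c x s ∉ D) :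
    K.card + D.card ≤ R := by
  have hsX : s ∈ X := hq.memL
  have h1 : RP c V x (K.erase (c x s)) := by
    refine h.2 _ (fun z hz => Finset.mem_erase.mpr ⟨?_, h.1 hz⟩) (Finset.erase_subset _ _)
    rintro rfl
    exact hF s hsX hz
  have h2 := RP.step h1 (hXV hsX) (hxX s hsX) (Finset.notMem_erase _ _)
  have hDK : Disjoint D K := by
    rw [Finset.disjoint_right]
    intro γ hγ
    exact hq.toRP.notMem_of_free (hXK γ hγ)
  have hdis : Disjoint D (insert (c x s) (K.erase (c x s))) := by
    rw [Finset.disjoint_insert_right]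
    exact ⟨hs, hDK.mono_right (Finset.erase_subset _ _)⟩
  have h3 := rp_append h2 (hq.mono hXV) hdis
  have h4 := hR _ _ h3
  rw [Finset.card_union_of_disjoint hdis.symm] at h4
  have h5 : K ⊆ insert (c x s) (K.erase (c x s)) := by
    intro z hz
    by_cases hzs : z = c x s
    · rw [hzs]; exact Finset.mem_insert_self _ _
    · exact Finset.mem_insert_of_mem (Finset.mem_erase.mpr ⟨hzs, hz⟩)
  have h6 := Finset.card_le_card h5
  omega

/-- **LAYER**: a set `C` with at least `|X| / (t + 1)` points in which every point has at most `t + 1`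
colours to later points. -/
theorem Hub.layer (h : Hub c V x K F) (hR : Rk c V R) (hXV : X ⊆ V) (hxX : ∀ v ∈ X, x < v)
    (hXK : Fre c X K) (hF : ∀ v ∈ X, c x v ∉ F) (ht : R ≤ K.card + t) :
    ∃ C ⊆ X, X.card ≤ (t + 1) * C.card ∧
      ∀ u ∈ C, ∃ T : Finset ℕ, T.card ≤ t + 1 ∧ ∀ v ∈ C, u < v → c u v ∈ T := by
  set P : ℕ → ℕ → Prop := fun v i => ∃ s D, RQ c X s v D ∧ c x s ∉ D ∧ D.card = i with hP
  set L : ℕ → ℕ := fun v => Nat.findGreatest (P v) t with hLdef
  have hLt : ∀ v, L v ≤ t := fun v => Nat.findGreatest_le t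
  have hLspec : ∀ v ∈ X, ∃ s D, RQ c X s v D ∧ c x s ∉ D ∧ D.card = L v := by
    intro v hv
    have h0 : P v 0 := ⟨v, ∅, RQ.single hv, Finset.notMem_empty _, rfl⟩
    exact Nat.findGreatest_spec (P := P v) (Nat.zero_le t) h0
  have hLmax : ∀ v s D, RQ c X s v D → c x s ∉ D → D.card ≤ L v := by
    intro v s D hD hs
    have h1 := h.rooted_le hR hXV hxX hXK hF hD hs
    exact Nat.le_findGreatest (by omega) ⟨s, D, hD, hs, rfl⟩
  obtain ⟨i, hi, hbig⟩ := exists_big_fiber X L (Finset.range (t + 1)) ⟨0, by simp⟩ (by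
    intro v _
    rw [Finset.mem_range]
    exact Nat.lt_succ_of_le (hLt v))
  rw [Finset.card_range] at hbig
  refine ⟨X.filter fun v => L v = i, Finset.filter_subset _ _, hbig, ?_⟩
  intro u hu
  obtain ⟨huX, hui⟩ := Finset.mem_filter.mp hu
  obtain ⟨s, D, hD, hs, hDc⟩ := hLspec u huX
  refine ⟨insert (c x s) D, ?_, ?_⟩
  · have h1 := Finset.card_insert_le (c x s) D
    have h2 := hLt u
    omega
  · intro v hv huv
    obtain ⟨hvX, hvi⟩ := Finset.mem_filter.mp hv
    by_contra hno
    rw [Finset.mem_insert, not_or] at hno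
    have h1 := RQ.step hD hvX huv hno.2
    have h2 := hLmax v s _ h1 (by
      rw [Finset.mem_insert, not_or]
      exact ⟨fun h => hno.1 h.symm, hs⟩)
    rw [Finset.card_insert_of_notMem hno.2, hDc, hui, hvi] at h2
    omega

/-- **STAR**: if all out-classes of colours other than the label are small, `C` is almost a star. -/
theorem Hub.star (h : Hub c V x K F) (hR : Rk c V R) (hXV : X ⊆ V) (hxX : ∀ v ∈ X, x < v)
    (hXK : Fre c X K) (hF : ∀ v ∈ X, c x v ∉ F) (ht : R ≤ K.card + t)
    (hout : ∀ v ∈ X, ∀ g, g ≠ c x v → (X.filter fun w => v < w ∧ c v w = g).card ≤ τ) :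
    ∃ C ⊆ X, X.card ≤ (t + 1) * C.card ∧
      ∀ u ∈ C, (C.filter fun v => u < v ∧ c u v ≠ c x u).card ≤ (t + 1) * τ := by
  obtain ⟨C, hCX, hC, hT⟩ := h.layer hR hXV hxX hXK hF ht
  refine ⟨C, hCX, hC, ?_⟩
  intro u hu
  obtain ⟨T, hTc, hT'⟩ := hT u hu
  have h1 : (C.filter fun v => u < v ∧ c u v ≠ c x u) ⊆
      (T.erase (c x u)).biUnion fun g => X.filter fun w => u < w ∧ c u w = g := by
    intro v hv
    obtain ⟨hvC, huv, hne⟩ := Finset.mem_filter.mp hv
    rw [Finset.mem_biUnion]
    exact ⟨c u v, Finset.mem_erase.mpr ⟨hne, hT' v hvC huv⟩,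
      Finset.mem_filter.mpr ⟨hCX hvC, huv, rfl⟩⟩
  calc (C.filter fun v => u < v ∧ c u v ≠ c x u).card
      ≤ ((T.erase (c x u)).biUnion fun g => X.filter fun w => u < w ∧ c u w = g).card :=
        Finset.card_le_card h1
    _ ≤ (T.erase (c x u)).card * τ := by
        refine Finset.card_biUnion_le_card_mul _ _ _ ?_
        intro g hg
        exact hout u (hCX hu) g (Finset.mem_erase.mp hg).1
    _ ≤ (t + 1) * τ := Nat.mul_le_mul_right _
        (((Finset.card_le_card (Finset.erase_subset _ _))).trans hTc)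

/-- few points have few later points -/
theorem card_late_le (C : Finset ℕ) (b : ℕ) :
    (C.filter fun v => (C.filter fun w => v < w).card ≤ b).card ≤ b + 1 := by
  set W := C.filter fun v => (C.filter fun w => v < w).card ≤ b with hW
  rcases W.eq_empty_or_nonempty with h0 | hne
  · rw [h0]; simp
  set w := W.min' hne with hw
  have hwW : w ∈ W := Finset.min'_mem _ _
  have h1 : (C.filter fun v => w < v).card ≤ b := (Finset.mem_filter.mp hwW).2
  have h2 : W.erase w ⊆ C.filter fun v => w < v := by
    intro v hv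
    obtain ⟨hvw, hvW⟩ := Finset.mem_erase.mp hv
    exact Finset.mem_filter.mpr ⟨(Finset.mem_filter.mp hvW).1,
      lt_of_le_of_ne (Finset.min'_le _ _ hvW) (Ne.symm hvw)⟩
  have h3 := Finset.card_le_card h2
  rw [Finset.card_erase_of_mem hwW] at h3
  omega

/-- **LONG PATHS** in an almost-star: first colour `f u`, all other colours outside of `A`. -/
theorem long_star (hstar : ∀ u ∈ C, (C.filter fun v => u < v ∧ c u v ≠ f u).card ≤ σ)
    (hlab : ∀ g, (C.filter fun v => f v = g).card ≤ τ) :
    ∀ m n (A : Finset ℕ), A.card ≤ n → ∀ u ∈ C,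
      m * (σ + (n + m) * τ + 1) < (C.filter fun v => u < v).card →
      ∃ y D, RQ c C u y D ∧ D.card = m ∧ ∀ a ∈ A, a ∈ D → a = f u := by
  intro m
  induction m with
  | zero =>
    intro n A _ u hu _
    exact ⟨u, ∅, RQ.single hu, rfl, fun a _ h => absurd h (Finset.notMem_empty _)⟩
  | succ m ih =>
    intro n A hA u hu hbig
    set b := m * (σ + (n + 1 + m) * τ + 1) with hb
    set W := C.filter fun v => (C.filter fun w => v < w).card ≤ b with hW
    set B1 := C.filter fun v => u < v ∧ c u v ≠ f u with hB1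
    set B2 := (insert (f u) A).biUnion fun g => C.filter fun v => f v = g with hB2
    have hWc : W.card ≤ b + 1 := card_late_le C b
    have hB1c : B1.card ≤ σ := hstar u hu
    have hB2c : B2.card ≤ (n + 1) * τ := by
      refine (Finset.card_biUnion_le_card_mul _ _ τ (fun g _ => hlab g)).trans ?_
      exact Nat.mul_le_mul_right _ ((Finset.card_insert_le _ _).trans (by omega))
    have hex : ∃ v ∈ C.filter fun v => u < v, v ∉ W ∪ (B1 ∪ B2) := by
      by_contra hno
      push Not at hno
      have h1 := Finset.card_le_card (s := C.filter fun v => u < v) (t := W ∪ (B1 ∪ B2)) hno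
      have h2 := Finset.card_union_le W (B1 ∪ B2)
      have h3 := Finset.card_union_le B1 B2
      have h4 : b + 1 + (σ + (n + 1) * τ) ≤ (m + 1) * (σ + (n + (m + 1)) * τ + 1) := by
        have h5 : (n + 1) * τ ≤ (n + (m + 1)) * τ := Nat.mul_le_mul_right _ (by omega)
        have h6 : (m + 1) * (σ + (n + (m + 1)) * τ + 1) =
            m * (σ + (n + 1 + m) * τ + 1) + (σ + (n + (m + 1)) * τ + 1) := by ring
        rw [h6]
        omega
      omega
    obtain ⟨v, hv, hvno⟩ := hex
    obtain ⟨hvC, huv⟩ := Finset.mem_filter.mp hv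
    rw [Finset.mem_union, Finset.mem_union, not_or, not_or] at hvno
    obtain ⟨hvW, hvB1, hvB2⟩ := hvno
    have hcuv : c u v = f u := by
      by_contra hne
      exact hvB1 (Finset.mem_filter.mpr ⟨hvC, huv, hne⟩)
    have hfv : f v ∉ insert (f u) A := by
      intro hmem
      exact hvB2 (Finset.mem_biUnion.mpr ⟨f v, hmem, Finset.mem_filter.mpr ⟨hvC, rfl⟩⟩)
    have hvb : b < (C.filter fun w => v < w).card := by
      by_contra hle
      exact hvW (Finset.mem_filter.mpr ⟨hvC, by omega⟩)
    obtain ⟨y, D, hD, hDc, hDA⟩ := ih (n + 1) (insert (f u) A)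
      ((Finset.card_insert_le _ _).trans (by omega)) v hvC hvb
    have hfuD : f u ∉ D := by
      intro hmem
      have h1 := hDA (f u) (Finset.mem_insert_self _ _) hmem
      exact hfv (h1 ▸ Finset.mem_insert_self _ _)
    refine ⟨y, insert (f u) D, hD.prepend hu huv hcuv hfuD, ?_, ?_⟩
    · rw [Finset.card_insert_of_notMem hfuD, hDc]
    · intro a ha haD
      rcases Finset.mem_insert.mp haD with h1 | h1
      · exact h1
      · exfalso
        have h2 := hDA a (Finset.mem_insert_of_mem ha) h1
        exact hfv (h2 ▸ Finset.mem_insert_of_mem ha)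

/-- **NO JUNCTION**: if all label classes and all other out-classes in the `K`-free set `X` have at
most `τ` points, then there is a set `C` of at least `|X| / (t + 1) - b` points, from each of which a
path of `X` with `m` arcs starts which avoids two given colours (except that it may contain the label
of its start), and which has an out-arc of the colour of its label. -/
theorem Hub.layer_long (h : Hub c V x K F) (hR : Rk c V R) (hXV : X ⊆ V) (hxX : ∀ v ∈ X, x < v)
    (hXK : Fre c X K) (hF : ∀ v ∈ X, c x v ∉ F) (ht : R ≤ K.card + t)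
    (hlab : ∀ g, (X.filter fun v => c x v = g).card ≤ τ)
    (hout : ∀ v ∈ X, ∀ g, g ≠ c x v → (X.filter fun w => v < w ∧ c v w = g).card ≤ τ) (m : ℕ) :
    ∃ C ⊆ X, X.card ≤ (t + 1) * (C.card + ((m + 1) * ((t + 1) * τ + (m + 3) * τ + 1) + 1)) ∧
      (∀ u ∈ C, ∃ v ∈ X, u < v ∧ c u v = c x u) ∧
      ∀ u ∈ C, ∀ a b, ∃ y D, RQ c X u y D ∧ m ≤ D.card ∧ (a ∈ D → a = c x u) ∧
        (b ∈ D → b = c x u) := by
  obtain ⟨C, hCX, hC, hstar⟩ := h.star hR hXV hxX hXK hF ht hout
  set b := (m + 1) * ((t + 1) * τ + (m + 3) * τ + 1) with hb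
  have hlabC : ∀ g, (C.filter fun v => c x v = g).card ≤ τ := fun g =>
    (Finset.card_le_card (Finset.filter_subset_filter _ hCX)).trans (hlab g)
  have hlate := card_late_le C b
  set W := C.filter fun v => (C.filter fun w => v < w).card ≤ b with hW
  have hsplit : C.card ≤ (C \ W).card + W.card := by
    have := Finset.card_sdiff_add_card C W
    have h2 := Finset.card_le_card (Finset.subset_union_left (s₁ := C) (s₂ := W))
    omega
  refine ⟨C \ W, Finset.sdiff_subset.trans hCX, ?_, ?_, ?_⟩
  · refine hC.trans (Nat.mul_le_mul_left _ ?_)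
    omega
  · intro u hu
    obtain ⟨huC, huW⟩ := Finset.mem_sdiff.mp hu
    have hub : b < (C.filter fun w => u < w).card := by
      by_contra hle
      exact huW (Finset.mem_filter.mpr ⟨huC, by omega⟩)
    by_contra hno
    push Not at hno
    have h1 : (C.filter fun w => u < w) ⊆ C.filter fun v => u < v ∧ c u v ≠ c x u := by
      intro v hv
      obtain ⟨hvC, huv⟩ := Finset.mem_filter.mp hv
      exact Finset.mem_filter.mpr ⟨hvC, huv, hno v (hCX hvC) huv⟩
    have h2 := (Finset.card_le_card h1).trans (hstar u huC)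
    have h3 : (t + 1) * τ + (m + 3) * τ + 1 ≤ b := by
      rw [hb]
      exact Nat.le_mul_of_pos_left _ (by omega)
    omega
  · intro u hu a a'
    obtain ⟨huC, huW⟩ := Finset.mem_sdiff.mp hu
    have hub : b < (C.filter fun w => u < w).card := by
      by_contra hle
      exact huW (Finset.mem_filter.mpr ⟨huC, by omega⟩)
    have h3 : m * ((t + 1) * τ + (2 + m) * τ + 1) ≤ b := by
      rw [hb]
      refine Nat.mul_le_mul (by omega) ?_
      have : (2 + m) * τ ≤ (m + 3) * τ := Nat.mul_le_mul_right _ (by omega)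
      omega
    obtain ⟨y, D, hD, hDc, hDA⟩ := long_star (c := c) (f := fun v => c x v) (C := C)
      (σ := (t + 1) * τ) (τ := τ) hstar hlabC m 2 {a, a'} (Finset.card_le_two) u huC
      (lt_of_le_of_lt h3 hub)
    exact ⟨y, D, hD.mono hCX, hDc.ge, fun h => hDA a (by simp) h, fun h => hDA a' (by simp) h⟩

end FlashRainbow.CF
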