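import Mathlib

/-!
# From a constant-factor bound to a limit (helper34)

`f(3, k + 1) ≥ 3 f(3, k)`, so a bound `f(3, k) ≤ C 3 ^ (k - 1)` implies that `f(3, k) / 3 ^ (k - 1)`
converges.
-/

set_option autoImplicit false

namespace FlashRainbow.CF.Limit

open Filter Topology

/-- `c` has a 3-flash -/
def Flash (n : ℕ) (c : Fin n → Fin n → ℕ) : Prop :=
  ∃ x : Fin (3 + 1) → Fin n, StrictMono x ∧
    ∃ col : ℕ, ∀ i : Fin 3, c (x i.castSucc) (x i.succ) = col

/-- `c` has a `k`-rainbow -/
def Rainbow (n k : ℕ) (c : Fin n → Fin n → ℕ) : Prop :=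
  ∃ y : Fin (k + 1) → Fin n, StrictMono y ∧
    Function.Injective (fun i : Fin k => c (y i.castSucc) (y i.succ))

/-- there is a colouring on `n` vertices without 3-flash and without `k`-rainbow -/
def Good (n k : ℕ) : Prop := ∃ c : Fin n → Fin n → ℕ, ¬ Flash n c ∧ ¬ Rainbow n k c

theorem Good.mono {m n k : ℕ} (h : Good n k) (hmn : m ≤ n) : Good m k := by
  obtain ⟨c, h1, h2⟩ := h
  refine ⟨fun a b => c (Fin.castLE hmn a) (Fin.castLE hmn b), ?_, ?_⟩
  · rintro ⟨x, hx, col, hcol⟩
    exact h1 ⟨fun i => Fin.castLE hmn (x i), fun i j hij => by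
      have := hx hij
      rw [Fin.lt_def] at this ⊢
      exact this, col, hcol⟩
  · rintro ⟨y, hy, hinj⟩
    exact h2 ⟨fun i => Fin.castLE hmn (y i), fun i j hij => by
      have := hy hij
      rw [Fin.lt_def] at this ⊢
      exact this, hinj⟩

theorem good_one {k : ℕ} (hk : 1 ≤ k) : Good 1 k := by
  refine ⟨fun _ _ => 0, ?_, ?_⟩
  · rintro ⟨x, hx, -⟩
    have h := hx (show (0 : Fin 4) < 1 by decide)
    have h1 := (x 0).isLt
    have h2 := (x 1).isLt
    rw [Fin.lt_def] at h
    omega
  · rintro ⟨y, hy, -⟩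
    have h := hy (show (⟨0, by omega⟩ : Fin (k + 1)) < ⟨1, by omega⟩ by
      rw [Fin.lt_def]; exact Nat.one_pos)
    have h1 := (y ⟨0, by omega⟩).isLt
    have h2 := (y ⟨1, by omega⟩).isLt
    rw [Fin.lt_def] at h
    omega

/-- the block of a vertex -/
def blk {n : ℕ} (a : Fin (3 * n)) : Fin n := ⟨a.val / 3, by have := a.isLt; omega⟩

/-- the tripled colouring -/
def tri {n : ℕ} (c : Fin n → Fin n → ℕ) (a b : Fin (3 * n)) : ℕ :=
  if blk a = blk b then 0 else c (blk a) (blk b) + 1

theorem blk_le {n : ℕ} {a b : Fin (3 * n)} (h : a < b) : blk a ≤ blk b := by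
  rw [Fin.lt_def] at h
  rw [Fin.le_def]
  exact Nat.div_le_div_right h.le

theorem Good.tri {n k : ℕ} (h : Good n k) : Good (3 * n) (k + 1) := by
  obtain ⟨c, h1, h2⟩ := h
  refine ⟨Limit.tri c, ?_, ?_⟩
  · rintro ⟨x, hx, col, hcol⟩
    have h01 := hx (show (0 : Fin 4) < 1 by decide)
    have h12 := hx (show (1 : Fin 4) < 2 by decide)
    have h23 := hx (show (2 : Fin 4) < 3 by decide)
    rcases Nat.eq_zero_or_pos col with h0 | hpos
    · have key : ∀ i : Fin 3, blk (x i.castSucc) = blk (x i.succ) := by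
        intro i
        by_contra hne
        have := hcol i
        rw [Limit.tri, if_neg hne, h0] at this
        omega
      have e0 : blk (x 0) = blk (x 1) := key 0
      have e1 : blk (x 1) = blk (x 2) := key 1
      have e2 : blk (x 2) = blk (x 3) := key 2
      simp only [blk, Fin.mk.injEq] at e0 e1 e2
      rw [Fin.lt_def] at h01 h12 h23
      omega
    · have key : ∀ i : Fin 3, blk (x i.castSucc) ≠ blk (x i.succ) := by
        intro i he
        have := hcol i
        rw [Limit.tri, if_pos he] at this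
        omega
      refine h1 ⟨fun i => blk (x i), Fin.strictMono_iff_lt_succ.mpr fun i => ?_, col - 1,
        fun i => ?_⟩
      · exact lt_of_le_of_ne (blk_le (hx (Fin.castSucc_lt_succ))) (key i)
      · have := hcol i
        rw [Limit.tri, if_neg (key i)] at this
        show c (blk (x i.castSucc)) (blk (x i.succ)) = col - 1
        omega
  · rintro ⟨y, hy, hinj⟩
    have hle : ∀ i j : Fin (k + 2), i ≤ j → blk (y i) ≤ blk (y j) := by
      intro i j hij
      rcases eq_or_lt_of_le hij with rfl | hlt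
      · exact le_refl _
      · exact blk_le (hy hlt)
    -- the arcs inside a block have colour 0
    have hcol0 : ∀ i : Fin (k + 1), blk (y i.castSucc) = blk (y i.succ) →
        Limit.tri c (y i.castSucc) (y i.succ) = 0 := fun i hi => by rw [Limit.tri, if_pos hi]
    have hcol1 : ∀ i : Fin (k + 1), blk (y i.castSucc) ≠ blk (y i.succ) →
        Limit.tri c (y i.castSucc) (y i.succ) = c (blk (y i.castSucc)) (blk (y i.succ)) + 1 :=
      fun i hi => by rw [Limit.tri, if_neg hi]
    by_cases hex : ∃ i₀ : Fin (k + 1), blk (y i₀.castSucc) = blk (y i₀.succ)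
    · obtain ⟨i₀, hi₀⟩ := hex
      have hne : ∀ i : Fin (k + 1), i ≠ i₀ → blk (y i.castSucc) ≠ blk (y i.succ) := by
        intro i hi he
        exact hi (hinj (by simp only [hcol0 i he, hcol0 i₀ hi₀]))
      -- skip the point `i₀.succ`
      have hstep : ∀ i : Fin k,
          blk (y (i₀.succ.succAbove i.castSucc)) = blk (y (i₀.succAbove i).castSucc) ∧
          blk (y (i₀.succ.succAbove i.succ)) = blk (y (i₀.succAbove i).succ) := by
        intro i
        rcases lt_or_ge i.castSucc i₀ with hlt | hge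
        · have e1 : i₀.succAbove i = i.castSucc := Fin.succAbove_of_castSucc_lt _ _ hlt
          have e2 : i₀.succ.succAbove i.castSucc = i.castSucc.castSucc :=
            Fin.succAbove_of_castSucc_lt _ _ (by
              rw [Fin.lt_def] at hlt ⊢
              simp only [Fin.val_castSucc, Fin.val_succ] at hlt ⊢
              omega)
          have e3 : i₀.succ.succAbove i.succ = i.succ.castSucc :=
            Fin.succAbove_of_castSucc_lt _ _ (by
              rw [Fin.lt_def] at hlt ⊢
              simp only [Fin.val_castSucc, Fin.val_succ] at hlt ⊢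
              omega)
          rw [e1, e2, e3]
          exact ⟨rfl, rfl⟩
        · have e1 : i₀.succAbove i = i.succ := Fin.succAbove_of_le_castSucc _ _ hge
          have e3 : i₀.succ.succAbove i.succ = i.succ.succ :=
            Fin.succAbove_of_le_castSucc _ _ (by
              rw [Fin.le_def] at hge ⊢
              simp only [Fin.val_castSucc, Fin.val_succ] at hge ⊢
              omega)
          rw [e1, e3]
          refine ⟨?_, rfl⟩
          rcases eq_or_lt_of_le hge with heq | hlt
          · have e2 : i₀.succ.succAbove i.castSucc = i.castSucc.castSucc :=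
              Fin.succAbove_of_castSucc_lt _ _ (by
                rw [Fin.lt_def]
                have := congrArg Fin.val heq
                simp only [Fin.val_castSucc, Fin.val_succ] at this ⊢
                omega)
            rw [e2, ← heq, hi₀, heq]
            rfl
          · have e2 : i₀.succ.succAbove i.castSucc = i.castSucc.succ :=
              Fin.succAbove_of_le_castSucc _ _ (by
                rw [Fin.lt_def] at hlt
                rw [Fin.le_def]
                simp only [Fin.val_castSucc, Fin.val_succ] at hlt ⊢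
                omega)
            rw [e2]
            rfl
      refine h2 ⟨fun j => blk (y (i₀.succ.succAbove j)),
        Fin.strictMono_iff_lt_succ.mpr fun i => ?_, ?_⟩
      · obtain ⟨e1, e2⟩ := hstep i
        show blk (y (i₀.succ.succAbove i.castSucc)) < blk (y (i₀.succ.succAbove i.succ))
        rw [e1, e2]
        exact lt_of_le_of_ne (hle _ _ (Fin.castSucc_lt_succ).le)
          (hne _ (Fin.succAbove_ne _ _))
      · intro i j hij
        obtain ⟨e1, e2⟩ := hstep i
        obtain ⟨e3, e4⟩ := hstep j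
        have hij' : c (blk (y (i₀.succ.succAbove i.castSucc)))
            (blk (y (i₀.succ.succAbove i.succ))) =
            c (blk (y (i₀.succ.succAbove j.castSucc))) (blk (y (i₀.succ.succAbove j.succ))) := hij
        rw [e1, e2, e3, e4] at hij'
        refine Fin.succAbove_right_injective (p := i₀) (hinj ?_)
        show Limit.tri c _ _ = Limit.tri c _ _
        rw [hcol1 _ (hne _ (Fin.succAbove_ne _ _)), hcol1 _ (hne _ (Fin.succAbove_ne _ _)), hij']
    · push Not at hex
      refine h2 ⟨fun j => blk (y j.castSucc), Fin.strictMono_iff_lt_succ.mpr fun i => ?_, ?_⟩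
      · exact lt_of_le_of_ne (hle _ _ (by
          rw [Fin.le_def]
          simp only [Fin.val_castSucc, Fin.val_succ]
          omega)) (hex i.castSucc)
      · intro i j hij
        have hij' : c (blk (y i.castSucc.castSucc)) (blk (y i.castSucc.succ)) =
          c (blk (y j.castSucc.castSucc)) (blk (y j.castSucc.succ)) := hij
        refine Fin.castSucc_injective _ (hinj ?_)
        show Limit.tri c _ _ = Limit.tri c _ _
        rw [hcol1 _ (hex _), hcol1 _ (hex _), hij']

/-- **limit**: with a constant-factor bound the ratio `f(3, k) / 3 ^ (k - 1)` converges. -/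
theorem limit_of_bound (hC : ∃ C : ℕ, ∀ k n : ℕ, 1 ≤ k → C * 3 ^ (k - 1) < n →
    ∀ c : Fin n → Fin n → ℕ,
      (∃ x : Fin (3 + 1) → Fin n, StrictMono x ∧
        ∃ col : ℕ, ∀ i : Fin 3, c (x i.castSucc) (x i.succ) = col) ∨
      (∃ y : Fin (k + 1) → Fin n, StrictMono y ∧
        Function.Injective (fun i : Fin k => c (y i.castSucc) (y i.succ)))) :
    ∃ (f : ℕ → ℕ) (L : ℝ),
      (∀ k : ℕ, 1 ≤ k →
        (∀ n : ℕ, f k < n → ∀ c : Fin n → Fin n → ℕ,
          (∃ x : Fin (3 + 1) → Fin n, StrictMono x ∧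
            ∃ col : ℕ, ∀ i : Fin 3, c (x i.castSucc) (x i.succ) = col) ∨
          (∃ y : Fin (k + 1) → Fin n, StrictMono y ∧
            Function.Injective (fun i : Fin k => c (y i.castSucc) (y i.succ)))) ∧
        (∃ c : Fin (f k) → Fin (f k) → ℕ,
          (¬ ∃ x : Fin (3 + 1) → Fin (f k), StrictMono x ∧
            ∃ col : ℕ, ∀ i : Fin 3, c (x i.castSucc) (x i.succ) = col) ∧
          (¬ ∃ y : Fin (k + 1) → Fin (f k), StrictMono y ∧
            Function.Injective (fun i : Fin k => c (y i.castSucc) (y i.succ))))) ∧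
      (∀ k : ℕ, 1 ≤ k → 3 * f k ≤ f (k + 1)) ∧
      Tendsto (fun k : ℕ => (f k : ℝ) / 3 ^ (k - 1)) atTop (𝓝 L) ∧ 1 ≤ L ∧
      (∀ k : ℕ, 1 ≤ k → (f k : ℝ) ≤ L * 3 ^ (k - 1)) ∧
      (L = 1 ↔ ∀ k : ℕ, 1 ≤ k → f k = 3 ^ (k - 1)) := by
  classical
  obtain ⟨C, hC⟩ := hC
  have hbd : ∀ k n : ℕ, 1 ≤ k → Good n k → n ≤ C * 3 ^ (k - 1) := by
    rintro k n hk ⟨c, h1, h2⟩
    by_contra hn
    rcases hC k n hk (not_le.mp hn) c with h | h
    · exact h1 h
    · exact h2 h
  set f : ℕ → ℕ := fun k => Nat.findGreatest (fun n => Good n k) (C * 3 ^ (k - 1)) with hf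
  have hgood : ∀ k, 1 ≤ k → Good (f k) k := by
    intro k hk
    have h1 : 1 ≤ C * 3 ^ (k - 1) := hbd k 1 hk (good_one hk)
    exact Nat.findGreatest_spec (P := fun n => Good n k) h1 (good_one hk)
  have hmax : ∀ k, 1 ≤ k → ∀ n, Good n k → n ≤ f k := by
    intro k hk n hn
    exact Nat.le_findGreatest (hbd k n hk hn) hn
  have hf3 : ∀ k, 1 ≤ k → 3 * f k ≤ f (k + 1) := fun k hk =>
    hmax (k + 1) (by omega) _ (hgood k hk).tri
  have hf1 : ∀ k, 1 ≤ k → 1 ≤ f k := fun k hk => hmax k hk 1 (good_one hk)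
  -- the shifted ratio
  set g : ℕ → ℝ := fun j => (f (j + 1) : ℝ) / 3 ^ j with hg
  have hmono : Monotone g := by
    refine monotone_nat_of_le_succ fun j => ?_
    have h1 : (3 * f (j + 1) : ℝ) ≤ f (j + 1 + 1) := by exact_mod_cast hf3 (j + 1) (by omega)
    simp only [hg]
    rw [div_le_div_iff₀ (by positivity) (by positivity), pow_succ]
    have h2 : (0 : ℝ) < 3 ^ j := by positivity
    nlinarith
  have hbdd : BddAbove (Set.range g) := by
    refine ⟨C, ?_⟩
    rintro _ ⟨j, rfl⟩
    have h1 : f (j + 1) ≤ C * 3 ^ (j + 1 - 1) := hbd (j + 1) _ (by omega) (hgood _ (by omega))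
    rw [Nat.add_sub_cancel] at h1
    have h2 : (f (j + 1) : ℝ) ≤ C * 3 ^ j := by exact_mod_cast h1
    simp only [hg]
    rw [div_le_iff₀ (by positivity)]
    exact h2
  set L : ℝ := ⨆ j, g j with hL
  have hlim : Tendsto g atTop (𝓝 L) := tendsto_atTop_ciSup hmono hbdd
  have hle : ∀ j, g j ≤ L := fun j => le_ciSup hbdd j
  have hg1 : ∀ j, 1 ≤ g j := by
    intro j
    have h1 : (1 : ℝ) ≤ g 0 := by
      simp only [hg]
      have : (1 : ℝ) ≤ f (0 + 1) := by exact_mod_cast hf1 1 le_rfl
      simpa using this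
    exact h1.trans (hmono (Nat.zero_le j))
  have hk : ∀ k : ℕ, 1 ≤ k → (f k : ℝ) / 3 ^ (k - 1) = g (k - 1) := by
    intro k hk
    obtain ⟨j, rfl⟩ : ∃ j, k = j + 1 := ⟨k - 1, by omega⟩
    simp only [hg, Nat.add_sub_cancel]
  refine ⟨f, L, ?_, hf3, ?_, (hg1 0).trans (hle 0), ?_, ?_⟩
  · intro k hk1
    refine ⟨fun n hn c => ?_, hgood k hk1⟩
    by_contra hcon
    rw [not_or] at hcon
    exact absurd (hmax k hk1 n ⟨c, hcon.1, hcon.2⟩) (not_le.mpr hn)
  · have h1 : Tendsto (fun k : ℕ => g (k - 1)) atTop (𝓝 L) :=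
      hlim.comp (tendsto_sub_atTop_nat 1)
    refine h1.congr' ?_
    filter_upwards [eventually_ge_atTop 1] with k hk1
    exact (hk k hk1).symm
  · intro k hk1
    have h1 := hle (k - 1)
    rw [← hk k hk1, div_le_iff₀ (by positivity)] at h1
    exact h1
  · constructor
    · intro hL1 k hk1
      have h1 : g (k - 1) = 1 := le_antisymm (hL1 ▸ hle (k - 1)) (hg1 _)
      rw [← hk k hk1, div_eq_one_iff_eq (by positivity)] at h1
      exact_mod_cast h1
    · intro h
      have h1 : ∀ j, g j = 1 := by
        intro j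
        have h2 := hk (j + 1) (by omega)
        rw [h (j + 1) (by omega), Nat.add_sub_cancel] at h2
        rw [← h2]
        push_cast
        exact div_self (by positivity)
      have h3 : L = ⨆ _ : ℕ, (1 : ℝ) := by
        rw [hL]
        exact congrArg _ (funext h1)
      rw [h3, ciSup_const]

end FlashRainbow.CF.Limit
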