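import Pool.Agent.Work.MP_54723a_co.CF.Extremal

/-!
# The limit of `f (3, k) / 3 ^ (k - 1)`  (helper9)

`Mx R / 3 ^ R` is nondecreasing, so the exact bound follows from the bound `(1 + o(1)) 3 ^ R`.
-/

set_option autoImplicit false

namespace FlashRainbow.CF

open Classical

/-- a rainbow path from a function -/
theorem rp_of_fun {c : ℕ → ℕ → ℕ} {V : Finset ℕ} (y : ℕ → ℕ) (k : ℕ) (hV : ∀ i ≤ k, y i ∈ V)
    (hlt : ∀ i < k, y i < y (i + 1))
    (hinj : ∀ i < k, ∀ j < k, c (y i) (y (i + 1)) = c (y j) (y (j + 1)) → i = j) :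
    RP c V (y k) ((Finset.range k).image fun i => c (y i) (y (i + 1))) := by
  induction k with
  | zero => exact RP.single (hV 0 le_rfl)
  | succ k ih =>
    have h1 := ih (fun i hi => hV i (by omega)) (fun i hi => hlt i (by omega))
      (fun i hi j hj => hinj i (by omega) j (by omega))
    have h2 : (Finset.range (k + 1)).image (fun i => c (y i) (y (i + 1))) =
        insert (c (y k) (y (k + 1))) ((Finset.range k).image fun i => c (y i) (y (i + 1))) := by
      rw [Finset.range_add_one, Finset.image_insert]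
    rw [h2]
    refine RP.step h1 (hV (k + 1) le_rfl) (hlt k (Nat.lt_succ_self k)) ?_
    intro hmem
    obtain ⟨i, hi, he⟩ := Finset.mem_image.mp hmem
    have hi' := Finset.mem_range.mp hi
    have := hinj i (by omega) k (Nat.lt_succ_self k) he
    omega

/-- from colourings of the pairs of `Fin n` to sets without `3`-flash of rank at most `k - 1` -/
theorem MB_of_fin {k N : ℕ} (hk : 1 ≤ k)
    (h : ∀ n : ℕ, N < n → ∀ c : Fin n → Fin n → ℕ,
      (∃ x : Fin (3 + 1) → Fin n, StrictMono x ∧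
        ∃ col : ℕ, ∀ i : Fin 3, c (x i.castSucc) (x i.succ) = col) ∨
      (∃ y : Fin (k + 1) → Fin n, StrictMono y ∧
        Function.Injective (fun i : Fin k => c (y i.castSucc) (y i.succ)))) :
    MB 3 (k - 1) N := by
  intro c V lev hL hR
  by_contra hlt
  push Not at hlt
  set n := V.card with hn
  set e : Fin n ↪o ℕ := V.orderEmbOfFin hn.symm with he
  have hmem : ∀ i, e i ∈ V := fun i => Finset.orderEmbOfFin_mem V hn.symm i
  rcases h n hlt (fun i j => c (e i) (e j)) with ⟨x, hx, col, hcol⟩ | ⟨y, hy, hinj⟩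
  · have hup : ∀ i : Fin 3, lev col (e (x i.castSucc)) < lev col (e (x i.succ)) := by
      intro i
      have h1 := hL.up _ (hmem (x i.castSucc)) _ (hmem (x i.succ))
        (e.strictMono (hx (Fin.castSucc_lt_succ)))
      have h2 : c (e (x i.castSucc)) (e (x i.succ)) = col := hcol i
      rw [h2] at h1
      exact h1
    have h0 := hup 0
    have h1 := hup 1
    have h2 := hup 2
    have h3 := hL.lt col _ (hmem (x (Fin.succ 2)))
    have e1 : (Fin.succ 0 : Fin 4) = (Fin.castSucc 1 : Fin 4) := rfl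
    have e2 : (Fin.succ 1 : Fin 4) = (Fin.castSucc 2 : Fin 4) := rfl
    rw [e1] at h0
    rw [e2] at h1
    omega
  · set z : ℕ → ℕ := fun i => if hi : i < k + 1 then e (y ⟨i, hi⟩) else 0 with hz
    have hzv : ∀ i (hi : i < k + 1), z i = e (y ⟨i, hi⟩) := by
      intro i hi
      rw [hz]
      simp only [hi, dite_true]
    have hcast : ∀ i (hi : i < k), z i = e (y (Fin.castSucc ⟨i, hi⟩)) ∧
        z (i + 1) = e (y (Fin.succ ⟨i, hi⟩)) := by
      intro i hi
      exact ⟨hzv i (by omega), hzv (i + 1) (by omega)⟩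
    have hp := rp_of_fun (c := c) (V := V) z k
      (fun i hi => by rw [hzv i (by omega)]; exact hmem _)
      (fun i hi => by
        rw [(hcast i hi).1, (hcast i hi).2]
        exact e.strictMono (hy Fin.castSucc_lt_succ))
      (fun i hi j hj hij => by
        rw [(hcast i hi).1, (hcast i hi).2, (hcast j hj).1, (hcast j hj).2] at hij
        have := hinj (a₁ := ⟨i, hi⟩) (a₂ := ⟨j, hj⟩) hij
        exact congrArg Fin.val this)
    have hcard : ((Finset.range k).image fun i => c (z i) (z (i + 1))).card = k := by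
      rw [Finset.card_image_of_injOn, Finset.card_range]
      intro i hi j hj hij
      have hi' : i < k := by simpa using hi
      have hj' : j < k := by simpa using hj
      simp only at hij
      rw [(hcast i hi').1, (hcast i hi').2, (hcast j hj').1, (hcast j hj').2] at hij
      have := hinj (a₁ := ⟨i, hi'⟩) (a₂ := ⟨j, hj'⟩) hij
      exact congrArg Fin.val this
    have := hR _ _ hp
    omega

/-- **the exact bound follows from the asymptotic one** -/
theorem exact_of_asymptotic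
    (h : ∀ ε : ℝ, 0 < ε → ∀ k₀ : ℕ, ∃ k ≥ k₀, 1 ≤ k ∧
      ∀ n : ℕ, (1 + ε) * 3 ^ (k - 1) < (n : ℝ) → ∀ c : Fin n → Fin n → ℕ,
        (∃ x : Fin (3 + 1) → Fin n, StrictMono x ∧
          ∃ col : ℕ, ∀ i : Fin 3, c (x i.castSucc) (x i.succ) = col) ∨
        (∃ y : Fin (k + 1) → Fin n, StrictMono y ∧
          Function.Injective (fun i : Fin k => c (y i.castSucc) (y i.succ)))) :
    ∀ k : ℕ, 1 ≤ k → ∀ n : ℕ, 3 ^ (k - 1) < n → ∀ c : Fin n → Fin n → ℕ,
        (∃ x : Fin (3 + 1) → Fin n, StrictMono x ∧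
          ∃ col : ℕ, ∀ i : Fin 3, c (x i.castSucc) (x i.succ) = col) ∨
        (∃ y : Fin (k + 1) → Fin n, StrictMono y ∧
          Function.Injective (fun i : Fin k => c (y i.castSucc) (y i.succ))) := by
  have key : ∀ R : ℕ, Mx R ≤ 3 ^ R := by
    intro R
    by_contra hlt
    push Not at hlt
    obtain ⟨k, hkR, hk1, hk⟩ := h (1 / (2 * 3 ^ R)) (by positivity) (R + 1)
    have hRk : R ≤ k - 1 := by omega
    have h1 := Mx_mul_pow_le hRk
    -- the bound at `k`
    have h2 : MB 3 (k - 1) (⌊(1 + 1 / (2 * 3 ^ R) : ℝ) * 3 ^ (k - 1)⌋₊) := by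
      refine MB_of_fin hk1 fun n hn => hk n ?_
      exact (Nat.floor_lt' (by omega)).mp hn
    have h3 := Mx_le h2
    have h4 : ((Mx (k - 1) : ℕ) : ℝ) ≤ (1 + 1 / (2 * 3 ^ R) : ℝ) * 3 ^ (k - 1) := by
      refine le_trans (by exact_mod_cast h3) (Nat.floor_le (by positivity))
    have h5 : ((Mx R : ℕ) : ℝ) * 3 ^ (k - 1 - R) ≤ (Mx (k - 1) : ℕ) := by exact_mod_cast h1
    have h6 : ((3 : ℝ) ^ R + 1) ≤ (Mx R : ℕ) := by exact_mod_cast hlt
    have h7 : (3 : ℝ) ^ (k - 1) = 3 ^ R * 3 ^ (k - 1 - R) := by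
      rw [← pow_add]
      congr 1
      omega
    have h8 : (0 : ℝ) < 3 ^ (k - 1 - R) := by positivity
    have h9 : (0 : ℝ) < 3 ^ R := by positivity
    rw [h7] at h4
    have h10 : (1 + 1 / (2 * 3 ^ R) : ℝ) * (3 ^ R * 3 ^ (k - 1 - R)) =
        (3 ^ R + 1 / 2) * 3 ^ (k - 1 - R) := by
      field_simp
    rw [h10] at h4
    nlinarith [mul_le_mul_of_nonneg_right h6 h8.le]
  intro k hk n hn c
  refine flash_or_rainbow hk (N := 3 ^ (k - 1)) ?_ hn c
  intro c' V' lev' hL' hR'
  exact (Mx_spec _ c' V' lev' hL' hR').trans (key _)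

end FlashRainbow.CF
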