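import Mathlib

/-!
# The ratio `f(l,k) / l^(k-1)` is nondecreasing and converges  (helper94)

`f l k` is the least `N` such that for every `n > N` every edge colouring of the complete graph on
`n` ordered vertices has an `l`-flash or a `k`-rainbow.

* `good_blow` : a colouring of `n` vertices without `l`-flash and `k`-rainbow gives one of `l n`
  vertices without `l`-flash and `(k+1)`-rainbow.
* `limit_of_bound` : with a bound `f(l,k) ≤ C l^(k-1)` the ratio `f(l,k) / l^(k-1)` converges.
* `limit_eq_one_iff` : `f(l,k) = l^(k-1)` for all `k` if and only if the limit is `1`.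
-/

set_option autoImplicit false

namespace FlashRainbow.LimitL

open Filter Topology

/-- `c` has an `l`-flash -/
def HasFlash (l : ℕ) {n : ℕ} (c : Fin n → Fin n → ℕ) : Prop :=
  ∃ x : Fin (l + 1) → Fin n, StrictMono x ∧
    ∃ col : ℕ, ∀ i : Fin l, c (x i.castSucc) (x i.succ) = col

/-- `c` has a `k`-rainbow -/
def HasRainbow (k : ℕ) {n : ℕ} (c : Fin n → Fin n → ℕ) : Prop :=
  ∃ y : Fin (k + 1) → Fin n, StrictMono y ∧
    Function.Injective (fun i : Fin k => c (y i.castSucc) (y i.succ))

/-- every colouring of a complete graph on more than `N` ordered vertices has an `l`-flash or a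
`k`-rainbow -/
def Bd (l k N : ℕ) : Prop :=
  ∀ n : ℕ, N < n → ∀ c : Fin n → Fin n → ℕ, HasFlash l c ∨ HasRainbow k c

/-- the number `f(l,k)` of the problem -/
noncomputable def f (l k : ℕ) : ℕ := sInf {N : ℕ | Bd l k N}

/-- there is a colouring on `n` vertices with no `l`-flash and no `k`-rainbow -/
def Good (l k n : ℕ) : Prop := ∃ c : Fin n → Fin n → ℕ, ¬ HasFlash l c ∧ ¬ HasRainbow k c

theorem Good.mono {l k n n' : ℕ} (h : Good l k n) (hn : n' ≤ n) : Good l k n' := by
  obtain ⟨c, h1, h2⟩ := h
  refine ⟨fun u v => c (Fin.castLE hn u) (Fin.castLE hn v), ?_, ?_⟩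
  · rintro ⟨x, hx, col, hc⟩
    exact h1 ⟨fun i => Fin.castLE hn (x i), fun i j hij => hx hij, col, hc⟩
  · rintro ⟨y, hy, hc⟩
    exact h2 ⟨fun i => Fin.castLE hn (y i), fun i j hij => hy hij, hc⟩

theorem bd_iff {l k N : ℕ} : Bd l k N ↔ ∀ n, N < n → ¬ Good l k n := by
  constructor
  · rintro h n hn ⟨c, h1, h2⟩
    rcases h n hn c with h3 | h3
    · exact h1 h3
    · exact h2 h3
  · intro h n hn c
    by_contra hcon
    rw [not_or] at hcon
    exact h n hn ⟨c, hcon⟩

theorem good_zero (l k : ℕ) : Good l k 0 := by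
  refine ⟨fun _ _ => 0, ?_, ?_⟩
  · rintro ⟨x, -⟩
    exact (x 0).elim0
  · rintro ⟨y, -⟩
    exact (y 0).elim0

/-- `f l k` is attained -/
theorem good_f {l k : ℕ} : Good l k (f l k) := by
  rcases Nat.eq_zero_or_pos (f l k) with h0 | h0
  · rw [h0]
    exact good_zero l k
  · have h1 : ¬ Bd l k (f l k - 1) := by
      intro h
      have h2 : f l k ≤ f l k - 1 := Nat.sInf_le h
      omega
    rw [bd_iff] at h1
    push Not at h1
    obtain ⟨n, hn, hg⟩ := h1
    exact hg.mono (by omega)

theorem le_f {l k n N : ℕ} (hN : Bd l k N) (h : Good l k n) : n ≤ f l k := by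
  have h1 : Bd l k (f l k) := Nat.sInf_mem (s := {N : ℕ | Bd l k N}) ⟨N, hN⟩
  by_contra hcon
  push Not at hcon
  exact (bd_iff.mp h1) n hcon h

theorem f_le {l k N : ℕ} (hN : Bd l k N) : f l k ≤ N := Nat.sInf_le hN

/-- the block of a vertex -/
def blk {l n : ℕ} (u : Fin (l * n)) : Fin n := ⟨u.val / l, Nat.div_lt_of_lt_mul u.isLt⟩

theorem blk_lt {l n : ℕ} {u v : Fin (l * n)} (h : u < v) (hne : blk u ≠ blk v) :
    blk u < blk v := by
  have h1 : u.val ≤ v.val := le_of_lt h
  have h2 : u.val / l ≠ v.val / l := fun h => hne (Fin.ext h)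
  have h3 : u.val / l < v.val / l := lt_of_le_of_ne (Nat.div_le_div_right h1) h2
  exact h3

/-- the colouring of the blow-up -/
def blow {l n : ℕ} (c : Fin n → Fin n → ℕ) (u v : Fin (l * n)) : ℕ :=
  if blk u = blk v then 0 else c (blk u) (blk v) + 1

theorem good_blow {l k n : ℕ} (hl : 1 ≤ l) (h : Good l k n) : Good l (k + 1) (l * n) := by
  obtain ⟨c, h1, h2⟩ := h
  refine ⟨blow c, ?_, ?_⟩
  · rintro ⟨x, hx, col, hc⟩
    rcases Nat.eq_zero_or_pos col with h0 | h0
    · -- all in one block
      have e : ∀ i : Fin l, blk (x i.castSucc) = blk (x i.succ) := by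
        intro i
        by_contra hne
        have := hc i
        rw [blow, if_neg hne] at this
        omega
      have e1 : ∀ i : Fin (l + 1), blk (x 0) = blk (x i) ∧ (x 0).val + i.val ≤ (x i).val := by
        intro i
        induction i using Fin.induction with
        | zero => simp
        | succ i ih =>
          refine ⟨ih.1.trans (e i), ?_⟩
          have h3 : (x i.castSucc).val < (x i.succ).val := hx Fin.castSucc_lt_succ
          have h4 := ih.2
          rw [Fin.val_castSucc] at h4
          rw [Fin.val_succ]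
          omega
      obtain ⟨e2, e3⟩ := e1 (Fin.last l)
      have e4 : (x 0).val / l = (x (Fin.last l)).val / l := congrArg Fin.val e2
      rw [Fin.val_last] at e3
      have e5 : ((x 0).val + l) / l ≤ (x (Fin.last l)).val / l := Nat.div_le_div_right e3
      rw [Nat.add_div_right _ (by omega)] at e5
      omega
    · refine h1 ⟨fun i => blk (x i), ?_, col - 1, ?_⟩
      · rw [Fin.strictMono_iff_lt_succ]
        intro i
        refine blk_lt (hx (Fin.castSucc_lt_succ)) ?_
        intro he
        have := hc i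
        rw [blow, if_pos he] at this
        omega
      · intro i
        have := hc i
        rw [blow] at this
        split_ifs at this with he
        · omega
        · simp only
          omega
  · rintro ⟨y, hy, hinj⟩
    -- at most one arc inside a block
    obtain ⟨i₀, hi₀, hu⟩ : ∃ i₀ : Fin (k + 1), (i₀.val < k → blk (y i₀.castSucc) = blk (y i₀.succ)) ∧
        ∀ i : Fin (k + 1), i ≠ i₀ → blk (y i.castSucc) ≠ blk (y i.succ) ∨ i₀ = Fin.last k ∧ False := by
      by_cases hex : ∃ i : Fin (k + 1), blk (y i.castSucc) = blk (y i.succ)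
      · obtain ⟨i, hi⟩ := hex
        refine ⟨i, fun _ => hi, ?_⟩
        intro j hj
        left
        intro hj'
        refine hj (hinj ?_)
        simp only [blow]
        rw [if_pos hj', if_pos hi]
      · push Not at hex
        refine ⟨Fin.last k, fun h => absurd h (by simp), fun j _ => Or.inl (hex j)⟩
    have hu' : ∀ i : Fin (k + 1), i ≠ i₀ → blk (y i.castSucc) ≠ blk (y i.succ) := by
      intro i hi
      rcases hu i hi with h | h
      · exact h
      · exact absurd h.2 id
    set z : Fin (k + 1) → Fin n := fun j => blk (y (i₀.succ.succAbove j)) with hz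
    have key : ∀ j : Fin k, z j.castSucc = blk (y (i₀.succAbove j).castSucc) ∧
        z j.succ = blk (y (i₀.succAbove j).succ) := by
      intro j
      rcases lt_or_ge j.val i₀.val with hj | hj
      · have a1 : i₀.succAbove j = j.castSucc := by
          rw [Fin.succAbove_of_castSucc_lt]
          rw [Fin.lt_def]
          simpa using hj
        have a2 : i₀.succ.succAbove j.castSucc = j.castSucc.castSucc := by
          rw [Fin.succAbove_of_castSucc_lt]
          rw [Fin.lt_def]
          simp only [Fin.val_castSucc, Fin.val_succ]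
          omega
        have a3 : i₀.succ.succAbove j.succ = j.succ.castSucc := by
          rw [Fin.succAbove_of_castSucc_lt]
          rw [Fin.lt_def]
          simp only [Fin.val_castSucc, Fin.val_succ]
          omega
        refine ⟨?_, ?_⟩
        · simp only [hz]
          rw [a1, a2]
        · simp only [hz]
          rw [a1, a3]
          rfl
      · have a1 : i₀.succAbove j = j.succ := by
          rw [Fin.succAbove_of_le_castSucc]
          rw [Fin.le_def]
          simpa using hj
        have a3 : i₀.succ.succAbove j.succ = j.succ.succ := by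
          rw [Fin.succAbove_of_le_castSucc]
          rw [Fin.le_def]
          simp only [Fin.val_castSucc, Fin.val_succ]
          omega
        refine ⟨?_, ?_⟩
        · simp only [hz]
          rw [a1]
          rcases Nat.eq_or_lt_of_le hj with h3 | h3
          · have a2 : i₀.succ.succAbove j.castSucc = j.castSucc.castSucc := by
              rw [Fin.succAbove_of_castSucc_lt]
              rw [Fin.lt_def]
              simp only [Fin.val_castSucc, Fin.val_succ]
              omega
            rw [a2]
            have h4 : j.castSucc = i₀ := Fin.ext (by simpa using h3.symm)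
            rw [h4, hi₀ (by rw [h3]; exact j.isLt)]
            congr 2
            rw [← h4]
            rfl
          · have a2 : i₀.succ.succAbove j.castSucc = j.castSucc.succ := by
              rw [Fin.succAbove_of_le_castSucc]
              rw [Fin.le_def]
              simp only [Fin.val_castSucc, Fin.val_succ]
              omega
            rw [a2]
            rfl
        · simp only [hz]
          rw [a1, a3]
    refine h2 ⟨z, ?_, ?_⟩
    · rw [Fin.strictMono_iff_lt_succ]
      intro j
      rw [(key j).1, (key j).2]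
      exact blk_lt (hy (Fin.castSucc_lt_succ)) (hu' _ (Fin.succAbove_ne i₀ j))
    · intro j j' he
      have he' : c (z j.castSucc) (z j.succ) = c (z j'.castSucc) (z j'.succ) := he
      rw [(key j).1, (key j).2, (key j').1, (key j').2] at he'
      refine Fin.succAbove_right_injective (p := i₀) (hinj ?_)
      simp only [blow]
      rw [if_neg (hu' _ (Fin.succAbove_ne i₀ j)), if_neg (hu' _ (Fin.succAbove_ne i₀ j')), he']

theorem good_one {l : ℕ} (hl : 1 ≤ l) : Good l 1 1 := by
  refine ⟨fun _ _ => 0, ?_, ?_⟩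
  · rintro ⟨x, hx, -⟩
    have h1 : x 0 < x (Fin.last l) := hx (by
      rw [Fin.lt_def, Fin.val_last]
      exact lt_of_lt_of_le (by simp) hl)
    have h2 : x 0 = x (Fin.last l) := Subsingleton.elim _ _
    exact absurd h2 h1.ne
  · rintro ⟨y, hy, -⟩
    have h1 : y 0 < y 1 := hy (by decide)
    have h2 : y 0 = y 1 := Subsingleton.elim _ _
    exact absurd h2 h1.ne

/-- **The ratio `f(l,k) / l^(k-1)` converges** if it is bounded. -/
theorem limit_of_bound {l : ℕ} (hl : 1 ≤ l) (h : ∃ C : ℕ, ∀ k n : ℕ, 1 ≤ k → C * l ^ (k - 1) < n →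
    ∀ c : Fin n → Fin n → ℕ,
      (∃ x : Fin (l + 1) → Fin n, StrictMono x ∧
        ∃ col : ℕ, ∀ i : Fin l, c (x i.castSucc) (x i.succ) = col) ∨
      (∃ y : Fin (k + 1) → Fin n, StrictMono y ∧
        Function.Injective (fun i : Fin k => c (y i.castSucc) (y i.succ)))) :
    ∃ L : ℝ, 1 ≤ L ∧ Tendsto (fun k : ℕ => (f l k : ℝ) / (l : ℝ) ^ (k - 1)) atTop (𝓝 L) ∧
      ∀ k : ℕ, 1 ≤ k → Bd l k (f l k) ∧ l * f l k ≤ f l (k + 1) ∧ l ^ (k - 1) ≤ f l k ∧
        (f l k : ℝ) ≤ L * (l : ℝ) ^ (k - 1) := by
  have hl0 : (0 : ℝ) < (l : ℝ) := by exact_mod_cast hl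
  obtain ⟨C, hC⟩ := h
  have hBd : ∀ k, 1 ≤ k → Bd l k (C * l ^ (k - 1)) := fun k hk n hn c => hC k n hk hn c
  have hmem : ∀ k, 1 ≤ k → Bd l k (f l k) := fun k hk =>
    Nat.sInf_mem (s := {N : ℕ | Bd l k N}) ⟨_, hBd k hk⟩
  have hstep : ∀ k, 1 ≤ k → l * f l k ≤ f l (k + 1) := fun k _ =>
    le_f (hBd (k + 1) (by omega)) (good_blow hl good_f)
  have hlow : ∀ k, l ^ k ≤ f l (k + 1) := by
    intro k
    induction k with
    | zero =>
      rw [pow_zero]
      exact le_f (hBd 1 le_rfl) (good_one hl)
    | succ k ih =>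
      calc l ^ (k + 1) = l * l ^ k := by ring
        _ ≤ l * f l (k + 1) := Nat.mul_le_mul_left _ ih
        _ ≤ f l (k + 1 + 1) := hstep (k + 1) (by omega)
  set a : ℕ → ℝ := fun k => (f l (k + 1) : ℝ) / (l : ℝ) ^ k with ha
  have hmono : Monotone a := by
    refine monotone_nat_of_le_succ fun k => ?_
    have h1 : (l : ℝ) * f l (k + 1) ≤ f l (k + 1 + 1) := by
      have := hstep (k + 1) (by omega)
      exact_mod_cast this
    simp only [ha]
    rw [div_le_div_iff₀ (by positivity) (by positivity), pow_succ]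
    have h2 : (0 : ℝ) < (l : ℝ) ^ k := by positivity
    nlinarith
  have hbdd : BddAbove (Set.range a) := by
    refine ⟨C, ?_⟩
    rintro _ ⟨k, rfl⟩
    have h1 : (f l (k + 1) : ℝ) ≤ C * (l : ℝ) ^ k := by
      have := f_le (hBd (k + 1) (by omega))
      rw [Nat.add_sub_cancel] at this
      exact_mod_cast this
    simp only [ha]
    rw [div_le_iff₀ (by positivity)]
    exact h1
  have htend : Tendsto a atTop (𝓝 (⨆ k, a k)) := tendsto_atTop_ciSup hmono hbdd
  refine ⟨⨆ k, a k, ?_, ?_, ?_⟩
  · refine le_trans ?_ (le_ciSup hbdd 0)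
    have h1 : (1 : ℝ) ≤ f l 1 := by
      have := hlow 0
      rw [pow_zero] at this
      exact_mod_cast this
    simpa [ha] using h1
  · rw [← tendsto_add_atTop_iff_nat 1]
    simpa [ha] using htend
  · intro k hk
    obtain ⟨k, rfl⟩ : ∃ j, k = j + 1 := ⟨k - 1, by omega⟩
    rw [Nat.add_sub_cancel]
    refine ⟨hmem _ hk, hstep _ hk, hlow k, ?_⟩
    have h1 := le_ciSup hbdd k
    simp only [ha] at h1
    rwa [div_le_iff₀ (by positivity)] at h1

/-- `f(l,k) = l^(k-1)` for all `k` if and only if the limit is `1`. -/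
theorem limit_eq_one_iff {l : ℕ} (hl : 1 ≤ l) {L : ℝ}
    (hT : Tendsto (fun k : ℕ => (f l k : ℝ) / (l : ℝ) ^ (k - 1)) atTop (𝓝 L))
    (h : ∀ k : ℕ, 1 ≤ k → l ^ (k - 1) ≤ f l k ∧ (f l k : ℝ) ≤ L * (l : ℝ) ^ (k - 1)) :
    (∀ k : ℕ, 1 ≤ k → f l k = l ^ (k - 1)) ↔ L = 1 := by
  have hl0 : (0 : ℝ) < (l : ℝ) := by exact_mod_cast hl
  constructor
  · intro hk
    refine tendsto_nhds_unique hT (Tendsto.congr' ?_ tendsto_const_nhds)
    filter_upwards [eventually_ge_atTop 1] with k h1
    rw [hk k h1]
    push_cast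
    rw [div_self (by positivity)]
  · rintro rfl k hk
    obtain ⟨h1, h2⟩ := h k hk
    rw [one_mul] at h2
    have h3 : f l k ≤ l ^ (k - 1) := by exact_mod_cast h2
    exact le_antisymm h3 h1

end FlashRainbow.LimitL
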