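import Pool.Agent.Work.MP_54723a_co.CF.Limit

/-!
# The local form of the limit theorem (helper34, idea of helper86)

For every colouring without 3-flash, `∑ v, 3 ^ (- r v) ≤ L`, where `r v` is the length of a longest
rainbow path through `v`.
-/

set_option autoImplicit false

namespace FlashRainbow.CF.Limit

open Filter Topology

/-- no 3-flash inside `S` -/
def NF (S : Finset ℕ) (c : ℕ → ℕ → ℕ) : Prop :=
  ¬ ∃ x : Fin (3 + 1) → ℕ, StrictMono x ∧ (∀ i, x i ∈ S) ∧
    ∃ col : ℕ, ∀ i : Fin 3, c (x i.castSucc) (x i.succ) = col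

/-- every rainbow path of `S` through `v` has at most `r v` arcs -/
def Thr (S : Finset ℕ) (c : ℕ → ℕ → ℕ) (r : ℕ → ℕ) : Prop :=
  ∀ (m : ℕ) (y : Fin (m + 1) → ℕ), StrictMono y → (∀ i, y i ∈ S) →
    Function.Injective (fun i : Fin m => c (y i.castSucc) (y i.succ)) → ∀ i, m ≤ r (y i)

/-- the new set: vertices with `r v < N` are tripled -/
def S3 (S : Finset ℕ) (r : ℕ → ℕ) (N : ℕ) : Finset ℕ :=
  S.biUnion fun v => if r v < N then {3 * v, 3 * v + 1, 3 * v + 2} else {3 * v}

def c3 (c : ℕ → ℕ → ℕ) (a b : ℕ) : ℕ := if a / 3 = b / 3 then 0 else c (a / 3) (b / 3) + 1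

def r3 (r : ℕ → ℕ) (N : ℕ) (a : ℕ) : ℕ := if r (a / 3) < N then r (a / 3) + 1 else r (a / 3)

variable {S : Finset ℕ} {c : ℕ → ℕ → ℕ} {r : ℕ → ℕ} {N : ℕ}

theorem mem_S3 {a : ℕ} (h : a ∈ S3 S r N) : a / 3 ∈ S ∧ (r (a / 3) < N ∨ a = 3 * (a / 3)) := by
  obtain ⟨v, hv, ha⟩ := Finset.mem_biUnion.mp h
  split_ifs at ha with hr
  · simp only [Finset.mem_insert, Finset.mem_singleton] at ha
    have h1 : a / 3 = v := by omega
    rw [h1]
    exact ⟨hv, Or.inl hr⟩
  · rw [Finset.mem_singleton] at ha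
    have h1 : a / 3 = v := by omega
    rw [h1]
    exact ⟨hv, Or.inr ha⟩

theorem nf3 (h : NF S c) : NF (S3 S r N) (c3 c) := by
  rintro ⟨x, hx, hmem, col, hcol⟩
  have h01 := hx (show (0 : Fin 4) < 1 by decide)
  have h12 := hx (show (1 : Fin 4) < 2 by decide)
  have h23 := hx (show (2 : Fin 4) < 3 by decide)
  rcases Nat.eq_zero_or_pos col with h0 | hpos
  · have key : ∀ i : Fin 3, x i.castSucc / 3 = x i.succ / 3 := by
      intro i
      by_contra hne
      have := hcol i
      rw [c3, if_neg hne, h0] at this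
      omega
    have e0 : x 0 / 3 = x 1 / 3 := key 0
    have e1 : x 1 / 3 = x 2 / 3 := key 1
    have e2 : x 2 / 3 = x 3 / 3 := key 2
    omega
  · have key : ∀ i : Fin 3, x i.castSucc / 3 ≠ x i.succ / 3 := by
      intro i he
      have := hcol i
      rw [c3, if_pos he] at this
      omega
    refine h ⟨fun i => x i / 3, Fin.strictMono_iff_lt_succ.mpr fun i => ?_,
      fun i => (mem_S3 (hmem i)).1, col - 1, fun i => ?_⟩
    · exact lt_of_le_of_ne (Nat.div_le_div_right (hx (Fin.castSucc_lt_succ)).le) (key i)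
    · have := hcol i
      rw [c3, if_neg (key i)] at this
      show c (x i.castSucc / 3) (x i.succ / 3) = col - 1
      omega

theorem thr3 (h : Thr S c r) : Thr (S3 S r N) (c3 c) (r3 r N) := by
  intro m y hy hmem hinj i
  rcases m with _ | k
  · exact Nat.zero_le _
  have hle : ∀ i j : Fin (k + 2), i ≤ j → y i / 3 ≤ y j / 3 := by
    intro i j hij
    exact Nat.div_le_div_right (hy.monotone hij)
  have hcol0 : ∀ i : Fin (k + 1), y i.castSucc / 3 = y i.succ / 3 →
      c3 c (y i.castSucc) (y i.succ) = 0 := fun i hi => by rw [c3, if_pos hi]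
  have hcol1 : ∀ i : Fin (k + 1), y i.castSucc / 3 ≠ y i.succ / 3 →
      c3 c (y i.castSucc) (y i.succ) = c (y i.castSucc / 3) (y i.succ / 3) + 1 :=
    fun i hi => by rw [c3, if_neg hi]
  by_cases hex : ∃ i₀ : Fin (k + 1), y i₀.castSucc / 3 = y i₀.succ / 3
  · obtain ⟨i₀, hi₀⟩ := hex
    have hne : ∀ i : Fin (k + 1), i ≠ i₀ → y i.castSucc / 3 ≠ y i.succ / 3 := by
      intro i hi he
      exact hi (hinj (by simp only [hcol0 i he, hcol0 i₀ hi₀]))
    have hstep : ∀ i : Fin k,
        y (i₀.succ.succAbove i.castSucc) / 3 = y (i₀.succAbove i).castSucc / 3 ∧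
        y (i₀.succ.succAbove i.succ) / 3 = y (i₀.succAbove i).succ / 3 := by
      intro i
      rcases lt_or_ge i.castSucc i₀ with hlt | hge
      · have e1 : i₀.succAbove i = i.castSucc := Fin.succAbove_of_castSucc_lt _ _ hlt
        have e2 : i₀.succ.succAbove i.castSucc = i.castSucc.castSucc :=
          Fin.succAbove_of_castSucc_lt _ _ (by
            rw [Fin.lt_def] at hlt ⊢
            simp only [Fin.val_castSucc, Fin.val_succ] at hlt ⊢
            omega)
        have e3 : i₀.succ.succAbove i.succ = i.succ.castSucc :=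
          Fin.succAbove_of_castSucc_lt _ _ (by
            rw [Fin.lt_def] at hlt ⊢
            simp only [Fin.val_castSucc, Fin.val_succ] at hlt ⊢
            omega)
        rw [e1, e2, e3]
        exact ⟨rfl, rfl⟩
      · have e1 : i₀.succAbove i = i.succ := Fin.succAbove_of_le_castSucc _ _ hge
        have e3 : i₀.succ.succAbove i.succ = i.succ.succ :=
          Fin.succAbove_of_le_castSucc _ _ (by
            rw [Fin.le_def] at hge ⊢
            simp only [Fin.val_castSucc, Fin.val_succ] at hge ⊢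
            omega)
        rw [e1, e3]
        refine ⟨?_, rfl⟩
        rcases eq_or_lt_of_le hge with heq | hlt
        · have e2 : i₀.succ.succAbove i.castSucc = i.castSucc.castSucc :=
            Fin.succAbove_of_castSucc_lt _ _ (by
              rw [Fin.lt_def]
              have := congrArg Fin.val heq
              simp only [Fin.val_castSucc, Fin.val_succ] at this ⊢
              omega)
          rw [e2, ← heq, hi₀, heq]
          rfl
        · have e2 : i₀.succ.succAbove i.castSucc = i.castSucc.succ :=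
            Fin.succAbove_of_le_castSucc _ _ (by
              rw [Fin.lt_def] at hlt
              rw [Fin.le_def]
              simp only [Fin.val_castSucc, Fin.val_succ] at hlt ⊢
              omega)
          rw [e2]
          rfl
    have hpath : ∀ j : Fin (k + 1), k ≤ r (y (i₀.succ.succAbove j) / 3) := by
      refine h k (fun j => y (i₀.succ.succAbove j) / 3)
        (Fin.strictMono_iff_lt_succ.mpr fun i => ?_) (fun j => (mem_S3 (hmem _)).1) ?_
      · obtain ⟨e1, e2⟩ := hstep i
        show y (i₀.succ.succAbove i.castSucc) / 3 < y (i₀.succ.succAbove i.succ) / 3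
        rw [e1, e2]
        exact lt_of_le_of_ne (hle _ _ (Fin.castSucc_lt_succ).le)
          (hne _ (Fin.succAbove_ne _ _))
      · intro i j hij
        obtain ⟨e1, e2⟩ := hstep i
        obtain ⟨e3, e4⟩ := hstep j
        have hij' : c (y (i₀.succ.succAbove i.castSucc) / 3)
            (y (i₀.succ.succAbove i.succ) / 3) =
            c (y (i₀.succ.succAbove j.castSucc) / 3) (y (i₀.succ.succAbove j.succ) / 3) := hij
        rw [e1, e2, e3, e4] at hij'
        refine Fin.succAbove_right_injective (p := i₀) (hinj ?_)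
        show c3 c _ _ = c3 c _ _
        rw [hcol1 _ (hne _ (Fin.succAbove_ne _ _)), hcol1 _ (hne _ (Fin.succAbove_ne _ _)), hij']
    have hall : ∀ i : Fin (k + 2), k ≤ r (y i / 3) := by
      intro i
      by_cases hi : i = i₀.succ
      · have e : i₀.succ.succAbove i₀ = i₀.castSucc :=
          Fin.succAbove_of_castSucc_lt _ _ (Fin.castSucc_lt_succ)
        have := hpath i₀
        rw [e, hi₀, ← hi] at this
        exact this
      · obtain ⟨j, hj⟩ := Fin.exists_succAbove_eq hi
        have := hpath j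
        rwa [hj] at this
    -- the block of the inner arc is tripled
    have hu : r (y i₀.succ / 3) < N := by
      rcases (mem_S3 (hmem i₀.succ)).2 with h1 | h1
      · exact h1
      · rcases (mem_S3 (hmem i₀.castSucc)).2 with h2 | h2
        · rw [hi₀] at h2
          exact h2
        · exfalso
          have h3 := hy (Fin.castSucc_lt_succ (i := i₀))
          omega
    have hkN : k + 1 ≤ N := by
      have := hall i₀.succ
      omega
    rw [r3]
    split_ifs with hr
    · have := hall i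
      omega
    · omega
  · push Not at hex
    have hpath : ∀ j : Fin (k + 2), k + 1 ≤ r (y j / 3) := by
      refine h (k + 1) (fun j => y j / 3) (Fin.strictMono_iff_lt_succ.mpr fun i => ?_)
        (fun j => (mem_S3 (hmem _)).1) ?_
      · exact lt_of_le_of_ne (hle _ _ (Fin.castSucc_lt_succ).le) (hex i)
      · intro i j hij
        have hij' : c (y i.castSucc / 3) (y i.succ / 3) =
          c (y j.castSucc / 3) (y j.succ / 3) := hij
        refine hinj ?_
        show c3 c _ _ = c3 c _ _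
        rw [hcol1 _ (hex _), hcol1 _ (hex _), hij']
    have := hpath i
    rw [r3]
    split_ifs <;> omega

theorem sum3 :
    ∑ a ∈ S3 S r N, 3 ^ (N - r3 r N a) = ∑ v ∈ S, 3 ^ (N - r v) := by
  rw [S3, Finset.sum_biUnion]
  · refine Finset.sum_congr rfl fun v hv => ?_
    have h0 : (3 * v) / 3 = v := by omega
    have h1 : (3 * v + 1) / 3 = v := by omega
    have h2 : (3 * v + 2) / 3 = v := by omega
    split_ifs with hr
    · rw [Finset.sum_insert (by simp), Finset.sum_insert (by simp), Finset.sum_singleton]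
      simp only [r3, h0, h1, h2, if_pos hr]
      obtain ⟨d, hd⟩ : ∃ d, N - r v = d + 1 := ⟨N - r v - 1, by omega⟩
      have hd' : N - (r v + 1) = d := by omega
      rw [hd, hd', pow_succ]
      ring
    · rw [Finset.sum_singleton]
      simp only [r3, h0, if_neg hr]
  · intro u _ v _ huv
    rw [Function.onFun, Finset.disjoint_left]
    intro a ha hb
    apply huv
    split_ifs at ha hb <;> simp only [Finset.mem_insert, Finset.mem_singleton] at ha hb <;> omega

/-- from a set with all `r v = N` to a good colouring -/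
theorem good_of_all {M : ℕ} (hM : S.card = M) (h : NF S c) (ht : Thr S c r)
    (hr : ∀ v ∈ S, r v ≤ N) : Good M (N + 1) := by
  let e := S.orderEmbOfFin hM
  refine ⟨fun a b => c (e a) (e b), ?_, ?_⟩
  · rintro ⟨x, hx, col, hcol⟩
    exact h ⟨fun i => e (x i), fun i j hij => e.strictMono (hx hij),
      fun i => Finset.orderEmbOfFin_mem S hM _, col, hcol⟩
  · rintro ⟨y, hy, hinj⟩
    have h1 := ht (N + 1) (fun i => e (y i)) (fun i j hij => e.strictMono (hy hij))
      (fun i => Finset.orderEmbOfFin_mem S hM _) hinj 0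
    have h2 := hr (e (y 0)) (Finset.orderEmbOfFin_mem S hM _)
    omega

theorem good_sum (j : ℕ) : ∀ (S : Finset ℕ) (c : ℕ → ℕ → ℕ) (r : ℕ → ℕ), NF S c → Thr S c r →
    (∀ v ∈ S, r v ≤ N) → (∀ v ∈ S, N ≤ r v + j) → Good (∑ v ∈ S, 3 ^ (N - r v)) (N + 1) := by
  induction j with
  | zero =>
    intro S c r h ht hr hj
    refine good_of_all ?_ h ht hr
    rw [Finset.card_eq_sum_ones]
    refine Finset.sum_congr rfl fun v hv => ?_
    have h1 := hj v hv
    have h2 : N - r v = 0 := by omega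
    rw [h2, pow_zero]
  | succ j ih =>
    intro S c r h ht hr hj
    rw [← sum3]
    refine ih _ _ _ (nf3 h) (thr3 ht) ?_ ?_
    · intro a ha
      have h1 := hr _ (mem_S3 ha).1
      rw [r3]
      split_ifs <;> omega
    · intro a ha
      have h1 := hj _ (mem_S3 ha).1
      rw [r3]
      split_ifs <;> omega

/-- the local inequality for a colouring on `Fin n` -/
theorem lym_of_good {B : ℕ → ℝ} (hB : ∀ N M : ℕ, Good M (N + 1) → (M : ℝ) ≤ B N * 3 ^ N)
    {L : ℝ} (hBL : ∀ N, B N ≤ L) (n : ℕ) (c : Fin n → Fin n → ℕ) (r : Fin n → ℕ)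
    (hf : ¬ ∃ x : Fin (3 + 1) → Fin n, StrictMono x ∧
      ∃ col : ℕ, ∀ i : Fin 3, c (x i.castSucc) (x i.succ) = col)
    (hr : ∀ (m : ℕ) (y : Fin (m + 1) → Fin n), StrictMono y →
      Function.Injective (fun i : Fin m => c (y i.castSucc) (y i.succ)) → ∀ i, m ≤ r (y i)) :
    ∑ v, (1 / 3 : ℝ) ^ r v ≤ L := by
  classical
  set c' : ℕ → ℕ → ℕ := fun a b => if h : a < n ∧ b < n then c ⟨a, h.1⟩ ⟨b, h.2⟩ else 0 with hc'
  set r' : ℕ → ℕ := fun a => if h : a < n then r ⟨a, h⟩ else 0 with hr'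
  set N : ℕ := Finset.univ.sup r with hN
  have hcv : ∀ (a b : ℕ) (ha : a < n) (hb : b < n), c' a b = c ⟨a, ha⟩ ⟨b, hb⟩ := by
    intro a b ha hb
    simp only [hc', dif_pos (And.intro ha hb)]
  have hrv : ∀ (a : ℕ) (ha : a < n), r' a = r ⟨a, ha⟩ := by
    intro a ha
    simp only [hr', dif_pos ha]
  have hNF : NF (Finset.range n) c' := by
    rintro ⟨x, hx, hmem, col, hcol⟩
    have hlt : ∀ i, x i < n := fun i => Finset.mem_range.mp (hmem i)
    refine hf ⟨fun i => ⟨x i, hlt i⟩, fun i j hij => hx hij, col, fun i => ?_⟩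
    rw [← hcv _ _ (hlt i.castSucc) (hlt i.succ)]
    exact hcol i
  have hThr : Thr (Finset.range n) c' r' := by
    intro m y hy hmem hinj i
    have hlt : ∀ i, y i < n := fun i => Finset.mem_range.mp (hmem i)
    rw [hrv _ (hlt i)]
    refine hr m (fun i => ⟨y i, hlt i⟩) (fun i j hij => hy hij) (fun i j hij => ?_) i
    refine hinj ?_
    show c' (y i.castSucc) (y i.succ) = c' (y j.castSucc) (y j.succ)
    rw [hcv _ _ (hlt _) (hlt _), hcv _ _ (hlt _) (hlt _)]
    exact hij
  have hle : ∀ v ∈ Finset.range n, r' v ≤ N := by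
    intro v hv
    rw [hrv _ (Finset.mem_range.mp hv)]
    exact Finset.le_sup (f := r) (Finset.mem_univ _)
  have h1 := hB N _ (good_sum N (Finset.range n) c' r' hNF hThr hle fun v _ => by omega)
  have h2 : ((∑ v ∈ Finset.range n, 3 ^ (N - r' v) : ℕ) : ℝ) = 3 ^ N * ∑ v, (1 / 3 : ℝ) ^ r v := by
    push_cast
    rw [Finset.mul_sum, Finset.sum_range]
    refine Finset.sum_congr rfl fun v _ => ?_
    have h3 : r v ≤ N := Finset.le_sup (f := r) (Finset.mem_univ v)
    rw [hrv v.val v.isLt, div_pow, one_pow]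
    show (3 : ℝ) ^ (N - r v) = _
    rw [pow_sub₀ _ (by norm_num) h3]
    ring
  rw [h2] at h1
  have h4 : (0 : ℝ) < 3 ^ N := by positivity
  have h5 : B N * 3 ^ N ≤ L * 3 ^ N := mul_le_mul_of_nonneg_right (hBL N) h4.le
  have h6 : 3 ^ N * ∑ v, (1 / 3 : ℝ) ^ r v ≤ 3 ^ N * L := by linarith
  exact le_of_mul_le_mul_left h6 h4

/-- **limit theorem with the local inequality** -/
theorem limit_lym (hC : ∃ C : ℕ, ∀ k n : ℕ, 1 ≤ k → C * 3 ^ (k - 1) < n →
    ∀ c : Fin n → Fin n → ℕ,
      (∃ x : Fin (3 + 1) → Fin n, StrictMono x ∧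
        ∃ col : ℕ, ∀ i : Fin 3, c (x i.castSucc) (x i.succ) = col) ∨
      (∃ y : Fin (k + 1) → Fin n, StrictMono y ∧
        Function.Injective (fun i : Fin k => c (y i.castSucc) (y i.succ)))) :
    ∃ (f : ℕ → ℕ) (L : ℝ),
      (∀ k : ℕ, 1 ≤ k →
        (∀ n : ℕ, f k < n → ∀ c : Fin n → Fin n → ℕ,
          (∃ x : Fin (3 + 1) → Fin n, StrictMono x ∧
            ∃ col : ℕ, ∀ i : Fin 3, c (x i.castSucc) (x i.succ) = col) ∨
          (∃ y : Fin (k + 1) → Fin n, StrictMono y ∧
            Function.Injective (fun i : Fin k => c (y i.castSucc) (y i.succ)))) ∧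
        (∃ c : Fin (f k) → Fin (f k) → ℕ,
          (¬ ∃ x : Fin (3 + 1) → Fin (f k), StrictMono x ∧
            ∃ col : ℕ, ∀ i : Fin 3, c (x i.castSucc) (x i.succ) = col) ∧
          (¬ ∃ y : Fin (k + 1) → Fin (f k), StrictMono y ∧
            Function.Injective (fun i : Fin k => c (y i.castSucc) (y i.succ))))) ∧
      (∀ k : ℕ, 1 ≤ k → 3 * f k ≤ f (k + 1)) ∧
      Tendsto (fun k : ℕ => (f k : ℝ) / 3 ^ (k - 1)) atTop (𝓝 L) ∧ 1 ≤ L ∧
      (∀ k : ℕ, 1 ≤ k → (f k : ℝ) ≤ L * 3 ^ (k - 1)) ∧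
      (∀ (n : ℕ) (c : Fin n → Fin n → ℕ) (r : Fin n → ℕ),
        (¬ ∃ x : Fin (3 + 1) → Fin n, StrictMono x ∧
          ∃ col : ℕ, ∀ i : Fin 3, c (x i.castSucc) (x i.succ) = col) →
        (∀ (m : ℕ) (y : Fin (m + 1) → Fin n), StrictMono y →
          Function.Injective (fun i : Fin m => c (y i.castSucc) (y i.succ)) →
            ∀ i, m ≤ r (y i)) →
        ∑ v, (1 / 3 : ℝ) ^ r v ≤ L) ∧
      (L = 1 ↔ ∀ k : ℕ, 1 ≤ k → f k = 3 ^ (k - 1)) := by
  obtain ⟨f, L, h1, h2, h3, h4, h5, h6⟩ := limit_of_bound hC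
  refine ⟨f, L, h1, h2, h3, h4, h5, ?_, h6⟩
  intro n c r hf hr
  refine lym_of_good (B := fun _ => L) ?_ (fun _ => le_rfl) n c r hf hr
  rintro N M ⟨c', hc1, hc2⟩
  have h7 : M ≤ f (N + 1) := by
    by_contra hcon
    rcases (h1 (N + 1) (by omega)).1 M (not_le.mp hcon) c' with h | h
    · exact hc1 h
    · exact hc2 h
  have h8 := h5 (N + 1) (by omega)
  rw [Nat.add_sub_cancel] at h8
  have h9 : (M : ℝ) ≤ f (N + 1) := by exact_mod_cast h7
  exact h9.trans h8

end FlashRainbow.CF.Limit
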