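import Mathlib

/-!
# The ratio `f(l,k) / l ^ (k - 1)`  (helper7)

Replacing every vertex by `l` vertices, joined by one new colour, gives
`f(l,k+1) ≥ l f(l,k)`.  So the ratio is nondecreasing, and a bound `f(l,k) ≤ C l ^ (k-1)` shows that
it converges; the conjecture `f(l,k) = l ^ (k - 1)` holds if and only if the limit is `1`.
-/

set_option autoImplicit false

namespace FlashRainbow.Lim

open Filter Topology

/-- every colouring on `n` vertices has an `l`-flash or a `k`-rainbow -/
def Unav (l k n : ℕ) : Prop :=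
  ∀ c : Fin n → Fin n → ℕ,
    (∃ x : Fin (l + 1) → Fin n, StrictMono x ∧
      ∃ col : ℕ, ∀ i : Fin l, c (x i.castSucc) (x i.succ) = col) ∨
    (∃ y : Fin (k + 1) → Fin n, StrictMono y ∧
      Function.Injective (fun i : Fin k => c (y i.castSucc) (y i.succ)))

/-- `f(l,k)`: the least integer such that for every `n > f(l,k)` every colouring on `n` vertices
has an `l`-flash or a `k`-rainbow -/
noncomputable def f (l k : ℕ) : ℕ := sInf {m : ℕ | ∀ n : ℕ, m < n → Unav l k n}

/-- no path of positive length in a vertex set which is too small -/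
theorem not_unav_of_lt {l k n : ℕ} (h : n < l + 1) (h' : n < k + 1) : ¬ Unav l k n := by
  intro H
  rcases H (fun _ _ => 0) with ⟨x, hx, _⟩ | ⟨y, hy, _⟩
  · have := Fintype.card_le_of_injective x hx.injective
    simp only [Fintype.card_fin] at this
    omega
  · have := Fintype.card_le_of_injective y hy.injective
    simp only [Fintype.card_fin] at this
    omega

/-- **`l` copies of every vertex** -/
theorem blow {l k n : ℕ} (hl : 1 ≤ l) (h : ¬ Unav l k n) : ¬ Unav l (k + 1) (l * n) := by
  unfold Unav at h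
  push Not at h
  obtain ⟨c, hflash, hrain⟩ := h
  have hb : ∀ a : Fin (l * n), (a : ℕ) / l < n := fun a =>
    Nat.div_lt_of_lt_mul a.2
  set bl : Fin (l * n) → Fin n := fun a => ⟨(a : ℕ) / l, hb a⟩ with hbl
  intro H
  rcases H (fun a b => if bl a = bl b then 0 else c (bl a) (bl b) + 1) with
    ⟨x, hx, col, hcol⟩ | ⟨y, hy, hinj⟩
  · by_cases h0 : col = 0
    · have h1 : ∀ i : Fin l, ((x i.castSucc : Fin (l * n)) : ℕ) / l = (x i.succ : ℕ) / l := by
        intro i
        have h2 := hcol i
        rw [h0] at h2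
        by_cases h3 : bl (x i.castSucc) = bl (x i.succ)
        · simpa [hbl] using h3
        · simp [h3] at h2
      have h2 : ∀ i : Fin l, ((x i.castSucc : Fin (l * n)) : ℕ) < (x i.succ : ℕ) := fun i =>
        hx (Fin.castSucc_lt_succ)
      have h3 : ∀ i : Fin (l + 1), (x 0 : ℕ) + i ≤ (x i : ℕ) ∧ (x i : ℕ) / l = (x 0 : ℕ) / l := by
        intro i
        induction i using Fin.induction with
        | zero => exact ⟨by simp, rfl⟩
        | succ i ih =>
          have a1 := h1 i
          have a2 := h2 i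
          simp only [Fin.val_castSucc, Fin.val_succ] at ih ⊢
          exact ⟨by omega, a1 ▸ ih.2⟩
      obtain ⟨a1, a2⟩ := h3 (Fin.last l)
      rw [Fin.val_last] at a1
      have a3 := Nat.div_le_div_right (c := l) a1
      rw [Nat.add_div_right _ (by omega), a2] at a3
      omega
    · have h1 : ∀ i : Fin l, bl (x i.castSucc) ≠ bl (x i.succ) := by
        intro i h2
        have h3 := hcol i
        simp only [h2, if_true] at h3
        exact h0 h3.symm
      obtain ⟨i, hi⟩ := hflash (fun i => bl (x i)) (by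
        rw [Fin.strictMono_iff_lt_succ]
        intro i
        refine lt_of_le_of_ne ?_ (h1 i)
        have h2 : (x i.castSucc : ℕ) ≤ (x i.succ : ℕ) := (hx (Fin.castSucc_lt_succ)).le
        exact Fin.mk_le_mk.mpr (Nat.div_le_div_right h2)) (col - 1)
      refine hi ?_
      have h3 := hcol i
      simp only [h1 i, if_false] at h3
      show c (bl (x i.castSucc)) (bl (x i.succ)) = col - 1
      omega
  · -- the point `i₀` is dropped
    have hmono : ∀ i : Fin (k + 1), bl (y i.castSucc) ≤ bl (y i.succ) := by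
      intro i
      have h2 : (y i.castSucc : ℕ) ≤ (y i.succ : ℕ) := (hy (Fin.castSucc_lt_succ)).le
      exact Fin.mk_le_mk.mpr (Nat.div_le_div_right h2)
    by_cases hex : ∃ i₀ : Fin (k + 1), bl (y i₀.castSucc) = bl (y i₀.succ)
    · obtain ⟨i₀, hi₀⟩ := hex
      have hne : ∀ i : Fin (k + 1), i ≠ i₀ → bl (y i.castSucc) ≠ bl (y i.succ) := by
        intro i hi h1
        refine hi (hinj ?_)
        simp only [h1, hi₀, if_true]
      -- the two end points of the `i`-th step after dropping
      have hstep : ∀ i : Fin k,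
          bl (y (i₀.succ.succAbove i.castSucc)) = bl (y (i₀.succAbove i).castSucc) ∧
          bl (y (i₀.succ.succAbove i.succ)) = bl (y (i₀.succAbove i).succ) := by
        intro i
        rcases lt_trichotomy (i.castSucc) i₀ with h1 | h1 | h1
        · have e1 : i₀.succ.succAbove i.castSucc = i.castSucc.castSucc := by
            rw [Fin.succAbove_of_castSucc_lt]
            rw [Fin.lt_def] at h1 ⊢
            simp only [Fin.val_castSucc, Fin.val_succ] at h1 ⊢
            omega
          have e2 : i₀.succ.succAbove i.succ = i.succ.castSucc := by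
            rw [Fin.succAbove_of_castSucc_lt]
            rw [Fin.lt_def] at h1 ⊢
            simp only [Fin.val_castSucc, Fin.val_succ] at h1 ⊢
            omega
          have e3 : i₀.succAbove i = i.castSucc := Fin.succAbove_of_castSucc_lt _ _ h1
          rw [e1, e2, e3]
          exact ⟨rfl, rfl⟩
        · have e1 : i₀.succ.succAbove i.castSucc = i₀.castSucc := by
            rw [Fin.succAbove_of_castSucc_lt, h1]
            rw [Fin.lt_def]
            have := congrArg Fin.val h1
            simp only [Fin.val_castSucc, Fin.val_succ] at this ⊢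
            omega
          have e2 : i₀.succ.succAbove i.succ = i.succ.succ := by
            rw [Fin.succAbove_of_le_castSucc]
            rw [Fin.le_def]
            have := congrArg Fin.val h1
            simp only [Fin.val_castSucc, Fin.val_succ] at this ⊢
            omega
          have e3 : i₀.succAbove i = i.succ := Fin.succAbove_of_le_castSucc _ _ h1.ge
          rw [e1, e2, e3, hi₀]
          refine ⟨?_, rfl⟩
          congr 2
          rw [← h1]
          rfl
        · have e1 : i₀.succ.succAbove i.castSucc = i.castSucc.succ := by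
            rw [Fin.succAbove_of_le_castSucc]
            rw [Fin.lt_def] at h1
            rw [Fin.le_def]
            simp only [Fin.val_castSucc, Fin.val_succ] at h1 ⊢
            omega
          have e2 : i₀.succ.succAbove i.succ = i.succ.succ := by
            rw [Fin.succAbove_of_le_castSucc]
            rw [Fin.lt_def] at h1
            rw [Fin.le_def]
            simp only [Fin.val_castSucc, Fin.val_succ] at h1 ⊢
            omega
          have e3 : i₀.succAbove i = i.succ := Fin.succAbove_of_le_castSucc _ _ h1.le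
          rw [e1, e2, e3]
          exact ⟨rfl, rfl⟩
      refine hrain (fun j => bl (y (i₀.succ.succAbove j))) ?_ ?_
      · rw [Fin.strictMono_iff_lt_succ]
        intro i
        obtain ⟨e1, e2⟩ := hstep i
        show bl (y (i₀.succ.succAbove i.castSucc)) < bl (y (i₀.succ.succAbove i.succ))
        rw [e1, e2]
        exact lt_of_le_of_ne (hmono _) (hne _ (Fin.succAbove_ne _ _))
      · intro i j hij
        obtain ⟨e1, e2⟩ := hstep i
        obtain ⟨e3, e4⟩ := hstep j
        simp only [e1, e2, e3, e4] at hij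
        refine Fin.succAbove_right_injective (p := i₀) (hinj ?_)
        simp only [hne _ (Fin.succAbove_ne i₀ i), hne _ (Fin.succAbove_ne i₀ j), if_false, hij]
    · push Not at hex
      refine hrain (fun j => bl (y j.castSucc)) ?_ ?_
      · rw [Fin.strictMono_iff_lt_succ]
        intro i
        exact lt_of_le_of_ne (hmono i.castSucc) (hex i.castSucc)
      · intro i j hij
        have hij' : c (bl (y i.castSucc.castSucc)) (bl (y i.castSucc.succ)) =
            c (bl (y j.castSucc.castSucc)) (bl (y j.castSucc.succ)) := hij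
        refine Fin.castSucc_injective _ (hinj ?_)
        simp only [hex i.castSucc, hex j.castSucc, if_false, hij']

section

variable {l : ℕ} (hl : 1 ≤ l)
  (hK : ∃ C : ℕ, ∀ k n : ℕ, 1 ≤ k → C * l ^ (k - 1) < n → Unav l k n)

include hK

theorem f_mem {k : ℕ} (hk : 1 ≤ k) : ∀ n : ℕ, f l k < n → Unav l k n := by
  obtain ⟨C, hC⟩ := hK
  have hne : {m : ℕ | ∀ n : ℕ, m < n → Unav l k n}.Nonempty :=
    ⟨C * l ^ (k - 1), fun n hn => hC k n hk hn⟩
  exact Nat.sInf_mem hne

theorem not_unav_f {k : ℕ} (hk : 1 ≤ k) : ¬ Unav l k (f l k) := by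
  have h1 := f_mem hK hk
  rcases Nat.eq_zero_or_pos (f l k) with h0 | h0
  · rw [h0]
    exact not_unav_of_lt (by omega) (by omega)
  · intro hU
    have h2 : f l k - 1 ∈ {m : ℕ | ∀ n : ℕ, m < n → Unav l k n} := by
      intro n hn
      rcases Nat.lt_or_ge (f l k) n with h3 | h3
      · exact h1 n h3
      · have h4 : n = f l k := by omega
        rw [h4]
        exact hU
    have h3 : f l k ≤ f l k - 1 := Nat.sInf_le h2
    omega

include hl

theorem mul_f_le {k : ℕ} (hk : 1 ≤ k) : l * f l k ≤ f l (k + 1) := by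
  by_contra hcon
  push Not at hcon
  exact blow hl (not_unav_f hK hk) (f_mem hK (by omega) _ hcon)

theorem one_le_f_one : 1 ≤ f l 1 := by
  by_contra hcon
  exact not_unav_of_lt (by omega) (by norm_num) (f_mem hK le_rfl 1 (by omega))

theorem pow_le_f {k : ℕ} (hk : 1 ≤ k) : l ^ (k - 1) ≤ f l k := by
  induction k, hk using Nat.le_induction with
  | base => simpa using one_le_f_one hl hK
  | succ k hk ih =>
    have h1 := mul_f_le hl hK hk
    have h2 : l ^ (k + 1 - 1) = l * l ^ (k - 1) := by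
      rw [← pow_succ']
      congr 1
      omega
    rw [h2]
    exact (Nat.mul_le_mul_left l ih).trans h1

/-- **The limit of `f(l,k) / l ^ (k - 1)`.** -/
theorem limit_ratio :
    ∃ κ : ℝ, 1 ≤ κ ∧
      (∀ k : ℕ, 1 ≤ k → (l : ℝ) ^ (k - 1) ≤ f l k ∧ (f l k : ℝ) ≤ κ * l ^ (k - 1)) ∧
      (∀ k : ℕ, 1 ≤ k → (f l k : ℝ) / l ^ (k - 1) ≤ (f l (k + 1) : ℝ) / l ^ k) ∧
      Tendsto (fun k : ℕ => (f l k : ℝ) / l ^ (k - 1)) atTop (𝓝 κ) ∧
      (κ = 1 ↔ ∀ k : ℕ, 1 ≤ k → f l k = l ^ (k - 1)) := by
  obtain ⟨C, hC⟩ := id hK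
  have hfC : ∀ k : ℕ, 1 ≤ k → f l k ≤ C * l ^ (k - 1) := fun k hk =>
    Nat.sInf_le fun n hn => hC k n hk hn
  set a : ℕ → ℝ := fun k => (f l (k + 1) : ℝ) / l ^ k with ha
  have hl0 : (0 : ℝ) < l := by exact_mod_cast hl
  have hpos : ∀ k : ℕ, (0 : ℝ) < l ^ k := fun k => by positivity
  have hmono : Monotone a := by
    refine monotone_nat_of_le_succ fun k => ?_
    have h1 := mul_f_le hl hK (k := k + 1) (by omega)
    have h2 : (l : ℝ) * f l (k + 1) ≤ f l (k + 1 + 1) := by exact_mod_cast h1
    show (f l (k + 1) : ℝ) / l ^ k ≤ (f l (k + 1 + 1) : ℝ) / l ^ (k + 1)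
    rw [div_le_div_iff₀ (hpos k) (hpos (k + 1)), pow_succ]
    calc (f l (k + 1) : ℝ) * (l ^ k * l) = (l * f l (k + 1)) * l ^ k := by ring
      _ ≤ f l (k + 1 + 1) * l ^ k := mul_le_mul_of_nonneg_right h2 (hpos k).le
  have hbdd : BddAbove (Set.range a) := by
    refine ⟨C, ?_⟩
    rintro _ ⟨k, rfl⟩
    have h1 := hfC (k + 1) (by omega)
    rw [Nat.add_sub_cancel] at h1
    have h2 : (f l (k + 1) : ℝ) ≤ C * l ^ k := by exact_mod_cast h1
    show (f l (k + 1) : ℝ) / l ^ k ≤ C
    rwa [div_le_iff₀ (hpos k)]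
  have hlim := tendsto_atTop_ciSup hmono hbdd
  have hle : ∀ k : ℕ, a k ≤ ⨆ i, a i := fun k => le_ciSup hbdd k
  have ha1 : 1 ≤ a 0 := by
    have h1 : (1 : ℝ) ≤ f l 1 := by exact_mod_cast one_le_f_one hl hK
    simpa [ha] using h1
  have hupper : ∀ k : ℕ, 1 ≤ k → (f l k : ℝ) ≤ (⨆ i, a i) * l ^ (k - 1) := by
    intro k hk
    have h1 := hle (k - 1)
    have h2 : a (k - 1) = (f l k : ℝ) / l ^ (k - 1) := by
      show (f l (k - 1 + 1) : ℝ) / l ^ (k - 1) = _
      rw [Nat.sub_add_cancel hk]
    rw [h2, div_le_iff₀ (hpos _)] at h1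
    exact h1
  have hlower : ∀ k : ℕ, 1 ≤ k → (l : ℝ) ^ (k - 1) ≤ f l k := fun k hk => by
    exact_mod_cast pow_le_f hl hK hk
  refine ⟨⨆ i, a i, ha1.trans (hle 0), fun k hk => ⟨hlower k hk, hupper k hk⟩, ?_, ?_, ?_⟩
  · intro k hk
    have h1 := hmono (show k - 1 ≤ k by omega)
    have h2 : a (k - 1) = (f l k : ℝ) / l ^ (k - 1) := by
      show (f l (k - 1 + 1) : ℝ) / l ^ (k - 1) = _
      rw [Nat.sub_add_cancel hk]
    rw [h2] at h1
    exact h1
  · rw [← tendsto_add_atTop_iff_nat 1]
    simpa [ha] using hlim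
  · constructor
    · intro h1 k hk
      have h2 := hupper k hk
      rw [h1, one_mul] at h2
      have h3 := hlower k hk
      have h4 : (f l k : ℝ) = l ^ (k - 1) := le_antisymm h2 h3
      exact_mod_cast h4
    · intro h1
      refine le_antisymm (ciSup_le fun k => ?_) (ha1.trans (hle 0))
      have h2 := h1 (k + 1) (by omega)
      show (f l (k + 1) : ℝ) / l ^ k ≤ 1
      rw [h2, Nat.add_sub_cancel]
      push_cast
      rw [div_self (hpos k).ne']

/-- **Final form**: `f(l,k)` is well defined, `f(l,k) ≤ κ l ^ (k - 1)` for every `k`, and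
`f(l,k) / l ^ (k - 1)` increases to `κ`. -/
theorem limit_final :
    ∃ κ : ℝ, 1 ≤ κ ∧
      (∀ k : ℕ, 1 ≤ k → (∀ n : ℕ, f l k < n → Unav l k n) ∧ ¬ Unav l k (f l k) ∧
        (f l k : ℝ) ≤ κ * l ^ (k - 1)) ∧
      Tendsto (fun k : ℕ => (f l k : ℝ) / l ^ (k - 1)) atTop (𝓝 κ) ∧
      (κ = 1 ↔ ∀ k : ℕ, 1 ≤ k → f l k = l ^ (k - 1)) := by
  obtain ⟨κ, h1, h2, _, h4, h5⟩ := limit_ratio hl hK
  exact ⟨κ, h1, fun k hk => ⟨f_mem hK hk, not_unav_f hK hk, (h2 k hk).2⟩, h4, h5⟩

end

/-- the case `l = 3`, literal numerals -/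
theorem limit_final_three
    (hK : ∃ C : ℕ, ∀ k n : ℕ, 1 ≤ k → C * 3 ^ (k - 1) < n → Unav 3 k n) :
    ∃ κ : ℝ, 1 ≤ κ ∧
      (∀ k : ℕ, 1 ≤ k → (∀ n : ℕ, f 3 k < n → Unav 3 k n) ∧ ¬ Unav 3 k (f 3 k) ∧
        (f 3 k : ℝ) ≤ κ * 3 ^ (k - 1)) ∧
      Tendsto (fun k : ℕ => (f 3 k : ℝ) / 3 ^ (k - 1)) atTop (𝓝 κ) ∧
      (κ = 1 ↔ ∀ k : ℕ, 1 ≤ k → f 3 k = 3 ^ (k - 1)) := by
  have h := limit_final (l := 3) (by norm_num) hK
  simpa using h

end FlashRainbow.Lim
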