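import Pool.Agent.Work.MP_54723a_co.CF.H1

/-!
# Constant factor: almost all points of a thick class are ends of long rainbow paths  (helper91)

Source: helper34 (note 8748), greedy selection of helper53 (`H3Long.lean`), hubs of helper96.

`X` is free of the colours of `K` and lies behind a hub `x`; all label classes of `X` and all
out-classes `{w ∈ X : u < w, c u w = g}` with `g ≠ c x u` have at most `τ` points. Then for all but
few points `s` of `X` there is a rainbow path of `X` into `s` with `n` arcs whose palette does not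
contain the label `c x s`.
-/

set_option autoImplicit false

namespace FlashRainbow.CF

open Classical

variable {c : ℕ → ℕ → ℕ} {V Q X S K F : Finset ℕ} {f : ℕ → ℕ} {R t τ n x : ℕ}

/-- the points chosen so far -/
structure Sel3 (c : ℕ → ℕ → ℕ) (Q : Finset ℕ) (f : ℕ → ℕ) (S : Finset ℕ) : Prop where
  sub : S ⊆ Q
  inj : ∀ u ∈ S, ∀ v ∈ S, f u = f v → u = v
  fut : ∀ a ∈ S, ∀ b ∈ S, ∀ w ∈ S, a < b → b < w → f w ≠ c a b
  dif : ∀ u ∈ S, ∀ v ∈ S, u < v → c u v ≠ f u → ∀ a ∈ S, ∀ b ∈ S, a < b → c a b ≠ f a →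
    v ≠ b → c u v ≠ c a b

/-- one more point -/
theorem Sel3.extend (hS : Sel3 c Q f S) {n β : ℕ} (hn : S.card = n)
    (hlab : ∀ l, (Q.filter fun v => f v = l).card ≤ τ)
    (hout : ∀ u ∈ Q, ∀ φ, φ ≠ f u → (Q.filter fun v => u < v ∧ c u v = φ).card ≤ τ)
    (hβ : (n + n * n + n * (n * n)) * τ ≤ β)
    (hlow : (Q.filter fun v => ∃ w ∈ S, v ≤ w).card ≤ n * (β + 1))
    (hQ : (n + 1) * (β + 1) ≤ Q.card) :
    ∃ w ∈ Q, w ∉ S ∧ Sel3 c Q f (insert w S) ∧
      (Q.filter fun v => ∃ w' ∈ insert w S, v ≤ w').card ≤ (n + 1) * (β + 1) := by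
  obtain ⟨Φ, hΦ⟩ : ∃ Φ : Finset ℕ, Φ = (S ×ˢ S).image fun p => c p.1 p.2 := ⟨_, rfl⟩
  have hΦc : Φ.card ≤ n * n := by
    rw [hΦ]
    refine Finset.card_image_le.trans ?_
    rw [Finset.card_product, hn]
  obtain ⟨B1, hB1⟩ : ∃ B1 : Finset ℕ, B1 = Φ.biUnion fun l => Q.filter fun v => f v = l := ⟨_, rfl⟩
  obtain ⟨B2, hB2⟩ : ∃ B2 : Finset ℕ, B2 = S.biUnion fun u => Q.filter fun v => f v = f u :=
    ⟨_, rfl⟩
  obtain ⟨B3, hB3⟩ : ∃ B3 : Finset ℕ, B3 = S.biUnion fun u => (Φ.erase (f u)).biUnion fun φ =>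
    Q.filter fun v => u < v ∧ c u v = φ := ⟨_, rfl⟩
  have hc1 : B1.card ≤ n * n * τ := by
    rw [hB1]
    exact (Finset.card_biUnion_le_card_mul _ _ _ fun l _ => hlab l).trans
      (Nat.mul_le_mul_right τ hΦc)
  have hc2 : B2.card ≤ n * τ := by
    rw [hB2, ← hn]
    exact Finset.card_biUnion_le_card_mul _ _ _ fun u _ => hlab (f u)
  have hc3 : B3.card ≤ n * ((n * n) * τ) := by
    rw [hB3, ← hn]
    refine Finset.card_biUnion_le_card_mul _ _ _ fun u hu => ?_
    have h1 : ((Φ.erase (f u)).biUnion fun φ => Q.filter fun v => u < v ∧ c u v = φ).card ≤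
        (Φ.erase (f u)).card * τ :=
      Finset.card_biUnion_le_card_mul _ _ _ fun φ hφ =>
        hout u (hS.sub hu) φ (Finset.ne_of_mem_erase hφ)
    refine h1.trans (Nat.mul_le_mul_right τ ?_)
    rw [hn]
    exact (Finset.card_erase_le).trans hΦc
  obtain ⟨Bad, hBad⟩ : ∃ Bad : Finset ℕ, Bad = B1 ∪ B2 ∪ B3 := ⟨_, rfl⟩
  have hBc : Bad.card ≤ β := by
    rw [hBad]
    refine (Finset.card_union_le _ _).trans ?_
    refine (Nat.add_le_add_right (Finset.card_union_le _ _) _).trans ?_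
    have h1 : (n + n * n + n * (n * n)) * τ = n * n * τ + n * τ + n * ((n * n) * τ) := by ring
    omega
  obtain ⟨L, hL⟩ : ∃ L : Finset ℕ, L = Q.filter fun v => ∃ w ∈ S, v ≤ w := ⟨_, rfl⟩
  rw [← hL] at hlow
  have hne : ((Q \ L) \ Bad).Nonempty := by
    rw [← Finset.card_pos]
    have h1 : Q.card ≤ L.card + (Q \ L).card := by
      have h2 : Q ⊆ L ∪ (Q \ L) := by
        intro v hv
        by_cases h : v ∈ L
        · exact Finset.mem_union_left _ h
        · exact Finset.mem_union_right _ (Finset.mem_sdiff.mpr ⟨hv, h⟩)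
      exact (Finset.card_le_card h2).trans (Finset.card_union_le _ _)
    have h2 : (Q \ L).card ≤ Bad.card + ((Q \ L) \ Bad).card := by
      have h3 : Q \ L ⊆ Bad ∪ ((Q \ L) \ Bad) := by
        intro v hv
        by_cases h : v ∈ Bad
        · exact Finset.mem_union_left _ h
        · exact Finset.mem_union_right _ (Finset.mem_sdiff.mpr ⟨hv, h⟩)
      exact (Finset.card_le_card h3).trans (Finset.card_union_le _ _)
    have h4 : (n + 1) * (β + 1) = n * (β + 1) + β + 1 := by ring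
    omega
  obtain ⟨w, hw⟩ : ∃ w, w = ((Q \ L) \ Bad).min' hne := ⟨_, rfl⟩
  have hwm : w ∈ (Q \ L) \ Bad := by
    rw [hw]
    exact Finset.min'_mem _ _
  rw [Finset.mem_sdiff, Finset.mem_sdiff] at hwm
  obtain ⟨⟨hwQ, hwL⟩, hwB⟩ := hwm
  have hSw : ∀ u ∈ S, u < w := by
    intro u hu
    by_contra hcon
    push Not at hcon
    refine hwL ?_
    rw [hL]
    exact Finset.mem_filter.mpr ⟨hwQ, u, hu, hcon⟩
  have hwS : w ∉ S := fun h => lt_irrefl _ (hSw w h)
  have hSΦ : ∀ a ∈ S, ∀ b ∈ S, c a b ∈ Φ := by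
    intro a ha b hb
    rw [hΦ]
    exact Finset.mem_image.mpr ⟨(a, b), Finset.mem_product.mpr ⟨ha, hb⟩, rfl⟩
  have hwB1 : f w ∉ Φ := by
    intro h
    refine hwB ?_
    rw [hBad, hB1]
    exact Finset.mem_union_left _ (Finset.mem_union_left _ (Finset.mem_biUnion.mpr
      ⟨f w, h, Finset.mem_filter.mpr ⟨hwQ, rfl⟩⟩))
  have hwB2 : ∀ u ∈ S, f w ≠ f u := by
    intro u hu h
    refine hwB ?_
    rw [hBad, hB2]
    exact Finset.mem_union_left _ (Finset.mem_union_right _ (Finset.mem_biUnion.mpr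
      ⟨u, hu, Finset.mem_filter.mpr ⟨hwQ, h⟩⟩))
  have hwB3 : ∀ u ∈ S, c u w ≠ f u → c u w ∉ Φ := by
    intro u hu h1 h
    refine hwB ?_
    rw [hBad, hB3]
    exact Finset.mem_union_right _ (Finset.mem_biUnion.mpr ⟨u, hu, Finset.mem_biUnion.mpr
      ⟨c u w, Finset.mem_erase.mpr ⟨h1, h⟩, Finset.mem_filter.mpr ⟨hwQ, hSw u hu, rfl⟩⟩⟩)
  have hltS : ∀ a ∈ insert w S, ∀ b ∈ insert w S, a < b → a ∈ S := by
    intro a ha b hb hab
    rcases Finset.mem_insert.mp ha with rfl | ha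
    · rcases Finset.mem_insert.mp hb with rfl | hb
      · exact absurd hab (lt_irrefl _)
      · exact absurd hab (not_lt.mpr (hSw b hb).le)
    · exact ha
  refine ⟨w, hwQ, hwS, ⟨?_, ?_, ?_, ?_⟩, ?_⟩
  · exact Finset.insert_subset hwQ hS.sub
  · intro u hu v hv h
    rcases Finset.mem_insert.mp hu with rfl | hu1 <;> rcases Finset.mem_insert.mp hv with rfl | hv1
    · rfl
    · exact absurd h (hwB2 v hv1)
    · exact absurd h.symm (hwB2 u hu1)
    · exact hS.inj u hu1 v hv1 h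
  · intro a ha b hb w' hw' hab hbw
    have ha' := hltS a ha b hb hab
    have hb' := hltS b hb w' hw' hbw
    rcases Finset.mem_insert.mp hw' with rfl | hw1
    · exact fun he => hwB1 (he ▸ hSΦ a ha' b hb')
    · exact hS.fut a ha' b hb' w' hw1 hab hbw
  · intro u hu v hv huv h a ha b hb hab h' hvb
    have hu' := hltS u hu v hv huv
    have ha' := hltS a ha b hb hab
    rcases Finset.mem_insert.mp hv with rfl | hv1 <;> rcases Finset.mem_insert.mp hb with rfl | hb1
    · exact absurd rfl hvb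
    · intro he
      exact hwB3 u hu' h (he ▸ hSΦ a ha' b hb1)
    · intro he
      exact hwB3 a ha' h' (he ▸ hSΦ u hu' v hv1)
    · exact hS.dif u hu' v hv1 huv h a ha' b hb1 hab h' hvb
  · have h1 : (Q.filter fun v => ∃ w' ∈ insert w S, v ≤ w') ⊆ insert w (L ∪ Bad) := by
      intro v hv
      obtain ⟨hvQ, w', hw', hle⟩ := Finset.mem_filter.mp hv
      by_cases hvL : v ∈ L
      · exact Finset.mem_insert_of_mem (Finset.mem_union_left _ hvL)
      by_cases hvB : v ∈ Bad
      · exact Finset.mem_insert_of_mem (Finset.mem_union_right _ hvB)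
      have h2 : w ≤ v := by
        rw [hw]
        exact Finset.min'_le _ _ (Finset.mem_sdiff.mpr ⟨Finset.mem_sdiff.mpr ⟨hvQ, hvL⟩, hvB⟩)
      have h3 : v ≤ w := by
        rcases Finset.mem_insert.mp hw' with rfl | hw'
        · exact hle
        · exact hle.trans (hSw w' hw').le
      rw [le_antisymm h3 h2]
      exact Finset.mem_insert_self _ _
    refine (Finset.card_le_card h1).trans ?_
    refine (Finset.card_insert_le _ _).trans ?_
    have h2 := Finset.card_union_le L Bad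
    have h4 : (n + 1) * (β + 1) = n * (β + 1) + β + 1 := by ring
    omega

/-- the selection -/
theorem exists_sel3 (N : ℕ) (hlab : ∀ l, (Q.filter fun v => f v = l).card ≤ τ)
    (hout : ∀ u ∈ Q, ∀ φ, φ ≠ f u → (Q.filter fun v => u < v ∧ c u v = φ).card ≤ τ)
    (hQ : N * ((N + N * N + N * (N * N)) * τ + 1) ≤ Q.card) :
    ∃ S, S.card = N ∧ Sel3 c Q f S := by
  obtain ⟨β, hβ⟩ : ∃ β, β = (N + N * N + N * (N * N)) * τ := ⟨_, rfl⟩
  rw [← hβ] at hQ
  have hsel : ∀ n ≤ N, ∃ S, S.card = n ∧ Sel3 c Q f S ∧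
      (Q.filter fun v => ∃ w ∈ S, v ≤ w).card ≤ n * (β + 1) := by
    intro n
    induction n with
    | zero =>
      intro _
      refine ⟨∅, rfl, ⟨by simp, by simp, by simp, by simp⟩, ?_⟩
      simp
    | succ n ih =>
      intro hn
      obtain ⟨S, h1, h2, h3⟩ := ih (by omega)
      have hn' : n ≤ N := by omega
      have h4 : (n + n * n + n * (n * n)) * τ ≤ β := by
        rw [hβ]
        refine Nat.mul_le_mul_right τ ?_
        have h5 : n * n ≤ N * N := Nat.mul_le_mul hn' hn'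
        have h6 : n * (n * n) ≤ N * (N * N) := Nat.mul_le_mul hn' h5
        omega
      obtain ⟨w, hw, hwS, h5, h6⟩ := h2.extend h1 hlab hout h4 h3
        (le_trans (Nat.mul_le_mul_right _ hn) hQ)
      refine ⟨insert w S, ?_, h5, h6⟩
      rw [Finset.card_insert_of_notMem hwS, h1]
  obtain ⟨S, h1, h2, -⟩ := hsel N le_rfl
  exact ⟨S, h1, h2⟩

/-- chains with a given end -/
inductive ChE (P : ℕ → ℕ → Prop) (S : Finset ℕ) : ℕ → ℕ → Prop
  | zero {v : ℕ} : v ∈ S → ChE P S v 0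
  | succ {v w n : ℕ} : ChE P S v n → w ∈ S → v < w → P v w → ChE P S w (n + 1)

theorem ChE.mem {P : ℕ → ℕ → Prop} {v n : ℕ} (h : ChE P S v n) : v ∈ S := by
  cases h with
  | zero h => exact h
  | succ _ h _ _ => exact h

theorem rank_lt {P : ℕ → ℕ → Prop} {m : ℕ} (hP : ∀ v, ¬ ChE P S v m) :
    (∀ v ∈ S, Nat.findGreatest (ChE P S v) m < m) ∧
    ∀ u ∈ S, ∀ v ∈ S, u < v → P u v →
      Nat.findGreatest (ChE P S u) m < Nat.findGreatest (ChE P S v) m := by
  have h0 : ∀ v ∈ S, ChE P S v (Nat.findGreatest (ChE P S v) m) := fun v hv =>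
    Nat.findGreatest_spec (P := ChE P S v) (Nat.zero_le m) (ChE.zero hv)
  have h1 : ∀ v ∈ S, Nat.findGreatest (ChE P S v) m < m := by
    intro v hv
    refine lt_of_le_of_ne (Nat.findGreatest_le m) fun h => ?_
    have h3 := h0 v hv
    rw [h] at h3
    exact hP v h3
  refine ⟨h1, fun u hu v hv huv hPuv => ?_⟩
  exact Nat.le_findGreatest (h1 u hu) (ChE.succ (h0 u hu) hv huv hPuv)

/-- three kinds of arcs -/
theorem three_kinds (P₁ P₂ P₃ : ℕ → ℕ → Prop) {m₁ m₂ m₃ : ℕ}
    (hP : ∀ u ∈ S, ∀ v ∈ S, u < v → P₁ u v ∨ P₂ u v ∨ P₃ u v) (h : m₁ * (m₂ * m₃) < S.card) :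
    (∃ v, ChE P₁ S v m₁) ∨ (∃ v, ChE P₂ S v m₂) ∨ ∃ v, ChE P₃ S v m₃ := by
  by_contra hcon
  push Not at hcon
  obtain ⟨h1, h2, h3⟩ := hcon
  obtain ⟨a1, b1⟩ := rank_lt h1
  obtain ⟨a2, b2⟩ := rank_lt h2
  obtain ⟨a3, b3⟩ := rank_lt h3
  have h4 : S.card ≤ (Finset.range m₁ ×ˢ (Finset.range m₂ ×ˢ Finset.range m₃)).card := by
    refine Finset.card_le_card_of_injOn (fun v => (Nat.findGreatest (ChE P₁ S v) m₁,
      (Nat.findGreatest (ChE P₂ S v) m₂, Nat.findGreatest (ChE P₃ S v) m₃))) (fun v hv => ?_) ?_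
    · rw [Finset.mem_coe, Finset.mem_product, Finset.mem_product, Finset.mem_range,
        Finset.mem_range, Finset.mem_range]
      exact ⟨a1 v hv, a2 v hv, a3 v hv⟩
    · have key : ∀ u ∈ S, ∀ v ∈ S, u < v →
          Nat.findGreatest (ChE P₁ S u) m₁ = Nat.findGreatest (ChE P₁ S v) m₁ →
          Nat.findGreatest (ChE P₂ S u) m₂ = Nat.findGreatest (ChE P₂ S v) m₂ →
          Nat.findGreatest (ChE P₃ S u) m₃ = Nat.findGreatest (ChE P₃ S v) m₃ → False := by
        intro u hu v hv huv e1 e2 e3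
        rcases hP u hu v hv huv with h | h | h
        · have := b1 u hu v hv huv h
          omega
        · have := b2 u hu v hv huv h
          omega
        · have := b3 u hu v hv huv h
          omega
      intro u hu v hv huv
      simp only [Prod.mk.injEq] at huv
      by_contra hne
      rcases lt_or_gt_of_ne hne with hlt | hlt
      · exact key u hu v hv hlt huv.1 huv.2.1 huv.2.2
      · exact key v hv u hu hlt huv.1.symm huv.2.1.symm huv.2.2.symm
  rw [Finset.card_product, Finset.card_product, Finset.card_range, Finset.card_range,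
    Finset.card_range] at h4
  omega

/-- chains of arcs coloured by the label of the tail -/
theorem Sel3.own (hS : Sel3 c Q f S) {w n : ℕ} (h : ChE (fun a b => c a b = f a) S w n) :
    ∃ D, RP c Q w D ∧ D.card = n ∧ ∀ γ ∈ D, ∃ a ∈ S, a < w ∧ γ = f a := by
  induction h with
  | zero hv => exact ⟨∅, RP.single (hS.sub hv), rfl, by simp⟩
  | @succ v w n h hw hlt hP ih =>
    obtain ⟨D, h1, h2, h3⟩ := ih
    have hv := h.mem
    have hP' : c v w = f v := hP
    have hn : c v w ∉ D := by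
      intro hmem
      obtain ⟨a, ha, hav, he⟩ := h3 _ hmem
      have := hS.inj v hv a ha (by rw [← hP', he])
      omega
    refine ⟨insert (c v w) D, RP.step h1 (hS.sub hw) hlt hn, ?_, ?_⟩
    · rw [Finset.card_insert_of_notMem hn, h2]
    · intro γ hγ
      rcases Finset.mem_insert.mp hγ with rfl | hγ'
      · exact ⟨v, hv, hlt, hP'⟩
      · obtain ⟨a, ha, hav, he⟩ := h3 γ hγ'
        exact ⟨a, ha, by omega, he⟩

/-- chains of arcs coloured neither by the label of the tail nor by the label of the head -/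
theorem Sel3.other (hS : Sel3 c Q f S) {w n : ℕ}
    (h : ChE (fun a b => c a b ≠ f a ∧ c a b ≠ f b) S w n) :
    ∃ D, RP c Q w D ∧ D.card = n ∧
      ∀ γ ∈ D, ∃ a ∈ S, ∃ b ∈ S, a < b ∧ b ≤ w ∧ c a b ≠ f a ∧ c a b ≠ f b ∧ γ = c a b := by
  induction h with
  | zero hv => exact ⟨∅, RP.single (hS.sub hv), rfl, by simp⟩
  | @succ v w n h hw hlt hP ih =>
    obtain ⟨D, h1, h2, h3⟩ := ih
    have hv := h.mem
    have hP1 : c v w ≠ f v := hP.1
    have hP2 : c v w ≠ f w := hP.2
    have hn : c v w ∉ D := by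
      intro hmem
      obtain ⟨a, ha, b, hb, hab, hbv, hfa, hfb, he⟩ := h3 _ hmem
      exact hS.dif v hv w hw hlt hP1 a ha b hb hab hfa (by omega) he
    refine ⟨insert (c v w) D, RP.step h1 (hS.sub hw) hlt hn, ?_, ?_⟩
    · rw [Finset.card_insert_of_notMem hn, h2]
    · intro γ hγ
      rcases Finset.mem_insert.mp hγ with rfl | hγ'
      · exact ⟨v, hv, w, hw, hlt, le_rfl, hP1, hP2, rfl⟩
      · obtain ⟨a, ha, b, hb, hab, hbv, hfa, hfb, he⟩ := h3 γ hγ'
        exact ⟨a, ha, b, hb, hab, by omega, hfa, hfb, he⟩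

/-- chains of arcs coloured by the label of the head are short behind a hub -/
theorem Sel3.into (hS : Sel3 c Q (fun v => c x v) S) (hH : Hub c V x K F) (hQV : Q ⊆ V)
    (hx : ∀ v ∈ Q, x < v) (hQK : Fre c Q K) (hF : ∀ v ∈ Q, c x v ∉ F) {w n : ℕ}
    (h : ChE (fun a b => c a b = c x b) S w n) :
    ∃ D, RP c V w D ∧ K.card + n ≤ D.card ∧ ∀ γ ∈ D, γ ∈ K ∨ ∃ a ∈ S, a ≤ w ∧ γ = c x a := by
  induction h with
  | @zero v hv =>
    have hvQ := hS.sub hv
    have h1 := hH.2 (K.erase (c x v)) (fun y hy => Finset.mem_erase.mpr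
      ⟨fun he => hF v hvQ (he ▸ hy), hH.1 hy⟩) (Finset.erase_subset _ _)
    refine ⟨insert (c x v) (K.erase (c x v)), RP.step h1 (hQV hvQ) (hx v hvQ)
      (Finset.notMem_erase _ _), ?_, ?_⟩
    · rw [Finset.card_insert_of_notMem (Finset.notMem_erase _ _)]
      have := Finset.pred_card_le_card_erase (s := K) (a := c x v)
      omega
    · intro γ hγ
      rcases Finset.mem_insert.mp hγ with rfl | hγ'
      · exact Or.inr ⟨v, hv, le_rfl, rfl⟩
      · exact Or.inl (Finset.mem_of_mem_erase hγ')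
  | @succ v w n h hw hlt hP ih =>
    obtain ⟨D, h1, h2, h3⟩ := ih
    have hv := h.mem
    have hP' : c v w = c x w := hP
    have hn : c v w ∉ D := by
      intro hmem
      rcases h3 _ hmem with h4 | ⟨a, ha, hav, he⟩
      · exact hQK _ h4 v (hS.sub hv) w (hS.sub hw) hlt rfl
      · have h5 : w = a := hS.inj w hw a ha (by
          show c x w = c x a
          rw [← hP', he])
        omega
    refine ⟨insert (c v w) D, RP.step h1 (hQV (hS.sub hw)) hlt hn, ?_, ?_⟩
    · rw [Finset.card_insert_of_notMem hn]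
      omega
    · intro γ hγ
      rcases Finset.mem_insert.mp hγ with rfl | hγ'
      · exact Or.inr ⟨w, hw, le_rfl, hP'⟩
      · rcases h3 γ hγ' with h4 | ⟨a, ha, hav, he⟩
        · exact Or.inl h4
        · exact Or.inr ⟨a, ha, by omega, he⟩

/-- number of points of the selection -/
def nE (t n : ℕ) : ℕ := n * ((t + 1) * n) + 1

/-- bound for the number of exceptional points -/
def bE (t n τ : ℕ) : ℕ :=
  nE t n * ((nE t n + nE t n * nE t n + nE t n * (nE t n * nE t n)) * τ + 1)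

/-- **LONG END.** Almost all points `s` of a `K`-free set behind a hub without thick label classes
and thick foreign out-classes are ends of rainbow paths with `n` arcs avoiding the label of `s`. -/
theorem long_end (hH : Hub c V x K F) (hR : Rk c V R) (ht : R ≤ K.card + t) (hXV : X ⊆ V)
    (hx : ∀ v ∈ X, x < v) (hXK : Fre c X K) (hF : ∀ v ∈ X, c x v ∉ F)
    (hlab : ∀ g, (X.filter fun v => c x v = g).card ≤ τ)
    (hout : ∀ u ∈ X, ∀ g, g ≠ c x u → (X.filter fun v => u < v ∧ c u v = g).card ≤ τ) (n : ℕ) :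
    (X.filter fun s => ¬ ∃ C, RP c X s C ∧ C.card = n ∧ c x s ∉ C).card < bE t n τ := by
  by_contra hcon'
  have hcon := not_lt.mp hcon'
  set Q := X.filter fun s => ¬ ∃ C, RP c X s C ∧ C.card = n ∧ c x s ∉ C with hQ
  have hQX : Q ⊆ X := Finset.filter_subset _ _
  obtain ⟨S, hSc, hS⟩ := exists_sel3 (c := c) (Q := Q) (f := fun v => c x v) (τ := τ) (nE t n)
    (fun l => (Finset.card_le_card (Finset.filter_subset_filter _ hQX)).trans (hlab l))
    (fun u hu φ hφ => (Finset.card_le_card (Finset.filter_subset_filter _ hQX)).trans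
      (hout u (hQX hu) φ hφ)) hcon
  have h3 := three_kinds (S := S) (fun a b => c a b = c x a) (fun a b => c a b = c x b)
    (fun a b => c a b ≠ c x a ∧ c a b ≠ c x b) (m₁ := n) (m₂ := t + 1) (m₃ := n)
    (fun u _ v _ _ => by tauto) (by rw [hSc]; unfold nE; omega)
  rcases h3 with ⟨w, hw⟩ | ⟨w, hw⟩ | ⟨w, hw⟩
  · obtain ⟨D, h4, h5, h6⟩ := hS.own hw
    refine (Finset.mem_filter.mp (hS.sub hw.mem)).2 ⟨D, h4.mono hQX, h5, ?_⟩
    intro hmem
    obtain ⟨a, ha, haw, he⟩ := h6 _ hmem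
    have := hS.inj w hw.mem a ha he
    omega
  · obtain ⟨D, h4, h5, -⟩ := hS.into hH (hQX.trans hXV) (fun v hv => hx v (hQX hv))
      (hXK.mono hQX (le_refl _)) (fun v hv => hF v (hQX hv)) hw
    have := hR _ _ h4
    omega
  · obtain ⟨D, h4, h5, h6⟩ := hS.other hw
    refine (Finset.mem_filter.mp (hS.sub hw.mem)).2 ⟨D, h4.mono hQX, h5, ?_⟩
    intro hmem
    obtain ⟨a, ha, b, hb, hab, hbw, hfa, hfb, he⟩ := h6 _ hmem
    rcases Nat.lt_or_eq_of_le hbw with h7 | h7
    · exact hS.fut a ha b hb w hw.mem hab h7 he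
    · rw [h7] at hfb he
      exact hfb he.symm

end FlashRainbow.CF

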