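import Pool.Agent.Work.MP_54723a_co.CF.Layer

/-!
# Constant factor, measure route: almost every point is the END of a long rainbow path  (helper88)

`x` a hub with palette `K`, `X` a `K`-free set behind `x`, all label classes and all out-classes of
colours different from the label are small.  Then all but few points `s` of `X` are the end of a
rainbow path of `X` with `e` arcs whose palette avoids `K` and the label `c x s`.
-/

set_option autoImplicit false

namespace FlashRainbow.CF

open Classical

variable {c : ℕ → ℕ → ℕ} {V X Z K F A C D : Finset ℕ} {R t m n e τ σ x y s u : ℕ} {f : ℕ → ℕ}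

/-- a path of label arcs in an almost-star, continued to `e` arcs -/
theorem star_end_aux (hstar : ∀ u ∈ C, (C.filter fun v => u < v ∧ c u v ≠ f u).card ≤ σ)
    (hlab : ∀ g, (C.filter fun v => f v = g).card ≤ τ) (e : ℕ) :
    ∀ j k u D, RP c C u D → D.card = k → f u ∉ D → k + j = e →
      j * (σ + (e + 1) * τ + 1) < (C.filter fun v => u < v).card →
      ∃ s D', RP c C s D' ∧ D'.card = e ∧ f s ∉ D' := by
  intro j
  induction j with
  | zero =>
    intro k u D hD hk hf hke _
    exact ⟨u, D, hD, by omega, hf⟩
  | succ j ih =>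
    intro k u D hD hk hf hke hbig
    have huC : u ∈ C := hD.mem
    set b := j * (σ + (e + 1) * τ + 1) with hb
    set W := C.filter fun v => (C.filter fun w => v < w).card ≤ b with hW
    set B1 := C.filter fun v => u < v ∧ c u v ≠ f u with hB1
    set B2 := (insert (f u) D).biUnion fun g => C.filter fun v => f v = g with hB2
    have hWc : W.card ≤ b + 1 := card_late_le C b
    have hB1c : B1.card ≤ σ := hstar u huC
    have hB2c : B2.card ≤ (e + 1) * τ := by
      refine (Finset.card_biUnion_le_card_mul _ _ τ (fun g _ => hlab g)).trans ?_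
      exact Nat.mul_le_mul_right _ ((Finset.card_insert_le _ _).trans (by omega))
    have hex : ∃ v ∈ C.filter fun v => u < v, v ∉ W ∪ (B1 ∪ B2) := by
      by_contra hno
      push Not at hno
      have h1 := Finset.card_le_card (s := C.filter fun v => u < v) (t := W ∪ (B1 ∪ B2)) hno
      have h2 := Finset.card_union_le W (B1 ∪ B2)
      have h3 := Finset.card_union_le B1 B2
      have h6 : (j + 1) * (σ + (e + 1) * τ + 1) = b + (σ + (e + 1) * τ + 1) := by
        rw [hb]; ring
      rw [h6] at hbig
      omega
    obtain ⟨v, hv, hvno⟩ := hex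
    obtain ⟨hvC, huv⟩ := Finset.mem_filter.mp hv
    rw [Finset.mem_union, Finset.mem_union, not_or, not_or] at hvno
    obtain ⟨hvW, hvB1, hvB2⟩ := hvno
    have hcuv : c u v = f u := by
      by_contra hne
      exact hvB1 (Finset.mem_filter.mpr ⟨hvC, huv, hne⟩)
    have hfv : f v ∉ insert (f u) D := by
      intro hmem
      exact hvB2 (Finset.mem_biUnion.mpr ⟨f v, hmem, Finset.mem_filter.mpr ⟨hvC, rfl⟩⟩)
    have hvb : b < (C.filter fun w => v < w).card := by
      by_contra hle
      exact hvW (Finset.mem_filter.mpr ⟨hvC, by omega⟩)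
    have hstep : RP c C v (insert (f u) D) := by
      have h1 := RP.step hD hvC huv (by rw [hcuv]; exact hf)
      rwa [hcuv] at h1
    exact ih (k + 1) v (insert (f u) D) hstep (by rw [Finset.card_insert_of_notMem hf, hk]) hfv
      (by omega) hvb

/-- in an almost-star with small label classes there is a point which is the end of a path with `e`
arcs avoiding its own label -/
theorem star_end (hstar : ∀ u ∈ C, (C.filter fun v => u < v ∧ c u v ≠ f u).card ≤ σ)
    (hlab : ∀ g, (C.filter fun v => f v = g).card ≤ τ) (e : ℕ)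
    (hC : e * (σ + (e + 1) * τ + 1) + 1 < C.card) :
    ∃ s D, RP c C s D ∧ D.card = e ∧ f s ∉ D := by
  set b := e * (σ + (e + 1) * τ + 1) with hb
  have h1 := card_late_le C b
  have hex : ∃ u ∈ C, u ∉ C.filter fun v => (C.filter fun w => v < w).card ≤ b := by
    by_contra hno
    push Not at hno
    have h2 := Finset.card_le_card (s := C)
      (t := C.filter fun v => (C.filter fun w => v < w).card ≤ b) hno
    omega
  obtain ⟨u, huC, hu⟩ := hex
  have hub : b < (C.filter fun w => u < w).card := by
    by_contra hle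
    exact hu (Finset.mem_filter.mpr ⟨huC, by omega⟩)
  exact star_end_aux hstar hlab e e 0 u ∅ (RP.single huC) rfl (Finset.notMem_empty _) (by omega) hub

/-- **LONG END**: all but few points of a `K`-free set without junctions are the end of a rainbow path
with `e` arcs whose palette avoids `K` and the label of the end. -/
theorem Hub.long_end (h : Hub c V x K F) (hR : Rk c V R) (hXV : X ⊆ V) (hxX : ∀ v ∈ X, x < v)
    (hXK : Fre c X K) (hF : ∀ v ∈ X, c x v ∉ F) (ht : R ≤ K.card + t)
    (hlab : ∀ g, (X.filter fun v => c x v = g).card ≤ τ)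
    (hout : ∀ v ∈ X, ∀ g, g ≠ c x v → (X.filter fun w => v < w ∧ c v w = g).card ≤ τ) (e : ℕ) :
    (X.filter fun s => ¬ ∃ D, RP c X s D ∧ D.card = e ∧ Disjoint D K ∧ c x s ∉ D).card ≤
      (t + 1) * (e * ((t + 1) * τ + (e + 1) * τ + 1) + 1) := by
  set Q := X.filter fun s => ¬ ∃ D, RP c X s D ∧ D.card = e ∧ Disjoint D K ∧ c x s ∉ D with hQ
  have hQX : Q ⊆ X := Finset.filter_subset _ _
  obtain ⟨C, hCQ, hC, hstar⟩ := h.star (X := Q) hR (hQX.trans hXV) (fun v hv => hxX v (hQX hv))
    (hXK.mono hQX (le_refl _)) (fun v hv => hF v (hQX hv)) ht (τ := τ) (by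
      intro v hv g hg
      refine (Finset.card_le_card ?_).trans (hout v (hQX hv) g hg)
      exact Finset.filter_subset_filter _ hQX)
  have hCX := hCQ.trans hQX
  have hlabC : ∀ g, (C.filter fun v => c x v = g).card ≤ τ := fun g =>
    (Finset.card_le_card (Finset.filter_subset_filter _ hCX)).trans (hlab g)
  refine hC.trans (Nat.mul_le_mul_left _ ?_)
  by_contra hlt
  obtain ⟨s, D, hD, hDc, hDs⟩ := star_end (c := c) (f := fun v => c x v) hstar hlabC e (by omega)
  have hsQ : s ∈ Q := hCQ hD.mem
  refine (Finset.mem_filter.mp hsQ).2 ⟨D, hD.mono hCX, hDc, ?_, hDs⟩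
  rw [Finset.disjoint_right]
  intro γ hγ
  exact (hD.mono hCX).notMem_of_free (hXK γ hγ)

end FlashRainbow.CF
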