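import Pool.Agent.Work.MP_54723a_co.CF.H1

/-!
# Long rainbow paths in a class without thick out-classes  (helper56)

`X` with labels `f`; every out-class of `u` in `X` of a colour different from `f u` is small, every
label class is small, and IN-paths (`c u v = f v`) are short. Then from all but few points of `X`
there are very long rainbow paths of `X`. Source: helper63 (132570), helper78 (8718, GAP 3).
-/

set_option autoImplicit false

namespace FlashRainbow.CF

open Classical

variable {c : ℕ → ℕ → ℕ} {X W W' A S B D : Finset ℕ} {f : ℕ → ℕ} {τ t m n s u w z : ℕ}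

/-- IN-paths with different labels; `D` is the set of the labels of all points -/
inductive INP (c : ℕ → ℕ → ℕ) (f : ℕ → ℕ) (W : Finset ℕ) : ℕ → Finset ℕ → Prop
  | single {w : ℕ} : w ∈ W → INP c f W w {f w}
  | step {w z : ℕ} {D : Finset ℕ} : INP c f W w D → z ∈ W → w < z → c w z = f z → f z ∉ D →
      INP c f W z (insert (f z) D)

theorem INP.mem (h : INP c f W w D) : w ∈ W := by
  cases h with
  | single h => exact h
  | step _ h _ _ _ => exact h

theorem INP.mono (h : INP c f W w D) (hW : W ⊆ X) : INP c f X w D := by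
  induction h with
  | single h => exact INP.single (hW h)
  | step _ h1 h2 h3 h4 ih => exact INP.step ih (hW h1) h2 h3 h4

theorem INP.card_pos (h : INP c f W w D) : 1 ≤ D.card := by
  cases h with
  | single h => simp
  | step _ _ _ _ h4 => rw [Finset.card_insert_of_notMem h4]; omega

theorem INP.labels (h : INP c f W w D) : ∀ g ∈ D, ∃ v ∈ W, v ≤ w ∧ f v = g := by
  induction h with
  | @single w h =>
    intro g hg
    rw [Finset.mem_singleton] at hg
    exact ⟨w, h, le_refl _, hg.symm⟩
  | @step w z D _ hz hlt _ _ ih =>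
    intro g hg
    rcases Finset.mem_insert.mp hg with rfl | hg
    · exact ⟨z, hz, le_refl _, rfl⟩
    · obtain ⟨v, h1, h2, h3⟩ := ih g hg
      exact ⟨v, h1, by omega, h3⟩

/-- the points from which almost everything is IN are few -/
theorem card_inDom_le (h2 : ∀ g, (X.filter fun v => f v = g).card ≤ τ)
    (h3 : ∀ w D, INP c f X w D → D.card ≤ t) (hB : B ⊆ X)
    (hs : ∀ u ∈ B, (X.filter fun w => u < w ∧ c u w ≠ f w).card ≤ s) :
    B.card ≤ t * (s + τ + 1) := by
  by_contra hcon
  push Not at hcon
  have key : ∀ k, k ≤ t → ∃ w ∈ B, ∃ D, INP c f X w D ∧ D.card = k + 1 ∧ ∃ B' ⊆ B,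
      (∀ v ∈ B', w < v ∧ c w v = f v ∧ f v ∉ D) ∧ B.card ≤ B'.card + (k + 1) * (s + τ + 1) := by
    intro k
    induction k with
    | zero =>
      intro _
      have hne : B.Nonempty := by
        rw [← Finset.card_pos]
        omega
      have hmin := Finset.min'_mem B hne
      refine ⟨B.min' hne, hmin, {f (B.min' hne)}, INP.single (hB hmin), by simp, 
        B.filter (fun v => B.min' hne < v ∧ c (B.min' hne) v = f v ∧ f v ≠ f (B.min' hne)),
        Finset.filter_subset _ _, ?_, ?_⟩
      · intro v hv
        obtain ⟨_, h4, h5, h6⟩ := Finset.mem_filter.mp hv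
        exact ⟨h4, h5, by simpa using h6⟩
      · have h4 : B ⊆ (B.filter (fun v => B.min' hne < v ∧ c (B.min' hne) v = f v ∧
            f v ≠ f (B.min' hne))) ∪ ((X.filter fun w => B.min' hne < w ∧
            c (B.min' hne) w ≠ f w) ∪ ((X.filter fun v => f v = f (B.min' hne)) ∪
            {B.min' hne})) := by
          intro v hv
          have h5 := Finset.min'_le B v hv
          simp only [Finset.mem_union, Finset.mem_filter, Finset.mem_singleton]
          have h6 := hB hv
          by_cases h7 : v = B.min' hne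
          · exact Or.inr (Or.inr (Or.inr h7))
          · have h8 : B.min' hne < v := lt_of_le_of_ne h5 (Ne.symm h7)
            by_cases h9 : c (B.min' hne) v = f v
            · by_cases h10 : f v = f (B.min' hne)
              · exact Or.inr (Or.inr (Or.inl ⟨h6, h10⟩))
              · exact Or.inl ⟨hv, h8, h9, h10⟩
            · exact Or.inr (Or.inl ⟨h6, h8, h9⟩)
        have h5 := (Finset.card_le_card h4).trans (Finset.card_union_le _ _)
        have h6 := Finset.card_union_le (X.filter fun w => B.min' hne < w ∧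
            c (B.min' hne) w ≠ f w) ((X.filter fun v => f v = f (B.min' hne)) ∪
            {B.min' hne})
        have h7 := Finset.card_union_le (X.filter fun v => f v = f (B.min' hne)) 
            {B.min' hne}
        have h8 := hs _ hmin
        have h9 := h2 (f (B.min' hne))
        rw [Finset.card_singleton] at h7
        omega
    | succ k ih =>
      intro hk
      obtain ⟨w, hw, D, hD, hDc, B', hB', hB'p, hB'c⟩ := ih (by omega)
      have hlt : (k + 1) * (s + τ + 1) < B.card :=
        lt_of_le_of_lt (Nat.mul_le_mul_right _ hk) hcon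
      have hne : B'.Nonempty := by
        rw [← Finset.card_pos]
        omega
      have hmin := Finset.min'_mem B' hne
      obtain ⟨h4, h5, h6⟩ := hB'p _ hmin
      refine ⟨B'.min' hne, hB' hmin, insert (f (B'.min' hne)) D,
        INP.step hD (hB (hB' hmin)) h4 h5 h6, ?_, 
        B'.filter (fun v => B'.min' hne < v ∧ c (B'.min' hne) v = f v ∧ f v ≠ f (B'.min' hne)),
        (Finset.filter_subset _ _).trans hB', ?_, ?_⟩
      · rw [Finset.card_insert_of_notMem h6, hDc]
      · intro v hv
        obtain ⟨h7, h8, h9, h10⟩ := Finset.mem_filter.mp hv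
        refine ⟨h8, h9, ?_⟩
        rw [Finset.mem_insert, not_or]
        exact ⟨h10, (hB'p v h7).2.2⟩
      · have h7 : B' ⊆ (B'.filter (fun v => B'.min' hne < v ∧ c (B'.min' hne) v = f v ∧
            f v ≠ f (B'.min' hne))) ∪ ((X.filter fun w => B'.min' hne < w ∧
            c (B'.min' hne) w ≠ f w) ∪ ((X.filter fun v => f v = f (B'.min' hne)) ∪
            {B'.min' hne})) := by
          intro v hv
          have h5 := Finset.min'_le B' v hv
          simp only [Finset.mem_union, Finset.mem_filter, Finset.mem_singleton]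
          have h6 := hB (hB' hv)
          by_cases h7 : v = B'.min' hne
          · exact Or.inr (Or.inr (Or.inr h7))
          · have h8 : B'.min' hne < v := lt_of_le_of_ne h5 (Ne.symm h7)
            by_cases h9 : c (B'.min' hne) v = f v
            · by_cases h10 : f v = f (B'.min' hne)
              · exact Or.inr (Or.inr (Or.inl ⟨h6, h10⟩))
              · exact Or.inl ⟨hv, h8, h9, h10⟩
            · exact Or.inr (Or.inl ⟨h6, h8, h9⟩)
        have h8 := (Finset.card_le_card h7).trans (Finset.card_union_le _ _)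
        have h9 := Finset.card_union_le (X.filter fun w => B'.min' hne < w ∧
            c (B'.min' hne) w ≠ f w) ((X.filter fun v => f v = f (B'.min' hne)) ∪
            {B'.min' hne})
        have h10 := Finset.card_union_le (X.filter fun v => f v = f (B'.min' hne)) 
            {B'.min' hne}
        have h11 := hs _ (hB' hmin)
        have h12 := h2 (f (B'.min' hne))
        rw [Finset.card_singleton] at h10
        have h13 : (k + 1 + 1) * (s + τ + 1) = (k + 1) * (s + τ + 1) + (s + τ + 1) := by ring
        omega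
  obtain ⟨w, hw, D, hD, hDc, _⟩ := key t (le_refl _)
  have := h3 w D hD
  omega

/-- a large subset without IN pairs (Gallai-Roy) -/
theorem exists_inFree (hinj : ∀ v ∈ W, ∀ v' ∈ W, f v = f v' → v = v')
    (h3 : ∀ w D, INP c f W w D → D.card ≤ t) :
    ∃ W' ⊆ W, W.card ≤ t * W'.card ∧ ∀ w ∈ W', ∀ z ∈ W', w < z → c w z ≠ f z := by
  let dep : ℕ → ℕ := fun w => Nat.findGreatest (fun k => ∃ D, INP c f W w D ∧ D.card = k) t
  have hdep : ∀ w ∈ W, dep w ∈ Finset.Icc 1 t := by
    intro w hw
    rw [Finset.mem_Icc]
    refine ⟨?_, Nat.findGreatest_le _⟩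
    have h4 := h3 w _ (INP.single hw)
    exact Nat.le_findGreatest (by simpa using h4) ⟨{f w}, INP.single hw, by simp⟩
  have hsum : W.card = ∑ b ∈ Finset.Icc 1 t, (W.filter fun w => dep w = b).card :=
    Finset.card_eq_sum_card_fiberwise hdep
  rcases Nat.eq_zero_or_pos t with ht | ht
  · refine ⟨∅, Finset.empty_subset _, ?_, by simp⟩
    rw [hsum, ht]
    simp
  obtain ⟨b, hb, hmax⟩ := Finset.exists_max_image (Finset.Icc 1 t)
    (fun b => (W.filter fun w => dep w = b).card) ⟨1, by rw [Finset.mem_Icc]; omega⟩
  refine ⟨W.filter fun w => dep w = b, Finset.filter_subset _ _, ?_, ?_⟩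
  · rw [hsum]
    refine (Finset.sum_le_card_nsmul _ _ _ hmax).trans ?_
    simp
  · intro w hw z hz hlt he
    obtain ⟨hw1, hw2⟩ := Finset.mem_filter.mp hw
    obtain ⟨hz1, hz2⟩ := Finset.mem_filter.mp hz
    have h5 : ∃ D, INP c f W w D ∧ D.card = dep w := by
      have h6 := Nat.findGreatest_spec (P := fun k => ∃ D, INP c f W w D ∧ D.card = k) (m := 1)
        (n := t) ht ⟨{f w}, INP.single hw1, by simp⟩
      exact h6
    obtain ⟨D, hD, hDc⟩ := h5
    have h6 : f z ∉ D := by
      intro hmem
      obtain ⟨v, h7, h8, h9⟩ := hD.labels _ hmem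
      have := hinj v h7 z hz1 h9
      omega
    have h7 := INP.step hD hz1 hlt he h6
    have h8 : dep w + 1 ≤ dep z := by
      refine Nat.le_findGreatest ?_ ⟨_, h7, ?_⟩
      · have := h3 z _ h7
        rw [Finset.card_insert_of_notMem h6, hDc] at this
        exact this
      · rw [Finset.card_insert_of_notMem h6, hDc]
    omega

/-! ### greedy selection -/

/-- the colours seen so far -/
def Ucol (c : ℕ → ℕ → ℕ) (f : ℕ → ℕ) (u : ℕ) (A W : Finset ℕ) : Finset ℕ :=
  ((W ×ˢ W).image fun p => c p.1 p.2) ∪ (W.image f ∪ (W.image (c u) ∪ A))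

theorem Ucol_mono (h : W ⊆ W') : Ucol c f u A W ⊆ Ucol c f u A W' := by
  unfold Ucol
  refine Finset.union_subset_union (Finset.image_subset_image (Finset.product_subset_product h h))
    (Finset.union_subset_union (Finset.image_subset_image h)
      (Finset.union_subset_union (Finset.image_subset_image h) (le_refl _)))

theorem card_Ucol_le : (Ucol c f u A W).card ≤ W.card * W.card + 2 * W.card + A.card := by
  unfold Ucol
  have h1 := Finset.card_union_le ((W ×ˢ W).image fun p => c p.1 p.2)
    (W.image f ∪ (W.image (c u) ∪ A))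
  have h2 := Finset.card_union_le (W.image f) (W.image (c u) ∪ A)
  have h3 := Finset.card_union_le (W.image (c u)) A
  have h4 : ((W ×ˢ W).image fun p => c p.1 p.2).card ≤ W.card * W.card := by
    refine Finset.card_image_le.trans ?_
    rw [Finset.card_product]
  have h5 : (W.image f).card ≤ W.card := Finset.card_image_le
  have h6 : (W.image (c u)).card ≤ W.card := Finset.card_image_le
  omega

theorem mem_Ucol_pair {a b : ℕ} (ha : a ∈ W) (hb : b ∈ W) : c a b ∈ Ucol c f u A W := by
  unfold Ucol
  refine Finset.mem_union_left _ (Finset.mem_image.mpr ⟨(a, b), ?_, rfl⟩)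
  exact Finset.mem_product.mpr ⟨ha, hb⟩

theorem mem_Ucol_root {b : ℕ} (hb : b ∈ W) : c u b ∈ Ucol c f u A W := by
  unfold Ucol
  exact Finset.mem_union_right _ (Finset.mem_union_right _ (Finset.mem_union_left _
    (Finset.mem_image.mpr ⟨b, hb, rfl⟩)))

theorem subset_Ucol : A ⊆ Ucol c f u A W := by
  unfold Ucol
  intro a ha
  exact Finset.mem_union_right _ (Finset.mem_union_right _ (Finset.mem_union_right _ ha))

theorem mem_Ucol_label {b : ℕ} (hb : b ∈ W) : f b ∈ Ucol c f u A W := by
  unfold Ucol
  exact Finset.mem_union_right _ (Finset.mem_union_left _ (Finset.mem_image.mpr ⟨b, hb, rfl⟩))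

/-- the selection property -/
def Sel (c : ℕ → ℕ → ℕ) (f : ℕ → ℕ) (u : ℕ) (A W : Finset ℕ) : Prop :=
  ∀ z ∈ W, f z ∉ Ucol c f u A (W.filter (· < z)) ∧
    ∀ w ∈ W, w < z → c w z ∈ Ucol c f u A (W.filter (· < z)) → c w z = f w

/-- the excluded points -/
def Exc (c : ℕ → ℕ → ℕ) (f : ℕ → ℕ) (u : ℕ) (A X W : Finset ℕ) : Finset ℕ :=
  (X.filter fun v => f v ∈ Ucol c f u A W) ∪
    X.filter fun v => ∃ w ∈ W, w < v ∧ c w v ∈ Ucol c f u A W ∧ c w v ≠ f w

theorem Exc_mono (h : W ⊆ W') : Exc c f u A X W ⊆ Exc c f u A X W' := by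
  unfold Exc
  intro v hv
  rcases Finset.mem_union.mp hv with h1 | h1
  · obtain ⟨h2, h3⟩ := Finset.mem_filter.mp h1
    exact Finset.mem_union_left _ (Finset.mem_filter.mpr ⟨h2, Ucol_mono h h3⟩)
  · obtain ⟨h2, w, h3, h4, h5, h6⟩ := Finset.mem_filter.mp h1
    exact Finset.mem_union_right _ (Finset.mem_filter.mpr ⟨h2, w, h h3, h4, Ucol_mono h h5, h6⟩)

theorem card_Exc_le (h1 : ∀ u ∈ X, ∀ φ, φ ≠ f u → (X.filter fun v => u < v ∧ c u v = φ).card ≤ τ)
    (h2 : ∀ g, (X.filter fun v => f v = g).card ≤ τ) (hW : W ⊆ X) :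
    (Exc c f u A X W).card ≤ (W.card + 1) * (W.card * W.card + 2 * W.card + A.card) * τ := by
  have h4 : (X.filter fun v => f v ∈ Ucol c f u A W).card ≤ (Ucol c f u A W).card * τ := by
    have h5 : (X.filter fun v => f v ∈ Ucol c f u A W) ⊆
        (Ucol c f u A W).biUnion fun g => X.filter fun v => f v = g := by
      intro v hv
      obtain ⟨h6, h7⟩ := Finset.mem_filter.mp hv
      exact Finset.mem_biUnion.mpr ⟨f v, h7, Finset.mem_filter.mpr ⟨h6, rfl⟩⟩
    exact (Finset.card_le_card h5).trans (Finset.card_biUnion_le_card_mul _ _ _ fun g _ => h2 g)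
  have h5 : (X.filter fun v => ∃ w ∈ W, w < v ∧ c w v ∈ Ucol c f u A W ∧ c w v ≠ f w).card ≤
      W.card * ((Ucol c f u A W).card * τ) := by
    have h6 : (X.filter fun v => ∃ w ∈ W, w < v ∧ c w v ∈ Ucol c f u A W ∧ c w v ≠ f w) ⊆
        W.biUnion fun w => ((Ucol c f u A W).filter (· ≠ f w)).biUnion fun φ =>
          X.filter fun v => w < v ∧ c w v = φ := by
      intro v hv
      obtain ⟨h6, w, h7, h8, h9, h10⟩ := Finset.mem_filter.mp hv
      exact Finset.mem_biUnion.mpr ⟨w, h7, Finset.mem_biUnion.mpr ⟨c w v,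
        Finset.mem_filter.mpr ⟨h9, h10⟩, Finset.mem_filter.mpr ⟨h6, h8, rfl⟩⟩⟩
    refine (Finset.card_le_card h6).trans (Finset.card_biUnion_le_card_mul _ _ _ fun w hw => ?_)
    refine (Finset.card_biUnion_le_card_mul _ _ τ fun φ hφ => ?_).trans
      (Nat.mul_le_mul_right _ (Finset.card_le_card (Finset.filter_subset _ _)))
    exact h1 w (hW hw) φ (Finset.mem_filter.mp hφ).2
  have h6 : (Exc c f u A X W).card ≤ (Ucol c f u A W).card * τ +
      W.card * ((Ucol c f u A W).card * τ) := by
    unfold Exc
    exact (Finset.card_union_le _ _).trans (Nat.add_le_add h4 h5)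
  have h7 := card_Ucol_le (c := c) (f := f) (u := u) (A := A) (W := W)
  calc (Exc c f u A X W).card ≤ (W.card + 1) * (Ucol c f u A W).card * τ := by
        refine h6.trans (le_of_eq ?_)
        ring
    _ ≤ _ := Nat.mul_le_mul_right _ (Nat.mul_le_mul_left _ h7)

/-- the selection -/
theorem exists_sel (h1 : ∀ u ∈ X, ∀ φ, φ ≠ f u → (X.filter fun v => u < v ∧ c u v = φ).card ≤ τ)
    (h2 : ∀ g, (X.filter fun v => f v = g).card ≤ τ) (hS : S ⊆ X) (N : ℕ)
    (hN : (N + 1) * (N * N + 2 * N + A.card) * τ + N ≤ S.card) :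
    ∀ n ≤ N, ∃ W ⊆ S, W.card = n ∧ Sel c f u A W ∧
      ∀ v ∈ S, (∀ w ∈ W, w < v) ∨ v ∈ W ∨ v ∈ Exc c f u A X W := by
  intro n
  induction n with
  | zero =>
    intro _
    refine ⟨∅, Finset.empty_subset _, rfl, ?_, fun v _ => Or.inl (by simp)⟩
    intro z hz
    simp at hz
  | succ n ih =>
    intro hn
    obtain ⟨W, hWS, hWc, hsel, hinv⟩ := ih (by omega)
    have h4 : (Exc c f u A X W).card ≤ (n + 1) * (n * n + 2 * n + A.card) * τ := by
      have := card_Exc_le (u := u) (A := A) h1 h2 (hWS.trans hS)
      rwa [hWc] at this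
    have h5 : (n + 1) * (n * n + 2 * n + A.card) * τ ≤ (N + 1) * (N * N + 2 * N + A.card) * τ := by
      have hnN : n ≤ N := by omega
      have := Nat.mul_le_mul hnN hnN
      exact Nat.mul_le_mul_right _ (Nat.mul_le_mul (by omega) (by omega))
    have hne : (S.filter fun v => v ∉ W ∧ v ∉ Exc c f u A X W).Nonempty := by
      rw [← Finset.card_pos]
      have h6 : S ⊆ (S.filter fun v => v ∉ W ∧ v ∉ Exc c f u A X W) ∪ (W ∪ Exc c f u A X W) := by
        intro v hv
        by_cases h7 : v ∈ W
        · exact Finset.mem_union_right _ (Finset.mem_union_left _ h7)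
        by_cases h8 : v ∈ Exc c f u A X W
        · exact Finset.mem_union_right _ (Finset.mem_union_right _ h8)
        · exact Finset.mem_union_left _ (Finset.mem_filter.mpr ⟨hv, h7, h8⟩)
      have h7 := (Finset.card_le_card h6).trans (Finset.card_union_le _ _)
      have h8 := Finset.card_union_le W (Exc c f u A X W)
      omega
    set a := (S.filter fun v => v ∉ W ∧ v ∉ Exc c f u A X W).min' hne with ha
    have hmem := Finset.min'_mem _ hne
    rw [← ha] at hmem
    obtain ⟨haS, haW, haE⟩ := Finset.mem_filter.mp hmem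
    have hall : ∀ w ∈ W, w < a := by
      rcases hinv a haS with h6 | h6 | h6
      · exact h6
      · exact absurd h6 haW
      · exact absurd h6 haE
    refine ⟨insert a W, Finset.insert_subset haS hWS, ?_, ?_, ?_⟩
    · rw [Finset.card_insert_of_notMem haW, hWc]
    · intro z hz
      rcases Finset.mem_insert.mp hz with rfl | hz
      · have h6 : (insert a W).filter (· < a) = W := by
          ext v
          simp only [Finset.mem_filter, Finset.mem_insert]
          constructor
          · rintro ⟨h7 | h7, h8⟩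
            · omega
            · exact h7
          · intro h7
            exact ⟨Or.inr h7, hall v h7⟩
        rw [h6]
        unfold Exc at haE
        rw [Finset.mem_union, not_or] at haE
        refine ⟨fun h7 => haE.1 (Finset.mem_filter.mpr ⟨hS haS, h7⟩), ?_⟩
        intro w hw hlt h7
        by_contra h8
        rcases Finset.mem_insert.mp hw with h9 | h9
        · omega
        · exact haE.2 (Finset.mem_filter.mpr ⟨hS haS, w, h9, hlt, h7, h8⟩)
      · have h6 : (insert a W).filter (· < z) = W.filter (· < z) := by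
          ext v
          simp only [Finset.mem_filter, Finset.mem_insert]
          constructor
          · rintro ⟨h7 | h7, h8⟩
            · have := hall z hz
              omega
            · exact ⟨h7, h8⟩
          · rintro ⟨h7, h8⟩
            exact ⟨Or.inr h7, h8⟩
        rw [h6]
        refine ⟨(hsel z hz).1, ?_⟩
        intro w hw hlt h7
        rcases Finset.mem_insert.mp hw with h9 | h9
        · have := hall z hz
          omega
        · exact (hsel z hz).2 w h9 hlt h7
    · intro v hv
      by_cases h6 : ∀ w ∈ insert a W, w < v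
      · exact Or.inl h6
      right
      rcases hinv v hv with h7 | h7 | h7
      · -- all of `W` below `v`, so `v ≤ a`
        have h8 : ¬ a < v := by
          intro h9
          apply h6
          intro w hw
          rcases Finset.mem_insert.mp hw with rfl | hw
          · exact h9
          · exact h7 w hw
        by_cases h9 : v ∈ S.filter fun v => v ∉ W ∧ v ∉ Exc c f u A X W
        · have h10 := Finset.min'_le _ v h9
          rw [← ha] at h10
          left
          rw [Finset.mem_insert]
          left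
          omega
        · have h10 : ¬ (v ∉ W ∧ v ∉ Exc c f u A X W) := fun h11 =>
            h9 (Finset.mem_filter.mpr ⟨hv, h11⟩)
          by_cases h11 : v ∈ W
          · exact Or.inl (Finset.mem_insert_of_mem h11)
          · right
            by_contra h12
            exact h10 ⟨h11, fun h13 => h12 (Exc_mono (Finset.subset_insert _ _) h13)⟩
      · exact Or.inl (Finset.mem_insert_of_mem h7)
      · exact Or.inr (Exc_mono (Finset.subset_insert _ _) h7)

/-- the path through an IN-free part of a selection -/
theorem path_through (hu : u ∈ X) (hWX : W ⊆ X) (huW : ∀ w ∈ W, u < w) (hsel : Sel c f u A W)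
    (hroot : ∀ w ∈ W, c u w ≠ f w) (hA : ∀ w ∈ W, c u w ∈ A → c u w = f u) :
    ∀ W' : Finset ℕ, W' ⊆ W → (∀ w ∈ W', ∀ z ∈ W', w < z → c w z ≠ f z) →
      ∀ z ∈ W', (∀ w ∈ W', w ≤ z) → ∃ D, RQ c X u z D ∧ D.card = W'.card ∧
        D ⊆ Ucol c f u A (W.filter (· ≤ z)) ∧ f z ∉ D ∧ ∀ γ ∈ D, γ ∈ A → γ = f u := by
  intro W'
  induction W' using Finset.induction_on_max with
  | empty =>
    intro _ _ z hz
    simp at hz
  | insert a W' hmax ih =>
    intro hsub hfree z hz hle
    have hza : z = a := by
      rcases Finset.mem_insert.mp hz with h | h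
      · exact h
      · have h1 := hmax z h
        have h2 := hle a (Finset.mem_insert_self _ _)
        omega
    subst hza
    have haW : z ∈ W := hsub (Finset.mem_insert_self _ _)
    have hzW' : z ∉ W' := fun h => lt_irrefl _ (hmax z h)
    rcases W'.eq_empty_or_nonempty with he | hne
    · subst he
      have h1 := RQ.step (RQ.single (c := c) hu) (hWX haW) (huW z haW) (Finset.notMem_empty _)
      refine ⟨_, h1, by simp, ?_, ?_, ?_⟩
      · intro γ hγ
        simp only [insert_empty_eq, Finset.mem_singleton] at hγ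
        rw [hγ]
        exact mem_Ucol_root (Finset.mem_filter.mpr ⟨haW, le_refl _⟩)
      · simp only [insert_empty_eq, Finset.mem_singleton]
        exact fun h => hroot z haW h.symm
      · intro γ hγ hγA
        simp only [insert_empty_eq, Finset.mem_singleton] at hγ
        rw [hγ] at hγA ⊢
        exact hA z haW hγA
    · have hm := Finset.max'_mem W' hne
      set y := W'.max' hne with hy
      have hyW : y ∈ W := hsub (Finset.mem_insert_of_mem hm)
      have hyz : y < z := hmax y hm
      obtain ⟨D, h1, h2, h3, h4, h5⟩ := ih ((Finset.subset_insert _ _).trans hsub)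
        (fun w hw z' hz' => hfree w (Finset.mem_insert_of_mem hw) z' (Finset.mem_insert_of_mem hz'))
        y hm (fun w hw => Finset.le_max' _ _ hw)
      have hUsub : Ucol c f u A (W.filter (· ≤ y)) ⊆ Ucol c f u A (W.filter (· < z)) := by
        refine Ucol_mono ?_
        intro v hv
        obtain ⟨h6, h7⟩ := Finset.mem_filter.mp hv
        exact Finset.mem_filter.mpr ⟨h6, lt_of_le_of_lt h7 hyz⟩
      have hUsub' : Ucol c f u A (W.filter (· < z)) ⊆ Ucol c f u A (W.filter (· ≤ z)) := by
        refine Ucol_mono ?_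
        intro v hv
        obtain ⟨h6, h7⟩ := Finset.mem_filter.mp hv
        exact Finset.mem_filter.mpr ⟨h6, le_of_lt h7⟩
      have hnew : c y z ∉ D := by
        intro h6
        have h7 := (hsel z haW).2 y hyW hyz (hUsub (h3 h6))
        rw [h7] at h6
        exact h4 h6
      have h6 := RQ.step h1 (hWX haW) hyz hnew
      refine ⟨_, h6, ?_, ?_, ?_, ?_⟩
      · rw [Finset.card_insert_of_notMem hnew, h2, Finset.card_insert_of_notMem hzW']
      · intro γ hγ
        rcases Finset.mem_insert.mp hγ with rfl | hγ
        · exact mem_Ucol_pair (Finset.mem_filter.mpr ⟨hyW, le_of_lt hyz⟩)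
            (Finset.mem_filter.mpr ⟨haW, le_refl _⟩)
        · exact hUsub' (hUsub (h3 hγ))
      · rw [Finset.mem_insert, not_or]
        refine ⟨fun h7 => hfree y (Finset.mem_insert_of_mem hm) z (Finset.mem_insert_self _ _) hyz
          h7.symm, fun h7 => (hsel z haW).1 (hUsub (h3 h7))⟩
      · intro γ hγ hγA
        rcases Finset.mem_insert.mp hγ with rfl | hγ
        · exfalso
          have h7 := (hsel z haW).2 y hyW hyz (subset_Ucol hγA)
          have h8 := (hsel y hyW).1
          rw [h7] at hγA
          exact h8 (subset_Ucol hγA)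
        · exact h5 γ hγ hγA

theorem Sel.inj (hsel : Sel c f u A W) : ∀ v ∈ W, ∀ v' ∈ W, f v = f v' → v = v' := by
  intro v hv v' hv' he
  rcases lt_trichotomy v v' with h | h | h
  · exfalso
    refine (hsel v' hv').1 ?_
    rw [← he]
    exact mem_Ucol_label (Finset.mem_filter.mpr ⟨hv, h⟩)
  · exact h
  · exfalso
    refine (hsel v hv).1 ?_
    rw [he]
    exact mem_Ucol_label (Finset.mem_filter.mpr ⟨hv', h⟩)

/-- **LONG PATH.** From every point `u` with many non-IN successors there is a rainbow path of `X`
with `m` arcs which avoids the prescribed colours `A`, with the only exception of the colour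
`f u`. -/
theorem long_path
    (h1 : ∀ u ∈ X, ∀ φ, φ ≠ f u → (X.filter fun v => u < v ∧ c u v = φ).card ≤ τ)
    (h2 : ∀ g, (X.filter fun v => f v = g).card ≤ τ)
    (h3 : ∀ w D, INP c f X w D → D.card ≤ t) (hm : 0 < m) (hu : u ∈ X)
    (hS : (t * m + 1) * (t * m * (t * m) + 2 * (t * m) + A.card) * τ + t * m + A.card * τ ≤
      (X.filter fun w => u < w ∧ c u w ≠ f w).card) :
    ∃ z D, RQ c X u z D ∧ m ≤ D.card ∧ ∀ γ ∈ D, γ ∈ A → γ = f u := by
  set S := X.filter fun w => u < w ∧ c u w ≠ f w ∧ (c u w ∈ A → c u w = f u) with hSdef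
  have hSX : S ⊆ X := Finset.filter_subset _ _
  have h4 : (X.filter fun w => u < w ∧ c u w ≠ f w).card ≤ S.card + A.card * τ := by
    have h5 : (X.filter fun w => u < w ∧ c u w ≠ f w) ⊆ S ∪
        (A.filter (· ≠ f u)).biUnion fun φ => X.filter fun v => u < v ∧ c u v = φ := by
      intro w hw
      obtain ⟨h6, h7, h8⟩ := Finset.mem_filter.mp hw
      by_cases h9 : c u w ∈ A → c u w = f u
      · exact Finset.mem_union_left _ (Finset.mem_filter.mpr ⟨h6, h7, h8, h9⟩)
      · push Not at h9
        exact Finset.mem_union_right _ (Finset.mem_biUnion.mpr ⟨c u w,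
          Finset.mem_filter.mpr h9, Finset.mem_filter.mpr ⟨h6, h7, rfl⟩⟩)
    refine (Finset.card_le_card h5).trans ((Finset.card_union_le _ _).trans
      (Nat.add_le_add_left ?_ _))
    refine (Finset.card_biUnion_le_card_mul _ _ τ fun φ hφ => ?_).trans
      (Nat.mul_le_mul_right _ (Finset.card_le_card (Finset.filter_subset _ _)))
    exact h1 u hu φ (Finset.mem_filter.mp hφ).2
  obtain ⟨W, hWS, hWc, hsel, _⟩ := exists_sel (u := u) (A := A) h1 h2 hSX (t * m) (by omega)
    (t * m) (le_refl _)
  have ht : 0 < t := by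
    have := h3 u _ (INP.single hu)
    rw [Finset.card_singleton] at this
    exact this
  obtain ⟨W', hW', hW'c, hfree⟩ := exists_inFree (c := c) (t := t) hsel.inj
    (fun w D h => h3 w D (h.mono (hWS.trans hSX)))
  have h5 : m ≤ W'.card := by
    rw [hWc] at hW'c
    exact Nat.le_of_mul_le_mul_left hW'c ht
  have hne : W'.Nonempty := by
    rw [← Finset.card_pos]
    omega
  obtain ⟨D, h6, h7, _, _, h8⟩ := path_through hu (hWS.trans hSX)
    (fun w hw => (Finset.mem_filter.mp (hWS hw)).2.1) hsel
    (fun w hw => (Finset.mem_filter.mp (hWS hw)).2.2.1)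
    (fun w hw => (Finset.mem_filter.mp (hWS hw)).2.2.2) W' hW' hfree (W'.max' hne)
    (Finset.max'_mem _ _) (fun w hw => Finset.le_max' _ _ hw)
  exact ⟨_, D, h6, by omega, h8⟩

end FlashRainbow.CF
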