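import Pool.Agent.Work.MP_54723a_co.CF.H1

/-!
# Constant factor, measure route: long rainbow paths inside a class without junctions (helper87)

Source: helper63 (LEMMA S), helper14, helper78.
-/

set_option autoImplicit false

namespace FlashRainbow.CF

open Classical

variable {c : ℕ → ℕ → ℕ} {V W X Z K F U₀ : Finset ℕ} {R t τ x u : ℕ}

/-- the used colours of a finite set of chosen points -/
def Us (c : ℕ → ℕ → ℕ) (f : ℕ → ℕ) (U₀ A : Finset ℕ) : Finset ℕ :=
  U₀ ∪ A.image f ∪ (A ×ˢ A).image fun p => c p.1 p.2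

theorem us_card (f : ℕ → ℕ) (A : Finset ℕ) : (Us c f U₀ A).card ≤ U₀.card + A.card + A.card ^ 2 := by
  unfold Us
  refine (Finset.card_union_le _ _).trans ?_
  refine Nat.add_le_add ((Finset.card_union_le _ _).trans (Nat.add_le_add_left Finset.card_image_le _)) ?_
  refine Finset.card_image_le.trans ?_
  rw [Finset.card_product, pow_two]

theorem us_mono {f : ℕ → ℕ} {A B : Finset ℕ} (h : A ⊆ B) : Us c f U₀ A ⊆ Us c f U₀ B := by
  unfold Us
  exact Finset.union_subset_union (Finset.union_subset_union (le_refl _)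
    (Finset.image_subset_image h)) (Finset.image_subset_image (Finset.product_subset_product h h))

theorem us_u {f : ℕ → ℕ} {A : Finset ℕ} {g : ℕ} (h : g ∈ U₀) : g ∈ Us c f U₀ A :=
  Finset.mem_union_left _ (Finset.mem_union_left _ h)

theorem us_f {f : ℕ → ℕ} {A : Finset ℕ} {a : ℕ} (h : a ∈ A) : f a ∈ Us c f U₀ A :=
  Finset.mem_union_left _ (Finset.mem_union_right _ (Finset.mem_image_of_mem f h))

theorem us_c {f : ℕ → ℕ} {A : Finset ℕ} {a b : ℕ} (h : a ∈ A) (h' : b ∈ A) :
    c a b ∈ Us c f U₀ A :=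
  Finset.mem_union_right _ (Finset.mem_image.mpr ⟨(a, b), Finset.mem_product.mpr ⟨h, h'⟩, rfl⟩)

/-- a greedily chosen set: `u` is the first point -/
structure Greedy (c : ℕ → ℕ → ℕ) (f : ℕ → ℕ) (U₀ N : Finset ℕ) (u : ℕ) (W : Finset ℕ) : Prop where
  mem : u ∈ W
  sub : ∀ w ∈ W, w ≠ u → w ∈ N
  lt : ∀ w ∈ W, w ≠ u → u < w
  fresh : ∀ b ∈ W, b ≠ u → f b ∉ Us c f U₀ (W.filter fun a => a < b)
  arc : ∀ b ∈ W, b ≠ u → ∀ a ∈ W, a < b → c a b = f a ∨ c a b ∉ Us c f U₀ (W.filter fun a => a < b)

theorem greedy_step {f : ℕ → ℕ} {N Y : Finset ℕ} (hN : N ⊆ X) (hg : Greedy c f U₀ N u W)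
    (hWX : W ⊆ X) (hY : Y ⊆ N) (hYu : ∀ y ∈ Y, ∀ w ∈ W, w < y)
    (hlab : ∀ g, (X.filter fun v => f v = g).card ≤ τ)
    (hout : ∀ v ∈ X, ∀ g, g ≠ f v → (X.filter fun w => v < w ∧ c v w = g).card ≤ τ)
    (hcard : (W.card + 1) * (Us c f U₀ W).card * τ + 1 ≤ Y.card) :
    ∃ b ∈ Y, Greedy c f U₀ N u (insert b W) ∧
      Y.card ≤ (Y.filter fun y => b < y).card + ((W.card + 1) * (Us c f U₀ W).card * τ + 1) := by
  set S := Us c f U₀ W with hS
  set G := Y.filter fun b => f b ∉ S ∧ ∀ a ∈ W, c a b = f a ∨ c a b ∉ S with hG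
  set B := Y.filter fun b => ¬ (f b ∉ S ∧ ∀ a ∈ W, c a b = f a ∨ c a b ∉ S) with hB
  have hsplit : G.card + B.card = Y.card := Finset.card_filter_add_card_filter_not _
  have hBc : B.card ≤ (W.card + 1) * S.card * τ := by
    have hsub : B ⊆ (S.biUnion fun g => X.filter fun v => f v = g) ∪
        W.biUnion fun a => (S.filter fun g => g ≠ f a).biUnion fun g =>
          X.filter fun w => a < w ∧ c a w = g := by
      intro b hb
      obtain ⟨h1, h2⟩ := Finset.mem_filter.mp hb
      have hbX : b ∈ X := hN (hY h1)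
      by_cases h3 : f b ∈ S
      · exact Finset.mem_union_left _ (Finset.mem_biUnion.mpr ⟨f b, h3,
          Finset.mem_filter.mpr ⟨hbX, rfl⟩⟩)
      · have h4 : ¬ ∀ a ∈ W, c a b = f a ∨ c a b ∉ S := fun h4 => h2 ⟨h3, h4⟩
        push Not at h4
        obtain ⟨a, ha, h5, h6⟩ := h4
        exact Finset.mem_union_right _ (Finset.mem_biUnion.mpr ⟨a, ha, Finset.mem_biUnion.mpr
          ⟨c a b, Finset.mem_filter.mpr ⟨h6, h5⟩, Finset.mem_filter.mpr ⟨hbX, hYu b h1 a ha, rfl⟩⟩⟩)
    refine (Finset.card_le_card hsub).trans ((Finset.card_union_le _ _).trans ?_)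
    have h1 := Finset.card_biUnion_le_card_mul S (fun g => X.filter fun v => f v = g) τ
      fun g _ => hlab g
    have h2 := Finset.card_biUnion_le_card_mul W (fun a => (S.filter fun g => g ≠ f a).biUnion
      fun g => X.filter fun w => a < w ∧ c a w = g) (S.card * τ) (by
        intro a ha
        refine (Finset.card_biUnion_le_card_mul _ _ τ fun g hg => hout a (hWX ha) g
          (Finset.mem_filter.mp hg).2).trans ?_
        exact Nat.mul_le_mul_right _ (Finset.card_filter_le _ _))
    calc _ ≤ S.card * τ + W.card * (S.card * τ) := Nat.add_le_add h1 h2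
      _ = _ := by ring
  have hGne : G.Nonempty := by
    rw [← Finset.card_pos]
    omega
  set b := G.min' hGne with hb
  have hbG : b ∈ G := G.min'_mem hGne
  obtain ⟨hbY, hbf, hba⟩ := Finset.mem_filter.mp hbG
  have hbN := hY hbY
  have hWb : ∀ w ∈ W, w < b := fun w hw => hYu b hbY w hw
  have hfb : (insert b W).filter (fun a => a < b) = W := by
    ext z
    simp only [Finset.mem_filter, Finset.mem_insert]
    constructor
    · rintro ⟨h | h, h'⟩
      · omega
      · exact h
    · exact fun h => ⟨Or.inr h, hWb z h⟩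
  have hfw : ∀ w ∈ W, (insert b W).filter (fun a => a < w) = W.filter fun a => a < w := by
    intro w hw
    ext z
    simp only [Finset.mem_filter, Finset.mem_insert]
    constructor
    · rintro ⟨h | h, h'⟩
      · have := hWb w hw
        omega
      · exact ⟨h, h'⟩
    · exact fun h => ⟨Or.inr h.1, h.2⟩
  refine ⟨b, hbY, ⟨Finset.mem_insert_of_mem hg.mem, ?_, ?_, ?_, ?_⟩, ?_⟩
  · intro w hw hwu
    rcases Finset.mem_insert.mp hw with rfl | hw
    · exact hbN
    · exact hg.sub w hw hwu
  · intro w hw hwu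
    rcases Finset.mem_insert.mp hw with rfl | hw
    · exact hWb u hg.mem
    · exact hg.lt w hw hwu
  · intro w hw hwu
    rcases Finset.mem_insert.mp hw with h | hw
    · rw [h, hfb]
      exact hbf
    · rw [hfw w hw]
      exact hg.fresh w hw hwu
  · intro w hw hwu a ha haw
    rcases Finset.mem_insert.mp hw with h | hw
    · rw [h, hfb]
      rcases Finset.mem_insert.mp ha with h' | ha
      · omega
      · exact hba a ha
    · rw [hfw w hw]
      rcases Finset.mem_insert.mp ha with h' | ha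
      · have := hWb w hw
        omega
      · exact hg.arc w hw hwu a ha haw
  · have hsub : Y ⊆ (Y.filter fun y => b < y) ∪ (B ∪ {b}) := by
      intro y hy
      by_cases h1 : y ∈ B
      · exact Finset.mem_union_right _ (Finset.mem_union_left _ h1)
      have h2 : y ∈ G := by
        by_contra h3
        exact h1 (Finset.mem_filter.mpr ⟨hy, fun h4 => h3 (Finset.mem_filter.mpr ⟨hy, h4⟩)⟩)
      have h3 : b ≤ y := G.min'_le y h2
      rcases h3.lt_or_eq with h4 | h4
      · exact Finset.mem_union_left _ (Finset.mem_filter.mpr ⟨hy, h4⟩)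
      · exact Finset.mem_union_right _ (Finset.mem_union_right _ (Finset.mem_singleton.mpr h4.symm))
    refine (Finset.card_le_card hsub).trans ((Finset.card_union_le _ _).trans ?_)
    have h5 := Finset.card_union_le B {b}
    rw [Finset.card_singleton] at h5
    omega

/-- the greedy choice of `n + 1` points, the first one is `u` -/
theorem greedy_exists {f : ℕ → ℕ} {N : Finset ℕ} (hN : N ⊆ X) (hu : u ∈ X) (hNu : ∀ w ∈ N, u < w)
    (hlab : ∀ g, (X.filter fun v => f v = g).card ≤ τ)
    (hout : ∀ v ∈ X, ∀ g, g ≠ f v → (X.filter fun w => v < w ∧ c v w = g).card ≤ τ)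
    {n q : ℕ} (hq : U₀.card ≤ q)
    (hs : n * ((n + 1) * (q + n + n ^ 2) * τ + 1) ≤ N.card) :
    ∀ k ≤ n, ∃ W Y, Greedy c f U₀ N u W ∧ W ⊆ X ∧ W.card = k + 1 ∧ Y ⊆ N ∧
      (∀ y ∈ Y, ∀ w ∈ W, w < y) ∧
      N.card ≤ Y.card + k * ((n + 1) * (q + n + n ^ 2) * τ + 1) := by
  intro k
  induction k with
  | zero =>
    intro _
    refine ⟨{u}, N, ⟨Finset.mem_singleton_self u, ?_, ?_, ?_, ?_⟩,
      Finset.singleton_subset_iff.mpr hu, rfl, le_refl _, ?_, by omega⟩
    · exact fun w hw h => absurd (Finset.mem_singleton.mp hw) h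
    · exact fun w hw h => absurd (Finset.mem_singleton.mp hw) h
    · exact fun w hw h => absurd (Finset.mem_singleton.mp hw) h
    · exact fun w hw h => absurd (Finset.mem_singleton.mp hw) h
    · intro y hy w hw
      rw [Finset.mem_singleton.mp hw]
      exact hNu y hy
  | succ k ih =>
    intro hk
    obtain ⟨W, Y, hg, hWX, hWc, hYN, hYW, hYc⟩ := ih (by omega)
    set B := (n + 1) * (q + n + n ^ 2) * τ + 1 with hB
    have h1 : (W.card + 1) * (Us c f U₀ W).card * τ + 1 ≤ B := by
      have h2 := us_card (c := c) (U₀ := U₀) f W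
      have h3 : (Us c f U₀ W).card ≤ q + n + n ^ 2 := by
        refine h2.trans ?_
        have h4 : W.card ≤ n := by omega
        have h5 : W.card ^ 2 ≤ n ^ 2 := Nat.pow_le_pow_left h4 2
        omega
      have h4 : (W.card + 1) * (Us c f U₀ W).card * τ ≤ (n + 1) * (q + n + n ^ 2) * τ :=
        Nat.mul_le_mul_right _ (Nat.mul_le_mul (by omega) h3)
      omega
    have h2 : B ≤ Y.card := by
      have h3 : (k + 1) * B ≤ n * B := Nat.mul_le_mul_right _ hk
      have h4 : (k + 1) * B = k * B + B := by ring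
      omega
    obtain ⟨b, hbY, hg', hc'⟩ := greedy_step hN hg hWX hYN hYW hlab hout (by omega)
    have hbW : b ∉ W := fun h => by
      have := hYW b hbY b h
      omega
    refine ⟨insert b W, Y.filter fun y => b < y, hg', ?_, ?_, (Finset.filter_subset _ _).trans hYN,
      ?_, ?_⟩
    · exact Finset.insert_subset_iff.mpr ⟨hN (hYN hbY), hWX⟩
    · rw [Finset.card_insert_of_notMem hbW, hWc]
    · intro y hy w hw
      obtain ⟨h5, h6⟩ := Finset.mem_filter.mp hy
      rcases Finset.mem_insert.mp hw with rfl | hw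
      · exact h6
      · exact hYW y h5 w hw
    · have h4 : (k + 1) * B = k * B + B := by ring
      omega

/-- in-chains are short -/
theorem in_short (hR : Rk c V R) (hH : Hub c V x K F) (ht : R ≤ K.card + t)
    {w : ℕ} {D : Finset ℕ} (hD : RQ c V x w D) (hDF : ∀ g ∈ D, g ∉ F)
    (hk : D.card ≤ (D \ K).card + 1) : D.card ≤ t + 1 := by
  have h1 := hH.2 (K \ D) (fun z hz => Finset.mem_sdiff.mpr ⟨hH.1 hz, fun h => hDF z h hz⟩)
    Finset.sdiff_subset
  have h2 := hR _ _ (rp_append h1 hD Finset.disjoint_sdiff)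
  rw [Finset.card_union_of_disjoint Finset.sdiff_disjoint] at h2
  have h3 := Finset.card_sdiff_add_card_inter K D
  have h4 := Finset.card_sdiff_add_card_inter D K
  rw [Finset.inter_comm] at h4
  omega

/-- the greedy choice gives a long rainbow path out of `u` -/
theorem greedy_path (hR : Rk c V R) (hH : Hub c V x K F) (ht : R ≤ K.card + t) (hXV : X ⊆ V)
    (hxX : ∀ v ∈ X, x < v) (hfr : Fre c X K) (hF : ∀ v ∈ X, c x v ∉ F)
    {N : Finset ℕ} (hN : ∀ w ∈ N, c u w ≠ c x w) (hU₀ : c x u ∉ U₀)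
    (hg : Greedy c (fun v => c x v) U₀ N u W) (hWX : W ⊆ X) {m : ℕ} (hm : m * (t + 1) + 2 ≤ W.card) :
    ∃ D, RS c X u D ∧ Disjoint D U₀ ∧ m ≤ D.card := by
  by_contra hcon
  push Not at hcon
  have hxV : x ∈ V := hH.mem
  set f : ℕ → ℕ := fun v => c x v with hf
  set PN : ℕ → ℕ → Prop := fun w k => ∃ D, RQ c W u w D ∧ D.card = k ∧ Disjoint D U₀ ∧ f w ∉ D ∧
    ∀ g ∈ D, ∃ a ∈ W, ∃ b ∈ W, a < b ∧ b ≤ w ∧ c a b = g with hPN
  set QI : ℕ → ℕ → Prop := fun w k => ∃ D, RQ c V x w D ∧ D.card = k ∧ D.card ≤ (D \ K).card + 1 ∧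
    ∀ g ∈ D, ∃ a ∈ W, a ≤ w ∧ a ≠ u ∧ f a = g with hQI
  have hPm : ∀ w k, PN w k → k ≤ m := by
    rintro w k ⟨D, h1, rfl, h2, -⟩
    exact (hcon D (h1.mono hWX).toRS h2).le
  have hPm' : ∀ w k, PN w k → k < m := by
    rintro w k ⟨D, h1, rfl, h2, -⟩
    exact hcon D (h1.mono hWX).toRS h2
  have hQt : ∀ w k, QI w k → k ≤ t + 1 := by
    rintro w k ⟨D, h1, rfl, h2, h3⟩
    refine in_short hR hH ht h1 ?_ h2
    intro g hg'
    obtain ⟨a, ha, -, -, rfl⟩ := h3 g hg'
    exact hF a (hWX ha)
  have hP1 : ∀ w ∈ W, w ≠ u → PN w 1 := by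
    intro w hw hwu
    have huw := hg.lt w hw hwu
    have h0 := RQ.step (RQ.single (c := c) (V := W) hg.mem) hw huw (Finset.notMem_empty _)
    refine ⟨_, h0, by simp, ?_, ?_, ?_⟩
    · rw [Finset.disjoint_insert_left]
      refine ⟨?_, Finset.disjoint_empty_left _⟩
      rcases hg.arc w hw hwu u hg.mem huw with h1 | h1
      · rw [h1]
        exact hU₀
      · exact fun h2 => h1 (us_u h2)
    · simpa using fun h => hN w (hg.sub w hw hwu) h.symm
    · intro g hg'
      have : g = c u w := by simpa using hg'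
      exact ⟨u, hg.mem, w, hw, huw, le_refl _, this.symm⟩
  have hQ1 : ∀ w ∈ W, w ≠ u → QI w 1 := by
    intro w hw hwu
    have h0 := RQ.step (RQ.single (c := c) (V := V) hxV) (hXV (hWX hw)) (hxX w (hWX hw))
      (Finset.notMem_empty _)
    refine ⟨_, h0, by simp, by simp, ?_⟩
    intro g hg'
    have : g = c x w := by simpa using hg'
    exact ⟨w, hw, le_refl _, hwu, this.symm⟩
  have hPs : ∀ v ∈ W, v ≠ u → ∀ w ∈ W, w ≠ u → v < w → c v w ≠ f w → ∀ k, PN v k → PN w (k + 1) := by
    rintro v hv hvu w hw hwu hvw hc k ⟨D, h1, rfl, h2, h3, h4⟩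
    have hDU : ∀ g ∈ D, g ∈ Us c f U₀ (W.filter fun a => a < w) := by
      intro g hg'
      obtain ⟨a, ha, b, hb, hab, hbv, rfl⟩ := h4 g hg'
      exact us_c (Finset.mem_filter.mpr ⟨ha, by omega⟩) (Finset.mem_filter.mpr ⟨hb, by omega⟩)
    have hfv : f v ∉ U₀ := fun h => hg.fresh v hv hvu (us_u h)
    have hnew : c v w ∉ D ∧ c v w ∉ U₀ := by
      rcases hg.arc w hw hwu v hv hvw with h5 | h5
      · rw [h5]
        exact ⟨h3, hfv⟩
      · exact ⟨fun h => h5 (hDU _ h), fun h => h5 (us_u h)⟩
    refine ⟨_, RQ.step h1 hw hvw hnew.1, Finset.card_insert_of_notMem hnew.1, ?_, ?_, ?_⟩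
    · rw [Finset.disjoint_insert_left]
      exact ⟨hnew.2, h2⟩
    · rw [Finset.mem_insert, not_or]
      exact ⟨fun h => hc h.symm, fun h => hg.fresh w hw hwu (hDU _ h)⟩
    · intro g hg'
      rcases Finset.mem_insert.mp hg' with rfl | hg'
      · exact ⟨v, hv, w, hw, hvw, le_refl _, rfl⟩
      · obtain ⟨a, ha, b, hb, hab, hbv, h6⟩ := h4 g hg'
        exact ⟨a, ha, b, hb, hab, by omega, h6⟩
  have hQs : ∀ v ∈ W, v ≠ u → ∀ w ∈ W, w ≠ u → v < w → c v w = f w → ∀ k, QI v k → QI w (k + 1) := by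
    rintro v hv hvu w hw hwu hvw hc k ⟨D, h1, rfl, h2, h3⟩
    have hfw : f w ∉ D := by
      intro h
      obtain ⟨a, ha, hav, -, h5⟩ := h3 _ h
      refine hg.fresh w hw hwu ?_
      rw [← h5]
      exact us_f (Finset.mem_filter.mpr ⟨ha, by omega⟩)
    have hfK : f w ∉ K := by
      rw [← hc]
      exact fun h => hfr _ h v (hWX hv) w (hWX hw) hvw rfl
    have hstep := RQ.step h1 (hXV (hWX hw)) hvw (by rw [hc]; exact hfw)
    rw [hc] at hstep
    refine ⟨_, hstep, Finset.card_insert_of_notMem hfw, ?_, ?_⟩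
    · rw [Finset.card_insert_of_notMem hfw, Finset.insert_sdiff_of_notMem _ hfK,
        Finset.card_insert_of_notMem (fun h => hfw (Finset.mem_sdiff.mp h).1)]
      omega
    · intro g hg'
      rcases Finset.mem_insert.mp hg' with rfl | hg'
      · exact ⟨w, hw, le_refl _, hwu, rfl⟩
      · obtain ⟨a, ha, hav, hau, h6⟩ := h3 g hg'
        exact ⟨a, ha, by omega, hau, h6⟩
  set p : ℕ → ℕ := fun w => Nat.findGreatest (PN w) m with hp
  set q : ℕ → ℕ := fun w => Nat.findGreatest (QI w) (t + 1) with hq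
  have hpspec : ∀ w ∈ W, w ≠ u → PN w (p w) := fun w hw hwu =>
    Nat.findGreatest_spec (P := PN w) (hPm w 1 (hP1 w hw hwu)) (hP1 w hw hwu)
  have hqspec : ∀ w ∈ W, w ≠ u → QI w (q w) := fun w hw hwu =>
    Nat.findGreatest_spec (P := QI w) (by omega) (hQ1 w hw hwu)
  have hinj : ∀ v ∈ W.erase u, ∀ w ∈ W.erase u, v < w → p v < p w ∨ q v < q w := by
    intro v hv w hw hvw
    obtain ⟨hvu, hv⟩ := Finset.mem_erase.mp hv
    obtain ⟨hwu, hw⟩ := Finset.mem_erase.mp hw
    by_cases hc : c v w = f w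
    · right
      have h1 := hQs v hv hvu w hw hwu hvw hc _ (hqspec v hv hvu)
      exact Nat.le_findGreatest (hQt _ _ h1) h1
    · left
      have h1 := hPs v hv hvu w hw hwu hvw hc _ (hpspec v hv hvu)
      exact Nat.le_findGreatest (hPm _ _ h1) h1
  have hcard : (W.erase u).card ≤ ((Finset.range m) ×ˢ (Finset.Icc 1 (t + 1))).card := by
    refine Finset.card_le_card_of_injOn (fun w => (p w, q w)) ?_ ?_
    · intro w hw
      obtain ⟨hwu, hw⟩ := Finset.mem_erase.mp hw
      refine Finset.mem_product.mpr ⟨Finset.mem_range.mpr (hPm' w _ (hpspec w hw hwu)),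
        Finset.mem_Icc.mpr ⟨?_, ?_⟩⟩
      · exact Nat.le_findGreatest (by omega) (hQ1 w hw hwu)
      · exact Nat.findGreatest_le _
    · intro v hv w hw hvw
      rw [Prod.mk.injEq] at hvw
      by_contra hne
      rcases lt_or_gt_of_ne hne with h | h
      · have := hinj v hv w hw h
        omega
      · have := hinj w hw v hv h
        omega
  rw [Finset.card_erase_of_mem hg.mem, Finset.card_product, Finset.card_range,
    Nat.card_Icc] at hcard
  have : t + 1 + 1 - 1 = t + 1 := by omega
  rw [this] at hcard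
  omega

/-- the points which are joined to nearly all later points by the colour of their label are few -/
theorem heavy_le (hR : Rk c V R) (hH : Hub c V x K F) (ht : R ≤ K.card + t) (hXV : X ⊆ V)
    (hxX : ∀ v ∈ X, x < v) (hfr : Fre c X K) (hF : ∀ v ∈ X, c x v ∉ F)
    (hlab : ∀ g, (X.filter fun v => c x v = g).card ≤ τ) {s : ℕ} {E : Finset ℕ} (hE : E ⊆ X)
    (hs : ∀ u ∈ E, (X.filter fun w => u < w ∧ c u w ≠ c x w).card ≤ s) :
    E.card ≤ (t + 2) * (s + (t + 2) * τ + 1) := by
  have hxV : x ∈ V := hH.mem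
  by_contra hcon
  push Not at hcon
  set B := s + (t + 2) * τ + 1 with hB
  have key : ∀ k, k ≤ t + 1 → ∃ w ∈ E, ∃ D, RQ c V x w D ∧ D.card = k + 1 ∧
      D.card ≤ (D \ K).card + 1 ∧ (∀ g ∈ D, ∃ a ∈ X, c x a = g) ∧
      E.card ≤ (E.filter fun y => w < y).card + (k + 1) * B := by
    intro k
    induction k with
    | zero =>
      intro _
      have hne : E.Nonempty := by
        rw [← Finset.card_pos]
        omega
      set w := E.min' hne with hw
      have hwE : w ∈ E := E.min'_mem hne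
      have h0 := RQ.step (RQ.single (c := c) (V := V) hxV) (hXV (hE hwE)) (hxX w (hE hwE))
        (Finset.notMem_empty _)
      refine ⟨w, hwE, _, h0, by simp, by simp, ?_, ?_⟩
      · intro g hg'
        have : g = c x w := by simpa using hg'
        exact ⟨w, hE hwE, this.symm⟩
      · have h1 : E ⊆ (E.filter fun y => w < y) ∪ {w} := by
          intro y hy
          rcases (E.min'_le y hy).lt_or_eq with h | h
          · exact Finset.mem_union_left _ (Finset.mem_filter.mpr ⟨hy, h⟩)
          · exact Finset.mem_union_right _ (Finset.mem_singleton.mpr h.symm)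
        have h2 := (Finset.card_le_card h1).trans (Finset.card_union_le _ _)
        rw [Finset.card_singleton] at h2
        omega
    | succ k ih =>
      intro hk
      obtain ⟨w, hwE, D, hD, hDc, hDK, hDl, hEc⟩ := ih (by omega)
      set Y := E.filter fun y => w < y with hY
      set G := Y.filter fun y => c w y = c x y ∧ c x y ∉ D with hG
      have hsub : Y ⊆ G ∪ ((X.filter fun y => w < y ∧ c w y ≠ c x y) ∪
          D.biUnion fun g => X.filter fun v => c x v = g) := by
        intro y hy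
        obtain ⟨h1, h2⟩ := Finset.mem_filter.mp hy
        by_cases h3 : c w y = c x y
        · by_cases h4 : c x y ∈ D
          · exact Finset.mem_union_right _ (Finset.mem_union_right _ (Finset.mem_biUnion.mpr
              ⟨_, h4, Finset.mem_filter.mpr ⟨hE h1, rfl⟩⟩))
          · exact Finset.mem_union_left _ (Finset.mem_filter.mpr ⟨hy, h3, h4⟩)
        · exact Finset.mem_union_right _ (Finset.mem_union_left _
            (Finset.mem_filter.mpr ⟨hE h1, h2, h3⟩))
      have hYc : Y.card ≤ G.card + (s + (t + 2) * τ) := by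
        refine (Finset.card_le_card hsub).trans ((Finset.card_union_le _ _).trans
          (Nat.add_le_add_left ((Finset.card_union_le _ _).trans (Nat.add_le_add (hs w hwE) ?_)) _))
        refine (Finset.card_biUnion_le_card_mul _ _ τ fun g _ => hlab g).trans ?_
        exact Nat.mul_le_mul_right _ (by omega)
      have hGne : G.Nonempty := by
        rw [← Finset.card_pos]
        have h1 : (k + 1 + 1) * B ≤ (t + 2) * B := Nat.mul_le_mul_right _ (by omega)
        have h2 : (k + 1 + 1) * B = (k + 1) * B + B := by ring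
        omega
      set b := G.min' hGne with hb
      have hbG : b ∈ G := G.min'_mem hGne
      obtain ⟨hbY, hb1, hb2⟩ := Finset.mem_filter.mp hbG
      obtain ⟨hbE, hwb⟩ := Finset.mem_filter.mp hbY
      have hstep := RQ.step hD (hXV (hE hbE)) hwb (by rw [hb1]; exact hb2)
      rw [hb1] at hstep
      have hbK : c x b ∉ K := by
        rw [← hb1]
        exact fun h => hfr _ h w (hE hwE) b (hE hbE) hwb rfl
      refine ⟨b, hbE, _, hstep, by rw [Finset.card_insert_of_notMem hb2, hDc], ?_, ?_, ?_⟩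
      · rw [Finset.card_insert_of_notMem hb2, Finset.insert_sdiff_of_notMem _ hbK,
          Finset.card_insert_of_notMem (fun h => hb2 (Finset.mem_sdiff.mp h).1)]
        omega
      · intro g hg'
        rcases Finset.mem_insert.mp hg' with rfl | hg'
        · exact ⟨b, hE hbE, rfl⟩
        · exact hDl g hg'
      · have h3 : Y.card ≤ (E.filter fun y => b < y).card + B := by
          have hsub' : Y ⊆ (E.filter fun y => b < y) ∪ ((((X.filter fun y => w < y ∧ c w y ≠ c x y) ∪
              D.biUnion fun g => X.filter fun v => c x v = g)) ∪ {b}) := by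
            intro y hy
            rcases Finset.mem_union.mp (hsub hy) with h1 | h1
            · rcases (G.min'_le y h1).lt_or_eq with h | h
              · exact Finset.mem_union_left _ (Finset.mem_filter.mpr
                  ⟨(Finset.mem_filter.mp hy).1, h⟩)
              · exact Finset.mem_union_right _ (Finset.mem_union_right _
                  (Finset.mem_singleton.mpr h.symm))
            · exact Finset.mem_union_right _ (Finset.mem_union_left _ h1)
          refine (Finset.card_le_card hsub').trans ((Finset.card_union_le _ _).trans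
            (Nat.add_le_add_left ((Finset.card_union_le _ _).trans ?_) _))
          rw [Finset.card_singleton]
          refine Nat.add_le_add_right ((Finset.card_union_le _ _).trans
            (Nat.add_le_add (hs w hwE) ?_)) _
          refine (Finset.card_biUnion_le_card_mul _ _ τ fun g _ => hlab g).trans ?_
          exact Nat.mul_le_mul_right _ (by omega)
        have h2 : (k + 1 + 1) * B = (k + 1) * B + B := by ring
        omega
  obtain ⟨w, -, D, hD, hDc, hDK, hDl, -⟩ := key (t + 1) (le_refl _)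
  have h1 := in_short hR hH ht hD (by
    intro g hg'
    obtain ⟨a, ha, rfl⟩ := hDl g hg'
    exact hF a ha) hDK
  omega

/-- **LEMMA S** -/
theorem long_s (hR : Rk c V R) (hH : Hub c V x K F) (ht : R ≤ K.card + t) (hXV : X ⊆ V)
    (hxX : ∀ v ∈ X, x < v) (hfr : Fre c X K) (hF : ∀ v ∈ X, c x v ∉ F)
    (hlab : ∀ g, (X.filter fun v => c x v = g).card ≤ τ)
    (hout : ∀ v ∈ X, ∀ g, g ≠ c x v → (X.filter fun w => v < w ∧ c v w = g).card ≤ τ)
    {m q n s : ℕ} (hn : n = m * (t + 1) + 1)
    (hs : s = n * ((n + 1) * (q + n + n ^ 2) * τ + 1)) :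
    ∃ E ⊆ X, E.card ≤ (t + 2) * (s + (t + 2) * τ + 1) ∧ ∀ u ∈ X, u ∉ E → ∀ U₀ : Finset ℕ,
      U₀.card ≤ q → c x u ∉ U₀ → ∃ D, RS c X u D ∧ Disjoint D U₀ ∧ m ≤ D.card := by
  refine ⟨X.filter fun u => (X.filter fun w => u < w ∧ c u w ≠ c x w).card ≤ s,
    Finset.filter_subset _ _, ?_, ?_⟩
  · exact heavy_le hR hH ht hXV hxX hfr hF hlab (Finset.filter_subset _ _)
      fun u hu => (Finset.mem_filter.mp hu).2
  · intro u hu huE U₀ hUq hU
    set N := X.filter fun w => u < w ∧ c u w ≠ c x w with hN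
    have hNs : s ≤ N.card := by
      by_contra h
      have h1 : N.card ≤ s := by omega
      exact huE (Finset.mem_filter.mpr ⟨hu, h1⟩)
    obtain ⟨W, Y, hg, hWX, hWc, -⟩ := greedy_exists (c := c) (f := fun v => c x v) (N := N)
      (U₀ := U₀) (n := n) (q := q) (Finset.filter_subset _ _) hu
      (fun w hw => (Finset.mem_filter.mp hw).2.1) hlab hout hUq (by omega) n (le_refl _)
    exact greedy_path hR hH ht hXV hxX hfr hF (fun w hw => (Finset.mem_filter.mp hw).2.2) hU hg hWX
      (m := m) (by omega)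

end FlashRainbow.CF
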