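import Pool.Agent.Work.MP_54723a_co.CF.HZones

/-!
# Constant factor, measure route: the stage loop  (helper63)

* `StageP` : the stage lemma, as an interface.
* `bad_le`, `clean` : few points of a zone see many points of the next zone in an old colour.
* `Inv`, `Inv.step` : the invariant of the hubs and one stage.
* `loop` : all stages and the end.
-/

set_option autoImplicit false

namespace FlashRainbow.CF

open Classical

variable {c : ℕ → ℕ → ℕ} {V Z Y F K : Finset ℕ} {R M d x : ℕ} {lev : ℕ → ℕ → ℕ}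

/-- the stage lemma (interface) -/
def StageP (c : ℕ → ℕ → ℕ) (V : Finset ℕ) (R M d t t' b : ℕ) : Prop :=
  ∀ (x : ℕ) (K F Z Y : Finset ℕ), Hub c V x K F → R = K.card + t → Z ⊆ V → Y ⊆ V →
    (∀ v ∈ Z, x < v) → (∀ v ∈ Z, ∀ w ∈ Y, v < w) → (∀ v ∈ Z, c x v ∉ F) →
    M ≤ 2 ^ b * Z.card → (∀ v ∈ Z, NDom c d v Y) →
    (∀ v ∈ Z, 4 * d * (Y.filter fun w => c v w ∈ F).card ≤ Y.card) →
    ∃ x' ∈ Z, ∃ K' F' Φ : Finset ℕ, Hub c V x' K' F' ∧ R = K'.card + t' ∧ Φ.card ≤ 3 ∧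
      F' ⊆ F ∪ Φ ∧ (∀ g ∈ Φ, ∃ u ∈ insert x Z, ∃ v ∈ insert x Z, u < v ∧ c u v = g) ∧
      2 * d * (Y.filter fun w => c x' w ∈ F').card ≤ (2 * d - 1) * Y.card

/-- the points of `Z` which see more than `1/4d` of `Y` in colours of `F` -/
noncomputable def badZ (c : ℕ → ℕ → ℕ) (d : ℕ) (Z Y F : Finset ℕ) : Finset ℕ :=
  Z.filter fun v => ¬ 4 * d * (Y.filter fun w => c v w ∈ F).card ≤ Y.card

theorem sum_class_le (hZY : ∀ v ∈ Z, ∀ w ∈ Y, v < w) (g : ℕ) :
    ∑ v ∈ Z, (Y.filter fun w => c v w = g).card ≤ prs c Z Y g := by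
  have h1 : (Z.sigma fun v => Y.filter fun w => c v w = g).card =
      ∑ v ∈ Z, (Y.filter fun w => c v w = g).card := Finset.card_sigma _ _
  rw [← h1]
  unfold prs
  refine Finset.card_le_card_of_injOn (fun p => (p.1, p.2)) ?_ ?_
  · rintro ⟨v, w⟩ hp
    have hp' := Finset.mem_sigma.mp (Finset.mem_coe.mp hp)
    simp only at hp'
    obtain ⟨hv, hw⟩ := hp'
    obtain ⟨hw1, hw2⟩ := Finset.mem_filter.mp hw
    exact Finset.mem_coe.mpr (Finset.mem_filter.mpr ⟨Finset.mem_product.mpr ⟨hv, hw1⟩,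
      hZY v hv w hw1, hw2⟩)
  · rintro ⟨v, w⟩ _ ⟨v', w'⟩ _ h
    simp only [Prod.mk.injEq] at h
    obtain ⟨rfl, rfl⟩ := h
    rfl

theorem bad_le (hZY : ∀ v ∈ Z, ∀ w ∈ Y, v < w) :
    (badZ c d Z Y F).card * Y.card ≤ 4 * d * ∑ g ∈ F, prs c Z Y g := by
  calc (badZ c d Z Y F).card * Y.card = ∑ v ∈ badZ c d Z Y F, Y.card := by
        rw [Finset.sum_const, smul_eq_mul]
    _ ≤ ∑ v ∈ badZ c d Z Y F, 4 * d * (Y.filter fun w => c v w ∈ F).card := by
        refine Finset.sum_le_sum fun v hv => ?_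
        have := (Finset.mem_filter.mp hv).2
        omega
    _ ≤ ∑ v ∈ Z, 4 * d * (Y.filter fun w => c v w ∈ F).card :=
        Finset.sum_le_sum_of_subset (Finset.filter_subset _ _)
    _ ≤ ∑ v ∈ Z, 4 * d * ∑ g ∈ F, (Y.filter fun w => c v w = g).card := by
        refine Finset.sum_le_sum fun v _ => Nat.mul_le_mul_left _ ?_
        refine le_trans (Finset.card_le_card ?_) Finset.card_biUnion_le
        intro w hw
        obtain ⟨h1, h2⟩ := Finset.mem_filter.mp hw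
        exact Finset.mem_biUnion.mpr ⟨c v w, h2, Finset.mem_filter.mpr ⟨h1, rfl⟩⟩
    _ = 4 * d * ∑ g ∈ F, ∑ v ∈ Z, (Y.filter fun w => c v w = g).card := by
        rw [← Finset.mul_sum, Finset.sum_comm]
    _ ≤ 4 * d * ∑ g ∈ F, prs c Z Y g :=
        Nat.mul_le_mul_left _ (Finset.sum_le_sum fun g _ => sum_class_le hZY g)

theorem sum_biUnion_le' (s : Finset ℕ) (t : ℕ → Finset ℕ) (f : ℕ → ℚ) (hf : ∀ x, 0 ≤ f x) :
    ∑ x ∈ s.biUnion t, f x ≤ ∑ i ∈ s, ∑ x ∈ t i, f x := by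
  induction s using Finset.induction_on with
  | empty => simp
  | insert a s ha ih =>
    rw [Finset.biUnion_insert, Finset.sum_insert ha]
    have h1 := Finset.sum_union_inter (s₁ := t a) (s₂ := s.biUnion t) (f := f)
    have h2 : 0 ≤ ∑ x ∈ t a ∩ s.biUnion t, f x := Finset.sum_nonneg fun x _ => hf x
    linarith

/-- **CLEAN** : old colours are light on the next zone for most points -/
theorem clean {q : ℕ → ℕ} {m J : ℕ} {Φ : ℕ → Finset ℕ} (hZY : ∀ v ∈ Z, ∀ w ∈ Y, v < w)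
    (hd : 0 < d) (hY : 0 < Y.card) (h3 : ∀ l, (Φ l).card ≤ 3)
    (hcov : ∀ g ∈ F, ∃ l, m ≤ l ∧ l < J ∧ g ∈ Φ l)
    (hun : ∀ l, m ≤ l → l < J → ∀ g ∈ Φ l, q l * prs c Z Y g ≤ Z.card * Y.card)
    (hq0 : ∀ l, 0 < q l) (hq : ∑ l ∈ Finset.range J, (1 : ℚ) / q l ≤ 1 / (48 * d ^ 2)) :
    4 * d * (badZ c d Z Y F).card ≤ Z.card := by
  have h1 := bad_le (c := c) (d := d) (F := F) hZY
  have h2 : (∑ g ∈ F, (prs c Z Y g : ℚ)) ≤ ∑ l ∈ Finset.range J,
      3 * ((Z.card * Y.card : ℚ) * (1 / q l)) := by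
    have h3' : (∑ g ∈ F, (prs c Z Y g : ℚ)) ≤
        ∑ l ∈ (Finset.range J).filter (fun l => m ≤ l), ∑ g ∈ Φ l, (prs c Z Y g : ℚ) := by
      have h4 : F ⊆ ((Finset.range J).filter (fun l => m ≤ l)).biUnion Φ := by
        intro g hg
        obtain ⟨l, hl1, hl2, hl3⟩ := hcov g hg
        exact Finset.mem_biUnion.mpr ⟨l, Finset.mem_filter.mpr ⟨Finset.mem_range.mpr hl2, hl1⟩,
          hl3⟩
      refine (Finset.sum_le_sum_of_subset_of_nonneg h4 fun _ _ _ => Nat.cast_nonneg _).trans ?_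
      exact sum_biUnion_le' _ _ _ fun _ => Nat.cast_nonneg _
    refine h3'.trans ?_
    refine le_trans (Finset.sum_le_sum (g := fun l => 3 * ((Z.card * Y.card : ℚ) * (1 / q l)))
      fun l hl => ?_) (Finset.sum_le_sum_of_subset_of_nonneg (Finset.filter_subset _ _)
        fun _ _ _ => by positivity)
    obtain ⟨hl1, hl2⟩ := Finset.mem_filter.mp hl
    have hql : (0 : ℚ) < q l := by exact_mod_cast hq0 l
    have h5 : ∀ g ∈ Φ l, (prs c Z Y g : ℚ) ≤ (Z.card * Y.card : ℚ) * (1 / q l) := by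
      intro g hg
      have h6 := hun l hl2 (Finset.mem_range.mp hl1) g hg
      have h7 : (q l : ℚ) * prs c Z Y g ≤ Z.card * Y.card := by exact_mod_cast h6
      rw [mul_one_div, le_div_iff₀ hql]
      linarith
    calc (∑ g ∈ Φ l, (prs c Z Y g : ℚ)) ≤ ∑ g ∈ Φ l, (Z.card * Y.card : ℚ) * (1 / q l) :=
          Finset.sum_le_sum h5
      _ = (Φ l).card * ((Z.card * Y.card : ℚ) * (1 / q l)) := by
          rw [Finset.sum_const, nsmul_eq_mul]
      _ ≤ 3 * ((Z.card * Y.card : ℚ) * (1 / q l)) := by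
          refine mul_le_mul_of_nonneg_right ?_ (by positivity)
          exact_mod_cast h3 l
  have h4 : ∑ l ∈ Finset.range J, 3 * ((Z.card * Y.card : ℚ) * (1 / q l)) =
      3 * (Z.card * Y.card : ℚ) * ∑ l ∈ Finset.range J, (1 : ℚ) / q l := by
    rw [Finset.mul_sum]
    exact Finset.sum_congr rfl fun l _ => by ring
  have hdq : (0 : ℚ) < d := by exact_mod_cast hd
  have hYq : (0 : ℚ) < Y.card := by exact_mod_cast hY
  have h1q : ((badZ c d Z Y F).card : ℚ) * Y.card ≤ 4 * d * ∑ g ∈ F, (prs c Z Y g : ℚ) := by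
    exact_mod_cast h1
  have h5 : ((badZ c d Z Y F).card : ℚ) * Y.card ≤
      4 * d * (3 * (Z.card * Y.card : ℚ) * (1 / (48 * d ^ 2))) := by
    refine h1q.trans (mul_le_mul_of_nonneg_left ?_ (by positivity))
    refine h2.trans (h4.le.trans ?_)
    exact mul_le_mul_of_nonneg_left hq (by positivity)
  have h6 : 4 * (d : ℚ) * (3 * (Z.card * Y.card : ℚ) * (1 / (48 * d ^ 2))) =
      Z.card * Y.card / (4 * d) := by
    field_simp
    ring
  rw [h6] at h5
  have h7 : (4 * d * (badZ c d Z Y F).card : ℚ) ≤ Z.card := by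
    have h8 : ((badZ c d Z Y F).card : ℚ) ≤ Z.card / (4 * d) := by
      refine le_of_mul_le_mul_right ?_ hYq
      rw [div_mul_eq_mul_div]
      exact h5
    rw [le_div_iff₀ (by positivity)] at h8
    linarith
  exact_mod_cast h7

/-- the invariant of the hub `y` in the zone `G m` -/
structure Inv (c : ℕ → ℕ → ℕ) (V : Finset ℕ) (R d : ℕ) (T : ℕ → ℕ) (J : ℕ) (U G : ℕ → Finset ℕ)
    (m y : ℕ) (K F : Finset ℕ) (Φ : ℕ → Finset ℕ) : Prop where
  mem : y ∈ G m
  hub : Hub c V y K F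
  bud : R = K.card + T m
  three : ∀ l, (Φ l).card ≤ 3
  arc : ∀ l, ∀ g ∈ Φ l, ∃ u ∈ U l, ∃ v ∈ U l, u < v ∧ c u v = g
  cov : ∀ g ∈ F, ∃ l, m ≤ l ∧ l < J ∧ g ∈ Φ l
  mass : 2 * d * ((G (m - 1)).filter fun w => c y w ∈ F).card ≤ (2 * d - 1) * (G (m - 1)).card

/-- one stage -/
theorem Inv.step {q A T : ℕ → ℕ} {J m y e : ℕ} {U G Φ : ℕ → Finset ℕ}
    (hZ : Zones c V d q A J U G) (hd : 0 < d) (he : 4 * d ≤ 2 ^ e) (hq0 : ∀ l, 0 < q l)
    (hq : ∑ l ∈ Finset.range J, (1 : ℚ) / q l ≤ 1 / (48 * d ^ 2))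
    (hm : 1 ≤ m) (hmJ : m + 1 < J)
    (hst : StageP c V R V.card d (T (m + 1)) (T m) (A (m + 1) + e))
    (h : Inv c V R d T J U G (m + 1) y K F Φ) :
    ∃ y' K' F' Φ', Inv c V R d T J U G m y' K' F' Φ' := by
  have hV : 0 < V.card := Finset.card_pos.mpr ⟨y, h.hub.mem⟩
  have hUV : ∀ k ≤ J, U k ⊆ V := fun k hk => by
    have := hZ.subset (Nat.zero_le k) hk
    rwa [hZ.base] at this
  have hGpos : ∀ k < J, 0 < (G k).card := fun k hk => by
    have h1 := hZ.szG k hk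
    rcases Nat.eq_zero_or_pos (G k).card with h0 | h0
    · rw [h0, Nat.mul_zero] at h1
      omega
    · exact h0
  have hGU : ∀ k < J, G k ⊆ U k := hZ.sub
  have hlt : ∀ v ∈ G m, ∀ w ∈ G (m - 1), v < w := by
    intro v hv w hw
    refine hZ.lt (m - 1) (by omega) v ?_ w hw
    rw [Nat.sub_add_cancel hm]
    exact hGU m (by omega) hv
  have hyU : y ∈ U (m + 1) := hGU (m + 1) hmJ h.mem
  have hyG : ∀ v ∈ G m, y < v := fun v hv => hZ.lt m (by omega) y hyU v hv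
  -- the clean part
  have hcl := clean (c := c) (d := d) (Z := G m) (Y := G (m - 1)) (F := F) (q := q) (m := m + 1)
    (J := J) (Φ := Φ) hlt hd (hGpos _ (by omega)) h.three h.cov (by
      intro l hl hlJ g hg
      obtain ⟨u, hu, v, hv, huv, rfl⟩ := h.arc l g hg
      exact hZ.unp l hlJ.le u hu v hv huv m (by omega) (m - 1) (by omega)) hq0 hq
  set Z0 := (G m).filter fun v => c y v ∉ F ∧
    4 * d * ((G (m - 1)).filter fun w => c v w ∈ F).card ≤ (G (m - 1)).card with hZ0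
  have hZ0G : Z0 ⊆ G m := Finset.filter_subset _ _
  have hcard : (G m).card ≤ 4 * d * Z0.card := by
    have h1 : G m ⊆ ((G m).filter fun v => c y v ∈ F) ∪ badZ c d (G m) (G (m - 1)) F ∪ Z0 := by
      intro v hv
      by_cases h1 : c y v ∈ F
      · exact Finset.mem_union_left _ (Finset.mem_union_left _ (Finset.mem_filter.mpr ⟨hv, h1⟩))
      by_cases h2 : 4 * d * ((G (m - 1)).filter fun w => c v w ∈ F).card ≤ (G (m - 1)).card
      · exact Finset.mem_union_right _ (Finset.mem_filter.mpr ⟨hv, h1, h2⟩)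
      · exact Finset.mem_union_left _ (Finset.mem_union_right _ (Finset.mem_filter.mpr ⟨hv, h2⟩))
    have h2 := (Finset.card_le_card h1).trans ((Finset.card_union_le _ _).trans
      (Nat.add_le_add_right (Finset.card_union_le _ _) _))
    have h3 := h.mass
    rw [Nat.add_sub_cancel] at h3
    obtain ⟨a, ha⟩ : ∃ a, a = ((G m).filter fun v => c y v ∈ F).card := ⟨_, rfl⟩
    obtain ⟨b, hb⟩ : ∃ b, b = (badZ c d (G m) (G (m - 1)) F).card := ⟨_, rfl⟩
    rw [← ha, ← hb] at h2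
    rw [← ha] at h3
    rw [← hb] at hcl
    obtain ⟨n, hn⟩ : ∃ n, n = (G m).card := ⟨_, rfl⟩
    obtain ⟨z, hz⟩ : ∃ z, z = Z0.card := ⟨_, rfl⟩
    rw [← hn] at h2 h3 hcl ⊢
    rw [← hz] at h2 ⊢
    obtain ⟨d', rfl⟩ : ∃ d', d = d' + 1 := ⟨d - 1, by omega⟩
    have h4 : 2 * (d' + 1) - 1 = 2 * d' + 1 := by omega
    rw [h4] at h3
    nlinarith [Nat.mul_le_mul_left (4 * (d' + 1)) h2]
  have hbig : V.card ≤ 2 ^ (A (m + 1) + e) * Z0.card := by
    calc V.card ≤ 2 ^ A (m + 1) * (G m).card := hZ.szG m (by omega)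
      _ ≤ 2 ^ A (m + 1) * (4 * d * Z0.card) := Nat.mul_le_mul_left _ hcard
      _ ≤ 2 ^ A (m + 1) * (2 ^ e * Z0.card) :=
          Nat.mul_le_mul_left _ (Nat.mul_le_mul_right _ he)
      _ = 2 ^ (A (m + 1) + e) * Z0.card := by rw [pow_add, mul_assoc]
  obtain ⟨x', hx', K', F', Φ₀, h1, h2, h3, h4, h5, h6⟩ := hst y K F Z0 (G (m - 1)) h.hub h.bud
    (hZ0G.trans ((hGU m (by omega)).trans (hUV m (by omega))))
    ((hGU (m - 1) (by omega)).trans (hUV (m - 1) (by omega)))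
    (fun v hv => hyG v (hZ0G hv)) (fun v hv w hw => hlt v (hZ0G hv) w hw)
    (fun v hv => (Finset.mem_filter.mp hv).2.1) hbig
    (fun v hv => by
      refine hZ.ndom (m - 1) (by omega) v ?_
      rw [Nat.sub_add_cancel hm]
      exact hGU m (by omega) (hZ0G hv))
    (fun v hv => (Finset.mem_filter.mp hv).2.2)
  refine ⟨x', K', F', fun l => if l = m then Φ₀ else Φ l, ⟨hZ0G hx', h1, h2, ?_, ?_, ?_, h6⟩⟩
  · intro l
    split_ifs
    · exact h3
    · exact h.three l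
  · intro l g hg
    split_ifs at hg with hl
    · subst hl
      obtain ⟨u, hu, v, hv, huv, he⟩ := h5 g hg
      have hin : insert y Z0 ⊆ U l := by
        refine Finset.insert_subset (hZ.anti l (by omega) hyU) (hZ0G.trans (hGU l (by omega)))
      exact ⟨u, hin hu, v, hin hv, huv, he⟩
    · exact h.arc l g hg
  · intro g hg
    rcases Finset.mem_union.mp (h4 hg) with h7 | h7
    · obtain ⟨l, hl1, hl2, hl3⟩ := h.cov g h7
      refine ⟨l, by omega, hl2, ?_⟩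
      rw [if_neg (by omega)]
      exact hl3
    · refine ⟨m, le_refl _, by omega, ?_⟩
      rw [if_pos rfl]
      exact h7

/-- **LOOP** : all stages, from the zone `G (J - 1)` to the zone `G 1`, and the end on `G 0`. -/
theorem loop {q A T : ℕ → ℕ} {J e : ℕ} {U G : ℕ → Finset ℕ} (hL : Lev c V 3 lev)
    (hR : Rk c V R) (hZ : Zones c V d q A J U G) (hd : 0 < d) (he : 4 * d ≤ 2 ^ e)
    (hq0 : ∀ l, 0 < q l)
    (hq : ∑ l ∈ Finset.range J, (1 : ℚ) / q l ≤ 1 / (48 * d ^ 2)) (hJ : 2 ≤ J)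
    (hT : T (J - 1) = R)
    (hst : ∀ m, 1 ≤ m → m + 1 < J → StageP c V R V.card d (T (m + 1)) (T m) (A (m + 1) + e)) :
    V.card ≤ 2 ^ A 1 * (2 * d * KA (T 1 + 1)) * 3 ^ R := by
  rcases V.eq_empty_or_nonempty with rfl | hne
  · simp
  have hV : 0 < V.card := Finset.card_pos.mpr hne
  have hUV : ∀ k ≤ J, U k ⊆ V := fun k hk => by
    have := hZ.subset (Nat.zero_le k) hk
    rwa [hZ.base] at this
  have hGpos : ∀ k < J, 0 < (G k).card := fun k hk => by
    have h1 := hZ.szG k hk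
    rcases Nat.eq_zero_or_pos (G k).card with h0 | h0
    · rw [h0, Nat.mul_zero] at h1
      omega
    · exact h0
  -- all hubs
  have key : ∀ k, k ≤ J - 2 → ∃ y K F Φ, Inv c V R d T J U G (J - 1 - k) y K F Φ := by
    intro k
    induction k with
    | zero =>
      intro _
      obtain ⟨y, hy⟩ := Finset.card_pos.mp (hGpos (J - 1) (by omega))
      have hyV : y ∈ V := hUV (J - 1) (by omega) (hZ.sub (J - 1) (by omega) hy)
      refine ⟨y, ∅, ∅, fun _ => ∅, ⟨hy, Hub.start hyV, ?_, ?_, ?_, ?_, ?_⟩⟩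
      · rw [Nat.sub_zero, hT, Finset.card_empty, Nat.zero_add]
      · intro l
        simp
      · intro l g hg
        simp at hg
      · intro g hg
        simp at hg
      · simp
    | succ k ih =>
      intro hk
      obtain ⟨y, K, F, Φ, hI⟩ := ih (by omega)
      have h1 : J - 1 - k = (J - 1 - (k + 1)) + 1 := by omega
      rw [h1] at hI
      exact hI.step hZ hd he hq0 hq (by omega) (by omega) (hst _ (by omega) (by omega))
  obtain ⟨y, K, F, Φ, hI⟩ := key (J - 2) (le_refl _)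
  rw [show J - 1 - (J - 2) = 1 by omega] at hI
  have hyU : y ∈ U 1 := hZ.sub 1 (by omega) hI.mem
  have h1 := hI.hub.end_le (t := T 1) (Z := G 0) hL hR hI.bud.le
    ((hZ.sub 0 (by omega)).trans (hUV 0 (by omega))) (fun v hv => hZ.lt 0 (by omega) y hyU v hv)
  have h2 := hI.mass
  rw [show 1 - 1 = 0 from rfl] at h2
  have h3 : (G 0).card ≤ 2 * d * (KA (T 1 + 1) * 3 ^ R) := by
    obtain ⟨a, ha⟩ : ∃ a, a = ((G 0).filter fun w => c y w ∈ F).card := ⟨_, rfl⟩
    rw [← ha] at h1 h2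
    obtain ⟨d', rfl⟩ : ∃ d', d = d' + 1 := ⟨d - 1, by omega⟩
    have h4 : 2 * (d' + 1) - 1 = 2 * d' + 1 := by omega
    rw [h4] at h2
    nlinarith [Nat.mul_le_mul_left (2 * (d' + 1)) h1]
  calc V.card ≤ 2 ^ A 1 * (G 0).card := hZ.szG 0 (by omega)
    _ ≤ 2 ^ A 1 * (2 * d * (KA (T 1 + 1) * 3 ^ R)) := Nat.mul_le_mul_left _ h3
    _ = 2 ^ A 1 * (2 * d * KA (T 1 + 1)) * 3 ^ R := by ring

end FlashRainbow.CF
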