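import Pool.Agent.Work.MP_54723a_co.CF.StageSkip
import Pool.Agent.Work.MP_54723a_co.CF.HZones
import Pool.Agent.Work.MP_54723a_co.CF.NoFar
import Pool.Agent.Work.MP_54723a_co.CF.Num
import Pool.Agent.Work.MP_54723a_co.CF.Maxim

/-!
# Constant factor, measure route: the loop  (helper53)

Everything over `StageSkip` (stage with skip junctions), `HZones.zones` (helper60),
`NoFar.far_free` (helper74, theorem of helper20), `Num.numbers_zones` (helper27) and
`Maxim.final_of_ext` (helper69).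
-/

set_option autoImplicit false

namespace FlashRainbow.CF.Skip

open Classical

variable {c : ℕ → ℕ → ℕ} {V Z X Y K F Φ P : Finset ℕ} {R t p τ x a : ℕ} {lev : ℕ → ℕ → ℕ}

theorem junc_of_not (h : ¬ NoJun3 c Z K F x τ) : Junc c Z K F x τ := by
  by_contra hcon
  unfold Junc at hcon
  rw [not_or, not_or] at hcon
  obtain ⟨h1, h2, h3⟩ := hcon
  refine h ⟨⟨?_, ?_⟩, ?_⟩
  · intro l hl X hX hXK
    by_contra hlt
    exact h1 ⟨l, hl, X, hX, hXK, by omega⟩
  · intro u hu φ hφ hne X hX hXK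
    by_contra hlt
    exact h2 ⟨u, hu, φ, hφ, hne, X, hX, hXK, by omega⟩
  · intro u hu s hs hus g1 g2 g3 g4 X hX hXK
    by_contra hlt
    exact h3 ⟨u, hu, s, hs, hus, g1, g4, g2, g3, X, hX, hXK, by omega⟩

theorem log_small' {L t : ℕ} (hL : 2 ^ L ≤ t + 1) (ht : 2 ^ 20 ≤ t) : 50000 * L ≤ t + 1 := by
  rcases Nat.lt_or_ge L 20 with h | h
  · have : 50000 * L ≤ 50000 * 20 := Nat.mul_le_mul_left _ h.le
    have h2 : (2 : ℕ) ^ 20 = 1048576 := by norm_num
    omega
  · have key : ∀ n : ℕ, 50000 * (n + 20) ≤ 2 ^ (n + 20) := by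
      intro n
      induction n with
      | zero => norm_num
      | succ n ih =>
        rw [show n + 1 + 20 = (n + 20) + 1 by ring, pow_succ]
        have : (1048576 : ℕ) ≤ 2 ^ (n + 20) := by
          calc (1048576 : ℕ) = 2 ^ 20 := by norm_num
            _ ≤ 2 ^ (n + 20) := Nat.pow_le_pow_right (by norm_num) (by omega)
        omega
    obtain ⟨n, rfl⟩ : ∃ n, L = n + 20 := ⟨L - 20, by omega⟩
    exact (key n).trans hL

/-- a junction exists in every large part of a zone -/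
theorem junc_of_big (hL : Lev c V 3 lev) (hR : Rk c V R) (hE : Ext c V R) (hH : Hub c V x K F)
    (ht : R = K.card + t) (hZV : Z ⊆ V) (hxZ : ∀ v ∈ Z, x < v) (hxF : ∀ v ∈ Z, c x v ∉ F)
    {L : ℕ} (hLt : t + 1 < 2 ^ (L + 1)) (hVZ : V.card ≤ 2 ^ a * Z.card) (hτ : 0 < τ)
    (hτV : 2 ^ (a + 2 * L + 7) * (3 ^ K.card * τ) ≤ V.card) (hat : a + 2 * L + 4 ≤ t) :
    Junc c Z K F x τ := by
  by_contra hcon
  have hNJ : NoJun3 c Z K F x τ := by
    by_contra h
    exact hcon (junc_of_not h)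
  have h1 := far_free (t := t) (M := V.card) hL hR (fun W hW r hr h => hE W hW r hr h) hH (by omega) hZV
    hxZ hxF hτ hNJ
  have hV : 0 < V.card := lt_of_lt_of_le (by positivity) hτV
  have hsq : (t + 1) ^ 2 < 2 ^ (2 * L + 2) := by
    calc (t + 1) ^ 2 < (2 ^ (L + 1)) ^ 2 := Nat.pow_lt_pow_left hLt (by norm_num)
      _ = 2 ^ (2 * L + 2) := by rw [← pow_mul]; congr 1; ring
  -- the first term
  have hA : 2 * (2 ^ a * (2 * (t + 1) ^ 2 * 256 ^ t * V.card)) ≤ 729 ^ t * V.card := by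
    have e1 : 2 ^ a * 4 * (t + 1) ^ 2 ≤ 2 ^ t := by
      calc 2 ^ a * 4 * (t + 1) ^ 2 ≤ 2 ^ a * 4 * 2 ^ (2 * L + 2) := Nat.mul_le_mul_left _ hsq.le
        _ = 2 ^ (a + 2 * L + 4) := by
            rw [show (4 : ℕ) = 2 ^ 2 by norm_num, ← pow_add, ← pow_add]; congr 1; ring
        _ ≤ 2 ^ t := Nat.pow_le_pow_right (by norm_num) hat
    calc 2 * (2 ^ a * (2 * (t + 1) ^ 2 * 256 ^ t * V.card))
        = (2 ^ a * 4 * (t + 1) ^ 2) * 256 ^ t * V.card := by ring
      _ ≤ 2 ^ t * 256 ^ t * V.card := Nat.mul_le_mul_right _ (Nat.mul_le_mul_right _ e1)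
      _ = 512 ^ t * V.card := by rw [← mul_pow]; norm_num
      _ ≤ 729 ^ t * V.card := Nat.mul_le_mul_right _ (Nat.pow_le_pow_left (by norm_num) _)
  -- the second term
  have hpoly : bG t τ + (8 * t ^ 2 + 1) * τ ≤ 16 * (t + 1) ^ 2 * τ := by
    unfold bG
    nlinarith [Nat.zero_le (t * τ), Nat.zero_le (t ^ 2 * τ), Nat.mul_le_mul_left t hτ]
  have hB : 2 * (2 ^ a * (3 ^ K.card * (bG t τ + (8 * t ^ 2 + 1) * τ))) < V.card := by
    have e0 : 0 < 3 ^ K.card * τ := by positivity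
    calc 2 * (2 ^ a * (3 ^ K.card * (bG t τ + (8 * t ^ 2 + 1) * τ)))
        ≤ 2 * (2 ^ a * (3 ^ K.card * (16 * (t + 1) ^ 2 * τ))) :=
          Nat.mul_le_mul_left _ (Nat.mul_le_mul_left _ (Nat.mul_le_mul_left _ hpoly))
      _ = (2 ^ a * 32 * (t + 1) ^ 2) * (3 ^ K.card * τ) := by ring
      _ < (2 ^ a * 32 * 2 ^ (2 * L + 2)) * (3 ^ K.card * τ) :=
          Nat.mul_lt_mul_of_pos_right (Nat.mul_lt_mul_of_pos_left hsq (by positivity)) e0
      _ = 2 ^ (a + 2 * L + 7) * (3 ^ K.card * τ) := by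
          rw [show (32 : ℕ) = 2 ^ 5 by norm_num, ← pow_add, ← pow_add]
          congr 2
          ring
      _ ≤ V.card := hτV
  have h2 : 2 * (729 ^ t * V.card) ≤ 2 * (729 ^ t * (2 ^ a * Z.card)) :=
    Nat.mul_le_mul_left _ (Nat.mul_le_mul_left _ hVZ)
  have h3 : 2 * (729 ^ t * (2 ^ a * Z.card)) = 2 * (2 ^ a * (Z.card * 729 ^ t)) := by ring
  have h4 := Nat.mul_le_mul_left 2 (Nat.mul_le_mul_left (2 ^ a) h1)
  have h5 : 2 * (2 ^ a * (2 * (t + 1) ^ 2 * 256 ^ t * V.card +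
      729 ^ t * (3 ^ K.card * (bG t τ + (8 * t ^ 2 + 1) * τ)))) =
      2 * (2 ^ a * (2 * (t + 1) ^ 2 * 256 ^ t * V.card)) +
      729 ^ t * (2 * (2 ^ a * (3 ^ K.card * (bG t τ + (8 * t ^ 2 + 1) * τ)))) := by ring
  have h6 : 729 ^ t * (2 * (2 ^ a * (3 ^ K.card * (bG t τ + (8 * t ^ 2 + 1) * τ)))) <
      729 ^ t * V.card := Nat.mul_lt_mul_of_pos_left hB (by positivity)
  omega

/-- the numbers of `hub_next` -/
theorem num_rich {m L : ℕ} (ht : 2 ^ 20 ≤ t) (hL1 : 2 ^ L ≤ t + 1) (hL2 : t + 1 < 2 ^ (L + 1))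
    (hp : 1000 * p ≤ t) (hm : 10 * m ≤ t) :
    ∃ s, 16 * (t + 1) * 2 ^ p ≤ 3 ^ s ∧ s + 4 ≤ t ∧
      3 + 2 * (p + (48 * s + 91)) + 7 * m + 3 < t := by
  have h1 := log_small' hL1 ht
  have h2 : (2 : ℕ) ^ 20 = 1048576 := by norm_num
  refine ⟨p + L + 5, ?_, by omega, by omega⟩
  calc 16 * (t + 1) * 2 ^ p ≤ 16 * 2 ^ (L + 1) * 2 ^ p :=
        Nat.mul_le_mul_right _ (Nat.mul_le_mul_left _ hL2.le)
    _ = 2 ^ (p + L + 5) := by
        rw [show (16 : ℕ) = 2 ^ 4 by norm_num, ← pow_add, ← pow_add]; congr 1; ring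
    _ ≤ 3 ^ (p + L + 5) := Nat.pow_le_pow_left (by norm_num) _

theorem sum_mass_le {A B : Finset ℕ} (h : ∀ v ∈ A, ∀ w ∈ B, v < w) :
    ∑ v ∈ A, mass c v P B ≤ ∑ φ ∈ P, prs c A B φ := by
  calc ∑ v ∈ A, mass c v P B ≤ ∑ v ∈ A, ∑ φ ∈ P, mass c v {φ} B :=
        Finset.sum_le_sum fun v _ => mass_le_sum
    _ = ∑ φ ∈ P, ∑ v ∈ A, mass c v {φ} B := Finset.sum_comm
    _ ≤ ∑ φ ∈ P, prs c A B φ := by
        refine Finset.sum_le_sum fun φ _ => le_of_eq ?_
        unfold prs mass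
        rw [Finset.card_filter, Finset.sum_product]
        refine Finset.sum_congr rfl fun v hv => ?_
        rw [Finset.card_filter]
        refine Finset.sum_congr rfl fun w hw => ?_
        simp [h v hv w hw]

theorem sum_union_le (f : ℕ → ℕ) (A B : Finset ℕ) :
    ∑ φ ∈ A ∪ B, f φ ≤ ∑ φ ∈ A, f φ + ∑ φ ∈ B, f φ := by
  rw [← Finset.sum_union_inter]
  exact Nat.le_add_right _ _

/-- the density invariant of the junction colours -/
def InvF (c : ℕ → ℕ → ℕ) (G : ℕ → Finset ℕ) (Q i : ℕ) (F : Finset ℕ) : Prop :=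
  ∀ a < i, ∀ b ≤ a, Q * i * ∑ φ ∈ F, prs c (G a) (G b) φ ≤ 3 * ((G a).card * (G b).card)

theorem InvF.step {G U : ℕ → Finset ℕ} {Q i j n d : ℕ} {q A : ℕ → ℕ} (h : InvF c G Q i F)
    (hZ : Zones c V d q A n U G) (hq : ∀ m, q m = Q * (m * (m + 1))) (hj : 1 ≤ j) (hji : j < i)
    (hjn : j ≤ n) (hΦ : Φ.card ≤ 3) (hc : ∀ φ ∈ Φ, ∃ u ∈ U j, ∃ w ∈ U j, u < w ∧ c u w = φ) :
    InvF c G Q j (F ∪ Φ) := by
  intro a ha b hb
  obtain ⟨P, hP⟩ : ∃ P, P = (G a).card * (G b).card := ⟨_, rfl⟩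
  have h1 := h a (by omega) b hb
  rw [← hP] at h1 ⊢
  obtain ⟨SF, hSF⟩ : ∃ s, s = ∑ φ ∈ F, prs c (G a) (G b) φ := ⟨_, rfl⟩
  obtain ⟨SP, hSP⟩ : ∃ s, s = ∑ φ ∈ Φ, prs c (G a) (G b) φ := ⟨_, rfl⟩
  have h2 : Q * (j * (j + 1)) * SP ≤ 3 * P := by
    rw [hSP, Finset.mul_sum]
    calc ∑ φ ∈ Φ, Q * (j * (j + 1)) * prs c (G a) (G b) φ ≤ ∑ _φ ∈ Φ, P := by
          refine Finset.sum_le_sum fun φ hφ => ?_
          obtain ⟨u, hu, w, hw, huw, rfl⟩ := hc φ hφ
          have := hZ.unp j hjn u hu w hw huw a ha b hb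
          rw [hq j] at this
          rw [hP]
          exact this
      _ = Φ.card * P := by rw [Finset.sum_const, smul_eq_mul]
      _ ≤ 3 * P := Nat.mul_le_mul_right _ hΦ
  have h3 : ∑ φ ∈ F ∪ Φ, prs c (G a) (G b) φ ≤ SF + SP := by
    rw [hSF, hSP]
    exact sum_union_le _ _ _
  rw [← hSF] at h1
  have h4 : Q * (j + 1) * SF ≤ 3 * P :=
    (Nat.mul_le_mul_right _ (Nat.mul_le_mul_left _ (by omega))).trans h1
  refine (Nat.mul_le_mul_left _ h3).trans ?_
  refine Nat.le_of_mul_le_mul_left (c := j + 1) ?_ (by omega)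
  calc (j + 1) * (Q * j * (SF + SP)) = j * (Q * (j + 1) * SF) + Q * (j * (j + 1)) * SP := by ring
    _ ≤ j * (3 * P) + 3 * P := Nat.add_le_add (Nat.mul_le_mul_left _ h4) h2
    _ = (j + 1) * (3 * P) := by ring

theorem mass_singleton (v g : ℕ) : mass c v {g} Y = (Y.filter fun w => c v w = g).card := by
  unfold mass
  congr 1
  refine Finset.filter_congr fun w _ => ?_
  rw [Finset.mem_singleton]

/-- **LOOP** -/
theorem loop {n C : ℕ} {T A q : ℕ → ℕ} {U G : ℕ → Finset ℕ} (hL : Lev c V 3 lev)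
    (hR : Rk c V R) (hE : Ext c V R) (hV3 : 3 ^ R ≤ V.card)
    (hZ : Zones c V 1536 q A (n + 1) U G) (hq : ∀ m, q m = 96 * 3072 ^ 2 * (m * (m + 1)))
    (hA : ∀ k, A k ≤ A (k + 1)) (hT2 : T 2 ≤ C)
    (hT : ∀ i, 2 ≤ i → i ≤ n → 2 ^ 20 ≤ T i ∧ 2000 * (A i + 27) ≤ T i)
    (hTs : ∀ i, 2 ≤ i → i < n → T i + 3 ≤ T (i + 1) ∧ 20 * (T (i + 1) - T i) ≤ T (i + 1)) :
    ∀ i, 2 ≤ i → i ≤ n → ∀ y ∈ G i, ∀ K F, Hub c V y K F → R = K.card + T i →
      3072 * mass c y F (G (i - 1)) + (G (i - 1)).card ≤ 3072 * (G (i - 1)).card →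
      InvF c G (96 * 3072 ^ 2) i F →
      V.card ≤ 2 ^ A 3 * (3072 * (KA (2 * C + 1) * 3 ^ R)) := by
  have hV : 0 < V.card := lt_of_lt_of_le (by positivity) hV3
  have hG : ∀ k, k ≤ n → 0 < (G k).card := by
    intro k hk
    rcases Nat.eq_zero_or_pos (G k).card with h0 | h0
    · have := hZ.szG k (by omega)
      rw [h0] at this
      omega
    · exact h0
  have hGV : ∀ k, k ≤ n → G k ⊆ V := by
    intro k hk
    have h1 := hZ.subset (i := 0) (j := k) (by omega) (by omega)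
    rw [hZ.base] at h1
    exact (hZ.sub k (by omega)).trans h1
  have hlt : ∀ k, k < n → ∀ v ∈ G (k + 1), ∀ w ∈ G k, v < w := fun k hk v hv w hw =>
    hZ.lt k (by omega) v (hZ.sub (k + 1) (by omega) hv) w hw
  have hnd : ∀ k, k < n → ∀ v ∈ G (k + 1), ∀ g,
      3072 * mass c v {g} (G k) + 2 * (G k).card ≤ 3072 * (G k).card := by
    intro k hk v hv g
    have h1 := hZ.ndom k (by omega) v (hZ.sub (k + 1) (by omega) hv) g
    rw [mass_singleton]
    omega
  intro i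
  induction i using Nat.strong_induction_on with
  | _ i ih =>
  intro hi2 hin y hy K F hH hRK hinv hF
  rcases Nat.lt_or_ge i 4 with hi4 | hi4
  · -- END
    have hTi : T i ≤ 2 * C := by
      rcases Nat.lt_or_ge i 3 with h | h
      · obtain rfl : i = 2 := by omega
        omega
      · obtain rfl : i = 3 := by omega
        have := (hTs 2 (by omega) (by omega)).2
        norm_num at this
        omega
    have h1 := hH.end_le (Z := G (i - 1)) hL hR (t := 2 * C) (by omega) (hGV _ (by omega)) (by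
      intro v hv
      have := hlt (i - 1) (by omega) y (by rwa [show i - 1 + 1 = i by omega]) v hv
      exact this)
    have h2 : (G (i - 1)).card ≤ 3072 * (KA (2 * C + 1) * 3 ^ R) := by
      have h3 : ((G (i - 1)).filter fun v => c y v ∈ F).card = mass c y F (G (i - 1)) := rfl
      rw [h3] at h1
      have h4 := Nat.mul_le_mul_left 3072 h1
      rw [Nat.mul_add] at h4
      omega
    have h3 := hZ.szG (i - 1) (by omega)
    rw [show i - 1 + 1 = i by omega] at h3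
    have hA3 : A i ≤ A 3 := by
      rcases Nat.lt_or_ge i 3 with h | h
      · obtain rfl : i = 2 := by omega
        exact hA 2
      · obtain rfl : i = 3 := by omega
        exact le_refl _
    calc V.card ≤ 2 ^ A i * (G (i - 1)).card := h3
      _ ≤ 2 ^ A 3 * (3072 * (KA (2 * C + 1) * 3 ^ R)) :=
        Nat.mul_le_mul (Nat.pow_le_pow_right (by norm_num) hA3) h2
  · -- STAGE
    obtain ⟨j, rfl⟩ : ∃ j, i = j + 3 := ⟨i - 3, by omega⟩
    have hj1 : 1 ≤ j := by omega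
    rw [show j + 3 - 1 = j + 2 by omega] at hinv
    obtain ⟨hT20, hTA⟩ := hT (j + 3) (by omega) hin
    obtain ⟨t, htdef⟩ : ∃ t, t = T (j + 3) := ⟨_, rfl⟩
    rw [← htdef] at hT20 hTA hRK
    have h20 : (2 : ℕ) ^ 20 = 1048576 := by norm_num
    obtain ⟨L, hLdef⟩ : ∃ L, L = Nat.log 2 (t + 1) := ⟨_, rfl⟩
    have hL1 : 2 ^ L ≤ t + 1 := by
      rw [hLdef]
      exact Nat.pow_log_le_self 2 (by omega)
    have hL2 : t + 1 < 2 ^ (L + 1) := by
      rw [hLdef]
      exact Nat.lt_pow_succ_log_self (by norm_num) _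
    have hLs := log_small' hL1 hT20
    obtain ⟨b, hb⟩ : ∃ b, b = A (j + 3) + 13 + 2 * L + 7 := ⟨_, rfl⟩
    obtain ⟨p, hp⟩ : ∃ p, p = b + 7 := ⟨_, rfl⟩
    have hp1000 : 1000 * p ≤ t := by omega
    have hbt : b ≤ t := by omega
    -- the threshold
    obtain ⟨τ, hτdef⟩ : ∃ τ, τ = V.card / (3 ^ K.card * 2 ^ b) := ⟨_, rfl⟩
    have hden : 0 < 3 ^ K.card * 2 ^ b := by positivity
    have hτ : 0 < τ := by
      rw [hτdef]
      refine Nat.div_pos ?_ hden
      calc 3 ^ K.card * 2 ^ b ≤ 3 ^ K.card * 3 ^ t := Nat.mul_le_mul_left _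
            ((Nat.pow_le_pow_left (by norm_num) b).trans (Nat.pow_le_pow_right (by norm_num) hbt))
        _ = 3 ^ R := by rw [← pow_add, ← hRK]
        _ ≤ V.card := hV3
    have hτ1 : 2 ^ b * (3 ^ K.card * τ) ≤ V.card := by
      have := Nat.mul_div_le V.card (3 ^ K.card * 2 ^ b)
      rw [← hτdef] at this
      calc 2 ^ b * (3 ^ K.card * τ) = 3 ^ K.card * 2 ^ b * τ := by ring
        _ ≤ V.card := this
    have hτ2 : V.card ≤ 2 ^ (b + 1) * 3 ^ K.card * τ := by
      have h1 := Nat.lt_mul_div_succ V.card hden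
      rw [← hτdef] at h1
      calc V.card ≤ 3 ^ K.card * 2 ^ b * (τ + 1) := h1.le
        _ ≤ 3 ^ K.card * 2 ^ b * (2 * τ) := Nat.mul_le_mul_left _ (by omega)
        _ = 2 ^ (b + 1) * 3 ^ K.card * τ := by rw [pow_succ]; ring
    have hyU : y ∈ U (j + 3) := hZ.sub (j + 3) (by omega) hy
    have hU32 : U (j + 3) ⊆ U (j + 2) := hZ.anti (j + 2) (by omega)
    have hU21 : U (j + 2) ⊆ U (j + 1) := hZ.anti (j + 1) (by omega)
    have hyU2 : y ∈ U (j + 2) := hU32 hyU
    have hG2U : G (j + 2) ⊆ U (j + 2) := hZ.sub (j + 2) (by omega)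
    have hG1U : G (j + 1) ⊆ U (j + 1) := hZ.sub (j + 1) (by omega)
    have hyV : y ∈ V := hH.mem
    have hQ : ∀ a' < j + 3, ∀ b' ≤ a', 96 * 3072 ^ 2 * ∑ φ ∈ F, prs c (G a') (G b') φ ≤
        3 * ((G a').card * (G b').card) := by
      intro a' ha' b' hb'
      refine le_trans (Nat.mul_le_mul_right _ ?_) (hF a' ha' b' hb')
      exact Nat.le_mul_of_pos_right _ (by omega)
    obtain ⟨Φ, X, hΦ3, hΦF, hJX, hXf, hcase⟩ := stage_jun (c := c) (V := V) (Z1 := G (j + 2))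
      (Z2 := G (j + 1)) (Z3 := G j) (q := 3072) (K := K) (F := F) (τ := τ) hL hyV
      (hGV _ (by omega)) (hGV _ (by omega)) (fun v hv => hlt (j + 2) (by omega) y hy v hv)
      (hlt (j + 1) (by omega)) hinv (hnd (j + 1) (by omega)) (hnd j (by omega)) (by
        have h1 := hQ (j + 2) (by omega) (j + 1) (by omega)
        have h2 := sum_mass_le (c := c) (P := F) (A := G (j + 2)) (B := G (j + 1))
          (hlt (j + 1) (by omega))
        have h3 := Nat.mul_le_mul_left (4 * 3072 ^ 2) h2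
        refine h3.trans ?_
        have h4 : 24 * (4 * 3072 ^ 2 * ∑ φ ∈ F, prs c (G (j + 2)) (G (j + 1)) φ) =
          96 * 3072 ^ 2 * ∑ φ ∈ F, prs c (G (j + 2)) (G (j + 1)) φ := by ring
        omega) (by
        intro v hv
        have h1 := hQ (j + 1) (by omega) j (by omega)
        have h2 := sum_mass_le (c := c) (P := insert (c y v) F) (A := G (j + 1)) (B := G j)
          (hlt j (by omega))
        have h3 : ∑ φ ∈ insert (c y v) F, prs c (G (j + 1)) (G j) φ ≤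
            prs c (G (j + 1)) (G j) (c y v) + ∑ φ ∈ F, prs c (G (j + 1)) (G j) φ := by
          have := sum_union_le (fun φ => prs c (G (j + 1)) (G j) φ) {c y v} F
          rwa [Finset.sum_singleton, ← Finset.insert_eq] at this
        have h4 := hZ.unp (j + 2) (by omega) y hyU2 v (hG2U hv)
          (hlt (j + 2) (by omega) y hy v hv) (j + 1) (by omega) j (by omega)
        rw [hq] at h4
        have h5 : 96 * 3072 ^ 2 * prs c (G (j + 1)) (G j) (c y v) ≤
            (G (j + 1)).card * (G j).card := by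
          refine le_trans (Nat.mul_le_mul_right _ ?_) h4
          exact Nat.le_mul_of_pos_right _ (by positivity)
        have h6 := Nat.mul_le_mul_left (24 * 3072 ^ 2) (h2.trans h3)
        refine h6.trans ?_
        have h7 : 4 * (24 * 3072 ^ 2 * (prs c (G (j + 1)) (G j) (c y v) +
            ∑ φ ∈ F, prs c (G (j + 1)) (G j) φ)) =
            96 * 3072 ^ 2 * prs c (G (j + 1)) (G j) (c y v) +
            96 * 3072 ^ 2 * ∑ φ ∈ F, prs c (G (j + 1)) (G j) φ := by ring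
        omega) (hG _ (by omega)) (hG _ (by omega)) hτ (by
        intro Z0 hZ0 hZ0c hZ0F
        have h1 := hZ.szG (j + 2) (by omega)
        have h2 : V.card ≤ 2 ^ (A (j + 3) + 13) * Z0.card := by
          calc V.card ≤ 2 ^ A (j + 3) * (G (j + 2)).card := h1
            _ ≤ 2 ^ A (j + 3) * (2 * 3072 * Z0.card) := Nat.mul_le_mul_left _ hZ0c
            _ ≤ 2 ^ A (j + 3) * (2 ^ 13 * Z0.card) :=
                Nat.mul_le_mul_left _ (Nat.mul_le_mul_right _ (by norm_num))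
            _ = 2 ^ (A (j + 3) + 13) * Z0.card := by rw [pow_add]; ring
        refine junc_of_big (a := A (j + 3) + 13) hL hR hE hH hRK (hZ0.trans (hGV _ (by omega)))
          (fun v hv => hlt (j + 2) (by omega) y hy v (hZ0 hv)) hZ0F hL2 h2 hτ ?_ (by omega)
        rw [← hb]
        exact hτ1)
    have hTs1 := hTs (j + 2) (by omega) (by omega)
    have hTs2 := hTs (j + 1) (by omega) (by omega)
    rw [show j + 2 + 1 = j + 3 by ring, ← htdef] at hTs1
    rw [show j + 1 + 1 = j + 2 by ring] at hTs2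
    rcases hcase with ⟨hXG, hXc, hXi, hΦc⟩ | ⟨hXG, hXc, hXi, hΦc⟩
    · -- hub in the first zone
      obtain ⟨s, hs1, hs2, hs3⟩ := num_rich (m := t - T (j + 2)) hT20 hL1 hL2 hp1000 (by omega)
      obtain ⟨y', hy', K', hH', hK'⟩ := hub_next hL hR hE hV3 hH hRK hΦ3 hΦF hJX hXf (p := p) (by
        calc V.card ≤ 2 ^ (b + 1) * 3 ^ K.card * τ := hτ2
          _ ≤ 2 ^ (b + 1) * 3 ^ K.card * (54 * X.card) := Nat.mul_le_mul_left _ hXc
          _ ≤ 2 ^ (b + 1) * 3 ^ K.card * (2 ^ 6 * X.card) :=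
              Nat.mul_le_mul_left _ (Nat.mul_le_mul_right _ (by norm_num))
          _ = 2 ^ p * 3 ^ K.card * X.card := by
              rw [hp, show b + 7 = (b + 1) + 6 by ring, pow_add 2 (b + 1) 6]; ring) hs1 hs2
        (t' := T (j + 2)) (by omega) hs3
      refine ih (j + 2) (by omega) (by omega) (by omega) y' (hXG hy') K' (F ∪ Φ) hH' hK' ?_ ?_
      · rw [show j + 2 - 1 = j + 1 by omega]
        exact hXi y' hy'
      · refine hF.step hZ hq (by omega) (by omega) (by omega) hΦ3 ?_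
        intro φ hφ
        obtain ⟨u, hu, w, hw, h⟩ := hΦc φ hφ
        refine ⟨u, ?_, w, hG2U hw, h⟩
        rcases Finset.mem_insert.mp hu with rfl | hu
        · exact hyU2
        · exact hG2U hu
    · -- hub in the second zone
      obtain ⟨s, hs1, hs2, hs3⟩ := num_rich (m := t - T (j + 1)) hT20 hL1 hL2 hp1000 (by omega)
      have hAm : A (j + 2) ≤ A (j + 3) := hA (j + 2)
      obtain ⟨y', hy', K', hH', hK'⟩ := hub_next hL hR hE hV3 hH hRK hΦ3 hΦF hJX hXf (p := p) (by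
        calc V.card ≤ 2 ^ A (j + 2) * (G (j + 1)).card := hZ.szG (j + 1) (by omega)
          _ ≤ 2 ^ A (j + 2) * (108 * 3072 * 3 ^ K.card * X.card) := Nat.mul_le_mul_left _ hXc
          _ ≤ 2 ^ A (j + 2) * (2 ^ 19 * 3 ^ K.card * X.card) :=
              Nat.mul_le_mul_left _ (Nat.mul_le_mul_right _ (Nat.mul_le_mul_right _ (by norm_num)))
          _ = 2 ^ (A (j + 2) + 19) * 3 ^ K.card * X.card := by rw [pow_add]; ring
          _ ≤ 2 ^ p * 3 ^ K.card * X.card := Nat.mul_le_mul_right _ (Nat.mul_le_mul_right _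
              (Nat.pow_le_pow_right (by norm_num) (by omega)))) hs1 hs2
        (t' := T (j + 1)) (by omega) hs3
      refine ih (j + 1) (by omega) (by omega) (by omega) y' (hXG hy') K' (F ∪ Φ) hH' hK' ?_ ?_
      · rw [show j + 1 - 1 = j by omega]
        exact hXi y' hy'
      · refine hF.step hZ hq (by omega) (by omega) (by omega) hΦ3 ?_
        intro φ hφ
        obtain ⟨u, hu, w, hw, h⟩ := hΦc φ hφ
        refine ⟨u, ?_, w, ?_, h⟩
        · rcases Finset.mem_insert.mp hu with rfl | hu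
          · exact hU21 hyU2
          · exact hU21 (hG2U hu)
        · rcases Finset.mem_union.mp hw with hw | hw
          · exact hU21 (hG2U hw)
          · exact hG1U hw

/-- the precisions -/
def qq (m : ℕ) : ℕ := 96 * 3072 ^ 2 * (m * (m + 1))

/-- the losses -/
def AAf (q : ℕ → ℕ) : ℕ → ℕ
  | 0 => 0
  | k + 1 => AAf q k + ((12 * AAf q k + 4) / (1536 / 2) + 1) + 13 +
      2 * ((k + 1) ^ 2 * q (k + 1))

theorem exists_losses (q : ℕ → ℕ) : ∃ AA : ℕ → ℕ, AA 0 = 0 ∧ ∀ k,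
    AA (k + 1) = AA k + ((12 * AA k + 4) / (1536 / 2) + 1) + 13 +
      2 * ((k + 1) ^ 2 * q (k + 1)) :=
  ⟨AAf q, rfl, fun _ => rfl⟩

/-- **extremal pairs have bounded ratio** -/
theorem ext_bound : ∃ C₀ : ℕ, ∀ (c : ℕ → ℕ → ℕ) (lev : ℕ → ℕ → ℕ) (W : Finset ℕ) (r : ℕ),
    Lev c W 3 lev → Rk c W r → Ext c W r → W.card ≤ C₀ * 3 ^ r := by
  obtain ⟨AA, hAA0, hAAs⟩ := exists_losses qq
  obtain ⟨C, hC1, hC⟩ := Sched.numbers_zones AA 1536 13 (96 * 3072 ^ 2) (le_refl _) (by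
    intro k
    rw [hAAs k]
    refine Nat.add_le_add_left (Nat.mul_le_mul_left _ (Nat.mul_le_mul_left _ ?_)) _
    unfold qq
    refine Nat.mul_le_mul_left _ ?_
    nlinarith) 2000 27 (2 ^ 20)
  refine ⟨2 ^ AA 3 * (3072 * KA (2 * C + 1)) + (KA (C + 1) + 1), ?_⟩
  intro c lev V R hL hR hE
  rcases Nat.lt_or_ge R C with hRC | hRC
  · -- small rank
    rcases V.eq_empty_or_nonempty with rfl | hne
    · simp
    set x := V.min' hne with hx
    have hxV : x ∈ V := Finset.min'_mem _ _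
    have h1 := (Hub.start (c := c) hxV).end_le (Z := V.erase x) hL hR (t := C) (by simp; omega)
      (Finset.erase_subset _ _) (by
        intro v hv
        exact lt_of_le_of_ne (Finset.min'_le _ _ (Finset.mem_of_mem_erase hv))
          (Finset.ne_of_mem_erase hv).symm)
    have h2 : ((V.erase x).filter fun v => c x v ∈ (∅ : Finset ℕ)).card = 0 := by simp
    rw [h2, Finset.card_erase_of_mem hxV] at h1
    have h3 : 1 ≤ 3 ^ R := Nat.one_le_pow _ _ (by norm_num)
    have h4 : V.card ≤ (KA (C + 1) + 1) * 3 ^ R := by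
      rw [Nat.add_mul]
      omega
    refine h4.trans (Nat.mul_le_mul_right _ (Nat.le_add_left _ _))
  · by_cases hV3 : 3 ^ R ≤ V.card
    · obtain ⟨n, hn, T, hTn, hT2, hTi, hTs⟩ := hC R hRC
      have hAmono : ∀ k, AA k ≤ AA (k + 1) := by
        intro k
        rw [hAAs k]
        omega
      have hAn : AA (n + 1) ≤ R := by
        have := (hTi n hn (le_refl _)).2.2 (n + 1) (by omega)
        rw [hTn] at this
        omega
      obtain ⟨U, G, hZ⟩ := zones hL hR hE (d := 1536) (e := 13) (by norm_num) (by norm_num) qq AA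
        hAA0 (n + 1) (fun k _ => (hAAs k).ge)
        (((Nat.pow_le_pow_right (by norm_num) hAn).trans
          (Nat.pow_le_pow_left (by norm_num) R)).trans hV3)
      have hV : 0 < V.card := lt_of_lt_of_le (by positivity) hV3
      have hGn : (G n).Nonempty := by
        rw [← Finset.card_pos]
        rcases Nat.eq_zero_or_pos (G n).card with h0 | h0
        · have := hZ.szG n (by omega)
          rw [h0] at this
          omega
        · exact h0
      obtain ⟨y, hy⟩ := hGn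
      have hyV : y ∈ V := by
        have h1 := hZ.subset (i := 0) (j := n) (by omega) (by omega)
        rw [hZ.base] at h1
        exact h1 (hZ.sub n (by omega) hy)
      have h1 := loop (C := C) (T := T) hL hR hE hV3 hZ (fun m => rfl) hAmono hT2
        (fun i h2 hi => ⟨(hTi i h2 hi).1, (hTi i h2 hi).2.2 i (by omega)⟩)
        (fun i h2 hi => ⟨(hTs i h2 hi).2.1, (hTs i h2 hi).2.2⟩) n hn (le_refl _) y hy ∅ ∅
        (Hub.start hyV) (by rw [hTn]; simp) (by unfold mass; simp; omega) (by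
          intro a _ b _
          simp)
      calc V.card ≤ 2 ^ AA 3 * (3072 * (KA (2 * C + 1) * 3 ^ R)) := h1
        _ = 2 ^ AA 3 * (3072 * KA (2 * C + 1)) * 3 ^ R := by ring
        _ ≤ _ := Nat.mul_le_mul_right _ (Nat.le_add_right _ _)
    · push Not at hV3
      refine hV3.le.trans (Nat.le_mul_of_pos_left _ (by positivity))

/-- **the constant factor** -/
theorem const_factor : ∃ C : ℕ, ∀ k n : ℕ, 1 ≤ k → C * 3 ^ (k - 1) < n →
    ∀ c : Fin n → Fin n → ℕ,
      (∃ x : Fin (3 + 1) → Fin n, StrictMono x ∧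
        ∃ col : ℕ, ∀ i : Fin 3, c (x i.castSucc) (x i.succ) = col) ∨
      (∃ y : Fin (k + 1) → Fin n, StrictMono y ∧
        Function.Injective (fun i : Fin k => c (y i.castSucc) (y i.succ))) := by
  obtain ⟨C, hC⟩ := ext_bound
  exact ⟨C, final_of_ext hC⟩

end FlashRainbow.CF.Skip
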