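import Pool.Agent.Work.MP_54723a_co.CF.LoopT

/-!
# Constant factor, measure route: the loop, the numbers and the end  (helper20)
-/

set_option autoImplicit false

namespace FlashRainbow.CF

open Classical

variable {c : ℕ → ℕ → ℕ} {V : Finset ℕ} {R J : ℕ} {U G : ℕ → Finset ℕ} {lev : ℕ → ℕ → ℕ}

/-- precision of the zones -/
def qT (k : ℕ) : ℕ := 6912000000 * (k * (k + 1))

/-- sizes of the zones -/
def AT : ℕ → ℕ
  | 0 => 0
  | (k + 1) => AT k + ((12 * AT k + 4) / 6000 + 1) + 16 + 2 * ((k + 1) ^ 2 * qT (k + 1))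

/-- the schedule -/
def TT : ℕ → ℕ
  | 0 => 10 ^ 24
  | (k + 1) => TT k + TT k / 24

theorem AT_succ (k : ℕ) : AT (k + 1) =
    AT k + ((12 * AT k + 4) / 6000 + 1) + 16 + 2 * ((k + 1) ^ 2 * qT (k + 1)) := rfl

theorem TT_succ (k : ℕ) : TT (k + 1) = TT k + TT k / 24 := rfl

theorem poly_step (k : ℕ) : 50 * (k + 211) ^ 4 ≤ 51 * (k + 210) ^ 4 := by
  have h : 51 * (k + 210) ^ 4 = 50 * (k + 211) ^ 4 +
      (k ^ 4 + 640 * k ^ 3 + 138300 * k ^ 2 + 10457800 * k + 79337950) := by ring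
  omega

theorem AT_le (k : ℕ) : 200 * AT (k + 1) + 200000000000000 * (k + 210) ^ 4 ≤ TT k := by
  induction k with
  | zero =>
    have h1 : AT 1 = 27648000017 := by
      rw [AT_succ]
      simp [AT, qT]
    rw [h1]
    simp only [TT]
    norm_num
  | succ k ih =>
    obtain ⟨a, ha⟩ : ∃ a, a = AT (k + 1) := ⟨_, rfl⟩
    obtain ⟨T, hT⟩ : ∃ T, T = TT k := ⟨_, rfl⟩
    obtain ⟨p, hp⟩ : ∃ p, p = (k + 210) ^ 4 := ⟨_, rfl⟩
    obtain ⟨p', hp'⟩ : ∃ p', p' = (k + 211) ^ 4 := ⟨_, rfl⟩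
    have h1 := poly_step k
    rw [AT_succ (k + 1), TT_succ k, ← ha, ← hT, show k + 1 + 210 = k + 211 by ring, ← hp']
    rw [← ha, ← hT, ← hp] at ih
    rw [← hp, ← hp'] at h1
    have h2 : (k + 1 + 1) ^ 2 * qT (k + 1 + 1) ≤ 6912000000 * p := by
      unfold qT
      have h3 : (k + 2) ^ 3 * (k + 3) ≤ p := by
        rw [hp]
        calc (k + 2) ^ 3 * (k + 3) ≤ (k + 210) ^ 3 * (k + 210) := by
              refine Nat.mul_le_mul (Nat.pow_le_pow_left (by omega) 3) (by omega)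
          _ = (k + 210) ^ 4 := by ring
      calc (k + 1 + 1) ^ 2 * (6912000000 * ((k + 1 + 1) * (k + 1 + 1 + 1)))
          = 6912000000 * ((k + 2) ^ 3 * (k + 3)) := by ring
        _ ≤ _ := Nat.mul_le_mul_left _ h3
    have hp1 : 1 ≤ p := by
      rw [hp]
      exact Nat.one_le_pow _ _ (by omega)
    omega

theorem TT_ge (k : ℕ) : 10 ^ 24 ≤ TT k := by
  induction k with
  | zero => exact le_refl _
  | succ k ih =>
    rw [TT_succ]
    omega

theorem TT_lt (k : ℕ) : TT k + 3 ≤ TT (k + 1) := by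
  have := TT_ge k
  rw [TT_succ]
  omega

theorem TT_ge_self (k : ℕ) : k ≤ TT k := by
  induction k with
  | zero => exact Nat.zero_le _
  | succ k ih =>
    have := TT_lt k
    omega

theorem stage_num (k : ℕ) : 200 * (AT (k + 1) + 16 + 12 * 12000 + 12) + 8000 ≤ TT k := by
  have h1 := AT_le k
  have h2 : 1 ≤ (k + 210) ^ 4 := Nat.one_le_pow _ _ (by omega)
  omega

/-- the invariant -/
def InvT (c : ℕ → ℕ → ℕ) (V : Finset ℕ) (R : ℕ) (U G : ℕ → Finset ℕ) (m t : ℕ) : Prop :=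
  ∃ x ∈ U m, ∃ K F, Hub c V x K F ∧ R = K.card + t ∧
    2 * 12000 * ((G (m - 1)).filter fun w => c x w ∈ F).card ≤
      (2 * 12000 - 1) * (G (m - 1)).card ∧
    ∀ a, 1 ≤ a → a < m → 16 * 12000 ^ 2 * (m * ∑ φ ∈ F, prs c (G a) (G (a - 1)) φ) ≤
      (G a).card * (G (a - 1)).card

theorem step_T (hL : Lev c V 3 lev) (hR : Rk c V R) (hE : Ext c V R) (h3 : 3 ^ R ≤ V.card)
    (hZ : Zones c V 12000 qT AT J U G) {m t δ : ℕ} (hm : 1 ≤ m) (hmJ : m + 1 ≤ J)
    (ht : TT m ≤ t) (hδ : 3 ≤ δ) (hδt : 20 * (δ + 1) ≤ t) (h : InvT c V R U G (m + 1) t) :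
    InvT c V R U G m (t - δ) := by
  obtain ⟨x, hx, K, F, hH, hK, hmass, hold⟩ := h
  have em : m + 1 - 1 = m := by omega
  rw [em] at hmass
  have hVpos : 0 < V.card := lt_of_lt_of_le (by positivity) h3
  have hUV : ∀ k ≤ J, U k ⊆ V := fun k hk => by
    have := hZ.subset (Nat.zero_le k) hk
    rwa [hZ.base] at this
  obtain ⟨n, rfl⟩ : ∃ n, m = n + 1 := ⟨m - 1, by omega⟩
  have hGU : G (n + 1) ⊆ U (n + 1) := hZ.sub (n + 1) (by omega)
  have hGpos : 0 < (G n).card := by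
    have h1 := hZ.szG n (by omega)
    rcases Nat.eq_zero_or_pos (G n).card with h0 | h0
    · rw [h0, Nat.mul_zero] at h1
      omega
    · exact h0
  have hnum := stage_num (n + 1)
  have hge := TT_ge (n + 1)
  have en : n + 1 - 1 = n := by omega
  have hold1 := hold (n + 1) (by omega) (by omega)
  rw [en] at hold1
  obtain ⟨x', hx', K', Φ, g1, g2, g3, g4, g5, g6⟩ := stage_T (a := AT (n + 1 + 1)) (d := 12000)
    (e := 16) (m := δ) (A := G (n + 1)) (B := G n) hL hR hE h3 hH hK (by norm_num)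
    (hGU.trans (hUV _ (by omega))) (fun v hv => hZ.lt (n + 1) (by omega) x hx v hv)
    (fun v hv w hw => hZ.lt n (by omega) v (hGU hv) w hw) hGpos
    (fun v hv => hZ.ndom n (by omega) v (hGU hv)) hmass (by
      refine le_trans (Nat.mul_le_mul_left _ ?_) hold1
      exact Nat.le_mul_of_pos_left _ (by omega))
    (hZ.szG (n + 1) (by omega)) (by norm_num) (le_trans (by norm_num) (hge.trans ht))
    (hnum.trans ht) hδ hδt
  refine ⟨x', hGU hx', K', F ∪ Φ, g1, g2, by simpa only [en] using g6, ?_⟩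
  intro a ha ham
  obtain ⟨N, hN⟩ : ∃ N, N = (G a).card * (G (a - 1)).card := ⟨_, rfl⟩
  have h5 := hold a ha (by omega)
  have hxU : x ∈ U (n + 1) := hZ.anti (n + 1) (by omega) hx
  have h6 : ∀ φ ∈ Φ, qT (n + 1) * prs c (G a) (G (a - 1)) φ ≤ N := by
    intro φ hφ
    obtain ⟨u, hu, v, hv, huv, hc⟩ := g5 φ hφ
    have hins : insert x (G (n + 1)) ⊆ U (n + 1) := Finset.insert_subset hxU hGU
    have := hZ.unp (n + 1) (by omega) u (hins hu) v (hins hv) huv a ham (a - 1) (by omega)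
    rw [hc, ← hN] at this
    exact this
  have h7 : qT (n + 1) * ∑ φ ∈ Φ, prs c (G a) (G (a - 1)) φ ≤ 3 * N := by
    rw [Finset.mul_sum]
    calc ∑ φ ∈ Φ, qT (n + 1) * prs c (G a) (G (a - 1)) φ ≤ ∑ _φ ∈ Φ, N := Finset.sum_le_sum h6
      _ = Φ.card * N := by rw [Finset.sum_const, smul_eq_mul]
      _ ≤ 3 * N := Nat.mul_le_mul_right _ g3
  rw [Finset.sum_union g4.symm, ← hN]
  rw [← hN] at h5
  obtain ⟨S, hS⟩ : ∃ S, S = ∑ φ ∈ F, prs c (G a) (G (a - 1)) φ := ⟨_, rfl⟩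
  obtain ⟨S', hS'⟩ : ∃ S', S' = ∑ φ ∈ Φ, prs c (G a) (G (a - 1)) φ := ⟨_, rfl⟩
  rw [← hS] at h5 ⊢
  rw [← hS'] at h7 ⊢
  unfold qT at h7
  have h8 : (n + 2) * (16 * 12000 ^ 2 * ((n + 1) * (S + S'))) ≤ (n + 2) * N := by
    have e1 : (n + 2) * (16 * 12000 ^ 2 * ((n + 1) * (S + S'))) =
        (n + 1) * (16 * 12000 ^ 2 * ((n + 1 + 1) * S)) +
          2304000000 * ((n + 1) * (n + 1 + 1)) * S' := by ring
    have e2 : 3 * (2304000000 * ((n + 1) * (n + 1 + 1)) * S') ≤ 3 * N := by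
      calc 3 * (2304000000 * ((n + 1) * (n + 1 + 1)) * S')
          = 6912000000 * ((n + 1) * (n + 1 + 1)) * S' := by ring
        _ ≤ 3 * N := h7
    have e3 := Nat.mul_le_mul_left (n + 1) h5
    rw [e1]
    have e4 : (n + 2) * N = (n + 1) * N + N := by ring
    rw [e4]
    omega
  exact Nat.le_of_mul_le_mul_left h8 (by omega)

theorem loop_T (hL : Lev c V 3 lev) (hR : Rk c V R) (hE : Ext c V R) (h3 : 3 ^ R ≤ V.card)
    (hZ : Zones c V 12000 qT AT J U G) : ∀ m, 1 ≤ m → m ≤ J → InvT c V R U G m (TT m) →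
    InvT c V R U G 1 (TT 1) := by
  intro m
  induction m with
  | zero => intro h _ _; omega
  | succ m ih =>
    intro _ hmJ h
    rcases Nat.eq_zero_or_pos m with rfl | hm
    · exact h
    · have h1 := TT_lt m
      have h2 := TT_ge m
      have h4 := TT_succ m
      have h5 := step_T hL hR hE h3 hZ (m := m) (t := TT (m + 1)) (δ := TT (m + 1) - TT m) hm hmJ
        (by omega) (by omega) (by omega) h
      rw [show TT (m + 1) - (TT (m + 1) - TT m) = TT m by omega] at h5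
      exact ih hm (by omega) h5

theorem KA_mono {a b : ℕ} (h : a ≤ b) : KA a ≤ KA b := by
  unfold KA
  exact Nat.mul_le_mul (by omega) (Nat.pow_le_pow_right (by norm_num) (by omega))

/-- small rank -/
theorem small_rank (hL : Lev c V 3 lev) (hR : Rk c V R) {C : ℕ} (hC : R + 1 ≤ C) :
    V.card ≤ (KA C + 1) * 3 ^ R := by
  rcases Finset.eq_empty_or_nonempty V with rfl | hne
  · simp
  · set x := V.min' hne with hx
    have hxV : x ∈ V := Finset.min'_mem _ _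
    have h1 := (Hub.start (c := c) hxV).end_le (t := R) (Z := V.erase x) hL hR (by simp)
      (Finset.erase_subset _ _) (fun v hv => by
        obtain ⟨hne', hv'⟩ := Finset.mem_erase.mp hv
        exact lt_of_le_of_ne (Finset.min'_le _ _ hv') (fun h => hne' h.symm))
    have h2 : ((V.erase x).filter fun v => c x v ∈ (∅ : Finset ℕ)).card = 0 := by
      simp
    rw [h2, Nat.add_zero, Finset.card_erase_of_mem hxV] at h1
    have h4 : KA (R + 1) * 3 ^ R ≤ KA C * 3 ^ R := Nat.mul_le_mul_right _ (KA_mono hC)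
    have h5 : 1 ≤ 3 ^ R := Nat.one_le_pow _ _ (by norm_num)
    have h6 : (KA C + 1) * 3 ^ R = KA C * 3 ^ R + 3 ^ R := by ring
    omega

/-- **Extremal sets.** -/
theorem ext_bound : ∃ C : ℕ, ∀ (c : ℕ → ℕ → ℕ) (lev : ℕ → ℕ → ℕ) (V : Finset ℕ) (R : ℕ),
    Lev c V 3 lev → Rk c V R → Ext c V R → V.card ≤ C * 3 ^ R := by
  obtain ⟨P, hP⟩ : ∃ P, P = 2 ^ AT (0 + 1) := ⟨_, rfl⟩
  refine ⟨(KA (TT 1 + 4) + 1) + P * (2 * 12000 * KA (TT 1 + 1)) + 1, ?_⟩
  intro c lev V R hL hR hE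
  obtain ⟨C1, hC1⟩ : ∃ C1, C1 = KA (TT 1 + 4) + 1 := ⟨_, rfl⟩
  obtain ⟨C2, hC2⟩ : ∃ C2, C2 = P * (2 * 12000 * KA (TT 1 + 1)) := ⟨_, rfl⟩
  rw [← hC1, ← hC2]
  have hsplit : ∀ D : ℕ, D ≤ C1 + C2 + 1 → D * 3 ^ R ≤ (C1 + C2 + 1) * 3 ^ R := fun D hD =>
    Nat.mul_le_mul_right _ hD
  by_cases h3 : 3 ^ R ≤ V.card
  swap
  · refine le_trans ?_ (hsplit 1 (by omega))
    omega
  by_cases hsm : R < TT 1 + 3
  · have h1 := small_rank (C := TT 1 + 4) hL hR (by omega)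
    rw [← hC1] at h1
    exact h1.trans (hsplit C1 (by omega))
  push Not at hsm
  -- the number of zones
  have hex : ∃ J, R < TT J + 3 := ⟨R, by have := TT_ge_self R; omega⟩
  obtain ⟨J, hJ, hmin⟩ : ∃ J, R < TT J + 3 ∧ ∀ i < J, ¬ R < TT i + 3 :=
    ⟨Nat.find hex, Nat.find_spec hex, fun i hi => Nat.find_min hex hi⟩
  have hJ2 : 2 ≤ J := by
    by_contra hlt
    have h0 : J = 0 ∨ J = 1 := by omega
    rcases h0 with rfl | rfl
    · have : TT 0 + 3 ≤ TT 1 := TT_lt 0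
      omega
    · omega
  obtain ⟨n, rfl⟩ : ∃ n, J = n + 2 := ⟨J - 2, by omega⟩
  have hRn := hmin (n + 1) (by omega)
  push Not at hRn
  have hTs : TT (n + 2) = TT (n + 1) + TT (n + 1) / 24 := TT_succ (n + 1)
  have hTge := TT_ge (n + 1)
  have hnum := stage_num (n + 1)
  have hpow : 2 ^ AT (n + 2) ≤ V.card := by
    refine le_trans ?_ h3
    calc 2 ^ AT (n + 2) ≤ 2 ^ R := Nat.pow_le_pow_right (by norm_num) (by
          have : AT (n + 1 + 1) = AT (n + 2) := rfl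
          omega)
      _ ≤ 3 ^ R := Nat.pow_le_pow_left (by norm_num) _
  obtain ⟨U, G, hZ⟩ := zones (d := 12000) (e := 16) hL hR hE (by norm_num) (by norm_num) qT AT rfl
    (n + 2) (fun k _ => by rw [AT_succ k]) hpow
  -- start
  have hVpos : 0 < V.card := lt_of_lt_of_le (by positivity) h3
  have hUne : (U (n + 2)).Nonempty := by
    rw [← Finset.card_pos]
    have h1 := hZ.szU (n + 2) le_rfl
    rcases Nat.eq_zero_or_pos (U (n + 2)).card with h0 | h0
    · rw [h0, Nat.mul_zero] at h1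
      omega
    · exact h0
  obtain ⟨x, hx⟩ := hUne
  have hxV : x ∈ V := by
    have := hZ.subset (Nat.zero_le (n + 2)) le_rfl
    rw [hZ.base] at this
    exact this hx
  have hstart : InvT c V R U G (n + 1 + 1) R := by
    refine ⟨x, hx, ∅, ∅, Hub.start hxV, by simp, by simp, ?_⟩
    intro a _ _
    simp
  have h4 := step_T hL hR hE h3 hZ (m := n + 1) (t := R) (δ := R - TT (n + 1)) (by omega)
    (by omega) (by omega) (by omega) (by omega) hstart
  rw [show R - (R - TT (n + 1)) = TT (n + 1) by omega] at h4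
  have h5 := loop_T hL hR hE h3 hZ (n + 1) (by omega) (by omega) h4
  -- end
  obtain ⟨y, hy, K, F, hH, hK, hmass, -⟩ := h5
  rw [Nat.sub_self] at hmass
  have hG0 : G 0 ⊆ V := by
    have := hZ.sub 0 (by omega)
    rwa [hZ.base] at this
  have h6 := hH.end_le (t := TT 1) (Z := G 0) hL hR (by omega) hG0
    (fun v hv => hZ.lt 0 (by omega) y hy v hv)
  have h7 := hZ.szG 0 (by omega)
  rw [← hP] at h7
  obtain ⟨g, hg⟩ : ∃ g, g = (G 0).card := ⟨_, rfl⟩
  obtain ⟨w, hw⟩ : ∃ w, w = ((G 0).filter fun v => c y v ∈ F).card := ⟨_, rfl⟩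
  obtain ⟨B, hB⟩ : ∃ B, B = KA (TT 1 + 1) * 3 ^ R := ⟨_, rfl⟩
  rw [← hg, ← hw] at hmass
  rw [← hg, ← hw, ← hB] at h6
  have h8 : g ≤ 2 * 12000 * B := by omega
  have h9 : V.card ≤ P * (2 * 12000 * B) := by
    rw [← hg] at h7
    exact h7.trans (Nat.mul_le_mul_left _ h8)
  refine h9.trans (le_trans (le_of_eq ?_) (hsplit C2 (by omega)))
  rw [hB, hC2]
  ring

/-- **THE CONSTANT FACTOR THEOREM**: `f(3, k) ≤ C · 3 ^ (k - 1)` with an absolute constant. -/
theorem constant_factor : ∃ C : ℕ, ∀ k n : ℕ, 1 ≤ k → C * 3 ^ (k - 1) < n →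
    ∀ c : Fin n → Fin n → ℕ,
      (∃ x : Fin (3 + 1) → Fin n, StrictMono x ∧
        ∃ col : ℕ, ∀ i : Fin 3, c (x i.castSucc) (x i.succ) = col) ∨
      (∃ y : Fin (k + 1) → Fin n, StrictMono y ∧
        Function.Injective (fun i : Fin k => c (y i.castSucc) (y i.succ))) := by
  obtain ⟨C, hC⟩ := ext_bound
  exact ⟨C, final_of_ext hC⟩

end FlashRainbow.CF
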