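import Pool.Agent.Work.MP_54723a_co.CF.Extremal

/-!
# The LYM form of the constant factor theorem  (helper29)

If every set without 3-flash and of rank at most `R` has at most `K * 3 ^ R` points, then for every
set `V` without 3-flash and every function `r` such that each rainbow path through `v` has at most
`r v` edges, `∑ v ∈ V, (1 / 3) ^ r v ≤ K`: blow `v` up by a cube with `R - r v` coordinates.
-/

set_option autoImplicit false

namespace FlashRainbow.CF

open Classical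

variable {c : ℕ → ℕ → ℕ} {V : Finset ℕ} {R : ℕ} {lev : ℕ → ℕ → ℕ}

/-- rainbow paths with end `x`, palette `D` and set of vertices `W` -/
inductive TP (c : ℕ → ℕ → ℕ) (V : Finset ℕ) : ℕ → Finset ℕ → Finset ℕ → Prop
  | single {x : ℕ} : x ∈ V → TP c V x ∅ {x}
  | step {x y : ℕ} {D W : Finset ℕ} : TP c V x D W → y ∈ V → x < y → c x y ∉ D →
      TP c V y (insert (c x y) D) (insert y W)

theorem TP.last_mem {x : ℕ} {D W : Finset ℕ} (h : TP c V x D W) : x ∈ W := by
  cases h with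
  | single _ => exact Finset.mem_singleton_self _
  | step _ _ _ _ => exact Finset.mem_insert_self _ _

theorem TP.mem {x : ℕ} {D W : Finset ℕ} (h : TP c V x D W) : x ∈ V := by
  cases h with
  | single h => exact h
  | step _ h _ _ => exact h

theorem TP.sub {x : ℕ} {D W : Finset ℕ} (h : TP c V x D W) : W ⊆ V := by
  induction h with
  | single h => exact Finset.singleton_subset_iff.mpr h
  | step _ h _ _ ih => exact Finset.insert_subset h ih

/-- the most significant ternary digit in which `w` and `w'` differ -/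
def dig (R w w' : ℕ) : ℕ := Nat.findGreatest (fun i => w / 3 ^ i ≠ w' / 3 ^ i) R

theorem dig_spec {m w w' : ℕ} (hm : m ≤ R) (hww : w < w') (hw : w' < 3 ^ m) :
    dig R w w' < m ∧ w / 3 ^ dig R w w' % 3 < w' / 3 ^ dig R w w' % 3 := by
  have h0 : w / 3 ^ 0 ≠ w' / 3 ^ 0 := by simpa using hww.ne
  have h1 : w / 3 ^ dig R w w' ≠ w' / 3 ^ dig R w w' :=
    Nat.findGreatest_spec (P := fun i => w / 3 ^ i ≠ w' / 3 ^ i) (Nat.zero_le R) h0
  have h2 : ∀ i, m ≤ i → w / 3 ^ i = w' / 3 ^ i := by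
    intro i hi
    have h3 : 3 ^ m ≤ 3 ^ i := Nat.pow_le_pow_right (by norm_num) hi
    rw [Nat.div_eq_of_lt (by omega), Nat.div_eq_of_lt (by omega)]
  have h3 : dig R w w' < m := by
    by_contra hcon
    exact h1 (h2 _ (not_lt.mp hcon))
  have h4 : w / 3 ^ (dig R w w' + 1) = w' / 3 ^ (dig R w w' + 1) := by
    by_contra hne
    have h5 : dig R w w' + 1 ≤ R := by omega
    have h6 : dig R w w' + 1 ≤ dig R w w' :=
      Nat.le_findGreatest (P := fun i => w / 3 ^ i ≠ w' / 3 ^ i) h5 hne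
    omega
  refine ⟨h3, ?_⟩
  rw [pow_succ, ← Nat.div_div_eq_div_mul, ← Nat.div_div_eq_div_mul] at h4
  have h5 : w / 3 ^ dig R w w' ≤ w' / 3 ^ dig R w w' := Nat.div_le_div_right hww.le
  omega

/-- the colouring of the blow-up -/
def blC (c : ℕ → ℕ → ℕ) (R a b : ℕ) : ℕ :=
  if a / 3 ^ R = b / 3 ^ R then 2 * dig R (a % 3 ^ R) (b % 3 ^ R) + 1
  else 2 * c (a / 3 ^ R) (b / 3 ^ R)

/-- the levels of the blow-up -/
def blL (lev : ℕ → ℕ → ℕ) (R γ a : ℕ) : ℕ :=
  if γ % 2 = 1 then (a % 3 ^ R) / 3 ^ (γ / 2) % 3 else lev (γ / 2) (a / 3 ^ R)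

/-- the blow-up -/
def blV (V : Finset ℕ) (R : ℕ) (r : ℕ → ℕ) : Finset ℕ :=
  V.biUnion fun v => (Finset.range (3 ^ (R - r v))).image fun w => v * 3 ^ R + w

theorem mem_blV {r : ℕ → ℕ} {a : ℕ} (ha : a ∈ blV V R r) :
    a / 3 ^ R ∈ V ∧ a % 3 ^ R < 3 ^ (R - r (a / 3 ^ R)) := by
  obtain ⟨v, hv, h⟩ := Finset.mem_biUnion.mp ha
  obtain ⟨w, hw, rfl⟩ := Finset.mem_image.mp h
  have hw' := Finset.mem_range.mp hw
  have h1 : 3 ^ (R - r v) ≤ 3 ^ R := Nat.pow_le_pow_right (by norm_num) (Nat.sub_le _ _)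
  have h2 : (v * 3 ^ R + w) / 3 ^ R = v := by
    rw [Nat.mul_comm, Nat.mul_add_div (by positivity), Nat.div_eq_of_lt (by omega), Nat.add_zero]
  have h3 : (v * 3 ^ R + w) % 3 ^ R = w := by
    rw [Nat.mul_comm, Nat.mul_add_mod, Nat.mod_eq_of_lt (by omega)]
  rw [h2, h3]
  exact ⟨hv, hw'⟩

theorem card_blV (r : ℕ → ℕ) : (blV V R r).card = ∑ v ∈ V, 3 ^ (R - r v) := by
  unfold blV
  rw [Finset.card_biUnion]
  · refine Finset.sum_congr rfl fun v _ => ?_
    rw [Finset.card_image_of_injective _ (fun a b h => Nat.add_left_cancel h), Finset.card_range]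
  · intro v _ v' _ hne
    rw [Function.onFun, Finset.disjoint_left]
    intro a ha ha'
    obtain ⟨w, hw, rfl⟩ := Finset.mem_image.mp ha
    obtain ⟨w', hw', h⟩ := Finset.mem_image.mp ha'
    have h1 : 3 ^ (R - r v) ≤ 3 ^ R := Nat.pow_le_pow_right (by norm_num) (Nat.sub_le _ _)
    have h2 : 3 ^ (R - r v') ≤ 3 ^ R := Nat.pow_le_pow_right (by norm_num) (Nat.sub_le _ _)
    have h3 := Finset.mem_range.mp hw
    have h4 := Finset.mem_range.mp hw'
    have h5 : (v * 3 ^ R + w) / 3 ^ R = v := by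
      rw [Nat.mul_comm, Nat.mul_add_div (by positivity), Nat.div_eq_of_lt (by omega), Nat.add_zero]
    have h6 : (v' * 3 ^ R + w') / 3 ^ R = v' := by
      rw [Nat.mul_comm, Nat.mul_add_div (by positivity), Nat.div_eq_of_lt (by omega), Nat.add_zero]
    rw [h] at h6
    exact hne (h5.symm.trans h6)

theorem blL_lev {r : ℕ → ℕ} (hL : Lev c V 3 lev) (R : ℕ) :
    Lev (blC c R) (blV V R r) 3 (blL lev R) := by
  refine ⟨?_, ?_⟩
  · intro γ a ha
    unfold blL
    split_ifs
    · exact Nat.mod_lt _ (by norm_num)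
    · exact hL.lt _ _ (mem_blV ha).1
  · intro a ha b hb hab
    obtain ⟨ha1, ha2⟩ := mem_blV ha
    obtain ⟨hb1, hb2⟩ := mem_blV hb
    by_cases h : a / 3 ^ R = b / 3 ^ R
    · have h1 : a % 3 ^ R < b % 3 ^ R := by
        have h2 := Nat.div_add_mod a (3 ^ R)
        have h3 := Nat.div_add_mod b (3 ^ R)
        rw [h] at h2
        omega
      have h4 := dig_spec (R := R) (m := R - r (b / 3 ^ R)) (Nat.sub_le _ _) h1 hb2
      have h5 : blC c R a b = 2 * dig R (a % 3 ^ R) (b % 3 ^ R) + 1 := if_pos h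
      have h6 : (2 * dig R (a % 3 ^ R) (b % 3 ^ R) + 1) % 2 = 1 := by omega
      have h7 : (2 * dig R (a % 3 ^ R) (b % 3 ^ R) + 1) / 2 = dig R (a % 3 ^ R) (b % 3 ^ R) := by
        omega
      unfold blL
      rw [h5, if_pos h6, if_pos h6, h7]
      exact h4.2
    · have h1 : a / 3 ^ R < b / 3 ^ R := lt_of_le_of_ne (Nat.div_le_div_right hab.le) h
      have h5 : blC c R a b = 2 * c (a / 3 ^ R) (b / 3 ^ R) := if_neg h
      have h6 : ¬ (2 * c (a / 3 ^ R) (b / 3 ^ R)) % 2 = 1 := by omega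
      have h7 : (2 * c (a / 3 ^ R) (b / 3 ^ R)) / 2 = c (a / 3 ^ R) (b / 3 ^ R) := by omega
      unfold blL
      rw [h5, if_neg h6, if_neg h6, h7]
      exact hL.up _ ha1 _ hb1 h1

/-- the structure of rainbow paths of the blow-up -/
theorem bl_path {r : ℕ → ℕ} {a : ℕ} {D' : Finset ℕ} (h : RP (blC c R) (blV V R r) a D') :
    ∃ D W E : Finset ℕ, TP c V (a / 3 ^ R) D W ∧
      D' = D.image (fun γ => 2 * γ) ∪ E.image (fun i => 2 * i + 1) ∧
      ∀ i ∈ E, ∃ v ∈ W, i + r v < R := by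
  induction h with
  | @single a ha =>
    exact ⟨∅, {a / 3 ^ R}, ∅, TP.single (mem_blV ha).1, by simp, by simp⟩
  | @step a b D' h hb hab hc ih =>
    obtain ⟨D, W, E, h1, h2, h3⟩ := ih
    have ha := h.mem
    obtain ⟨ha1, ha2⟩ := mem_blV ha
    obtain ⟨hb1, hb2⟩ := mem_blV hb
    by_cases he : a / 3 ^ R = b / 3 ^ R
    · have h4 : a % 3 ^ R < b % 3 ^ R := by
        have h5 := Nat.div_add_mod a (3 ^ R)
        have h6 := Nat.div_add_mod b (3 ^ R)
        rw [he] at h5
        omega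
      have h5 := dig_spec (R := R) (m := R - r (b / 3 ^ R)) (Nat.sub_le _ _) h4 hb2
      have h6 : blC c R a b = 2 * dig R (a % 3 ^ R) (b % 3 ^ R) + 1 := if_pos he
      refine ⟨D, W, insert (dig R (a % 3 ^ R) (b % 3 ^ R)) E, he ▸ h1, ?_, ?_⟩
      · rw [h6, h2, Finset.image_insert, Finset.union_insert]
      · intro i hi
        rcases Finset.mem_insert.mp hi with rfl | hi
        · refine ⟨b / 3 ^ R, he ▸ h1.last_mem, ?_⟩
          omega
        · exact h3 i hi
    · have h4 : a / 3 ^ R < b / 3 ^ R := lt_of_le_of_ne (Nat.div_le_div_right hab.le) he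
      have h6 : blC c R a b = 2 * c (a / 3 ^ R) (b / 3 ^ R) := if_neg he
      rw [h6] at hc ⊢
      have h7 : c (a / 3 ^ R) (b / 3 ^ R) ∉ D := by
        intro hmem
        refine hc ?_
        rw [h2]
        exact Finset.mem_union_left _ (Finset.mem_image.mpr ⟨_, hmem, rfl⟩)
      refine ⟨_, _, E, TP.step h1 hb1 h4 h7, ?_, ?_⟩
      · rw [h2, Finset.image_insert, Finset.insert_union]
      · intro i hi
        obtain ⟨v, hv, h8⟩ := h3 i hi
        exact ⟨v, Finset.mem_insert_of_mem hv, h8⟩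

theorem bl_rank {r : ℕ → ℕ} (hr : ∀ x D W, TP c V x D W → ∀ v ∈ W, D.card ≤ r v)
    (hrR : ∀ v ∈ V, r v ≤ R) : Rk (blC c R) (blV V R r) R := by
  intro a D' h
  obtain ⟨D, W, E, h1, h2, h3⟩ := bl_path h
  have h4 : D.card ≤ R := (hr _ _ _ h1 _ h1.last_mem).trans (hrR _ h1.mem)
  have h5 : E ⊆ Finset.range (R - D.card) := by
    intro i hi
    obtain ⟨v, hv, h6⟩ := h3 i hi
    have h7 := hr _ _ _ h1 v hv
    rw [Finset.mem_range]
    omega
  have h6 := Finset.card_le_card h5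
  rw [Finset.card_range] at h6
  rw [h2]
  refine (Finset.card_union_le _ _).trans ?_
  have h7 : (D.image (fun γ => 2 * γ)).card ≤ D.card := Finset.card_image_le
  have h8 : (E.image (fun i => 2 * i + 1)).card ≤ E.card := Finset.card_image_le
  omega

/-- **LYM form**, sets -/
theorem lym_nat {r : ℕ → ℕ} (hL : Lev c V 3 lev)
    (hr : ∀ x D W, TP c V x D W → ∀ v ∈ W, D.card ≤ r v) (hrR : ∀ v ∈ V, r v ≤ R) :
    ∑ v ∈ V, 3 ^ (R - r v) ≤ Mx R := by
  rw [← card_blV]
  exact Mx_spec R _ _ _ (blL_lev hL R) (bl_rank hr hrR)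

theorem lym_real {K : ℕ} (hK : ∀ R, Mx R ≤ K * 3 ^ R) {r : ℕ → ℕ} (hL : Lev c V 3 lev)
    (hr : ∀ x D W, TP c V x D W → ∀ v ∈ W, D.card ≤ r v) :
    ∑ v ∈ V, (1 / 3 : ℝ) ^ r v ≤ K := by
  obtain ⟨R, hR⟩ : ∃ R, ∀ v ∈ V, r v ≤ R := ⟨V.sup r, fun v hv => Finset.le_sup hv⟩
  have h1 := (lym_nat hL hr hR).trans (hK R)
  have h2 : (∑ v ∈ V, (1 / 3 : ℝ) ^ r v) * 3 ^ R ≤ K * 3 ^ R := by
    calc (∑ v ∈ V, (1 / 3 : ℝ) ^ r v) * 3 ^ R = ∑ v ∈ V, (3 : ℝ) ^ (R - r v) := by
          rw [Finset.sum_mul]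
          refine Finset.sum_congr rfl fun v hv => ?_
          have h3 : (3 : ℝ) ^ R = 3 ^ (R - r v) * 3 ^ r v := by
            rw [← pow_add, Nat.sub_add_cancel (hR v hv)]
          rw [h3, one_div, inv_pow]
          field_simp
      _ = ((∑ v ∈ V, 3 ^ (R - r v) : ℕ) : ℝ) := by push_cast; rfl
      _ ≤ ((K * 3 ^ R : ℕ) : ℝ) := by exact_mod_cast h1
      _ = K * 3 ^ R := by push_cast; rfl
  exact le_of_mul_le_mul_right h2 (by positivity)

/-- vertices of a path as a function -/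
theorem TP.toFun {x : ℕ} {D W : Finset ℕ} (h : TP c V x D W) :
    ∃ y : ℕ → ℕ, y D.card = x ∧ (∀ i ≤ D.card, y i ∈ V) ∧ (∀ i < D.card, y i < y (i + 1)) ∧
      (∀ i < D.card, c (y i) (y (i + 1)) ∈ D) ∧
      (∀ i < D.card, ∀ j < D.card, c (y i) (y (i + 1)) = c (y j) (y (j + 1)) → i = j) ∧
      ∀ v ∈ W, ∃ i ≤ D.card, y i = v := by
  induction h with
  | @single x hx =>
    exact ⟨fun _ => x, rfl, fun _ _ => hx, by simp, by simp, by simp, by simp⟩
  | @step x z D W h hz hlt hc ih =>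
    obtain ⟨y, h0, h1, h2, h3, h4, h5⟩ := ih
    rw [Finset.card_insert_of_notMem hc]
    set j := D.card with hj
    have hupd : ∀ i ≤ j, Function.update y (j + 1) z i = y i := fun i hi =>
      Function.update_of_ne (by omega) _ _
    have hlast : Function.update y (j + 1) z (j + 1) = z := Function.update_self _ _ _
    refine ⟨Function.update y (j + 1) z, hlast, ?_, ?_, ?_, ?_, ?_⟩
    · intro i hi
      rcases Nat.lt_or_ge j i with h' | h'
      · have : i = j + 1 := by omega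
        subst this
        rw [hlast]; exact hz
      · rw [hupd i h']; exact h1 i h'
    · intro i hi
      rw [hupd i (by omega)]
      rcases Nat.lt_or_ge i j with h' | h'
      · rw [hupd (i + 1) (by omega)]; exact h2 i h'
      · have : i = j := by omega
        subst this
        rw [hlast, h0]; exact hlt
    · intro i hi
      rw [hupd i (by omega)]
      rcases Nat.lt_or_ge i j with h' | h'
      · rw [hupd (i + 1) (by omega)]; exact Finset.mem_insert_of_mem (h3 i h')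
      · have : i = j := by omega
        subst this
        rw [hlast, h0]; exact Finset.mem_insert_self _ _
    · intro i hi i' hi' heq
      rw [hupd i (by omega), hupd i' (by omega)] at heq
      rcases Nat.lt_or_ge i j with h' | h'
      · rw [hupd (i + 1) (by omega)] at heq
        rcases Nat.lt_or_ge i' j with h'' | h''
        · rw [hupd (i' + 1) (by omega)] at heq
          exact h4 i h' i' h'' heq
        · have : i' = j := by omega
          subst this
          rw [hlast, h0] at heq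
          exact absurd (heq ▸ h3 i h') hc
      · have hij : i = j := by omega
        rcases Nat.lt_or_ge i' j with h'' | h''
        · rw [hij, hlast, h0, hupd (i' + 1) (by omega)] at heq
          exact absurd (heq ▸ h3 i' h'') hc
        · omega
    · intro v hv
      rcases Finset.mem_insert.mp hv with rfl | hv
      · exact ⟨j + 1, le_refl _, hlast⟩
      · obtain ⟨i, hi, he⟩ := h5 v hv
        exact ⟨i, by omega, (hupd i hi).trans he⟩

/-- **LYM form**, colourings of the pairs of `Fin n` -/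
theorem lym_final (hK : ∃ K : ℕ, ∀ R, Mx R ≤ K * 3 ^ R) :
    ∃ K : ℕ, ∀ (n : ℕ) (c : Fin n → Fin n → ℕ),
      (¬ ∃ x : Fin 4 → Fin n, StrictMono x ∧
        ∃ col : ℕ, ∀ i : Fin 3, c (x i.castSucc) (x i.succ) = col) →
      ∀ r : Fin n → ℕ,
        (∀ (v : Fin n) (k : ℕ) (y : Fin (k + 1) → Fin n), StrictMono y →
          Function.Injective (fun i : Fin k => c (y i.castSucc) (y i.succ)) →
            v ∈ Set.range y → k ≤ r v) →
        ∑ v, (1 / 3 : ℝ) ^ r v ≤ K := by
  obtain ⟨K, hK⟩ := hK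
  refine ⟨K, fun n c hflash r hr => ?_⟩
  set C : ℕ → ℕ → ℕ := fun a b => if h : a < n ∧ b < n then c ⟨a, h.1⟩ ⟨b, h.2⟩ else 0 with hC
  have hCeq : ∀ (a b : ℕ) (ha : a < n) (hb : b < n), C a b = c ⟨a, ha⟩ ⟨b, hb⟩ := by
    intro a b ha hb
    rw [hC]
    simp only [ha, hb, and_self, dite_true]
  set V := Finset.range n with hV
  have hnoflash : ∀ γ v, ¬ MP C V γ v 3 := by
    intro γ v hmp
    obtain ⟨y, _, h1, h2, h3⟩ := hmp.toFun
    have h1' : ∀ i ≤ 3, y i < n := fun i hi => Finset.mem_range.mp (h1 i hi)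
    apply hflash
    refine ⟨_, strictMono_of_lt_succ y h1' h2, γ, fun i => ?_⟩
    have := h3 i i.2
    rw [hCeq _ _ (h1' i (by omega)) (h1' (i + 1) (by omega))] at this
    simpa using this
  set lev : ℕ → ℕ → ℕ := fun γ v => Nat.findGreatest (fun j => MP C V γ v j) 3 with hlev
  have hspec : ∀ γ, ∀ v ∈ V, MP C V γ v (lev γ v) := fun γ v hv =>
    Nat.findGreatest_spec (P := fun j => MP C V γ v j) (Nat.zero_le 3) (MP.single hv)
  have hlevlt : ∀ γ, ∀ v ∈ V, lev γ v < 3 := by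
    intro γ v hv
    refine lt_of_le_of_ne (Nat.findGreatest_le _) ?_
    intro heq
    have := hspec γ v hv
    rw [heq] at this
    exact hnoflash γ v this
  have hL : Lev C V 3 lev := by
    refine ⟨hlevlt, ?_⟩
    intro u hu v hv huv
    have h1 := MP.step (hspec (C u v) u hu) hv huv rfl
    exact Nat.le_findGreatest (hlevlt (C u v) u hu) h1
  have hmain := lym_real (c := C) (V := V) (lev := lev) hK
    (r := fun v => if h : v < n then r ⟨v, h⟩ else 0) hL (by
      intro x D W hTP v hv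
      obtain ⟨y, _, h1, h2, _, h4, h5⟩ := hTP.toFun
      have h1' : ∀ i ≤ D.card, y i < n := fun i hi => Finset.mem_range.mp (h1 i hi)
      obtain ⟨i, hi, rfl⟩ := h5 v hv
      have hin : y i < n := h1' i hi
      simp only [hin, dite_true]
      refine hr ⟨y i, hin⟩ D.card _ (strictMono_of_lt_succ y h1' h2) ?_
        ⟨⟨i, Nat.lt_succ_iff.mpr hi⟩, rfl⟩
      intro a b hab
      apply Fin.ext
      apply h4 a a.2 b b.2
      rw [hCeq _ _ (h1' a (by omega)) (h1' (a + 1) (by omega)),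
        hCeq _ _ (h1' b (by omega)) (h1' (b + 1) (by omega))]
      simpa using hab)
  rw [hV, Finset.sum_range] at hmain
  simpa using hmain

/-- the extremal numbers from a bound for extremal sets of large rank -/
theorem Mx_le_of_large
    (h : ∃ K T₀ : ℕ, ∀ R, T₀ ≤ R → ∀ (c : ℕ → ℕ → ℕ) (V : Finset ℕ) (lev : ℕ → ℕ → ℕ),
      Lev c V 3 lev → Rk c V R → Ext c V R → V.card ≤ K * 3 ^ R) :
    ∃ K : ℕ, ∀ R, Mx R ≤ K * 3 ^ R := by
  obtain ⟨K, T₀, hK⟩ := h
  refine ⟨max K (Mx T₀), fun R => ?_⟩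
  rcases le_or_gt T₀ R with h1 | h1
  · obtain ⟨c, V, lev, hL, hR, hE, hV⟩ := attained_ext R
    rw [← hV]
    exact (hK R h1 c V lev hL hR hE).trans (Nat.mul_le_mul_right _ (le_max_left _ _))
  · have h3 := Mx_mul_pow_le h1.le
    calc Mx R ≤ Mx R * 3 ^ (T₀ - R) := Nat.le_mul_of_pos_right _ (by positivity)
      _ ≤ Mx T₀ := h3
      _ ≤ max K (Mx T₀) := le_max_right _ _
      _ ≤ max K (Mx T₀) * 3 ^ R := Nat.le_mul_of_pos_right _ (by positivity)

/-- **the two forms of the constant factor theorem, with the same constant** -/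
theorem const_lym
    (h : ∃ K T₀ : ℕ, ∀ R, T₀ ≤ R → ∀ (c : ℕ → ℕ → ℕ) (V : Finset ℕ) (lev : ℕ → ℕ → ℕ),
      Lev c V 3 lev → Rk c V R → Ext c V R → V.card ≤ K * 3 ^ R) :
    ∃ K : ℕ,
      (∀ k n : ℕ, 1 ≤ k → K * 3 ^ (k - 1) < n → ∀ c : Fin n → Fin n → ℕ,
        (∃ x : Fin 4 → Fin n, StrictMono x ∧
          ∃ col : ℕ, ∀ i : Fin 3, c (x i.castSucc) (x i.succ) = col) ∨
        (∃ y : Fin (k + 1) → Fin n, StrictMono y ∧
          Function.Injective (fun i : Fin k => c (y i.castSucc) (y i.succ)))) ∧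
      ∀ (n : ℕ) (c : Fin n → Fin n → ℕ),
        (¬ ∃ x : Fin 4 → Fin n, StrictMono x ∧
          ∃ col : ℕ, ∀ i : Fin 3, c (x i.castSucc) (x i.succ) = col) →
        ∀ r : Fin n → ℕ,
          (∀ (v : Fin n) (k : ℕ) (y : Fin (k + 1) → Fin n), StrictMono y →
            Function.Injective (fun i : Fin k => c (y i.castSucc) (y i.succ)) →
              v ∈ Set.range y → k ≤ r v) →
          ∑ v, (1 / 3 : ℝ) ^ r v ≤ K := by
  obtain ⟨K₀, hK₀⟩ := Mx_le_of_large h
  obtain ⟨K₁, hK₁⟩ := lym_final ⟨K₀, hK₀⟩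
  refine ⟨max K₀ K₁, ?_, ?_⟩
  · intro k n hk hn c
    refine flash_or_rainbow hk (N := max K₀ K₁ * 3 ^ (k - 1)) ?_ hn c
    intro c' V' lev' hL' hR'
    exact (Mx_spec _ _ _ _ hL' hR').trans ((hK₀ _).trans
      (Nat.mul_le_mul_right _ (le_max_left _ _)))
  · intro n c hflash r hr
    refine (hK₁ n c hflash r hr).trans ?_
    exact_mod_cast le_max_right K₀ K₁

end FlashRainbow.CF
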