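import Pool.Agent.Work.MP_54723a_co.CF.Stage87
import Pool.Agent.Work.MP_54723a_co.CF.Main
import Pool.Agent.Work.MP_54723a_co.CF.FinalC

/-!
# The constant factor theorem for `l = 3`  (composition, helper87)
-/

set_option autoImplicit false

namespace FlashRainbow.CF.S87

open Classical FlashRainbow FlashRainbow.CF

/-- every extremal set of rank `R` has at most `K 3 ^ R` vertices -/
theorem main_bound : ∃ K : ℕ, ∀ (c : ℕ → ℕ → ℕ) (V : Finset ℕ) (lev : ℕ → ℕ → ℕ) (R : ℕ),
    Lev c V 3 lev → Rk c V R → Ext c V R → V.card ≤ K * 3 ^ R :=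
  main_of_stage 1536 13 16384 200 (16 * 1536 + 60) (by norm_num) (by norm_num) (by norm_num)
    (hS 1536 (by norm_num))

/-- **the constant factor theorem** : more than `K 3 ^ (k-1)` vertices give a `3`-flash or a
`k`-rainbow -/
theorem const_factor : ∃ K : ℕ, ∀ k n : ℕ, 1 ≤ k → K * 3 ^ (k - 1) < n → ∀ c : Fin n → Fin n → ℕ,
      (∃ x : Fin 4 → Fin n, StrictMono x ∧
        ∃ col : ℕ, ∀ i : Fin 3, c (x i.castSucc) (x i.succ) = col) ∨
      (∃ y : Fin (k + 1) → Fin n, StrictMono y ∧
        Function.Injective (fun i : Fin k => c (y i.castSucc) (y i.succ))) := by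
  obtain ⟨K, hK⟩ := main_bound
  exact ⟨K, fun k n hk hn c => three_final (fun c V lev R => hK c V lev R) k n hk hn c⟩

end FlashRainbow.CF.S87

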