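import Pool.Agent.Work.MP_54723a_co.CF.HZones

/-!
# Constant factor, measure route: masses of junction colours  (helper78)

* `mass_new` : a new hub with light old colours and at most one heavy new colour is a good hub;
* `card_good` : most of the points seen by a good hub outside `F` have light `F`-mass.
-/

set_option autoImplicit false

namespace FlashRainbow.CF

open Classical

variable {c : ℕ → ℕ → ℕ} {Y G F Φ : Finset ℕ} {d v y : ℕ}

/-- the number of points of `Y` which `v` sees in a colour of `F` -/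
noncomputable def mass (c : ℕ → ℕ → ℕ) (Y F : Finset ℕ) (v : ℕ) : ℕ :=
  (Y.filter fun w => c v w ∈ F).card

theorem mass_union_le (c : ℕ → ℕ → ℕ) (Y F Φ : Finset ℕ) (v : ℕ) :
    mass c Y (F ∪ Φ) v ≤ mass c Y F v + mass c Y Φ v := by
  unfold mass
  refine (Finset.card_le_card ?_).trans (Finset.card_union_le _ _)
  intro w hw
  obtain ⟨h1, h2⟩ := Finset.mem_filter.mp hw
  rcases Finset.mem_union.mp h2 with h3 | h3
  · exact Finset.mem_union_left _ (Finset.mem_filter.mpr ⟨h1, h3⟩)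
  · exact Finset.mem_union_right _ (Finset.mem_filter.mpr ⟨h1, h3⟩)

theorem mass_le_sum (c : ℕ → ℕ → ℕ) (Y Φ : Finset ℕ) (v : ℕ) :
    mass c Y Φ v ≤ ∑ φ ∈ Φ, (Y.filter fun w => c v w = φ).card := by
  unfold mass
  refine (Finset.card_le_card ?_).trans Finset.card_biUnion_le
  intro w hw
  obtain ⟨h1, h2⟩ := Finset.mem_filter.mp hw
  exact Finset.mem_biUnion.mpr ⟨c v w, h2, Finset.mem_filter.mpr ⟨h1, rfl⟩⟩

/-- **the new hub**: light old colours, at most three new colours, at most one of them heavy -/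
theorem mass_new (hN : NDom c d v Y) (hd : 1 ≤ d) (hF : 16 * d * mass c Y F v ≤ Y.card)
    (hΦ : Φ.card ≤ 3) {g : ℕ}
    (hg : ∀ φ ∈ Φ, φ ≠ g → 16 * d * (Y.filter fun w => c v w = φ).card ≤ Y.card) :
    2 * d * mass c Y (F ∪ Φ) v ≤ (2 * d - 1) * Y.card := by
  have h1 := mass_union_le c Y F Φ v
  have h2 := mass_le_sum c Y Φ v
  have h3 : ∑ φ ∈ Φ, (Y.filter fun w => c v w = φ).card ≤
      (Y.filter fun w => c v w = g).card +
        ∑ φ ∈ Φ.erase g, (Y.filter fun w => c v w = φ).card := by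
    by_cases hgΦ : g ∈ Φ
    · rw [← Finset.add_sum_erase Φ _ hgΦ]
    · rw [Finset.erase_eq_of_notMem hgΦ]
      exact Nat.le_add_left _ _
  have h4 : 16 * d * ∑ φ ∈ Φ.erase g, (Y.filter fun w => c v w = φ).card ≤ 3 * Y.card := by
    rw [Finset.mul_sum]
    refine (Finset.sum_le_card_nsmul _ _ Y.card fun φ hφ => ?_).trans ?_
    · exact hg φ (Finset.mem_of_mem_erase hφ) (Finset.ne_of_mem_erase hφ)
    · rw [smul_eq_mul]
      exact Nat.mul_le_mul_right _ ((Finset.card_erase_le).trans hΦ)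
  have h5 := hN g
  obtain ⟨e, rfl⟩ : ∃ e, d = e + 1 := ⟨d - 1, by omega⟩
  rw [Nat.add_sub_cancel] at h5
  rw [show 2 * (e + 1) - 1 = 2 * e + 1 by omega]
  set A := mass c Y (F ∪ Φ) v
  set B := mass c Y F v
  set D := mass c Y Φ v
  set S := ∑ φ ∈ Φ.erase g, (Y.filter fun w => c v w = φ).card
  set T := (Y.filter fun w => c v w = g).card
  have h6 : A ≤ B + (T + S) := by omega
  have h7 : 16 * (e + 1) * A ≤ Y.card + 16 * (e * Y.card) + 3 * Y.card := by
    calc 16 * (e + 1) * A ≤ 16 * (e + 1) * (B + (T + S)) := Nat.mul_le_mul_left _ h6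
      _ = 16 * (e + 1) * B + 16 * ((e + 1) * T) + 16 * (e + 1) * S := by ring
      _ ≤ Y.card + 16 * (e * Y.card) + 3 * Y.card := by
          refine Nat.add_le_add (Nat.add_le_add hF (Nat.mul_le_mul_left _ h5)) h4
  have h8 : 8 * (2 * (e + 1) * A) ≤ 8 * ((2 * e + 1) * Y.card) := by
    calc 8 * (2 * (e + 1) * A) = 16 * (e + 1) * A := by ring
      _ ≤ Y.card + 16 * (e * Y.card) + 3 * Y.card := h7
      _ ≤ 8 * ((2 * e + 1) * Y.card) := by nlinarith
  exact Nat.le_of_mul_le_mul_left h8 (by norm_num)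

/-- total mass -/
theorem sum_mass (hlt : ∀ v ∈ G, ∀ w ∈ Y, v < w) :
    ∑ v ∈ G, mass c Y F v = ∑ φ ∈ F, prs c G Y φ := by
  have h1 : ∀ v ∈ G, mass c Y F v = ∑ φ ∈ F, (Y.filter fun w => c v w = φ).card := by
    intro v _
    unfold mass
    rw [← Finset.card_biUnion]
    · congr 1
      ext w
      simp only [Finset.mem_filter, Finset.mem_biUnion]
      constructor
      · rintro ⟨h, h'⟩
        exact ⟨_, h', h, rfl⟩
      · rintro ⟨φ, h, h', h''⟩
        exact ⟨h', h'' ▸ h⟩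
    · intro a _ b _ hab
      rw [Function.onFun, Finset.disjoint_left]
      intro w hw hw'
      exact hab ((Finset.mem_filter.mp hw).2.symm.trans (Finset.mem_filter.mp hw').2)
  rw [Finset.sum_congr rfl h1, Finset.sum_comm]
  refine Finset.sum_congr rfl fun φ _ => ?_
  unfold prs
  rw [← Finset.card_sigma]
  refine Finset.card_bij (fun p _ => (p.1, p.2)) ?_ ?_ ?_
  · rintro ⟨a, b⟩ hp
    obtain ⟨h2, h3⟩ := Finset.mem_sigma.mp hp
    obtain ⟨h4, h5⟩ := Finset.mem_filter.mp h3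
    exact Finset.mem_filter.mpr ⟨Finset.mem_product.mpr ⟨h2, h4⟩, hlt _ h2 _ h4, h5⟩
  · rintro ⟨a, b⟩ _ ⟨a', b'⟩ _ h
    simp only [Prod.mk.injEq] at h
    obtain ⟨rfl, rfl⟩ := h
    rfl
  · rintro ⟨a, b⟩ hp
    obtain ⟨h2, h3⟩ := Finset.mem_filter.mp hp
    obtain ⟨h4, h5⟩ := Finset.mem_product.mp h2
    exact ⟨⟨a, b⟩, Finset.mem_sigma.mpr ⟨h4, Finset.mem_filter.mpr ⟨h5, h3.2⟩⟩, rfl⟩

/-- the points of `G` with a label outside `F` and with light `F`-mass on `Y` -/
noncomputable def good (c : ℕ → ℕ → ℕ) (G Y F : Finset ℕ) (d y : ℕ) : Finset ℕ :=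
  G.filter fun v => c y v ∉ F ∧ 16 * d * mass c Y F v ≤ Y.card

/-- **many good points** -/
theorem card_good (hd : 1 ≤ d) (hY : 0 < Y.card) (hlt : ∀ v ∈ G, ∀ w ∈ Y, v < w)
    (hprs : 64 * d ^ 2 * ∑ φ ∈ F, prs c G Y φ ≤ G.card * Y.card)
    (hy : 2 * d * mass c G F y ≤ (2 * d - 1) * G.card) :
    G.card ≤ 4 * d * (good c G Y F d y).card := by
  set B := G.filter fun v => ¬ 16 * d * mass c Y F v ≤ Y.card with hB
  have h1 : B.card * Y.card ≤ 16 * d * ∑ φ ∈ F, prs c G Y φ := by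
    calc B.card * Y.card = ∑ _v ∈ B, Y.card := by simp
      _ ≤ ∑ v ∈ B, 16 * d * mass c Y F v := Finset.sum_le_sum fun v hv => by
          have := (Finset.mem_filter.mp hv).2
          omega
      _ ≤ ∑ v ∈ G, 16 * d * mass c Y F v :=
          Finset.sum_le_sum_of_subset (Finset.filter_subset _ _)
      _ = 16 * d * ∑ φ ∈ F, prs c G Y φ := by rw [← Finset.mul_sum, sum_mass hlt]
  have h2 : 4 * d * B.card ≤ G.card := by
    have h3 : 4 * d * B.card * Y.card ≤ G.card * Y.card := by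
      calc 4 * d * B.card * Y.card = 4 * d * (B.card * Y.card) := by ring
        _ ≤ 4 * d * (16 * d * ∑ φ ∈ F, prs c G Y φ) := Nat.mul_le_mul_left _ h1
        _ = 64 * d ^ 2 * ∑ φ ∈ F, prs c G Y φ := by ring
        _ ≤ G.card * Y.card := hprs
    exact Nat.le_of_mul_le_mul_right h3 hY
  have h4 : G ⊆ (G.filter fun v => c y v ∈ F) ∪ (B ∪ good c G Y F d y) := by
    intro v hv
    by_cases h5 : c y v ∈ F
    · exact Finset.mem_union_left _ (Finset.mem_filter.mpr ⟨hv, h5⟩)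
    · refine Finset.mem_union_right _ ?_
      by_cases h6 : 16 * d * mass c Y F v ≤ Y.card
      · exact Finset.mem_union_right _ (Finset.mem_filter.mpr ⟨hv, h5, h6⟩)
      · exact Finset.mem_union_left _ (Finset.mem_filter.mpr ⟨hv, h6⟩)
  have h5 : G.card ≤ mass c G F y + (B.card + (good c G Y F d y).card) :=
    (Finset.card_le_card h4).trans ((Finset.card_union_le _ _).trans
      (Nat.add_le_add_left (Finset.card_union_le _ _) _))
  obtain ⟨e, rfl⟩ : ∃ e, d = e + 1 := ⟨d - 1, by omega⟩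
  rw [show 2 * (e + 1) - 1 = 2 * e + 1 by omega] at hy
  set m := mass c G F y
  set b := B.card
  set z := (good c G Y F (e + 1) y).card
  set n := G.card
  nlinarith

end FlashRainbow.CF
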