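import Pool.Agent.Work.MP_54723a_co.CF.Dense

/-!
# Labels and sets without 2-flash, any number of colours (note 8643 (1) of helper94)

* `two_anchored_min` : the one-root theorem, root at the first vertex.
* `ninf_out` : `X` without 2-flash, rank at most `q + e`, every path out of `u` that avoids the
  label `f u` has at most `q` edges: then `X` has at most `2 ^ q * (e + 1)` vertices.
-/

set_option autoImplicit false

namespace FlashRainbow.CF

open Classical

variable {c : ℕ → ℕ → ℕ} {V T W U X Θ : Finset ℕ} {q : ℕ}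

theorem two_anchored_min {x : ℕ} (hx : x ∈ W) (hmin : ∀ v ∈ W, x ≤ v)
    (hno : ∀ a ∈ W, ∀ b ∈ W, ∀ d ∈ W, a < b → b < d → c a b ≠ c b d)
    (hR : ∀ D, RS c W x D → D.card ≤ q) : W.card ≤ 2 ^ q := by
  obtain ⟨N, hN⟩ : ∃ N, ∀ v ∈ W, v ≤ N := ⟨W.sup id, fun v hv => Finset.le_sup (f := id) hv⟩
  have hxN := hN x hx
  rw [← card_rvs hN]
  refine two_anchored (c := revc c N) q (rvs W N) (N - x) ?_ ?_ ?_ ?_
  · exact (mem_rvs hN).mpr ⟨by omega, by rwa [show N - (N - x) = x by omega]⟩
  · intro v hv
    have h1 := (mem_rvs hN).mp hv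
    have h2 := hmin _ h1.2
    omega
  · intro a ha b hb d hd hab hbd heq
    have ha' := (mem_rvs hN).mp ha
    have hb' := (mem_rvs hN).mp hb
    have hd' := (mem_rvs hN).mp hd
    rw [revc_eq, revc_eq] at heq
    exact hno _ hd'.2 _ hb'.2 _ ha'.2 (by omega) (by omega) heq.symm
  · intro D hD
    have h1 := hD.toRS_rev hN
    rw [show N - (N - x) = x by omega] at h1
    exact hR D h1

/-- **N-infinity.** -/
theorem ninf_out (f : ℕ → ℕ) (q : ℕ) : ∀ (e : ℕ) (X : Finset ℕ),
    (∀ a ∈ X, ∀ b ∈ X, ∀ d ∈ X, a < b → b < d → c a b ≠ c b d) → Rk c X (q + e) →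
    (∀ u ∈ X, ∀ D, RS c X u D → f u ∉ D → D.card ≤ q) → X.card ≤ 2 ^ q * (e + 1) := by
  intro e
  induction e with
  | zero =>
    intro X hno hR _
    have h := two_unanchored q X hno fun y D hD => hR y D hD
    simpa using h
  | succ e ih =>
    intro X hno hR hf
    rcases X.eq_empty_or_nonempty with rfl | hne
    · simp
    set a := X.min' hne with ha
    have haX : a ∈ X := X.min'_mem hne
    have hmin : ∀ v ∈ X, a ≤ v := fun v hv => X.min'_le v hv
    set A := X.filter fun v => ¬ InE c X (f a) v with hA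
    set B := X.filter fun v => InE c X (f a) v with hB
    have hAX : A ⊆ X := Finset.filter_subset _ _
    have hBX : B ⊆ X := Finset.filter_subset _ _
    have haA : a ∈ A := by
      refine Finset.mem_filter.mpr ⟨haX, ?_⟩
      rintro ⟨u, hu, hua, -⟩
      have := hmin u hu
      omega
    have h1 : A.card ≤ 2 ^ q := by
      refine two_anchored_min haA (fun v hv => hmin v (hAX hv))
        (fun x hx y hy z hz => hno x (hAX hx) y (hAX hy) z (hAX hz)) fun D hD => ?_
      refine hf a haX D (hD.mono hAX) ?_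
      refine hD.notMem_of_free fun u hu v hv huv hc => ?_
      exact (Finset.mem_filter.mp hv).2 ⟨u, hAX hu, huv, hc⟩
    have hfreeB : ∀ u ∈ B, ∀ v ∈ B, u < v → c u v ≠ f a := by
      intro u hu v hv huv hc
      obtain ⟨w, hw, hwu, hcw⟩ := (Finset.mem_filter.mp hu).2
      exact hno w hw u (hBX hu) v (hBX hv) hwu huv (hcw.trans hc.symm)
    have h2 : B.card ≤ 2 ^ q * (e + 1) := by
      refine ih B (fun x hx y hy z hz => hno x (hBX hx) y (hBX hy) z (hBX hz)) ?_
        fun u hu D hD => hf u (hBX hu) D (hD.mono hBX)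
      intro y D hD
      have hg : f a ∉ D := hD.notMem_of_free hfreeB
      have h3 := RP.prependE hD hBX hg fun v hv => (Finset.mem_filter.mp hv).2
      have h4 := hR _ _ h3
      rw [Finset.card_insert_of_notMem hg] at h4
      omega
    have h3 : X.card = B.card + A.card := by
      rw [hA, hB]
      exact (Finset.card_filter_add_card_filter_not (s := X)
        (fun v => InE c X (f a) v)).symm
    rw [h3]
    calc B.card + A.card ≤ 2 ^ q * (e + 1) + 2 ^ q := Nat.add_le_add h2 h1
      _ = 2 ^ q * (e + 1 + 1) := by ring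

end FlashRainbow.CF
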