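import Pool.Agent.Work.MP_54723a_co.CF.OldHub
import Pool.Agent.Work.MP_54723a_co.CF.OutCount

/-!
# Constant factor, measure route: existence of a junction  (helper20)

At a hub `x` with `R ≤ |K| + t` and a zone `Z` behind it, `c x v ∉ F` on `Z`, there is always a
junction with at most three colours, as soon as `Z` is not exponentially thin in `t`.  No old hub is
used, and the `F`-coloured pairs of `Z` play no role.

Idea: without a junction (*) holds on the points with a thick own out-class, up to `F`-coloured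
pairs; all but few points are the end of an OUT-chain of `e` edges inside a `K`-free set; choose a
random set `Y` of colours which contains the labels of the chain but not the own label; `Y`-coloured
edges join points with the same label, so `Y`-coloured rainbow paths are short and can be removed;
now the chains can be prolonged by every rainbow path.
-/

set_option autoImplicit false

namespace FlashRainbow.CF

open Classical

variable {c : ℕ → ℕ → ℕ} {V T W U X Y Z K F Φ E S A : Finset ℕ} {R C e t τ₂ x M B : ℕ}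
  {lev : ℕ → ℕ → ℕ}

/-- random split of the colours -/
theorem exists_split (A : Finset ℕ) (P : ℕ → Finset ℕ) (f : ℕ → ℕ) {e : ℕ}
    (hP : ∀ s ∈ A, (P s).card ≤ e) (hf : ∀ s ∈ A, f s ∉ P s) :
    ∃ A' ⊆ A, A.card ≤ 2 ^ (e + 1) * A'.card ∧ ∀ s ∈ A', ∀ s' ∈ A', f s ∉ P s' := by
  obtain ⟨A', h1, h2, h3⟩ := exists_select (T := A) (l := 2)
    (lev := fun γ v => if γ ∈ P v then 1 else 0) (by omega) (fun v => insert (f v) (P v)) (e + 1)
    (by
      intro v hv
      have h1 := hP v hv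
      have h2 := Finset.card_insert_le (f v) (P v)
      omega)
    (by
      intro γ v _
      split_ifs <;> omega)
  refine ⟨A', h1, h2, ?_⟩
  intro s hs s' hs' hm
  have h4 := h3 s hs s' hs' (f s) (Finset.mem_insert_self _ _) (Finset.mem_insert_of_mem hm)
  simp only [hf s (h1 hs), hm, if_true, if_false] at h4
  omega

/-- **Core**: a set `A` behind a hub with (*) up to `F`-coloured pairs, all of whose points are the
end of a path with `e` edges whose palette avoids `K` and the label of the point. -/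
theorem no_star (hL : Lev c V 3 lev) (hR : Rk c V R) (hH : Hub c V x K F)
    (ht : R ≤ K.card + t)
    (hM : ∀ W ⊆ V, ∀ r ≤ R, Rk c W r → W.card * 3 ^ (R - r) ≤ M)
    (hA : A ⊆ V) (hxA : ∀ v ∈ A, x < v) (hK : ∀ v ∈ A, c x v ∉ K)
    (hstar : ∀ u ∈ A, ∀ s ∈ A, u < s →
      c x u = c x s ∨ c u s = c x u ∨ c u s = c x s ∨ c u s ∈ F)
    (hend : ∀ s ∈ A, ∃ D, RP c V s D ∧ D.card = e ∧ Disjoint D K ∧ c x s ∉ D) :
    A.card * 3 ^ e ≤ 2 ^ (e + 1) * ((t + 1) ^ 2 * 3 ^ (2 * t)) * M := by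
  choose! P hP using hend
  obtain ⟨A₁, hA₁, hc₁, hs₁⟩ := exists_split A P (fun v => c x v) (e := e)
    (fun s hs => (hP s hs).2.1.le) (fun s hs => (hP s hs).2.2.2)
  set Y := A₁.biUnion P with hY
  have hYK : ∀ γ ∈ Y, γ ∉ K := by
    intro γ hγ hγK
    obtain ⟨s, hs, h⟩ := Finset.mem_biUnion.mp hγ
    exact Finset.disjoint_left.mp (hP s (hA₁ hs)).2.2.1 h hγK
  have hYf : ∀ s ∈ A₁, c x s ∉ Y := by
    intro s hs h
    obtain ⟨s', hs', h'⟩ := Finset.mem_biUnion.mp h
    exact hs₁ s hs s' hs' h'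
  -- `Y`-coloured edges join points with the same label
  have hsame : ∀ u ∈ A₁, ∀ s ∈ A₁, u < s → c u s ∈ Y → c x u = c x s := by
    intro u hu s hs hus hcY
    rcases hstar u (hA₁ hu) s (hA₁ hs) hus with h | h | h | h
    · exact h
    · exact absurd (h ▸ hcY) (hYf u hu)
    · exact absurd (h ▸ hcY) (hYf s hs)
    · exact absurd (hH.1 h) (hYK _ hcY)
  -- `Y`-coloured rainbow paths can be put behind the hub
  have hpath : ∀ y D, RP c A₁ y D → D ⊆ Y → RP c V y (D ∪ insert (c x y) K) := by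
    intro y D h
    induction h with
    | @single y hy =>
      intro _
      rw [Finset.empty_union]
      exact RP.step (hH.2 K hH.1 (le_refl _)) (hA (hA₁ hy)) (hxA y (hA₁ hy)) (hK y (hA₁ hy))
    | @step y z D h hz hlt hc ih =>
      intro hDY
      have h1 : c y z ∈ Y := hDY (Finset.mem_insert_self _ _)
      have h2 := ih ((Finset.subset_insert _ _).trans hDY)
      have h3 := hsame y h.mem z hz hlt h1
      rw [h3] at h2
      rw [Finset.insert_union]
      refine RP.step h2 (hA (hA₁ hz)) hlt ?_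
      rw [Finset.mem_union, Finset.mem_insert, not_or, not_or]
      exact ⟨hc, fun h4 => hYf z hz (h4 ▸ h1), hYK _ h1⟩
  set Θ : Finset ℕ := ((A₁ ×ˢ A₁).image fun p => c p.1 p.2) \ Y with hΘ
  have hcol : ∀ y D, RP c A₁ y D → D ⊆ (A₁ ×ˢ A₁).image fun p => c p.1 p.2 := by
    intro y D h
    induction h with
    | single _ => exact Finset.empty_subset _
    | @step y z D h hz hlt hc ih =>
      refine Finset.insert_subset ?_ ih
      exact Finset.mem_image.mpr ⟨(y, z), Finset.mem_product.mpr ⟨h.mem, hz⟩, rfl⟩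
  obtain ⟨X, hX, hXcol, hXc⟩ := chi (l := 3) (C := t) (U := A₁) (Θ := Θ) (lev := lev) (by omega)
    (hL.mono (hA₁.trans hA)) (by
      intro y D hD hDΘ
      have h1 : D ⊆ Y := by
        intro γ hγ
        by_contra hn
        exact Finset.disjoint_left.mp hDΘ hγ (Finset.mem_sdiff.mpr ⟨hcol y D hD hγ, hn⟩)
      have h2 := hR _ _ (hpath y D hD h1)
      have h3 : Disjoint D (insert (c x y) K) := by
        rw [Finset.disjoint_insert_right]
        refine ⟨fun h => hYf y hD.mem (h1 h), ?_⟩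
        rw [Finset.disjoint_left]
        intro γ hγ
        exact hYK γ (h1 hγ)
      rw [Finset.card_union_of_disjoint h3,
        Finset.card_insert_of_notMem (hK y (hA₁ hD.mem))] at h2
      omega)
  -- the rank of `X`
  have hXV : X ⊆ V := hX.trans (hA₁.trans hA)
  have hYX : ∀ γ ∈ Y, ∀ u ∈ X, ∀ v ∈ X, u < v → c u v ≠ γ := by
    intro γ hγ u hu v hv huv he
    have := hXcol u hu v hv huv
    rw [he] at this
    exact (Finset.mem_sdiff.mp this).2 hγ
  have hrk : Rk c X (R - e) := by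
    intro y D hD
    have h1 := card_add_le (Θ := Y) (e := e) hR hD hXV (fun v hv => ⟨P v, fun γ hγ =>
      Finset.mem_biUnion.mpr ⟨v, hX hv, hγ⟩, (hP v (hA₁ (hX hv))).2.1.ge,
      (hP v (hA₁ (hX hv))).1⟩) (by
        rw [Finset.disjoint_right]
        intro γ hγ
        exact hD.notMem_of_free (hYX γ hγ))
    omega
  have hfin : X.card * 3 ^ e ≤ M := by
    rcases Finset.eq_empty_or_nonempty X with h0 | ⟨v, hv⟩
    · rw [h0, Finset.card_empty, Nat.zero_mul]
      exact Nat.zero_le _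
    · have heR : e ≤ R := by
        have h1 := hP v (hA₁ (hX hv))
        have h2 := hR _ _ h1.1
        omega
      have h5 := hM X hXV (R - e) (Nat.sub_le _ _) hrk
      rwa [Nat.sub_sub_self heR] at h5
  calc A.card * 3 ^ e ≤ 2 ^ (e + 1) * A₁.card * 3 ^ e := Nat.mul_le_mul_right _ hc₁
    _ ≤ 2 ^ (e + 1) * ((t + 1) ^ 2 * 3 ^ (2 * t) * X.card) * 3 ^ e := by gcongr
    _ = 2 ^ (e + 1) * ((t + 1) ^ 2 * 3 ^ (2 * t)) * (X.card * 3 ^ e) := by ring
    _ ≤ _ := Nat.mul_le_mul_left _ hfin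

/-- the path through an OUT-clique -/
theorem clique_path (f : ℕ → ℕ) : ∀ (n : ℕ) (C : Finset ℕ), C.card = n → C ⊆ V →
    (∀ u ∈ C, ∀ v ∈ C, u < v → c u v = f u ∧ f u ≠ f v) → ∀ s ∈ V,
    (∀ u ∈ C, u < s ∧ c u s = f u) → RP c V s (C.image f) := by
  intro n
  induction n with
  | zero =>
    intro C hC _ _ s hs _
    rw [Finset.card_eq_zero.mp hC, Finset.image_empty]
    exact RP.single hs
  | succ n ih =>
    intro C hC hCV hcl s hs hCs
    have hne : C.Nonempty := Finset.card_pos.mp (by omega)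
    have hm : C.max' hne ∈ C := Finset.max'_mem _ _
    have hlt : ∀ u ∈ C.erase (C.max' hne), u < C.max' hne := fun u hu =>
      Finset.lt_max'_of_mem_erase_max' _ _ hu
    have h1 := ih (C.erase (C.max' hne)) (by rw [Finset.card_erase_of_mem hm, hC]; rfl)
      ((Finset.erase_subset _ _).trans hCV)
      (fun u hu v hv => hcl u (Finset.mem_of_mem_erase hu) v (Finset.mem_of_mem_erase hv))
      (C.max' hne) (hCV hm)
      (fun u hu => ⟨hlt u hu, (hcl u (Finset.mem_of_mem_erase hu) _ hm (hlt u hu)).1⟩)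
    have h2 := RP.step h1 hs (hCs _ hm).1 (by
      rw [(hCs _ hm).2]
      intro h
      obtain ⟨u, hu, he⟩ := Finset.mem_image.mp h
      exact (hcl u (Finset.mem_of_mem_erase hu) _ hm (hlt u hu)).2 he)
    rw [(hCs _ hm).2, ← Finset.image_insert, Finset.insert_erase hm] at h2
    exact h2

/-- `s` is the end of a path with `e` edges whose palette avoids `K` and the label of `s` -/
def EndP (c : ℕ → ℕ → ℕ) (V K : Finset ℕ) (x e s : ℕ) : Prop :=
  ∃ D, RP c V s D ∧ D.card = e ∧ Disjoint D K ∧ c x s ∉ D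

/-- inside a `K`-free set with (*) few points are not the end of a long OUT-chain -/
theorem notEnd_free (hR : Rk c V R) (hH : Hub c V x K F) (ht : R ≤ K.card + t)
    (hXV : X ⊆ V) (hxX : ∀ v ∈ X, x < v) (hK : ∀ v ∈ X, c x v ∉ K) (hXK : Fre c X K)
    (hstar : ∀ u ∈ X, ∀ s ∈ X, u < s →
      c x u = c x s ∨ c u s = c x u ∨ c u s = c x s ∨ c u s ∈ F)
    (hlab : ∀ l, (X.filter fun v => c x v = l).card ≤ τ₂)
    (hno : ∀ s ∈ X, ¬ EndP c V K x (2 * B) s) : X.card ≤ τ₂ * (2 * B * t) := by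
  by_contra hcon
  push Not at hcon
  have h1 : X.card ≤ τ₂ * (X.image fun v => c x v).card :=
    Finset.card_le_mul_card_image X τ₂ (fun l _ => hlab l)
  have h2 : 2 * B * t < (X.image fun v => c x v).card := by
    by_contra h
    push Not at h
    have := Nat.mul_le_mul_left τ₂ h
    omega
  -- points with different labels
  have h3 : ∃ S ⊆ X, (∀ u ∈ S, ∀ v ∈ S, c x u = c x v → u = v) ∧
      S.image (fun v => c x v) = X.image fun v => c x v := by
    have hch : ∀ l ∈ X.image (fun v => c x v), ∃ v ∈ X, c x v = l := fun l hl => by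
      obtain ⟨v, hv, h⟩ := Finset.mem_image.mp hl
      exact ⟨v, hv, h⟩
    choose! g hg using hch
    refine ⟨(X.image fun v => c x v).image g, ?_, ?_, ?_⟩
    · intro v hv
      obtain ⟨l, hl, rfl⟩ := Finset.mem_image.mp hv
      exact (hg l hl).1
    · intro u hu v hv h
      obtain ⟨l, hl, rfl⟩ := Finset.mem_image.mp hu
      obtain ⟨l', hl', rfl⟩ := Finset.mem_image.mp hv
      rw [(hg l hl).2, (hg l' hl').2] at h
      rw [h]
    · ext l
      constructor
      · intro h
        obtain ⟨v, hv, rfl⟩ := Finset.mem_image.mp h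
        obtain ⟨l, hl, rfl⟩ := Finset.mem_image.mp hv
        rw [(hg l hl).2]
        exact hl
      · intro h
        exact Finset.mem_image.mpr ⟨g l, Finset.mem_image_of_mem g h, (hg l h).2⟩
  obtain ⟨S, hSX, hinj, hSim⟩ := h3
  have h4 : 2 * B * t < S.card := by
    have h5 : (S.image fun v => c x v).card ≤ S.card := Finset.card_image_le
    rw [hSim] at h5
    omega
  have hne : ∀ u ∈ S, ∀ v ∈ S, u < v → c x u ≠ c x v := fun u hu v hv huv h =>
    huv.ne (hinj u hu v hv h)
  obtain ⟨C, hCS, hCc, hCcl⟩ := exists_out_clique (B := B) hR hH ht (hSX.trans hXV)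
    (fun v hv => hxX v (hSX hv)) (fun v hv => hK v (hSX hv)) (by
      intro u hu v hv huv
      refine ⟨hne u hu v hv huv, ?_⟩
      rcases hstar u (hSX hu) v (hSX hv) huv with h | h | h | h
      · exact absurd h (hne u hu v hv huv)
      · exact Or.inl h
      · exact Or.inr h
      · exact absurd rfl (hXK _ (hH.1 h) u (hSX hu) v (hSX hv) huv)) h4
  have hCne : C.Nonempty := Finset.card_pos.mp (by omega)
  set s := C.max' hCne with hs
  have hsC : s ∈ C := Finset.max'_mem _ _
  have hsX : s ∈ X := hSX (hCS hsC)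
  have hlt : ∀ u ∈ C.erase s, u < s := fun u hu => Finset.lt_max'_of_mem_erase_max' _ _ hu
  refine hno s hsX ⟨(C.erase s).image fun v => c x v, ?_, ?_, ?_, ?_⟩
  · refine clique_path (fun v => c x v) _ (C.erase s) rfl
      ((Finset.erase_subset _ _).trans (hCS.trans (hSX.trans hXV))) ?_ s (hXV hsX) ?_
    · intro u hu v hv huv
      have hu' := Finset.mem_of_mem_erase hu
      have hv' := Finset.mem_of_mem_erase hv
      exact ⟨hCcl u hu' v hv' huv, hne u (hCS hu') v (hCS hv') huv⟩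
    · intro u hu
      exact ⟨hlt u hu, hCcl u (Finset.mem_of_mem_erase hu) s hsC (hlt u hu)⟩
  · rw [Finset.card_image_of_injOn, Finset.card_erase_of_mem hsC, hCc]
    · rfl
    · intro u hu v hv h
      exact hinj u (hCS (Finset.mem_of_mem_erase hu)) v (hCS (Finset.mem_of_mem_erase hv)) h
  · rw [Finset.disjoint_left]
    intro γ hγ
    obtain ⟨v, hv, rfl⟩ := Finset.mem_image.mp hγ
    exact hK v (hSX (hCS (Finset.mem_of_mem_erase hv)))
  · intro h
    obtain ⟨v, hv, he⟩ := Finset.mem_image.mp h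
    exact hne v (hCS (Finset.mem_of_mem_erase hv)) s (hCS hsC) (hlt v hv) he

/-- **H3 + H4**: a zone behind a hub without a junction with one or two colours, in which (*) holds
up to `F`-coloured pairs towards points with a thick own out-class, is small. -/
theorem noJun_zone (hL : Lev c V 3 lev) (hR : Rk c V R) (hH : Hub c V x K F)
    (ht : R ≤ K.card + t)
    (hM : ∀ W ⊆ V, ∀ r ≤ R, Rk c W r → W.card * 3 ^ (R - r) ≤ M)
    (hZV : Z ⊆ V) (hxZ : ∀ v ∈ Z, x < v) (hxF : ∀ v ∈ Z, c x v ∉ F)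
    (hNJ : NoJun c Z K F x τ₂) (hτ : 0 < τ₂)
    (hstar : ∀ u ∈ Z, ∀ s ∈ Z, u < s → SO c Z K x τ₂ s →
      c x u = c x s ∨ c u s = c x u ∨ c u s = c x s ∨ c u s ∈ F) (B : ℕ) :
    3 ^ (2 * B) * Z.card ≤ 2 ^ (2 * B + 1) * ((t + 1) ^ 2 * 3 ^ (2 * t)) * M +
      3 ^ (2 * B) * (3 ^ K.card * (bG t τ₂ + τ₂ * (2 * B * t))) := by
  set Z₁ := Z.filter fun u => SO c Z K x τ₂ u with hZ₁
  set A := Z₁.filter fun s => EndP c V K x (2 * B) s with hA
  have hZ₁Z : Z₁ ⊆ Z := Finset.filter_subset _ _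
  have hAZ : A ⊆ Z := (Finset.filter_subset _ _).trans hZ₁Z
  have hst : ∀ u ∈ Z₁, ∀ s ∈ Z₁, u < s →
      c x u = c x s ∨ c u s = c x u ∨ c u s = c x s ∨ c u s ∈ F := fun u hu s hs hus =>
    hstar u (hZ₁Z hu) s (hZ₁Z hs) hus (Finset.mem_filter.mp hs).2
  have hK₁ : ∀ v ∈ Z₁, c x v ∉ K := fun v hv => (Finset.mem_filter.mp hv).2.notMem hτ
  -- few exceptional points
  have h1 := not_SO_le hL hR hH ht hZV hxZ hxF hNJ (le_refl τ₂)
  have h2 : (Z₁.filter fun s => ¬ EndP c V K x (2 * B) s).card ≤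
      3 ^ K.card * (τ₂ * (2 * B * t)) := by
    obtain ⟨X, g1, g2, g3⟩ := exists_class (c := c)
      (X := Z₁.filter fun s => ¬ EndP c V K x (2 * B) s)
      (hL.mono ((Finset.filter_subset _ _).trans (hZ₁Z.trans hZV))) K
    refine g2.trans (Nat.mul_le_mul_left _ ?_)
    have hX₁ : X ⊆ Z₁ := g1.trans (Finset.filter_subset _ _)
    refine notEnd_free hR hH ht (hX₁.trans (hZ₁Z.trans hZV)) (fun v hv => hxZ v (hZ₁Z (hX₁ hv)))
      (fun v hv => hK₁ v (hX₁ hv)) g3 (fun u hu s hs => hst u (hX₁ hu) s (hX₁ hs)) ?_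
      (fun s hs => (Finset.mem_filter.mp (g1 hs)).2)
    intro l
    by_cases hl : l ∈ F
    · have h0 : (X.filter fun v => c x v = l) = ∅ := by
        refine Finset.filter_eq_empty_iff.mpr fun v hv h => ?_
        exact hxF v (hZ₁Z (hX₁ hv)) (h ▸ hl)
      rw [h0, Finset.card_empty]
      exact Nat.zero_le _
    · exact (hNJ.one l hl X (hX₁.trans hZ₁Z) g3).le
  have h3 : Z.card ≤ A.card + 3 ^ K.card * (bG t τ₂ + τ₂ * (2 * B * t)) := by
    have hsub : Z ⊆ A ∪ ((Z.filter fun u => ¬ SO c Z K x τ₂ u) ∪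
        Z₁.filter fun s => ¬ EndP c V K x (2 * B) s) := by
      intro v hv
      by_cases g1 : SO c Z K x τ₂ v
      · have g3 : v ∈ Z₁ := Finset.mem_filter.mpr ⟨hv, g1⟩
        by_cases g2 : EndP c V K x (2 * B) v
        · exact Finset.mem_union_left _ (Finset.mem_filter.mpr ⟨g3, g2⟩)
        · exact Finset.mem_union_right _ (Finset.mem_union_right _
            (Finset.mem_filter.mpr ⟨g3, g2⟩))
      · exact Finset.mem_union_right _ (Finset.mem_union_left _ (Finset.mem_filter.mpr ⟨hv, g1⟩))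
    have g4 := (Finset.card_le_card hsub).trans (Finset.card_union_le _ _)
    have g5 := Finset.card_union_le (Z.filter fun u => ¬ SO c Z K x τ₂ u)
      (Z₁.filter fun s => ¬ EndP c V K x (2 * B) s)
    rw [Nat.mul_add]
    omega
  have h4 := no_star (e := 2 * B) hL hR hH ht hM (hAZ.trans hZV) (fun v hv => hxZ v (hAZ hv))
    (fun v hv => hK₁ v (Finset.filter_subset _ _ hv))
    (fun u hu s hs => hst u (Finset.filter_subset _ _ hu) s (Finset.filter_subset _ _ hs))
    (fun s hs => (Finset.mem_filter.mp hs).2)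
  calc 3 ^ (2 * B) * Z.card
      ≤ 3 ^ (2 * B) * (A.card + 3 ^ K.card * (bG t τ₂ + τ₂ * (2 * B * t))) :=
        Nat.mul_le_mul_left _ h3
    _ = A.card * 3 ^ (2 * B) + 3 ^ (2 * B) * (3 ^ K.card * (bG t τ₂ + τ₂ * (2 * B * t))) := by
        ring
    _ ≤ _ := Nat.add_le_add_right h4 _

theorem noJun_of_not_hasJun {τ : ℕ} (hL : Lev c V 3 lev) (hH : Hub c V x K F) (hZV : Z ⊆ V)
    (hxZ : ∀ v ∈ Z, x < v) (hxF : ∀ v ∈ Z, c x v ∉ F) (hno : ¬ HasJun c V Z K F x τ) :
    NoJun c Z K F x (27 * τ) ∧ ∀ u ∈ Z, ∀ s ∈ Z, u < s → SO c Z K x (27 * τ) s →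
      c x u = c x s ∨ c u s = c x u ∨ c u s = c x s ∨ c u s ∈ F := by
  refine ⟨⟨?_, ?_⟩, ?_⟩
  · intro l hl X hX hXK
    by_contra hcon
    push Not at hcon
    refine hno (hasJun_of (Φ := {l}) hL hZV ((Finset.filter_subset _ _).trans hX)
      (hXK.mono (Finset.filter_subset _ _) (le_refl _))
      (jun_one (a := l) hH.mem ((Finset.filter_subset _ _).trans (hX.trans hZV)) ?_) (by simp)
      (Finset.disjoint_singleton_left.mpr hl) hcon)
    intro v hv
    obtain ⟨h1, h2⟩ := Finset.mem_filter.mp hv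
    exact ⟨hxZ v (hX h1), h2⟩
  · intro u hu φ hφ hne X hX hXK
    by_contra hcon
    push Not at hcon
    refine hno (hasJun_of (Φ := {φ, c x u}) hL hZV ((Finset.filter_subset _ _).trans hX)
      (hXK.mono (Finset.filter_subset _ _) (le_refl _))
      (jun_two (a := c x u) (b := φ) (u := u) hH.mem (hZV hu) (hxZ u hu) rfl hne.symm
        ((Finset.filter_subset _ _).trans (hX.trans hZV)) ?_)
      (Finset.card_le_two.trans (by norm_num)) ?_ hcon)
    · intro v hv
      exact (Finset.mem_filter.mp hv).2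
    · rw [Finset.disjoint_insert_left]
      exact ⟨hφ, Finset.disjoint_singleton_left.mpr (hxF u hu)⟩
  · intro u hu s hs hus hSO
    by_contra hcon
    push Not at hcon
    obtain ⟨h1, h2, h3, h4⟩ := hcon
    obtain ⟨Q, hQZ, hQK, hQs, hQc⟩ := hSO
    refine hno (hasJun_of (Φ := {c x s, c u s, c x u}) hL hZV hQZ
      (hQK.mono (Finset.subset_insert _ _) (le_refl _))
      (jun_three (a := c x u) (b := c u s) (d := c x s) (u := u) (s := s) hH.mem (hZV hu) (hZV hs)
        (hxZ u hu) hus rfl rfl h2.symm h1 h3 (hQZ.trans hZV) hQs) Finset.card_le_three ?_ hQc)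
    rw [Finset.disjoint_insert_left, Finset.disjoint_insert_left]
    exact ⟨hxF s hs, h4, Finset.disjoint_singleton_left.mpr (hxF u hu)⟩

/-- **Existence of a junction with at most three colours.** -/
theorem hasJun_or_small {τ : ℕ} (hL : Lev c V 3 lev) (hR : Rk c V R) (hH : Hub c V x K F)
    (ht : R ≤ K.card + t)
    (hM : ∀ W ⊆ V, ∀ r ≤ R, Rk c W r → W.card * 3 ^ (R - r) ≤ M)
    (hZV : Z ⊆ V) (hxZ : ∀ v ∈ Z, x < v) (hxF : ∀ v ∈ Z, c x v ∉ F) (hτ : 0 < τ) (B : ℕ)
    (hno : ¬ HasJun c V Z K F x τ) :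
    3 ^ (2 * B) * Z.card ≤ 2 ^ (2 * B + 1) * ((t + 1) ^ 2 * 3 ^ (2 * t)) * M +
      3 ^ (2 * B) * (3 ^ K.card * (bG t (27 * τ) + 27 * τ * (2 * B * t))) := by
  obtain ⟨h1, h2⟩ := noJun_of_not_hasJun hL hH hZV hxZ hxF hno
  exact noJun_zone hL hR hH ht hM hZV hxZ hxF h1 (by omega) h2 B

end FlashRainbow.CF
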