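import Pool.Agent.Work.MP_54723a_co.CF.Num

/-!
# Constant factor: the numbers in the forms of helper10 and helper74  (helper27)
-/

set_option autoImplicit false

namespace FlashRainbow.CF.Sched

/-- **helper74's form** -/
theorem sched74 (d e D : ℕ) (hd : 1536 ≤ d) (A : ℕ → ℕ)
    (hA : ∀ k, A (k + 1) ≤ A k + ((12 * A k + 4) / (d / 2) + 1) + e +
      2 * ((k + 1) ^ 2 * (96 * d ^ 2 * ((k + 2) * (k + 3))))) :
    ∃ T₀ : ℕ, ∀ R, T₀ ≤ R → ∃ J, 1 ≤ J ∧ ∃ T : ℕ → ℕ, T J = R ∧ T 1 ≤ T₀ ∧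
      (∀ k, 2 ≤ k → k ≤ J → T (k - 1) + 3 ≤ T k ∧ 20 * (T k - T (k - 1)) ≤ T k ∧
        200 * (A k + D) ≤ T k ∧ 2 ^ 20 ≤ T k) ∧
      (∀ k, 1 ≤ k → k ≤ J → 200 * (A (k + 1) + D) ≤ T k ∧ 2 ^ 20 ≤ T k) ∧
      2 ^ A J ≤ 3 ^ R := by
  obtain ⟨C, hC, h⟩ := numbers_zones A d e (96 * d ^ 2) hd (fun k => by
    refine (hA k).trans (Nat.add_le_add_left (Nat.mul_le_mul_left _ (Nat.mul_le_mul_left _
      (Nat.mul_le_mul_left _ ?_))) _)
    nlinarith) 200 D (2 ^ 20)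
  refine ⟨C, fun R hR => ?_⟩
  obtain ⟨n, hn, t, h1, h2, h3, h4⟩ := h R hR
  have hn1 : n - 1 + 1 = n := by omega
  refine ⟨n - 1, by omega, fun k => t (k + 1), by simpa [hn1] using h1, h2, ?_, ?_, ?_⟩
  · intro k hk hkJ
    obtain ⟨a, b, c⟩ := h4 k hk (by omega)
    obtain ⟨p, q, r⟩ := h3 (k + 1) (by omega) (by omega)
    have hk1 : k - 1 + 1 = k := by omega
    simp only [hk1]
    exact ⟨b, c, r k (by omega), p⟩
  · intro k hk hkJ
    obtain ⟨p, q, r⟩ := h3 (k + 1) (by omega) (by omega)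
    exact ⟨r (k + 1) (by omega), p⟩
  · obtain ⟨p, q, r⟩ := h3 n hn le_rfl
    have h5 := r (n - 1) (by omega)
    rw [h1] at h5
    calc 2 ^ A (n - 1) ≤ 3 ^ A (n - 1) := Nat.pow_le_pow_left (by norm_num) _
      _ ≤ 3 ^ R := Nat.pow_le_pow_right (by norm_num) (by omega)

/-- **SCHEDULE** with steps `t / 21` -/
theorem exists_sched21 (t₀ : ℕ) (h₀ : 400 ≤ t₀) : ∀ R, t₀ ≤ R → ∃ (n : ℕ) (T : ℕ → ℕ),
    T n = R ∧ T 0 ≤ 2 * t₀ ∧ (∀ k ≤ n, t₀ ≤ T k) ∧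
    (∀ k < n, T k = T (k + 1) - T (k + 1) / 21) ∧
    (∀ k ≤ n, 31 ^ k * t₀ ≤ 30 ^ k * T k) := by
  intro R
  induction R using Nat.strong_induction_on with
  | _ R ih =>
    intro hR
    by_cases hsmall : R ≤ 2 * t₀
    · refine ⟨0, fun _ => R, rfl, hsmall, fun _ _ => hR, fun k hk => by omega, fun k hk => ?_⟩
      have : k = 0 := by omega
      subst this
      simpa using hR
    · obtain ⟨n, T, h1, h2, h3, h4, h5⟩ := ih (R - R / 21) (by omega) (by omega)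
      refine ⟨n + 1, fun k => if k = n + 1 then R else T k, by simp, ?_, ?_, ?_, ?_⟩
      · simpa using h2
      · intro k hk
        by_cases hk' : k = n + 1
        · simpa [hk'] using hR
        · simpa [hk'] using h3 k (by omega)
      · intro k hk
        by_cases hk' : k = n
        · subst hk'
          simpa using h1
        · have hk2 : k ≠ n + 1 := by omega
          have hk3 : k + 1 ≠ n + 1 := by omega
          simpa [hk2, hk3, hk'] using h4 k (by omega)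
      · intro k hk
        by_cases hk' : k = n + 1
        · subst hk'
          have h6 := h5 n le_rfl
          rw [h1] at h6
          have h7 : 31 * (R - R / 21) ≤ 30 * R := by omega
          calc 31 ^ (n + 1) * t₀ = 31 * (31 ^ n * t₀) := by ring
            _ ≤ 31 * (30 ^ n * (R - R / 21)) := Nat.mul_le_mul_left _ h6
            _ = 30 ^ n * (31 * (R - R / 21)) := by ring
            _ ≤ 30 ^ n * (30 * R) := Nat.mul_le_mul_left _ h7
            _ = 30 ^ (n + 1) * (if n + 1 = n + 1 then R else T (n + 1)) := by simp; ring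
        · simpa [hk'] using h5 k (by omega)

/-- growth `31 / 30` for recursions with factor `42 / 41` -/
theorem lam_growth30 (lam : ℕ → ℕ) (D p : ℕ)
    (hlam : ∀ i, (lam (i + 1) : ℝ) ≤ 42 / 41 * lam i + D * ((i : ℝ) + 1) ^ p) :
    ∃ C : ℕ, ∀ k, 30 ^ k * lam k ≤ C * 31 ^ k := by
  obtain ⟨C, hC0, hC⟩ := growth p (κ := 42 / 41) (s := 1) (g := 31 / 30) (B := D)
    (by norm_num) (by norm_num) (by norm_num) (by norm_num) (Nat.cast_nonneg D) (lam 0 : ℝ)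
  refine ⟨⌈C⌉₊, fun k => ?_⟩
  have h1 := hC (fun i => (lam i : ℝ)) k le_rfl (fun i _ => by simpa using hlam i) k le_rfl
  have h2 : C ≤ (⌈C⌉₊ : ℝ) := Nat.le_ceil C
  have h3 : (lam k : ℝ) ≤ ⌈C⌉₊ * (31 / 30) ^ k :=
    h1.trans (mul_le_mul_of_nonneg_right h2 (by positivity))
  have h4 : (30 : ℝ) ^ k * lam k ≤ ⌈C⌉₊ * 31 ^ k := by
    calc (30 : ℝ) ^ k * lam k ≤ 30 ^ k * (⌈C⌉₊ * (31 / 30) ^ k) :=
          mul_le_mul_of_nonneg_left h3 (by positivity)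
      _ = ⌈C⌉₊ * 31 ^ k := by
          rw [div_pow]
          field_simp
  exact_mod_cast h4

/-- the precisions of helper10 -/
def qF (m : ℕ) : ℕ := 48 * 1024 ^ 2 * (m * (m + 1))

/-- the exponents of helper10 -/
def AF : ℕ → ℕ
  | 0 => 0
  | k + 1 => AF k + ((12 * AF k + 4) / (1024 / 2) + 1) + 12 + 2 * ((k + 1) ^ 2 * qF (k + 1))

theorem AF_step (k : ℕ) : (AF (k + 1) : ℝ) ≤ 42 / 41 * AF k +
    (300 * 1024 ^ 2 + 15 : ℕ) * ((k : ℝ) + 1) ^ 4 := by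
  have h1 : AF (k + 1) = AF k + ((12 * AF k + 4) / (1024 / 2) + 1) + 12 +
      2 * ((k + 1) ^ 2 * qF (k + 1)) := rfl
  have h2 : 41 * ((12 * AF k + 4) / (1024 / 2)) ≤ AF k + 41 := by
    have : (1024 / 2 : ℕ) = 512 := by norm_num
    rw [this]
    omega
  have h3 : 2 * ((k + 1) ^ 2 * qF (k + 1)) ≤ 300 * 1024 ^ 2 * (k + 1) ^ 4 := by
    unfold qF
    have h4 : (k + 1) * (k + 1 + 1) ≤ 2 * (k + 1) ^ 2 := by nlinarith
    calc 2 * ((k + 1) ^ 2 * (48 * 1024 ^ 2 * ((k + 1) * (k + 1 + 1))))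
        ≤ 2 * ((k + 1) ^ 2 * (48 * 1024 ^ 2 * (2 * (k + 1) ^ 2))) :=
          Nat.mul_le_mul_left _ (Nat.mul_le_mul_left _ (Nat.mul_le_mul_left _ h4))
      _ = 192 * 1024 ^ 2 * (k + 1) ^ 4 := by ring
      _ ≤ 300 * 1024 ^ 2 * (k + 1) ^ 4 := Nat.mul_le_mul_right _ (by norm_num)
  have h5 : 1 ≤ (k + 1) ^ 4 := Nat.one_le_pow _ _ (by omega)
  have h6 : 41 * AF (k + 1) ≤ 42 * AF k + 41 * ((300 * 1024 ^ 2 + 15) * (k + 1) ^ 4) := by
    have h7 : (300 * 1024 ^ 2 + 15) * (k + 1) ^ 4 = 300 * 1024 ^ 2 * (k + 1) ^ 4 +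
      15 * (k + 1) ^ 4 := by ring
    rw [h7, h1]
    omega
  have h7 : (41 : ℝ) * AF (k + 1) ≤ 42 * AF k +
      41 * ((300 * 1024 ^ 2 + 15 : ℕ) * ((k : ℝ) + 1) ^ 4) := by
    exact_mod_cast h6
  generalize ((300 * 1024 ^ 2 + 15 : ℕ) : ℝ) * ((k : ℝ) + 1) ^ 4 = W at h7 ⊢
  linarith

/-- **helper10's form** -/
theorem sched : ∃ C : ℕ, ∀ R, C ≤ R → ∃ (J : ℕ) (t : ℕ → ℕ), 1 ≤ J ∧ t J = R ∧ t 1 ≤ C ∧
    AF J ≤ R ∧ ∀ k, 1 ≤ k → k < J → t k + 3 ≤ t (k + 1) ∧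
      20 * (t (k + 1) - t k) + 3 ≤ t (k + 1) ∧ 200 * (AF (k + 1) + 8205) + 10000 ≤ t (k + 1) := by
  obtain ⟨C₁, hC₁⟩ := lam_growth30 AF (300 * 1024 ^ 2 + 15) 4 AF_step
  obtain ⟨t₀, ht₀⟩ : ∃ t₀, t₀ = max 400 (200 * (2 * C₁ + 8205) + 10000) := ⟨_, rfl⟩
  have h400 : 400 ≤ t₀ := by rw [ht₀]; exact le_max_left _ _
  have hE : 200 * (2 * C₁ + 8205) + 10000 ≤ t₀ := by rw [ht₀]; exact le_max_right _ _
  refine ⟨2 * t₀, fun R hR => ?_⟩
  obtain ⟨n, T, h1, h2, h3, h4, h5⟩ := exists_sched21 t₀ h400 R (by omega)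
  have key : ∀ k ≤ n, ∀ j ≤ k + 1, 200 * (AF j + 8205) + 10000 ≤ T k := by
    intro k hk j hj
    have hj2 : 30 ^ k * AF j ≤ 2 * C₁ * 31 ^ k := by
      rcases Nat.lt_or_ge k j with hkj | hjk
      · have : j = k + 1 := by omega
        subst this
        have h7 := hC₁ (k + 1)
        have h8 : 30 * (30 ^ k * AF (k + 1)) ≤ 30 * (2 * C₁ * 31 ^ k) := by
          calc 30 * (30 ^ k * AF (k + 1)) = 30 ^ (k + 1) * AF (k + 1) := by ring
            _ ≤ C₁ * 31 ^ (k + 1) := h7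
            _ = 31 * (C₁ * 31 ^ k) := by ring
            _ ≤ 60 * (C₁ * 31 ^ k) := Nat.mul_le_mul_right _ (by norm_num)
            _ = 30 * (2 * C₁ * 31 ^ k) := by ring
        omega
      · obtain ⟨m, rfl⟩ : ∃ m, k = j + m := ⟨k - j, by omega⟩
        calc 30 ^ (j + m) * AF j = 30 ^ m * (30 ^ j * AF j) := by rw [pow_add]; ring
          _ ≤ 30 ^ m * (C₁ * 31 ^ j) := Nat.mul_le_mul_left _ (hC₁ j)
          _ ≤ 31 ^ m * (2 * C₁ * 31 ^ j) := by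
              refine Nat.mul_le_mul (Nat.pow_le_pow_left (by norm_num) m) ?_
              exact Nat.mul_le_mul_right _ (by omega)
          _ = 2 * C₁ * 31 ^ (j + m) := by rw [pow_add]; ring
    have h6 : 30 ^ k * (200 * (AF j + 8205) + 10000) ≤ 30 ^ k * T k := by
      calc 30 ^ k * (200 * (AF j + 8205) + 10000)
          = 200 * (30 ^ k * AF j) + 30 ^ k * (200 * 8205 + 10000) := by ring
        _ ≤ 200 * (2 * C₁ * 31 ^ k) + 31 ^ k * (200 * 8205 + 10000) := by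
            refine Nat.add_le_add (Nat.mul_le_mul_left _ hj2) ?_
            exact Nat.mul_le_mul_right _ (Nat.pow_le_pow_left (by norm_num) k)
        _ = 31 ^ k * (200 * (2 * C₁ + 8205) + 10000) := by ring
        _ ≤ 31 ^ k * t₀ := Nat.mul_le_mul_left _ hE
        _ ≤ 30 ^ k * T k := h5 k hk
    exact Nat.le_of_mul_le_mul_left h6 (by positivity)
  refine ⟨n + 1, fun k => T (k - 1), by omega, by simpa using h1, by simpa using h2, ?_, ?_⟩
  · have h6 := key n le_rfl (n + 1) le_rfl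
    rw [h1] at h6
    omega
  · intro k hk hkn
    obtain ⟨m, rfl⟩ : ∃ m, k = m + 1 := ⟨k - 1, by omega⟩
    simp only [Nat.add_sub_cancel]
    have h6 := h4 m (by omega)
    have h7 := h3 (m + 1) (by omega)
    have h8 := key (m + 1) (by omega) (m + 1 + 1) le_rfl
    refine ⟨by omega, by omega, h8⟩

end FlashRainbow.CF.Sched
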