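import Pool.Agent.Work.MP_54723a_co.CF.H1

/-!
# Constant factor, measure route: the old hub  (helper74; source: helper14, helper63, helper2)

`x, K, F` is the present hub, `x', K', F'` an old hub, `f v = c x v`.  Suppose that there is no
junction from `x` with one or two colours (`hA`, `hB`) and that thick `K`-free sets contain long
rainbow paths (`hlong`).  Then, up to few exceptions, every pair `u₀ < u` of `Z` whose colour is not
a junction colour of the OLD hub has the colour `f u₀` or `f u`, or `f u₀ = f u`.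
-/

set_option autoImplicit false

namespace FlashRainbow.CF

open Classical

variable {c : ℕ → ℕ → ℕ} {V Z K F K' F' : Finset ℕ} {R t t' τ₂ τ₁ s x x' : ℕ} {lev : ℕ → ℕ → ℕ}

/-- greedy paths: if all out-classes inside `X` have less than `T` points, then a rainbow path with
`n` edges which avoids `B` starts at the first vertex of `X` -/
theorem greedy_path (T : ℕ) : ∀ (n : ℕ) (X B : Finset ℕ),
    (∀ u ∈ X, ∀ φ, (X.filter fun v => u < v ∧ c u v = φ).card < T) →
    1 + n * ((B.card + n) * T + 1) ≤ X.card →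
    ∃ u ∈ X, (∀ v ∈ X, u ≤ v) ∧ ∃ D, RS c X u D ∧ D.card = n ∧ Disjoint D B := by
  intro n
  induction n with
  | zero =>
    intro X B _ hX
    have hne : X.Nonempty := Finset.card_pos.mp (by omega)
    exact ⟨X.min' hne, Finset.min'_mem _ _, fun v hv => Finset.min'_le _ _ hv, ∅,
      RS.single (Finset.min'_mem _ _), rfl, Finset.disjoint_empty_left _⟩
  | succ n ih =>
    intro X B hT hX
    have hne : X.Nonempty := Finset.card_pos.mp (by omega)
    set u := X.min' hne with hu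
    have huX : u ∈ X := Finset.min'_mem _ _
    have hmin : ∀ v ∈ X, u ≤ v := fun v hv => Finset.min'_le _ _ hv
    set X' := X.filter fun v => u < v ∧ c u v ∉ B with hX'
    have hsub : X ⊆ {u} ∪ (B.biUnion fun φ => X.filter fun v => u < v ∧ c u v = φ) ∪ X' := by
      intro v hv
      rcases (hmin v hv).eq_or_lt with h1 | h1
      · exact Finset.mem_union_left _ (Finset.mem_union_left _ (Finset.mem_singleton.mpr h1.symm))
      · by_cases h2 : c u v ∈ B
        · exact Finset.mem_union_left _ (Finset.mem_union_right _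
            (Finset.mem_biUnion.mpr ⟨_, h2, Finset.mem_filter.mpr ⟨hv, h1, rfl⟩⟩))
        · exact Finset.mem_union_right _ (Finset.mem_filter.mpr ⟨hv, h1, h2⟩)
    have hcard : X.card ≤ 1 + B.card * T + X'.card := by
      refine (Finset.card_le_card hsub).trans ((Finset.card_union_le _ _).trans ?_)
      refine Nat.add_le_add_right ((Finset.card_union_le _ _).trans ?_) _
      rw [Finset.card_singleton]
      refine Nat.add_le_add_left (Finset.card_biUnion_le.trans ?_) _
      rw [← smul_eq_mul, ← Finset.sum_const]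
      exact Finset.sum_le_sum fun φ _ => (hT u huX φ).le
    have hX'X : X' ⊆ X := Finset.filter_subset _ _
    have hbig : ∀ v, 1 + n * (((insert (c u v) B).card + n) * T + 1) ≤ X'.card := by
      intro v
      have h1 : (insert (c u v) B).card ≤ B.card + 1 := Finset.card_insert_le _ _
      have h2 : n * (((insert (c u v) B).card + n) * T + 1) ≤ n * ((B.card + (n + 1)) * T + 1) := by
        refine Nat.mul_le_mul_left _ (Nat.add_le_add_right (Nat.mul_le_mul_right _ ?_) _)
        omega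
      have h3 : (n + 1) * ((B.card + (n + 1)) * T + 1) =
          n * ((B.card + (n + 1)) * T + 1) + (B.card * T + (n + 1) * T + 1) := by ring
      have h4 : 0 ≤ (n + 1) * T := Nat.zero_le _
      omega
    have hne' : X'.Nonempty := Finset.card_pos.mp (by have := hbig 0; omega)
    set w := X'.min' hne' with hw
    have hwX' : w ∈ X' := Finset.min'_mem _ _
    obtain ⟨-, huw, hcw⟩ := Finset.mem_filter.mp hwX'
    obtain ⟨w', hw', hmin', D, hD, hDc, hDB⟩ := ih X' (insert (c u w) B)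
      (fun a ha φ => lt_of_le_of_lt (Finset.card_le_card
        (Finset.filter_subset_filter _ hX'X)) (hT a (hX'X ha) φ)) (hbig w)
    have hww : w' = w := le_antisymm (hmin' w hwX') (Finset.min'_le _ _ hw')
    rw [hww] at hD
    rw [Finset.disjoint_insert_right] at hDB
    refine ⟨u, huX, hmin, insert (c u w) D, RS.step (hD.mono hX'X) huX huw hDB.1, ?_, ?_⟩
    · rw [Finset.card_insert_of_notMem hDB.1, hDc]
    · rw [Finset.disjoint_insert_left]
      exact ⟨hcw, hDB.2⟩

/-- thick own out-class: at least `T` points of a `K`-free subset of `Z` which contains `u` are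
reached from `u` by the label colour `c x u` of `u` -/
def SO (c : ℕ → ℕ → ℕ) (Z K : Finset ℕ) (x T u : ℕ) : Prop :=
  ∃ Q ⊆ Z, Fre c (insert u Q) K ∧ (∀ v ∈ Q, u < v ∧ c u v = c x u) ∧ T ≤ Q.card

/-- such a label is not a colour of `K` -/
theorem SO.notMem {T u : ℕ} (h : SO c Z K x T u) (hT : 0 < T) : c x u ∉ K := by
  obtain ⟨Q, -, hQK, hQu, hQc⟩ := h
  obtain ⟨v, hv⟩ := Finset.card_pos.mp (lt_of_lt_of_le hT hQc)
  intro hK
  exact hQK _ hK u (Finset.mem_insert_self _ _) v (Finset.mem_insert_of_mem hv) (hQu v hv).1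
    (hQu v hv).2

/-- no junction with one or two colours at the hub `x` -/
structure NoJun (c : ℕ → ℕ → ℕ) (Z K F : Finset ℕ) (x τ₂ : ℕ) : Prop where
  one : ∀ l, l ∉ F → ∀ X ⊆ Z, Fre c X K → (X.filter fun v => c x v = l).card < τ₂
  two : ∀ u ∈ Z, ∀ φ, φ ∉ F → φ ≠ c x u → ∀ X ⊆ Z, Fre c X K →
    (X.filter fun v => u < v ∧ c u v = φ).card < τ₂

/-- the bound for a `K`-free set of points which are not `SO` -/
def bG (t T : ℕ) : ℕ := 1 + (t + 1) * ((t + 2) * T + 1)

/-- points without a thick own out-class are few in every `K`-free set -/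
theorem not_SO_free (hR : Rk c V R) (hH : Hub c V x K F) (ht : R ≤ K.card + t) (hZV : Z ⊆ V)
    (hxZ : ∀ v ∈ Z, x < v) (hxF : ∀ v ∈ Z, c x v ∉ F) (hNJ : NoJun c Z K F x τ₂) {T : ℕ}
    (hT : τ₂ ≤ T) {X : Finset ℕ} (hX : X ⊆ Z) (hXK : Fre c X K)
    (hno : ∀ u ∈ X, ¬ SO c Z K x T u) : X.card < bG t T := by
  by_contra hcon
  push Not at hcon
  have hne : X.Nonempty := Finset.card_pos.mp (by unfold bG at hcon; omega)
  set u₁ := X.min' hne with hu₁
  obtain ⟨u, hu, hmin, D, hD, hDc, hDB⟩ := greedy_path (c := c) T (t + 1) X {c x u₁} (by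
      intro u hu φ
      by_cases hφ : φ = c x u
      · by_contra hlt
        push Not at hlt
        refine hno u hu ⟨X.filter fun v => u < v ∧ c u v = φ, (Finset.filter_subset _ _).trans hX,
          hXK.mono (Finset.insert_subset hu (Finset.filter_subset _ _)) (Finset.Subset.refl _),
          ?_, hlt⟩
        intro v hv
        have := (Finset.mem_filter.mp hv).2
        exact ⟨this.1, this.2.trans hφ⟩
      · by_cases hφF : φ ∈ F
        · have h0 : (X.filter fun v => u < v ∧ c u v = φ) = ∅ := by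
            refine Finset.filter_eq_empty_iff.mpr fun v hv h => ?_
            exact hXK φ (hH.1 hφF) u hu v hv h.1 h.2
          rw [h0, Finset.card_empty]
          have h1 := hNJ.one (c x u) (hxF u (hX hu)) X hX hXK
          omega
        · exact lt_of_lt_of_le (hNJ.two u (hX hu) φ hφF hφ X hX hXK) hT)
    (by
      rw [Finset.card_singleton]
      refine le_trans (le_of_eq ?_) hcon
      unfold bG
      ring)
  have huu : u = u₁ := le_antisymm (hmin u₁ (Finset.min'_mem _ _)) (Finset.min'_le _ _ hu)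
  rw [← huu] at hDB
  rw [Finset.disjoint_singleton_right] at hDB
  have huZ := hX hu
  -- the palette of the hub without the label
  have h1 := hH.2 (K.erase (c x u)) (fun z hz => Finset.mem_erase.mpr
    ⟨fun h => hxF u huZ (h ▸ hz), hH.1 hz⟩) (Finset.erase_subset _ _)
  have h2 := RP.step h1 (hZV huZ) (hxZ u huZ) (Finset.notMem_erase _ _)
  have hDK : ∀ γ ∈ K, γ ∉ D := fun γ hγ => hD.notMem_of_free (hXK γ hγ)
  obtain ⟨y, hy⟩ := hD.join (hX.trans hZV) _ h2 (by
    rw [Finset.disjoint_insert_right]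
    refine ⟨hDB, ?_⟩
    rw [Finset.disjoint_right]
    intro γ hγ
    exact hDK γ (Finset.mem_of_mem_erase hγ))
  have h3 := hR _ _ hy
  rw [Finset.card_union_of_disjoint (by
    rw [Finset.disjoint_insert_left]
    refine ⟨hDB, ?_⟩
    rw [Finset.disjoint_left]
    intro γ hγ
    exact hDK γ (Finset.mem_of_mem_erase hγ)), Finset.card_insert_of_notMem
    (Finset.notMem_erase _ _), hDc] at h3
  have h4 := Finset.pred_card_le_card_erase (s := K) (a := c x u)
  omega

/-- points without a thick own out-class are few -/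
theorem not_SO_le (hL : Lev c V 3 lev) (hR : Rk c V R) (hH : Hub c V x K F)
    (ht : R ≤ K.card + t) (hZV : Z ⊆ V) (hxZ : ∀ v ∈ Z, x < v) (hxF : ∀ v ∈ Z, c x v ∉ F)
    (hNJ : NoJun c Z K F x τ₂) {T : ℕ} (hT : τ₂ ≤ T) :
    (Z.filter fun u => ¬ SO c Z K x T u).card ≤ 3 ^ K.card * bG t T := by
  obtain ⟨X, h1, h2, h3⟩ := exists_class (c := c) (X := Z.filter fun u => ¬ SO c Z K x T u)
    (hL.mono ((Finset.filter_subset _ _).trans hZV)) K
  refine h2.trans (Nat.mul_le_mul_left _ ?_)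
  exact (not_SO_free hR hH ht hZV hxZ hxF hNJ hT (h1.trans (Finset.filter_subset _ _)) h3
    fun u hu => (Finset.mem_filter.mp (h1 hu)).2).le

/-- (**) of the source: pairs `u₀ < u` where `u` has a thick own out-class -/
theorem old_hub_pair (hR : Rk c V R) (_hH : Hub c V x K F) (hH' : Hub c V x' K' F')
    (hKK : K' ⊆ K) (hFF : F' ⊆ F) (ht' : R ≤ K'.card + t') (hs : t' < s) (hs3 : 3 ≤ s)
    (hZV : Z ⊆ V) (hxZ' : ∀ v ∈ Z, x' < v) (hxF : ∀ v ∈ Z, c x v ∉ F)
    (hlong : ∀ Q ⊆ Z, Fre c Q K → τ₁ ≤ Q.card → ∀ B : Finset ℕ, B.card ≤ s →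
      ∃ y D, RS c Q y D ∧ Disjoint D B ∧ s ≤ D.card)
    {u₀ u : ℕ} (hu₀ : u₀ ∈ Z) (hu : u ∈ Z) (hlt : u₀ < u) (hso : SO c Z K x τ₁ u) :
    c u₀ u = c x' u₀ ∨ c u₀ u = c x u ∨ c x' u₀ = c x u ∨ c x' u₀ ∈ F' ∨ c u₀ u ∈ F' := by
  by_contra hcon
  push Not at hcon
  obtain ⟨h1, h2, h3, h4, h5⟩ := hcon
  obtain ⟨Q, hQZ, hQK₀, hQu, hQc⟩ := hso
  have hQK : Fre c Q K := hQK₀.mono (Finset.subset_insert _ _) (Finset.Subset.refl _)
  set e := c x' u₀ with he
  set d := c u₀ u with hd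
  set g := c x u with hg
  have hgF : g ∉ F := hxF u hu
  obtain ⟨y, D, hD, hDB, hDs⟩ := hlong Q hQZ hQK hQc {e, d, g}
    ((Finset.card_le_three).trans hs3)
  have hDe : e ∉ D := fun h => Finset.disjoint_left.mp hDB h (by simp)
  have hDd : d ∉ D := fun h => Finset.disjoint_left.mp hDB h (by simp)
  have hDg : g ∉ D := fun h => Finset.disjoint_left.mp hDB h (by simp)
  have hDK : ∀ γ ∈ K', γ ∉ D := fun γ hγ => hD.notMem_of_free (hQK γ (hKK hγ))
  set L := K' \ {e, d, g} with hL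
  have hFL : F' ⊆ L := by
    intro z hz
    refine Finset.mem_sdiff.mpr ⟨hH'.1 hz, ?_⟩
    simp only [Finset.mem_insert, Finset.mem_singleton, not_or]
    refine ⟨fun h => h4 (h ▸ hz), fun h => h5 (h ▸ hz), fun h => hgF (h ▸ hFF hz)⟩
  have heL : e ∉ L := fun h => (Finset.mem_sdiff.mp h).2 (by simp)
  have hdL : d ∉ L := fun h => (Finset.mem_sdiff.mp h).2 (by simp)
  have hgL : g ∉ L := fun h => (Finset.mem_sdiff.mp h).2 (by simp)
  have p1 := hH'.2 L hFL Finset.sdiff_subset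
  have p2 := RP.step p1 (hZV hu₀) (hxZ' u₀ hu₀) heL
  rw [← he] at p2
  have hd2 : d ∉ insert e L := by
    rw [Finset.mem_insert, not_or]
    exact ⟨h1, hdL⟩
  have p3 := RP.step p2 (hZV hu) hlt hd2
  rw [← hd] at p3
  have hyQ := hQu y hD.mem
  have q1 : RS c V u (insert g D) := by
    have := RS.step (hD.mono (hQZ.trans hZV)) (hZV hu) hyQ.1 (by rw [hyQ.2]; exact hDg)
    rwa [hyQ.2] at this
  have hdisj : Disjoint (insert g D) (insert d (insert e L)) := by
    rw [Finset.disjoint_insert_left]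
    refine ⟨?_, ?_⟩
    · simp only [Finset.mem_insert, not_or]
      exact ⟨fun h => h2 h.symm, fun h => h3 h.symm, hgL⟩
    · rw [Finset.disjoint_insert_right, Finset.disjoint_insert_right]
      refine ⟨hDd, hDe, ?_⟩
      rw [Finset.disjoint_right]
      intro γ hγ
      exact hDK γ (Finset.mem_sdiff.mp hγ).1
  obtain ⟨z, hz⟩ := q1.join (Finset.Subset.refl V) _ p3 hdisj
  have h6 := hR _ _ hz
  rw [Finset.card_union_of_disjoint hdisj.symm, Finset.card_insert_of_notMem hd2,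
    Finset.card_insert_of_notMem heL, Finset.card_insert_of_notMem hDg] at h6
  have h7 : K'.card ≤ L.card + 3 := by
    have h8 := Finset.le_card_sdiff {e, d, g} K'
    have h9 : ({e, d, g} : Finset ℕ).card ≤ 3 := Finset.card_le_three
    rw [hL]
    omega
  omega

/-- (4) of the source: the labels of the old and of the present hub agree at points with a very thick
own out-class -/
theorem old_hub_label (hR : Rk c V R) (hH : Hub c V x K F) (hH' : Hub c V x' K' F')
    (hKK : K' ⊆ K) (hFF : F' ⊆ F) (ht : R ≤ K.card + t) (ht' : R ≤ K'.card + t') (hs : t' < s)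
    (hs3 : 3 ≤ s) (hZV : Z ⊆ V) (hxZ : ∀ v ∈ Z, x < v) (hxZ' : ∀ v ∈ Z, x' < v)
    (hxF : ∀ v ∈ Z, c x v ∉ F) (hNJ : NoJun c Z K F x τ₂) (hτ : τ₂ ≤ τ₁)
    (hlong : ∀ Q ⊆ Z, Fre c Q K → τ₁ ≤ Q.card → ∀ B : Finset ℕ, B.card ≤ s →
      ∃ y D, RS c Q y D ∧ Disjoint D B ∧ s ≤ D.card)
    {u₀ : ℕ} (hu₀ : u₀ ∈ Z) (hso : SO c Z K x (2 * τ₂ + bG t τ₁) u₀) (hF' : c x' u₀ ∉ F') :
    c x' u₀ = c x u₀ := by
  obtain ⟨Q, hQZ, hQK₀, hQu, hQc⟩ := hso
  have hQK : Fre c Q K := hQK₀.mono (Finset.subset_insert _ _) (Finset.Subset.refl _)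
  -- a semi-O point with a new label
  have hex : ∃ u ∈ Q, SO c Z K x τ₁ u ∧ c x u ≠ c x u₀ ∧ c x u ≠ c x' u₀ := by
    by_contra hcon
    push Not at hcon
    have hsub : Q ⊆ (Q.filter fun v => ¬ SO c Z K x τ₁ v) ∪
        ((Q.filter fun v => c x v = c x u₀) ∪ Q.filter fun v => c x v = c x' u₀) := by
      intro v hv
      by_cases h1 : SO c Z K x τ₁ v
      · by_cases h2 : c x v = c x u₀
        · exact Finset.mem_union_right _ (Finset.mem_union_left _ (Finset.mem_filter.mpr ⟨hv, h2⟩))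
        · exact Finset.mem_union_right _ (Finset.mem_union_right _
            (Finset.mem_filter.mpr ⟨hv, hcon v hv h1 h2⟩))
      · exact Finset.mem_union_left _ (Finset.mem_filter.mpr ⟨hv, h1⟩)
    have h1 := Finset.card_le_card hsub
    have h2 := Finset.card_union_le (Q.filter fun v => ¬ SO c Z K x τ₁ v)
      ((Q.filter fun v => c x v = c x u₀) ∪ Q.filter fun v => c x v = c x' u₀)
    have h3 := Finset.card_union_le (Q.filter fun v => c x v = c x u₀)
      (Q.filter fun v => c x v = c x' u₀)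
    have h4 : (Q.filter fun v => ¬ SO c Z K x τ₁ v).card < bG t τ₁ :=
      not_SO_free hR hH ht hZV hxZ hxF hNJ hτ ((Finset.filter_subset _ _).trans hQZ)
        (hQK.mono (Finset.filter_subset _ _) (Finset.Subset.refl _))
        fun v hv => (Finset.mem_filter.mp hv).2
    have h5 := hNJ.one _ (hxF u₀ hu₀) Q hQZ hQK
    have h6 : (Q.filter fun v => c x v = c x' u₀).card < τ₂ := by
      by_cases h7 : c x' u₀ ∈ F
      · have h0 : (Q.filter fun v => c x v = c x' u₀) = ∅ := by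
          refine Finset.filter_eq_empty_iff.mpr fun v hv h => ?_
          exact hxF v (hQZ hv) (h ▸ h7)
        rw [h0, Finset.card_empty]
        omega
      · exact hNJ.one _ h7 Q hQZ hQK
    omega
  obtain ⟨u, huQ, hsu, hne, hne'⟩ := hex
  obtain ⟨hlt, hcu⟩ := hQu u huQ
  rcases old_hub_pair hR hH hH' hKK hFF ht' hs hs3 hZV hxZ' hxF hlong hu₀ (hQZ huQ) hlt hsu with
    h | h | h | h | h
  · rw [← h, hcu]
  · exact absurd (hcu.symm.trans h) (fun h' => hne h'.symm)
  · exact absurd h.symm hne'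
  · exact absurd h hF'
  · rw [hcu] at h
    exact absurd (hFF h) (hxF u₀ hu₀)

/-- the good points -/
noncomputable def Zgood (c : ℕ → ℕ → ℕ) (Z K F' : Finset ℕ) (x x' T : ℕ) : Finset ℕ :=
  Z.filter fun u => SO c Z K x T u ∧ c x' u ∉ F'

/-- **The old hub theorem**: (*) for all pairs of good points except those whose colour is a junction
colour of the old hub. -/
theorem old_hub (hR : Rk c V R) (hH : Hub c V x K F) (hH' : Hub c V x' K' F')
    (hKK : K' ⊆ K) (hFF : F' ⊆ F) (ht : R ≤ K.card + t) (ht' : R ≤ K'.card + t') (hs : t' < s)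
    (hs3 : 3 ≤ s) (hZV : Z ⊆ V) (hxZ : ∀ v ∈ Z, x < v) (hxZ' : ∀ v ∈ Z, x' < v)
    (hxF : ∀ v ∈ Z, c x v ∉ F) (hNJ : NoJun c Z K F x τ₂) (hτ : τ₂ ≤ τ₁)
    (hlong : ∀ Q ⊆ Z, Fre c Q K → τ₁ ≤ Q.card → ∀ B : Finset ℕ, B.card ≤ s →
      ∃ y D, RS c Q y D ∧ Disjoint D B ∧ s ≤ D.card)
    {u₀ u : ℕ} (hu₀ : u₀ ∈ Zgood c Z K F' x x' (2 * τ₂ + bG t τ₁))
    (hu : u ∈ Zgood c Z K F' x x' (2 * τ₂ + bG t τ₁)) (hlt : u₀ < u) :
    c x u₀ = c x u ∨ c u₀ u = c x u₀ ∨ c u₀ u = c x u ∨ c u₀ u ∈ F' := by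
  obtain ⟨hu₀Z, hso₀, hF₀⟩ := Finset.mem_filter.mp hu₀
  obtain ⟨huZ, hso, -⟩ := Finset.mem_filter.mp hu
  have hlab := old_hub_label hR hH hH' hKK hFF ht ht' hs hs3 hZV hxZ hxZ' hxF hNJ hτ hlong hu₀Z
    hso₀ hF₀
  have hso₁ : SO c Z K x τ₁ u := by
    obtain ⟨Q, h1, h2, h3, h4⟩ := hso
    refine ⟨Q, h1, h2, h3, ?_⟩
    have h5 : τ₁ ≤ bG t τ₁ := by
      unfold bG
      have h6 : (t + 1) * ((t + 2) * τ₁ + 1) = τ₁ + ((t + 1) * (t + 2) * τ₁ + t - τ₁ + 1) := by
        have h7 : τ₁ ≤ (t + 1) * (t + 2) * τ₁ := Nat.le_mul_of_pos_left _ (by positivity)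
        have h8 : (t + 1) * ((t + 2) * τ₁ + 1) = (t + 1) * (t + 2) * τ₁ + t + 1 := by ring
        omega
      omega
    omega
  rcases old_hub_pair hR hH hH' hKK hFF ht' hs hs3 hZV hxZ' hxF hlong hu₀Z huZ hlt hso₁ with
    h | h | h | h | h
  · exact Or.inr (Or.inl (h.trans hlab))
  · exact Or.inr (Or.inr (Or.inl h))
  · exact Or.inl (hlab.symm.trans h)
  · exact absurd h hF₀
  · exact Or.inr (Or.inr (Or.inr h))

/-- the number of points which are not good -/
theorem card_Zgood (hL : Lev c V 3 lev) (hR : Rk c V R) (hH : Hub c V x K F)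
    (ht : R ≤ K.card + t) (hZV : Z ⊆ V) (hxZ : ∀ v ∈ Z, x < v) (hxF : ∀ v ∈ Z, c x v ∉ F)
    (hNJ : NoJun c Z K F x τ₂) {T : ℕ} (hT : τ₂ ≤ T) :
    Z.card ≤ (Zgood c Z K F' x x' T).card + 3 ^ K.card * bG t T +
      (Z.filter fun u => c x' u ∈ F').card := by
  have hsub : Z ⊆ (Zgood c Z K F' x x' T) ∪ (Z.filter fun u => ¬ SO c Z K x T u) ∪
      Z.filter fun u => c x' u ∈ F' := by
    intro v hv
    by_cases h1 : SO c Z K x T v
    · by_cases h2 : c x' v ∈ F'
      · exact Finset.mem_union_right _ (Finset.mem_filter.mpr ⟨hv, h2⟩)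
      · exact Finset.mem_union_left _ (Finset.mem_union_left _
          (Finset.mem_filter.mpr ⟨hv, h1, h2⟩))
    · exact Finset.mem_union_left _ (Finset.mem_union_right _ (Finset.mem_filter.mpr ⟨hv, h1⟩))
  refine (Finset.card_le_card hsub).trans ((Finset.card_union_le _ _).trans ?_)
  refine Nat.add_le_add_right ((Finset.card_union_le _ _).trans ?_) _
  exact Nat.add_le_add_left (not_SO_le hL hR hH ht hZV hxZ hxF hNJ hT) _

theorem Zgood_notMem {T u : ℕ} (hT : 0 < T) (hu : u ∈ Zgood c Z K F' x x' T) : c x u ∉ K :=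
  (Finset.mem_filter.mp hu).2.1.notMem hT

/-- the label of a good point has an in-edge (from the hub) and an out-edge: its level is exactly 1 -/
theorem Zgood_level (hL : Lev c V 3 lev) (hH : Hub c V x K F) (hZV : Z ⊆ V)
    (hxZ : ∀ v ∈ Z, x < v) {T u : ℕ} (hT : 0 < T) (hu : u ∈ Zgood c Z K F' x x' T) :
    lev (c x u) u = 1 := by
  obtain ⟨huZ, ⟨Q, hQZ, -, hQu, hQc⟩, -⟩ := Finset.mem_filter.mp hu
  obtain ⟨v, hv⟩ := Finset.card_pos.mp (lt_of_lt_of_le hT hQc)
  obtain ⟨huv, hcv⟩ := hQu v hv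
  have h1 := hL.up x hH.mem u (hZV huZ) (hxZ u huZ)
  have h2 := hL.up u (hZV huZ) v (hZV (hQZ hv)) huv
  rw [hcv] at h2
  have h3 := hL.lt (c x u) v (hZV (hQZ hv))
  omega

end FlashRainbow.CF
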