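import Mathlib

/-!
# The phase lemma

A deterministic replacement of the label counting: windows `W 0 < W 1 < ... < W t`, pairs are
`OUT`, `IN` or exceptional, no long `IN` path, no large common `OUT` neighbourhood of an `OUT`
clique with `a` points, few exceptional partners: impossible.
-/

namespace FlashRainbow.CF

open Finset

/-- `Ch IN S k z`: an `IN` path of `S` with `k` vertices ends at `z`. -/
inductive Ch (IN : ℕ → ℕ → Prop) (S : Finset ℕ) : ℕ → ℕ → Prop
  | one {z : ℕ} (hz : z ∈ S) : Ch IN S 1 z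
  | step {k u z : ℕ} (hu : Ch IN S k u) (hlt : u < z) (hz : z ∈ S) (h : IN u z) :
      Ch IN S (k + 1) z

theorem Ch.mem {IN : ℕ → ℕ → Prop} {S : Finset ℕ} {k z : ℕ} (h : Ch IN S k z) : z ∈ S := by
  cases h with
  | one hz => exact hz
  | step _ _ hz _ => exact hz

theorem Ch.mono {IN : ℕ → ℕ → Prop} {S S' : Finset ℕ} (hS : S ⊆ S') {k z : ℕ}
    (h : Ch IN S k z) : Ch IN S' k z := by
  induction h with
  | one hz => exact Ch.one (hS hz)
  | step _ hlt hz hin ih => exact Ch.step ih hlt (hS hz) hin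

theorem Ch.le {IN : ℕ → ℕ → Prop} {S : Finset ℕ} {k z : ℕ} (h : Ch IN S k z) :
    ∀ j, 1 ≤ j → j ≤ k → Ch IN S j z := by
  induction h with
  | one hz =>
    intro j h1 h2
    obtain rfl : j = 1 := le_antisymm h2 h1
    exact Ch.one hz
  | step _ hlt hz hin ih =>
    intro j h1 h2
    rcases Nat.eq_or_lt_of_le h1 with h3 | h3
    · subst h3
      exact Ch.one hz
    · obtain ⟨i, rfl⟩ : ∃ i, j = i + 1 := ⟨j - 1, by omega⟩
      exact Ch.step (ih i (by omega) (by omega)) hlt hz hin

open Classical in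
/-- greedy choice of `n` points of `D` without exceptional pairs -/
theorem exists_free (E : ℕ → ℕ → Prop) (hsym : ∀ u h, E u h → E h u) (D S : Finset ℕ) (B : ℕ)
    (hB : ∀ u ∈ S ∪ D, (D.filter (E u)).card ≤ B) :
    ∀ n : ℕ, (S.card + n) * (B + 1) < D.card → ∃ G ⊆ D, G.card = n ∧
      (∀ u ∈ G, ∀ h ∈ G, u ≠ h → ¬ E u h) ∧ ∀ u ∈ S, ∀ h ∈ G, ¬ E u h := by
  intro n
  induction n with
  | zero => exact fun _ => ⟨∅, by simp, by simp, by simp, by simp⟩
  | succ n ih =>
    intro hn
    have hn' : (S.card + n) * (B + 1) < D.card := by nlinarith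
    obtain ⟨G, hGD, hGc, hG1, hG2⟩ := ih hn'
    set X : Finset ℕ := ((S ∪ G).biUnion fun u => D.filter (E u)) ∪ G with hX
    have hXc : X.card ≤ (S.card + n) * B + n := by
      refine (card_union_le _ _).trans (Nat.add_le_add ?_ hGc.le)
      refine (card_biUnion_le_card_mul _ _ B fun u hu => hB u ?_).trans ?_
      · rcases mem_union.1 hu with h | h
        · exact mem_union_left _ h
        · exact mem_union_right _ (hGD h)
      · refine Nat.mul_le_mul_right _ ((card_union_le _ _).trans ?_)
        rw [hGc]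
    have hlt : X.card < D.card := by nlinarith
    obtain ⟨z, hzD, hzX⟩ := exists_mem_notMem_of_card_lt_card hlt
    have hzG : z ∉ G := fun h => hzX (mem_union_right _ h)
    have hzE : ∀ u ∈ S ∪ G, ¬ E u z := fun u hu hE =>
      hzX (mem_union_left _ (mem_biUnion.2 ⟨u, hu, mem_filter.2 ⟨hzD, hE⟩⟩))
    refine ⟨insert z G, insert_subset hzD hGD, by rw [card_insert_of_notMem hzG, hGc], ?_, ?_⟩
    · intro u hu h hh hne hE
      rcases mem_insert.1 hu with hu1 | hu1
      · rcases mem_insert.1 hh with hh1 | hh1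
        · exact hne (hu1.trans hh1.symm)
        · rw [hu1] at hE
          exact hzE h (mem_union_right _ hh1) (hsym _ _ hE)
      · rcases mem_insert.1 hh with hh1 | hh1
        · rw [hh1] at hE
          exact hzE u (mem_union_right _ hu1) hE
        · exact hG1 u hu1 h hh1 hne hE
    · intro u hu h hh hE
      rcases mem_insert.1 hh with hh1 | hh1
      · rw [hh1] at hE
        exact hzE u (mem_union_left _ hu) hE
      · exact hG2 u hu h hh1 hE

open Classical in
/-- **The phase lemma.** -/
theorem phase (t a A B : ℕ) (ht : 1 ≤ t) (ha : 1 ≤ a) (W : ℕ → Finset ℕ)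
    (OUT IN E : ℕ → ℕ → Prop) (hsym : ∀ u h, E u h → E h u)
    (hW : ∀ i j, i < j → j ≤ t → ∀ u ∈ W i, ∀ h ∈ W j, u < h)
    (hrel : ∀ i j, i ≤ j → j ≤ t → ∀ u ∈ W i, ∀ h ∈ W j, u < h → ¬ E u h → OUT u h ∨ IN u h)
    (hOut : ∀ r < t, ∀ C ⊆ W r, C.card = a → (∀ u ∈ C, ∀ v ∈ C, u < v → OUT u v ∧ ¬ E u v) →
      ((W (r + 1)).filter fun h => ∀ u ∈ C, OUT u h).card ≤ A)
    (hIn : ∀ S : Finset ℕ, (∀ u ∈ S, ∃ i ≤ t, u ∈ W i) → (∀ u ∈ S, ∀ v ∈ S, u < v → ¬ E u v) →
      ∀ z, ¬ Ch IN S (t + 1) z)
    (hB : ∀ i ≤ t, ∀ j ≤ t, ∀ u ∈ W i, ((W j).filter (E u)).card ≤ B)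
    (hcard : ∀ i ≤ t, (t + 1) * (t * a) * (B + 1) + A < (W i).card) : False := by
  have key : ∀ r ≤ t, ∃ S G : Finset ℕ, G ⊆ S ∧ G ⊆ W r ∧ (∀ u ∈ S, ∃ i ≤ r, u ∈ W i) ∧
      G.card = t * a ∧ S.card ≤ (r + 1) * (t * a) ∧ (∀ u ∈ S, ∀ v ∈ S, u < v → ¬ E u v) ∧
      ∀ z ∈ G, Ch IN S (r + 1) z := by
    intro r
    induction r with
    | zero =>
      intro _
      obtain ⟨G, hGD, hGc, hG1, -⟩ := exists_free E hsym (W 0) ∅ B (fun u hu => by
        rw [empty_union] at hu
        exact hB 0 (Nat.zero_le t) 0 (Nat.zero_le t) u hu) (t * a) (by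
          have h1 := hcard 0 (Nat.zero_le t)
          rw [card_empty, zero_add]
          have h2 : t * a * (B + 1) ≤ (t + 1) * (t * a) * (B + 1) := by
            exact Nat.mul_le_mul_right _ (Nat.le_mul_of_pos_left _ (Nat.succ_pos t))
          omega)
      refine ⟨G, G, Subset.refl _, hGD, fun u hu => ⟨0, le_refl 0, hGD hu⟩, hGc, ?_, ?_, ?_⟩
      · rw [hGc]; omega
      · exact fun u hu v hv huv => hG1 u hu v hv huv.ne
      · exact fun z hz => Ch.one hz
    | succ r ih =>
      intro hr
      obtain ⟨S, G, hGS, hGW, hSW, hGc, hSc, hSE, hGch⟩ := ih (by omega)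
      have hIn' : ∀ z, ¬ Ch IN S (t + 1) z :=
        hIn S (fun u hu => by
          obtain ⟨i, hi, hu'⟩ := hSW u hu
          exact ⟨i, by omega, hu'⟩) hSE
      set rho : ℕ → ℕ := fun z => Nat.findGreatest (fun k => Ch IN S k z) t with hrho
      have hr1 : ∀ z ∈ G, Ch IN S (rho z) z ∧ r + 1 ≤ rho z ∧ rho z ≤ t ∧
          ¬ Ch IN S (rho z + 1) z := by
        intro z hz
        have h1 : r + 1 ≤ rho z := Nat.le_findGreatest (by omega) (hGch z hz)
        have h2 : Ch IN S (rho z) z :=
          Nat.findGreatest_spec (P := fun k => Ch IN S k z) (m := r + 1) (by omega) (hGch z hz)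
        have h3 : rho z ≤ t := Nat.findGreatest_le t
        refine ⟨h2, h1, h3, fun h4 => ?_⟩
        rcases Nat.eq_or_lt_of_le h3 with h5 | h5
        · rw [h5] at h4
          exact hIn' z h4
        · exact Nat.findGreatest_is_greatest (P := fun k => Ch IN S k z) (n := t)
            (k := rho z + 1) (Nat.lt_succ_self _) (by omega) h4
      obtain ⟨y, hy, hfib⟩ := exists_le_card_fiber_of_mul_le_card_of_maps_to
        (s := G) (t := Icc 1 t) (f := rho) (n := a) (fun z hz => by
          have := hr1 z hz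
          exact mem_Icc.2 ⟨by omega, this.2.2.1⟩) ⟨1, mem_Icc.2 ⟨le_refl 1, ht⟩⟩ (by
          rw [Nat.card_Icc, hGc]
          simp)
      obtain ⟨C, hCsub, hCc⟩ := exists_subset_card_eq hfib
      have hCG : ∀ u ∈ C, u ∈ G ∧ rho u = y := fun u hu => mem_filter.1 (hCsub hu)
      have hCout : ∀ u ∈ C, ∀ v ∈ C, u < v → OUT u v ∧ ¬ E u v := by
        intro u hu v hv huv
        obtain ⟨hu1, hu2⟩ := hCG u hu
        obtain ⟨hv1, hv2⟩ := hCG v hv
        have hE := hSE u (hGS hu1) v (hGS hv1) huv
        refine ⟨?_, hE⟩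
        rcases hrel r r (le_refl r) (by omega) u (hGW hu1) v (hGW hv1) huv hE with h | h
        · exact h
        · exfalso
          refine (hr1 v hv1).2.2.2 ?_
          rw [hv2, ← hu2]
          exact Ch.step (hr1 u hu1).1 huv (hGS hv1) h
      have hA := hOut r (by omega) C (fun u hu => hGW (hCG u hu).1) hCc hCout
      set H := (W (r + 1)).filter fun h => ∀ u ∈ C, OUT u h with hH
      have hDc : (W (r + 1)).card ≤ (W (r + 1) \ H).card + A := by
        have h1 := card_sdiff_add_card_inter (W (r + 1)) H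
        have h2 : (W (r + 1) ∩ H).card ≤ H.card := card_le_card inter_subset_right
        omega
      obtain ⟨G', hG'D, hG'c, hG'1, hG'2⟩ := exists_free E hsym (W (r + 1) \ H) S B (fun u hu => by
        have h1 : ((W (r + 1) \ H).filter (E u)).card ≤ ((W (r + 1)).filter (E u)).card :=
          card_le_card (filter_subset_filter _ sdiff_subset)
        refine h1.trans ?_
        rcases mem_union.1 hu with h | h
        · obtain ⟨i, hi, hu'⟩ := hSW u h
          exact hB i (by omega) (r + 1) hr u hu'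
        · exact hB (r + 1) hr (r + 1) hr u (mem_sdiff.1 h).1) (t * a) (by
          have h1 := hcard (r + 1) hr
          have h2 : (S.card + t * a) * (B + 1) ≤ (t + 1) * (t * a) * (B + 1) := by
            refine Nat.mul_le_mul_right _ ?_
            have h3 : (r + 1 + 1) * (t * a) ≤ (t + 1) * (t * a) :=
              Nat.mul_le_mul_right _ (by omega)
            have h4 : (r + 1 + 1) * (t * a) = (r + 1) * (t * a) + t * a := by ring
            omega
          omega)
      refine ⟨S ∪ G', G', subset_union_right, fun u hu => (mem_sdiff.1 (hG'D hu)).1, ?_, hG'c,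
        ?_, ?_, ?_⟩
      · intro u hu
        rcases mem_union.1 hu with h | h
        · obtain ⟨i, hi, hu'⟩ := hSW u h
          exact ⟨i, by omega, hu'⟩
        · exact ⟨r + 1, le_refl _, (mem_sdiff.1 (hG'D h)).1⟩
      · refine (card_union_le _ _).trans ?_
        rw [hG'c]
        have h4 : (r + 1 + 1) * (t * a) = (r + 1) * (t * a) + t * a := by ring
        omega
      · intro u hu v hv huv hE
        rcases mem_union.1 hu with h | h
        · rcases mem_union.1 hv with h' | h'
          · exact hSE u h v h' huv hE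
          · exact hG'2 u h v h' hE
        · rcases mem_union.1 hv with h' | h'
          · exact hG'2 v h' u h (hsym _ _ hE)
          · exact hG'1 u h v h' huv.ne hE
      · intro z hz
        have hzD := mem_sdiff.1 (hG'D hz)
        have hex : ∃ u ∈ C, ¬ OUT u z := by
          by_contra hno
          push Not at hno
          exact hzD.2 (mem_filter.2 ⟨hzD.1, hno⟩)
        obtain ⟨u, huC, hnout⟩ := hex
        obtain ⟨huG, hu2⟩ := hCG u huC
        have huz : u < z := hW r (r + 1) (by omega) hr u (hGW huG) z hzD.1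
        have hin : IN u z := by
          rcases hrel r (r + 1) (by omega) hr u (hGW huG) z hzD.1 huz
            (hG'2 u (hGS huG) z hz) with h | h
          · exact absurd h hnout
          · exact h
        have h5 := hr1 u huG
        exact (Ch.step (h5.1.mono subset_union_left) huz (mem_union_right _ hz) hin).le _
          (by omega) (by omega)
  obtain ⟨S, G, hGS, -, hSW, hGc, -, hSE, hGch⟩ := key t (le_refl t)
  have hpos : 0 < G.card := by
    rw [hGc]
    exact Nat.mul_pos ht ha
  obtain ⟨z, hz⟩ := card_pos.1 hpos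
  exact hIn S hSW hSE z (hGch z hz)

end FlashRainbow.CF
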