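import Pool.Agent.Work.MP_54723a_co.CF.Rich

/-!
# Constant factor: rich sets from popular colours (helper42, note 8684)

In a set `B` of rank `t` some colour `k` has a set `B'` of heads which is free of `k` and has at
least `(|B| - t - 1) / (2 t (t + 1))` points.  Iterating `s` times gives `s` colours `E` and a set `B`
of the vertices, free of `E`, into each vertex of which every subset of `E` is the colour set of a
rainbow path; the loss is only the factor `(2 (t + 1) ^ 2) ^ s`.
-/

set_option autoImplicit false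

namespace FlashRainbow.CF

open Classical

variable {c : ℕ → ℕ → ℕ} {V X B E K : Finset ℕ} {lev : ℕ → ℕ → ℕ}

theorem NoCol.mono {S S' T : Finset ℕ} (h : NoCol c S T) (hS : S' ⊆ S) : NoCol c S' T :=
  fun u hu v hv huv => h u (hS hu) v (hS hv) huv

theorem Rich.mono {U F B' : Finset ℕ} (h : Rich c U B F) (hB : B' ⊆ B) : Rich c U B' F :=
  ⟨hB.trans h.1, fun y hy => h.2 y (hB hy)⟩

/-- a colour with many heads, free of the colour -/
theorem pop_step {t : ℕ} (hL : Lev c B 3 lev) (hrk : Rk c B t) :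
    ∃ k, ∃ B' ⊆ heads c B k, (∀ u ∈ B', ∀ v ∈ B', u < v → c u v ≠ k) ∧
      B.card ≤ (t + 1) + 2 * t * (t + 1) * B'.card := by
  rcases B.eq_empty_or_nonempty with rfl | hBne
  · exact ⟨0, ∅, Finset.empty_subset _, by simp, by simp⟩
  set L : ℕ → ℕ := fun v => Nat.findGreatest (fun i => ∃ D, RP c B v D ∧ D.card = i) t with hLdef
  have hLt : ∀ v, L v ≤ t := fun v => Nat.findGreatest_le t
  have hLspec : ∀ v ∈ B, ∃ D, RP c B v D ∧ D.card = L v := by
    intro v hv
    have h0 : ∃ D, RP c B v D ∧ D.card = 0 := ⟨∅, RP.single hv, rfl⟩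
    exact Nat.findGreatest_spec (P := fun i => ∃ D, RP c B v D ∧ D.card = i) (Nat.zero_le t) h0
  have hLmax : ∀ v D, RP c B v D → D.card ≤ L v := by
    intro v D hD
    exact Nat.le_findGreatest (hrk v D hD) ⟨D, hD, rfl⟩
  obtain ⟨i, hi, hbig⟩ := exists_big_fiber B L (Finset.range (t + 1)) ⟨0, by simp⟩ (by
    intro v _
    rw [Finset.mem_range]
    exact Nat.lt_succ_of_le (hLt v))
  rw [Finset.card_range] at hbig
  set C := B.filter fun v => L v = i with hC
  have hCne : C.Nonempty := by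
    rw [← Finset.card_pos]
    rcases Nat.eq_zero_or_pos C.card with h | h
    · rw [h, Nat.mul_zero] at hbig
      have := Finset.card_pos.mpr hBne
      omega
    · exact h
  have hCB : C ⊆ B := Finset.filter_subset _ _
  set x := C.min' hCne with hx
  have hxC : x ∈ C := Finset.min'_mem _ _
  obtain ⟨P, hP, hPc⟩ := hLspec x (hCB hxC)
  have hPi : P.card = i := by rw [hPc]; exact (Finset.mem_filter.mp hxC).2
  set C' := C.erase x with hC'
  have hC'c : C'.card + 1 = C.card := Finset.card_erase_add_one hxC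
  have hxlt : ∀ v ∈ C', x < v := by
    intro v hv
    obtain ⟨hne, hvC⟩ := Finset.mem_erase.mp hv
    exact lt_of_le_of_ne (Finset.min'_le _ _ hvC) (Ne.symm hne)
  have hmaps : ∀ v ∈ C', c x v ∈ P := by
    intro v hv
    by_contra hno
    have hvC := (Finset.mem_erase.mp hv).2
    have h1 := hLmax v _ (RP.step hP (hCB hvC) (hxlt v hv) hno)
    rw [Finset.card_insert_of_notMem hno, (Finset.mem_filter.mp hvC).2, hPi] at h1
    omega
  rcases C'.eq_empty_or_nonempty with h0 | hC'ne
  · refine ⟨0, ∅, Finset.empty_subset _, by simp, ?_⟩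
    rw [h0] at hC'c
    simp only [Finset.card_empty, zero_add] at hC'c
    rw [← hC'c] at hbig
    simpa using hbig
  obtain ⟨w, hw⟩ := hC'ne
  obtain ⟨k, hk, hbig2⟩ := exists_big_fiber C' (fun v => c x v) P ⟨_, hmaps w hw⟩ hmaps
  set N := C'.filter fun v => c x v = k with hN
  have hNC' : N ⊆ C' := Finset.filter_subset _ _
  have hNB : N ⊆ B := hNC'.trans ((Finset.erase_subset _ _).trans hCB)
  have hNx : ∀ v ∈ N, x < v ∧ c x v = k := fun v hv =>
    ⟨hxlt v (hNC' hv), (Finset.mem_filter.mp hv).2⟩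
  have hNh : N ⊆ heads c B k := by
    intro v hv
    exact Finset.mem_filter.mpr ⟨hNB hv, x, hCB hxC, (hNx v hv).1, (hNx v hv).2⟩
  set H := N.filter fun v => ∃ u ∈ N, u < v ∧ c u v = k with hH
  set G := N.filter fun v => ¬ ∃ u ∈ N, u < v ∧ c u v = k with hG
  have hsplit : H.card + G.card = N.card := Finset.card_filter_add_card_filter_not _
  have hHfree : ∀ u ∈ H, ∀ v ∈ H, u < v → c u v ≠ k := by
    intro u hu v hv huv hcuv
    obtain ⟨huN, w, hwN, hwu, hcwu⟩ := Finset.mem_filter.mp hu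
    have hvN := (Finset.mem_filter.mp hv).1
    have h1 := hL.up x (hCB hxC) w (hNB hwN) (hNx w hwN).1
    rw [(hNx w hwN).2] at h1
    have h2 := hL.up w (hNB hwN) u (hNB huN) hwu
    rw [hcwu] at h2
    have h3 := hL.up u (hNB huN) v (hNB hvN) huv
    rw [hcuv] at h3
    have h4 := hL.lt k v (hNB hvN)
    omega
  have hGfree : ∀ u ∈ G, ∀ v ∈ G, u < v → c u v ≠ k := by
    intro u hu v hv huv hcuv
    exact (Finset.mem_filter.mp hv).2 ⟨u, (Finset.mem_filter.mp hu).1, huv, hcuv⟩
  have hPt : P.card ≤ t := hrk x P hP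
  have key : ∀ m, N.card ≤ 2 * m → B.card ≤ (t + 1) + 2 * t * (t + 1) * m := by
    intro m hm
    calc B.card ≤ (t + 1) * C.card := hbig
      _ = (t + 1) * (C'.card + 1) := by rw [hC'c]
      _ ≤ (t + 1) * (t * (2 * m) + 1) := by
          refine Nat.mul_le_mul_left _ (Nat.add_le_add_right ?_ 1)
          exact hbig2.trans (Nat.mul_le_mul hPt hm)
      _ = (t + 1) + 2 * t * (t + 1) * m := by ring
  rcases le_total G.card H.card with h | h
  · exact ⟨k, H, (Finset.filter_subset _ _).trans hNh, hHfree, key _ (by omega)⟩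
  · exact ⟨k, G, (Finset.filter_subset _ _).trans hNh, hGfree, key _ (by omega)⟩

/-- `s` popular colours: every subset of `E` is the colour set of a rainbow path of `X` into every
vertex of `B`, and `B` is free of `E`. -/
theorem pop_iter {t : ℕ} (hL : Lev c X 3 lev) (hrk : Rk c X t) (s : ℕ) :
    ∃ E : Finset ℕ, E.card = s ∧ ∃ B ⊆ X, Rich c X B E ∧ NoCol c B E ∧
      X.card + 1 ≤ (2 * (t + 1) ^ 2) ^ s * (B.card + 1) := by
  induction s with
  | zero => exact ⟨∅, rfl, X, Finset.Subset.refl _, Rich.start, fun u _ v _ _ => by simp, by simp⟩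
  | succ s ih =>
    obtain ⟨E, hE, B, hB, hR, hfree, hcard⟩ := ih
    obtain ⟨k, B', hB', hk, hc⟩ := pop_step (hL.mono hB)
      (fun x D h => hrk x D (h.mono hB) : Rk c B t)
    have hheads : heads c B k ⊆ B := Finset.filter_subset _ _
    have hcount : X.card + 1 ≤ (2 * (t + 1) ^ 2) ^ (s + 1) * (B'.card + 1) := by
      have h1 : B.card + 1 ≤ (2 * (t + 1) ^ 2) * (B'.card + 1) := by
        nlinarith [hc, Nat.zero_le t, Nat.zero_le B'.card, Nat.zero_le (t * B'.card)]
      calc X.card + 1 ≤ (2 * (t + 1) ^ 2) ^ s * (B.card + 1) := hcard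
        _ ≤ (2 * (t + 1) ^ 2) ^ s * ((2 * (t + 1) ^ 2) * (B'.card + 1)) :=
            Nat.mul_le_mul_left _ h1
        _ = (2 * (t + 1) ^ 2) ^ (s + 1) * (B'.card + 1) := by
            rw [pow_succ (2 * (t + 1) ^ 2) s]
            ring
    rcases B'.eq_empty_or_nonempty with h0 | ⟨v, hv⟩
    · obtain ⟨k', hk'⟩ := Infinite.exists_notMem_finset E
      refine ⟨insert k' E, by rw [Finset.card_insert_of_notMem hk', hE], ∅,
        Finset.empty_subset _, ⟨Finset.empty_subset _, by simp⟩, fun u hu => by simp at hu, ?_⟩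
      rw [h0] at hcount
      exact hcount
    · have hkE : k ∉ E := by
        intro hkE
        obtain ⟨hvB, u, hu, huv, hcuv⟩ := Finset.mem_filter.mp (hB' hv)
        exact hfree u hu v hvB huv (by rw [hcuv]; exact hkE)
      refine ⟨insert k E, by rw [Finset.card_insert_of_notMem hkE, hE], B',
        (hB'.trans hheads).trans hB, hR.heads.mono hB', ?_, hcount⟩
      intro u hu w hw huw hcE
      rcases Finset.mem_insert.mp hcE with h | h
      · exact hk u hu w hw huw h
      · exact hfree u (hheads (hB' hu)) w (hheads (hB' hw)) huw h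

/-- `X` is `(E, K)`-rich in `V`: every set `E'' ∪ K` with `E'' ⊆ E` is the colour set of a rainbow
path of `V` into every vertex of `X`, and `X` is free of `E ∪ K`. -/
structure RichK (c : ℕ → ℕ → ℕ) (V X E K : Finset ℕ) : Prop where
  sub : X ⊆ V
  path : ∀ u ∈ X, ∀ E'' ⊆ E, RP c V u (E'' ∪ K)
  free : NoCol c X (E ∪ K)

theorem RichK.mono {X' : Finset ℕ} (h : RichK c V X E K) (hX : X' ⊆ X) : RichK c V X' E K :=
  ⟨hX.trans h.sub, fun u hu => h.path u (hX hu), h.free.mono hX⟩

theorem RichK.start (hX : X ⊆ V) : RichK c V X ∅ ∅ :=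
  ⟨hX, fun u hu E'' hE'' => by
    rw [Finset.subset_empty.mp hE'', Finset.union_empty]
    exact RP.single (hX hu), fun u _ v _ _ => by simp⟩

/-- colours of rainbow paths of `X` are not in `E ∪ K` -/
theorem RP.disjoint_of_noCol {T D : Finset ℕ} {x : ℕ} (h : RP c X x D) (hf : NoCol c X T) :
    Disjoint D T := by
  rw [Finset.disjoint_left]
  intro γ hγ hγT
  exact h.notMem_of_free (γ := γ) (fun u hu v hv huv hc => hf u hu v hv huv (by rw [hc]; exact hγT))
    hγ

theorem RichK.rank {R : ℕ} (h : RichK c V X E K) (hR : Rk c V R) : Rk c X (R - (E ∪ K).card) := by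
  intro x D hD
  have hdis := RP.disjoint_of_noCol hD h.free
  have h1 := hD.prepend (E := E ∪ K) h.sub (fun v hv => h.path v hv E (Finset.Subset.refl _))
    (fun γ hγ u hu v hv huv hc => h.free u hu v hv huv (by rw [hc]; exact hγ))
  have h2 := hR _ _ h1
  rw [Finset.card_union_of_disjoint hdis] at h2
  omega

/-- more popular colours in a rich set -/
theorem RichK.pop {t : ℕ} (h : RichK c V X E K) (hL : Lev c V 3 lev) (hrk : Rk c X t) (s : ℕ) :
    ∃ E1 : Finset ℕ, E1.card = s ∧ ∃ B ⊆ X, RichK c V B (E ∪ E1) K ∧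
      X.card + 1 ≤ (2 * (t + 1) ^ 2) ^ s * (B.card + 1) := by
  obtain ⟨E1, hE1, B, hB, hR, hfree, hcard⟩ := pop_iter (hL.mono h.sub) hrk s
  refine ⟨E1, hE1, B, hB, ⟨hB.trans h.sub, ?_, ?_⟩, hcard⟩
  · intro u hu E'' hE''
    obtain ⟨a, ha, hRT⟩ := hR.2 u hu (E'' ∩ E1) Finset.inter_subset_right
    have hdis : Disjoint (E'' ∩ E1) ((E'' \ E1) ∪ K) := by
      rw [Finset.disjoint_union_right]
      constructor
      · rw [Finset.disjoint_left]
        intro γ h1 h2
        exact (Finset.mem_sdiff.mp h2).2 (Finset.mem_inter.mp h1).2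
      · have := RP.disjoint_of_noCol hRT.toRP h.free
        rw [Finset.disjoint_union_right] at this
        exact this.2
    have h1 := hRT.glue_RP h.sub ((E'' \ E1) ∪ K) (h.path a ha (E'' \ E1) (by
      intro γ hγ
      obtain ⟨h2, h3⟩ := Finset.mem_sdiff.mp hγ
      rcases Finset.mem_union.mp (hE'' h2) with h4 | h4
      · exact h4
      · exact absurd h4 h3)) hdis
    have h2 : (E'' ∩ E1) ∪ ((E'' \ E1) ∪ K) = E'' ∪ K := by
      rw [← Finset.union_assoc, Finset.union_comm (E'' ∩ E1), Finset.sdiff_union_inter]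
    rw [h2] at h1
    exact h1
  · intro u hu v hv huv hc
    rcases Finset.mem_union.mp hc with h1 | h1
    · rcases Finset.mem_union.mp h1 with h2 | h2
      · exact h.free u (hB hu) v (hB hv) huv (Finset.mem_union_left _ h2)
      · exact hfree u hu v hv huv h2
    · exact h.free u (hB hu) v (hB hv) huv (Finset.mem_union_right _ h1)

/-- a junction of colour `j` from a rich set -/
theorem RichK.junction {j : ℕ} {W : Finset ℕ} (h : RichK c V X E K) (hj : j ∉ E ∪ K) (hW : W ⊆ V)
    (hjW : ∀ z ∈ W, ∃ x ∈ X, x < z ∧ c x z = j) (hfree : NoCol c W (insert j (E ∪ K))) :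
    RichK c V W E (insert j K) := by
  refine ⟨hW, ?_, ?_⟩
  · intro z hz E'' hE''
    obtain ⟨x, hx, hxz, hc⟩ := hjW z hz
    have h1 := RP.step (h.path x hx E'' hE'') (hW hz) hxz (by
      rw [hc]
      intro hmem
      refine hj ?_
      rcases Finset.mem_union.mp hmem with h2 | h2
      · exact Finset.mem_union_left _ (hE'' h2)
      · exact Finset.mem_union_right _ h2)
    rw [hc, ← Finset.union_insert] at h1
    exact h1
  · rw [Finset.union_insert]
    exact hfree

/-! ### The same with a fixed start `x` -/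

/-- `X` is a hub of `x`: every set `E'' ∪ K` with `E'' ⊆ E` is the colour set of a rainbow path from
`x` to every vertex of `X`, and `X` is free of `E ∪ K`. -/
structure HubK (c : ℕ → ℕ → ℕ) (V : Finset ℕ) (x : ℕ) (X E K : Finset ℕ) : Prop where
  sub : X ⊆ V
  path : ∀ u ∈ X, ∀ E'' ⊆ E, RT c V x u (E'' ∪ K)
  free : NoCol c X (E ∪ K)

theorem HubK.mono {x : ℕ} {X' : Finset ℕ} (h : HubK c V x X E K) (hX : X' ⊆ X) :
    HubK c V x X' E K :=
  ⟨hX.trans h.sub, fun u hu => h.path u (hX hu), h.free.mono hX⟩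

theorem HubK.toRichK {x : ℕ} (h : HubK c V x X E K) : RichK c V X E K :=
  ⟨h.sub, fun u hu E'' hE'' => (h.path u hu E'' hE'').toRP, h.free⟩

theorem HubK.rank {x R : ℕ} (h : HubK c V x X E K) (hR : Rk c V R) :
    Rk c X (R - (E ∪ K).card) := h.toRichK.rank hR

/-- a monochromatic out-class without its colour is a hub -/
theorem HubK.cls {x k : ℕ} (hx : x ∈ V) (hX : X ⊆ V) (h : ∀ u ∈ X, x < u ∧ c x u = k)
    (hf : ∀ u ∈ X, ∀ v ∈ X, u < v → c u v ≠ k) : HubK c V x X ∅ {k} := by
  refine ⟨hX, ?_, ?_⟩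
  · intro u hu E'' hE''
    rw [Finset.subset_empty.mp hE'', Finset.empty_union]
    have h1 : RT c V x u (insert (c x u) ∅) :=
      RT.step (RT.single hx) (hX hu) (h u hu).1 (Finset.notMem_empty _)
    rw [(h u hu).2] at h1
    exact h1
  · intro u hu v hv huv hc
    rw [Finset.empty_union, Finset.mem_singleton] at hc
    exact hf u hu v hv huv hc

/-- more popular colours in a hub -/
theorem HubK.pop {x t : ℕ} (h : HubK c V x X E K) (hL : Lev c V 3 lev) (hrk : Rk c X t) (s : ℕ) :
    ∃ E1 : Finset ℕ, E1.card = s ∧ ∃ B ⊆ X, HubK c V x B (E ∪ E1) K ∧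
      (B.Nonempty → Disjoint E1 (E ∪ K)) ∧
      X.card + 1 ≤ (2 * (t + 1) ^ 2) ^ s * (B.card + 1) := by
  obtain ⟨E1, hE1, B, hB, hR, hfree, hcard⟩ := pop_iter (hL.mono h.sub) hrk s
  refine ⟨E1, hE1, B, hB, ⟨hB.trans h.sub, ?_, ?_⟩, ?_, hcard⟩
  · intro u hu E'' hE''
    obtain ⟨a, ha, hRT⟩ := hR.2 u hu (E'' ∩ E1) Finset.inter_subset_right
    have hdis : Disjoint (E'' ∩ E1) ((E'' \ E1) ∪ K) := by
      rw [Finset.disjoint_union_right]
      constructor
      · rw [Finset.disjoint_left]
        intro γ h1 h2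
        exact (Finset.mem_sdiff.mp h2).2 (Finset.mem_inter.mp h1).2
      · have := RP.disjoint_of_noCol hRT.toRP h.free
        rw [Finset.disjoint_union_right] at this
        exact this.2
    have h1 := hRT.glue h.sub ((E'' \ E1) ∪ K) (h.path a ha (E'' \ E1) (by
      intro γ hγ
      obtain ⟨h2, h3⟩ := Finset.mem_sdiff.mp hγ
      rcases Finset.mem_union.mp (hE'' h2) with h4 | h4
      · exact h4
      · exact absurd h4 h3)) hdis
    have h2 : (E'' ∩ E1) ∪ ((E'' \ E1) ∪ K) = E'' ∪ K := by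
      rw [← Finset.union_assoc, Finset.union_comm (E'' ∩ E1), Finset.sdiff_union_inter]
    rw [h2] at h1
    exact h1
  · intro u hu v hv huv hc
    rcases Finset.mem_union.mp hc with h1 | h1
    · rcases Finset.mem_union.mp h1 with h2 | h2
      · exact h.free u (hB hu) v (hB hv) huv (Finset.mem_union_left _ h2)
      · exact hfree u hu v hv huv h2
    · exact h.free u (hB hu) v (hB hv) huv (Finset.mem_union_right _ h1)
  · rintro ⟨u, hu⟩
    obtain ⟨a, ha, hRT⟩ := hR.2 u hu E1 (Finset.Subset.refl _)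
    exact RP.disjoint_of_noCol hRT.toRP h.free

/-- a junction of colour `j` from a hub -/
theorem HubK.junction {x j : ℕ} {W : Finset ℕ} (h : HubK c V x X E K) (hj : j ∉ E ∪ K)
    (hW : W ⊆ V) (hjW : ∀ z ∈ W, ∃ u ∈ X, u < z ∧ c u z = j)
    (hfree : NoCol c W (insert j (E ∪ K))) : HubK c V x W E (insert j K) := by
  refine ⟨hW, ?_, ?_⟩
  · intro z hz E'' hE''
    obtain ⟨u, hu, huz, hc⟩ := hjW z hz
    have h1 := RT.step (h.path u hu E'' hE'') (hW hz) huz (by
      rw [hc]
      intro hmem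
      refine hj ?_
      rcases Finset.mem_union.mp hmem with h2 | h2
      · exact Finset.mem_union_left _ (hE'' h2)
      · exact Finset.mem_union_right _ h2)
    rw [hc, ← Finset.union_insert] at h1
    exact h1
  · rw [Finset.union_insert]
    exact hfree

end FlashRainbow.CF
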