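import Mathlib

/-! Label preselection: a random set of colours `L` keeps a `2^-(h+1)` part of the points `z` such that
the label `f z` is in `L` and no other colour of the short list `G z` is in `L`. -/

namespace FlashCF

open Finset

theorem presel_one (U : Finset ℕ) (a : ℕ) (ha : a ∈ U) (G : Finset ℕ) (h : ℕ) (hG : G.card ≤ h) :
    2 ^ U.card ≤ 2 ^ (h + 1) *
      (U.powerset.filter fun L => a ∈ L ∧ ∀ g ∈ G, g ≠ a → g ∉ L).card := by
  set W : Finset ℕ := U \ (insert a G) with hW
  have h1 : W.powerset.card ≤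
      (U.powerset.filter fun L => a ∈ L ∧ ∀ g ∈ G, g ≠ a → g ∉ L).card := by
    apply Finset.card_le_card_of_injOn (fun L => insert a L)
    · intro L hL
      have hL' : L ⊆ W := by simpa using hL
      simp only [Finset.coe_filter, Finset.mem_powerset, Set.mem_ofPred_eq]
      refine ⟨?_, Finset.mem_insert_self _ _, ?_⟩
      · intro x hx
        rcases Finset.mem_insert.1 hx with rfl | hx
        · exact ha
        · exact (Finset.mem_sdiff.1 (hL' hx)).1
      · intro g hg hga hgL
        rcases Finset.mem_insert.1 hgL with h | h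
        · exact hga h
        · exact (Finset.mem_sdiff.1 (hL' h)).2 (Finset.mem_insert_of_mem hg)
    · intro L hL L' hL' hE
      have h1 : L ⊆ W := by simpa using hL
      have h2 : L' ⊆ W := by simpa using hL'
      have ha1 : a ∉ L := fun h => (Finset.mem_sdiff.1 (h1 h)).2 (Finset.mem_insert_self _ _)
      have ha2 : a ∉ L' := fun h => (Finset.mem_sdiff.1 (h2 h)).2 (Finset.mem_insert_self _ _)
      have := congrArg (fun s => Finset.erase s a) hE
      simpa [Finset.erase_insert ha1, Finset.erase_insert ha2] using this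
  rw [Finset.card_powerset] at h1
  have h2 : U.card ≤ W.card + (h + 1) := by
    have h3 : U.card ≤ W.card + (insert a G).card := by
      have := Finset.card_le_card (show U ⊆ W ∪ insert a G by
        intro x hx
        by_cases hxG : x ∈ insert a G
        · exact Finset.mem_union_right _ hxG
        · exact Finset.mem_union_left _ (Finset.mem_sdiff.2 ⟨hx, hxG⟩))
      exact this.trans (Finset.card_union_le _ _)
    have h4 : (insert a G).card ≤ h + 1 := (Finset.card_insert_le _ _).trans (by omega)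
    omega
  calc 2 ^ U.card ≤ 2 ^ (W.card + (h + 1)) := Nat.pow_le_pow_right (by norm_num) h2
    _ = 2 ^ (h + 1) * 2 ^ W.card := by rw [pow_add]; ring
    _ ≤ _ := Nat.mul_le_mul_left _ h1

/-- LABEL PRESELECTION. -/
theorem presel (Z : Finset ℕ) (f : ℕ → ℕ) (G : ℕ → Finset ℕ) (h : ℕ)
    (hG : ∀ z ∈ Z, (G z).card ≤ h) :
    ∃ L ⊆ Z.image f, Z.card ≤ 2 ^ (h + 1) *
      (Z.filter fun z => f z ∈ L ∧ ∀ g ∈ G z, g ≠ f z → g ∉ L).card := by
  set U : Finset ℕ := Z.image f with hU
  have hne : U.powerset.Nonempty := ⟨∅, Finset.empty_mem_powerset _⟩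
  have hsum : ∑ L ∈ U.powerset, Z.card ≤ ∑ L ∈ U.powerset, 2 ^ (h + 1) *
      (Z.filter fun z => f z ∈ L ∧ ∀ g ∈ G z, g ≠ f z → g ∉ L).card := by
    rw [← Finset.mul_sum]
    have hd : ∑ L ∈ U.powerset, (Z.filter fun z => f z ∈ L ∧ ∀ g ∈ G z, g ≠ f z → g ∉ L).card =
        ∑ z ∈ Z, (U.powerset.filter fun L => f z ∈ L ∧ ∀ g ∈ G z, g ≠ f z → g ∉ L).card := by
      simp only [Finset.card_filter]
      rw [Finset.sum_comm]
    rw [hd, Finset.mul_sum, Finset.sum_const, smul_eq_mul, Finset.card_powerset, mul_comm,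
      ← smul_eq_mul, ← Finset.sum_const]
    apply Finset.sum_le_sum
    intro z hz
    exact presel_one U (f z) (Finset.mem_image_of_mem f hz) (G z) h (hG z hz)
  obtain ⟨L, hL, hle⟩ := Finset.exists_le_of_sum_le hne hsum
  exact ⟨L, Finset.mem_powerset.1 hL, hle⟩

end FlashCF
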