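import Pool.Agent.Work.MP_54723a_co.CF.PrivLab

/-!
# Mirror images of THEOREM P and of COROLLARY (**)

* `priv_labels_up` : labels and paths out of the vertices.
* `one_vertex_up` : one vertex `w` with a long path `T` into `w` sees almost all later vertices
  through colours of `T`.
* `one_vertex_inter`, `one_vertex_up_inter` : finitely many palettes at once.
-/

set_option autoImplicit false

namespace FlashRainbow.CF

open Classical

variable {c : ℕ → ℕ → ℕ} {V T W U X Θ : Finset ℕ} {R C d e h N : ℕ} {lev : ℕ → ℕ → ℕ}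

theorem RP.to_rvs (hN : ∀ v ∈ V, v ≤ N) {y : ℕ} {D : Finset ℕ} (h : RP c V y D) :
    RS (revc c N) (rvs V N) (N - y) D := by
  induction h with
  | @single x hx =>
    have := hN _ hx
    exact RS.single ((mem_rvs hN).mpr ⟨by omega, by rwa [show N - (N - x) = x by omega]⟩)
  | @step x y D h hy hlt hc ih =>
    have h1 := hN _ hy
    have h2 := hN _ h.mem
    have h3 : revc c N (N - y) (N - x) = c x y := by
      rw [revc_eq, show N - (N - x) = x by omega, show N - (N - y) = y by omega]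
    have h4 := RS.step ih ((mem_rvs hN).mpr
      ⟨by omega, by rwa [show N - (N - y) = y by omega]⟩ : N - y ∈ rvs V N)
      (by omega) (by rw [h3]; exact hc)
    rwa [h3] at h4

/-- Mirror image of THEOREM P. -/
theorem priv_labels_up (hL : Lev c V 3 lev) (hR : Rk c V R) (hU : U ⊆ V) (hΘ : Θ.card = R + e)
    (g : ℕ → ℕ)
    (hC : ∀ u ∈ U, ∀ D, RS c U u D → Disjoint D Θ → g u ∉ D → D.card ≤ C)
    (hd : 3 ^ R ≤ 2 ^ d * U.card) :
    V.card ≤ (2 * KD (dP C d e + 1) e + 1) * 3 ^ R := by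
  obtain ⟨N, hN⟩ : ∃ N, ∀ v ∈ V, v ≤ N := ⟨V.sup id, fun v hv => Finset.le_sup (f := id) hv⟩
  have hNU : ∀ v ∈ U, v ≤ N := fun v hv => hN v (hU hv)
  have h1 := priv_labels (c := revc c N) (V := rvs V N) (U := rvs U N) (R := R) (d := d) (e := e)
    (C := C) (Θ := Θ) (Lev.rev hN hL) (by
      intro y D hD
      exact (hD.toRS_rev hN).card_le hR) (by
      intro y hy
      have h := (mem_rvs hNU).mp hy
      exact (mem_rvs hN).mpr ⟨h.1, hU h.2⟩) hΘ (fun y => g (N - y)) (by
      intro u hu D hD hdis hg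
      exact hC _ ((mem_rvs hNU).mp hu).2 D (hD.toRS_rev hNU) hdis hg) (by rwa [card_rvs hNU])
  rwa [card_rvs hN] at h1

/-- Mirror image of COROLLARY (**). -/
theorem one_vertex_up {w i : ℕ} (hL : Lev c V 3 lev) (hR : Rk c V R) (hw : w ∈ V)
    (hT : RP c V w T) (hi : R ≤ T.card + i)
    (hd : 3 ^ R ≤ 2 ^ d * (V.filter fun v => w < v ∧ c w v ∉ T).card) :
    V.card ≤ (2 * KD (dP i d 0 + 1) 0 + 1) * 3 ^ R := by
  obtain ⟨N, hN⟩ : ∃ N, ∀ v ∈ V, v ≤ N := ⟨V.sup id, fun v hv => Finset.le_sup (f := id) hv⟩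
  have hwN := hN w hw
  have hsub : ∀ v ∈ V.filter (fun v => w < v ∧ c w v ∉ T), v ≤ N :=
    fun v hv => hN v (Finset.mem_filter.mp hv).1
  have h1 := one_vertex (c := revc c N) (V := rvs V N) (w := N - w) (T := T) (R := R) (d := d)
    (i := i) (Lev.rev hN hL) (by
      intro y D hD
      exact (hD.toRS_rev hN).card_le hR)
    ((mem_rvs hN).mpr ⟨by omega, by rwa [show N - (N - w) = w by omega]⟩)
    (RP.to_rvs hN hT) hi (by
      refine hd.trans (Nat.mul_le_mul_left _ ?_)
      rw [← card_rvs hsub]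
      refine Finset.card_le_card fun y hy => ?_
      have h2 := (mem_rvs hsub).mp hy
      obtain ⟨h3, h4, h5⟩ := Finset.mem_filter.mp h2.2
      refine Finset.mem_filter.mpr ⟨(mem_rvs hN).mpr ⟨h2.1, h3⟩, by omega, ?_⟩
      rw [revc_eq, show N - (N - w) = w by omega]
      exact h5)
  rwa [card_rvs hN] at h1

/-- Finitely many palettes of paths out of `w` at once. -/
theorem one_vertex_inter {w i q : ℕ} (hL : Lev c V 3 lev) (hR : Rk c V R) (hw : w ∈ V)
    (T : ℕ → Finset ℕ) (hT : ∀ j < q, RS c V w (T j)) (hi : ∀ j < q, R ≤ (T j).card + i)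
    (hd : q * 3 ^ R < 2 ^ d * (V.filter fun u => u < w ∧ ∃ j < q, c u w ∉ T j).card) :
    V.card ≤ (2 * KD (dP i d 0 + 1) 0 + 1) * 3 ^ R := by
  by_contra hcon
  push Not at hcon
  have h1 : ∀ j ∈ Finset.range q, 2 ^ d * (V.filter fun u => u < w ∧ c u w ∉ T j).card ≤ 3 ^ R := by
    intro j hj
    rw [Finset.mem_range] at hj
    by_contra h2
    push Not at h2
    have h3 := one_vertex (d := d) hL hR hw (hT j hj) (hi j hj) h2.le
    omega
  have h2 : (V.filter fun u => u < w ∧ ∃ j < q, c u w ∉ T j) ⊆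
      (Finset.range q).biUnion fun j => V.filter fun u => u < w ∧ c u w ∉ T j := by
    intro u hu
    obtain ⟨h3, h4, j, hj, h5⟩ := Finset.mem_filter.mp hu
    exact Finset.mem_biUnion.mpr ⟨j, Finset.mem_range.mpr hj, Finset.mem_filter.mpr ⟨h3, h4, h5⟩⟩
  have h3 := (Finset.card_le_card h2).trans Finset.card_biUnion_le
  have h4 : 2 ^ d * ∑ j ∈ Finset.range q, (V.filter fun u => u < w ∧ c u w ∉ T j).card ≤
      q * 3 ^ R := by
    rw [Finset.mul_sum]
    calc ∑ j ∈ Finset.range q, 2 ^ d * (V.filter fun u => u < w ∧ c u w ∉ T j).card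
        ≤ ∑ _j ∈ Finset.range q, 3 ^ R := Finset.sum_le_sum h1
      _ = q * 3 ^ R := by rw [Finset.sum_const, Finset.card_range, smul_eq_mul]
  have h5 := Nat.mul_le_mul_left (2 ^ d) h3
  omega

/-- Finitely many palettes of paths into `w` at once. -/
theorem one_vertex_up_inter {w i q : ℕ} (hL : Lev c V 3 lev) (hR : Rk c V R) (hw : w ∈ V)
    (T : ℕ → Finset ℕ) (hT : ∀ j < q, RP c V w (T j)) (hi : ∀ j < q, R ≤ (T j).card + i)
    (hd : q * 3 ^ R < 2 ^ d * (V.filter fun v => w < v ∧ ∃ j < q, c w v ∉ T j).card) :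
    V.card ≤ (2 * KD (dP i d 0 + 1) 0 + 1) * 3 ^ R := by
  by_contra hcon
  push Not at hcon
  have h1 : ∀ j ∈ Finset.range q, 2 ^ d * (V.filter fun v => w < v ∧ c w v ∉ T j).card ≤ 3 ^ R := by
    intro j hj
    rw [Finset.mem_range] at hj
    by_contra h2
    push Not at h2
    have h3 := one_vertex_up (d := d) hL hR hw (hT j hj) (hi j hj) h2.le
    omega
  have h2 : (V.filter fun v => w < v ∧ ∃ j < q, c w v ∉ T j) ⊆
      (Finset.range q).biUnion fun j => V.filter fun v => w < v ∧ c w v ∉ T j := by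
    intro u hu
    obtain ⟨h3, h4, j, hj, h5⟩ := Finset.mem_filter.mp hu
    exact Finset.mem_biUnion.mpr ⟨j, Finset.mem_range.mpr hj, Finset.mem_filter.mpr ⟨h3, h4, h5⟩⟩
  have h3 := (Finset.card_le_card h2).trans Finset.card_biUnion_le
  have h4 : 2 ^ d * ∑ j ∈ Finset.range q, (V.filter fun v => w < v ∧ c w v ∉ T j).card ≤
      q * 3 ^ R := by
    rw [Finset.mul_sum]
    calc ∑ j ∈ Finset.range q, 2 ^ d * (V.filter fun v => w < v ∧ c w v ∉ T j).card
        ≤ ∑ _j ∈ Finset.range q, 3 ^ R := Finset.sum_le_sum h1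
      _ = q * 3 ^ R := by rw [Finset.sum_const, Finset.card_range, smul_eq_mul]
  have h5 := Nat.mul_le_mul_left (2 ^ d) h3
  omega

end FlashRainbow.CF
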