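import Pool.Agent.Work.MP_54723a_co.CFL.Const
import Pool.Agent.Work.MP_54723a_co.CF.LymRatio

/-!
# Candidate for the final statement, every length `l ≥ 3`  (helper7)
-/

set_option autoImplicit false

namespace FlashRainbow.ResAll7

open Filter Topology

/-- For every `l ≥ 3` there are a function `f` and a real number `L ≥ 1` such that, for all `k ≥ 1`,
`f k` is the number `f(l,k)` (every colouring on more than `f k` vertices has an `l`-flash or a
`k`-rainbow, some colouring on `f k` vertices has neither), `l f(k) ≤ f(k+1)`, `f(k) ≤ L l ^ (k-1)`,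
`f(k) / l ^ (k-1)` tends to `L`; for every colouring without `l`-flash the sum of `l ^ (- r v)` is at
most `L`, if every rainbow path through `v` has at most `r v` edges; and `L = 1` if and only if
`f(l,k) = l ^ (k-1)` for all `k ≥ 1`. -/
theorem result : ∀ l : ℕ, 3 ≤ l →
    ∃ (f : ℕ → ℕ) (L : ℝ),
      (∀ k : ℕ, 1 ≤ k →
        (∀ n : ℕ, f k < n → ∀ c : Fin n → Fin n → ℕ,
          (∃ x : Fin (l + 1) → Fin n, StrictMono x ∧
            ∃ col : ℕ, ∀ i : Fin l, c (x i.castSucc) (x i.succ) = col) ∨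
          (∃ y : Fin (k + 1) → Fin n, StrictMono y ∧
            Function.Injective (fun i : Fin k => c (y i.castSucc) (y i.succ)))) ∧
        (∃ c : Fin (f k) → Fin (f k) → ℕ,
          (¬ ∃ x : Fin (l + 1) → Fin (f k), StrictMono x ∧
            ∃ col : ℕ, ∀ i : Fin l, c (x i.castSucc) (x i.succ) = col) ∧
          (¬ ∃ y : Fin (k + 1) → Fin (f k), StrictMono y ∧
            Function.Injective (fun i : Fin k => c (y i.castSucc) (y i.succ))))) ∧
      (∀ k : ℕ, 1 ≤ k → l * f k ≤ f (k + 1)) ∧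
      Tendsto (fun k : ℕ => (f k : ℝ) / (l : ℝ) ^ (k - 1)) atTop (𝓝 L) ∧ 1 ≤ L ∧
      (∀ k : ℕ, 1 ≤ k → (f k : ℝ) ≤ L * (l : ℝ) ^ (k - 1)) ∧
      (∀ (n : ℕ) (c : Fin n → Fin n → ℕ) (r : Fin n → ℕ),
        (¬ ∃ x : Fin (l + 1) → Fin n, StrictMono x ∧
          ∃ col : ℕ, ∀ i : Fin l, c (x i.castSucc) (x i.succ) = col) →
        (∀ (m : ℕ) (y : Fin (m + 1) → Fin n), StrictMono y →
          Function.Injective (fun i : Fin m => c (y i.castSucc) (y i.succ)) →
            ∀ i, m ≤ r (y i)) →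
        ∑ v, (1 / (l : ℝ)) ^ r v ≤ L) ∧
      (L = 1 ↔ ∀ k : ℕ, 1 ≤ k → f k = l ^ (k - 1)) :=
  fun _ hl => Lim.limit_lym_one ((by norm_num : 1 ≤ 3).trans hl) (CFL.constant_factor hl)

end FlashRainbow.ResAll7
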