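import Pool.Agent.Work.MP_54723a_co.CFL.Const
import Pool.Agent.Work.MP_54723a_co.CF.LimitRatio

/-!
# Candidate for the final statement, every length `l ≥ 3`, limit form  (helper7)
-/

set_option autoImplicit false

namespace FlashRainbow.ResLim7

open Filter Topology

/-- **limit form of a constant-factor bound**, one length, no own definitions in the statement -/
theorem limit_one {l : ℕ} (hl : 1 ≤ l) (hC : ∃ C : ℕ, ∀ k n : ℕ, 1 ≤ k →
    C * l ^ (k - 1) < n → ∀ c : Fin n → Fin n → ℕ,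
      (∃ x : Fin (l + 1) → Fin n, StrictMono x ∧
        ∃ col : ℕ, ∀ i : Fin l, c (x i.castSucc) (x i.succ) = col) ∨
      (∃ y : Fin (k + 1) → Fin n, StrictMono y ∧
        Function.Injective (fun i : Fin k => c (y i.castSucc) (y i.succ)))) :
    ∃ (f : ℕ → ℕ) (L : ℝ),
      (∀ k : ℕ, 1 ≤ k →
        (∀ n : ℕ, f k < n → ∀ c : Fin n → Fin n → ℕ,
          (∃ x : Fin (l + 1) → Fin n, StrictMono x ∧
            ∃ col : ℕ, ∀ i : Fin l, c (x i.castSucc) (x i.succ) = col) ∨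
          (∃ y : Fin (k + 1) → Fin n, StrictMono y ∧
            Function.Injective (fun i : Fin k => c (y i.castSucc) (y i.succ)))) ∧
        (∃ c : Fin (f k) → Fin (f k) → ℕ,
          (¬ ∃ x : Fin (l + 1) → Fin (f k), StrictMono x ∧
            ∃ col : ℕ, ∀ i : Fin l, c (x i.castSucc) (x i.succ) = col) ∧
          (¬ ∃ y : Fin (k + 1) → Fin (f k), StrictMono y ∧
            Function.Injective (fun i : Fin k => c (y i.castSucc) (y i.succ))))) ∧
      (∀ k : ℕ, 1 ≤ k → l * f k ≤ f (k + 1)) ∧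
      Tendsto (fun k : ℕ => (f k : ℝ) / (l : ℝ) ^ (k - 1)) atTop (𝓝 L) ∧ 1 ≤ L ∧
      (∀ k : ℕ, 1 ≤ k → (f k : ℝ) ≤ L * (l : ℝ) ^ (k - 1)) ∧
      (L = 1 ↔ ∀ k : ℕ, 1 ≤ k → f k = l ^ (k - 1)) := by
  obtain ⟨κ, h1, h2, h3, h4⟩ := Lim.limit_final hl hC
  refine ⟨Lim.f l, κ, fun k hk => ⟨(h2 k hk).1, ?_⟩, fun k hk => Lim.mul_f_le hl hC hk, h3, h1,
    fun k hk => (h2 k hk).2.2, h4⟩
  have h6 := (h2 k hk).2.1
  unfold Lim.Unav at h6
  rw [not_forall] at h6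
  obtain ⟨c, hc⟩ := h6
  rw [not_or] at hc
  exact ⟨c, hc⟩

/-- For every `l ≥ 3` there are a function `f` and a real number `L ≥ 1` such that, for all `k ≥ 1`,
`f k` is the number `f(l,k)` (every colouring on more than `f k` vertices has an `l`-flash or a
`k`-rainbow, some colouring on `f k` vertices has neither), `l f(l,k) ≤ f(l,k+1)`,
`f(l,k) ≤ L l ^ (k-1)` and `f(l,k) / l ^ (k-1)` tends to `L`; and `L = 1` if and only if
`f(l,k) = l ^ (k-1)` for all `k ≥ 1`. -/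
theorem result : ∀ l : ℕ, 3 ≤ l →
    ∃ (f : ℕ → ℕ) (L : ℝ),
      (∀ k : ℕ, 1 ≤ k →
        (∀ n : ℕ, f k < n → ∀ c : Fin n → Fin n → ℕ,
          (∃ x : Fin (l + 1) → Fin n, StrictMono x ∧
            ∃ col : ℕ, ∀ i : Fin l, c (x i.castSucc) (x i.succ) = col) ∨
          (∃ y : Fin (k + 1) → Fin n, StrictMono y ∧
            Function.Injective (fun i : Fin k => c (y i.castSucc) (y i.succ)))) ∧
        (∃ c : Fin (f k) → Fin (f k) → ℕ,
          (¬ ∃ x : Fin (l + 1) → Fin (f k), StrictMono x ∧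
            ∃ col : ℕ, ∀ i : Fin l, c (x i.castSucc) (x i.succ) = col) ∧
          (¬ ∃ y : Fin (k + 1) → Fin (f k), StrictMono y ∧
            Function.Injective (fun i : Fin k => c (y i.castSucc) (y i.succ))))) ∧
      (∀ k : ℕ, 1 ≤ k → l * f k ≤ f (k + 1)) ∧
      Tendsto (fun k : ℕ => (f k : ℝ) / (l : ℝ) ^ (k - 1)) atTop (𝓝 L) ∧ 1 ≤ L ∧
      (∀ k : ℕ, 1 ≤ k → (f k : ℝ) ≤ L * (l : ℝ) ^ (k - 1)) ∧
      (L = 1 ↔ ∀ k : ℕ, 1 ≤ k → f k = l ^ (k - 1)) :=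
  fun _ hl => limit_one ((by norm_num : 1 ≤ 3).trans hl) (CFL.constant_factor hl)

end FlashRainbow.ResLim7
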