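import Pool.Agent.Work.MP_54723a_co.CF.Const96
import Pool.Agent.Work.MP_54723a_co.CF.LimitLym

/-!
# `f (3, k) = (L + o(1)) 3 ^ (k - 1)`, with the local inequality

Draft of the statement of the hand-in `ConstantFactor` in the form with the local (LYM) inequality.
-/

set_option autoImplicit false

namespace FlashRainbow.ConstantFactor

open Filter Topology

/-- There are a function `f` and a real number `L ≥ 1` such that `f k` is the number `f(3,k)` for
all `k ≥ 1`, the ratio `f(3,k) / 3 ^ (k - 1)` is nondecreasing and tends to `L` (so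
`f(3,k) ≤ L * 3 ^ (k - 1)`), the numbers `3 ^ (-r v)` sum to at most `L` over the vertices of any
colouring without a `3`-flash in which every monotone rainbow path through `v` has at most `r v`
edges, and `L = 1` if and only if `f(3,k) = 3 ^ (k - 1)` for all `k ≥ 1`. -/
theorem result :
    ∃ (f : ℕ → ℕ) (L : ℝ),
      (∀ k : ℕ, 1 ≤ k →
        (∀ n : ℕ, f k < n → ∀ c : Fin n → Fin n → ℕ,
          (∃ x : Fin (3 + 1) → Fin n, StrictMono x ∧
            ∃ col : ℕ, ∀ i : Fin 3, c (x i.castSucc) (x i.succ) = col) ∨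
          (∃ y : Fin (k + 1) → Fin n, StrictMono y ∧
            Function.Injective (fun i : Fin k => c (y i.castSucc) (y i.succ)))) ∧
        (∃ c : Fin (f k) → Fin (f k) → ℕ,
          (¬ ∃ x : Fin (3 + 1) → Fin (f k), StrictMono x ∧
            ∃ col : ℕ, ∀ i : Fin 3, c (x i.castSucc) (x i.succ) = col) ∧
          (¬ ∃ y : Fin (k + 1) → Fin (f k), StrictMono y ∧
            Function.Injective (fun i : Fin k => c (y i.castSucc) (y i.succ))))) ∧
      (∀ k : ℕ, 1 ≤ k → 3 * f k ≤ f (k + 1)) ∧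
      Tendsto (fun k : ℕ => (f k : ℝ) / 3 ^ (k - 1)) atTop (𝓝 L) ∧ 1 ≤ L ∧
      (∀ k : ℕ, 1 ≤ k → (f k : ℝ) ≤ L * 3 ^ (k - 1)) ∧
      (∀ (n : ℕ) (c : Fin n → Fin n → ℕ) (r : Fin n → ℕ),
        (¬ ∃ x : Fin (3 + 1) → Fin n, StrictMono x ∧
          ∃ col : ℕ, ∀ i : Fin 3, c (x i.castSucc) (x i.succ) = col) →
        (∀ (m : ℕ) (y : Fin (m + 1) → Fin n), StrictMono y →
          Function.Injective (fun i : Fin m => c (y i.castSucc) (y i.succ)) →
            ∀ i, m ≤ r (y i)) →
        ∑ v, (1 / 3 : ℝ) ^ r v ≤ L) ∧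
      (L = 1 ↔ ∀ k : ℕ, 1 ≤ k → f k = 3 ^ (k - 1)) :=
  CF.Limit.limit_lym CF.constant_factor

end FlashRainbow.ConstantFactor
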