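import Pool.Agent.Work.MP_54723a_co.CF.Typ

/-!
# The run lemma (helper18, 130296 (1))

* `run_path` : in a run `x 0 < x 1 < ..`, `S (i+1)` inside the `g i`-class of `x i`, every point of
  `S n` is the end of a rainbow path with palette `{g 0, .., g (n-1)}`.
* `run_fiber` : every colour occurs at most twice among the `g i`.
* `run_le` : `|S n| 3^m ≤ 2^m |V|` with `n ≤ 2 m`.
* `run_lemma` : if `|S (i+1)| ≥ (1 - 1/2n) |S i|` for all `i`, then `|S 0| 3^m ≤ 2^(m+1) |V|`.
-/

set_option autoImplicit false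

namespace FlashRainbow.CF

open Classical

variable {c : ℕ → ℕ → ℕ} {V : Finset ℕ} {R n : ℕ} {lev : ℕ → ℕ → ℕ} {x g : ℕ → ℕ}
  {S : ℕ → Finset ℕ}

/-- a run: `S (i+1) ⊆ S i` lies behind `x i ∈ S i` and is joined to it by the colour `g i` -/
structure Run (c : ℕ → ℕ → ℕ) (V : Finset ℕ) (n : ℕ) (x g : ℕ → ℕ) (S : ℕ → Finset ℕ) : Prop where
  base : S 0 ⊆ V
  anti : ∀ i < n, S (i + 1) ⊆ S i
  mem : ∀ i < n, x i ∈ S i
  lt : ∀ i < n, ∀ u ∈ S (i + 1), x i < u
  col : ∀ i < n, ∀ u ∈ S (i + 1), c (x i) u = g i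

theorem Run.subset (h : Run c V n x g S) {i j : ℕ} (hij : i ≤ j) (hj : j ≤ n) : S j ⊆ S i := by
  induction j, hij using Nat.le_induction with
  | base => exact Finset.Subset.refl _
  | succ j hij ih => exact (h.anti j (by omega)).trans (ih (by omega))

theorem Run.subV (h : Run c V n x g S) {j : ℕ} (hj : j ≤ n) : S j ⊆ V :=
  (h.subset (Nat.zero_le j) hj).trans h.base

theorem Run.arc (h : Run c V n x g S) {i j : ℕ} (hij : i < j) (hj : j < n) :
    x i < x j ∧ c (x i) (x j) = g i := by
  have h1 := h.subset (i := i + 1) (j := j) hij hj.le (h.mem j hj)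
  exact ⟨h.lt i (by omega) _ h1, h.col i (by omega) _ h1⟩

theorem run_path (h : Run c V n x g S) : ∀ k ≤ n, ∀ u ∈ S k,
    RP c V u ((Finset.range k).image g) := by
  intro k
  induction k with
  | zero =>
    intro _ u hu
    simpa using RP.single (c := c) (h.base hu)
  | succ k ih =>
    intro hk u hu
    have hu' : u ∈ S k := h.anti k (by omega) hu
    rw [Finset.range_add_one, Finset.image_insert]
    by_cases hg : g k ∈ (Finset.range k).image g
    · rw [Finset.insert_eq_of_mem hg]
      exact ih (by omega) u hu'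
    · have h1 := ih (by omega) (x k) (h.mem k (by omega))
      have h2 := RP.step h1 (h.subV hk hu) (h.lt k (by omega) u hu)
        (by rw [h.col k (by omega) u hu]; exact hg)
      rwa [h.col k (by omega) u hu] at h2

theorem run_fiber (hL : Lev c V 3 lev) (h : Run c V n x g S) {u : ℕ} (hu : u ∈ S n) (γ : ℕ) :
    ((Finset.range n).filter fun i => g i = γ).card ≤ 2 := by
  by_contra hcon
  push Not at hcon
  obtain ⟨i, hi, j, hj, k, hk, hij, hik, hjk⟩ := Finset.two_lt_card.mp hcon
  simp only [Finset.mem_filter, Finset.mem_range] at hi hj hk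
  have huV : u ∈ V := h.subV le_rfl hu
  have key : ∀ a b d : ℕ, a < b → b < d → d < n → g a = γ → g b = γ → g d = γ → False := by
    intro a b d hab hbd hdn ha hb hd
    have h1 := h.arc hab (by omega)
    have h2 := h.arc hbd hdn
    have hud := h.subset (i := d + 1) hdn le_rfl hu
    have h3 := h.lt d hdn u hud
    have h4 := h.col d hdn u hud
    have ma := h.subV (by omega) (h.mem a (by omega))
    have mb := h.subV (by omega) (h.mem b (by omega))
    have md := h.subV (by omega) (h.mem d hdn)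
    have l1 := hL.up _ ma _ mb h1.1
    have l2 := hL.up _ mb _ md h2.1
    have l3 := hL.up _ md _ huV h3
    rw [h1.2, ha] at l1
    rw [h2.2, hb] at l2
    rw [h4, hd] at l3
    have l4 := hL.lt γ u huV
    omega
  rcases lt_trichotomy i j with h1 | h1 | h1
  · rcases lt_trichotomy j k with h2 | h2 | h2
    · exact key i j k h1 h2 hk.1 hi.2 hj.2 hk.2
    · exact hjk h2
    · rcases lt_trichotomy i k with h3 | h3 | h3
      · exact key i k j h3 h2 hj.1 hi.2 hk.2 hj.2
      · exact hik h3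
      · exact key k i j h3 h1 hj.1 hk.2 hi.2 hj.2
  · exact hij h1
  · rcases lt_trichotomy i k with h2 | h2 | h2
    · exact key j i k h1 h2 hk.1 hj.2 hi.2 hk.2
    · exact hik h2
    · rcases lt_trichotomy j k with h3 | h3 | h3
      · exact key j k i h3 h2 hi.1 hj.2 hk.2 hi.2
      · exact hjk h3
      · exact key k j i h3 h1 hi.1 hk.2 hj.2 hi.2

/-- A set `A` all of whose points are ends of rainbow paths with palette `D` (so all levels of the
colours of `D` are at least 1 there) is small. -/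
theorem heads_le (hL : Lev c V 3 lev) (hR : Rk c V R) (hE : Ext c V R) {A : Finset ℕ} (hA : A ⊆ V)
    (D : Finset ℕ) (hD : ∀ u ∈ A, RP c V u D) (hpos : ∀ γ ∈ D, ∀ u ∈ A, 1 ≤ lev γ u) :
    A.card * 3 ^ D.card ≤ 2 ^ D.card * V.card := by
  rcases A.eq_empty_or_nonempty with rfl | ⟨u₀, hu₀⟩
  · simp
  have hDR : D.card ≤ R := hR _ _ (hD u₀ hu₀)
  obtain ⟨T, hT, hTc, hTs⟩ := exists_select (T := A) (l := 2)
    (lev := fun γ v => if γ ∈ D then lev γ v - 1 else 0) (by omega) (fun _ => D) D.card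
    (fun _ _ => le_rfl) (by
      intro γ v hv
      split_ifs
      · have := hL.lt γ v (hA hv)
        omega
      · omega)
  have hfree : ∀ γ ∈ D, ∀ u ∈ T, ∀ v ∈ T, u < v → c u v ≠ γ := by
    intro γ hγ
    refine hL.free (hT.trans hA) ?_
    intro u hu v hv
    have h1 := hTs u hu v hv γ hγ hγ
    simp only [hγ, if_true] at h1
    have h2 := hpos γ hγ u (hT hu)
    have h3 := hpos γ hγ v (hT hv)
    omega
  have hrk : Rk c T (R - D.card) := by
    intro y E hEy
    have h1 := hEy.prepend (hT.trans hA) (fun v hv => hD v (hT hv)) hfree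
    have h2 : Disjoint E D := by
      rw [Finset.disjoint_right]
      intro γ hγ
      exact hEy.notMem_of_free (hfree γ hγ)
    have h3 := hR _ _ h1
    rw [Finset.card_union_of_disjoint h2] at h3
    omega
  have h1 := hE T (hT.trans hA) (R - D.card) (by omega) hrk
  rw [show R - (R - D.card) = D.card by omega] at h1
  calc A.card * 3 ^ D.card ≤ 2 ^ D.card * T.card * 3 ^ D.card := Nat.mul_le_mul_right _ hTc
    _ = 2 ^ D.card * (T.card * 3 ^ D.card) := by ring
    _ ≤ 2 ^ D.card * V.card := Nat.mul_le_mul_left _ h1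

/-- the size of the last set of a run -/
theorem run_le (hL : Lev c V 3 lev) (hR : Rk c V R) (hE : Ext c V R) (h : Run c V n x g S) :
    ∃ m, n ≤ 2 * m ∧ (S n).card * 3 ^ m ≤ 2 ^ m * V.card := by
  rcases (S n).eq_empty_or_nonempty with h0 | ⟨u, hu⟩
  · refine ⟨n, by omega, ?_⟩
    rw [h0]
    simp
  refine ⟨((Finset.range n).image g).card, ?_, ?_⟩
  · have h1 := Finset.card_le_mul_card_image (f := g) (Finset.range n) 2
      (fun γ _ => run_fiber hL h hu γ)
    rwa [Finset.card_range] at h1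
  · refine heads_le hL hR hE (h.subV le_rfl) _ (fun v hv => run_path h n le_rfl v hv) ?_
    intro γ hγ v hv
    obtain ⟨i, hi, rfl⟩ := Finset.mem_image.mp hγ
    rw [Finset.mem_range] at hi
    have hv' := h.subset (i := i + 1) hi le_rfl hv
    have h1 := hL.up _ (h.subV (by omega) (h.mem i hi)) v (h.subV le_rfl hv) (h.lt i hi v hv')
    rw [h.col i hi v hv'] at h1
    omega

/-- `|S (i+1)| ≥ (1 - 1/2n) |S i|` for all `i < n` implies `|S n| ≥ |S 0| / 2` -/
theorem half_of_steps {s : ℕ → ℕ} (hn : 0 < n)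
    (hs : ∀ i < n, (2 * n - 1) * s i ≤ 2 * n * s (i + 1)) : s 0 ≤ 2 * s n := by
  have h1 : ∀ k ≤ n, (2 * n - k) * s 0 ≤ 2 * n * s k := by
    intro k
    induction k with
    | zero => intro _; simp
    | succ k ih =>
      intro hk
      have h2 := ih (by omega)
      have h3 := hs k (by omega)
      -- (2n-k-1) * 2n ≤ (2n-k) * (2n-1)
      have h4 : (2 * n - (k + 1)) * (2 * n) ≤ (2 * n - k) * (2 * n - 1) := by
        obtain ⟨a, ha⟩ : ∃ a, 2 * n = k + 1 + a := ⟨2 * n - (k + 1), by omega⟩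
        rw [show 2 * n - (k + 1) = a by omega, show 2 * n - k = a + 1 by omega,
          show 2 * n - 1 = k + a by omega, ha]
        nlinarith
      have h5 : (2 * n - (k + 1)) * s 0 * (2 * n) ≤ 2 * n * s (k + 1) * (2 * n) := by
        calc (2 * n - (k + 1)) * s 0 * (2 * n) = (2 * n - (k + 1)) * (2 * n) * s 0 := by ring
          _ ≤ (2 * n - k) * (2 * n - 1) * s 0 := Nat.mul_le_mul_right _ h4
          _ = (2 * n - 1) * ((2 * n - k) * s 0) := by ring
          _ ≤ (2 * n - 1) * (2 * n * s k) := Nat.mul_le_mul_left _ h2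
          _ = 2 * n * ((2 * n - 1) * s k) := by ring
          _ ≤ 2 * n * (2 * n * s (k + 1)) := Nat.mul_le_mul_left _ h3
          _ = 2 * n * s (k + 1) * (2 * n) := by ring
      exact Nat.le_of_mul_le_mul_right h5 (by omega)
  have h2 := h1 n le_rfl
  rw [show 2 * n - n = n by omega] at h2
  have h3 : n * s 0 ≤ n * (2 * s n) := by
    calc n * s 0 ≤ 2 * n * s n := h2
      _ = n * (2 * s n) := by ring
  exact Nat.le_of_mul_le_mul_left h3 hn

/-- **RUN LEMMA** -/
theorem run_lemma (hL : Lev c V 3 lev) (hR : Rk c V R) (hE : Ext c V R) (h : Run c V n x g S)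
    (hn : 0 < n) (hs : ∀ i < n, (2 * n - 1) * (S i).card ≤ 2 * n * (S (i + 1)).card) :
    ∃ m, n ≤ 2 * m ∧ (S 0).card * 3 ^ m ≤ 2 * (2 ^ m * V.card) := by
  obtain ⟨m, h1, h2⟩ := run_le hL hR hE h
  have h3 := half_of_steps (s := fun i => (S i).card) hn hs
  refine ⟨m, h1, ?_⟩
  calc (S 0).card * 3 ^ m ≤ 2 * (S n).card * 3 ^ m := Nat.mul_le_mul_right _ h3
    _ = 2 * ((S n).card * 3 ^ m) := by ring
    _ ≤ 2 * (2 ^ m * V.card) := Nat.mul_le_mul_left _ h2

end FlashRainbow.CF
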