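import Mathlib

/-!
# Constant factor: the schedule of the ranks and the growth of the zone exponents

Pure arithmetic.  `T 0 ≤ T 1 ≤ .. ≤ T n = R` with `T k = T (k+1) - T (k+1) / 20` and
`T k ≥ t₀ (21/20) ^ k`; any sequence `A` with `A (k+1) ≤ κ A k + B (k+1) ^ p s ^ k`, `κ, s < 21/20`,
is at most `C (21/20) ^ k`.
-/

set_option autoImplicit false

namespace FlashRainbow.CF.Sched

/-- downward schedule -/
def dn (R : ℕ) : ℕ → ℕ
  | 0 => R
  | k + 1 => dn R k - dn R k / 20

theorem dn_shift (R k : ℕ) : dn R (k + 1) = dn (R - R / 20) k := by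
  induction k with
  | zero => rfl
  | succ k ih =>
    show dn R (k + 1) - dn R (k + 1) / 20 = dn (R - R / 20) (k + 1)
    rw [ih]
    rfl

/-- one step of the growth -/
theorem step_growth {t : ℕ} (ht : 400 ≤ t - t / 20) : 21 * (t - t / 20) ≤ 20 * t := by
  omega

/-- **SCHEDULE.** -/
theorem exists_sched (t₀ : ℕ) (h₀ : 400 ≤ t₀) : ∀ R, t₀ ≤ R → ∃ (n : ℕ) (T : ℕ → ℕ),
    T n = R ∧ T 0 ≤ 2 * t₀ ∧ (∀ k ≤ n, t₀ ≤ T k) ∧
    (∀ k < n, T k = T (k + 1) - T (k + 1) / 20) ∧
    (∀ k ≤ n, 21 ^ k * t₀ ≤ 20 ^ k * T k) := by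
  intro R
  induction R using Nat.strong_induction_on with
  | _ R ih =>
    intro hR
    by_cases hsmall : R ≤ 2 * t₀
    · refine ⟨0, fun _ => R, rfl, hsmall, fun _ _ => hR, fun k hk => by omega, fun k hk => ?_⟩
      have : k = 0 := by omega
      subst this
      simpa using hR
    · obtain ⟨n, T, h1, h2, h3, h4, h5⟩ := ih (R - R / 20) (by omega) (by omega)
      refine ⟨n + 1, fun k => if k = n + 1 then R else T k, by simp, ?_, ?_, ?_, ?_⟩
      · simpa using h2
      · intro k hk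
        by_cases hk' : k = n + 1
        · simpa [hk'] using hR
        · simpa [hk'] using h3 k (by omega)
      · intro k hk
        by_cases hk' : k = n
        · subst hk'
          simpa using h1
        · have hk2 : k ≠ n + 1 := by omega
          have hk3 : k + 1 ≠ n + 1 := by omega
          simpa [hk2, hk3, hk'] using h4 k (by omega)
      · intro k hk
        by_cases hk' : k = n + 1
        · subst hk'
          have h6 := h5 n le_rfl
          rw [h1] at h6
          have h7 : 21 * (R - R / 20) ≤ 20 * R := step_growth (by omega)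
          calc 21 ^ (n + 1) * t₀ = 21 * (21 ^ n * t₀) := by ring
            _ ≤ 21 * (20 ^ n * (R - R / 20)) := Nat.mul_le_mul_left _ h6
            _ = 20 ^ n * (21 * (R - R / 20)) := by ring
            _ ≤ 20 ^ n * (20 * R) := Nat.mul_le_mul_left _ h7
            _ = 20 ^ (n + 1) * (if n + 1 = n + 1 then R else T (n + 1)) := by simp; ring
        · simpa [hk'] using h5 k (by omega)

/-- boundedness of a polynomial times a decaying exponential -/
theorem exists_poly_bound (p : ℕ) {r : ℝ} (h0 : 0 ≤ r) (h1 : r < 1) :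
    ∃ M : ℝ, 0 ≤ M ∧ ∀ k : ℕ, ((k : ℝ) + 1) ^ p * r ^ k ≤ M := by
  rcases h0.eq_or_lt with h | h
  · subst h
    refine ⟨1, zero_le_one, fun k => ?_⟩
    rcases Nat.eq_zero_or_pos k with hk | hk
    · subst hk; simp
    · rw [zero_pow hk.ne', mul_zero]; exact zero_le_one
  have ht := tendsto_pow_const_mul_const_pow_of_abs_lt_one p (r := r) (by rwa [abs_of_pos h])
  obtain ⟨M, hM⟩ := ht.bddAbove_range
  refine ⟨max (M / r) 0, le_max_right _ _, fun k => le_max_of_le_left ?_⟩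
  rw [le_div_iff₀ h]
  have := hM ⟨k + 1, rfl⟩
  simp only [Nat.cast_add, Nat.cast_one] at this
  calc ((k : ℝ) + 1) ^ p * r ^ k * r = ((k : ℝ) + 1) ^ p * r ^ (k + 1) := by ring
    _ ≤ M := this

/-- **GROWTH.** -/
theorem growth (p : ℕ) {κ s g B : ℝ} (hκ : 0 ≤ κ) (hs : 0 ≤ s) (hκg : κ < g) (hsg : s < g)
    (hB : 0 ≤ B) (a₀ : ℝ) : ∃ C : ℝ, 0 < C ∧ ∀ (A : ℕ → ℝ) (n : ℕ), A 0 ≤ a₀ →
      (∀ k < n, A (k + 1) ≤ κ * A k + B * ((k : ℝ) + 1) ^ p * s ^ k) →
      ∀ k ≤ n, A k ≤ C * g ^ k := by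
  have hg : 0 < g := hκ.trans_lt hκg
  obtain ⟨M, hM0, hM⟩ := exists_poly_bound p (r := s / g) (by positivity)
    ((div_lt_one hg).mpr hsg)
  have hgk : 0 < g - κ := sub_pos.mpr hκg
  refine ⟨max a₀ 0 + B * M / (g - κ) + 1, by positivity, ?_⟩
  intro A n h0 hA k
  set C := max a₀ 0 + B * M / (g - κ) + 1 with hC
  have hCM : B * M ≤ (g - κ) * C := by
    have h1 : B * M / (g - κ) ≤ C := by
      rw [hC]
      have := le_max_right a₀ 0
      linarith
    rw [div_le_iff₀ hgk] at h1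
    linarith
  induction k with
  | zero =>
    intro _
    rw [pow_zero, mul_one, hC]
    have h1 := le_max_left a₀ 0
    have h2 : 0 ≤ B * M / (g - κ) := by positivity
    linarith
  | succ k ih =>
    intro hk
    have h1 := ih (by omega)
    have h2 := hA k (by omega)
    have h3 : ((k : ℝ) + 1) ^ p * s ^ k ≤ M * g ^ k := by
      have := hM k
      rw [div_pow] at this
      have hgk' : 0 < g ^ k := by positivity
      calc ((k : ℝ) + 1) ^ p * s ^ k = ((k : ℝ) + 1) ^ p * (s ^ k / g ^ k) * g ^ k := by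
            field_simp
        _ ≤ M * g ^ k := mul_le_mul_of_nonneg_right this hgk'.le
    have h4 : B * ((k : ℝ) + 1) ^ p * s ^ k ≤ (g - κ) * C * g ^ k := by
      calc B * ((k : ℝ) + 1) ^ p * s ^ k = B * (((k : ℝ) + 1) ^ p * s ^ k) := by ring
        _ ≤ B * (M * g ^ k) := mul_le_mul_of_nonneg_left h3 hB
        _ = B * M * g ^ k := by ring
        _ ≤ (g - κ) * C * g ^ k := mul_le_mul_of_nonneg_right hCM (by positivity)
    calc A (k + 1) ≤ κ * A k + B * ((k : ℝ) + 1) ^ p * s ^ k := h2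
      _ ≤ κ * (C * g ^ k) + (g - κ) * C * g ^ k :=
          add_le_add (mul_le_mul_of_nonneg_left h1 hκ) h4
      _ = C * g ^ (k + 1) := by ring

/-- the tail of the precisions: `q l ≥ q₀ g ^ l` -/
theorem sum_precision {g q₀ : ℝ} (hg : 1 < g) (hq : 0 < q₀) (q : ℕ → ℝ)
    (h : ∀ l, q₀ * g ^ l ≤ q l) (m n : ℕ) :
    ∑ l ∈ Finset.Ico m n, 1 / q l ≤ g / ((g - 1) * q₀) := by
  have hg0 : 0 < g := by linarith
  have h1 : ∀ l, 1 / q l ≤ (1 / q₀) * (1 / g) ^ l := by
    intro l
    have h2 : 0 < q₀ * g ^ l := by positivity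
    calc 1 / q l ≤ 1 / (q₀ * g ^ l) := one_div_le_one_div_of_le h2 (h l)
      _ = (1 / q₀) * (1 / g) ^ l := by
          rw [div_pow, one_pow]
          field_simp
  have h3 : ∑ l ∈ Finset.Ico m n, (1 / g : ℝ) ^ l ≤ g / (g - 1) := by
    have h4 : ∑ l ∈ Finset.Ico m n, (1 / g : ℝ) ^ l ≤ ∑ l ∈ Finset.range n, (1 / g : ℝ) ^ l := by
      refine Finset.sum_le_sum_of_subset_of_nonneg ?_ (fun _ _ _ => by positivity)
      intro l hl
      exact Finset.mem_range.mpr (Finset.mem_Ico.mp hl).2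
    have h5 : (1 / g : ℝ) < 1 := by
      rw [div_lt_one hg0]; exact hg
    have h6 := geom_sum_eq (x := (1 / g : ℝ)) (ne_of_lt h5) n
    rw [h6] at h4
    refine h4.trans ?_
    have h7 : (0 : ℝ) ≤ (1 / g) ^ n := by positivity
    have h8 : ((1 / g : ℝ) ^ n - 1) / (1 / g - 1) = (1 - (1 / g) ^ n) * (g / (g - 1)) := by
      have h9 : g - 1 ≠ 0 := by linarith
      have h10 : (1 / g : ℝ) - 1 = -((g - 1) / g) := by
        field_simp
        ring
      rw [h10, div_neg, ← neg_div, neg_sub, div_div_eq_mul_div, mul_div_assoc]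
    rw [h8]
    have h10 : 0 ≤ g / (g - 1) := by
      have : 0 < g - 1 := by linarith
      positivity
    nlinarith
  calc ∑ l ∈ Finset.Ico m n, 1 / q l ≤ ∑ l ∈ Finset.Ico m n, (1 / q₀) * (1 / g) ^ l :=
        Finset.sum_le_sum fun l _ => h1 l
    _ = (1 / q₀) * ∑ l ∈ Finset.Ico m n, (1 / g) ^ l := by rw [Finset.mul_sum]
    _ ≤ (1 / q₀) * (g / (g - 1)) := mul_le_mul_of_nonneg_left h3 (by positivity)
    _ = g / ((g - 1) * q₀) := by
        have : g - 1 ≠ 0 := by linarith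
        field_simp

end FlashRainbow.CF.Sched
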