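import Pool.Agent.Work.MP_54723a_co.CF.H1
import Mathlib.Data.Finset.Interval

/-!
# Constant factor, measure route: the short lemma (helper34; source: helper20, 8735)

`x` a hub with palette `K`, `Z` behind `x`, `f v = c x v ∉ F`.  Few points `s` of `Z` are the end of
a rainbow path of `V` with `e` arcs whose palette avoids `K` and `f s`.
-/

set_option autoImplicit false

namespace FlashRainbow.CF

open Classical

variable {c : ℕ → ℕ → ℕ} {V A W Z K F Y : Finset ℕ} {R e t x M : ℕ} {lev : ℕ → ℕ → ℕ}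

/-- choice of a palette `Y` which contains many of the sets `C s` and not `f s` -/
theorem exists_palette (C : ℕ → Finset ℕ) (f : ℕ → ℕ) (A : Finset ℕ) (e : ℕ)
    (hC : ∀ s ∈ A, (C s).card = e) (hf : ∀ s ∈ A, f s ∉ C s) :
    ∃ Y ⊆ A.biUnion C, A.card ≤ 2 ^ (e + 1) * (A.filter fun s => C s ⊆ Y ∧ f s ∉ Y).card := by
  set U := A.biUnion C with hU
  by_contra hcon
  push Not at hcon
  have h1 : ∑ Y ∈ U.powerset, 2 ^ (e + 1) * (A.filter fun s => C s ⊆ Y ∧ f s ∉ Y).card <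
      ∑ Y ∈ U.powerset, A.card :=
    Finset.sum_lt_sum_of_nonempty ⟨∅, Finset.empty_mem_powerset _⟩ fun Y hY =>
      hcon Y (Finset.mem_powerset.mp hY)
  rw [← Finset.mul_sum, Finset.sum_const, Finset.card_powerset, smul_eq_mul] at h1
  have h2 : ∑ Y ∈ U.powerset, (A.filter fun s => C s ⊆ Y ∧ f s ∉ Y).card =
      ∑ s ∈ A, (U.powerset.filter fun Y => C s ⊆ Y ∧ f s ∉ Y).card := by
    simp_rw [Finset.card_filter]
    exact Finset.sum_comm
  have h3 : ∀ s ∈ A, 2 ^ U.card ≤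
      2 ^ (e + 1) * (U.powerset.filter fun Y => C s ⊆ Y ∧ f s ∉ Y).card := by
    intro s hs
    have hCU : C s ⊆ U.erase (f s) := fun z hz => Finset.mem_erase.mpr
      ⟨fun h => hf s hs (h ▸ hz), Finset.mem_biUnion.mpr ⟨s, hs, hz⟩⟩
    have h4 : Finset.Icc (C s) (U.erase (f s)) ⊆
        U.powerset.filter fun Y => C s ⊆ Y ∧ f s ∉ Y := by
      intro Y hY
      rw [Finset.mem_Icc] at hY
      refine Finset.mem_filter.mpr ⟨Finset.mem_powerset.mpr
        (hY.2.trans (Finset.erase_subset _ _)), hY.1, fun h => ?_⟩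
      exact Finset.notMem_erase _ _ (hY.2 h)
    have h5 := Finset.card_le_card h4
    rw [Finset.card_Icc_finset hCU, hC s hs] at h5
    have h6 := Finset.card_le_card hCU
    rw [hC s hs] at h6
    have h7 := Finset.pred_card_le_card_erase (s := U) (a := f s)
    calc 2 ^ U.card ≤ 2 ^ (e + 1 + ((U.erase (f s)).card - e)) :=
          Nat.pow_le_pow_right (by norm_num) (by omega)
      _ = 2 ^ (e + 1) * 2 ^ ((U.erase (f s)).card - e) := pow_add _ _ _
      _ ≤ _ := Nat.mul_le_mul_left _ h5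
  have h4 : ∑ s ∈ A, 2 ^ U.card ≤
      ∑ s ∈ A, 2 ^ (e + 1) * (U.powerset.filter fun Y => C s ⊆ Y ∧ f s ∉ Y).card :=
    Finset.sum_le_sum h3
  rw [← Finset.mul_sum, ← h2, Finset.sum_const, smul_eq_mul, Nat.mul_comm] at h4
  exact absurd h1 (not_lt.mpr h4)

/-- **removal of the arcs with colours in `Y`**, if the rainbow paths with colours in `Y` are
short -/
theorem remove_colours (hL : Lev c W 3 lev) (Y : Finset ℕ)
    (hlen : ∀ q D, RP c W q D → D ⊆ Y → D.card ≤ t) :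
    ∃ T ⊆ W, W.card ≤ (t + 1) ^ 2 * (3 ^ (2 * t) * T.card) ∧
      ∀ u ∈ T, ∀ v ∈ T, u < v → c u v ∉ Y := by
  set pi : ℕ → ℕ → Prop := fun q j => ∃ D, RP c W q D ∧ D ⊆ Y ∧ D.card = j with hpi
  set po : ℕ → ℕ → Prop := fun q j => ∃ D, RS c W q D ∧ D ⊆ Y ∧ D.card = j with hpo
  have hpi0 : ∀ q ∈ W, pi q 0 := fun q hq => ⟨∅, RP.single hq, Finset.empty_subset _, rfl⟩
  have hpo0 : ∀ q ∈ W, po q 0 := fun q hq => ⟨∅, RS.single hq, Finset.empty_subset _, rfl⟩
  have hpit : ∀ q j, pi q j → j ≤ t := by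
    rintro q j ⟨D, h1, h2, rfl⟩
    exact hlen q D h1 h2
  have hpot : ∀ q j, po q j → j ≤ t := by
    rintro q j ⟨D, h1, h2, rfl⟩
    obtain ⟨y, hy⟩ := h1.join (Finset.Subset.refl _) ∅ (RP.single h1.mem)
      (Finset.disjoint_empty_right _)
    exact hlen y D (by simpa using hy) h2
  set fi : ℕ → ℕ := fun q => Nat.findGreatest (pi q) t with hfi
  set fo : ℕ → ℕ := fun q => Nat.findGreatest (po q) t with hfo
  have hi : ∀ q ∈ W, ∃ D, RP c W q D ∧ D ⊆ Y ∧ D.card = fi q := fun q hq =>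
    Nat.findGreatest_spec (P := pi q) (Nat.zero_le _) (hpi0 q hq)
  have ho : ∀ q ∈ W, ∃ D, RS c W q D ∧ D ⊆ Y ∧ D.card = fo q := fun q hq =>
    Nat.findGreatest_spec (P := po q) (Nat.zero_le _) (hpo0 q hq)
  choose! P hP using hi
  choose! P' hP' using ho
  have hfit : ∀ q, fi q ≤ t := fun q => Nat.findGreatest_le _
  have hfot : ∀ q, fo q ≤ t := fun q => Nat.findGreatest_le _
  obtain ⟨⟨i, o⟩, -, hio⟩ := exists_big_fiber W (fun q => (fi q, fo q))
    (Finset.range (t + 1) ×ˢ Finset.range (t + 1)) ⟨(0, 0), by simp⟩ (by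
      intro q _
      rw [Finset.mem_product, Finset.mem_range, Finset.mem_range]
      exact ⟨Nat.lt_succ_of_le (hfit q), Nat.lt_succ_of_le (hfot q)⟩)
  set W₁ := W.filter fun q => (fi q, fo q) = (i, o) with hW₁
  have hW₁W : W₁ ⊆ W := Finset.filter_subset _ _
  have hW₁i : ∀ q ∈ W₁, fi q = i := fun q hq => by
    have := (Finset.mem_filter.mp hq).2
    exact (Prod.mk.inj this).1
  have hW₁o : ∀ q ∈ W₁, fo q = o := fun q hq => by
    have := (Finset.mem_filter.mp hq).2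
    exact (Prod.mk.inj this).2
  obtain ⟨T, hT, hTc, hTl⟩ := exists_select (T := W₁) (l := 3) (lev := lev) (by omega)
    (fun q => P q ∪ P' q) (2 * t) (by
      intro q hq
      have h1 := (hP q (hW₁W hq)).2.2
      have h2 := (hP' q (hW₁W hq)).2.2
      have h3 := hfit q
      have h4 := hfot q
      exact (Finset.card_union_le _ _).trans (by omega)) (fun γ v hv => hL.lt γ v (hW₁W hv))
  refine ⟨T, hT.trans hW₁W, ?_, ?_⟩
  · rw [Finset.card_product, Finset.card_range] at hio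
    calc W.card ≤ (t + 1) * (t + 1) * W₁.card := hio
      _ ≤ (t + 1) * (t + 1) * (3 ^ (2 * t) * T.card) := Nat.mul_le_mul_left _ hTc
      _ = _ := by ring
  · intro u hu v hv huv hY
    have huW := hW₁W (hT hu)
    have hvW := hW₁W (hT hv)
    have h1 : c u v ∈ P u := by
      by_contra hn
      obtain ⟨h2, h3, h4⟩ := hP u huW
      have h5 : pi v (fi u + 1) := ⟨insert (c u v) (P u), RP.step h2 hvW huv hn,
        Finset.insert_subset hY h3, by rw [Finset.card_insert_of_notMem hn, h4]⟩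
      have h6 : fi u + 1 ≤ fi v := Nat.le_findGreatest (hpit v _ h5) h5
      rw [hW₁i u (hT hu), hW₁i v (hT hv)] at h6
      omega
    have h2 : c u v ∈ P' v := by
      by_contra hn
      obtain ⟨h2, h3, h4⟩ := hP' v hvW
      have h5 : po u (fo v + 1) := ⟨insert (c u v) (P' v), RS.step h2 huW huv hn,
        Finset.insert_subset hY h3, by rw [Finset.card_insert_of_notMem hn, h4]⟩
      have h6 : fo v + 1 ≤ fo u := Nat.le_findGreatest (hpot u _ h5) h5
      rw [hW₁o u (hT hu), hW₁o v (hT hv)] at h6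
      omega
    have h3 := hTl u hu v hv (c u v) (Finset.mem_union_left _ h1) (Finset.mem_union_right _ h2)
    have h4 := hL.up u huW v hvW huv
    omega

/-- **SHORT LEMMA** -/
theorem short_lemma (hL : Lev c V 3 lev) (hR : Rk c V R) (hH : Hub c V x K F)
    (ht : R ≤ K.card + t)
    (hM : ∀ W ⊆ V, ∀ r ≤ R, Rk c W r → W.card * 3 ^ (R - r) ≤ M)
    (hA : A ⊆ V) (hxA : ∀ v ∈ A, x < v) (hAF : ∀ v ∈ A, c x v ∉ F)
    (hC : ∀ s ∈ A, ∃ C, RP c V s C ∧ C.card = e ∧ Disjoint C K ∧ c x s ∉ C) :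
    A.card * 3 ^ e ≤ 2 ^ (e + 1) * ((t + 1) ^ 2 * (3 ^ (2 * t) * M)) := by
  rcases A.eq_empty_or_nonempty with rfl | ⟨s₀, hs₀⟩
  · simp
  have heR : e ≤ R := by
    obtain ⟨C, h1, h2, -, -⟩ := hC s₀ hs₀
    exact h2 ▸ hR _ _ h1
  choose! C hC using hC
  obtain ⟨Y, hY, hYc⟩ := exists_palette C (c x) A e (fun s hs => (hC s hs).2.1)
    (fun s hs => (hC s hs).2.2.2)
  set W := A.filter fun s => C s ⊆ Y ∧ c x s ∉ Y with hW
  have hWA : W ⊆ A := Finset.filter_subset _ _
  have hWV : W ⊆ V := hWA.trans hA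
  have hYK : Disjoint Y K := by
    rw [Finset.disjoint_left]
    intro z hz hzK
    obtain ⟨s, hs, hzs⟩ := Finset.mem_biUnion.mp (hY hz)
    exact Finset.disjoint_left.mp (hC s hs).2.2.1 hzs hzK
  have hlen : ∀ q D, RP c W q D → D ⊆ Y → D.card ≤ t := by
    intro q D hD hDY
    obtain ⟨q₀, hq₀⟩ := hD.toRS
    have hq₀W := hq₀.mem
    have hg : c x q₀ ∉ Y := (Finset.mem_filter.mp hq₀W).2.2
    have h1 : RP c V x (K.erase (c x q₀)) := by
      refine hH.2 _ (fun y hy => Finset.mem_erase.mpr ⟨?_, hH.1 hy⟩) (Finset.erase_subset _ _)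
      rintro rfl
      exact hAF q₀ (hWA hq₀W) hy
    have h2 := RP.step h1 (hWV hq₀W) (hxA q₀ (hWA hq₀W)) (Finset.notMem_erase _ _)
    have h3 : Disjoint D (insert (c x q₀) (K.erase (c x q₀))) := by
      rw [Finset.disjoint_insert_right]
      refine ⟨fun h => hg (hDY h), ?_⟩
      exact (hYK.mono_left hDY).mono_right (Finset.erase_subset _ _)
    obtain ⟨z, hz⟩ := hq₀.join hWV _ h2 h3
    have h4 := hR _ _ hz
    rw [Finset.card_union_of_disjoint h3.symm,
      Finset.card_insert_of_notMem (Finset.notMem_erase _ _)] at h4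
    have h5 := Finset.pred_card_le_card_erase (s := K) (a := c x q₀)
    omega
  obtain ⟨T, hTW, hTc, hTY⟩ := remove_colours (hL.mono hWV) Y hlen
  have hrk : Rk c T (R - e) := by
    intro y D hD
    obtain ⟨s, hs⟩ := hD.toRS
    have hsT := hs.mem
    have hsW := hTW hsT
    have h1 := (hC s (hWA hsW)).1
    have h2 : C s ⊆ Y := (Finset.mem_filter.mp hsW).2.1
    have h3 : Disjoint D (C s) := by
      rw [Finset.disjoint_right]
      intro γ hγ
      exact hD.notMem_of_free fun u hu v hv huv h => hTY u hu v hv huv (h ▸ h2 hγ)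
    obtain ⟨z, hz⟩ := hs.join (hTW.trans hWV) _ h1 h3
    have h4 := hR _ _ hz
    rw [Finset.card_union_of_disjoint h3.symm, (hC s (hWA hsW)).2.1] at h4
    omega
  have h1 := hM T (hTW.trans hWV) (R - e) (Nat.sub_le _ _) hrk
  rw [Nat.sub_sub_self heR] at h1
  calc A.card * 3 ^ e ≤ 2 ^ (e + 1) * W.card * 3 ^ e := Nat.mul_le_mul_right _ hYc
    _ ≤ 2 ^ (e + 1) * ((t + 1) ^ 2 * (3 ^ (2 * t) * T.card)) * 3 ^ e :=
        Nat.mul_le_mul_right _ (Nat.mul_le_mul_left _ hTc)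
    _ = 2 ^ (e + 1) * ((t + 1) ^ 2 * (3 ^ (2 * t) * (T.card * 3 ^ e))) := by ring
    _ ≤ _ := by
        refine Nat.mul_le_mul_left _ (Nat.mul_le_mul_left _ (Nat.mul_le_mul_left _ h1))

end FlashRainbow.CF
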