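import Pool.Agent.Work.MP_54723a_co.CF.CoreCore

/-!
# Constant factor: hubs with fixed starts and route families  (helper96)

A hub `x` is described by a list of stages (latest stage first). A stage is a set `E` of rich
colours together with a family `F` of routes (sets of colours). An admissible palette consists of
one route of every stage and any subset of every `E`, all disjoint. Every admissible palette is the
palette of a rainbow path into `x` (fixed starts: the starts do not depend on the subset of `E`).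
Source: notes / messages of helper20 (fixed starts), helper18 (stage lemma), helper96 (coherence
is automatic).
-/

set_option autoImplicit false

namespace FlashRainbow.CF

open Classical

variable {c : ℕ → ℕ → ℕ} {V T W U X Θ : Finset ℕ} {l R r C p q d e lam B t n : ℕ}
  {lev : ℕ → ℕ → ℕ}

/-- a stage: rich colours and routes -/
abbrev Stg := Finset ℕ × Finset (Finset ℕ)

/-- admissible palettes -/
inductive Pal : List Stg → Finset ℕ → Prop
  | nil : Pal [] ∅
  | cons {L : List Stg} {E : Finset ℕ} {F : Finset (Finset ℕ)} {D ρ E' : Finset ℕ} :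
      Pal L D → ρ ∈ F → E' ⊆ E → Disjoint ρ D → Disjoint E' D → Disjoint E' ρ →
      Pal ((E, F) :: L) (D ∪ (ρ ∪ E'))

/-- the rich colours of all stages -/
def Kol : List Stg → Finset ℕ
  | [] => ∅
  | (E, _) :: L => Kol L ∪ E

/-- `x` is a hub with the stages `L` -/
def IsHub (c : ℕ → ℕ → ℕ) (V : Finset ℕ) (L : List Stg) (x : ℕ) : Prop :=
  ∀ D, Pal L D → RP c V x D

theorem IsHub.nil {x : ℕ} (hx : x ∈ V) : IsHub c V [] x := by
  intro D hD
  cases hD
  exact RP.single hx

theorem rp_trans {x y : ℕ} {D D' : Finset ℕ} (h : RP c V x D) (h' : RQ c V x y D')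
    (hd : Disjoint D' D) : RP c V y (D ∪ D') := by
  induction h' with
  | single _ => simpa using h
  | @step y z D' h1 hz hlt hc ih =>
    rw [Finset.disjoint_insert_left] at hd
    rw [Finset.union_insert]
    refine RP.step (ih hd.2) hz hlt ?_
    rw [Finset.mem_union, not_or]
    exact ⟨hd.1, hc⟩

/-- The step: all hubs `y` of `H` have the same stages `L`; every route starts at some hub and
continues to `x` with any subset of `E`. -/
theorem IsHub.cons {L : List Stg} {H : Finset ℕ} {E : Finset ℕ} {F : Finset (Finset ℕ)} {x : ℕ}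
    (hH : ∀ y ∈ H, IsHub c V L y)
    (hF : ∀ ρ ∈ F, ∃ y ∈ H, ∀ E' ⊆ E, Disjoint E' ρ → RQ c V y x (ρ ∪ E')) :
    IsHub c V ((E, F) :: L) x := by
  intro D hD
  cases hD with
  | @cons _ _ _ D₀ ρ E' h0 hρ hE' h1 h2 h3 =>
    obtain ⟨y, hy, hq⟩ := hF ρ hρ
    refine rp_trans (hH y hy D₀ h0) (hq E' hE' h3) ?_
    rw [Finset.disjoint_union_left]
    exact ⟨h1, h2⟩

/-- enough disjoint routes: at every stage more disjoint routes (with at most `q` colours each) than
colours used at later stages -/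
def Rich (q : ℕ) : ℕ → List Stg → Prop
  | _, [] => True
  | n, (_, F) :: L => (∃ F' ⊆ F, n < F'.card ∧ (∀ ρ ∈ F', ρ.card ≤ q) ∧
      ∀ ρ ∈ F', ∀ ρ' ∈ F', ρ ≠ ρ' → Disjoint ρ ρ') ∧ Rich q (n + q) L

/-- among more than `n` disjoint sets one misses a given set of `n` colours -/
theorem exists_disjoint_route {F' : Finset (Finset ℕ)} {Y : Finset ℕ} (hY : Y.card ≤ n)
    (hn : n < F'.card) (hd : ∀ ρ ∈ F', ∀ ρ' ∈ F', ρ ≠ ρ' → Disjoint ρ ρ') :
    ∃ ρ ∈ F', Disjoint ρ Y := by
  by_contra hcon
  push Not at hcon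
  have h1 : ∀ ρ ∈ F', ∃ y ∈ Y, y ∈ ρ := by
    intro ρ hρ
    obtain ⟨y, h1, h2⟩ := Finset.not_disjoint_iff.mp (hcon ρ hρ)
    exact ⟨y, h2, h1⟩
  choose! f hf using h1
  have h2 : F'.card ≤ Y.card := by
    refine Finset.card_le_card_of_injOn f (fun ρ hρ => (hf ρ hρ).1) ?_
    intro ρ hρ ρ' hρ' he
    by_contra hne
    have h3 := hd ρ hρ ρ' hρ' hne
    refine Finset.disjoint_left.mp h3 (hf ρ hρ).2 ?_
    have h4 : f ρ = f ρ' := he
    rw [h4]
    exact (hf ρ' hρ').2
  omega

/-- greedy selection, latest stage first -/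
theorem Rich.exists_pal : ∀ (L : List Stg) (n : ℕ) (Y : Finset ℕ), Rich q n L → Y.card ≤ n →
    ∃ D, Pal L D ∧ Disjoint D Y ∧ Kol L \ Y ⊆ D := by
  intro L
  induction L with
  | nil =>
    intro n Y _ _
    refine ⟨∅, Pal.nil, Finset.disjoint_empty_left _, ?_⟩
    simp [Kol]
  | cons s L ih =>
    intro n Y h hY
    obtain ⟨E, F⟩ := s
    obtain ⟨⟨F', hF'F, hn, hq, hd⟩, hL⟩ := h
    obtain ⟨ρ, hρ, hρY⟩ := exists_disjoint_route hY hn hd
    obtain ⟨D₀, h1, h2, h3⟩ := ih (n + q) (Y ∪ ρ) hL (by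
      have := Finset.card_union_le Y ρ
      have := hq ρ hρ
      omega)
    rw [Finset.disjoint_union_right] at h2
    refine ⟨D₀ ∪ (ρ ∪ (E \ (D₀ ∪ (ρ ∪ Y)))), Pal.cons h1 (hF'F hρ) Finset.sdiff_subset
      h2.2.symm ?_ ?_, ?_, ?_⟩
    · rw [Finset.disjoint_left]
      intro y hy hy'
      exact (Finset.mem_sdiff.mp hy).2 (Finset.mem_union_left _ hy')
    · rw [Finset.disjoint_left]
      intro y hy hy'
      exact (Finset.mem_sdiff.mp hy).2 (Finset.mem_union_right _ (Finset.mem_union_left _ hy'))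
    · rw [Finset.disjoint_union_left, Finset.disjoint_union_left]
      refine ⟨h2.1, hρY, ?_⟩
      rw [Finset.disjoint_left]
      intro y hy hy'
      exact (Finset.mem_sdiff.mp hy).2 (Finset.mem_union_right _ (Finset.mem_union_right _ hy'))
    · intro y hy
      obtain ⟨hy1, hy2⟩ := Finset.mem_sdiff.mp hy
      by_cases hD : y ∈ D₀
      · exact Finset.mem_union_left _ hD
      by_cases hr : y ∈ ρ
      · exact Finset.mem_union_right _ (Finset.mem_union_left _ hr)
      rcases Finset.mem_union.mp hy1 with h4 | h4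
      · refine Finset.mem_union_left _ (h3 (Finset.mem_sdiff.mpr ⟨h4, ?_⟩))
        rw [Finset.mem_union, not_or]
        exact ⟨hy2, hr⟩
      · refine Finset.mem_union_right _ (Finset.mem_union_right _
          (Finset.mem_sdiff.mpr ⟨h4, ?_⟩))
        rw [Finset.mem_union, Finset.mem_union, not_or, not_or]
        exact ⟨hD, hr, hy2⟩

/-- **Coherence is automatic**: a palette which contains all rich colours but `y` is coherent. -/
theorem freeP_of_pal (hR : Rk c V R) {L : List Stg} {x y : ℕ} (hx : IsHub c V L x)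
    (ht : R ≤ (Kol L).card + t) {D : Finset ℕ} (hD : Pal L D) (hy : y ∉ D)
    (hK : Kol L \ {y} ⊆ D) : FreeP c V R (t + 1) (Kol L) x y := by
  have h1 := hx D hD
  have h2 := hR _ _ h1
  have h3 : (Kol L).card ≤ (Kol L \ {y}).card + 1 := by
    have := Finset.le_card_sdiff {y} (Kol L)
    rw [Finset.card_singleton] at this
    omega
  have h4 := Finset.card_le_card hK
  refine ⟨D, h1, by omega, hy, ?_⟩
  have h5 : (D \ Kol L).card + (Kol L \ {y}).card ≤ D.card := by
    rw [← Finset.card_union_of_disjoint (Finset.disjoint_left.mpr fun z hz hz' =>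
      (Finset.mem_sdiff.mp hz).2 (Finset.mem_sdiff.mp hz').1)]
    refine Finset.card_le_card ?_
    intro z hz
    rcases Finset.mem_union.mp hz with h | h
    · exact (Finset.mem_sdiff.mp h).1
    · exact hK h
  omega

/-- **One hub whose colours outside `Γ` can be avoided**: `Γ` small and light bounds `V`. -/
theorem hub_core (hL : Lev c V 3 lev) (hR : Rk c V R) {L : List Stg} {x : ℕ}
    (hx : IsHub c V L x) (hKR : (Kol L).card ≤ R) (ht : R ≤ (Kol L).card + t) (Γ : Finset ℕ)
    (hΓ : ∀ y, y ∉ Γ → ∃ D, Pal L D ∧ y ∉ D ∧ Kol L \ {y} ⊆ D)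
    (hB : ∀ g ∈ Γ, (V.filter fun v => x < v ∧ c x v = g).card ≤ B) :
    (V.filter fun v => x < v).card ≤ KA (t + 1) * 3 ^ R + Γ.card * B := by
  have h1 := core_up (q := 1) (C := t + 1) (a := x) hL hR (fun _ => Kol L) (fun _ _ => hKR) Γ (by
    intro y hy
    by_contra hcon
    obtain ⟨D, h1, h2, h3⟩ := hΓ y hcon
    exact hy 0 (by omega) (freeP_of_pal hR hx ht h1 h2 h3)) hB
  rwa [Nat.one_mul] at h1

/-- **A hub with enough disjoint routes bounds the number of later points.** -/
theorem hub_rich (hL : Lev c V 3 lev) (hR : Rk c V R) {L : List Stg} {x : ℕ}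
    (hx : IsHub c V L x) (hrich : Rich q 1 L) (ht : R ≤ (Kol L).card + t) :
    (V.filter fun v => x < v).card ≤ KA (t + 1) * 3 ^ R := by
  have hKR : (Kol L).card ≤ R := by
    obtain ⟨D, h1, -, h3⟩ := hrich.exists_pal L 1 ∅ (by simp)
    rw [Finset.sdiff_empty] at h3
    exact (Finset.card_le_card h3).trans (hR _ _ (hx D h1))
  have h1 := hub_core (B := 0) hL hR hx hKR ht ∅ (by
    intro y _
    obtain ⟨D, h1, h2, h3⟩ := hrich.exists_pal L 1 {y} (by simp)
    exact ⟨D, h1, fun h => Finset.disjoint_left.mp h2 h (Finset.mem_singleton_self y), h3⟩)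
    (by simp)
  simpa using h1

/-- final form: a rich hub in the first half of `V` -/
theorem rich_hub_bound (hL : Lev c V 3 lev) (hR : Rk c V R) {L : List Stg} {x : ℕ}
    (hx : IsHub c V L x) (hrich : Rich q 1 L) (ht : R ≤ (Kol L).card + t)
    (hpos : V.card ≤ 2 * (V.filter fun v => x < v).card) :
    V.card ≤ 2 * (KA (t + 1) * 3 ^ R) := by
  have := hub_rich hL hR hx hrich ht
  omega

end FlashRainbow.CF
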