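import Pool.Agent.Work.MP_54723a_co.CF.PiTrick
import Pool.Agent.Work.MP_54723a_co.CF.NoFar
import Pool.Agent.Work.MP_54723a_co.CF.HubNext
import Pool.Agent.Work.MP_54723a_co.CF.Loop
import Pool.Agent.Work.MP_54723a_co.CF.NumRich

/-!
# Constant factor, measure route: one stage  (helper87)

From a hub `x` and a thick part `Z₀` of the zone behind it to the next hub in `Z₀`.  Pieces:
`pi_select`, `pi_one`, `pi_two`, `pi_three` (helper10), `far_free` (helper74), `hub_next`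
(helper75), `rich_num` (helper64).
-/

set_option autoImplicit false

namespace FlashRainbow.CF.S87

open Classical FlashRainbow FlashRainbow.CF

variable {c : ℕ → ℕ → ℕ} {V : Finset ℕ} {R M : ℕ} {lev : ℕ → ℕ → ℕ}

/-- the colours which are heavy for `v` on `Y` -/
noncomputable def Hv (c : ℕ → ℕ → ℕ) (Y : Finset ℕ) (e v : ℕ) : Finset ℕ :=
  (Y.image (c v)).filter fun g => Y.card < e * (Y.filter fun w => c v w = g).card

theorem hv_card (c : ℕ → ℕ → ℕ) (Y : Finset ℕ) (e v : ℕ) : (Hv c Y e v).card ≤ e := by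
  rcases Y.eq_empty_or_nonempty with rfl | hY
  · simp [Hv]
  have h1 : (Hv c Y e v).card * Y.card ≤ e * Y.card := by
    calc (Hv c Y e v).card * Y.card = ∑ g ∈ Hv c Y e v, Y.card := by
          rw [Finset.sum_const, smul_eq_mul]
      _ ≤ ∑ g ∈ Hv c Y e v, e * (Y.filter fun w => c v w = g).card :=
          Finset.sum_le_sum fun g hg => (Finset.mem_filter.mp hg).2.le
      _ = e * ∑ g ∈ Hv c Y e v, (Y.filter fun w => c v w = g).card := by rw [Finset.mul_sum]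
      _ ≤ e * ∑ g ∈ Y.image (c v), (Y.filter fun w => c v w = g).card :=
          Nat.mul_le_mul_left _ (Finset.sum_le_sum_of_subset (Finset.filter_subset _ _))
      _ = e * Y.card := by rw [← Finset.card_eq_sum_card_image]
  exact Nat.le_of_mul_le_mul_right h1 (Finset.card_pos.mpr hY)

theorem light_of_notMem {Y : Finset ℕ} {e v g : ℕ} (h : g ∉ Hv c Y e v) :
    e * (Y.filter fun w => c v w = g).card ≤ Y.card := by
  by_cases h1 : g ∈ Y.image (c v)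
  · by_contra h2
    exact h (Finset.mem_filter.mpr ⟨h1, by omega⟩)
  · have h2 : (Y.filter fun w => c v w = g) = ∅ := by
      rw [Finset.filter_eq_empty_iff]
      intro w hw he
      exact h1 (Finset.mem_image.mpr ⟨w, hw, he⟩)
    rw [h2]
    simp

/-- the mass of the palette colours at the new hub -/
theorem mass_le {Y F Φ : Finset ℕ} {d v g : ℕ} (hd : 1 ≤ d) (hΦ : Φ.card ≤ 3)
    (hF : 4 * d * (Y.filter fun w => c v w ∈ F).card ≤ Y.card) (hN : NDom c d v Y)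
    (hg : ∀ φ ∈ Φ, φ ≠ g → φ ∉ Hv c Y (16 * d) v) :
    2 * d * (Y.filter fun w => c v w ∈ F ∪ Φ).card ≤ (2 * d - 1) * Y.card := by
  set y := Y.card with hy
  set A := (Y.filter fun w => c v w ∈ F).card with hA
  set B := (Y.filter fun w => c v w = g).card with hB
  set S := ((Φ.erase g).biUnion fun φ => Y.filter fun w => c v w = φ).card with hS
  have hsub : (Y.filter fun w => c v w ∈ F ∪ Φ) ⊆ (Y.filter fun w => c v w ∈ F) ∪
      ((Y.filter fun w => c v w = g) ∪ (Φ.erase g).biUnion fun φ => Y.filter fun w => c v w = φ) := by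
    intro w hw
    obtain ⟨h1, h2⟩ := Finset.mem_filter.mp hw
    rcases Finset.mem_union.mp h2 with h3 | h3
    · exact Finset.mem_union_left _ (Finset.mem_filter.mpr ⟨h1, h3⟩)
    · by_cases h4 : c v w = g
      · exact Finset.mem_union_right _ (Finset.mem_union_left _ (Finset.mem_filter.mpr ⟨h1, h4⟩))
      · exact Finset.mem_union_right _ (Finset.mem_union_right _ (Finset.mem_biUnion.mpr
          ⟨c v w, Finset.mem_erase.mpr ⟨h4, h3⟩, Finset.mem_filter.mpr ⟨h1, rfl⟩⟩))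
  have h1 : (Y.filter fun w => c v w ∈ F ∪ Φ).card ≤ A + (B + S) :=
    (Finset.card_le_card hsub).trans ((Finset.card_union_le _ _).trans
      (Nat.add_le_add_left (Finset.card_union_le _ _) _))
  have h2 : 16 * d * S ≤ 3 * y := by
    have h3 : S ≤ ∑ φ ∈ Φ.erase g, (Y.filter fun w => c v w = φ).card := Finset.card_biUnion_le
    calc 16 * d * S ≤ 16 * d * ∑ φ ∈ Φ.erase g, (Y.filter fun w => c v w = φ).card :=
          Nat.mul_le_mul_left _ h3
      _ = ∑ φ ∈ Φ.erase g, 16 * d * (Y.filter fun w => c v w = φ).card := by rw [Finset.mul_sum]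
      _ ≤ ∑ φ ∈ Φ.erase g, y := by
          refine Finset.sum_le_sum fun φ hφ => ?_
          obtain ⟨h4, h5⟩ := Finset.mem_erase.mp hφ
          exact light_of_notMem (hg φ h5 h4)
      _ = (Φ.erase g).card * y := by rw [Finset.sum_const, smul_eq_mul]
      _ ≤ 3 * y := Nat.mul_le_mul_right _ ((Finset.card_erase_le).trans hΦ)
  have h3 : d * B ≤ (d - 1) * y := hN g
  obtain ⟨d', rfl⟩ : ∃ d', d = d' + 1 := ⟨d - 1, by omega⟩
  have h4 : 2 * (d' + 1) - 1 = 2 * d' + 1 := by omega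
  have h5 : d' + 1 - 1 = d' := by omega
  rw [h5] at h3
  rw [h4]
  have h6 : 2 * (d' + 1) * (Y.filter fun w => c v w ∈ F ∪ Φ).card ≤ 2 * (d' + 1) * (A + (B + S)) :=
    Nat.mul_le_mul_left _ h1
  refine h6.trans ?_
  nlinarith [h2, h3, hF]

theorem c_le {t τ : ℕ} (hτ : 1 ≤ τ) :
    bG t (33 * τ) + (8 * t ^ 2 + 1) * (33 * τ) ≤ 300 * (t + 1) ^ 2 * τ := by
  unfold bG
  have h1 : 1 + (t + 1) ≤ (1 + (t + 1)) * τ := Nat.le_mul_of_pos_right _ hτ
  have h2 : 33 * (t + 1) * (t + 2) + 33 * (8 * t ^ 2 + 1) + (1 + (t + 1)) ≤ 300 * (t + 1) ^ 2 := by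
    nlinarith [Nat.zero_le t, sq_nonneg t]
  calc 1 + (t + 1) * ((t + 2) * (33 * τ) + 1) + (8 * t ^ 2 + 1) * (33 * τ)
      = (33 * (t + 1) * (t + 2) + 33 * (8 * t ^ 2 + 1)) * τ + (1 + (t + 1)) := by ring
    _ ≤ (33 * (t + 1) * (t + 2) + 33 * (8 * t ^ 2 + 1)) * τ + (1 + (t + 1)) * τ :=
        Nat.add_le_add_left h1 _
    _ = (33 * (t + 1) * (t + 2) + 33 * (8 * t ^ 2 + 1) + (1 + (t + 1))) * τ := by ring
    _ ≤ _ := Nat.mul_le_mul_right _ h2

theorem num {t a q M Tc k τ L : ℕ} (hMT : M ≤ 2 ^ a * Tc) (hM0 : 0 < M)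
    (hq : q = a + 2 * L + 13) (hL1 : t + 1 ≤ 2 ^ (L + 1)) (hat : a + 2 * L + 4 < t)
    (hkM : 2 ^ q * 3 ^ k ≤ M) (hτ : τ = M / (3 ^ k * 2 ^ q) + 1)
    (hff : Tc * 729 ^ t ≤ 2 * (t + 1) ^ 2 * 256 ^ t * M +
      729 ^ t * (3 ^ k * (bG t (33 * τ) + (8 * t ^ 2 + 1) * (33 * τ)))) : False := by
  have hTc : 0 < Tc := by
    rcases Nat.eq_zero_or_pos Tc with h | h
    · rw [h] at hMT
      omega
    · exact h
  have h1 := c_le (t := t) (τ := τ) (by rw [hτ]; exact Nat.succ_pos _)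
  have h2 : 2 ^ q * (3 ^ k * τ) ≤ 2 * M := by
    have h3 := Nat.mul_div_le M (3 ^ k * 2 ^ q)
    calc 2 ^ q * (3 ^ k * τ) = 3 ^ k * 2 ^ q * (M / (3 ^ k * 2 ^ q)) + 2 ^ q * 3 ^ k := by
          rw [hτ]; ring
      _ ≤ M + M := Nat.add_le_add h3 hkM
      _ = 2 * M := by ring
  have h4 : (t + 1) ^ 2 ≤ 2 ^ (2 * L + 2) := by
    calc (t + 1) ^ 2 ≤ (2 ^ (L + 1)) ^ 2 := Nat.pow_le_pow_left hL1 2
      _ = 2 ^ (2 * L + 2) := by rw [← pow_mul]; congr 1; ring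
  have h5 : 2 ^ t * 256 ^ t ≤ 729 ^ t := by
    rw [← mul_pow]
    exact Nat.pow_le_pow_left (by norm_num) t
  set Q := 2 ^ q * Tc * 729 ^ t with hQ
  have hQ0 : 0 < Q := by positivity
  have h6 : 4 * (2 ^ q * (2 * (t + 1) ^ 2 * 256 ^ t * M)) ≤ Q := by
    calc 4 * (2 ^ q * (2 * (t + 1) ^ 2 * 256 ^ t * M))
        ≤ 4 * (2 ^ q * (2 * 2 ^ (2 * L + 2) * 256 ^ t * (2 ^ a * Tc))) := by gcongr
      _ = 2 ^ q * Tc * (2 ^ (a + 2 * L + 5) * 256 ^ t) := by
          rw [show a + 2 * L + 5 = 2 + (1 + ((2 * L + 2) + a)) by ring, pow_add 2 2, pow_add 2 1,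
            pow_add 2 (2 * L + 2)]
          ring
      _ ≤ 2 ^ q * Tc * (2 ^ t * 256 ^ t) := by
          refine Nat.mul_le_mul_left _ (Nat.mul_le_mul_right _ ?_)
          exact Nat.pow_le_pow_right (by norm_num) (by omega)
      _ ≤ 2 ^ q * Tc * 729 ^ t := Nat.mul_le_mul_left _ h5
  have h7 : 3 * (2 ^ q * (729 ^ t * (3 ^ k * (bG t (33 * τ) + (8 * t ^ 2 + 1) * (33 * τ))))) ≤ Q := by
    calc 3 * (2 ^ q * (729 ^ t * (3 ^ k * (bG t (33 * τ) + (8 * t ^ 2 + 1) * (33 * τ)))))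
        ≤ 3 * (2 ^ q * (729 ^ t * (3 ^ k * (300 * (t + 1) ^ 2 * τ)))) := by gcongr
      _ = 900 * 729 ^ t * (t + 1) ^ 2 * (2 ^ q * (3 ^ k * τ)) := by ring
      _ ≤ 900 * 729 ^ t * 2 ^ (2 * L + 2) * (2 * (2 ^ a * Tc)) := by
          exact Nat.mul_le_mul (Nat.mul_le_mul_left _ h4) (h2.trans (Nat.mul_le_mul_left _ hMT))
      _ = 1800 * (2 ^ (a + 2 * L + 2) * Tc * 729 ^ t) := by
          rw [show a + 2 * L + 2 = a + (2 * L + 2) by ring, pow_add 2 a]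
          ring
      _ ≤ 2 ^ 11 * (2 ^ (a + 2 * L + 2) * Tc * 729 ^ t) := Nat.mul_le_mul_right _ (by norm_num)
      _ = Q := by
          rw [hQ, hq, show a + 2 * L + 13 = 11 + (a + 2 * L + 2) by ring, pow_add 2 11]
          ring
  have h8 : Q ≤ 2 ^ q * (2 * (t + 1) ^ 2 * 256 ^ t * M) +
      2 ^ q * (729 ^ t * (3 ^ k * (bG t (33 * τ) + (8 * t ^ 2 + 1) * (33 * τ)))) := by
    calc Q = 2 ^ q * (Tc * 729 ^ t) := by rw [hQ]; ring
      _ ≤ _ := by
          rw [← Nat.mul_add]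
          exact Nat.mul_le_mul_left _ hff
  omega

/-- **ONE STAGE** -/
theorem stage (hL : Lev c V 3 lev) (hR : Rk c V R)
    (hM : ∀ W ⊆ V, ∀ r ≤ R, Rk c W r → W.card * 3 ^ (R - r) ≤ M) (h3 : 3 ^ R ≤ M)
    {d b t m : ℕ} (hd : 1 ≤ d) (ht0 : 16384 ≤ t) (htb : 200 * (b + 16 * d + 14) + 8000 ≤ t)
    (hm3 : 3 ≤ m) (hm : 20 * m ≤ t) : StageP c V R M d t (t - m) b := by
  intro x K F Z0 Y hH htK hZ0 hY hxZ hZY hxF hMZ hnd hF4
  obtain ⟨L, hLdef⟩ : ∃ L, L = Nat.log 2 (t + 1) := ⟨_, rfl⟩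
  have hLs := log_small ht0
  rw [← hLdef] at hLs
  have hL1 : t + 1 ≤ 2 ^ (L + 1) := by
    rw [hLdef]
    exact (Nat.lt_pow_succ_log_self (by norm_num) _).le
  set e := 16 * d with he
  set a := b + e + 1 with ha
  obtain ⟨q, hq⟩ : ∃ q, q = a + 2 * L + 13 := ⟨_, rfl⟩
  obtain ⟨τ, hτ⟩ : ∃ τ, τ = M / (3 ^ K.card * 2 ^ q) + 1 := ⟨_, rfl⟩
  have hM0 : 0 < M := lt_of_lt_of_le (by positivity) h3
  have hxV : x ∈ V := hH.mem
  have hq3 : 133 * (q + 2) + 4000 ≤ t := by omega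
  have h2q : 2 ^ (q + 3) * 3 ^ K.card ≤ M := by
    calc 2 ^ (q + 3) * 3 ^ K.card ≤ 2 ^ t * 3 ^ K.card :=
          Nat.mul_le_mul_right _ (Nat.pow_le_pow_right (by norm_num) (by omega))
      _ ≤ 3 ^ t * 3 ^ K.card := Nat.mul_le_mul_right _ (Nat.pow_le_pow_left (by norm_num) t)
      _ = 3 ^ R := by rw [← pow_add, htK]; congr 1; ring
      _ ≤ M := h3
  have hkM : 2 ^ q * 3 ^ K.card ≤ M := by
    refine le_trans (Nat.mul_le_mul_right _ (Nat.pow_le_pow_right (by norm_num) (by omega))) h2q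
  obtain ⟨T, hTZ, hTc, hsel⟩ := pi_select (q := e) c x Z0 (Hv c Y e) fun v _ => hv_card c Y e v
  have hMT : M ≤ 2 ^ a * T.card := by
    calc M ≤ 2 ^ b * Z0.card := hMZ
      _ ≤ 2 ^ b * (2 ^ (e + 1) * T.card) := Nat.mul_le_mul_left _ hTc
      _ = 2 ^ a * T.card := by rw [ha, show b + e + 1 = b + (e + 1) by ring, pow_add 2 b]; ring
  by_cases hJ : HasJunH c V Z0 K F x τ (Hv c Y e)
  · obtain ⟨Φ, X, hΦ3, hΦF, hXZ, hJun, hXf, hXc, hg, harc⟩ := hJ
    obtain ⟨s, hs1, hs2, hs3⟩ := rich_num (t := t) (q := q + 2) (m := m) ht0 hq3 hm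
    have hs2' : 16 * (t + 1) * 2 ^ q ≤ 3 ^ s :=
      le_trans (Nat.mul_le_mul_left _ (Nat.pow_le_pow_right (by norm_num) (by omega))) hs2
    have h8 : 8 ≤ X.card := by
      have h9 : 8 ≤ M / (3 ^ K.card * 2 ^ q) := by
        rw [Nat.le_div_iff_mul_le (by positivity)]
        refine le_trans (le_of_eq ?_) h2q
        rw [pow_add]
        ring
      refine h9.trans (le_trans ?_ hXc)
      rw [hτ]
      exact Nat.le_succ _
    have hsize : M ≤ 2 ^ q * (X.card * 3 ^ (R - t)) := by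
      have h9 : R - t = K.card := by omega
      rw [h9]
      have h10 : M < (3 ^ K.card * 2 ^ q) * (M / (3 ^ K.card * 2 ^ q) + 1) :=
        Nat.lt_mul_div_succ M (by positivity)
      calc M ≤ τ * (3 ^ K.card * 2 ^ q) := by rw [hτ, Nat.mul_comm]; exact h10.le
        _ ≤ X.card * (3 ^ K.card * 2 ^ q) := Nat.mul_le_mul_right _ hXc
        _ = 2 ^ q * (X.card * 3 ^ K.card) := by ring
    obtain ⟨x', hx'X, K', hH', hR'⟩ := hub_next (q := q) (s := s) (m := m) hL hR hM h3 hH htK hΦ3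
      hΦF hJun hXf h8 hsize (by omega) hs2' hm3 (by omega)
    obtain ⟨g, hg'⟩ := hg x' hx'X
    refine ⟨x', hXZ hx'X, K', F ∪ Φ, Φ, hH', hR', hΦ3, Finset.Subset.refl _, harc, ?_⟩
    exact mass_le hd hΦ3 (hF4 x' (hXZ hx'X)) (hnd x' (hXZ hx'X)) hg'
  · exfalso
    have hτ0 : 0 < τ := by
      rw [hτ]
      exact Nat.succ_pos _
    have hNJ : NoJun3 c T K F x (33 * τ) := by
      refine { one := ?_, two := ?_, three := ?_ }
      · intro l hl X hX hXK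
        have := pi_one hL hxV hZ0 hxZ hTZ hτ0 hJ l hl hX hXK
        omega
      · intro u hu φ hφ hne X hX hXK
        have := pi_two hL hxV hZ0 hxZ hTZ hτ0 hJ hxF hsel u hu φ hφ hne hX hXK
        omega
      · intro u hu s hs hus h1 h2 h4 h5 X hX hXK
        exact pi_three hL hxV hZ0 hxZ hTZ hτ0 hJ hxF hsel u s hu hs hus h1 h5 h2 h4 hX hXK
    have hff := far_free hL hR hM hH (by omega : R ≤ K.card + t) (hTZ.trans hZ0)
      (fun v hv => hxZ v (hTZ hv)) (fun v hv => hxF v (hTZ hv)) (by omega : 0 < 33 * τ) hNJ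
    exact num hMT hM0 hq hL1 (by omega) hkM hτ hff

/-- **the missing hypothesis `hS` of helper63's `main_of_stage`** -/
theorem hS (d : ℕ) (hd : 1 ≤ d) : ∀ (c : ℕ → ℕ → ℕ) (V : Finset ℕ) (R : ℕ) (lev : ℕ → ℕ → ℕ)
    (t b : ℕ), Lev c V 3 lev → Rk c V R → Ext c V R → 3 ^ R ≤ V.card → 16384 ≤ t → t ≤ R →
    200 * (b + (16 * d + 60)) ≤ t → StageP c V R V.card d t (t - t / 20) b := by
  intro c V R lev t b hL hR hE h3 ht0 _ htb
  exact stage hL hR hE h3 hd ht0 (by omega) (by omega) (by omega)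

end FlashRainbow.CF.S87
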