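import Pool.Agent.Work.MP_54723a_co.CF.PiTrick
import Pool.Agent.Work.MP_54723a_co.CF.NoFar
import Pool.Agent.Work.MP_54723a_co.CF.HubNext
import Pool.Agent.Work.MP_54723a_co.CF.Loop

/-!
# Constant factor, measure route: the stage  (helper96, insurance copy)
-/

set_option autoImplicit false

namespace FlashRainbow.CF

open Classical

variable {c : ℕ → ℕ → ℕ} {V Z Y F K T : Finset ℕ} {R M d x q t τ : ℕ} {lev : ℕ → ℕ → ℕ}

/-- the heavy colours of `v` on `Y` -/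
noncomputable def hvy (c : ℕ → ℕ → ℕ) (D : ℕ) (Y : Finset ℕ) (v : ℕ) : Finset ℕ :=
  (Y.image fun w => c v w).filter fun g => Y.card < D * (Y.filter fun w => c v w = g).card

theorem hvy_card (c : ℕ → ℕ → ℕ) (D : ℕ) (Y : Finset ℕ) (v : ℕ) : (hvy c D Y v).card ≤ D := by
  have h1 : ∑ g ∈ hvy c D Y v, (Y.filter fun w => c v w = g).card ≤ Y.card := by
    rw [← Finset.card_biUnion]
    · refine Finset.card_le_card ?_
      intro w hw
      obtain ⟨g, _, hg⟩ := Finset.mem_biUnion.mp hw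
      exact (Finset.mem_filter.mp hg).1
    · intro a _ b _ hab
      rw [Function.onFun, Finset.disjoint_left]
      intro w hw hw'
      exact hab ((Finset.mem_filter.mp hw).2.symm.trans (Finset.mem_filter.mp hw').2)
  have h2 : (hvy c D Y v).card * (Y.card + 1) ≤ D * Y.card := by
    calc (hvy c D Y v).card * (Y.card + 1) = ∑ _g ∈ hvy c D Y v, (Y.card + 1) := by simp
      _ ≤ ∑ g ∈ hvy c D Y v, D * (Y.filter fun w => c v w = g).card :=
          Finset.sum_le_sum fun g hg => (Finset.mem_filter.mp hg).2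
      _ = D * ∑ g ∈ hvy c D Y v, (Y.filter fun w => c v w = g).card := by rw [Finset.mul_sum]
      _ ≤ D * Y.card := Nat.mul_le_mul_left _ h1
  have h3 : (hvy c D Y v).card * (Y.card + 1) ≤ D * (Y.card + 1) :=
    h2.trans (Nat.mul_le_mul_left _ (Nat.le_succ _))
  exact Nat.le_of_mul_le_mul_right h3 (Nat.succ_pos _)

theorem light_of_not_hvy {D v g : ℕ} (h : g ∉ hvy c D Y v) :
    D * (Y.filter fun w => c v w = g).card ≤ Y.card := by
  by_contra hcon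
  push Not at hcon
  refine h (Finset.mem_filter.mpr ⟨?_, hcon⟩)
  have hpos : 0 < (Y.filter fun w => c v w = g).card := by
    rcases Nat.eq_zero_or_pos (Y.filter fun w => c v w = g).card with h0 | h0
    · rw [h0] at hcon
      simp at hcon
    · exact h0
  obtain ⟨w, hw⟩ := Finset.card_pos.mp hpos
  obtain ⟨h1, h2⟩ := Finset.mem_filter.mp hw
  exact Finset.mem_image.mpr ⟨w, h1, h2⟩

/-- the mass of the new fixed colours -/
theorem mass_new {Φ : Finset ℕ} {v g : ℕ} (hd : 0 < d) (hΦ : Φ.card ≤ 3)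
    (hg : ∀ φ ∈ Φ, φ ≠ g → φ ∉ hvy c (16 * d) Y v) (hnd : NDom c d v Y)
    (hF : 4 * d * (Y.filter fun w => c v w ∈ F).card ≤ Y.card) :
    2 * d * (Y.filter fun w => c v w ∈ F ∪ Φ).card ≤ (2 * d - 1) * Y.card := by
  have h1 : (Y.filter fun w => c v w ∈ F ∪ Φ) ⊆ (Y.filter fun w => c v w ∈ F) ∪
      ((Y.filter fun w => c v w = g) ∪ (Φ.erase g).biUnion fun φ => Y.filter fun w => c v w = φ) := by
    intro w hw
    obtain ⟨h2, h3⟩ := Finset.mem_filter.mp hw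
    rcases Finset.mem_union.mp h3 with h4 | h4
    · exact Finset.mem_union_left _ (Finset.mem_filter.mpr ⟨h2, h4⟩)
    · refine Finset.mem_union_right _ ?_
      by_cases h5 : c v w = g
      · exact Finset.mem_union_left _ (Finset.mem_filter.mpr ⟨h2, h5⟩)
      · exact Finset.mem_union_right _ (Finset.mem_biUnion.mpr ⟨c v w,
          Finset.mem_erase.mpr ⟨h5, h4⟩, Finset.mem_filter.mpr ⟨h2, rfl⟩⟩)
  have h2 := (Finset.card_le_card h1).trans ((Finset.card_union_le _ _).trans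
    (Nat.add_le_add_left ((Finset.card_union_le _ _).trans
      (Nat.add_le_add_left Finset.card_biUnion_le _)) _))
  have h3 : 16 * d * ∑ φ ∈ Φ.erase g, (Y.filter fun w => c v w = φ).card ≤ 3 * Y.card := by
    rw [Finset.mul_sum]
    calc ∑ φ ∈ Φ.erase g, 16 * d * (Y.filter fun w => c v w = φ).card
        ≤ ∑ _φ ∈ Φ.erase g, Y.card := by
          refine Finset.sum_le_sum fun φ hφ => ?_
          obtain ⟨h4, h5⟩ := Finset.mem_erase.mp hφ
          exact light_of_not_hvy (hg φ h5 h4)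
      _ = (Φ.erase g).card * Y.card := by rw [Finset.sum_const, smul_eq_mul]
      _ ≤ 3 * Y.card := Nat.mul_le_mul_right _ ((Finset.card_erase_le).trans hΦ)
  have h4 := hnd g
  obtain ⟨a, ha⟩ : ∃ a, a = (Y.filter fun w => c v w ∈ F).card := ⟨_, rfl⟩
  obtain ⟨h, hh⟩ : ∃ h, h = (Y.filter fun w => c v w = g).card := ⟨_, rfl⟩
  obtain ⟨L, hL⟩ : ∃ L, L = ∑ φ ∈ Φ.erase g, (Y.filter fun w => c v w = φ).card := ⟨_, rfl⟩
  obtain ⟨n, hn⟩ : ∃ n, n = Y.card := ⟨_, rfl⟩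
  obtain ⟨s, hs⟩ : ∃ s, s = (Y.filter fun w => c v w ∈ F ∪ Φ).card := ⟨_, rfl⟩
  rw [← ha, ← hh, ← hL, ← hs] at h2
  rw [← hL, ← hn] at h3
  rw [← hh, ← hn] at h4
  rw [← ha, ← hn] at hF
  rw [← hs, ← hn]
  obtain ⟨d', rfl⟩ : ∃ d', d = d' + 1 := ⟨d - 1, by omega⟩
  rw [Nat.add_sub_cancel] at h4
  have h5 : 2 * (d' + 1) - 1 = 2 * d' + 1 := by omega
  rw [h5]
  have h6 : 16 * (d' + 1) * s ≤ 16 * (d' + 1) * (a + (h + L)) := Nat.mul_le_mul_left _ h2
  have h7 : 8 * (2 * (d' + 1) * s) ≤ 8 * ((2 * d' + 1) * n) := by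
    calc 8 * (2 * (d' + 1) * s) = 16 * (d' + 1) * s := by ring
      _ ≤ 16 * (d' + 1) * (a + (h + L)) := h6
      _ = 4 * (4 * (d' + 1) * a) + 16 * ((d' + 1) * h) + 16 * (d' + 1) * L := by ring
      _ ≤ 4 * n + 16 * (d' * n) + 3 * n :=
          Nat.add_le_add (Nat.add_le_add (Nat.mul_le_mul_left _ hF) (Nat.mul_le_mul_left _ h4)) h3
      _ ≤ 8 * ((2 * d' + 1) * n) := by nlinarith
  exact Nat.le_of_mul_le_mul_left h7 (by norm_num)

/-- a zone behind a hub without harmless junctions is small -/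
theorem noJunH_small {Hv : ℕ → Finset ℕ} (hL : Lev c V 3 lev) (hR : Rk c V R)
    (hM : ∀ W ⊆ V, ∀ r ≤ R, Rk c W r → W.card * 3 ^ (R - r) ≤ M)
    (hH : Hub c V x K F) (ht : R ≤ K.card + t) (hZV : Z ⊆ V)
    (hxZ : ∀ v ∈ Z, x < v) (hxF : ∀ v ∈ Z, c x v ∉ F) (hτ : 0 < τ)
    (hHv : ∀ v ∈ Z, (Hv v).card ≤ q) (hno : ¬ HasJunH c V Z K F x τ Hv) :
    ∃ z, Z.card ≤ 2 ^ (q + 1) * z ∧ z * 729 ^ t ≤ 2 * (t + 1) ^ 2 * 256 ^ t * M +
      729 ^ t * (3 ^ K.card * (bG t (33 * τ) + (8 * t ^ 2 + 1) * (33 * τ))) := by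
  obtain ⟨T, hT, hTc, hsel⟩ := pi_select c x Z Hv hHv
  refine ⟨T.card, hTc, ?_⟩
  refine far_free hL hR hM hH ht (hT.trans hZV) (fun v hv => hxZ v (hT hv))
    (fun v hv => hxF v (hT hv)) (by omega) ?_
  refine ⟨⟨?_, ?_⟩, ?_⟩
  · intro l hl X hX hXK
    have := pi_one hL hH.mem hZV hxZ hT hτ hno l hl hX hXK
    omega
  · intro u hu φ hφ hne X hX hXK
    have := pi_two hL hH.mem hZV hxZ hT hτ hno hxF hsel u hu φ hφ hne hX hXK
    omega
  · intro u hu s hs hus h1 h2 h3 h4 X hX hXK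
    exact pi_three hL hH.mem hZV hxZ hT hτ hno hxF hsel u s hu hs hus h1 h4 h2 h3 hX hXK

/-- the numbers of one stage -/
def StageNum (M R d t t' b : ℕ) : Prop :=
  ∀ z, M ≤ 2 ^ (b + (16 * d + 1)) * z → ∃ τ q s, 8 ≤ τ ∧ M ≤ 2 ^ q * (τ * 3 ^ (R - t)) ∧
    s + 4 ≤ t ∧ 16 * (t + 1) * 2 ^ q ≤ 3 ^ s ∧ 6 + 2 * (q + (48 * s + 91)) + 7 * (t - t') < t ∧
    2 * (t + 1) ^ 2 * 256 ^ t * M +
      729 ^ t * (3 ^ (R - t) * (bG t (33 * τ) + (8 * t ^ 2 + 1) * (33 * τ))) < z * 729 ^ t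

/-- **STAGE** -/
theorem stageP {t' b : ℕ} (hL : Lev c V 3 lev) (hR : Rk c V R)
    (hM : ∀ W ⊆ V, ∀ r ≤ R, Rk c W r → W.card * 3 ^ (R - r) ≤ M) (h3 : 3 ^ R ≤ M)
    (hd : 0 < d) (htt : t' + 3 ≤ t) (hnum : StageNum M R d t t' b) :
    StageP c V R M d t t' b := by
  intro x K F Z Y hH ht hZV hYV hxZ hZY hxF hMZ hnd hmass
  -- the selected part and the numbers
  by_contra hcon
  obtain ⟨T, hT, hTc, hsel⟩ := pi_select c x Z (hvy c (16 * d) Y) (q := 16 * d)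
    fun v _ => hvy_card c (16 * d) Y v
  have hMT : M ≤ 2 ^ (b + (16 * d + 1)) * T.card := by
    calc M ≤ 2 ^ b * Z.card := hMZ
      _ ≤ 2 ^ b * (2 ^ (16 * d + 1) * T.card) := Nat.mul_le_mul_left _ hTc
      _ = 2 ^ (b + (16 * d + 1)) * T.card := by rw [pow_add 2 b]; ring
  obtain ⟨τ, q, s, h8, hsize, hst, hs, hm, hfar⟩ := hnum T.card hMT
  have hjun : HasJunH c V Z K F x τ (hvy c (16 * d) Y) := by
    by_contra hno
    have hKt : K.card = R - t := by omega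
    have h1 := far_free (t := t) (τ := 33 * τ) hL hR hM hH ht.le (hT.trans hZV)
      (fun v hv => hxZ v (hT hv)) (fun v hv => hxF v (hT hv)) (by omega) (by
        refine ⟨⟨?_, ?_⟩, ?_⟩
        · intro l hl X hX hXK
          have := pi_one hL hH.mem hZV hxZ hT (by omega) hno l hl hX hXK
          omega
        · intro u hu φ hφ hne X hX hXK
          have := pi_two hL hH.mem hZV hxZ hT (by omega) hno hxF hsel u hu φ hφ hne hX hXK
          omega
        · intro u hu s hs hus h1 h2 h3 h4 X hX hXK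
          exact pi_three hL hH.mem hZV hxZ hT (by omega) hno hxF hsel u s hu hs hus h1 h4 h2 h3
            hX hXK)
    rw [hKt] at h1
    omega
  obtain ⟨Φ, X, g1, g2, g3, g4, g5, g6, g7, g8⟩ := hjun
  obtain ⟨x', hx', K', h4, h5⟩ := hub_next (q := q) (s := s) (m := t - t') hL hR hM h3 hH ht g1 g2
    g4 g5 (h8.trans g6) (hsize.trans (Nat.mul_le_mul_left _ (Nat.mul_le_mul_right _ g6))) hst hs
    (by omega) hm
  obtain ⟨g, hg⟩ := g7 x' hx'
  refine hcon ⟨x', g3 hx', K', F ∪ Φ, Φ, h4, ?_, g1, Finset.Subset.refl _, g8,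
    mass_new hd g1 hg (hnd x' (g3 hx')) (hmass x' (g3 hx'))⟩
  omega

end FlashRainbow.CF
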