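import Pool.Agent.Work.MP_54723a_co.CF.PiTrick
import Pool.Agent.Work.MP_54723a_co.CF.NoFar
import Pool.Agent.Work.MP_54723a_co.CF.HZones
import Pool.Agent.Work.MP_54723a_co.CF.ThinZone
import Pool.Agent.Work.MP_54723a_co.CF.NumRich
import Pool.Agent.Work.MP_54723a_co.CF.Loop

/-!
# Constant factor, measure route: one stage  (helper10)
-/

set_option autoImplicit false

namespace FlashRainbow.CF

open Classical

variable {c : ℕ → ℕ → ℕ} {V Z Y K F : Finset ℕ} {R M t t' a q b d e x : ℕ} {Hv : ℕ → Finset ℕ}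
  {lev : ℕ → ℕ → ℕ}

/-- **A junction exists** -/
theorem exists_junH (hL : Lev c V 3 lev) (hR : Rk c V R)
    (hM : ∀ W ⊆ V, ∀ r ≤ R, Rk c W r → W.card * 3 ^ (R - r) ≤ M)
    (hH : Hub c V x K F) (ht : K.card + t = R) (hZV : Z ⊆ V)
    (hxZ : ∀ v ∈ Z, x < v) (hxF : ∀ v ∈ Z, c x v ∉ F) (hHv : ∀ v ∈ Z, (Hv v).card ≤ q)
    (hMZ : M ≤ 2 ^ a * Z.card) (hM3 : 3 ^ R ≤ M)
    (h1 : 4 * (t + 1) ^ 2 * 2 ^ (a + q + 1) * 256 ^ t < 729 ^ t)
    (h2 : 600 * (t + 1) ^ 2 * 2 ^ (a + q + 1) ≤ 2 ^ b) (h3 : b ≤ t) :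
    ∃ τ, 0 < τ ∧ M ≤ 2 ^ (b + 1) * (3 ^ K.card * τ) ∧ HasJunH c V Z K F x τ Hv := by
  have hMpos : 0 < M := lt_of_lt_of_le (by positivity) hM3
  obtain ⟨T, hT, hTc, hsel⟩ := pi_select c x Z Hv hHv
  have hMT : M ≤ 2 ^ (a + q + 1) * T.card := by
    calc M ≤ 2 ^ a * Z.card := hMZ
      _ ≤ 2 ^ a * (2 ^ (q + 1) * T.card) := Nat.mul_le_mul_left _ hTc
      _ = 2 ^ (a + q + 1) * T.card := by rw [show a + q + 1 = a + (q + 1) by ring, pow_add]; ring
  have hTpos : 0 < T.card := by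
    rcases Nat.eq_zero_or_pos T.card with h | h
    · rw [h] at hMT
      omega
    · exact h
  set τ := M / (3 ^ K.card * 2 ^ b) with hτdef
  have hDpos : 0 < 3 ^ K.card * 2 ^ b := by positivity
  have hbig : 3 ^ K.card * 2 ^ b ≤ M := by
    calc 3 ^ K.card * 2 ^ b ≤ 3 ^ K.card * 3 ^ t := by
          refine Nat.mul_le_mul_left _ ?_
          calc 2 ^ b ≤ 3 ^ b := Nat.pow_le_pow_left (by norm_num) _
            _ ≤ 3 ^ t := Nat.pow_le_pow_right (by norm_num) h3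
      _ = 3 ^ R := by rw [← pow_add, ht]
      _ ≤ M := hM3
  have hτ : 0 < τ := Nat.div_pos hbig hDpos
  have hτM : 3 ^ K.card * 2 ^ b * τ ≤ M := Nat.mul_div_le _ _
  have hMτ : M ≤ 2 ^ (b + 1) * (3 ^ K.card * τ) := by
    have h4 : M < 3 ^ K.card * 2 ^ b * (τ + 1) := Nat.lt_mul_div_succ _ hDpos
    calc M ≤ 3 ^ K.card * 2 ^ b * (τ + 1) := h4.le
      _ ≤ 3 ^ K.card * 2 ^ b * (2 * τ) := Nat.mul_le_mul_left _ (by omega)
      _ = 2 ^ (b + 1) * (3 ^ K.card * τ) := by ring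
  refine ⟨τ, hτ, hMτ, ?_⟩
  by_contra hno
  have hNJ : NoJun3 c T K F x (33 * τ) := by
    refine ⟨⟨?_, ?_⟩, ?_⟩
    · intro l hl X hX hXK
      have := pi_one (Hv := Hv) hL (hH.mem) hZV hxZ hT hτ hno l hl hX hXK
      omega
    · intro u hu φ hφ hne X hX hXK
      have := pi_two (Hv := Hv) hL (hH.mem) hZV hxZ hT hτ hno hxF hsel u hu φ hφ hne hX hXK
      omega
    · intro u hu s hs hus hlab h4 h5 h6 X hX hXK
      exact pi_three (Hv := Hv) hL (hH.mem) hZV hxZ hT hτ hno hxF hsel u s hu hs hus hlab h6 h4 h5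
        hX hXK
  have hfar := far_free (t := t) hL hR hM hH (by omega) (hT.trans hZV)
    (fun v hv => hxZ v (hT hv)) (fun v hv => hxF v (hT hv)) (by omega) hNJ
  have hC : bG t (33 * τ) + (8 * t ^ 2 + 1) * (33 * τ) ≤ 300 * (t + 1) ^ 2 * τ := by
    unfold bG
    have h4 : t + 2 ≤ (t + 2) * τ := Nat.le_mul_of_pos_right _ hτ
    nlinarith [Nat.zero_le (t * τ), Nat.zero_le (t ^ 2 * τ)]
  -- first term
  have hA : 2 * (2 * (t + 1) ^ 2 * 256 ^ t * M) < 729 ^ t * T.card := by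
    calc 2 * (2 * (t + 1) ^ 2 * 256 ^ t * M)
        ≤ 2 * (2 * (t + 1) ^ 2 * 256 ^ t * (2 ^ (a + q + 1) * T.card)) := by gcongr
      _ = 4 * (t + 1) ^ 2 * 2 ^ (a + q + 1) * 256 ^ t * T.card := by ring
      _ < 729 ^ t * T.card := Nat.mul_lt_mul_of_pos_right h1 hTpos
  have hB : 2 * (3 ^ K.card * (bG t (33 * τ) + (8 * t ^ 2 + 1) * (33 * τ))) ≤ T.card := by
    have h5 : 2 ^ (a + q + 1) * (2 * (3 ^ K.card * (bG t (33 * τ) + (8 * t ^ 2 + 1) * (33 * τ))))
        ≤ 2 ^ (a + q + 1) * T.card := by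
      calc 2 ^ (a + q + 1) * (2 * (3 ^ K.card * (bG t (33 * τ) + (8 * t ^ 2 + 1) * (33 * τ))))
          ≤ 2 ^ (a + q + 1) * (2 * (3 ^ K.card * (300 * (t + 1) ^ 2 * τ))) := by gcongr
        _ = 600 * (t + 1) ^ 2 * 2 ^ (a + q + 1) * (3 ^ K.card * τ) := by ring
        _ ≤ 2 ^ b * (3 ^ K.card * τ) := Nat.mul_le_mul_right _ h2
        _ = 3 ^ K.card * 2 ^ b * τ := by ring
        _ ≤ M := hτM
        _ ≤ 2 ^ (a + q + 1) * T.card := hMT
    exact Nat.le_of_mul_le_mul_left h5 (by positivity)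
  have hB' : 2 * (729 ^ t * (3 ^ K.card * (bG t (33 * τ) + (8 * t ^ 2 + 1) * (33 * τ)))) ≤
      729 ^ t * T.card := by
    calc 2 * (729 ^ t * (3 ^ K.card * (bG t (33 * τ) + (8 * t ^ 2 + 1) * (33 * τ))))
        = 729 ^ t * (2 * (3 ^ K.card * (bG t (33 * τ) + (8 * t ^ 2 + 1) * (33 * τ)))) := by ring
      _ ≤ 729 ^ t * T.card := Nat.mul_le_mul_left _ hB
  have hT' : T.card * 729 ^ t = 729 ^ t * T.card := by ring
  omega

/-- the colours which are heavy for `v` on `Y` -/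
noncomputable def heavyC (c : ℕ → ℕ → ℕ) (Y : Finset ℕ) (q v : ℕ) : Finset ℕ :=
  (Y.image (c v)).filter fun g => Y.card < q * (Y.filter fun w => c v w = g).card

theorem heavyC_card (c : ℕ → ℕ → ℕ) (Y : Finset ℕ) (q v : ℕ) : (heavyC c Y q v).card ≤ q := by
  have h1 : ∑ g ∈ heavyC c Y q v, (Y.filter fun w => c v w = g).card ≤ Y.card := by
    rw [← Finset.card_biUnion]
    · refine Finset.card_le_card fun w hw => ?_
      obtain ⟨g, _, hg⟩ := Finset.mem_biUnion.mp hw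
      exact (Finset.mem_filter.mp hg).1
    · intro g _ g' _ hne
      rw [Function.onFun, Finset.disjoint_left]
      intro w hw hw'
      exact hne ((Finset.mem_filter.mp hw).2.symm.trans (Finset.mem_filter.mp hw').2)
  have h2 : (heavyC c Y q v).card * (Y.card + 1) ≤ q * Y.card := by
    calc (heavyC c Y q v).card * (Y.card + 1) = ∑ _g ∈ heavyC c Y q v, (Y.card + 1) := by simp
      _ ≤ ∑ g ∈ heavyC c Y q v, q * (Y.filter fun w => c v w = g).card :=
          Finset.sum_le_sum fun g hg => (Finset.mem_filter.mp hg).2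
      _ = q * ∑ g ∈ heavyC c Y q v, (Y.filter fun w => c v w = g).card := by rw [Finset.mul_sum]
      _ ≤ q * Y.card := Nat.mul_le_mul_left _ h1
  by_contra hcon
  push Not at hcon
  have h3 : (q + 1) * (Y.card + 1) ≤ (heavyC c Y q v).card * (Y.card + 1) :=
    Nat.mul_le_mul_right _ hcon
  nlinarith

theorem light_of (c : ℕ → ℕ → ℕ) (Y : Finset ℕ) (q v g : ℕ) (hg : g ∉ heavyC c Y q v) :
    q * (Y.filter fun w => c v w = g).card ≤ Y.card := by
  by_contra hcon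
  push Not at hcon
  refine hg (Finset.mem_filter.mpr ⟨?_, hcon⟩)
  rcases Nat.eq_zero_or_pos (Y.filter fun w => c v w = g).card with h0 | h0
  · rw [h0] at hcon
    omega
  · obtain ⟨w, hw⟩ := Finset.card_pos.mp h0
    exact Finset.mem_image.mpr ⟨w, (Finset.mem_filter.mp hw).1, (Finset.mem_filter.mp hw).2⟩

theorem mass_union (c : ℕ → ℕ → ℕ) (Y F Φ : Finset ℕ) (v : ℕ) :
    (Y.filter fun w => c v w ∈ F ∪ Φ).card ≤
      (Y.filter fun w => c v w ∈ F).card + ∑ φ ∈ Φ, (Y.filter fun w => c v w = φ).card := by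
  have h1 : (Y.filter fun w => c v w ∈ F ∪ Φ) ⊆
      (Y.filter fun w => c v w ∈ F) ∪ Φ.biUnion fun φ => Y.filter fun w => c v w = φ := by
    intro w hw
    obtain ⟨h2, h3⟩ := Finset.mem_filter.mp hw
    rcases Finset.mem_union.mp h3 with h4 | h4
    · exact Finset.mem_union_left _ (Finset.mem_filter.mpr ⟨h2, h4⟩)
    · exact Finset.mem_union_right _ (Finset.mem_biUnion.mpr
        ⟨_, h4, Finset.mem_filter.mpr ⟨h2, rfl⟩⟩)
  exact (Finset.card_le_card h1).trans ((Finset.card_union_le _ _).trans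
    (Nat.add_le_add_left Finset.card_biUnion_le _))

theorem num_stage {t L : ℕ} (h : 200 * L + 10000 ≤ t) (ht : 16384 ≤ t) :
    4 * (t + 1) ^ 2 * 2 ^ L * 256 ^ t < 729 ^ t ∧
    600 * (t + 1) ^ 2 * 2 ^ L ≤ 2 ^ (L + 12 + 2 * Nat.log 2 (t + 1)) ∧
    133 * (L + 12 + 2 * Nat.log 2 (t + 1) + 1) + 4000 + 3 ≤ t := by
  have hlog := log_small ht
  set l := Nat.log 2 (t + 1) with hl
  have h1 : t + 1 < 2 ^ (l + 1) := Nat.lt_pow_succ_log_self (by norm_num) _
  have h2 : (t + 1) ^ 2 ≤ 2 ^ (2 * l + 2) := by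
    calc (t + 1) ^ 2 ≤ (2 ^ (l + 1)) ^ 2 := Nat.pow_le_pow_left h1.le _
      _ = 2 ^ (2 * l + 2) := by rw [← pow_mul]; ring_nf
  have hlt : 1024 * l ≤ t := by
    have h0 : t / 16 * 16 ≤ t := Nat.div_mul_le_self _ _
    omega
  refine ⟨?_, ?_, by omega⟩
  · calc 4 * (t + 1) ^ 2 * 2 ^ L * 256 ^ t ≤ 4 * 2 ^ (2 * l + 2) * 2 ^ L * 256 ^ t := by gcongr
      _ = 2 ^ (2 * l + 4 + L) * 256 ^ t := by
          rw [pow_add, pow_add]; ring
      _ < 2 ^ t * 256 ^ t := by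
          refine Nat.mul_lt_mul_of_pos_right (Nat.pow_lt_pow_right (by norm_num) (by omega)) ?_
          positivity
      _ = 512 ^ t := by
          rw [← mul_pow]
          norm_num
      _ ≤ 729 ^ t := Nat.pow_le_pow_left (by norm_num) _
  · calc 600 * (t + 1) ^ 2 * 2 ^ L ≤ 2 ^ 10 * 2 ^ (2 * l + 2) * 2 ^ L := by
          gcongr
          norm_num
      _ = 2 ^ (L + 12 + 2 * l) := by
          rw [← pow_add, ← pow_add]
          congr 1
          ring

/-- **One stage** -/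
theorem stageP (hL : Lev c V 3 lev) (hR : Rk c V R) (hE : Ext c V R) (h3R : 3 ^ R ≤ V.card)
    (hd : 2 ≤ d) (n1 : t' + 3 ≤ t) (n2 : 20 * (t - t') ≤ t)
    (n3 : 200 * (a + 8 * d + 1) + 10000 ≤ t) (n4 : 16387 ≤ t) :
    StageP c V R V.card d t t' a := by
  intro x K F Z Y hH htR hZV _hYV hxZ _hZY hxF ha hnd hmass
  have ht : K.card + t = R := htR.symm
  obtain ⟨m1, m2, m3⟩ := num_stage (t := t) (L := a + 8 * d + 1) n3 (by omega)
  set b := a + 8 * d + 1 + 12 + 2 * Nat.log 2 (t + 1) with hb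
  obtain ⟨τ, hτ, hMτ, Φ, X, hΦ3, hΦF, hXZ, hJ, hXF, hτX, hHv, harc⟩ :=
    exists_junH (Hv := fun v => heavyC c Y (8 * d) v) (M := V.card) (q := 8 * d) (a := a)
      (b := b) (t := t) (Z := Z) hL hR hE hH ht hZV hxZ hxF (fun v _ => heavyC_card c Y (8 * d) v)
      ha h3R m1 m2 (by omega)
  have hXV : X ⊆ V := hXZ.trans hZV
  -- sizes
  have hKΦ : (K ∪ Φ).card ≤ K.card + 3 := (Finset.card_union_le _ _).trans (by omega)
  have hKK : K.card ≤ (K ∪ Φ).card := Finset.card_le_card Finset.subset_union_left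
  obtain ⟨t₁, ht₁⟩ : ∃ t₁, t₁ = R - (K ∪ Φ).card := ⟨_, rfl⟩
  have ht₁R : (K ∪ Φ).card + t₁ = R := by omega
  have hplain := hH.plain hR hJ hΦF hXF
  rw [← ht₁] at hplain
  set M₁ := V.card / 3 ^ (R - t₁) with hM₁
  have hpos : 0 < 3 ^ (R - t₁) := by positivity
  have hM : ∀ W ⊆ X, ∀ r ≤ t₁, Rk c W r → W.card * 3 ^ (t₁ - r) ≤ M₁ := by
    intro W hW r hr hWr
    rw [hM₁, Nat.le_div_iff_mul_le hpos, mul_assoc, ← pow_add]
    have h4 := hE W (hW.trans hXV) r (by omega) hWr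
    rwa [show t₁ - r + (R - t₁) = R - r by omega]
  have hM3 : 3 ^ t₁ ≤ M₁ := by
    rw [hM₁, Nat.le_div_iff_mul_le hpos, ← pow_add, show t₁ + (R - t₁) = R by omega]
    exact h3R
  have hMU : M₁ ≤ 2 ^ (b + 1) * X.card := by
    refine Nat.div_le_of_le_mul ?_
    calc V.card ≤ 2 ^ (b + 1) * (3 ^ K.card * τ) := hMτ
      _ ≤ 2 ^ (b + 1) * (3 ^ (R - t₁) * X.card) := by
          gcongr
          · norm_num
          · omega
      _ = 3 ^ (R - t₁) * (2 ^ (b + 1) * X.card) := by ring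
  have hU8 : 8 ≤ X.card := by
    have h5 : 2 ^ (b + 1) * 8 ≤ 2 ^ (b + 1) * X.card := by
      calc 2 ^ (b + 1) * 8 = 2 ^ (b + 4) := by rw [pow_add, pow_add]; ring
        _ ≤ 3 ^ (b + 4) := Nat.pow_le_pow_left (by norm_num) _
        _ ≤ 3 ^ t₁ := Nat.pow_le_pow_right (by norm_num) (by omega)
        _ ≤ M₁ := hM3
        _ ≤ _ := hMU
    exact Nat.le_of_mul_le_mul_left h5 (by positivity)
  obtain ⟨s, s1, s2, s3⟩ := rich_num (t := t₁) (q := b + 1) (m := t₁ - t') (by omega) (by omega)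
    (by omega)
  obtain ⟨E, hEc, B, hBX, hBc, hRich⟩ := rich_plain (hL.mono hXV) hplain hM hM3 hMU s1 s2 hU8 s3
  have hBpos : 0 < B.card := by
    rcases Nat.eq_zero_or_pos B.card with h | h
    · rw [h] at hBc
      omega
    · exact h
  obtain ⟨x', hx'⟩ := Finset.card_pos.mp hBpos
  have hx'X : x' ∈ X := hBX hx'
  have hstep := hH.step (E := E) (x' := x') hJ hΦF hXF fun E' hE' => by
    obtain ⟨u, _, hu⟩ := hRich.2 x' hx' E' hE'
    exact hu.toRP
  have hdis : Disjoint (K ∪ Φ) E := by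
    rw [Finset.disjoint_right]
    intro k hk hk'
    obtain ⟨u, hu, v, hv, huv, hc⟩ := rich_colour hRich ⟨x', hx'⟩ k hk
    exact hXF k hk' u hu v hv huv hc
  refine ⟨x', hXZ hx'X, K ∪ Φ ∪ E, F ∪ Φ, Φ, hstep, ?_, hΦ3, Finset.Subset.refl _, harc, ?_⟩
  · rw [Finset.card_union_of_disjoint hdis, hEc]
    omega
  · have h7 := hmass x' (hXZ hx'X)
    obtain ⟨g, hg⟩ := hHv x' hx'X
    have h8 := mass_union c Y F Φ x'
    have h9 : (2 * d - 1) * Y.card + Y.card = 2 * d * Y.card := by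
      obtain ⟨k, rfl⟩ : ∃ k, d = k + 1 := ⟨d - 1, by omega⟩
      rw [show 2 * (k + 1) - 1 = 2 * k + 1 by omega]
      ring
    have h10 : (d - 1) * Y.card + Y.card = d * Y.card := by
      obtain ⟨k, rfl⟩ : ∃ k, d = k + 1 := ⟨d - 1, by omega⟩
      rw [show k + 1 - 1 = k by omega]
      ring
    have hlight : ∀ S ⊆ Φ, g ∉ S → 8 * d * ∑ φ ∈ S, (Y.filter fun w => c x' w = φ).card ≤
        S.card * Y.card := by
      intro S hS hgS
      rw [Finset.mul_sum, ← smul_eq_mul (S.card), ← Finset.sum_const]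
      refine Finset.sum_le_sum fun φ hφ => ?_
      exact light_of c Y (8 * d) x' φ (hg φ (hS hφ) fun h => hgS (h ▸ hφ))
    have h11 : 8 * d * (Y.filter fun w => c x' w ∈ F ∪ Φ).card ≤
        8 * d * (Y.filter fun w => c x' w ∈ F).card +
        8 * d * ∑ φ ∈ Φ, (Y.filter fun w => c x' w = φ).card := by
      rw [← Nat.mul_add]
      exact Nat.mul_le_mul_left _ h8
    have h12 : 8 * d * (Y.filter fun w => c x' w ∈ F).card =
        2 * (4 * d * (Y.filter fun w => c x' w ∈ F).card) := by ring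
    have h13 : 8 * d * (Y.filter fun w => c x' w ∈ F ∪ Φ).card =
        4 * (2 * d * (Y.filter fun w => c x' w ∈ F ∪ Φ).card) := by ring
    have h14 : 2 * Y.card ≤ d * Y.card := Nat.mul_le_mul_right _ hd
    have h15 : 2 * d * Y.card = 2 * (d * Y.card) := by ring
    by_cases hgΦ : g ∈ Φ
    · have h16 : ∑ φ ∈ Φ, (Y.filter fun w => c x' w = φ).card =
          (Y.filter fun w => c x' w = g).card +
            ∑ φ ∈ Φ.erase g, (Y.filter fun w => c x' w = φ).card :=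
        (Finset.add_sum_erase Φ _ hgΦ).symm
      have h17 := hlight (Φ.erase g) (Finset.erase_subset _ _) (Finset.notMem_erase _ _)
      have h18 : (Φ.erase g).card * Y.card ≤ 2 * Y.card := by
        refine Nat.mul_le_mul_right _ ?_
        rw [Finset.card_erase_of_mem hgΦ]
        omega
      have h19 := hnd x' (hXZ hx'X) g
      have h20 : 8 * d * ∑ φ ∈ Φ, (Y.filter fun w => c x' w = φ).card =
          8 * (d * (Y.filter fun w => c x' w = g).card) +
            8 * d * ∑ φ ∈ Φ.erase g, (Y.filter fun w => c x' w = φ).card := by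
        rw [h16]
        ring
      omega
    · have h17 := hlight Φ (Finset.Subset.refl _) hgΦ
      have h18 : Φ.card * Y.card ≤ 3 * Y.card := Nat.mul_le_mul_right _ hΦ3
      omega

end FlashRainbow.CF
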