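import Pool.Agent.Work.MP_54723a_co.CF.JunG
import Pool.Agent.Work.MP_54723a_co.CF.ThinZone

/-!
One complete stage: hub, junction, rich set, new hub, with the exact number of collected colours.
-/

namespace FlashRainbow.CF

variable {c : ℕ → ℕ → ℕ} {lev : ℕ → ℕ → ℕ} {V Z K F : Finset ℕ} {x R t M : ℕ}

theorem Hub.cut {K' : Finset ℕ} (h : Hub c V x K F) (h1 : F ⊆ K') (h2 : K' ⊆ K) :
    Hub c V x K' F :=
  ⟨h1, fun L hF hL => h.2 L hF (hL.trans h2)⟩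

/-- from a junction with a thick target to a new hub in the target -/
theorem hub_of_jun {Φ X : Finset ℕ} {q s m : ℕ} (hL : Lev c V 3 lev) (hR : Rk c V R)
    (hH : Hub c V x K F) (ht : K.card + t = R)
    (hM : ∀ W ⊆ V, ∀ r ≤ R, Rk c W r → W.card * 3 ^ (R - r) ≤ M) (hM3 : 3 ^ R ≤ M)
    (hΦ3 : Φ.card ≤ 3) (hΦF : Disjoint Φ F) (hJ : Jun c V x Φ X) (hX : Fre c X (K ∪ Φ))
    (hX8 : 8 ≤ X.card) (hq : M ≤ 2 ^ q * (3 ^ K.card * X.card))
    (hs : 16 * (t + 1) * 2 ^ q ≤ 3 ^ s) (hm3 : 3 ≤ m)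
    (hm : 6 + 2 * (q + (48 * s + 91)) + 7 * m < t) :
    ∃ y ∈ X, ∃ K' : Finset ℕ, Hub c V y K' (F ∪ Φ) ∧ K'.card = K.card + m := by
  have hXV : X ⊆ V := hJ.1
  have hpl : Rk c X (R - (K ∪ Φ).card) := hH.plain hR hJ hΦF hX
  have hXne : X.Nonempty := by rw [← Finset.card_pos]; omega
  obtain ⟨v₀, hv₀⟩ := hXne
  -- `|K ∪ Φ| ≤ R`
  have hKΦ : (K ∪ Φ).card ≤ R := by
    have h1 := hH.reach hJ (L := K \ Φ) (fun z hz => Finset.mem_sdiff.mpr
      ⟨hH.1 hz, fun hz' => Finset.disjoint_left.mp hΦF hz' hz⟩) Finset.sdiff_subset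
      Finset.disjoint_sdiff v₀ hv₀
    rw [Finset.sdiff_union_self_eq_union] at h1
    exact hR _ _ h1
  have hK1 : K.card ≤ (K ∪ Φ).card := Finset.card_le_card Finset.subset_union_left
  have hK2 : (K ∪ Φ).card ≤ K.card + 3 := (Finset.card_union_le _ _).trans (by omega)
  set k := (K ∪ Φ).card with hk
  set t' := R - k with ht'
  set M' := M / 3 ^ k with hM'
  have hRk : R = k + t' := by omega
  obtain ⟨E, hEm, B, hBX, hBc, hRich⟩ := rich_plain (q := q) (s := s) (m := m) (M := M')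
    (hL.mono hXV) hpl
    (by
      intro W hW r hr hWr
      rw [hM', Nat.le_div_iff_mul_le (pow_pos (by norm_num) _)]
      calc W.card * 3 ^ (t' - r) * 3 ^ k = W.card * 3 ^ (R - r) := by
            rw [mul_assoc, ← pow_add]
            congr 2
            omega
        _ ≤ M := hM W (hW.trans hXV) r (by omega) hWr)
    (by
      rw [hM', Nat.le_div_iff_mul_le (pow_pos (by norm_num) _), ← pow_add]
      have : t' + k = R := by omega
      rw [this]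
      exact hM3)
    (by
      rw [hM']
      refine Nat.div_le_of_le_mul ?_
      calc M ≤ 2 ^ q * (3 ^ K.card * X.card) := hq
        _ ≤ 2 ^ q * (3 ^ k * X.card) := Nat.mul_le_mul_left _
            (Nat.mul_le_mul_right _ (Nat.pow_le_pow_right (by norm_num) hK1))
        _ = 3 ^ k * (2 ^ q * X.card) := by ring)
    (by omega)
    (by
      refine le_trans ?_ hs
      refine Nat.mul_le_mul_right _ ?_
      omega)
    hX8 (by omega)
  have hBne : B.Nonempty := by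
    rw [← Finset.card_pos]
    by_contra h0
    have h1 : B.card = 0 := by omega
    rw [h1, Nat.mul_zero] at hBc
    omega
  obtain ⟨y, hy⟩ := hBne
  have hyX : y ∈ X := hBX hy
  have hstep : Hub c V y (K ∪ Φ ∪ E) (F ∪ Φ) :=
    hH.step hJ hΦF hX (fun E' hE' => by
      obtain ⟨u, _, hRT⟩ := hRich.2 y hy E' hE'
      exact hRT.toRP)
  have hdisj : Disjoint (K ∪ Φ) E := by
    rw [Finset.disjoint_left]
    intro g hg hgE
    obtain ⟨u, hu, v, hv, huv, hc⟩ := rich_colour hRich ⟨y, hy⟩ g hgE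
    exact hX g hg u hu v hv huv hc
  have hcard : (K ∪ Φ ∪ E).card = k + m := by
    rw [Finset.card_union_of_disjoint hdisj, hEm]
  have hFc : (F ∪ Φ).card ≤ K.card + m := by
    have h1 := Finset.card_union_le F Φ
    have h2 := Finset.card_le_card hH.1
    omega
  obtain ⟨K', hK'1, hK'2, hK'3⟩ := Finset.exists_subsuperset_card_eq (s := F ∪ Φ)
    (t := K ∪ Φ ∪ E) hstep.1 hFc (by omega)
  exact ⟨y, hyX, K', hstep.cut hK'1 hK'2, hK'3⟩

/-- **One stage**: hub + zone part without `F`-labels ⇒ new hub in the zone part, `m` more colours,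
at most three new mandatory colours, at most one of them among the distinguished colours `G y`. -/
theorem stage_good {h τ q s m : ℕ} {G : ℕ → Finset ℕ} (hL : Lev c V 3 lev) (hR : Rk c V R)
    (hH : Hub c V x K F) (ht : K.card + t = R)
    (hM : ∀ W ⊆ V, ∀ r ≤ R, Rk c W r → W.card * 3 ^ (R - r) ≤ M) (hM3 : 3 ^ R ≤ M)
    (hZV : Z ⊆ V) (hxZ : ∀ v ∈ Z, x < v) (hxF : ∀ v ∈ Z, c x v ∉ F) (hτ : 43 ≤ τ)
    (hG : ∀ z ∈ Z, (G z).card ≤ h) (B : ℕ)
    (hbig : 2 ^ (h + 1) * (2 ^ (2 * B + 1) * ((t + 1) ^ 2 * 3 ^ (2 * t)) * M +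
      3 ^ (2 * B) * (3 ^ K.card * (bG t (27 * τ) + 27 * τ * (2 * B * t)))) <
      3 ^ (2 * B) * Z.card)
    (hq : 6 * M ≤ 2 ^ q * (3 ^ K.card * τ))
    (hs : 16 * (t + 1) * 2 ^ q ≤ 3 ^ s) (hm3 : 3 ≤ m)
    (hm : 6 + 2 * (q + (48 * s + 91)) + 7 * m < t) :
    ∃ y ∈ Z, ∃ K' Φ : Finset ℕ, Hub c V y K' (F ∪ Φ) ∧ K'.card = K.card + m ∧ Φ.card ≤ 3 ∧
      Disjoint Φ F ∧ (∀ g ∈ Φ, ∃ u ∈ insert x Z, ∃ v ∈ Z, u < v ∧ c u v = g) ∧
      ∀ g ∈ Φ, ∀ g' ∈ Φ, g ∈ G y → g' ∈ G y → g = g' := by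
  obtain ⟨Φ, X, hΦ3, hΦF, hXZ, hJ, hX, hτX, harc, hone⟩ :=
    jun_good hL hR hH ht.ge hM hZV hxZ hxF (by omega) hG B hbig
  obtain ⟨y, hy, K', hK', hcard⟩ := hub_of_jun (q := q) (s := s) (m := m) hL hR hH ht hM hM3 hΦ3
    hΦF hJ hX (by omega)
    (by
      have h1 : 2 ^ q * (3 ^ K.card * τ) ≤ 2 ^ q * (3 ^ K.card * (6 * X.card)) :=
        Nat.mul_le_mul_left _ (Nat.mul_le_mul_left _ hτX)
      have h2 : 2 ^ q * (3 ^ K.card * (6 * X.card)) = 6 * (2 ^ q * (3 ^ K.card * X.card)) := by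
        ring
      omega)
    hs hm3 hm
  exact ⟨y, hXZ hy, K', Φ, hK', hcard, hΦ3, hΦF, harc, hone y hy⟩

end FlashRainbow.CF
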