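import Pool.Agent.Work.MP_54723a_co.CF.JunH
import Pool.Agent.Work.MP_54723a_co.CF.HubNext
import Pool.Agent.Work.MP_54723a_co.CF.NumFar39
import Pool.Agent.Work.MP_54723a_co.CF.NumRich
import Pool.Agent.Work.MP_54723a_co.CF.Main

/-!
# Constant factor, measure route: the stage lemma  (helper63, second copy)
-/

set_option autoImplicit false

namespace FlashRainbow.CF

open Classical

variable {c : ℕ → ℕ → ℕ} {V Z Y F K : Finset ℕ} {R M d x : ℕ} {lev : ℕ → ℕ → ℕ}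

/-- the colours in which `v` sees more than `1/16d` of `Y` -/
noncomputable def HvY (c : ℕ → ℕ → ℕ) (d : ℕ) (Y : Finset ℕ) (v : ℕ) : Finset ℕ :=
  (Y.image (c v)).filter fun g => Y.card < 16 * d * (Y.filter fun w => c v w = g).card

theorem HvY_card (c : ℕ → ℕ → ℕ) (d : ℕ) (Y : Finset ℕ) (v : ℕ) :
    (HvY c d Y v).card ≤ 16 * d := by
  rcases Nat.eq_zero_or_pos Y.card with h0 | h0
  · have : Y = ∅ := Finset.card_eq_zero.mp h0
    subst this
    simp [HvY]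
  have h1 : (HvY c d Y v).card * Y.card ≤ 16 * d * Y.card := by
    calc (HvY c d Y v).card * Y.card = ∑ g ∈ HvY c d Y v, Y.card := by
          rw [Finset.sum_const, smul_eq_mul]
      _ ≤ ∑ g ∈ HvY c d Y v, 16 * d * (Y.filter fun w => c v w = g).card :=
          Finset.sum_le_sum fun g hg => ((Finset.mem_filter.mp hg).2).le
      _ = 16 * d * ∑ g ∈ HvY c d Y v, (Y.filter fun w => c v w = g).card := by
          rw [Finset.mul_sum]
      _ ≤ 16 * d * Y.card := by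
          refine Nat.mul_le_mul_left _ ?_
          calc ∑ g ∈ HvY c d Y v, (Y.filter fun w => c v w = g).card
              ≤ ∑ g ∈ Y.image (c v), (Y.filter fun w => c v w = g).card :=
                Finset.sum_le_sum_of_subset (Finset.filter_subset _ _)
            _ = Y.card := (Finset.card_eq_sum_card_image (c v) Y).symm
  exact Nat.le_of_mul_le_mul_right h1 h0

theorem not_heavy {v g : ℕ} (h : g ∉ HvY c d Y v) :
    16 * d * (Y.filter fun w => c v w = g).card ≤ Y.card := by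
  by_contra hcon
  push Not at hcon
  refine h (Finset.mem_filter.mpr ⟨?_, hcon⟩)
  have hpos : 0 < (Y.filter fun w => c v w = g).card := by
    rcases Nat.eq_zero_or_pos (Y.filter fun w => c v w = g).card with h0 | h0
    · rw [h0, Nat.mul_zero] at hcon
      omega
    · exact h0
  obtain ⟨w, hw⟩ := Finset.card_pos.mp hpos
  obtain ⟨h1, h2⟩ := Finset.mem_filter.mp hw
  exact Finset.mem_image.mpr ⟨w, h1, h2⟩

/-- the mass of the new hub -/
theorem mass_hub {v : ℕ} {Φ : Finset ℕ} (hN : NDom c d v Y) (hd : 1 ≤ d)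
    (hF : 4 * d * (Y.filter fun w => c v w ∈ F).card ≤ Y.card) (hΦ : Φ.card ≤ 3) {g : ℕ}
    (hg : ∀ φ ∈ Φ, φ ≠ g → φ ∉ HvY c d Y v) :
    2 * d * (Y.filter fun w => c v w ∈ F ∪ Φ).card ≤ (2 * d - 1) * Y.card := by
  have h1 : (Y.filter fun w => c v w ∈ F ∪ Φ).card ≤ (Y.filter fun w => c v w ∈ F).card +
      ∑ φ ∈ Φ, (Y.filter fun w => c v w = φ).card := by
    have hsub : (Y.filter fun w => c v w ∈ F ∪ Φ) ⊆ (Y.filter fun w => c v w ∈ F) ∪
        Φ.biUnion fun φ => Y.filter fun w => c v w = φ := by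
      intro w hw
      obtain ⟨h1, h2⟩ := Finset.mem_filter.mp hw
      rcases Finset.mem_union.mp h2 with h3 | h3
      · exact Finset.mem_union_left _ (Finset.mem_filter.mpr ⟨h1, h3⟩)
      · exact Finset.mem_union_right _ (Finset.mem_biUnion.mpr ⟨_, h3,
          Finset.mem_filter.mpr ⟨h1, rfl⟩⟩)
    exact (Finset.card_le_card hsub).trans ((Finset.card_union_le _ _).trans
      (Nat.add_le_add_left Finset.card_biUnion_le _))
  have h2 : 16 * d * ∑ φ ∈ Φ, (Y.filter fun w => c v w = φ).card ≤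
      16 * (d - 1) * Y.card + 3 * Y.card := by
    by_cases hgΦ : g ∈ Φ
    · rw [← Finset.add_sum_erase Φ _ hgΦ, Nat.mul_add]
      have h3 : 16 * d * (Y.filter fun w => c v w = g).card ≤ 16 * (d - 1) * Y.card := by
        have := Nat.mul_le_mul_left 16 (hN g)
        calc 16 * d * (Y.filter fun w => c v w = g).card
            = 16 * (d * (Y.filter fun w => c v w = g).card) := by ring
          _ ≤ 16 * ((d - 1) * Y.card) := this
          _ = 16 * (d - 1) * Y.card := by ring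
      have h4 : 16 * d * ∑ φ ∈ Φ.erase g, (Y.filter fun w => c v w = φ).card ≤ 3 * Y.card := by
        rw [Finset.mul_sum]
        calc ∑ φ ∈ Φ.erase g, 16 * d * (Y.filter fun w => c v w = φ).card
            ≤ ∑ φ ∈ Φ.erase g, Y.card := by
              refine Finset.sum_le_sum fun φ hφ => ?_
              exact not_heavy (hg φ (Finset.mem_of_mem_erase hφ) (Finset.ne_of_mem_erase hφ))
          _ = (Φ.erase g).card * Y.card := by rw [Finset.sum_const, smul_eq_mul]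
          _ ≤ 3 * Y.card := Nat.mul_le_mul_right _ (Finset.card_erase_le.trans hΦ)
      exact Nat.add_le_add h3 h4
    · have h4 : 16 * d * ∑ φ ∈ Φ, (Y.filter fun w => c v w = φ).card ≤ 3 * Y.card := by
        rw [Finset.mul_sum]
        calc ∑ φ ∈ Φ, 16 * d * (Y.filter fun w => c v w = φ).card
            ≤ ∑ φ ∈ Φ, Y.card := by
              refine Finset.sum_le_sum fun φ hφ => ?_
              exact not_heavy (hg φ hφ fun h => hgΦ (h ▸ hφ))
          _ = Φ.card * Y.card := by rw [Finset.sum_const, smul_eq_mul]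
          _ ≤ 3 * Y.card := Nat.mul_le_mul_right _ hΦ
      exact h4.trans (Nat.le_add_left _ _)
  obtain ⟨a, ha⟩ : ∃ a, a = (Y.filter fun w => c v w ∈ F ∪ Φ).card := ⟨_, rfl⟩
  obtain ⟨f, hf⟩ : ∃ f, f = (Y.filter fun w => c v w ∈ F).card := ⟨_, rfl⟩
  obtain ⟨s, hs⟩ : ∃ s, s = ∑ φ ∈ Φ, (Y.filter fun w => c v w = φ).card := ⟨_, rfl⟩
  obtain ⟨n, hn⟩ : ∃ n, n = Y.card := ⟨_, rfl⟩
  rw [← ha, ← hf, ← hs] at h1
  rw [← hs, ← hn] at h2
  rw [← hf, ← hn] at hF
  rw [← ha, ← hn]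
  obtain ⟨d', rfl⟩ : ∃ d', d = d' + 1 := ⟨d - 1, by omega⟩
  rw [show d' + 1 - 1 = d' from rfl] at h2
  rw [show 2 * (d' + 1) - 1 = 2 * d' + 1 by omega]
  have h5 := Nat.mul_le_mul_left (16 * (d' + 1)) h1
  nlinarith

/-- **STAGE LEMMA** -/
theorem stageP_all (hL : Lev c V 3 lev) (hR : Rk c V R) (hE : Ext c V R) (h3 : 3 ^ R ≤ V.card)
    (hd : 1 ≤ d) {t b : ℕ} (hnum : 200 * (b + (16 * d + 2) + 100) ≤ t) :
    StageP c V R V.card d t (t - t / 20) b := by
  intro x K F Z Y hH hK hZV hYV hxZ hZY hxF hbig hND hlight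
  obtain ⟨q₁, hq₁⟩ : ∃ q₁, q₁ = 16 * d := ⟨_, rfl⟩
  obtain ⟨z, hz⟩ : ∃ z, z = Z.card / 2 ^ (q₁ + 1) := ⟨_, rfl⟩
  have h2pos : 0 < 2 ^ (q₁ + 1) := by positivity
  have htR : t ≤ R := by omega
  have hZbig : 2 ^ (q₁ + 1) ≤ Z.card := by
    refine Nat.le_of_mul_le_mul_left ?_ (show 0 < 2 ^ b by positivity)
    calc 2 ^ b * 2 ^ (q₁ + 1) = 2 ^ (b + (q₁ + 1)) := by rw [← pow_add]
      _ ≤ 2 ^ R := Nat.pow_le_pow_right (by norm_num) (by omega)
      _ ≤ 3 ^ R := Nat.pow_le_pow_left (by norm_num) _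
      _ ≤ V.card := h3
      _ ≤ 2 ^ b * Z.card := hbig
  have hz1 : 1 ≤ z := by
    rw [hz]
    exact Nat.div_pos hZbig h2pos
  have hz2 : Z.card ≤ 2 ^ (q₁ + 2) * z := by
    have h4 : Z.card < 2 ^ (q₁ + 1) * (z + 1) := by
      rw [hz]
      exact Nat.lt_mul_div_succ _ h2pos
    calc Z.card ≤ 2 ^ (q₁ + 1) * (z + 1) := h4.le
      _ ≤ 2 ^ (q₁ + 1) * (2 * z) := Nat.mul_le_mul_left _ (by omega)
      _ = 2 ^ (q₁ + 2) * z := by rw [show q₁ + 2 = (q₁ + 1) + 1 by ring, pow_succ]; ring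
  have hz3 : 2 ^ (q₁ + 1) * z ≤ Z.card := by
    rw [hz]
    exact Nat.mul_div_le _ _
  have hMz : V.card ≤ 2 ^ (b + (q₁ + 2)) * z := by
    calc V.card ≤ 2 ^ b * Z.card := hbig
      _ ≤ 2 ^ b * (2 ^ (q₁ + 2) * z) := Nat.mul_le_mul_left _ hz2
      _ = 2 ^ (b + (q₁ + 2)) * z := by rw [pow_add 2 b (q₁ + 2), mul_assoc]
  obtain ⟨τ, q, hτ, hq, hMτ, hfar⟩ := far_num39 (t := t) (a := b + (q₁ + 2)) (M := V.card) (R := R)
    (k := K.card) (z := z) (by rw [hq₁]; exact hnum) hK h3 hMz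
  have hJ : HasJunH c V Z K F x τ (HvY c d Y) := by
    by_contra hno
    have h4 := hasJunH_or_small (q := q₁) hL hR hE hH (le_of_eq hK) hZV hxZ hxF hτ
      (fun v _ => by rw [hq₁]; exact HvY_card c d Y v) hno
    have h5 : 2 ^ (q₁ + 1) * (2 * (t + 1) ^ 2 * 256 ^ t * V.card +
        729 ^ t * (3 ^ K.card * (bG t (33 * τ) + (8 * t ^ 2 + 1) * (33 * τ)))) <
        2 ^ (q₁ + 1) * (z * 729 ^ t) := Nat.mul_lt_mul_of_pos_left hfar h2pos
    have h6 : 2 ^ (q₁ + 1) * (z * 729 ^ t) ≤ Z.card * 729 ^ t := by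
      calc 2 ^ (q₁ + 1) * (z * 729 ^ t) = 2 ^ (q₁ + 1) * z * 729 ^ t := by ring
        _ ≤ Z.card * 729 ^ t := Nat.mul_le_mul_right _ hz3
    omega
  obtain ⟨Φ, X, hΦ, hΦF, hXZ, hJun, hfree, hτX, hheavy, harc⟩ := hJ
  obtain ⟨s, hs1, hs2, hs4⟩ := rich_num6 (t := t) (q := q) (m := t / 20) (by omega) hq (by omega)
  have h8 : 8 ≤ X.card := by
    by_contra hcon
    push Not at hcon
    have h9 : 3 ^ t ≤ 2 ^ q * τ := by
      refine Nat.le_of_mul_le_mul_right ?_ (show 0 < 3 ^ (R - t) by positivity)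
      calc 3 ^ t * 3 ^ (R - t) = 3 ^ R := by rw [← pow_add]; congr 1; omega
        _ ≤ V.card := h3
        _ ≤ 2 ^ q * (τ * 3 ^ (R - t)) := hMτ
        _ = 2 ^ q * τ * 3 ^ (R - t) := by ring
    have h10 : 2 ^ q * τ < 2 ^ (q + 3) := by
      rw [pow_add]
      exact Nat.mul_lt_mul_of_pos_left (by omega) (by positivity)
    have h11 : 2 ^ (q + 3) ≤ 3 ^ t := by
      calc 2 ^ (q + 3) ≤ 2 ^ t := Nat.pow_le_pow_right (by norm_num) (by omega)
        _ ≤ 3 ^ t := Nat.pow_le_pow_left (by norm_num) _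
    omega
  obtain ⟨x', hx', K', hH', hK'⟩ := hub_next (q := q) (s := s) (m := t / 20) hL hR hE h3 hH hK hΦ
    hΦF hJun hfree h8 (hMτ.trans (Nat.mul_le_mul_left _ (Nat.mul_le_mul_right _ hτX))) hs1 hs2
    (by omega) hs4
  obtain ⟨g, hg⟩ := hheavy x' hx'
  exact ⟨x', hXZ hx', K', F ∪ Φ, Φ, hH', hK', hΦ, Finset.Subset.refl _, harc,
    mass_hub (hND x' (hXZ hx')) hd (hlight x' (hXZ hx')) hΦ hg⟩

/-- **THE CONSTANT FACTOR for extremal pairs** -/
theorem main_bound63 : ∃ K : ℕ, ∀ (c : ℕ → ℕ → ℕ) (V : Finset ℕ) (lev : ℕ → ℕ → ℕ) (R : ℕ),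
    Lev c V 3 lev → Rk c V R → Ext c V R → V.card ≤ K * 3 ^ R := by
  refine main_of_stage 1536 13 0 200 (16 * 1536 + 2 + 100) (by norm_num) (by norm_num)
    (by norm_num) ?_
  intro c V R lev t b hL hR hE h3 _ _ hnum
  exact stageP_all hL hR hE h3 (by norm_num) (by omega)

end FlashRainbow.CF
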