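import Pool.Agent.Work.MP_54723a_co.CF.H1
import Pool.Agent.Work.MP_54723a_co.CF.ThinZone
import Pool.Agent.Work.MP_54723a_co.CF.Typ

/-!
# Constant factor, measure route: one stage, with junctions of at most three colours  (helper53)

Source: helper20 (junctions with at most three colours), helper42 and helper74 (skip junctions),
helper56, helper60 and helper10 (zones without dominated colours).

* `Junc` : junctions with one, two or three colours, explicit form.
* `stage_jun` : a junction all of whose end points are balanced on the next zone, either in the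
  first or in the second zone.
* `stage` : the next exact hub.
-/

set_option autoImplicit false

namespace FlashRainbow.CF

open Classical

variable {c : ℕ → ℕ → ℕ} {V Z Z0 Z1 Z2 Z3 X Y K F Φ E P Q : Finset ℕ} {R q t s p τ x v : ℕ}
  {lev : ℕ → ℕ → ℕ}

/-- number of points of `Y` which `v` sees in a colour of `P` -/
def mass (c : ℕ → ℕ → ℕ) (v : ℕ) (P Y : Finset ℕ) : ℕ := (Y.filter fun w => c v w ∈ P).card

theorem mass_union_le : mass c v (P ∪ Q) Y ≤ mass c v P Y + mass c v Q Y := by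
  unfold mass
  refine le_trans (Finset.card_le_card ?_) (Finset.card_union_le _ _)
  intro w hw
  obtain ⟨h1, h2⟩ := Finset.mem_filter.mp hw
  rcases Finset.mem_union.mp h2 with h3 | h3
  · exact Finset.mem_union_left _ (Finset.mem_filter.mpr ⟨h1, h3⟩)
  · exact Finset.mem_union_right _ (Finset.mem_filter.mpr ⟨h1, h3⟩)

theorem mass_mono (h : P ⊆ Q) : mass c v P Y ≤ mass c v Q Y :=
  Finset.card_le_card fun w hw => Finset.mem_filter.mpr
    ⟨(Finset.mem_filter.mp hw).1, h (Finset.mem_filter.mp hw).2⟩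

theorem mass_le_sum : mass c v P Y ≤ ∑ φ ∈ P, mass c v {φ} Y := by
  unfold mass
  refine le_trans (Finset.card_le_card (t := P.biUnion fun φ => Y.filter fun w => c v w ∈ ({φ} :
    Finset ℕ)) ?_) Finset.card_biUnion_le
  intro w hw
  obtain ⟨h1, h2⟩ := Finset.mem_filter.mp hw
  exact Finset.mem_biUnion.mpr ⟨_, h2, Finset.mem_filter.mpr ⟨h1, Finset.mem_singleton_self _⟩⟩

/-- few points with a large value -/
theorem few_heavy (A : Finset ℕ) (f : ℕ → ℕ) (k y : ℕ) :
    (A.filter fun v => y < k * f v).card * y ≤ k * ∑ v ∈ A, f v := by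
  calc (A.filter fun v => y < k * f v).card * y = ∑ _v ∈ A.filter fun v => y < k * f v, y := by
        rw [Finset.sum_const, smul_eq_mul]
    _ ≤ ∑ v ∈ A.filter fun v => y < k * f v, k * f v :=
        Finset.sum_le_sum fun v hv => (Finset.mem_filter.mp hv).2.le
    _ ≤ ∑ v ∈ A, k * f v := Finset.sum_le_sum_of_subset (Finset.filter_subset _ _)
    _ = k * ∑ v ∈ A, f v := by rw [Finset.mul_sum]

/-- a junction with at most three colours at the hub `x`, explicit form -/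
def Junc (c : ℕ → ℕ → ℕ) (Z K F : Finset ℕ) (x τ : ℕ) : Prop :=
  (∃ l, l ∉ F ∧ ∃ X ⊆ Z, Fre c X K ∧ τ ≤ (X.filter fun v => c x v = l).card) ∨
  (∃ u ∈ Z, ∃ φ, φ ∉ F ∧ φ ≠ c x u ∧ ∃ X ⊆ Z, Fre c X K ∧
    τ ≤ (X.filter fun v => u < v ∧ c u v = φ).card) ∨
  (∃ u ∈ Z, ∃ s ∈ Z, u < s ∧ c x u ≠ c x s ∧ c u s ∉ F ∧ c u s ≠ c x u ∧ c u s ≠ c x s ∧
    ∃ X ⊆ Z, Fre c X K ∧ τ ≤ (X.filter fun v => s < v ∧ c s v = c x s).card)

theorem cut_jun (hL : Lev c V 3 lev) (hXV : X ⊆ V) (hK : Fre c X K) (hJ : Jun c V x Φ X)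
    (h3 : Φ.card ≤ 3) :
    ∃ X' ⊆ X, X.card ≤ 27 * X'.card ∧ Jun c V x Φ X' ∧ Fre c X' (K ∪ Φ) := by
  obtain ⟨X', h1, h2, h4⟩ := exists_class (hL.mono hXV) Φ
  refine ⟨X', h1, ?_, hJ.mono h1, (hK.mono h1 (le_refl _)).union h4⟩
  have h5 : 3 ^ Φ.card ≤ 3 ^ 3 := Nat.pow_le_pow_right (by norm_num) h3
  exact h2.trans (Nat.mul_le_mul_right _ (by simpa using h5))

theorem Junc.elim (h : Junc c Z K F x τ) (hL : Lev c V 3 lev) (hx : x ∈ V) (hZ : Z ⊆ V)
    (hxZ : ∀ v ∈ Z, x < v) (hF : ∀ v ∈ Z, c x v ∉ F) (hτ : 0 < τ) :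
    ∃ Φ X : Finset ℕ, Φ.card ≤ 3 ∧ Disjoint Φ F ∧ X ⊆ Z ∧ Jun c V x Φ X ∧ Fre c X (K ∪ Φ) ∧
      τ ≤ 27 * X.card ∧ ∀ φ ∈ Φ, ∃ u ∈ insert x Z, ∃ w ∈ Z, u < w ∧ c u w = φ := by
  rcases h with ⟨l, hl, X, hX, hXK, hc⟩ | ⟨u, hu, φ, hφ, hne, X, hX, hXK, hc⟩ |
    ⟨u, hu, s, hs, hus, h1, h2, h3, h4, X, hX, hXK, hc⟩
  · set X1 := X.filter fun v => c x v = l with hX1
    have hX1X : X1 ⊆ X := Finset.filter_subset _ _
    have hJ : Jun c V x {l} X1 := jun_one hx (hX1X.trans (hX.trans hZ)) fun v hv =>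
      ⟨hxZ v (hX (hX1X hv)), (Finset.mem_filter.mp hv).2⟩
    obtain ⟨X', g1, g2, g3, g4⟩ := cut_jun hL (hX1X.trans (hX.trans hZ))
      (hXK.mono hX1X (le_refl _)) hJ (by rw [Finset.card_singleton]; omega)
    obtain ⟨w, hw⟩ := Finset.card_pos.mp (lt_of_lt_of_le hτ hc)
    refine ⟨{l}, X', by rw [Finset.card_singleton]; omega, Finset.disjoint_singleton_left.mpr hl,
      g1.trans (hX1X.trans hX), g3, g4, hc.trans g2, ?_⟩
    intro φ hφ
    rw [Finset.mem_singleton.mp hφ]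
    exact ⟨x, Finset.mem_insert_self _ _, w, hX (hX1X hw), hxZ w (hX (hX1X hw)),
      (Finset.mem_filter.mp hw).2⟩
  · set X1 := X.filter fun v => u < v ∧ c u v = φ with hX1
    have hX1X : X1 ⊆ X := Finset.filter_subset _ _
    have hJ : Jun c V x {φ, c x u} X1 := jun_two hx (hZ hu) (hxZ u hu) rfl (Ne.symm hne)
      (hX1X.trans (hX.trans hZ)) fun v hv => (Finset.mem_filter.mp hv).2
    have hcard : ({φ, c x u} : Finset ℕ).card ≤ 3 := Finset.card_le_two.trans (by omega)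
    obtain ⟨X', g1, g2, g3, g4⟩ := cut_jun hL (hX1X.trans (hX.trans hZ))
      (hXK.mono hX1X (le_refl _)) hJ hcard
    obtain ⟨w, hw⟩ := Finset.card_pos.mp (lt_of_lt_of_le hτ hc)
    refine ⟨{φ, c x u}, X', hcard, ?_, g1.trans (hX1X.trans hX), g3, g4, hc.trans g2, ?_⟩
    · rw [Finset.disjoint_insert_left, Finset.disjoint_singleton_left]
      exact ⟨hφ, hF u hu⟩
    · intro ψ hψ
      rcases Finset.mem_insert.mp hψ with rfl | hψ
      · exact ⟨u, Finset.mem_insert_of_mem hu, w, hX (hX1X hw), (Finset.mem_filter.mp hw).2.1,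
          (Finset.mem_filter.mp hw).2.2⟩
      · rw [Finset.mem_singleton.mp hψ]
        exact ⟨x, Finset.mem_insert_self _ _, u, hu, hxZ u hu, rfl⟩
  · set X1 := X.filter fun v => s < v ∧ c s v = c x s with hX1
    have hX1X : X1 ⊆ X := Finset.filter_subset _ _
    have hJ : Jun c V x {c x s, c u s, c x u} X1 := jun_three hx (hZ hu) (hZ hs) (hxZ u hu) hus
      rfl rfl (Ne.symm h3) h1 h4 (hX1X.trans (hX.trans hZ)) fun v hv => (Finset.mem_filter.mp hv).2
    have hcard : ({c x s, c u s, c x u} : Finset ℕ).card ≤ 3 := Finset.card_le_three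
    obtain ⟨X', g1, g2, g3, g4⟩ := cut_jun hL (hX1X.trans (hX.trans hZ))
      (hXK.mono hX1X (le_refl _)) hJ hcard
    refine ⟨{c x s, c u s, c x u}, X', hcard, ?_, g1.trans (hX1X.trans hX), g3, g4,
      hc.trans g2, ?_⟩
    · rw [Finset.disjoint_insert_left, Finset.disjoint_insert_left,
        Finset.disjoint_singleton_left]
      exact ⟨hF s hs, h2, hF u hu⟩
    · intro ψ hψ
      simp only [Finset.mem_insert, Finset.mem_singleton] at hψ
      rcases hψ with rfl | rfl | rfl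
      · exact ⟨x, Finset.mem_insert_self _ _, s, hs, hxZ s hs, rfl⟩
      · exact ⟨u, Finset.mem_insert_of_mem hu, s, hs, hus, rfl⟩
      · exact ⟨x, Finset.mem_insert_self _ _, u, hu, hxZ u hu, rfl⟩

/-- **JUNCTION OF A STAGE**, with a skip if necessary -/
theorem stage_jun (hL : Lev c V 3 lev) (hx : x ∈ V) (hZ1 : Z1 ⊆ V) (hZ2 : Z2 ⊆ V)
    (hx1 : ∀ v ∈ Z1, x < v) (h12 : ∀ v ∈ Z1, ∀ w ∈ Z2, v < w)
    (hinv : q * mass c x F Z1 + Z1.card ≤ q * Z1.card)
    (hz1 : ∀ v ∈ Z1, ∀ g, q * mass c v {g} Z2 + 2 * Z2.card ≤ q * Z2.card)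
    (hz2 : ∀ z ∈ Z2, ∀ g, q * mass c z {g} Z3 + 2 * Z3.card ≤ q * Z3.card)
    (hF1 : 4 * q ^ 2 * ∑ v ∈ Z1, mass c v F Z2 ≤ Z1.card * Z2.card)
    (hF2 : ∀ v ∈ Z1, 24 * q ^ 2 * ∑ z ∈ Z2, mass c z (insert (c x v) F) Z3 ≤ Z2.card * Z3.card)
    (h2 : 0 < Z2.card) (h3 : 0 < Z3.card) (hτ : 0 < τ)
    (hJ : ∀ Z0 ⊆ Z1, Z1.card ≤ 2 * q * Z0.card → (∀ v ∈ Z0, c x v ∉ F) → Junc c Z0 K F x τ) :
    ∃ Φ X : Finset ℕ, Φ.card ≤ 3 ∧ Disjoint Φ F ∧ Jun c V x Φ X ∧ Fre c X (K ∪ Φ) ∧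
      ((X ⊆ Z1 ∧ τ ≤ 54 * X.card ∧
          (∀ y ∈ X, q * mass c y (F ∪ Φ) Z2 + Z2.card ≤ q * Z2.card) ∧
          ∀ φ ∈ Φ, ∃ u ∈ insert x Z1, ∃ w ∈ Z1, u < w ∧ c u w = φ) ∨
       (X ⊆ Z2 ∧ Z2.card ≤ 108 * q * 3 ^ K.card * X.card ∧
          (∀ y ∈ X, q * mass c y (F ∪ Φ) Z3 + Z3.card ≤ q * Z3.card) ∧
          ∀ φ ∈ Φ, ∃ u ∈ insert x Z1, ∃ w ∈ Z1 ∪ Z2, u < w ∧ c u w = φ)) := by
  set Z0 := Z1.filter fun v => c x v ∉ F ∧ 2 * q * mass c v F Z2 ≤ Z2.card with hZ0
  have hZ01 : Z0 ⊆ Z1 := Finset.filter_subset _ _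
  have hcard : Z1.card ≤ 2 * q * Z0.card := by
    have e1 : Z1 ⊆ (Z1.filter fun w => c x w ∈ F) ∪
        (Z1.filter fun v => Z2.card < 2 * q * mass c v F Z2) ∪ Z0 := by
      intro v hv
      by_cases hF : c x v ∈ F
      · exact Finset.mem_union_left _ (Finset.mem_union_left _ (Finset.mem_filter.mpr ⟨hv, hF⟩))
      · by_cases hb : 2 * q * mass c v F Z2 ≤ Z2.card
        · exact Finset.mem_union_right _ (Finset.mem_filter.mpr ⟨hv, hF, hb⟩)
        · exact Finset.mem_union_left _ (Finset.mem_union_right _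
            (Finset.mem_filter.mpr ⟨hv, by omega⟩))
    have e2 := (Finset.card_le_card e1).trans ((Finset.card_union_le _ _).trans
      (Nat.add_le_add_right (Finset.card_union_le _ _) _))
    have e3 : (Z1.filter fun w => c x w ∈ F).card = mass c x F Z1 := rfl
    have e4 := few_heavy Z1 (fun v => mass c v F Z2) (2 * q) Z2.card
    set b := (Z1.filter fun v => Z2.card < 2 * q * mass c v F Z2).card with hb
    have e5 : 2 * q * b * Z2.card ≤ Z1.card * Z2.card := by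
      calc 2 * q * b * Z2.card = 2 * q * (b * Z2.card) := by ring
        _ ≤ 2 * q * (2 * q * ∑ v ∈ Z1, mass c v F Z2) := Nat.mul_le_mul_left _ e4
        _ = 4 * q ^ 2 * ∑ v ∈ Z1, mass c v F Z2 := by ring
        _ ≤ _ := hF1
    have e6 : 2 * q * b ≤ Z1.card := Nat.le_of_mul_le_mul_right e5 h2
    rw [e3] at e2
    have e7 : 2 * q * Z1.card ≤ 2 * q * (mass c x F Z1 + b + Z0.card) :=
      Nat.mul_le_mul_left _ e2
    have e8 : 2 * q * (mass c x F Z1 + b + Z0.card) =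
        2 * (q * mass c x F Z1) + 2 * q * b + 2 * q * Z0.card := by ring
    have e9 : 2 * q * Z1.card = 2 * (q * Z1.card) := by ring
    omega
  obtain ⟨Φ, X, hΦ3, hΦF, hXZ, hJX, hXf, hXc, hΦc⟩ := (hJ Z0 hZ01 hcard fun v hv =>
    (Finset.mem_filter.mp hv).2.1).elim hL hx (hZ01.trans hZ1) (fun v hv => hx1 v (hZ01 hv))
    (fun v hv => (Finset.mem_filter.mp hv).2.1) hτ
  set G := X.filter fun v => q * mass c v (F ∪ Φ) Z2 + Z2.card ≤ q * Z2.card with hG
  have hGX : G ⊆ X := Finset.filter_subset _ _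
  by_cases hG2 : X.card ≤ 2 * G.card
  · refine ⟨Φ, G, hΦ3, hΦF, hJX.mono hGX, hXf.mono hGX (le_refl _), Or.inl
      ⟨hGX.trans (hXZ.trans hZ01), by omega, fun y hy => (Finset.mem_filter.mp hy).2, ?_⟩⟩
    intro φ hφ
    obtain ⟨u, hu, w, hw, h⟩ := hΦc φ hφ
    refine ⟨u, ?_, w, hZ01 hw, h⟩
    rcases Finset.mem_insert.mp hu with rfl | hu
    · exact Finset.mem_insert_self _ _
    · exact Finset.mem_insert_of_mem (hZ01 hu)
  · obtain ⟨v, hvX, hvG⟩ : ∃ v ∈ X, v ∉ G := by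
      by_contra hcon
      push Not at hcon
      have := Finset.card_le_card (show X ⊆ G from hcon)
      omega
    have hbad : q * Z2.card < q * mass c v (F ∪ Φ) Z2 + Z2.card := by
      by_contra hcon
      exact hvG (Finset.mem_filter.mpr ⟨hvX, by omega⟩)
    have hvZ0 : v ∈ Z0 := hXZ hvX
    have hvZ1 : v ∈ Z1 := hZ01 hvZ0
    obtain ⟨-, hvF, hvm⟩ := Finset.mem_filter.mp hvZ0
    -- a heavy colour different from `c x v`
    obtain ⟨φ, hφ, hφm⟩ : ∃ φ ∈ Φ.erase (c x v), Z2.card ≤ 6 * q * mass c v {φ} Z2 := by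
      by_contra hcon
      push Not at hcon
      have f1 : mass c v (F ∪ Φ) Z2 ≤ mass c v F Z2 + (mass c v {c x v} Z2 +
          mass c v (Φ.erase (c x v)) Z2) := by
        refine mass_union_le.trans (Nat.add_le_add_left ?_ _)
        refine le_trans (mass_mono (Q := {c x v} ∪ Φ.erase (c x v)) ?_) mass_union_le
        intro y hy
        by_cases hyv : y = c x v
        · exact Finset.mem_union_left _ (Finset.mem_singleton.mpr hyv)
        · exact Finset.mem_union_right _ (Finset.mem_erase.mpr ⟨hyv, hy⟩)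
      have f2 : 6 * q * mass c v (Φ.erase (c x v)) Z2 ≤ 3 * Z2.card := by
        calc 6 * q * mass c v (Φ.erase (c x v)) Z2
            ≤ 6 * q * ∑ φ ∈ Φ.erase (c x v), mass c v {φ} Z2 :=
              Nat.mul_le_mul_left _ mass_le_sum
          _ = ∑ φ ∈ Φ.erase (c x v), 6 * q * mass c v {φ} Z2 := by rw [Finset.mul_sum]
          _ ≤ ∑ _φ ∈ Φ.erase (c x v), Z2.card := Finset.sum_le_sum fun φ hφ => (hcon φ hφ).le
          _ = (Φ.erase (c x v)).card * Z2.card := by rw [Finset.sum_const, smul_eq_mul]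
          _ ≤ 3 * Z2.card := Nat.mul_le_mul_right _
              ((Finset.card_le_card (Finset.erase_subset _ _)).trans hΦ3)
      have f3 := hz1 v hvZ1 (c x v)
      have f4 : q * mass c v (F ∪ Φ) Z2 ≤ q * (mass c v F Z2 + (mass c v {c x v} Z2 +
          mass c v (Φ.erase (c x v)) Z2)) := Nat.mul_le_mul_left _ f1
      have f5 : q * (mass c v F Z2 + (mass c v {c x v} Z2 + mass c v (Φ.erase (c x v)) Z2)) =
          q * mass c v F Z2 + q * mass c v {c x v} Z2 + q * mass c v (Φ.erase (c x v)) Z2 := by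
        ring
      have f6 : 6 * q * mass c v (Φ.erase (c x v)) Z2 =
          6 * (q * mass c v (Φ.erase (c x v)) Z2) := by ring
      have f7 : 2 * q * mass c v F Z2 = 2 * (q * mass c v F Z2) := by ring
      omega
    obtain ⟨hφv, hφΦ⟩ := Finset.mem_erase.mp hφ
    have hφF : φ ∉ F := Finset.disjoint_left.mp hΦF hφΦ
    set X2 := Z2.filter fun z => c v z = φ ∧ 2 * q * mass c z (insert (c x v) F) Z3 ≤ Z3.card
      with hX2
    have hX2Z : X2 ⊆ Z2 := Finset.filter_subset _ _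
    have hX2c : Z2.card ≤ 12 * q * X2.card := by
      have e1 : (Z2.filter fun w => c v w ∈ ({φ} : Finset ℕ)) ⊆
          (Z2.filter fun z => Z3.card < 2 * q * mass c z (insert (c x v) F) Z3) ∪ X2 := by
        intro z hz
        obtain ⟨hz, hzc⟩ := Finset.mem_filter.mp hz
        by_cases hb : 2 * q * mass c z (insert (c x v) F) Z3 ≤ Z3.card
        · exact Finset.mem_union_right _ (Finset.mem_filter.mpr
            ⟨hz, Finset.mem_singleton.mp hzc, hb⟩)
        · exact Finset.mem_union_left _ (Finset.mem_filter.mpr ⟨hz, by omega⟩)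
      have e2 : mass c v {φ} Z2 ≤ _ := (Finset.card_le_card e1).trans (Finset.card_union_le _ _)
      have e4 := few_heavy Z2 (fun z => mass c z (insert (c x v) F) Z3) (2 * q) Z3.card
      set b := (Z2.filter fun z => Z3.card < 2 * q * mass c z (insert (c x v) F) Z3).card with hb
      have e5 : 12 * q * b * Z3.card ≤ Z2.card * Z3.card := by
        calc 12 * q * b * Z3.card = 12 * q * (b * Z3.card) := by ring
          _ ≤ 12 * q * (2 * q * ∑ z ∈ Z2, mass c z (insert (c x v) F) Z3) :=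
              Nat.mul_le_mul_left _ e4
          _ = 24 * q ^ 2 * ∑ z ∈ Z2, mass c z (insert (c x v) F) Z3 := by ring
          _ ≤ _ := hF2 v hvZ1
      have e6 : 12 * q * b ≤ Z2.card := Nat.le_of_mul_le_mul_right e5 h3
      have e7 : 12 * q * mass c v {φ} Z2 ≤ 12 * q * (b + X2.card) := Nat.mul_le_mul_left _ e2
      have e8 : 12 * q * (b + X2.card) = 12 * q * b + 12 * q * X2.card := by ring
      have e9 : 12 * q * mass c v {φ} Z2 = 2 * (6 * q * mass c v {φ} Z2) := by ring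
      omega
    obtain ⟨X', g1, g2, g3⟩ := exists_class (X := X2) (hL.mono (hX2Z.trans hZ2))
      (K ∪ {φ, c x v})
    have hX'Z : X' ⊆ Z2 := g1.trans hX2Z
    refine ⟨{φ, c x v}, X', Finset.card_le_two.trans (by omega), ?_, ?_, g3, Or.inr
      ⟨hX'Z, ?_, ?_, ?_⟩⟩
    · rw [Finset.disjoint_insert_left, Finset.disjoint_singleton_left]
      exact ⟨hφF, hvF⟩
    · exact jun_two hx (hZ1 hvZ1) (hx1 v hvZ1) rfl (Ne.symm hφv) (hX'Z.trans hZ2) fun z hz =>
        ⟨h12 v hvZ1 z (hX'Z hz), (Finset.mem_filter.mp (g1 hz)).2.1⟩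
    · have k1 : (K ∪ {φ, c x v}).card ≤ K.card + 2 :=
        (Finset.card_union_le _ _).trans (Nat.add_le_add_left Finset.card_le_two _)
      have k2 : 3 ^ (K ∪ {φ, c x v}).card ≤ 3 ^ K.card * 9 := by
        calc 3 ^ (K ∪ {φ, c x v}).card ≤ 3 ^ (K.card + 2) := Nat.pow_le_pow_right (by norm_num) k1
          _ = 3 ^ K.card * 9 := by rw [pow_add]; norm_num
      calc Z2.card ≤ 12 * q * X2.card := hX2c
        _ ≤ 12 * q * (3 ^ (K ∪ {φ, c x v}).card * X'.card) := Nat.mul_le_mul_left _ g2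
        _ ≤ 12 * q * (3 ^ K.card * 9 * X'.card) :=
            Nat.mul_le_mul_left _ (Nat.mul_le_mul_right _ k2)
        _ = 108 * q * 3 ^ K.card * X'.card := by ring
    · intro z hz
      obtain ⟨hzZ, hzc, hzm⟩ := Finset.mem_filter.mp (g1 hz)
      have m1 : mass c z (F ∪ {φ, c x v}) Z3 ≤ mass c z (insert (c x v) F) Z3 +
          mass c z {φ} Z3 := by
        refine le_trans (mass_mono ?_) mass_union_le
        intro y hy
        simp only [Finset.mem_union, Finset.mem_insert, Finset.mem_singleton] at hy ⊢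
        tauto
      have m2 := hz2 z hzZ φ
      have m3 : q * mass c z (F ∪ {φ, c x v}) Z3 ≤ q * (mass c z (insert (c x v) F) Z3 +
          mass c z {φ} Z3) := Nat.mul_le_mul_left _ m1
      have m4 : q * (mass c z (insert (c x v) F) Z3 + mass c z {φ} Z3) =
          q * mass c z (insert (c x v) F) Z3 + q * mass c z {φ} Z3 := by ring
      have m5 : 2 * q * mass c z (insert (c x v) F) Z3 =
          2 * (q * mass c z (insert (c x v) F) Z3) := by ring
      omega
    · intro ψ hψ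
      rcases Finset.mem_insert.mp hψ with rfl | hψ
      · -- the colour of the skip arc
        have hX'ne : (Z2.filter fun w => c v w ∈ ({ψ} : Finset ℕ)).Nonempty := by
          rw [← Finset.card_pos]
          have : 0 < mass c v {ψ} Z2 := by
            rcases Nat.eq_zero_or_pos (mass c v {ψ} Z2) with h0 | h0
            · rw [h0] at hφm
              omega
            · exact h0
          exact this
        obtain ⟨w, hw⟩ := hX'ne
        obtain ⟨hw1, hw2⟩ := Finset.mem_filter.mp hw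
        exact ⟨v, Finset.mem_insert_of_mem hvZ1, w, Finset.mem_union_right _ hw1, h12 v hvZ1 w hw1,
          Finset.mem_singleton.mp hw2⟩
      · rw [Finset.mem_singleton.mp hψ]
        exact ⟨x, Finset.mem_insert_self _ _, v, Finset.mem_union_left _ hvZ1, hx1 v hvZ1, rfl⟩

/-- **RICH step**: from a junction to an exact hub with prescribed rest `t'` -/
theorem hub_next (hL : Lev c V 3 lev) (hR : Rk c V R) (hE : Ext c V R) (hV3 : 3 ^ R ≤ V.card)
    (hH : Hub c V x K F) (ht : R = K.card + t) (hΦ3 : Φ.card ≤ 3) (hΦF : Disjoint Φ F)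
    (hJ : Jun c V x Φ X) (hX : Fre c X (K ∪ Φ)) (hXc : V.card ≤ 2 ^ p * 3 ^ K.card * X.card)
    (hs : 16 * (t + 1) * 2 ^ p ≤ 3 ^ s) (hst : s + 4 ≤ t) {t' : ℕ} (ht' : t' + 3 ≤ t)
    (hm : 3 + 2 * (p + (48 * s + 91)) + 7 * (t - t') + 3 < t) :
    ∃ y ∈ X, ∃ K' : Finset ℕ, Hub c V y K' (F ∪ Φ) ∧ R = K'.card + t' := by
  have hκ1 : K.card ≤ (K ∪ Φ).card := Finset.card_le_card Finset.subset_union_left
  have hκ2 : (K ∪ Φ).card ≤ K.card + 3 :=
    (Finset.card_union_le _ _).trans (Nat.add_le_add_left hΦ3 _)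
  set κ := (K ∪ Φ).card with hκ
  obtain ⟨tr, htr⟩ : ∃ tr, R = κ + tr := ⟨R - κ, by omega⟩
  have htr1 : tr ≤ t := by omega
  have htr2 : t ≤ tr + 3 := by omega
  have hRX : Rk c X tr := by
    have := hH.plain hR hJ hΦF hX
    rwa [← hκ, show R - κ = tr by omega] at this
  have h3κ : 0 < 3 ^ κ := Nat.pow_pos (by norm_num)
  have hX8 : 8 ≤ X.card := by
    have a1 : 3 ^ K.card * 3 ^ t ≤ 3 ^ K.card * (2 ^ p * X.card) := by
      calc 3 ^ K.card * 3 ^ t = 3 ^ R := by rw [ht, pow_add]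
        _ ≤ V.card := hV3
        _ ≤ 2 ^ p * 3 ^ K.card * X.card := hXc
        _ = _ := by ring
    have a2 : 3 ^ t ≤ 2 ^ p * X.card := Nat.le_of_mul_le_mul_left a1 (Nat.pow_pos (by norm_num))
    have a3 : 3 ^ s ≤ 3 ^ t := Nat.pow_le_pow_right (by norm_num) (by omega)
    have a4 : 2 ^ p * (16 * (t + 1)) ≤ 2 ^ p * X.card := by
      calc 2 ^ p * (16 * (t + 1)) = 16 * (t + 1) * 2 ^ p := by ring
        _ ≤ 3 ^ s := hs
        _ ≤ 3 ^ t := a3
        _ ≤ _ := a2
    have a5 : 16 * (t + 1) ≤ X.card := Nat.le_of_mul_le_mul_left a4 (Nat.pow_pos (by norm_num))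
    omega
  obtain ⟨E, hEc, B, hBX, hBc, hRich⟩ := rich_plain (U := X) (t := tr) (s := s) (q := p)
    (M := V.card / 3 ^ κ) (m := tr - t') (hL.mono hJ.1) hRX (by
      intro W hW r hr hWr
      rw [Nat.le_div_iff_mul_le h3κ]
      have := hE W (hW.trans hJ.1) r (by omega) hWr
      rw [show R - r = (tr - r) + κ by omega, pow_add, ← mul_assoc] at this
      exact this) (by
      rw [Nat.le_div_iff_mul_le h3κ, ← pow_add, show tr + κ = R by omega]
      exact hV3) (by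
      refine Nat.div_le_of_le_mul ?_
      calc V.card ≤ 2 ^ p * 3 ^ K.card * X.card := hXc
        _ ≤ 2 ^ p * 3 ^ κ * X.card := Nat.mul_le_mul_right _ (Nat.mul_le_mul_left _
            (Nat.pow_le_pow_right (by norm_num) hκ1))
        _ = _ := by ring) (by omega) (by
      calc 16 * (tr + 1) * 2 ^ p ≤ 16 * (t + 1) * 2 ^ p :=
            Nat.mul_le_mul_right _ (Nat.mul_le_mul_left _ (by omega))
        _ ≤ 3 ^ s := hs) hX8 (by omega)
  have hBne : B.Nonempty := by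
    rw [← Finset.card_pos]
    rcases Nat.eq_zero_or_pos B.card with h0 | h0
    · rw [h0] at hBc
      omega
    · exact h0
  obtain ⟨y, hy⟩ := hBne
  have hE' : ∀ E' ⊆ E, RP c X y E' := by
    intro E' hE'
    obtain ⟨u, -, hu⟩ := hRich.2 y hy E' hE'
    exact hu.toRP
  refine ⟨y, hBX hy, K ∪ Φ ∪ E, hH.step hJ hΦF hX hE', ?_⟩
  have hdis : Disjoint (K ∪ Φ) E := by
    rw [Finset.disjoint_left]
    intro γ hγ
    exact (hE' E (Finset.Subset.refl _)).notMem_of_free (hX γ hγ)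
  rw [Finset.card_union_of_disjoint hdis, ← hκ, hEc]
  omega

end FlashRainbow.CF
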