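import Pool.Agent.Work.MP_54723a_co.CF.Dense

/-!
# Constant factor: two routes (exact form of (LAB), note 8652 of helper78, in the whole set `V`)

`x` is a vertex, the label of `u > x` is the colour `c x u`.  Suppose that all arcs `u < s` of `X`
between points with different labels have the label of one of their ends as colour, and that all
labels are light.  Then `X` is small.  (helper66)
-/

set_option autoImplicit false

namespace FlashRainbow.CF

open Classical

variable {c : ℕ → ℕ → ℕ} {V : Finset ℕ} {R M N x a b : ℕ} {lev : ℕ → ℕ → ℕ}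
  {F : ℕ → Finset ℕ} {lb : ℕ → ℕ}

/-- separated blocks `F 0 < F 1 < …`, one for each label; the points of a block are not on the
bottom level of the label -/
structure Blk (c : ℕ → ℕ → ℕ) (V : Finset ℕ) (lev : ℕ → ℕ → ℕ) (N : ℕ) (F : ℕ → Finset ℕ)
    (lb : ℕ → ℕ) : Prop where
  sub : ∀ i < N, F i ⊆ V
  ne : ∀ i < N, (F i).Nonempty
  one : ∀ i < N, ∀ u ∈ F i, 1 ≤ lev (lb i) u
  inj : ∀ i < N, ∀ j < N, lb i = lb j → i = j
  lt : ∀ i < N, ∀ j < N, i < j → ∀ u ∈ F i, ∀ s ∈ F j, u < s
  star : ∀ i < N, ∀ j < N, i < j → ∀ u ∈ F i, ∀ s ∈ F j, c u s = lb i ∨ c u s = lb j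

/-- one point of the block `i` sends its own label to the whole block `j` -/
def OutB (c : ℕ → ℕ → ℕ) (F : ℕ → Finset ℕ) (lb : ℕ → ℕ) (i j : ℕ) : Prop :=
  ∃ u ∈ F i, ∀ s ∈ F j, c u s = lb i

/-- chains of `OutB` -/
inductive OC (c : ℕ → ℕ → ℕ) (F : ℕ → Finset ℕ) (lb : ℕ → ℕ) (U : Finset ℕ) :
    ℕ → Finset ℕ → Prop
  | single {i : ℕ} : i ∈ U → OC c F lb U i ∅
  | step {i j : ℕ} {L : Finset ℕ} : OC c F lb U i L → j ∈ U → i < j → OutB c F lb i j →
      OC c F lb U j (insert i L)

/-- chains of `¬ OutB` -/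
inductive IC (c : ℕ → ℕ → ℕ) (F : ℕ → Finset ℕ) (lb : ℕ → ℕ) (U : Finset ℕ) :
    ℕ → Finset ℕ → Prop
  | single {i : ℕ} : i ∈ U → IC c F lb U i ∅
  | step {i j : ℕ} {L : Finset ℕ} : IC c F lb U j L → i ∈ U → i < j → ¬ OutB c F lb i j →
      IC c F lb U i (insert j L)

theorem OC.mem {U L : Finset ℕ} {i : ℕ} (h : OC c F lb U i L) : i ∈ U := by
  cases h with
  | single hi => exact hi
  | step _ hj _ _ => exact hj

theorem IC.mem {U L : Finset ℕ} {i : ℕ} (h : IC c F lb U i L) : i ∈ U := by
  cases h with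
  | single hi => exact hi
  | step _ hj _ _ => exact hj

theorem OC.sub {U L : Finset ℕ} {i : ℕ} (h : OC c F lb U i L) : L ⊆ U ∧ ∀ r ∈ L, r < i := by
  induction h with
  | single _ => simp
  | @step i j L h hj hij ho ih =>
    refine ⟨Finset.insert_subset h.mem ih.1, ?_⟩
    intro r hr
    rcases Finset.mem_insert.mp hr with rfl | hr
    · exact hij
    · exact (ih.2 r hr).trans hij

theorem IC.sub {U L : Finset ℕ} {i : ℕ} (h : IC c F lb U i L) : L ⊆ U ∧ ∀ r ∈ L, i < r := by
  induction h with
  | single _ => simp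
  | @step i j L h hi hij ho ih =>
    refine ⟨Finset.insert_subset h.mem ih.1, ?_⟩
    intro r hr
    rcases Finset.mem_insert.mp hr with rfl | hr
    · exact hij
    · exact hij.trans (ih.2 r hr)

theorem OC.mono {U U' L : Finset ℕ} {i : ℕ} (h : OC c F lb U i L) (hU : U ⊆ U') :
    OC c F lb U' i L := by
  induction h with
  | single hi => exact OC.single (hU hi)
  | step _ hj hij ho ih => exact OC.step ih (hU hj) hij ho

theorem IC.mono {U U' L : Finset ℕ} {i : ℕ} (h : IC c F lb U i L) (hU : U ⊆ U') :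
    IC c F lb U' i L := by
  induction h with
  | single hi => exact IC.single (hU hi)
  | step _ hj hij ho ih => exact IC.step ih (hU hj) hij ho

theorem OC.path (hB : Blk c V lev N F lb) {U L : Finset ℕ} {i : ℕ} (h : OC c F lb U i L)
    (hU : ∀ r ∈ U, r < N) : ∀ u ∈ F i, RP c V u (L.image lb) := by
  induction h with
  | single hi =>
    intro u hu
    simpa using RP.single (c := c) (hB.sub _ (hU _ hi) hu)
  | @step i j L h hj hij ho ih =>
    intro s hs
    obtain ⟨u, hu, hus⟩ := ho
    have h1 := ih u hu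
    have h2 : c u s ∉ L.image lb := by
      rw [hus s hs, Finset.mem_image]
      rintro ⟨r, hr, hri⟩
      have := hB.inj r (hU r (h.sub.1 hr)) i (hU i h.mem) hri
      exact absurd (h.sub.2 r hr) (by omega)
    have h3 := RP.step h1 (hB.sub j (hU j hj) hs)
      (hB.lt i (hU i h.mem) j (hU j hj) hij u hu s hs) h2
    rwa [hus s hs, ← Finset.image_insert] at h3

theorem IC.path (hB : Blk c V lev N F lb) {U L : Finset ℕ} {i : ℕ} (h : IC c F lb U i L)
    (hU : ∀ r ∈ U, r < N) : ∀ u ∈ F i, RS c V u (L.image lb) := by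
  induction h with
  | single hi =>
    intro u hu
    simpa using RS.single (c := c) (hB.sub _ (hU _ hi) hu)
  | @step i j L h hi hij ho ih =>
    intro u hu
    have ho' : ∃ s ∈ F j, c u s ≠ lb i := by
      by_contra hcon
      push Not at hcon
      exact ho ⟨u, hu, hcon⟩
    obtain ⟨s, hs, hne⟩ := ho'
    have hcs : c u s = lb j :=
      (hB.star i (hU i hi) j (hU j h.mem) hij u hu s hs).resolve_left hne
    have h1 := ih s hs
    have h2 : c u s ∉ L.image lb := by
      rw [hcs, Finset.mem_image]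
      rintro ⟨r, hr, hri⟩
      have := hB.inj r (hU r (h.sub.1 hr)) j (hU j h.mem) hri
      exact absurd (h.sub.2 r hr) (by omega)
    have h3 := RS.step h1 (hB.sub i (hU i hi) hu)
      (hB.lt i (hU i hi) j (hU j h.mem) hij u hu s hs) h2
    rwa [hcs, ← Finset.image_insert] at h3

/-- a set of indices, all of whose pairs are in `OutB`, is a chain -/
theorem oc_of_clique {U : Finset ℕ} (K : Finset ℕ) : ∀ z, (∀ r ∈ K, r < z) → z ∈ U → K ⊆ U →
    (∀ i ∈ K, ∀ j ∈ insert z K, i < j → OutB c F lb i j) → OC c F lb U z K := by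
  induction K using Finset.induction_on_max with
  | empty => exact fun z _ hz _ _ => OC.single hz
  | insert m s hm ih =>
    intro z hz hzU hsU hp
    have h1 : OC c F lb U m s := ih m hm (hsU (Finset.mem_insert_self _ _))
      ((Finset.subset_insert _ _).trans hsU) (by
        intro i hi j hj hij
        exact hp i (Finset.mem_insert_of_mem hi) j (Finset.mem_insert_of_mem hj) hij)
    exact OC.step h1 hzU (hz m (Finset.mem_insert_self _ _))
      (hp m (Finset.mem_insert_self _ _) z (Finset.mem_insert_self _ _)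
        (hz m (Finset.mem_insert_self _ _)))

theorem ic_of_clique {U : Finset ℕ} (K : Finset ℕ) : ∀ z, (∀ r ∈ K, z < r) → z ∈ U → K ⊆ U →
    (∀ i ∈ insert z K, ∀ j ∈ K, i < j → ¬ OutB c F lb i j) → IC c F lb U z K := by
  induction K using Finset.induction_on_min with
  | empty => exact fun z _ hz _ _ => IC.single hz
  | insert m s hm ih =>
    intro z hz hzU hsU hp
    have h1 : IC c F lb U m s := ih m hm (hsU (Finset.mem_insert_self _ _))
      ((Finset.subset_insert _ _).trans hsU) (by
        intro i hi j hj hij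
        exact hp i (Finset.mem_insert_of_mem hi) j (Finset.mem_insert_of_mem hj) hij)
    exact IC.step h1 hzU (hz m (Finset.mem_insert_self _ _))
      (hp z (Finset.mem_insert_self _ _) m (Finset.mem_insert_self _ _)
        (hz m (Finset.mem_insert_self _ _)))

theorem card_image_lb (hB : Blk c V lev N F lb) {L : Finset ℕ} (hL : ∀ r ∈ L, r < N) :
    (L.image lb).card = L.card :=
  Finset.card_image_of_injOn fun i hi j hj h => hB.inj i (hL i hi) j (hL j hj) h

/-- a host behind an `OutB`-chain -/
theorem hostOut (hL : Lev c V 3 lev) (hR : Rk c V R)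
    (hM : ∀ W ⊆ V, ∀ r ≤ R, Rk c W r → W.card * 3 ^ (R - r) ≤ M) (hB : Blk c V lev N F lb)
    {h : ℕ} {L : Finset ℕ} (hh : h < N) (hp : ∀ s ∈ F h, RP c V s (L.image lb))
    (ho : ∀ r ∈ L, r < h ∧ OutB c F lb r h) : (F h).card * 3 ^ L.card ≤ M := by
  have hLN : ∀ r ∈ L, r < N := fun r hr => (ho r hr).1.trans hh
  have hlev : ∀ r ∈ L, ∀ s ∈ F h, lev (lb r) s = 2 := by
    intro r hr s hs
    obtain ⟨hrh, u, hu, hus⟩ := ho r hr
    have h1 := hB.one r (hLN r hr) u hu
    have h2 := hL.up u (hB.sub r (hLN r hr) hu) s (hB.sub h hh hs)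
      (hB.lt r (hLN r hr) h hh hrh u hu s hs)
    rw [hus s hs] at h2
    have h3 := hL.lt (lb r) s (hB.sub h hh hs)
    omega
  have hfree : ∀ γ ∈ L.image lb, ∀ u ∈ F h, ∀ v ∈ F h, u < v → c u v ≠ γ := by
    intro γ hγ
    obtain ⟨r, hr, rfl⟩ := Finset.mem_image.mp hγ
    exact hL.free (hB.sub h hh) fun u hu v hv => by rw [hlev r hr u hu, hlev r hr v hv]
  have hcard := card_image_lb hB hLN
  have hsum : ∀ y D, RP c (F h) y D → D.card + L.card ≤ R := by
    intro y D hD
    have h1 := hD.prepend (hB.sub h hh) hp hfree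
    have h2 := hR _ _ h1
    rw [Finset.card_union_of_disjoint, hcard] at h2
    · exact h2
    · rw [Finset.disjoint_left]
      intro γ h3 h4
      exact hD.notMem_of_free (hfree γ h4) h3
  obtain ⟨s₀, hs₀⟩ := hB.ne h hh
  have hLR : L.card ≤ R := by
    have := hsum _ _ (RP.single hs₀)
    simpa using this
  have h5 := hM (F h) (hB.sub h hh) (R - L.card) (by omega) (by
    intro y D hD
    have := hsum y D hD
    omega)
  rwa [show R - (R - L.card) = L.card by omega] at h5

/-- a host before a chain of `¬ OutB` -/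
theorem hostIn (hL : Lev c V 3 lev) (hR : Rk c V R)
    (hM : ∀ W ⊆ V, ∀ r ≤ R, Rk c W r → W.card * 3 ^ (R - r) ≤ M) (hB : Blk c V lev N F lb)
    {h : ℕ} {L : Finset ℕ} (hh : h < N) (hp : ∀ s ∈ F h, RS c V s (L.image lb))
    (ho : ∀ r ∈ L, h < r ∧ r < N ∧ ¬ OutB c F lb h r) :
    (F h).card * 3 ^ L.card ≤ 2 ^ L.card * M := by
  have hLN : ∀ r ∈ L, r < N := fun r hr => (ho r hr).2.1
  have hlev : ∀ r ∈ L, ∀ u ∈ F h, lev (lb r) u < 2 := by
    intro r hr u hu
    obtain ⟨hrh, hrN, hno⟩ := ho r hr
    have ho' : ∃ s ∈ F r, c u s ≠ lb h := by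
      by_contra hcon
      push Not at hcon
      exact hno ⟨u, hu, hcon⟩
    obtain ⟨s, hs, hne⟩ := ho'
    have hcs : c u s = lb r := (hB.star h hh r hrN hrh u hu s hs).resolve_left hne
    have h2 := hL.up u (hB.sub h hh hu) s (hB.sub r hrN hs) (hB.lt h hh r hrN hrh u hu s hs)
    rw [hcs] at h2
    have h3 := hL.lt (lb r) s (hB.sub r hrN hs)
    omega
  have hcard := card_image_lb hB hLN
  set E := L.image lb with hE
  obtain ⟨s₀, hs₀⟩ := hB.ne h hh
  have hLR : L.card ≤ R := by
    obtain ⟨z, hz⟩ := (hp s₀ hs₀).join (Finset.Subset.refl _) ∅ (RP.single (hB.sub h hh hs₀))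
      (Finset.disjoint_empty_right _)
    have := hR _ _ hz
    rw [Finset.empty_union, hcard] at this
    exact this
  have h1 := card_le_of_levels (V := F h) (l := 2) (lev := fun γ v => if γ ∈ E then lev γ v else 0)
    (by
      intro γ v hv
      by_cases hγ : γ ∈ E
      · obtain ⟨r, hr, rfl⟩ := Finset.mem_image.mp hγ
        simp only [if_pos hγ]
        exact hlev r hr v hv
      · simp only [if_neg hγ]
        omega) (M / 3 ^ L.card) E (F h) (Finset.Subset.refl _) (by
      intro T' hT' hconst
      rw [Nat.le_div_iff_mul_le (by positivity)]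
      have hT'V : T' ⊆ V := hT'.trans (hB.sub h hh)
      have hfree : ∀ γ ∈ E, ∀ u ∈ T', ∀ v ∈ T', u < v → c u v ≠ γ := by
        intro γ hγ
        refine hL.free hT'V fun u hu v hv => ?_
        have := hconst γ hγ u hu v hv
        simpa only [if_pos hγ] using this
      have h5 := hM T' hT'V (R - L.card) (by omega) (by
        intro y D hD
        obtain ⟨z, hz⟩ := (hp y (hT' hD.mem)).join (Finset.Subset.refl _) D (hD.mono hT'V) (by
          rw [Finset.disjoint_left]
          intro γ h3 h4
          exact hD.notMem_of_free (hfree γ h3) h4)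
        have h6 := hR _ _ hz
        rw [Finset.card_union_of_disjoint, hcard] at h6
        · omega
        · rw [Finset.disjoint_left]
          intro γ h3 h4
          exact hD.notMem_of_free (hfree γ h4) h3)
      rwa [show R - (R - L.card) = L.card by omega] at h5)
  rw [hcard] at h1
  calc (F h).card * 3 ^ L.card ≤ (2 ^ L.card * (M / 3 ^ L.card)) * 3 ^ L.card :=
        Nat.mul_le_mul_right _ h1
    _ = 2 ^ L.card * (M / 3 ^ L.card * 3 ^ L.card) := by ring
    _ ≤ 2 ^ L.card * M := Nat.mul_le_mul_left _ (Nat.div_mul_le_self _ _)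

/-- **Too many blocks.** -/
theorem blocks_false (hL : Lev c V 3 lev) (hR : Rk c V R)
    (hM : ∀ W ⊆ V, ∀ r ≤ R, Rk c W r → W.card * 3 ^ (R - r) ≤ M) (hB : Blk c V lev N F lb)
    (ha : ∀ i < N, M < (F i).card * 3 ^ a) (hb : ∀ i < N, 2 ^ b * M < (F i).card * 3 ^ b) :
    N ≤ 4 * a * b := by
  rcases Nat.eq_zero_or_pos N with rfl | hN
  · omega
  -- chains are short
  have hOut : ∀ h < N, ∀ L : Finset ℕ, (∀ s ∈ F h, RP c V s (L.image lb)) →
      (∀ r ∈ L, r < h ∧ OutB c F lb r h) → L.card < a := by
    intro h hh L h1 h2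
    by_contra hcon
    have h3 := hostOut hL hR hM hB hh h1 h2
    have h4 : (F h).card * 3 ^ a ≤ (F h).card * 3 ^ L.card :=
      Nat.mul_le_mul_left _ (Nat.pow_le_pow_right (by norm_num) (by omega))
    have := ha h hh
    omega
  have hIn : ∀ h < N, ∀ L : Finset ℕ, (∀ s ∈ F h, RS c V s (L.image lb)) →
      (∀ r ∈ L, h < r ∧ r < N ∧ ¬ OutB c F lb h r) → L.card < b := by
    intro h hh L h1 h2
    by_contra hcon
    have h3 := hostIn hL hR hM hB hh h1 h2
    obtain ⟨k, hk⟩ := Nat.exists_eq_add_of_le (not_lt.mp hcon)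
    have h4 := hb h hh
    rw [hk, pow_add, pow_add] at h3
    have h5 : (2 : ℕ) ^ k ≤ 3 ^ k := Nat.pow_le_pow_left (by norm_num) k
    have h6 : (F h).card * (3 ^ b * 3 ^ k) ≤ (2 ^ b * M) * 3 ^ k := by
      calc (F h).card * (3 ^ b * 3 ^ k) ≤ 2 ^ b * 2 ^ k * M := h3
        _ = (2 ^ b * M) * 2 ^ k := by ring
        _ ≤ (2 ^ b * M) * 3 ^ k := Nat.mul_le_mul_left _ h5
    have h7 : (2 ^ b * M) * 3 ^ k < ((F h).card * 3 ^ b) * 3 ^ k :=
      Nat.mul_lt_mul_of_pos_right h4 (by positivity)
    have h8 : (F h).card * (3 ^ b * 3 ^ k) = ((F h).card * 3 ^ b) * 3 ^ k := by ring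
    omega
  have ha1 : 1 ≤ a := by
    have := hOut 0 hN ∅ (by
      intro s hs
      simpa using RP.single (c := c) (hB.sub 0 hN hs)) (by simp)
    omega
  have hb1 : 1 ≤ b := by
    have := hIn 0 hN ∅ (by
      intro s hs
      simpa using RS.single (c := c) (hB.sub 0 hN hs)) (by simp)
    omega
  set U : ℕ → Finset ℕ := fun h => (Finset.range N).filter fun i => i < h ∧ OutB c F lb i h
    with hU
  set S : ℕ → Finset ℕ := fun h => (Finset.range N).filter fun j => h < j ∧ ¬ OutB c F lb h j
    with hS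
  -- the sizes of the two sets
  have hUc : ∀ h < N, (U h).card ≤ b * (a - 1) := by
    intro h hh
    have hUN : ∀ r ∈ U h, r < N ∧ r < h ∧ OutB c F lb r h := by
      intro r hr
      have := Finset.mem_filter.mp hr
      exact ⟨Finset.mem_range.mp this.1, this.2⟩
    set pb : ℕ → ℕ → Prop := fun i n => ∃ L, OC c F lb (U h) i L ∧ L.card = n with hpb
    have hpb1 : ∀ i n, pb i n → n + 1 < a := by
      rintro i n ⟨L, hOC, rfl⟩
      have hiU := hOC.mem
      have hiL : i ∉ L := fun hi => absurd (hOC.sub.2 i hi) (lt_irrefl _)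
      have hOC' : OC c F lb (insert h (U h)) h (insert i L) :=
        OC.step (hOC.mono (Finset.subset_insert _ _)) (Finset.mem_insert_self _ _)
          (hUN i hiU).2.1 (hUN i hiU).2.2
      have h1 := hOut h hh (insert i L) (hOC'.path hB (by
        intro r hr
        rcases Finset.mem_insert.mp hr with rfl | hr
        · exact hh
        · exact (hUN r hr).1)) (by
        intro r hr
        rcases Finset.mem_insert.mp hr with rfl | hr
        · exact (hUN _ hiU).2
        · exact (hUN r (hOC.sub.1 hr)).2)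
      rwa [Finset.card_insert_of_notMem hiL] at h1
    set o : ℕ → ℕ := fun i => Nat.findGreatest (pb i) a with ho
    have ho1 : ∀ i ∈ U h, pb i (o i) := fun i hi =>
      Nat.findGreatest_spec (P := pb i) (Nat.zero_le _) ⟨∅, OC.single hi, rfl⟩
    have hmaps : ∀ i ∈ U h, o i ∈ Finset.range (a - 1) := by
      intro i hi
      have := hpb1 i _ (ho1 i hi)
      rw [Finset.mem_range]
      omega
    have hfib : ∀ n ∈ Finset.range (a - 1), ((U h).filter fun i => o i = n).card ≤ b := by
      intro n _
      set K := (U h).filter fun i => o i = n with hK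
      have hKU : K ⊆ U h := Finset.filter_subset _ _
      have hpair : ∀ i ∈ K, ∀ j ∈ K, i < j → ¬ OutB c F lb i j := by
        intro i hi j hj hij hout
        obtain ⟨L, hOC, hLc⟩ := ho1 i (hKU hi)
        have hiL : i ∉ L := fun hi => absurd (hOC.sub.2 i hi) (lt_irrefl _)
        have h1 : pb j (o i + 1) :=
          ⟨insert i L, OC.step hOC (hKU hj) hij hout, by
            rw [Finset.card_insert_of_notMem hiL, hLc]⟩
        have h2 : o i + 1 ≤ o j :=
          Nat.le_findGreatest (by have := hpb1 j _ h1; omega) h1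
        have h3 := (Finset.mem_filter.mp hi).2
        have h4 := (Finset.mem_filter.mp hj).2
        omega
      rcases K.eq_empty_or_nonempty with hKe | hKn
      · rw [hKe]; simp
      · set z := K.min' hKn with hz
        have hzK : z ∈ K := K.min'_mem hKn
        have hzlt : ∀ r ∈ K.erase z, z < r := by
          intro r hr
          exact K.min'_lt_of_mem_erase_min' hKn hr
        have hic := ic_of_clique (c := c) (F := F) (lb := lb) (U := K) (K.erase z) z hzlt hzK
          (Finset.erase_subset _ _) (by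
            intro i hi j hj hij
            rw [Finset.insert_erase hzK] at hi
            exact hpair i hi j (Finset.mem_of_mem_erase hj) hij)
        have h1 := hIn z (hUN z (hKU hzK)).1 (K.erase z) (hic.path hB (by
          intro r hr
          exact (hUN r (hKU hr)).1)) (by
          intro r hr
          have hrK := Finset.mem_of_mem_erase hr
          exact ⟨hzlt r hr, (hUN r (hKU hrK)).1, hpair z hzK r hrK (hzlt r hr)⟩)
        rw [Finset.card_erase_of_mem hzK] at h1
        omega
    calc (U h).card ≤ b * (Finset.range (a - 1)).card :=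
          Finset.card_le_mul_card_image_of_maps_to hmaps b hfib
      _ = b * (a - 1) := by rw [Finset.card_range]
  have hSc : ∀ h < N, (S h).card ≤ a * (b - 1) := by
    intro h hh
    have hSN : ∀ r ∈ S h, r < N ∧ h < r ∧ ¬ OutB c F lb h r := by
      intro r hr
      have := Finset.mem_filter.mp hr
      exact ⟨Finset.mem_range.mp this.1, this.2⟩
    set pb : ℕ → ℕ → Prop := fun i n => ∃ L, IC c F lb (S h) i L ∧ L.card = n with hpb
    have hpb1 : ∀ i n, pb i n → n + 1 < b := by
      rintro i n ⟨L, hIC, rfl⟩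
      have hiS := hIC.mem
      have hiL : i ∉ L := fun hi => absurd (hIC.sub.2 i hi) (lt_irrefl _)
      have hIC' : IC c F lb (insert h (S h)) h (insert i L) :=
        IC.step (hIC.mono (Finset.subset_insert _ _)) (Finset.mem_insert_self _ _)
          (hSN i hiS).2.1 (hSN i hiS).2.2
      have h1 := hIn h hh (insert i L) (hIC'.path hB (by
        intro r hr
        rcases Finset.mem_insert.mp hr with rfl | hr
        · exact hh
        · exact (hSN r hr).1)) (by
        intro r hr
        rcases Finset.mem_insert.mp hr with rfl | hr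
        · exact ⟨(hSN _ hiS).2.1, (hSN _ hiS).1, (hSN _ hiS).2.2⟩
        · have := hSN r (hIC.sub.1 hr)
          exact ⟨this.2.1, this.1, this.2.2⟩)
      rwa [Finset.card_insert_of_notMem hiL] at h1
    set o : ℕ → ℕ := fun i => Nat.findGreatest (pb i) b with ho
    have ho1 : ∀ i ∈ S h, pb i (o i) := fun i hi =>
      Nat.findGreatest_spec (P := pb i) (Nat.zero_le _) ⟨∅, IC.single hi, rfl⟩
    have hmaps : ∀ i ∈ S h, o i ∈ Finset.range (b - 1) := by
      intro i hi
      have := hpb1 i _ (ho1 i hi)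
      rw [Finset.mem_range]
      omega
    have hfib : ∀ n ∈ Finset.range (b - 1), ((S h).filter fun i => o i = n).card ≤ a := by
      intro n _
      set K := (S h).filter fun i => o i = n with hK
      have hKS : K ⊆ S h := Finset.filter_subset _ _
      have hpair : ∀ i ∈ K, ∀ j ∈ K, i < j → OutB c F lb i j := by
        intro i hi j hj hij
        by_contra hout
        obtain ⟨L, hIC, hLc⟩ := ho1 j (hKS hj)
        have hjL : j ∉ L := fun hj => absurd (hIC.sub.2 j hj) (lt_irrefl _)
        have h1 : pb i (o j + 1) :=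
          ⟨insert j L, IC.step hIC (hKS hi) hij hout, by
            rw [Finset.card_insert_of_notMem hjL, hLc]⟩
        have h2 : o j + 1 ≤ o i :=
          Nat.le_findGreatest (by have := hpb1 i _ h1; omega) h1
        have h3 := (Finset.mem_filter.mp hi).2
        have h4 := (Finset.mem_filter.mp hj).2
        omega
      rcases K.eq_empty_or_nonempty with hKe | hKn
      · rw [hKe]; simp
      · set z := K.max' hKn with hz
        have hzK : z ∈ K := K.max'_mem hKn
        have hzlt : ∀ r ∈ K.erase z, r < z := by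
          intro r hr
          exact K.lt_max'_of_mem_erase_max' hKn hr
        have hoc := oc_of_clique (c := c) (F := F) (lb := lb) (U := K) (K.erase z) z hzlt hzK
          (Finset.erase_subset _ _) (by
            intro i hi j hj hij
            rw [Finset.insert_erase hzK] at hj
            exact hpair i (Finset.mem_of_mem_erase hi) j hj hij)
        have h1 := hOut z (hSN z (hKS hzK)).1 (K.erase z) (hoc.path hB (by
          intro r hr
          exact (hSN r (hKS hr)).1)) (by
          intro r hr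
          have hrK := Finset.mem_of_mem_erase hr
          exact ⟨hzlt r hr, hpair r hrK z hzK (hzlt r hr)⟩)
        rw [Finset.card_erase_of_mem hzK] at h1
        omega
    calc (S h).card ≤ a * (Finset.range (b - 1)).card :=
          Finset.card_le_mul_card_image_of_maps_to hmaps a hfib
      _ = a * (b - 1) := by rw [Finset.card_range]
  -- double counting
  have hsum : ∑ h ∈ Finset.range N, ((U h).card + (S h).card) = ∑ j ∈ Finset.range N, j := by
    have h1 : ∀ h ∈ Finset.range N, (U h).card =
        ∑ i ∈ Finset.range N, if i < h ∧ OutB c F lb i h then 1 else 0 := by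
      intro h _
      rw [hU, Finset.card_filter]
    have h2 : ∀ h ∈ Finset.range N, (S h).card =
        ∑ j ∈ Finset.range N, if h < j ∧ ¬ OutB c F lb h j then 1 else 0 := by
      intro h _
      rw [hS, Finset.card_filter]
    rw [Finset.sum_add_distrib, Finset.sum_congr rfl h1, Finset.sum_congr rfl h2]
    rw [show (∑ h ∈ Finset.range N, ∑ j ∈ Finset.range N,
        if h < j ∧ ¬ OutB c F lb h j then 1 else 0) = ∑ j ∈ Finset.range N, ∑ h ∈ Finset.range N,
        if h < j ∧ ¬ OutB c F lb h j then 1 else 0 from Finset.sum_comm]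
    rw [← Finset.sum_add_distrib]
    refine Finset.sum_congr rfl fun j hj => ?_
    rw [← Finset.sum_add_distrib]
    have h3 : ∀ i ∈ Finset.range N, ((if i < j ∧ OutB c F lb i j then 1 else 0) +
        (if i < j ∧ ¬ OutB c F lb i j then 1 else 0)) = if i < j then 1 else 0 := by
      intro i _
      by_cases h4 : i < j <;> by_cases h5 : OutB c F lb i j <;> simp [h4, h5]
    rw [Finset.sum_congr rfl h3, ← Finset.card_filter]
    have h6 : (Finset.range N).filter (fun i => i < j) = Finset.range j := by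
      ext i
      have := Finset.mem_range.mp hj
      simp only [Finset.mem_filter, Finset.mem_range]
      omega
    rw [h6, Finset.card_range]
  have hle : ∑ h ∈ Finset.range N, ((U h).card + (S h).card) ≤
      N * (b * (a - 1) + a * (b - 1)) := by
    calc ∑ h ∈ Finset.range N, ((U h).card + (S h).card)
        ≤ ∑ h ∈ Finset.range N, (b * (a - 1) + a * (b - 1)) := by
          refine Finset.sum_le_sum fun h hh => ?_
          exact Nat.add_le_add (hUc h (Finset.mem_range.mp hh)) (hSc h (Finset.mem_range.mp hh))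
      _ = N * (b * (a - 1) + a * (b - 1)) := by rw [Finset.sum_const, Finset.card_range,
          smul_eq_mul]
  have hg := Finset.sum_range_id_mul_two N
  rw [hsum] at hle
  have h1 : N * (N - 1) ≤ N * (2 * (b * (a - 1) + a * (b - 1))) := by
    calc N * (N - 1) = (∑ j ∈ Finset.range N, j) * 2 := hg.symm
      _ ≤ (N * (b * (a - 1) + a * (b - 1))) * 2 := Nat.mul_le_mul_right _ hle
      _ = _ := by ring
  have h2 : N - 1 ≤ 2 * (b * (a - 1) + a * (b - 1)) := Nat.le_of_mul_le_mul_left h1 hN
  obtain ⟨a', rfl⟩ := Nat.exists_eq_add_of_le ha1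
  obtain ⟨b', rfl⟩ := Nat.exists_eq_add_of_le hb1
  simp only [Nat.add_sub_cancel_left] at h2
  have h3 : 4 * (1 + a') * (1 + b') =
      2 * ((1 + b') * a' + (1 + a') * b') + 1 + (2 * a' + 2 * b' + 3) := by ring
  omega

/-- **Separated blocks.** -/
theorem exists_blocks (q : ℕ) (hq : 1 ≤ q) : ∀ (N p : ℕ) (Λ : Finset ℕ) (D : ℕ → Finset ℕ),
    Λ.card = N → (∀ g ∈ Λ, ∀ g' ∈ Λ, g ≠ g' → Disjoint (D g) (D g')) →
    (∀ g ∈ Λ, N * (q - 1) < ((D g).filter fun u => p ≤ u).card) →
    ∃ (F : ℕ → Finset ℕ) (lb : ℕ → ℕ), (∀ i < N, lb i ∈ Λ) ∧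
      (∀ i < N, ∀ j < N, lb i = lb j → i = j) ∧ (∀ i < N, F i ⊆ D (lb i)) ∧
      (∀ i < N, ∀ u ∈ F i, p ≤ u) ∧ (∀ i < N, q ≤ (F i).card) ∧
      ∀ i < N, ∀ j < N, i < j → ∀ u ∈ F i, ∀ s ∈ F j, u < s := by
  intro N
  induction N with
  | zero =>
    intro p Λ D _ _ _
    exact ⟨fun _ => ∅, fun _ => 0, by omega, by omega, by omega, by omega, by omega, by omega⟩
  | succ N ih =>
    intro p Λ D hΛ hdis hD
    -- the first position at which some label has `q` points
    have hex : ∃ t, ∃ g ∈ Λ, q ≤ ((D g).filter fun u => p ≤ u ∧ u ≤ t).card := by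
      obtain ⟨g, hg⟩ : Λ.Nonempty := by
        rw [← Finset.card_pos]; omega
      refine ⟨(D g).sup id, g, hg, ?_⟩
      have h1 := hD g hg
      have h2 : ((D g).filter fun u => p ≤ u ∧ u ≤ (D g).sup id) =
          (D g).filter fun u => p ≤ u := by
        refine Finset.filter_congr fun u hu => ?_
        exact ⟨fun h => h.1, fun h => ⟨h, Finset.le_sup (f := id) hu⟩⟩
      rw [h2]
      have h3 : q - 1 ≤ (N + 1) * (q - 1) := Nat.le_mul_of_pos_left _ (by omega)
      omega
    set t := Nat.find hex with ht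
    obtain ⟨g, hg, hgt⟩ := Nat.find_spec hex
    have hmin : ∀ g' ∈ Λ, ∀ t' < t, ((D g').filter fun u => p ≤ u ∧ u ≤ t').card < q := by
      intro g' hg' t' ht'
      by_contra hcon
      exact Nat.find_min hex ht' ⟨g', hg', not_lt.mp hcon⟩
    -- `t` itself has the label `g`
    have htg : t ∈ D g := by
      by_contra hnot
      have h1 : ((D g).filter fun u => p ≤ u ∧ u ≤ t) =
          (D g).filter fun u => p ≤ u ∧ u ≤ t - 1 := by
        refine Finset.filter_congr fun u hu => ?_
        have : u ≠ t := fun h => hnot (h ▸ hu)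
        omega
      rcases Nat.eq_zero_or_pos t with h0 | h0
      · have h2 : ((D g).filter fun u => p ≤ u ∧ u ≤ t) = ∅ := by
          refine Finset.filter_eq_empty_iff.mpr fun u hu h => ?_
          have : u = t := by omega
          exact hnot (this ▸ hu)
        rw [h2, Finset.card_empty] at hgt
        omega
      · have := hmin g hg (t - 1) (by omega)
        rw [h1] at hgt
        omega
    have hothers : ∀ g' ∈ Λ.erase g, N * (q - 1) < ((D g').filter fun u => t + 1 ≤ u).card := by
      intro g' hg'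
      have hg'Λ := Finset.mem_of_mem_erase hg'
      have hne : g' ≠ g := Finset.ne_of_mem_erase hg'
      have htn : t ∉ D g' := fun h => Finset.disjoint_left.mp (hdis g' hg'Λ g hg hne) h htg
      have h1 := hD g' hg'Λ
      have h2 : ((D g').filter fun u => p ≤ u).card ≤
          ((D g').filter fun u => p ≤ u ∧ u ≤ t - 1 ∧ 1 ≤ t).card +
            ((D g').filter fun u => t + 1 ≤ u).card := by
        rw [← Finset.card_union_of_disjoint]
        · refine Finset.card_le_card fun u hu => ?_
          rw [Finset.mem_filter] at hu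
          rw [Finset.mem_union, Finset.mem_filter, Finset.mem_filter]
          have : u ≠ t := fun h => htn (h ▸ hu.1)
          rcases Nat.lt_or_ge u t with h3 | h3
          · exact Or.inl ⟨hu.1, hu.2, by omega, by omega⟩
          · exact Or.inr ⟨hu.1, by omega⟩
        · rw [Finset.disjoint_left]
          intro u h3 h4
          rw [Finset.mem_filter] at h3 h4
          omega
      have h3 : ((D g').filter fun u => p ≤ u ∧ u ≤ t - 1 ∧ 1 ≤ t).card ≤ q - 1 := by
        rcases Nat.eq_zero_or_pos t with h0 | h0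
        · have h4 : ((D g').filter fun u => p ≤ u ∧ u ≤ t - 1 ∧ 1 ≤ t) = ∅ :=
            Finset.filter_eq_empty_iff.mpr fun u _ h => by omega
          rw [h4, Finset.card_empty]
          omega
        · have h5 := hmin g' hg'Λ (t - 1) (by omega)
          have h6 : ((D g').filter fun u => p ≤ u ∧ u ≤ t - 1 ∧ 1 ≤ t).card ≤
              ((D g').filter fun u => p ≤ u ∧ u ≤ t - 1).card := by
            refine Finset.card_le_card fun u hu => ?_
            rw [Finset.mem_filter] at hu ⊢
            exact ⟨hu.1, hu.2.1, hu.2.2.1⟩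
          omega
      have h4 : (N + 1) * (q - 1) = N * (q - 1) + (q - 1) := by ring
      omega
    obtain ⟨F, lb, h1, h2, h3, h4, h5, h6⟩ := ih (t + 1) (Λ.erase g) D (by
      rw [Finset.card_erase_of_mem hg]; omega) (fun g₁ hg₁ g₂ hg₂ hne =>
        hdis g₁ (Finset.mem_of_mem_erase hg₁) g₂ (Finset.mem_of_mem_erase hg₂) hne) hothers
    have hpt : p ≤ t := by
      by_contra hcon
      have : ((D g).filter fun u => p ≤ u ∧ u ≤ t) = ∅ :=
        Finset.filter_eq_empty_iff.mpr fun u _ h => by omega
      rw [this, Finset.card_empty] at hgt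
      omega
    refine ⟨fun i => if i = 0 then (D g).filter fun u => p ≤ u ∧ u ≤ t else F (i - 1),
      fun i => if i = 0 then g else lb (i - 1), ?_, ?_, ?_, ?_, ?_, ?_⟩
    · intro i hi
      by_cases h0 : i = 0
      · simp only [if_pos h0]; exact hg
      · simp only [if_neg h0]
        exact Finset.mem_of_mem_erase (h1 (i - 1) (by omega))
    · intro i hi j hj hij
      by_cases h0 : i = 0 <;> by_cases h0' : j = 0
      · omega
      · simp only [if_pos h0, if_neg h0'] at hij
        exact absurd hij.symm (Finset.ne_of_mem_erase (h1 (j - 1) (by omega)))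
      · simp only [if_neg h0, if_pos h0'] at hij
        exact absurd hij (Finset.ne_of_mem_erase (h1 (i - 1) (by omega)))
      · simp only [if_neg h0, if_neg h0'] at hij
        have := h2 (i - 1) (by omega) (j - 1) (by omega) hij
        omega
    · intro i hi
      by_cases h0 : i = 0
      · simp only [if_pos h0]; exact Finset.filter_subset _ _
      · simp only [if_neg h0]; exact h3 (i - 1) (by omega)
    · intro i hi u hu
      by_cases h0 : i = 0
      · simp only [if_pos h0] at hu; exact (Finset.mem_filter.mp hu).2.1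
      · simp only [if_neg h0] at hu
        have := h4 (i - 1) (by omega) u hu
        omega
    · intro i hi
      by_cases h0 : i = 0
      · simp only [if_pos h0]; exact hgt
      · simp only [if_neg h0]; exact h5 (i - 1) (by omega)
    · intro i hi j hj hij u hu s hs
      have h0' : j ≠ 0 := by omega
      simp only [if_neg h0'] at hs
      by_cases h0 : i = 0
      · simp only [if_pos h0] at hu
        have h7 := (Finset.mem_filter.mp hu).2.2
        have h8 := h4 (j - 1) (by omega) s hs
        omega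
      · simp only [if_neg h0] at hu
        exact h6 (i - 1) (by omega) (j - 1) (by omega) (by omega) u hu s hs

theorem pow_four_lt (k : ℕ) : (k + 10) ^ 4 < 3 ^ (k + 20) := by
  induction k with
  | zero => norm_num
  | succ k ih =>
    have h1 : (k + 1 + 10) ^ 4 ≤ 3 * (k + 10) ^ 4 := by
      have h2 : 3 * (k + 10) ^ 4 = (k + 1 + 10) ^ 4 +
          (2 * k ^ 4 + 76 * k ^ 3 + 1074 * k ^ 2 + 6676 * k + 15359) := by ring
      omega
    calc (k + 1 + 10) ^ 4 ≤ 3 * (k + 10) ^ 4 := h1
      _ < 3 * 3 ^ (k + 20) := by omega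
      _ = 3 ^ (k + 1 + 20) := by ring

/-- the points with the label `g` -/
noncomputable def cl (f : ℕ → ℕ) (X : Finset ℕ) (g : ℕ) : Finset ℕ :=
  X.filter fun u => f u = g

variable {X : Finset ℕ} {f : ℕ → ℕ}

/-- **Few heavy labels.** -/
theorem card_heavy (hL : Lev c V 3 lev) (hR : Rk c V R)
    (hM : ∀ W ⊆ V, ∀ r ≤ R, Rk c W r → W.card * 3 ^ (R - r) ≤ M) (hX : X ⊆ V)
    (hone : ∀ u ∈ X, 1 ≤ lev (f u) u)
    (star : ∀ u ∈ X, ∀ s ∈ X, u < s → f u ≠ f s → c u s = f u ∨ c u s = f s) (k : ℕ) :
    ((X.image f).filter fun g => M ≤ 3 ^ k * (cl f X g).card).card < (k + 10) ^ 4 := by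
  by_contra hcon
  obtain ⟨Λ, hΛ, hΛc⟩ := Finset.exists_subset_card_eq (not_lt.mp hcon)
  set N := (k + 10) ^ 4 with hN
  have hNpos : 0 < N := by positivity
  have hNk : N * 3 ^ k < 9 ^ (k + 10) := by
    calc N * 3 ^ k < 3 ^ (k + 20) * 3 ^ k :=
          Nat.mul_lt_mul_of_pos_right (pow_four_lt k) (by positivity)
      _ = 9 ^ (k + 10) := by
        rw [← pow_add, show (9 : ℕ) = 3 ^ 2 by norm_num, ← pow_mul]
        congr 1
        ring
  set q := (M - 1) / (N * 3 ^ k) + 1 with hq
  have hqpos : 1 ≤ q := by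
    rw [hq]
    exact Nat.le_add_left 1 _
  have hq1 : M ≤ q * (N * 3 ^ k) := by
    have h1 : M - 1 < q * (N * 3 ^ k) := by
      have := Nat.lt_div_mul_add (a := M - 1) (b := N * 3 ^ k) (by positivity)
      calc M - 1 < (M - 1) / (N * 3 ^ k) * (N * 3 ^ k) + N * 3 ^ k := this
        _ = _ := by rw [hq]; ring
    omega
  have hq2 : ∀ g ∈ Λ, N * (q - 1) < (cl f X g).card := by
    intro g hg
    have h1 := Finset.mem_filter.mp (hΛ hg)
    obtain ⟨u, hu, hug⟩ := Finset.mem_image.mp h1.1
    have h2 : 0 < (cl f X g).card :=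
      Finset.card_pos.mpr ⟨u, Finset.mem_filter.mpr ⟨hu, hug⟩⟩
    rcases Nat.eq_zero_or_pos M with h0 | h0
    · have : q = 1 := by rw [hq, h0]; simp
      rw [this]
      simpa using h2
    · have h3 : (q - 1) * (N * 3 ^ k) ≤ M - 1 := by
        rw [hq, Nat.add_sub_cancel]
        exact Nat.div_mul_le_self _ _
      have h4 : (N * (q - 1)) * 3 ^ k < (cl f X g).card * 3 ^ k := by
        calc (N * (q - 1)) * 3 ^ k = (q - 1) * (N * 3 ^ k) := by ring
          _ < M := by omega
          _ ≤ 3 ^ k * (cl f X g).card := h1.2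
          _ = _ := by ring
      exact Nat.lt_of_mul_lt_mul_right h4
  obtain ⟨F, lb, h1, h2, h3, h4, h5, h6⟩ := exists_blocks q hqpos N 0 Λ (cl f X) hΛc (by
      intro g _ g' _ hne
      rw [Finset.disjoint_left]
      intro u hu hu'
      exact hne (((Finset.mem_filter.mp hu).2).symm.trans (Finset.mem_filter.mp hu').2))
    (by
      intro g hg
      have := hq2 g hg
      simpa using this)
  have hFX : ∀ i < N, ∀ u ∈ F i, u ∈ X ∧ f u = lb i := fun i hi u hu =>
    Finset.mem_filter.mp (h3 i hi hu)
  have hB : Blk c V lev N F lb :=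
    { sub := fun i hi u hu => hX (hFX i hi u hu).1
      ne := fun i hi => by
        rw [← Finset.card_pos]
        have := h5 i hi
        omega
      one := fun i hi u hu => by
        have := hone u (hFX i hi u hu).1
        rwa [(hFX i hi u hu).2] at this
      inj := h2
      lt := h6
      star := by
        intro i hi j hj hij u hu s hs
        have h7 := hFX i hi u hu
        have h8 := hFX j hj s hs
        have h9 := star u h7.1 s h8.1 (h6 i hi j hj hij u hu s hs) (by
          rw [h7.2, h8.2]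
          intro h
          have := h2 i hi j hj h
          omega)
        rwa [h7.2, h8.2] at h9 }
  have h7 := blocks_false (a := 2 * k + 20) (b := 6 * k + 60) hL hR hM hB (by
      intro i hi
      have h8 : q * (N * 3 ^ k) < q * 3 ^ (2 * k + 20) := by
        refine Nat.mul_lt_mul_of_pos_left ?_ hqpos
        calc N * 3 ^ k < 9 ^ (k + 10) := hNk
          _ = 3 ^ (2 * k + 20) := by
            rw [show (9 : ℕ) = 3 ^ 2 by norm_num, ← pow_mul]
            congr 1
      calc M ≤ q * (N * 3 ^ k) := hq1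
        _ < q * 3 ^ (2 * k + 20) := h8
        _ ≤ (F i).card * 3 ^ (2 * k + 20) := Nat.mul_le_mul_right _ (h5 i hi))
    (by
      intro i hi
      have h9 : 2 ^ (6 * k + 60) * (N * 3 ^ k) < 3 ^ (6 * k + 60) := by
        calc 2 ^ (6 * k + 60) * (N * 3 ^ k) < 2 ^ (6 * k + 60) * 9 ^ (k + 10) :=
              Nat.mul_lt_mul_of_pos_left hNk (by positivity)
          _ = 576 ^ (k + 10) := by
            rw [show 6 * k + 60 = 6 * (k + 10) by ring, pow_mul, ← mul_pow]
            norm_num
          _ ≤ 729 ^ (k + 10) := Nat.pow_le_pow_left (by norm_num) _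
          _ = 3 ^ (6 * k + 60) := by
            rw [show 6 * k + 60 = 6 * (k + 10) by ring, pow_mul]
            norm_num
      calc 2 ^ (6 * k + 60) * M ≤ 2 ^ (6 * k + 60) * (q * (N * 3 ^ k)) :=
            Nat.mul_le_mul_left _ hq1
        _ = q * (2 ^ (6 * k + 60) * (N * 3 ^ k)) := by ring
        _ < q * 3 ^ (6 * k + 60) := Nat.mul_lt_mul_of_pos_left h9 hqpos
        _ ≤ (F i).card * 3 ^ (6 * k + 60) := Nat.mul_le_mul_right _ (h5 i hi))
  have h8 : 4 * (2 * k + 20) * (6 * k + 60) < N := by
    rw [hN]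
    have h9 : 4 * (2 * k + 20) * (6 * k + 60) = 48 * (k + 10) ^ 2 := by ring
    have h10 : (k + 10) ^ 4 = (k + 10) ^ 2 * (k + 10) ^ 2 := by ring
    have h11 : 100 ≤ (k + 10) ^ 2 := by nlinarith
    rw [h9, h10]
    nlinarith
  omega

/-- the number of the points with light labels -/
theorem sum_light (hL : Lev c V 3 lev) (hR : Rk c V R)
    (hM : ∀ W ⊆ V, ∀ r ≤ R, Rk c W r → W.card * 3 ^ (R - r) ≤ M) (hX : X ⊆ V)
    (hone : ∀ u ∈ X, 1 ≤ lev (f u) u)
    (star : ∀ u ∈ X, ∀ s ∈ X, u < s → f u ≠ f s → c u s = f u ∨ c u s = f s) :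
    ∀ n k, 15 ≤ k → M ≤ 3 ^ (k + n) →
      3 ^ (k + 1) * ∑ g ∈ (X.image f).filter (fun g => 3 ^ k * (cl f X g).card < M),
        (cl f X g).card ≤ 5 * (k + 11) ^ 4 * M := by
  intro n
  induction n with
  | zero =>
    intro k _ hMk
    have h1 : (X.image f).filter (fun g => 3 ^ k * (cl f X g).card < M) = ∅ := by
      refine Finset.filter_eq_empty_iff.mpr fun g hg => ?_
      obtain ⟨u, hu, hug⟩ := Finset.mem_image.mp hg
      have h2 : 0 < (cl f X g).card :=
        Finset.card_pos.mpr ⟨u, Finset.mem_filter.mpr ⟨hu, hug⟩⟩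
      have h3 : 3 ^ k * 1 ≤ 3 ^ k * (cl f X g).card := Nat.mul_le_mul_left _ h2
      simp only [add_zero] at hMk
      omega
    rw [h1]
    simp
  | succ n ih =>
    intro k hk hMk
    have h1 := ih (k + 1) (by omega) (by
      rw [show k + 1 + n = k + (n + 1) by ring]; exact hMk)
    set A := (X.image f).filter (fun g => M ≤ 3 ^ (k + 1) * (cl f X g).card) with hA
    set B := (X.image f).filter (fun g => 3 ^ (k + 1) * (cl f X g).card < M) with hB
    have h2 : ∑ g ∈ (X.image f).filter (fun g => 3 ^ k * (cl f X g).card < M),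
        (cl f X g).card ≤
        (∑ g ∈ A.filter (fun g => 3 ^ k * (cl f X g).card < M), (cl f X g).card) +
          ∑ g ∈ B, (cl f X g).card := by
      rw [← Finset.sum_union]
      · refine Finset.sum_le_sum_of_subset fun g hg => ?_
        rw [Finset.mem_filter] at hg
        rw [Finset.mem_union, Finset.mem_filter, hA, hB, Finset.mem_filter, Finset.mem_filter]
        rcases Nat.lt_or_ge (3 ^ (k + 1) * (cl f X g).card) M with h | h
        · exact Or.inr ⟨hg.1, h⟩
        · exact Or.inl ⟨⟨hg.1, h⟩, hg.2⟩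
      · rw [Finset.disjoint_left]
        intro g h3 h4
        have h5 := (Finset.mem_filter.mp (Finset.mem_filter.mp h3).1).2
        have h6 := (Finset.mem_filter.mp h4).2
        omega
    have h3 : 3 ^ k * ∑ g ∈ A.filter (fun g => 3 ^ k * (cl f X g).card < M),
        (cl f X g).card ≤ (k + 11) ^ 4 * M := by
      rw [Finset.mul_sum]
      calc ∑ g ∈ A.filter (fun g => 3 ^ k * (cl f X g).card < M),
            3 ^ k * (cl f X g).card
          ≤ ∑ g ∈ A.filter (fun g => 3 ^ k * (cl f X g).card < M), M :=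
            Finset.sum_le_sum fun g hg => (Finset.mem_filter.mp hg).2.le
        _ = (A.filter (fun g => 3 ^ k * (cl f X g).card < M)).card * M := by
            rw [Finset.sum_const, smul_eq_mul]
        _ ≤ A.card * M := Nat.mul_le_mul_right _ (Finset.card_filter_le _ _)
        _ ≤ (k + 11) ^ 4 * M := Nat.mul_le_mul_right _
            (card_heavy hL hR hM hX hone star (k + 1)).le
    have h4 : 5 * (k + 12) ^ 4 ≤ 6 * (k + 11) ^ 4 := by
      obtain ⟨j, rfl⟩ := Nat.exists_eq_add_of_le hk
      ring_nf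
      nlinarith [sq_nonneg (j : ℤ)]
    have h5 : 3 * (3 ^ (k + 1) *
        ∑ g ∈ (X.image f).filter (fun g => 3 ^ k * (cl f X g).card < M),
        (cl f X g).card) ≤ 3 * (5 * (k + 11) ^ 4 * M) := by
      calc 3 * (3 ^ (k + 1) * ∑ g ∈ (X.image f).filter
            (fun g => 3 ^ k * (cl f X g).card < M), (cl f X g).card)
          ≤ 3 * (3 ^ (k + 1) * ((∑ g ∈ A.filter (fun g => 3 ^ k * (cl f X g).card < M),
              (cl f X g).card) + ∑ g ∈ B, (cl f X g).card)) := by gcongr
        _ = 9 * (3 ^ k * ∑ g ∈ A.filter (fun g => 3 ^ k * (cl f X g).card < M),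
              (cl f X g).card) + 3 ^ (k + 1 + 1) * ∑ g ∈ B, (cl f X g).card := by ring
        _ ≤ 9 * ((k + 11) ^ 4 * M) + 5 * (k + 1 + 11) ^ 4 * M := by gcongr
        _ = 9 * ((k + 11) ^ 4 * M) + (5 * (k + 12) ^ 4) * M := by ring
        _ ≤ 9 * ((k + 11) ^ 4 * M) + (6 * (k + 11) ^ 4) * M := by gcongr
        _ = 3 * (5 * (k + 11) ^ 4 * M) := by ring
    exact Nat.le_of_mul_le_mul_left h5 (by norm_num)

/-- **Light labels.** (exact form of (LAB), (2), (3)) -/
theorem card_light_labels (hL : Lev c V 3 lev) (hR : Rk c V R)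
    (hM : ∀ W ⊆ V, ∀ r ≤ R, Rk c W r → W.card * 3 ^ (R - r) ≤ M) (hX : X ⊆ V) (f : ℕ → ℕ)
    (hone : ∀ u ∈ X, 1 ≤ lev (f u) u)
    (star : ∀ u ∈ X, ∀ s ∈ X, u < s → f u ≠ f s → c u s = f u ∨ c u s = f s) {k : ℕ}
    (hk : 15 ≤ k) (hlight : ∀ g, 3 ^ k * (X.filter fun u => f u = g).card < M) :
    3 ^ (k + 1) * X.card ≤ 5 * (k + 11) ^ 4 * M := by
  have h1 := sum_light (f := f) hL hR hM hX hone star M k hk (by
    have h2 : M < 3 ^ M := Nat.lt_pow_self (by norm_num)
    have h3 : (3 : ℕ) ^ M ≤ 3 ^ (k + M) := Nat.pow_le_pow_right (by norm_num) (by omega)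
    omega)
  have h2 : (X.image f).filter (fun g => 3 ^ k * (cl f X g).card < M) = X.image f :=
    Finset.filter_true_of_mem fun g _ => hlight g
  rw [h2] at h1
  have h3 : X.card = ∑ g ∈ X.image f, (cl f X g).card :=
    Finset.card_eq_sum_card_fiberwise fun u hu => Finset.mem_image_of_mem _ hu
  rwa [← h3] at h1

/-- the labels are colours of arcs into the points -/
theorem one_le_lev (hL : Lev c V 3 lev) {x u : ℕ} (hx : x ∈ V) (hu : u ∈ V) (hxu : x < u) :
    1 ≤ lev (c x u) u := by
  have := hL.up x hx u hu hxu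
  omega

/-- **Two routes.** Suppose that all labels are light and that no arc of `X` leads to a second
route from `x`: then `X` is small. -/
theorem two_routes (hL : Lev c V 3 lev) (hR : Rk c V R)
    (hM : ∀ W ⊆ V, ∀ r ≤ R, Rk c W r → W.card * 3 ^ (R - r) ≤ M) (hx : x ∈ V) (hX : X ⊆ V)
    (hgt : ∀ u ∈ X, x < u)
    (star : ∀ u ∈ X, ∀ s ∈ X, u < s → c x u ≠ c x s → c u s = c x u ∨ c u s = c x s)
    (hlight : ∀ g, 3 ^ 15 * (X.filter fun u => c x u = g).card < M) : 16 * X.card ≤ M := by
  have h1 := card_light_labels hL hR hM hX (c x)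
    (fun u hu => one_le_lev hL hx (hX hu) (hgt u hu)) star le_rfl hlight
  norm_num at h1
  omega

/-- **Free points.** If all labels are light, almost every point behind `x` can be reached from `x`
by a second route with two other colours. -/
theorem card_not_free (hL : Lev c V 3 lev) (hR : Rk c V R)
    (hM : ∀ W ⊆ V, ∀ r ≤ R, Rk c W r → W.card * 3 ^ (R - r) ≤ M) (hx : x ∈ V)
    (hlight : ∀ g, 3 ^ 15 * (V.filter fun u => x < u ∧ c x u = g).card < M) :
    16 * (V.filter fun s => x < s ∧ ∀ u ∈ V, x < u → u < s → c x u ≠ c x s →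
      c u s = c x u ∨ c u s = c x s).card ≤ M := by
  refine two_routes hL hR hM hx (Finset.filter_subset _ _)
    (fun u hu => (Finset.mem_filter.mp hu).2.1) ?_ ?_
  · intro u hu s hs hus hne
    have h1 := Finset.mem_filter.mp hu
    have h2 := Finset.mem_filter.mp hs
    exact h2.2.2 u h1.1 h1.2.1 hus hne
  · intro g
    refine lt_of_le_of_lt ?_ (hlight g)
    refine Nat.mul_le_mul_left _ (Finset.card_le_card fun u hu => ?_)
    simp only [Finset.mem_filter] at hu ⊢
    exact ⟨hu.1.1, hu.1.2.1, hu.2⟩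

end FlashRainbow.CF
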