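import Pool.Agent.Work.MP_54723a_co.CF.Light
import Pool.Agent.Work.MP_54723a_co.CF.TwoRoutes

/-!
# One fixed exceptional colour (point of helper14, 130530, repaired)

`HI x h`: the in-class of colour `h` at `x` has at least `|V| / A` points; `HO z g`: the same for
out-classes.

* `tri` : `HI x h`, `HO z g`, `x < z` imply `c x z = h` or `g = h` or `g = c x z`.
* `suffix_dichotomy` : split `V` at `p`. Given the exact LAB lemma, either few points before `p`
  have a heavy in-class, or there is ONE colour `γ` such that few points after `p` have a heavy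
  out-class of a colour different from `γ`.
* `suffix_light` : a set `W` with at least `|V| / 8` points, all of whose out-classes (or all of
  whose in-classes) inside `W` are light, given the LAB lemma.
* `light_part` : the same without hypothesis (LAB = `card_light_labels` of helper66).
-/

set_option autoImplicit false

namespace FlashRainbow.CF

open Classical

variable {c : ℕ → ℕ → ℕ} {V : Finset ℕ} {R A C : ℕ} {lev : ℕ → ℕ → ℕ}

/-- heavy in-class -/
def HI (c : ℕ → ℕ → ℕ) (V : Finset ℕ) (A x h : ℕ) : Prop := V.card ≤ A * (InC c V x h).card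

/-- heavy out-class -/
def HO (c : ℕ → ℕ → ℕ) (V : Finset ℕ) (A z g : ℕ) : Prop := V.card ≤ A * (OutC c V z g).card

/-- bound for light classes -/
def Lt (R C : ℕ) : ℕ := 2 * (3 ^ (R - 1 - C) * KC C)

theorem tri (hL : Lev c V 3 lev) (hR : Rk c V R) (hE : Ext c V R) (hV : 0 < V.card)
    (hC : 2 * A < 3 ^ (C + 2)) (hΛ : A * Lt R C < V.card) {x z h g : ℕ} (hx : x ∈ V) (hz : z ∈ V)
    (hxz : x < z) (h1 : HI c V A x h) (h2 : HO c V A z g) :
    c x z = h ∨ g = h ∨ g = c x z := by
  by_contra hcon
  rw [not_or, not_or] at hcon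
  have h3 := zone_out hL hR hE hx hz hxz h1 hV hC hcon.1 hcon.2.1 hcon.2.2
  have h4 : A * (OutC c V z g).card ≤ A * Lt R C := Nat.mul_le_mul_left _ h3
  have h5 : V.card ≤ A * (OutC c V z g).card := h2
  omega

theorem sum_comm_card (X Z : Finset ℕ) (t : ℕ → ℕ → Prop) [∀ x z, Decidable (t x z)] :
    ∑ x ∈ X, (Z.filter fun z => t x z).card = ∑ z ∈ Z, (X.filter fun x => t x z).card := by
  simp only [Finset.card_filter]
  exact Finset.sum_comm

/-- the number of heavy out-colours -/
theorem heavy_out_count {z : ℕ} (hV : 0 < V.card) (S : Finset ℕ) (hS : ∀ g ∈ S, HO c V A z g) :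
    S.card ≤ A := by
  have h1 : ∑ g ∈ S, (OutC c V z g).card ≤ V.card := by
    rw [← Finset.card_biUnion]
    · exact Finset.card_le_card (Finset.biUnion_subset.mpr fun g _ => Finset.filter_subset _ _)
    · intro g _ g' _ hne
      rw [Function.onFun, Finset.disjoint_left]
      intro v hv hv'
      exact hne ((Finset.mem_filter.mp hv).2.2.symm.trans (Finset.mem_filter.mp hv').2.2)
  have h2 : S.card * V.card ≤ A * V.card := by
    calc S.card * V.card = ∑ _g ∈ S, V.card := by rw [Finset.sum_const, smul_eq_mul]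
      _ ≤ ∑ g ∈ S, A * (OutC c V z g).card := Finset.sum_le_sum hS
      _ = A * ∑ g ∈ S, (OutC c V z g).card := by rw [Finset.mul_sum]
      _ ≤ A * V.card := Nat.mul_le_mul_left _ h1
  exact Nat.le_of_mul_le_mul_right h2 hV

/-- **the dichotomy** -/
theorem suffix_dichotomy (hL : Lev c V 3 lev) (hR : Rk c V R) (hE : Ext c V R) (hV : 0 < V.card)
    (hC : 2 * A < 3 ^ (C + 2)) {A₁ A₂ N : ℕ} (hA₁ : 1 ≤ A₁) (hA₂ : 1 ≤ A₂) (hA : 4 * A₁ * A₂ ≤ A)
    (hΛ : A * (A * Lt R C) < V.card)
    (hLab : ∀ Z ⊆ V, ∀ g : ℕ → ℕ, (∀ z ∈ Z, ∃ u ∈ V, u < z ∧ c u z = g z) →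
      (∀ z ∈ Z, ∀ z' ∈ Z, z < z' → g z = g z' ∨ c z z' = g z ∨ c z z' = g z') →
      (∀ γ, (Z.filter fun z => g z = γ).card ≤ Lt R C) → Z.card ≤ N)
    (hN : 4 * A₁ * A₂ * N < V.card) (p : ℕ) :
    A₂ * (V.filter fun x => x < p ∧ ∃ h, HI c V A x h).card < V.card ∨
    ∃ γ, A₁ * (V.filter fun z => p ≤ z ∧ ∃ g, g ≠ γ ∧ HO c V A z g).card < V.card := by
  by_contra hcon
  push Not at hcon
  obtain ⟨hX, hZ⟩ := hcon
  have hA0 : 1 ≤ A := by
    have : 1 ≤ 4 * A₁ * A₂ := Nat.mul_pos (by omega) hA₂
    omega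
  have hΛ' : A * Lt R C < V.card := by
    refine lt_of_le_of_lt ?_ hΛ
    exact Nat.mul_le_mul_left _ (Nat.le_mul_of_pos_left _ hA0)
  set X := V.filter fun x => x < p ∧ ∃ h, HI c V A x h with hXdef
  set Z := V.filter fun z => p ≤ z ∧ ∃ g, HO c V A z g with hZdef
  have hXV : X ⊆ V := Finset.filter_subset _ _
  have hZV : Z ⊆ V := Finset.filter_subset _ _
  have hXZ : ∀ x ∈ X, ∀ z ∈ Z, x < z := by
    intro x hx z hz
    have h1 := (Finset.mem_filter.mp hx).2.1
    have h2 := (Finset.mem_filter.mp hz).2.1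
    omega
  have hex : ∀ x ∈ X, ∃ h, HI c V A x h := fun x hx => (Finset.mem_filter.mp hx).2.2
  choose! hh hhI using hex
  -- light classes
  have hlo : ∀ x ∈ X, ∀ g, g ≠ hh x → (OutC c V x g).card ≤ Lt R C := fun x hx g hg =>
    hl_out hL hR hE (hXV hx) (hhI x hx) hV hC hg
  have hli : ∀ z ∈ V, ∀ g, HO c V A z g → ∀ h, h ≠ g → (InC c V z h).card ≤ Lt R C :=
    fun z hz g hg h hh => hl_in hL hR hE hz hg hV hC hh
  set t2 : ℕ → ℕ → Prop := fun x z => c x z = hh x ∧ ∃ g, g ≠ hh x ∧ HO c V A z g with ht2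
  set t3 : ℕ → ℕ → Prop := fun x z => c x z ≠ hh x ∧ HO c V A z (c x z) with ht3
  set T2 := ∑ x ∈ X, (Z.filter fun z => t2 x z).card with hT2
  set T3 := ∑ x ∈ X, (Z.filter fun z => t3 x z).card with hT3
  have hXpos : 0 < X.card := by
    rcases Nat.eq_zero_or_pos X.card with h | h
    · rw [h, Nat.mul_zero] at hX
      omega
    · exact h
  have hcount : X.card * V.card ≤ A₁ * (T2 + T3) := by
    calc X.card * V.card = ∑ _x ∈ X, V.card := by rw [Finset.sum_const, smul_eq_mul]
      _ ≤ ∑ x ∈ X, A₁ * ((Z.filter fun z => t2 x z).card + (Z.filter fun z => t3 x z).card) := by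
        refine Finset.sum_le_sum fun x hx => (hZ (hh x)).trans (Nat.mul_le_mul_left _ ?_)
        refine le_trans (Finset.card_le_card ?_) (Finset.card_union_le _ _)
        intro z hz
        obtain ⟨h1, h2, g, h3, h4⟩ := Finset.mem_filter.mp hz
        have hzZ : z ∈ Z := Finset.mem_filter.mpr ⟨h1, h2, g, h4⟩
        rcases tri hL hR hE hV hC hΛ' (hXV hx) h1 (hXZ x hx z hzZ) (hhI x hx) h4 with h5 | h5 | h5
        · exact Finset.mem_union_left _ (Finset.mem_filter.mpr ⟨hzZ, h5, g, h3, h4⟩)
        · exact absurd h5 h3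
        · exact Finset.mem_union_right _ (Finset.mem_filter.mpr ⟨hzZ, h5 ▸ h3, h5 ▸ h4⟩)
      _ = A₁ * (T2 + T3) := by rw [← Finset.mul_sum, Finset.sum_add_distrib]
  rcases le_total T3 T2 with hcase | hcase
  · -- type 2
    have h1 : X.card * V.card ≤ 2 * A₁ * T2 := by
      calc X.card * V.card ≤ A₁ * (T2 + T3) := hcount
        _ ≤ A₁ * (T2 + T2) := by gcongr
        _ = _ := by ring
    set X' := X.filter fun x => V.card ≤ A * (Z.filter fun z => t2 x z).card with hX'
    have hX'X : X' ⊆ X := Finset.filter_subset _ _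
    set T2' := ∑ x ∈ X', (Z.filter fun z => t2 x z).card with hT2'
    have h2 : A * T2 ≤ A * T2' + X.card * V.card := by
      have h3 : T2 = T2' + ∑ x ∈ X.filter (fun x => ¬ V.card ≤ A * (Z.filter fun z => t2 x z).card),
          (Z.filter fun z => t2 x z).card := by
        rw [hT2, hT2', hX']
        exact (Finset.sum_filter_add_sum_filter_not _ _ _).symm
      have h4 : ∑ x ∈ X.filter (fun x => ¬ V.card ≤ A * (Z.filter fun z => t2 x z).card),
          A * (Z.filter fun z => t2 x z).card ≤ X.card * V.card := by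
        calc _ ≤ ∑ _x ∈ X.filter (fun x => ¬ V.card ≤ A * (Z.filter fun z => t2 x z).card),
              V.card := Finset.sum_le_sum fun x hx => (not_le.mp (Finset.mem_filter.mp hx).2).le
          _ = (X.filter fun x => ¬ V.card ≤ A * (Z.filter fun z => t2 x z).card).card *
              V.card := by rw [Finset.sum_const, smul_eq_mul]
          _ ≤ X.card * V.card := Nat.mul_le_mul_right _ (Finset.card_filter_le _ _)
      rw [← Finset.mul_sum] at h4
      rw [h3, Nat.mul_add]
      exact Nat.add_le_add_left h4 _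
    have h3 : X.card * V.card ≤ 4 * A₁ * T2' := by
      have h4 : A * (X.card * V.card) ≤ 2 * A₁ * (A * T2') + 2 * A₁ * (X.card * V.card) := by
        calc A * (X.card * V.card) ≤ A * (2 * A₁ * T2) := Nat.mul_le_mul_left _ h1
          _ = 2 * A₁ * (A * T2) := by ring
          _ ≤ 2 * A₁ * (A * T2' + X.card * V.card) := Nat.mul_le_mul_left _ h2
          _ = _ := by ring
      have h5 : 2 * (2 * A₁ * (X.card * V.card)) ≤ A * (X.card * V.card) := by
        calc 2 * (2 * A₁ * (X.card * V.card)) = 4 * A₁ * 1 * (X.card * V.card) := by ring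
          _ ≤ 4 * A₁ * A₂ * (X.card * V.card) := by gcongr
          _ ≤ A * (X.card * V.card) := Nat.mul_le_mul_right _ hA
      have h6 : A * (X.card * V.card) ≤ A * (4 * A₁ * T2') := by
        calc A * (X.card * V.card) ≤ 2 * (2 * A₁ * (A * T2')) := by omega
          _ = A * (4 * A₁ * T2') := by ring
      exact Nat.le_of_mul_le_mul_left h6 hA0
    -- a popular `z`
    obtain ⟨z, hz, hzbig⟩ : ∃ z ∈ Z, X.card ≤ 4 * A₁ * (X'.filter fun x => t2 x z).card := by
      by_contra hno
      push Not at hno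
      have h4 : 4 * A₁ * T2' = ∑ z ∈ Z, 4 * A₁ * (X'.filter fun x => t2 x z).card := by
        rw [hT2', sum_comm_card X' Z t2, Finset.mul_sum]
      have h5 : ∑ z ∈ Z, 4 * A₁ * (X'.filter fun x => t2 x z).card ≤ Z.card * (X.card - 1) := by
        refine (Finset.sum_le_card_nsmul Z _ (X.card - 1) fun z hz => ?_).trans
          (by rw [smul_eq_mul])
        have := hno z hz
        omega
      have h6 : Z.card * (X.card - 1) ≤ V.card * (X.card - 1) :=
        Nat.mul_le_mul_right _ (Finset.card_le_card hZV)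
      have h7 : V.card * (X.card - 1) < X.card * V.card := by
        rw [Nat.mul_comm X.card]
        exact Nat.mul_lt_mul_of_pos_left (by omega) hV
      omega
    set Xs := X'.filter fun x => t2 x z with hXs
    have hXsX : Xs ⊆ X := (Finset.filter_subset _ _).trans hX'X
    have hlab := hLab Xs (hXsX.trans hXV) hh (by
      intro x hx
      have h5 : V.card ≤ A * (InC c V x (hh x)).card := hhI x (hXsX hx)
      have h6 : 0 < (InC c V x (hh x)).card := by
        rcases Nat.eq_zero_or_pos (InC c V x (hh x)).card with h0 | h0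
        · rw [h0, Nat.mul_zero] at h5
          omega
        · exact h0
      obtain ⟨u, hu⟩ := Finset.card_pos.mp h6
      obtain ⟨h7, h8, h9⟩ := Finset.mem_filter.mp hu
      exact ⟨u, h7, h8, h9⟩) (by
      intro x hx x' hx' hlt
      have h5 := (Finset.mem_filter.mp ((Finset.filter_subset _ _ : Xs ⊆ X') hx')).2
      have h6 : HO c V A x' (hh x') := by
        refine le_trans h5 (Nat.mul_le_mul_left _ (Finset.card_le_card ?_))
        intro z' hz'
        obtain ⟨h7, h8, -⟩ := Finset.mem_filter.mp hz'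
        exact Finset.mem_filter.mpr ⟨hZV h7, hXZ x' (hXsX hx') z' h7, h8⟩
      rcases tri hL hR hE hV hC hΛ' (hXV (hXsX hx)) (hXV (hXsX hx')) hlt
        (hhI x (hXsX hx)) h6 with h7 | h7 | h7
      · exact Or.inr (Or.inl h7)
      · exact Or.inl h7.symm
      · exact Or.inr (Or.inr h7.symm)) (by
      intro γ
      rcases (Xs.filter fun x => hh x = γ).eq_empty_or_nonempty with h0 | ⟨x₀, hx₀⟩
      · rw [h0, Finset.card_empty]
        omega
      · obtain ⟨h5, h6⟩ := Finset.mem_filter.mp hx₀
        obtain ⟨-, -, g, h7, h8⟩ := Finset.mem_filter.mp h5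
        refine le_trans (Finset.card_le_card ?_) (hli z (hZV hz) g h8 γ (by rw [← h6]; exact h7.symm))
        intro x hx
        obtain ⟨h9, h10⟩ := Finset.mem_filter.mp hx
        have h11 := (Finset.mem_filter.mp h9).2.1
        exact Finset.mem_filter.mpr ⟨hXV (hXsX h9), hXZ x (hXsX h9) z hz, h11.trans h10⟩)
    have h4 : V.card ≤ 4 * A₁ * A₂ * N := by
      calc V.card ≤ A₂ * X.card := hX
        _ ≤ A₂ * (4 * A₁ * Xs.card) := Nat.mul_le_mul_left _ hzbig
        _ ≤ A₂ * (4 * A₁ * N) := by gcongr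
        _ = _ := by ring
    omega
  · -- type 3
    have h1 : X.card * V.card ≤ 2 * A₁ * T3 := by
      calc X.card * V.card ≤ A₁ * (T2 + T3) := hcount
        _ ≤ A₁ * (T3 + T3) := by gcongr
        _ = _ := by ring
    set Z' := Z.filter fun z => V.card ≤ A * (X.filter fun x => t3 x z).card with hZ'
    have hZ'Z : Z' ⊆ Z := Finset.filter_subset _ _
    set T3' := ∑ z ∈ Z', (X.filter fun x => t3 x z).card with hT3'
    have h2 : A * T3 ≤ A * T3' + V.card * V.card := by
      have h3 : T3 = T3' + ∑ z ∈ Z.filter (fun z => ¬ V.card ≤ A * (X.filter fun x => t3 x z).card),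
          (X.filter fun x => t3 x z).card := by
        rw [hT3, hT3', hZ', sum_comm_card X Z t3]
        exact (Finset.sum_filter_add_sum_filter_not _ _ _).symm
      have h4 : ∑ z ∈ Z.filter (fun z => ¬ V.card ≤ A * (X.filter fun x => t3 x z).card),
          A * (X.filter fun x => t3 x z).card ≤ V.card * V.card := by
        calc _ ≤ ∑ _z ∈ Z.filter (fun z => ¬ V.card ≤ A * (X.filter fun x => t3 x z).card),
              V.card := Finset.sum_le_sum fun z hz => (not_le.mp (Finset.mem_filter.mp hz).2).le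
          _ = (Z.filter fun z => ¬ V.card ≤ A * (X.filter fun x => t3 x z).card).card *
              V.card := by rw [Finset.sum_const, smul_eq_mul]
          _ ≤ V.card * V.card := Nat.mul_le_mul_right _
              ((Finset.card_filter_le _ _).trans (Finset.card_le_card hZV))
      rw [← Finset.mul_sum] at h4
      rw [h3, Nat.mul_add]
      exact Nat.add_le_add_left h4 _
    have h3 : X.card * V.card ≤ 4 * A₁ * T3' := by
      have h4 : A * (X.card * V.card) ≤ 2 * A₁ * (A * T3') + 2 * A₁ * (V.card * V.card) := by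
        calc A * (X.card * V.card) ≤ A * (2 * A₁ * T3) := Nat.mul_le_mul_left _ h1
          _ = 2 * A₁ * (A * T3) := by ring
          _ ≤ 2 * A₁ * (A * T3' + V.card * V.card) := Nat.mul_le_mul_left _ h2
          _ = _ := by ring
      have h5 : 2 * (2 * A₁ * (V.card * V.card)) ≤ A * (X.card * V.card) := by
        calc 2 * (2 * A₁ * (V.card * V.card)) ≤ 2 * (2 * A₁ * (A₂ * X.card * V.card)) := by
              gcongr
          _ = 4 * A₁ * A₂ * (X.card * V.card) := by ring
          _ ≤ A * (X.card * V.card) := Nat.mul_le_mul_right _ hA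
      have h6 : A * (X.card * V.card) ≤ A * (4 * A₁ * T3') := by
        calc A * (X.card * V.card) ≤ 2 * (2 * A₁ * (A * T3')) := by omega
          _ = A * (4 * A₁ * T3') := by ring
      exact Nat.le_of_mul_le_mul_left h6 hA0
    obtain ⟨x, hx, hxbig⟩ : ∃ x ∈ X, V.card ≤ 4 * A₁ * (Z'.filter fun z => t3 x z).card := by
      by_contra hno
      push Not at hno
      have h4 : 4 * A₁ * T3' = ∑ x ∈ X, 4 * A₁ * (Z'.filter fun z => t3 x z).card := by
        rw [hT3', ← sum_comm_card X Z' t3, Finset.mul_sum]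
      have h5 : ∑ x ∈ X, 4 * A₁ * (Z'.filter fun z => t3 x z).card ≤ X.card * (V.card - 1) := by
        refine (Finset.sum_le_card_nsmul X _ (V.card - 1) fun x hx => ?_).trans
          (by rw [smul_eq_mul])
        have := hno x hx
        omega
      have h7 : X.card * (V.card - 1) < X.card * V.card :=
        Nat.mul_lt_mul_of_pos_left (by omega) hXpos
      omega
    set Zs := Z'.filter fun z => t3 x z with hZs
    have hZsZ : Zs ⊆ Z := (Finset.filter_subset _ _).trans hZ'Z
    -- all points of `Zs` are in-heavy in the colour `c x z`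
    have hin : ∀ z ∈ Zs, HI c V A z (c x z) := by
      intro z hz
      obtain ⟨hz1, hz2, hz3⟩ := Finset.mem_filter.mp hz
      have hbig := (Finset.mem_filter.mp hz1).2
      have hzV := hZV (hZsZ hz)
      by_cases hall : ∀ x' ∈ X.filter (fun x' => t3 x' z), c x' z = c x z
      · refine le_trans hbig (Nat.mul_le_mul_left _ (Finset.card_le_card ?_))
        intro x' hx'
        have h5 := (Finset.mem_filter.mp hx').1
        exact Finset.mem_filter.mpr ⟨hXV h5, hXZ x' h5 z (hZsZ hz), hall x' hx'⟩
      · exfalso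
        push Not at hall
        obtain ⟨x', hx', hne⟩ := hall
        have h5 := (Finset.mem_filter.mp hx').2.2
        have hlight : ∀ h, (InC c V z h).card ≤ Lt R C := by
          intro h
          by_cases h6 : h = c x z
          · exact hli z hzV _ h5 h (by rw [h6]; exact hne.symm)
          · exact hli z hzV _ hz3 h h6
        set S := ((X.filter fun x' => t3 x' z).image fun x' => c x' z) with hS
        have hSA : S.card ≤ A := heavy_out_count hV S (by
          intro g hg
          obtain ⟨y, hy, rfl⟩ := Finset.mem_image.mp hg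
          exact (Finset.mem_filter.mp hy).2.2)
        have h6 : (X.filter fun x' => t3 x' z).card ≤ A * Lt R C := by
          calc (X.filter fun x' => t3 x' z).card ≤ (S.biUnion fun g => InC c V z g).card := by
                refine Finset.card_le_card fun y hy => ?_
                have h7 := (Finset.mem_filter.mp hy).1
                exact Finset.mem_biUnion.mpr ⟨c y z, Finset.mem_image_of_mem _ hy,
                  Finset.mem_filter.mpr ⟨hXV h7, hXZ y h7 z (hZsZ hz), rfl⟩⟩
            _ ≤ S.card * Lt R C := Finset.card_biUnion_le_card_mul _ _ _ fun g _ => hlight g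
            _ ≤ A * Lt R C := Nat.mul_le_mul_right _ hSA
        have h7 := Nat.mul_le_mul_left A h6
        omega
    have hlab := hLab Zs (hZsZ.trans hZV) (fun z => c x z)
      (fun z hz => ⟨x, hXV hx, hXZ x hx z (hZsZ hz), rfl⟩) (by
      intro z hz z' hz' hlt
      have h5 := (Finset.mem_filter.mp hz').2.2
      rcases tri hL hR hE hV hC hΛ' (hZV (hZsZ hz)) (hZV (hZsZ hz')) hlt (hin z hz) h5 with
        h7 | h7 | h7
      · exact Or.inr (Or.inl h7)
      · exact Or.inl h7.symm
      · exact Or.inr (Or.inr h7.symm)) (by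
      intro γ
      rcases (Zs.filter fun z => c x z = γ).eq_empty_or_nonempty with h0 | ⟨z₀, hz₀⟩
      · rw [h0, Finset.card_empty]
        omega
      · obtain ⟨h5, h6⟩ := Finset.mem_filter.mp hz₀
        have h7 := (Finset.mem_filter.mp h5).2.1
        refine le_trans (Finset.card_le_card ?_) (hlo x hx γ (by rw [← h6]; exact h7))
        intro z hz
        obtain ⟨h9, h10⟩ := Finset.mem_filter.mp hz
        exact Finset.mem_filter.mpr ⟨hZV (hZsZ h9), hXZ x hx z (hZsZ h9), h10⟩)
    have h4 : V.card ≤ 4 * A₁ * A₂ * N := by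
      calc V.card ≤ 4 * A₁ * Zs.card := hxbig
        _ ≤ 4 * A₁ * N := Nat.mul_le_mul_left _ hlab
        _ = 4 * A₁ * 1 * N := by ring
        _ ≤ 4 * A₁ * A₂ * N := by gcongr
    omega

theorem exists_median (V : Finset ℕ) : ∃ p, (V.filter fun x => x < p).card = V.card / 2 := by
  have hex : ∃ p, V.card / 2 ≤ (V.filter fun x => x < p).card := by
    refine ⟨V.sup id + 1, ?_⟩
    have h1 : (V.filter fun x => x < V.sup id + 1) = V :=
      Finset.filter_true_of_mem fun x hx => Nat.lt_succ_of_le (Finset.le_sup (f := id) hx)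
    rw [h1]
    omega
  refine ⟨Nat.find hex, le_antisymm ?_ (Nat.find_spec hex)⟩
  rcases Nat.eq_zero_or_pos (Nat.find hex) with h0 | h0
  · rw [h0]
    simp
  · have h1 := Nat.find_min hex (m := Nat.find hex - 1) (by omega)
    have h2 : (V.filter fun x => x < Nat.find hex) ⊆
        insert (Nat.find hex - 1) (V.filter fun x => x < Nat.find hex - 1) := by
      intro x hx
      obtain ⟨h3, h4⟩ := Finset.mem_filter.mp hx
      by_cases h5 : x = Nat.find hex - 1
      · exact Finset.mem_insert.mpr (Or.inl h5)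
      · exact Finset.mem_insert_of_mem (Finset.mem_filter.mpr ⟨h3, by omega⟩)
    have h3 := (Finset.card_le_card h2).trans (Finset.card_insert_le _ _)
    omega

/-- **A completely light part** of size at least `|V| / 8`. -/
theorem suffix_light (hL : Lev c V 3 lev) (hR : Rk c V R) (hE : Ext c V R)
    (hC : 2 * A < 3 ^ (C + 2)) (hA : 256 ≤ A) (hΛ : A * (A * Lt R C) < V.card) {N : ℕ}
    (hLab : ∀ Z ⊆ V, ∀ g : ℕ → ℕ, (∀ z ∈ Z, ∃ u ∈ V, u < z ∧ c u z = g z) →
      (∀ z ∈ Z, ∀ z' ∈ Z, z < z' → g z = g z' ∨ c z z' = g z ∨ c z z' = g z') →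
      (∀ γ, (Z.filter fun z => g z = γ).card ≤ Lt R C) → Z.card ≤ N)
    (hN : 256 * N < V.card) :
    ∃ W ⊆ V, V.card ≤ 8 * W.card ∧
      ((∀ y ∈ W, ∀ g, A * (W.filter fun v => y < v ∧ c y v = g).card < V.card) ∨
       (∀ y ∈ W, ∀ g, A * (W.filter fun v => v < y ∧ c v y = g).card < V.card)) := by
  have hLt : 1 ≤ Lt R C := by
    unfold Lt KC
    exact Nat.mul_pos (by norm_num) (by positivity)
  have hVbig : 256 < V.card := by
    refine lt_of_le_of_lt ?_ hΛ
    calc 256 ≤ A := hA
      _ = A * 1 := (Nat.mul_one A).symm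
      _ ≤ A * (A * Lt R C) := Nat.mul_le_mul_left _ (Nat.mul_pos (by omega) hLt)
  obtain ⟨p, hp⟩ := exists_median V
  have hp' : (V.filter fun x => ¬ x < p).card = V.card - V.card / 2 := by
    have := Finset.card_filter_add_card_filter_not (s := V) (fun x => x < p)
    omega
  rcases suffix_dichotomy (A₁ := 8) (A₂ := 8) (N := N) hL hR hE (by omega) hC (by norm_num)
    (by norm_num) (by omega) hΛ hLab (by omega) p with h | ⟨γ, h⟩
  · refine ⟨V.filter fun x => x < p ∧ ¬ ∃ h, HI c V A x h, Finset.filter_subset _ _, ?_, Or.inr ?_⟩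
    · have h1 : (V.filter fun x => x < p) ⊆ (V.filter fun x => x < p ∧ ∃ h, HI c V A x h) ∪
          (V.filter fun x => x < p ∧ ¬ ∃ h, HI c V A x h) := by
        intro x hx
        obtain ⟨h2, h3⟩ := Finset.mem_filter.mp hx
        by_cases h4 : ∃ h, HI c V A x h
        · exact Finset.mem_union_left _ (Finset.mem_filter.mpr ⟨h2, h3, h4⟩)
        · exact Finset.mem_union_right _ (Finset.mem_filter.mpr ⟨h2, h3, h4⟩)
      have h2 := (Finset.card_le_card h1).trans (Finset.card_union_le _ _)
      omega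
    · intro y hy g
      obtain ⟨-, -, h1⟩ := Finset.mem_filter.mp hy
      push Not at h1
      have h2 : ¬ V.card ≤ A * (InC c V y g).card := h1 g
      refine lt_of_le_of_lt (Nat.mul_le_mul_left _ (Finset.card_le_card ?_)) (not_le.mp h2)
      intro v hv
      obtain ⟨h3, h4⟩ := Finset.mem_filter.mp hv
      exact Finset.mem_filter.mpr ⟨(Finset.mem_filter.mp h3).1, h4⟩
  · set W₀ := V.filter fun z => p ≤ z ∧ ¬ ∃ g, g ≠ γ ∧ HO c V A z g with hW₀
    have hW₀V : W₀ ⊆ V := Finset.filter_subset _ _
    have hW₀c : 3 * V.card ≤ 8 * W₀.card := by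
      have h1 : (V.filter fun x => ¬ x < p) ⊆
          (V.filter fun z => p ≤ z ∧ ∃ g, g ≠ γ ∧ HO c V A z g) ∪ W₀ := by
        intro x hx
        obtain ⟨h2, h3⟩ := Finset.mem_filter.mp hx
        by_cases h4 : ∃ g, g ≠ γ ∧ HO c V A x g
        · exact Finset.mem_union_left _ (Finset.mem_filter.mpr ⟨h2, by omega, h4⟩)
        · exact Finset.mem_union_right _ (Finset.mem_filter.mpr ⟨h2, by omega, h4⟩)
      have h2 := (Finset.card_le_card h1).trans (Finset.card_union_le _ _)
      omega
    obtain ⟨b, -, hb⟩ := exists_big_fiber W₀ (fun v => lev γ v) (Finset.range 3) ⟨0, by simp⟩ (by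
        intro v hv
        rw [Finset.mem_range]
        exact hL.lt _ v (hW₀V hv))
    rw [Finset.card_range] at hb
    refine ⟨W₀.filter fun v => lev γ v = b, (Finset.filter_subset _ _).trans hW₀V, by omega,
      Or.inl ?_⟩
    intro y hy g
    obtain ⟨h1, h2⟩ := Finset.mem_filter.mp hy
    by_cases hg : g = γ
    · have h3 : ((W₀.filter fun v => lev γ v = b).filter fun v => y < v ∧ c y v = g) = ∅ := by
        rw [Finset.filter_eq_empty_iff]
        rintro v hv ⟨h4, h5⟩
        obtain ⟨h6, h7⟩ := Finset.mem_filter.mp hv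
        have h8 := hL.up y (hW₀V h1) v (hW₀V h6) h4
        rw [h5, hg] at h8
        omega
      rw [h3, Finset.card_empty]
      omega
    · have h3 : ¬ V.card ≤ A * (OutC c V y g).card := fun h4 =>
        (Finset.mem_filter.mp h1).2.2 ⟨g, hg, h4⟩
      refine lt_of_le_of_lt (Nat.mul_le_mul_left _ (Finset.card_le_card ?_)) (not_le.mp h3)
      intro v hv
      obtain ⟨h4, h5⟩ := Finset.mem_filter.mp hv
      exact Finset.mem_filter.mpr ⟨hW₀V (Finset.mem_filter.mp h4).1, h5⟩

/-- **A completely light part**, no hypothesis left. -/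
theorem light_part (hL : Lev c V 3 lev) (hR : Rk c V R) (hE : Ext c V R)
    (hC : 2 * A < 3 ^ (C + 2)) (hA : 3 ^ 10 ≤ A) (hΛ : A * (A * Lt R C) < V.card) :
    ∃ W ⊆ V, V.card ≤ 8 * W.card ∧
      ((∀ y ∈ W, ∀ g, A * (W.filter fun v => y < v ∧ c y v = g).card < V.card) ∨
       (∀ y ∈ W, ∀ g, A * (W.filter fun v => v < y ∧ c v y = g).card < V.card)) := by
  have hA' : 256 ≤ A := le_trans (by norm_num) hA
  have hV : 0 < V.card := by omega
  refine suffix_light (N := (V.card - 1) / 256) hL hR hE hC hA' hΛ ?_ (by omega)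
  intro Z hZ g hin hpair hlight
  have h1 := card_light_labels (k := 20) (M := V.card) hL hR hE hZ g (by
      intro u hu
      obtain ⟨w, hw, hwu, hc⟩ := hin u hu
      have h2 := one_le_lev hL hw (hZ hu) hwu
      rwa [hc] at h2) (by
      intro u hu s hs hus hne
      rcases hpair u hu s hs hus with h2 | h2 | h2
      · exact absurd h2 hne
      · exact Or.inl h2
      · exact Or.inr h2) (by norm_num) (by
      intro γ
      refine lt_of_le_of_lt ?_ hΛ
      have h2 : 3 ^ 20 ≤ A * A := by
        calc 3 ^ 20 = 3 ^ 10 * 3 ^ 10 := by norm_num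
          _ ≤ A * A := Nat.mul_le_mul hA hA
      calc 3 ^ 20 * (Z.filter fun z => g z = γ).card ≤ (A * A) * Lt R C :=
            Nat.mul_le_mul h2 (hlight γ)
        _ = A * (A * Lt R C) := by ring)
  norm_num at h1
  omega

end FlashRainbow.CF
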